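import Pool.Agent.THX.UBchar

/-!
# THX, module UBfin: the upper bound of Essén and Shea for `D lam`, `1 ≤ lam ≤ 3/2`

`D lam ≤ -(π lam) / (1 + |sin (π lam)|)`.
-/

set_option autoImplicit false

namespace Pool.Agent.THX

open Filter Topology MeasureTheory Set Real
open Pool.Agent.MML (minMod maxMod nevT lowerOrder minRatio D)

theorem minMod_le (f : ℂ → ℂ) {r : ℝ} (hr : 0 ≤ r) (θ : ℝ) : minMod f r ≤ ‖f (ub_w r θ)‖ := by
  refine csInf_le ⟨0, ?_⟩ ⟨ub_w r θ, ?_, rfl⟩
  · rintro x ⟨z, _, rfl⟩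
    exact norm_nonneg _
  · rw [mem_sphere_zero_iff_norm]
    exact ub_w_norm hr θ

/-- from a strict family of bounds to the closed bound -/
theorem D_le_of_lt {lam c0 : ℝ} (hc0 : 0 < c0)
    (h : ∀ c, 0 < c → c < c0 → D lam ≤ ((-c : ℝ) : EReal)) : D lam ≤ ((-c0 : ℝ) : EReal) := by
  refine EReal.le_of_forall_lt_iff_le.1 fun z hz => ?_
  have hz' : -c0 < z := by exact_mod_cast hz
  have h1 : 0 < max (-z) (c0 / 2) := lt_of_lt_of_le (by linarith) (le_max_right _ _)
  have h2 : max (-z) (c0 / 2) < c0 := max_lt (by linarith) (by linarith)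
  refine (h _ h1 h2).trans ?_
  have h3 : -z ≤ max (-z) (c0 / 2) := le_max_left _ _
  exact_mod_cast (by linarith : -max (-z) (c0 / 2) ≤ z)

theorem upper_gt {lam : ℝ} (h1 : 1 < lam) (h2 : lam ≤ 3 / 2) :
    D lam ≤ ((-(π * lam / (1 - sin (π * lam))) : ℝ) : EReal) := by
  have hl2 : lam < 2 := by linarith
  have hl : 0 < lam := by linarith
  have hpi := pi_pos
  have hA := ub_A_pos h1 hl2
  have hs : 0 < 1 - sin (π * lam) := by
    rw [ub_sin]
    have : 0 < sin (π * (lam - 1)) := by
      apply sin_pos_of_pos_of_lt_pi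
      · exact mul_pos hpi (by linarith)
      · nlinarith
    linarith
  have hc0 : 0 < π * lam / (1 - sin (π * lam)) := by positivity
  obtain ⟨f, hf⟩ := ub_exists hl hl2
  obtain ⟨C, hC, hcr⟩ := ub_crude h1 hl2 hf
  obtain ⟨cl, Rl, θl, hcl, hRl, hθ1, hθ2, hlo⟩ := ub_lower h1 hl2 hf
  have hord : lowerOrder f = (lam : EReal) := ub_order hC hcl hcr hlo
  have hlim : Tendsto (fun r : ℝ => r ^ (lam - 1)) atTop atTop := tendsto_rpow_atTop (by linarith)
  have hlimL : Tendsto (fun r : ℝ => r ^ lam) atTop atTop := tendsto_rpow_atTop hl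
  -- f is not constant
  have hnc : ¬ ∃ c : ℂ, ∀ z, f z = c := by
    rintro ⟨c, hc⟩
    obtain ⟨R, hR⟩ := ((hlimL.eventually_ge_atTop ((‖c‖ + 1) / cl)).and
      (eventually_ge_atTop Rl)).exists_forall_of_atTop
    obtain ⟨h3, h4⟩ := hR R le_rfl
    have h5 := hlo R h4
    rw [hc] at h5
    rw [div_le_iff₀ hcl] at h3
    have h6 := add_one_le_exp (cl * R ^ lam)
    linarith
  refine D_le_of_lt hc0 fun c hcpos hclt => ?_
  -- choice of η
  set B : ℝ := ub_A lam * (1 - sin (π * lam)) / (π * lam) with hB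
  have hB0 : 0 < B := by positivity
  have hcB : c * B < ub_A lam := by
    rw [lt_div_iff₀ hs] at hclt
    rw [hB, mul_div_assoc', div_lt_iff₀ (by positivity)]
    nlinarith
  set g : ℝ := ub_A lam - c * B with hg
  have hg0 : 0 < g := by linarith
  set η : ℝ := min (π / 2) (π * g / (2 * (c * C))) with hη
  have hη0 : 0 < η := lt_min (by positivity) (by positivity)
  have hη1 : η < π := lt_of_le_of_lt (min_le_left _ _) (by linarith)
  have hηg : c * (η * C / π) ≤ g / 2 := by
    have h3 : η ≤ π * g / (2 * (c * C)) := min_le_right _ _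
    rw [le_div_iff₀ (by positivity)] at h3
    rw [mul_div_assoc', div_le_iff₀ hpi]
    nlinarith
  set E1 : ℝ := 1 / sin η * (1 / (lam - 1) + 1) with hE1
  set E2 : ℝ := 1 / (lam - 1) + 1 with hE2
  have hlam1 : 0 < lam - 1 := by linarith
  have hE20 : 0 < E2 := by positivity
  have hsinη : 0 < sin η := sin_pos_of_pos_of_lt_pi hη0 hη1
  have hE10 : 0 < E1 := by positivity
  obtain ⟨R, hR⟩ := ((hlim.eventually_ge_atTop (2 * (c * E1 + E2) / g)).and
    (eventually_ge_atTop (max Rl 1))).exists_forall_of_atTop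
  refine D_le hf.1 hnc hord (R := R) fun r hr => ?_
  obtain ⟨h3, h4⟩ := hR r hr
  have hr1 : 1 ≤ r := (le_max_right _ _).trans h4
  have hrl : Rl ≤ r := (le_max_left _ _).trans h4
  have hr0 : 0 < r := by linarith
  have hrp : 0 < r ^ lam := rpow_pos_of_pos hr0 _
  constructor
  · refine nevT_pos hf.1 hθ1 hθ2 (lt_of_lt_of_le ?_ (hlo r hrl))
    exact one_lt_exp_iff.2 (by positivity)
  · have hT := nevT_le h1 h2 hf hC hcr hη0 hη1 hr1
    have hpt : |(0 : ℝ)| ≤ π - π / 2 := by
      rw [abs_zero]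
      linarith
    obtain ⟨hne, has⟩ := ub_asym h1 hl2 hf hr0 (half_pos hpi) (by linarith) hpt
    rw [mul_zero, cos_zero, mul_one, sin_pi_div_two, div_one] at has
    have h5 := (abs_le.1 has).2
    refine (minMod_le f hr0.le 0).trans ?_
    rw [← log_le_iff_le_exp (norm_pos_iff.2 hne)]
    have h6 : 2 * (c * E1 + E2) * r ≤ g * r ^ lam := by
      have e1 : r ^ lam = r ^ (lam - 1) * r := by
        rw [← rpow_add_one hr0.ne']
        congr 1
        ring
      rw [div_le_iff₀ hg0] at h3
      rw [e1]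
      nlinarith
    have h7 : c * nevT f r ≤ c * ((B + η * C / π) * r ^ lam + E1 * r) :=
      mul_le_mul_of_nonneg_left hT hcpos.le
    have h8 : c * (η * C / π) * r ^ lam ≤ g / 2 * r ^ lam :=
      mul_le_mul_of_nonneg_right hηg hrp.le
    have h9 : c * ((B + η * C / π) * r ^ lam + E1 * r) =
        c * B * r ^ lam + c * (η * C / π) * r ^ lam + c * E1 * r := by ring
    have h10 : r * (1 / (lam - 1) + 1) = E2 * r := by rw [hE2]; ring
    rw [h10] at h5
    have h11 : ub_A lam * r ^ lam = g * r ^ lam + c * B * r ^ lam := by rw [hg]; ring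
    nlinarith

/-! ### the case `lam = 1`: the exponential function -/

theorem exp_norm (r θ : ℝ) : ‖Complex.exp (ub_w r θ)‖ = exp (r * cos θ) := by
  rw [Complex.norm_exp]
  unfold ub_w
  rw [Complex.re_ofReal_mul, Complex.exp_ofReal_mul_I_re]

theorem exp_maxMod {r : ℝ} (hr : 0 ≤ r) : maxMod Complex.exp r = exp r := by
  have hub : ∀ x ∈ (fun z : ℂ => ‖Complex.exp z‖) '' Metric.sphere (0 : ℂ) r, x ≤ exp r := by
    rintro x ⟨z, hz, rfl⟩
    rw [mem_sphere_zero_iff_norm] at hz
    simp only [Complex.norm_exp]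
    exact exp_le_exp.2 (by rw [← hz]; exact Complex.re_le_norm z)
  have hmem : exp r ∈ (fun z : ℂ => ‖Complex.exp z‖) '' Metric.sphere (0 : ℂ) r := by
    refine ⟨ub_w r 0, ?_, ?_⟩
    · rw [mem_sphere_zero_iff_norm]
      exact ub_w_norm hr 0
    · simp only [exp_norm, cos_zero, mul_one]
  exact le_antisymm (csSup_le ⟨_, hmem⟩ hub) (le_csSup ⟨_, hub⟩ hmem)

theorem exp_order : lowerOrder Complex.exp = ((1 : ℝ) : EReal) := by
  have hlim : Tendsto (fun r : ℝ => log (log (maxMod Complex.exp r)) / log r) atTop (𝓝 1) := by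
    refine tendsto_const_nhds.congr' ?_
    filter_upwards [eventually_ge_atTop (2 : ℝ)] with r hr
    rw [exp_maxMod (by linarith), log_exp, div_self (log_pos (by linarith)).ne']
  have hE : Tendsto (fun r : ℝ => ((log (log (maxMod Complex.exp r)) / log r : ℝ) : EReal)) atTop
      (𝓝 ((1 : ℝ) : EReal)) := (continuous_coe_real_ereal.tendsto 1).comp hlim
  exact hE.liminf_eq

theorem exp_nevT {r : ℝ} (hr : 0 ≤ r) : nevT Complex.exp r = r / π := by
  have hpi := pi_pos
  rw [nevT_eq]
  have e1 : ∀ θ : ℝ, posLog ‖Complex.exp (ub_w r θ)‖ = r * max (cos θ) 0 := by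
    intro θ
    rw [exp_norm, posLog, log_exp, mul_max_of_nonneg _ _ hr, mul_zero, max_comm]
  have e2 : ∫ θ in (-π)..π, posLog ‖Complex.exp (ub_w r θ)‖ =
      r * ∫ θ in (-π)..π, max (cos θ) 0 := by
    rw [← intervalIntegral.integral_const_mul]
    apply intervalIntegral.integral_congr
    intro θ _
    exact e1 θ
  have hcont : Continuous (fun θ : ℝ => max (cos θ) 0) := by fun_prop
  have hii : ∀ u v : ℝ, IntervalIntegrable (fun θ : ℝ => max (cos θ) 0) volume u v :=
    fun u v => hcont.intervalIntegrable u v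
  have hM : ∫ θ in (-(π / 2))..(π / 2), max (cos θ) 0 = 2 := by
    have : ∫ θ in (-(π / 2))..(π / 2), max (cos θ) 0 = ∫ θ in (-(π / 2))..(π / 2), cos θ := by
      apply intervalIntegral.integral_congr
      intro θ hθ
      rw [uIcc_of_le (by linarith)] at hθ
      exact max_eq_left (cos_nonneg_of_mem_Icc hθ)
    rw [this, integral_cos, sin_neg, sin_pi_div_two]
    norm_num
  have hR : ∫ θ in (π / 2)..π, max (cos θ) 0 = 0 := by
    have : ∫ θ in (π / 2)..π, max (cos θ) 0 = ∫ θ in (π / 2)..π, (0 : ℝ) := by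
      apply intervalIntegral.integral_congr
      intro θ hθ
      rw [uIcc_of_le (by linarith)] at hθ
      exact max_eq_right (cos_nonpos_of_pi_div_two_le_of_le hθ.1 (by linarith [hθ.2]))
    rw [this]
    simp
  have hL : ∫ θ in (-π)..(-(π / 2)), max (cos θ) 0 = 0 := by
    refine Eq.trans ?_ hR
    have := intervalIntegral.integral_comp_neg (a := π / 2) (b := π) (fun θ : ℝ => max (cos θ) 0)
    rw [← this]
    apply intervalIntegral.integral_congr
    intro θ _
    simp only [cos_neg]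
  rw [e2, ← intervalIntegral.integral_add_adjacent_intervals (hii (-π) (-(π / 2))) (hii (-(π / 2)) π),
    ← intervalIntegral.integral_add_adjacent_intervals (hii (-(π / 2)) (π / 2)) (hii (π / 2) π),
    hR, hM, hL]
  field_simp
  ring

theorem upper_one : D 1 ≤ ((-π : ℝ) : EReal) := by
  have hpi := pi_pos
  refine D_le Complex.differentiable_exp ?_ exp_order (R := 1) fun r hr => ?_
  · rintro ⟨c, hc⟩
    have h0 := hc 0
    have h1 := hc 1
    have h2 : Complex.exp 1 = Complex.exp 0 := by rw [h0, h1]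
    have h3 := congrArg norm h2
    rw [Complex.norm_exp, Complex.norm_exp, Complex.one_re, Complex.zero_re, exp_eq_exp] at h3
    norm_num at h3
  · have hr0 : 0 < r := by linarith
    rw [exp_nevT hr0.le]
    constructor
    · positivity
    · refine (minMod_le _ hr0.le π).trans (le_of_eq ?_)
      rw [exp_norm, cos_pi]
      congr 1
      field_simp

/-- **THEOREM UB** -/
theorem upper (lam : ℝ) (h1 : 1 ≤ lam) (h2 : lam ≤ 5 / 4) :
    Pool.Agent.MML.D lam ≤ ((-(π * lam) / (1 + |sin (π * lam)|) : ℝ) : EReal) := by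
  rcases h1.eq_or_lt with rfl | h1
  · have : -(π * 1) / (1 + |sin (π * 1)|) = -π := by
      rw [mul_one, sin_pi, abs_zero, add_zero, div_one]
    rw [this]
    exact upper_one
  · have hs : sin (π * lam) ≤ 0 := by
      rw [ub_sin]
      have : 0 < sin (π * (lam - 1)) := by
        apply sin_pos_of_pos_of_lt_pi
        · exact mul_pos pi_pos (by linarith)
        · nlinarith [pi_pos]
      linarith
    rw [abs_of_nonpos hs, neg_div]
    exact upper_gt h1 (by linarith)

/-- the same bound on `[1, 3/2]` -/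
theorem upper' (lam : ℝ) (h1 : 1 ≤ lam) (h2 : lam ≤ 3 / 2) :
    Pool.Agent.MML.D lam ≤ ((-(π * lam) / (1 + |sin (π * lam)|) : ℝ) : EReal) := by
  rcases h1.eq_or_lt with rfl | h1
  · exact upper 1 le_rfl (by norm_num)
  · have hs : sin (π * lam) ≤ 0 := by
      rw [ub_sin]
      have : 0 < sin (π * (lam - 1)) := by
        apply sin_pos_of_pos_of_lt_pi
        · exact mul_pos pi_pos (by linarith)
        · nlinarith [pi_pos]
      linarith
    rw [abs_of_nonpos hs, neg_div]
    exact upper_gt h1 h2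

end Pool.Agent.THX
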