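import Pool.Agent.THX.Clus

/-!
# THX, module Break: a break point without clusters nearby

For each `k ≥ 1` the set of bad `τ`: there is `s`, `|s-τ| < 4^{-k}`, with `cntP univ x 256^{-k} s ≥ 2^{-k} A`; then `#{i : |τ - x i| ≤ 2·4^{-k}} ≥ 2^{-k} A`; only the `x i ∈ [a-2, a+5/2]` matter for `τ ∈ [a, a+1/2]`;
`clus_meas`: measure `≤ 4·4^{-k} N/(2^{-k} A) = 4 2^{-k} N/A`, sum `≤ 4 N/A ≤ 1/4`.  `k = 0`: `N < A`.  The finite set `{x i}` has measure zero.
-/

set_option autoImplicit false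
set_option linter.all false

namespace Pool.Agent.THX

open Real MeasureTheory Set Filter Topology

theorem break_pt {n : ℕ} (x : Fin n → ℝ) (a A : ℝ) (hA : 0 < A)
    (hN : 16 * ((Finset.univ.filter (fun i => a - 2 ≤ x i ∧ x i ≤ a + 5 / 2)).card : ℝ) ≤ A) :
    ∃ τ : ℝ, a ≤ τ ∧ τ ≤ a + 1 / 2 ∧ (∀ i, x i ≠ τ) ∧ ∀ k : ℕ, ∀ s : ℝ, |s - τ| < (1 / 4) ^ k →
      cntP Finset.univ x ((1 / 256) ^ k) s < (1 / 2) ^ k * A := by
  classical
  set P := Finset.univ.filter (fun i => a - 2 ≤ x i ∧ x i ≤ a + 5 / 2) with hP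
  set N : ℝ := (P.card : ℝ) with hN'
  have hN0 : 0 ≤ N := by positivity
  set B : ℕ → Set ℝ := fun k => {s | (1 / 2) ^ (k + 1) * A ≤ cntP P x (2 * (1 / 4) ^ (k + 1)) s}
    with hB
  have hBv : ∀ k, volume (B k) ≤ ENNReal.ofReal (2 * N / A * (1 / 2) ^ k) := by
    intro k
    refine (clus_meas P x (by positivity : (0 : ℝ) ≤ 2 * (1 / 4) ^ (k + 1))
      (by positivity : 0 < (1 / 2 : ℝ) ^ (k + 1) * A)).2.trans ?_
    apply ENNReal.ofReal_le_ofReal
    apply le_of_eq
    have h4 : (1 / 4 : ℝ) ^ (k + 1) = (1 / 2) ^ (k + 1) * (1 / 2) ^ (k + 1) := by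
      rw [← mul_pow]; norm_num
    have h5 : (1 / 2 : ℝ) ^ (k + 1) ≠ 0 := by positivity
    rw [h4, div_eq_iff (by positivity)]
    have h6 : (1 / 2 : ℝ) ^ (k + 1) = (1 / 2) ^ k * (1 / 2) := pow_succ _ _
    rw [h6]
    field_simp
    ring
  -- a good point
  have hex : ∃ τ ∈ Icc a (a + 1 / 2), τ ∉ (⋃ k, B k) ∪ Set.range x := by
    by_contra hcon
    push Not at hcon
    have h1 : volume (Icc a (a + 1 / 2)) ≤ volume ((⋃ k, B k) ∪ Set.range x) := measure_mono hcon
    have h2 : volume ((⋃ k, B k) ∪ Set.range x) ≤ volume (⋃ k, B k) + volume (Set.range x) :=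
      measure_union_le _ _
    have h3 : volume (Set.range x) = 0 := (Set.finite_range x).measure_zero volume
    have h4 : volume (⋃ k, B k) ≤ ∑' k, ENNReal.ofReal (2 * N / A * (1 / 2) ^ k) :=
      (measure_iUnion_le B).trans (ENNReal.tsum_le_tsum hBv)
    have hs : Summable (fun k : ℕ => 2 * N / A * (1 / 2 : ℝ) ^ k) := summable_geometric_two.mul_left _
    rw [← ENNReal.ofReal_tsum_of_nonneg (fun k => by positivity) hs, tsum_mul_left,
      tsum_geometric_two] at h4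
    rw [h3, add_zero] at h2
    have h5 := h1.trans (h2.trans h4)
    rw [Real.volume_Icc, ENNReal.ofReal_le_ofReal_iff (by positivity)] at h5
    have h6 : 2 * N / A * 2 ≤ 1 / 4 := by
      rw [div_mul_eq_mul_div, div_le_iff₀ hA]
      linarith
    linarith
  obtain ⟨τ, hτ, hτB⟩ := hex
  rw [Set.mem_union, not_or] at hτB
  refine ⟨τ, hτ.1, hτ.2, fun i hi => hτB.2 ⟨i, hi⟩, ?_⟩
  intro k s hs
  rcases k with _ | k
  · rw [pow_zero] at hs
    rw [pow_zero, pow_zero, one_mul]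
    have h1 : cntP Finset.univ x 1 s ≤ N := by
      unfold cntP
      rw [hN']
      have h2 : (Finset.univ.filter (fun i => |s - x i| ≤ 1)) ⊆ P := by
        intro i hi
        rw [Finset.mem_filter] at hi
        rw [hP, Finset.mem_filter]
        have h3 := abs_le.mp hi.2
        have h4 := abs_lt.mp hs
        refine ⟨Finset.mem_univ _, ?_, ?_⟩
        · linarith [hτ.1]
        · linarith [hτ.2]
      exact_mod_cast Finset.card_le_card h2
    linarith
  · have hnb : τ ∉ B k := fun h => hτB.1 (Set.mem_iUnion.mpr ⟨k, h⟩)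
    have h1 : cntP P x (2 * (1 / 4) ^ (k + 1)) τ < (1 / 2) ^ (k + 1) * A := not_le.mp hnb
    refine lt_of_le_of_lt ?_ h1
    unfold cntP
    have h2 : (Finset.univ.filter (fun i => |s - x i| ≤ (1 / 256 : ℝ) ^ (k + 1)))
        ⊆ P.filter (fun i => |τ - x i| ≤ 2 * (1 / 4) ^ (k + 1)) := by
      intro i hi
      rw [Finset.mem_filter] at hi
      have h5 : (1 / 256 : ℝ) ^ (k + 1) ≤ (1 / 4) ^ (k + 1) :=
        pow_le_pow_left₀ (by norm_num) (by norm_num) _
      have h6 : |τ - x i| ≤ 2 * (1 / 4) ^ (k + 1) := by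
        have h7 : τ - x i = (s - x i) - (s - τ) := by ring
        rw [h7]
        refine (abs_sub _ _).trans ?_
        linarith [hi.2]
      have h8 : (1 / 4 : ℝ) ^ (k + 1) ≤ 1 / 4 := by
        have := pow_le_of_le_one (by norm_num : (0 : ℝ) ≤ 1 / 4) (by norm_num) (Nat.succ_ne_zero k)
        exact this
      have h9 := abs_le.mp h6
      rw [Finset.mem_filter, hP, Finset.mem_filter]
      refine ⟨⟨Finset.mem_univ _, ?_, ?_⟩, h6⟩
      · linarith [hτ.1]
      · linarith [hτ.2]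
    exact_mod_cast Finset.card_le_card h2

end Pool.Agent.THX
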