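import Pool.Agent.THX.Defs

/-!
# THX, module ChainD: the chain of windows (definition)

`τ j` (`j ≤ J`) are the break points, `ψ j` the valley direction (direction of the dipole) at the height `τ j`, `A j` its amplitude,
`hh j` the bound for the far harmonic part.  `I j` (zeros of the window `j`): `τ j < x i < τ (j+1)`.
-/

set_option autoImplicit false
set_option linter.all false

namespace Pool.Agent.THX

open Real MeasureTheory Set Filter Topology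
open Pool.Agent.TX1 (pt ell TM TN Fac HM Gr)

/-- the zeros of a window -/
noncomputable def II {n : ℕ} (x : Fin n → ℝ) (τ : ℕ → ℝ) (j : ℕ) : Finset (Fin n) :=
  Finset.univ.filter (fun i => τ j < x i ∧ x i < τ (j + 1))

/-- the chain of windows; `θ` small, `C0` an absolute constant -/
structure Chain (C0 θ : ℝ) (f : ℂ → ℂ) (T : ℝ) (J : ℕ) (n : ℕ) (x y : Fin n → ℝ) (h : ℂ → ℂ)
    (τ ψ A hh : ℕ → ℝ) : Prop where
  hf : Differentiable ℂ f
  f0 : f 0 = 1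
  tau : ∀ j ≤ J, T + j ≤ τ j ∧ τ j ≤ T + j + 1 / 2
  hx : ∀ j ≤ J, ∀ i, x i ≠ τ j
  dat : ∀ j ≤ J, Dat θ (A j) (hh j) n (fun i => x i - τ j) (fun i => y i - ψ j)
    (fun ζ => h (ζ * pt (τ j) (ψ j))) (fun ζ => f (ζ * pt (τ j) (ψ j)))
  rot : ∀ j < J, |ψ (j + 1) - ψ j| ≤ C0 / A j * ∑ i ∈ II x τ j, dd (y i - ψ j)
  rot1 : ∀ j < J, |ψ (j + 1) - ψ j| ≤ 1 / 100
  clean : ∀ j < J, Clean 0 (fun i => x i - τ j) (A j) (τ (j + 1) - τ j)
  far : ∀ j ≤ J, hh j ≤ θ * exp (-(2 * ((J : ℝ) - j))) * A J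
  gr : ∀ j k, j ≤ k → k ≤ J → A j ≤ C0 * A k ∧ A k ≤ C0 * exp (5 / 4 * ((k : ℝ) - j)) * A j
  ATM : ∀ j ≤ J, A j ≤ TM f (τ j)

end Pool.Agent.THX
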