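import Pool.Agent.THX.Rot
import Pool.Agent.THX.Break

/-!
# THX, module ChainEx: existence of the chain

`R1` from `frame` with `θ' = θ/C` small; `S = T + J + 1/2 + R1` (`R1` large, so that `far` holds), `exists_fac`.  `break_pt` at `a = T + j` with `A = TM f (T+j)/8` (counts by `count` and `JJ`:
`#{x i ≤ T+j+5/2} ≤ TN f (T+j+7/2)/2π` is tiny compared with `TM f (T+j)`): `τ j`.  `frame` recursively at `τ j` with `ψ0 = ψ (j-1)`: `ψ j`, `A j`.  `rot`; `rot1` from `dd ≤ 2` and the counts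
(`Dat.hK`: `#(II) ≤ exp 3 θ' A`).  `clean`: `TM f (T+j)/8 ≤ A j`, `TM f (T+j+1)/8 ≤ A j` (`TM f (T+j+1) ≤ 3 TM f (T+j)`, `A j ≥ 0.49 TM f (τ j)`).
`far`: `C exp (-(2(S-τ j))) TM f S ≤ θ exp (-2(J-j)) A J`: `S - τ j ≥ (J - j) + R1`, `TM f S ≤ 3 exp (1.02 (S - τ J)) TM f (τ J)`.  `gr`: `fr_grow`, `TM_mono`, `|TM f (τ j) - 2 A j| ≤ θ A j`.
-/

set_option autoImplicit false
set_option linter.all false

namespace Pool.Agent.THX

open Real MeasureTheory Set Filter Topology
open Pool.Agent.TX1 (pt ell TM TN Fac HM Gr JJ)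

private theorem ce_dat_mono {th th' A h : ℝ} {n : ℕ} {x y : Fin n → ℝ} {g F : ℂ → ℂ}
    (hD : Dat th' A h n x y g F) (h1 : th' ≤ th) (h2 : th ≤ 1) : Dat th A h n x y g F := by
  have h0 := hD.hth
  have hA : 0 < A := by
    by_contra hcon
    push Not at hcon
    nlinarith [hD.hA]
  have hm : th' * A ≤ th * A := mul_le_mul_of_nonneg_right h1 hA.le
  exact ⟨h0.trans_le h1, h2, hD.hA.trans hm, hD.hx, hD.hF, hD.hg, hD.hg0, hD.hg1,
    hD.hK.trans hm, hD.hc.trans hm, hD.hn.trans hm, hD.hh0, hD.hh.trans hm, hD.hH⟩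

private theorem ce_e3 : exp 3 ≤ 21 := by
  have h := Real.exp_one_lt_d9
  have : exp 3 = exp 1 ^ 3 := by
    rw [← exp_nat_mul]
    norm_num
  rw [this]
  have h0 := exp_pos 1
  calc exp 1 ^ 3 ≤ 2.7182818286 ^ 3 := pow_le_pow_left₀ h0.le h.le 3
    _ ≤ 21 := by norm_num

/-- zeros of a window are few -/
private theorem ce_count {th A h : ℝ} {n : ℕ} {x y : Fin n → ℝ} {g F : ℂ → ℂ} {τ τ' ψ : ℝ}
    (hD : Dat th A h n (fun i => x i - τ) (fun i => y i - ψ) g F) (hτ : τ' ≤ τ + 3 / 2) :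
    ((Finset.univ.filter (fun i => τ < x i ∧ x i < τ')).card : ℝ) ≤ 21 * (th * A) := by
  have h1 : ((Finset.univ.filter (fun i => τ < x i ∧ x i < τ')).card : ℝ) * exp (-3) ≤
      ∑ i, kw (x i - τ) := by
    rw [← nsmul_eq_mul, ← Finset.sum_const]
    refine (Finset.sum_le_sum (g := fun i => kw (x i - τ)) fun i hi => ?_).trans
      (Finset.sum_le_sum_of_subset_of_nonneg (Finset.subset_univ _) fun i _ _ => (exp_pos _).le)
    obtain ⟨h2, h3⟩ := (Finset.mem_filter.1 hi).2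
    unfold kw
    refine exp_le_exp.2 (le_min ?_ ?_) <;> linarith
  have h2 := h1.trans hD.hK
  have h3 : exp 3 * exp (-3) = 1 := by
    rw [← exp_add]
    simp
  have h4 := exp_pos (-3 : ℝ)
  have h5 := ce_e3
  set N : ℝ := ((Finset.univ.filter (fun i => τ < x i ∧ x i < τ')).card : ℝ) with hN
  have hN0 : 0 ≤ N := Nat.cast_nonneg _
  have h6 : N ≤ exp 3 * (th * A) := by
    calc N = exp 3 * (N * exp (-3)) := by rw [mul_left_comm, h3, mul_one]
      _ ≤ exp 3 * (th * A) := mul_le_mul_of_nonneg_left h2 (exp_pos _).le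
  refine h6.trans (mul_le_mul_of_nonneg_right h5 ?_)
  have : 0 ≤ N * exp (-3) := mul_nonneg hN0 h4.le
  linarith

private theorem ce_exp_step {R : ℝ} (hR : 80 ≤ R) : exp (1 + 1 / (R + 8)) ≤ 3 := by
  have h1 : 1 + 1 / (R + 8) ≤ 1 + 1 / 88 := by
    have : 1 / (R + 8) ≤ 1 / 88 := one_div_le_one_div_of_le (by norm_num) (by linarith)
    linarith
  refine (exp_le_exp.2 h1).trans ?_
  rw [exp_add]
  have h2 := Real.exp_one_lt_d9
  have h3 : exp (1 / 88 : ℝ) ≤ 1 + 1 / 88 + (1 / 88) ^ 2 := by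
    have := Real.abs_exp_sub_one_sub_id_le (x := 1 / 88) (by norm_num)
    have := (abs_le.1 this).2
    linarith
  have h0 := exp_pos 1
  have h4 := exp_pos (1 / 88 : ℝ)
  nlinarith

private theorem ce_exp_small {R u : ℝ} (hR : 80 ≤ R) (hu : u ≤ 7 / 2) :
    exp (-(R / 4)) * exp (51 / 50 * u) ≤ 1 / 65536 := by
  rw [← exp_add]
  have h1 : -(R / 4) + 51 / 50 * u ≤ -16 := by linarith
  refine (exp_le_exp.2 h1).trans ?_
  rw [exp_neg, one_div]
  refine inv_anti₀ (by norm_num) ?_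
  have h2 : exp 16 = exp 1 ^ 16 := by
    rw [← exp_nat_mul]
    norm_num
  rw [h2]
  have h3 : (2 : ℝ) ≤ exp 1 := by
    have := Real.exp_one_gt_d9
    linarith
  calc (65536 : ℝ) = 2 ^ 16 := by norm_num
    _ ≤ exp 1 ^ 16 := pow_le_pow_left₀ (by norm_num) h3 16

theorem chain_ex : ∃ C0 : ℝ, 1 ≤ C0 ∧ ∀ θ : ℝ, 0 < θ → θ ≤ 1 → ∃ R1 : ℝ, 80 ≤ R1 ∧
    ∀ (f : ℂ → ℂ) (R s1 : ℝ), Differentiable ℂ f → f 0 = 1 → R1 ≤ R → JJ f R s1 → exp R ≤ TM f s1 →
    ∀ (T : ℝ) (J : ℕ), s1 ≤ T → ∃ (n : ℕ) (x y : Fin n → ℝ) (h : ℂ → ℂ) (τ ψ A hh : ℕ → ℝ),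
      Chain C0 θ f T J n x y h τ ψ A hh := by
  obtain ⟨Cf, hCf, hframe⟩ := frame
  refine ⟨16, by norm_num, fun θ hθ hθ1 => ?_⟩
  obtain ⟨R0, hR0, hfr⟩ := hframe (θ / 70000) (by positivity) (by linarith)
  set θ' : ℝ := θ / 70000 with hθ'
  have hθ'0 : 0 < θ' := by positivity
  have hθ'1 : θ' ≤ 1 / 70000 := by
    rw [hθ']
    linarith
  have hq : 0 < 100 * Cf / θ := by positivity
  have hq1 : 1 ≤ 100 * Cf / θ := by
    rw [le_div_iff₀ hθ]
    linarith
  set L : ℝ := 2 * log (100 * Cf / θ) with hL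
  have hL0 : 0 ≤ L := by
    have := log_nonneg hq1
    linarith
  have hLe : exp (-(L / 2)) = θ / (100 * Cf) := by
    rw [hL, mul_div_cancel_left₀ _ (two_ne_zero), exp_neg, exp_log hq, inv_div]
  refine ⟨R0 + L, by linarith, fun f R s1 hf f0 hR1R hJ hbig T J hT => ?_⟩
  have hR80 : 80 ≤ R := by linarith
  set R1 : ℝ := R0 + L with hR1
  set S : ℝ := T + J + 1 / 2 + R1 with hS
  obtain ⟨n, x, y, h, hF⟩ := Pool.Agent.TX1.exists_fac hf f0 S
  have hmono := Pool.Agent.TX1.TM_mono hf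
  have hTM0 : ∀ s, s1 ≤ s → 0 < TM f s := fun s hs =>
    (exp_pos R).trans_le (hbig.trans (hmono hs))
  -- break points
  have hbreak : ∀ j : ℕ, ∃ τ : ℝ, j ≤ J → (T + j ≤ τ ∧ τ ≤ T + j + 1 / 2) ∧ (∀ i, x i ≠ τ) ∧
      ∀ k : ℕ, ∀ s : ℝ, |s - τ| < (1 / 4) ^ k →
        cntP Finset.univ x ((1 / 256) ^ k) s < (1 / 2) ^ k * (TM f (T + j) / 8) := by
    intro j
    by_cases hj : j ≤ J
    · have hjr : (j : ℝ) ≤ J := Nat.cast_le.2 hj
      have hj0 : (0 : ℝ) ≤ j := Nat.cast_nonneg j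
      have ha : s1 ≤ T + j := by linarith
      have hpos := hTM0 _ ha
      obtain ⟨τ, h1, h2, h3, h4⟩ := break_pt x (T + j) (TM f (T + j) / 8) (by positivity) (by
        have hc := Pool.Agent.TX1.count hF (s := T + j + 5 / 2) (by rw [hS]; linarith)
        have hn := (hJ (T + j + 5 / 2 + 1) (by linarith)).2
        have hg := fr_grow hf f0 hR80 hJ (s := T + j) (t := T + j + 5 / 2 + 1) ha (by linarith)
        have hcard : ((Finset.univ.filter
            (fun i => T + j - 2 ≤ x i ∧ x i ≤ T + j + 5 / 2)).card : ℝ) ≤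
            ((Finset.univ.filter (fun i => x i ≤ T + j + 5 / 2)).card : ℝ) := by
          refine Nat.cast_le.2 (Finset.card_le_card fun i hi => ?_)
          rw [Finset.mem_filter] at hi ⊢
          exact ⟨hi.1, hi.2.2⟩
        have he := ce_exp_small hR80 (show T + j + 5 / 2 + 1 - (T + j) ≤ 7 / 2 by linarith)
        set E1 := exp (-(R / 4))
        set E2 := exp (51 / 50 * (T + j + 5 / 2 + 1 - (T + j)))
        have hE1 : 0 < E1 := exp_pos _
        have h5 : TN f (T + j + 5 / 2 + 1) ≤ 9 * (E1 * E2) * TM f (T + j) := by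
          refine hn.trans ((mul_le_mul_of_nonneg_left hg (by positivity)).trans (le_of_eq (by ring)))
        have h6 : 9 * (E1 * E2) * TM f (T + j) ≤ 9 * (1 / 65536) * TM f (T + j) := by
          refine mul_le_mul_of_nonneg_right ?_ hpos.le
          linarith
        have h7 := Real.pi_gt_three
        have h8 : (0 : ℝ) ≤ ((Finset.univ.filter (fun i => x i ≤ T + j + 5 / 2)).card : ℝ) :=
          Nat.cast_nonneg _
        nlinarith)
      exact ⟨τ, fun _ => ⟨⟨h1, h2⟩, h3, h4⟩⟩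
    · exact ⟨0, fun h => absurd h hj⟩
  choose τ hτ using hbreak
  -- frames
  have hfrm : ∀ (j : ℕ) (ψ0 : ℝ), ∃ (A ψ : ℝ), j ≤ J → |ψ - ψ0| ≤ π ∧ |TM f (τ j) - 2 * A| ≤ θ' * A ∧
      alf x y h (τ j) * exp (τ j) = -(A : ℂ) * Complex.exp (-(ψ : ℂ) * Complex.I) ∧
      Dat θ' A (Cf * exp (-(2 * (S - τ j))) * TM f S) n (fun i => x i - τ j) (fun i => y i - ψ)
        (fun ζ => h (ζ * pt (τ j) ψ)) (fun ζ => f (ζ * pt (τ j) ψ)) := by
    intro j ψ0
    by_cases hj : j ≤ J
    · have hjr : (j : ℝ) ≤ J := Nat.cast_le.2 hj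
      have hj0 : (0 : ℝ) ≤ j := Nat.cast_nonneg j
      obtain ⟨⟨h1, h2⟩, h3, h4⟩ := hτ j hj
      obtain ⟨A, ψ, h5⟩ := hfr f R s1 S (τ j) ψ0 n x y h hf f0 (by linarith) hJ hbig hF
        (by linarith) (by rw [hS]; linarith) h3
      exact ⟨A, ψ, fun _ => h5⟩
    · exact ⟨0, 0, fun h => absurd h hj⟩
  choose Af ψf hfm using hfrm
  obtain ⟨ψ, hψ0, hψs⟩ : ∃ ψ : ℕ → ℝ, ψ 0 = ψf 0 0 ∧ ∀ j, ψ (j + 1) = ψf (j + 1) (ψ j) :=
    ⟨fun j => Nat.rec (ψf 0 0) (fun k p => ψf (k + 1) p) j, rfl, fun _ => rfl⟩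
  obtain ⟨A, hA0, hAs⟩ : ∃ A : ℕ → ℝ, A 0 = Af 0 0 ∧ ∀ j, A (j + 1) = Af (j + 1) (ψ j) :=
    ⟨fun j => Nat.casesOn j (Af 0 0) (fun k => Af (k + 1) (ψ k)), rfl, fun _ => rfl⟩
  have hAll : ∀ j ≤ J, |TM f (τ j) - 2 * A j| ≤ θ' * A j ∧
      alf x y h (τ j) * exp (τ j) = -(A j : ℂ) * Complex.exp (-(ψ j : ℂ) * Complex.I) ∧
      Dat θ' (A j) (Cf * exp (-(2 * (S - τ j))) * TM f S) n (fun i => x i - τ j)
        (fun i => y i - ψ j)
        (fun ζ => h (ζ * pt (τ j) (ψ j))) (fun ζ => f (ζ * pt (τ j) (ψ j))) := by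
    intro j hj
    cases j with
    | zero =>
      rw [hψ0, hA0]
      exact (hfm 0 0 hj).2
    | succ k =>
      rw [hψs, hAs]
      exact (hfm (k + 1) (ψ k) hj).2
  have hψπ : ∀ j, j + 1 ≤ J → |ψ (j + 1) - ψ j| ≤ π := by
    intro j hj
    rw [hψs]
    exact (hfm (j + 1) (ψ j) hj).1
  have hApos : ∀ j ≤ J, 0 < A j := by
    intro j hj
    have h1 := (hAll j hj).2.2.hA
    by_contra hcon
    push Not at hcon
    nlinarith
  have hlow : ∀ j ≤ J, (2 - 1 / 70000) * A j ≤ TM f (τ j) := by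
    intro j hj
    have h1 := (abs_le.1 (hAll j hj).1).1
    have h2 := hApos j hj
    nlinarith
  have hup : ∀ j ≤ J, TM f (τ j) ≤ (2 + 1 / 70000) * A j := by
    intro j hj
    have h1 := (abs_le.1 (hAll j hj).1).2
    have h2 := hApos j hj
    nlinarith
  have hττ : ∀ j k, j ≤ k → k ≤ J → τ j ≤ τ k := by
    intro j k hjk hk
    rcases eq_or_lt_of_le hjk with rfl | hlt
    · exact le_rfl
    · have h1 := (hτ j (by omega)).1.2
      have h2 := (hτ k hk).1.1
      have h3 : (j : ℝ) + 1 ≤ k := by exact_mod_cast hlt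
      linarith
  have hτs1 : ∀ j ≤ J, s1 ≤ τ j := by
    intro j hj
    have h1 := (hτ j hj).1.1
    have h2 : (0 : ℝ) ≤ j := Nat.cast_nonneg j
    linarith
  have hAA : ∀ j k, j ≤ k → k ≤ J → A j ≤ 2 * A k := by
    intro j k hjk hk
    have h1 := hlow j (by omega)
    have h2 := hup k hk
    have h3 := hmono (hττ j k hjk hk)
    have h4 := hApos j (by omega)
    have h5 := hApos k hk
    nlinarith
  have hrot : ∀ j, j + 1 ≤ J →
      |ψ (j + 1) - ψ j| ≤ 8 / A (j + 1) * ∑ i ∈ II x τ j, dd (y i - ψ j) ∧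
      ((II x τ j).card : ℝ) ≤ 21 * (θ' * A j) := by
    intro j hj
    have h1 := (hτ j (by omega)).1
    have h2 := (hτ (j + 1) hj).1
    push_cast at h2
    have hcnt := ce_count (hAll j (by omega)).2.2 (τ' := τ (j + 1)) (by linarith)
    refine ⟨?_, hcnt⟩
    refine rot (hApos j (by omega)) (hApos (j + 1) hj) (by linarith) (by linarith)
      (hτ j (by omega)).2.1 (hτ (j + 1) hj).2.1 (hAll j (by omega)).2.1 (hAll (j + 1) hj).2.1
      (hψπ j hj) ?_
    refine hcnt.trans_lt ?_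
    have := hApos j (by omega)
    nlinarith
  refine ⟨n, x, y, h, τ, ψ, A, fun j => Cf * exp (-(2 * (S - τ j))) * TM f S, ?_⟩
  refine
    { hf := hf
      f0 := f0
      tau := fun j hj => (hτ j hj).1
      hx := fun j hj => (hτ j hj).2.1
      dat := fun j hj => ce_dat_mono (hAll j hj).2.2 (by rw [hθ']; linarith) hθ1
      rot := ?_
      rot1 := ?_
      clean := ?_
      far := ?_
      gr := ?_
      ATM := ?_ }
  · intro j hj
    refine (hrot j hj).1.trans ?_
    refine mul_le_mul_of_nonneg_right ?_ (Finset.sum_nonneg fun i _ => ?_)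
    · rw [div_le_div_iff₀ (hApos _ hj) (hApos j hj.le)]
      have := hAA j (j + 1) (by omega) hj
      linarith
    · unfold dd
      positivity
  · intro j hj
    refine (hrot j hj).1.trans ?_
    have h1 : ∑ i ∈ II x τ j, dd (y i - ψ j) ≤ 2 * (21 * (θ' * A j)) := by
      calc ∑ i ∈ II x τ j, dd (y i - ψ j) ≤ ∑ i ∈ II x τ j, 2 := by
            refine Finset.sum_le_sum fun i _ => ?_
            unfold dd
            have := Real.abs_cos_le_one ((y i - ψ j) / 2)
            linarith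
        _ = 2 * ((II x τ j).card : ℝ) := by
            rw [Finset.sum_const, nsmul_eq_mul, mul_comm]
        _ ≤ _ := by
            have := (hrot j hj).2
            linarith
    have h2 := hApos (j + 1) hj
    have h3 := hApos j hj.le
    have h4 := hAA j (j + 1) (by omega) hj
    have h5 : 0 ≤ 8 / A (j + 1) := by positivity
    refine (mul_le_mul_of_nonneg_left h1 h5).trans ?_
    rw [div_mul_eq_mul_div, div_le_iff₀ h2]
    nlinarith
  · intro j hj k _ s hs hor
    have h0 := hApos j hj.le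
    have hpow : (0 : ℝ) < (1 / 2) ^ k := by positivity
    have hcast : (((Finset.univ.filter (fun i => |s - (x i - τ j)| ≤ (1 / 256 : ℝ) ^ k)).card : ℕ) : ℝ)
        = cntP Finset.univ x ((1 / 256) ^ k) (s + τ j) := by
      unfold cntP
      congr 2
      refine Finset.filter_congr fun i _ => ?_
      rw [show s - (x i - τ j) = s + τ j - x i by ring]
    rw [hcast]
    rcases hor with h1 | h1
    · have h2 := (hτ j hj.le).2.2 k (s + τ j) (by
        rw [add_sub_cancel_right, abs_of_nonneg hs.1]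
        exact h1)
      refine h2.trans_le (mul_le_mul_of_nonneg_left ?_ hpow.le)
      have h3 := hmono (hτ j hj.le).1.1
      have h4 := hup j hj.le
      linarith
    · have h2 := (hτ (j + 1) hj).2.2 k (s + τ j) (by
        rw [abs_sub_lt_iff]
        have := hs.2
        have h5 : (0 : ℝ) < (1 / 4) ^ k := by positivity
        constructor <;> linarith)
      refine h2.trans_le (mul_le_mul_of_nonneg_left ?_ hpow.le)
      have h3 := (hτ j hj.le).1.1
      have h4 := hup j hj.le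
      have h5 : TM f (T + ((j + 1 : ℕ) : ℝ)) ≤ TM f (τ j + 1) := hmono (by push_cast; linarith)
      have h6 := (hJ (τ j) (hτs1 j hj.le)).1
      have h7 := ce_exp_step hR80
      have h8 := hTM0 _ (hτs1 j hj.le)
      have h9 : exp (1 + 1 / (R + 8)) * TM f (τ j) ≤ 3 * TM f (τ j) :=
        mul_le_mul_of_nonneg_right h7 h8.le
      linarith
  · intro j hj
    have h0 := hApos J le_rfl
    have hjr : (j : ℝ) ≤ J := Nat.cast_le.2 hj
    have h1 := (hτ j hj).1.2
    have h2 := (hτ J le_rfl).1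
    have h3 := fr_grow hf f0 hR80 hJ (hτs1 J le_rfl) (t := S) (by rw [hS]; linarith)
    have h4 := hup J le_rfl
    have hTS : TM f S ≤ 3 * exp (51 / 50 * (S - τ J)) * (3 * A J) :=
      h3.trans (mul_le_mul_of_nonneg_left (by linarith) (by positivity))
    have hexp : exp (-(2 * (S - τ j))) * exp (51 / 50 * (S - τ J)) ≤
        exp (-(2 * ((J : ℝ) - j))) * exp (-(L / 2)) := by
      rw [← exp_add, ← exp_add]
      refine exp_le_exp.2 ?_
      rw [hS]
      linarith [h2.1, h2.2]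
    have hCf0 : 0 < Cf := by linarith
    calc Cf * exp (-(2 * (S - τ j))) * TM f S
        ≤ Cf * exp (-(2 * (S - τ j))) * (3 * exp (51 / 50 * (S - τ J)) * (3 * A J)) :=
          mul_le_mul_of_nonneg_left hTS (by positivity)
      _ = 9 * Cf * A J * (exp (-(2 * (S - τ j))) * exp (51 / 50 * (S - τ J))) := by ring
      _ ≤ 9 * Cf * A J * (exp (-(2 * ((J : ℝ) - j))) * exp (-(L / 2))) :=
          mul_le_mul_of_nonneg_left hexp (by positivity)
      _ = 9 / 100 * (θ * exp (-(2 * ((J : ℝ) - j))) * A J) := by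
          rw [hLe]
          field_simp
      _ ≤ θ * exp (-(2 * ((J : ℝ) - j))) * A J := by
          have : 0 ≤ θ * exp (-(2 * ((J : ℝ) - j))) * A J := by positivity
          linarith
  · intro j k hjk hk
    refine ⟨?_, ?_⟩
    · have h1 := hAA j k hjk hk
      have h2 := hApos k hk
      linarith
    · have h1 := hlow k hk
      have h2 := hup j (by omega)
      have h3 := fr_grow hf f0 hR80 hJ (hτs1 j (by omega)) (hττ j k hjk hk)
      have h4 := (hτ j (by omega)).1.1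
      have h5 := (hτ k hk).1.2
      have h6 := hApos j (by omega)
      have hkj : (j : ℝ) ≤ k := Nat.cast_le.2 hjk
      have h7 : exp (51 / 50 * (τ k - τ j)) ≤ 2 * exp (5 / 4 * ((k : ℝ) - j)) := by
        have h8 : exp (51 / 50 * (τ k - τ j)) ≤ exp (51 / 100 + 5 / 4 * ((k : ℝ) - j)) := by
          refine exp_le_exp.2 ?_
          linarith
        refine h8.trans ?_
        rw [exp_add]
        refine mul_le_mul_of_nonneg_right ?_ (exp_pos _).le
        have := Real.abs_exp_sub_one_sub_id_le (x := 51 / 100) (by norm_num [abs_le])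
        have := (abs_le.1 this).2
        linarith
      have h9 : TM f (τ k) ≤ 3 * (2 * exp (5 / 4 * ((k : ℝ) - j))) * (3 * A j) := by
        refine h3.trans (mul_le_mul (by linarith) (by linarith) ?_ (by positivity))
        exact (hTM0 _ (hτs1 j (by omega))).le
      have h10 : 0 < exp (5 / 4 * ((k : ℝ) - j)) * A j := by positivity
      have h11 := hApos k hk
      nlinarith
  · intro j hj
    have h1 := hlow j hj
    have h2 := hApos j hj
    linarith

end Pool.Agent.THX
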