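import Mathlib

/-!
# THX, module Clus: clusters of points on a line (pure real analysis)

* `clus`: `log (C/|t|) ≤ log C + log 256 * ∑_{k ≥ 0} 1_{|t| ≤ 256^{-k}}` (`t ≠ 0`); if all counts at the scales `k ≥ k0` are `< 2^{-k} A` then the sum is at most
  `(# P) (log C + k0 log 256) + 2 · 2^{-k0} log 256 · A`.
* `clus_meas`: Chebyshev: `∫ #{i : |s - x i| ≤ δ} ds = 2 δ #P`.
* `clus_l2`: Chebyshev with the square: `(∑ log (C/|s-x i|))² ≤ #Q ∑ log²`, `∫_0^2 log² (C/|s-x|) ds ≤ C'`.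
-/

set_option autoImplicit false
set_option linter.all false

namespace Pool.Agent.THX

open Real MeasureTheory Set Filter Topology

/-- number of points of `P` within `δ` of `s` -/
noncomputable def cntP {n : ℕ} (P : Finset (Fin n)) (x : Fin n → ℝ) (δ s : ℝ) : ℝ :=
  ((P.filter (fun i => |s - x i| ≤ δ)).card : ℝ)

private theorem clus_pt {C : ℝ} (hC : 5 ≤ C) (K : ℕ) : ∀ t : ℝ, (1 / 256 : ℝ) ^ K < t →
    log (C / t) ≤ log C + log 256 * ∑ k ∈ Finset.range (K + 1), (if t ≤ (1 / 256 : ℝ) ^ k then 1 else 0) := by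
  have hl : 0 < log (256 : ℝ) := Real.log_pos (by norm_num)
  induction K with
  | zero =>
    intro t ht
    rw [pow_zero] at ht
    have h1 : log (C / t) ≤ log C := by
      apply Real.log_le_log (by positivity)
      exact div_le_self (by linarith) ht.le
    have h2 : 0 ≤ ∑ k ∈ Finset.range (0 + 1), (if t ≤ (1 / 256 : ℝ) ^ k then (1 : ℝ) else 0) :=
      Finset.sum_nonneg fun k _ => by split_ifs <;> norm_num
    have h3 := mul_nonneg hl.le h2
    linarith
  | succ K ih =>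
    intro t ht
    have ht0 : 0 < t := lt_trans (by positivity) ht
    by_cases h : (1 / 256 : ℝ) ^ K < t
    · have h1 := ih t h
      rw [Finset.sum_range_succ]
      have h2 : 0 ≤ (if t ≤ (1 / 256 : ℝ) ^ (K + 1) then (1 : ℝ) else 0) := by split_ifs <;> norm_num
      have h3 := mul_nonneg hl.le h2
      rw [mul_add]
      linarith
    · push Not at h
      have h1 : ∑ k ∈ Finset.range (K + 1 + 1), (if t ≤ (1 / 256 : ℝ) ^ k then (1 : ℝ) else 0) ≥ K + 1 := by
        rw [Finset.sum_range_succ]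
        have h2 : ∑ k ∈ Finset.range (K + 1), (if t ≤ (1 / 256 : ℝ) ^ k then (1 : ℝ) else 0) = K + 1 := by
          rw [Finset.sum_congr rfl (g := fun _ => (1 : ℝ))]
          · simp
          · intro k hk
            rw [if_pos]
            rw [Finset.mem_range] at hk
            exact h.trans (pow_le_pow_of_le_one (by norm_num) (by norm_num) (by omega))
        have h3 : 0 ≤ (if t ≤ (1 / 256 : ℝ) ^ (K + 1) then (1 : ℝ) else 0) := by
          split_ifs <;> norm_num
        linarith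
      have h4 : log (C / t) = log C - log t := Real.log_div (by linarith) ht0.ne'
      have h5 : -log t ≤ (K + 1) * log 256 := by
        have h6 : log ((1 / 256 : ℝ) ^ (K + 1)) ≤ log t := Real.log_le_log (by positivity) ht.le
        rw [Real.log_pow, one_div, Real.log_inv] at h6
        push_cast at h6
        linarith
      have h7 := mul_le_mul_of_nonneg_left h1 hl.le
      rw [h4]
      linarith

theorem clus {C c1 : ℝ} (hC : 5 ≤ C) (hc : 0 < c1) : ∃ k0 : ℕ, ∀ k1 : ℕ, k0 ≤ k1 → ∃ t0 : ℝ, 0 < t0 ∧ ∀ (n : ℕ) (P : Finset (Fin n))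
    (x : Fin n → ℝ) (A s : ℝ), 0 < A → (P.card : ℝ) ≤ t0 * A → (∀ i, x i ≠ s) →
    c1 * A ≤ ∑ i ∈ P, max 0 (log (C / |s - x i|)) →
    ∃ k : ℕ, k1 ≤ k ∧ (1 / 2) ^ k * A ≤ cntP P x ((1 / 256) ^ k) s := by
  have hl : 0 < log (256 : ℝ) := Real.log_pos (by norm_num)
  have hlC : 0 < log C := Real.log_pos (by linarith)
  obtain ⟨k0, hk0⟩ : ∃ k0 : ℕ, (1 / 2 : ℝ) ^ k0 < c1 / (8 * log 256) :=
    exists_pow_lt_of_lt_one (by positivity) (by norm_num)
  refine ⟨k0, fun k1 hk1 => ?_⟩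
  have hden : 0 < log C + k1 * log 256 := by positivity
  refine ⟨c1 / (4 * (log C + k1 * log 256)), by positivity, ?_⟩
  intro n P x A s hA hP hx hsum
  by_contra hcon
  push Not at hcon
  -- a large scale
  obtain ⟨K, hK1, hK⟩ : ∃ K : ℕ, k1 ≤ K ∧ ∀ i ∈ P, (1 / 256 : ℝ) ^ K < |s - x i| := by
    have h1 : ∀ᶠ K : ℕ in atTop, ∀ i ∈ P, (1 / 256 : ℝ) ^ K < |s - x i| := by
      rw [Filter.eventually_all_finset]
      intro i _
      have h2 : 0 < |s - x i| := abs_pos.2 (sub_ne_zero.2 (hx i).symm)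
      exact (tendsto_pow_atTop_nhds_zero_of_lt_one (by norm_num) (by norm_num)).eventually
        (gt_mem_nhds h2)
    exact ((eventually_ge_atTop k1).and h1).exists
  have h1 : ∑ i ∈ P, max 0 (log (C / |s - x i|)) ≤
      ∑ i ∈ P, (log C + log 256 * ∑ k ∈ Finset.range (K + 1),
        (if |s - x i| ≤ (1 / 256 : ℝ) ^ k then 1 else 0)) := by
    refine Finset.sum_le_sum fun i hi => max_le ?_ (clus_pt hC K _ (hK i hi))
    have h2 : 0 ≤ ∑ k ∈ Finset.range (K + 1), (if |s - x i| ≤ (1 / 256 : ℝ) ^ k then (1 : ℝ) else 0) :=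
      Finset.sum_nonneg fun k _ => by split_ifs <;> norm_num
    have := mul_nonneg hl.le h2
    linarith
  have h2 : ∑ i ∈ P, (log C + log 256 * ∑ k ∈ Finset.range (K + 1),
        (if |s - x i| ≤ (1 / 256 : ℝ) ^ k then (1 : ℝ) else 0)) =
      P.card * log C + log 256 * ∑ k ∈ Finset.range (K + 1), cntP P x ((1 / 256) ^ k) s := by
    rw [Finset.sum_add_distrib, Finset.sum_const, nsmul_eq_mul, ← Finset.mul_sum,
      Finset.sum_comm]
    congr 2
    refine Finset.sum_congr rfl fun k _ => ?_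
    unfold cntP
    rw [Finset.card_filter]
    push_cast
    rfl
  have h3 : ∑ k ∈ Finset.range (K + 1), cntP P x ((1 / 256) ^ k) s ≤
      k1 * P.card + 2 * (1 / 2) ^ k1 * A := by
    have h4 : ∑ k ∈ Finset.range (K + 1), cntP P x ((1 / 256) ^ k) s =
        ∑ k ∈ Finset.range k1, cntP P x ((1 / 256) ^ k) s +
          ∑ k ∈ Finset.range (K + 1 - k1), cntP P x ((1 / 256) ^ (k1 + k)) s := by
      rw [← Finset.sum_range_add_sum_Ico _ (by omega : k1 ≤ K + 1), Finset.sum_Ico_eq_sum_range]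
    rw [h4]
    refine add_le_add ?_ ?_
    · refine (Finset.sum_le_sum (g := fun _ => (P.card : ℝ)) fun k _ => ?_).trans (by simp)
      unfold cntP
      exact_mod_cast Finset.card_filter_le _ _
    · calc ∑ k ∈ Finset.range (K + 1 - k1), cntP P x ((1 / 256) ^ (k1 + k)) s
          ≤ ∑ k ∈ Finset.range (K + 1 - k1), (1 / 2) ^ k1 * A * (1 / 2) ^ k := by
            refine Finset.sum_le_sum fun k _ => ?_
            have h5 := hcon (k1 + k) (by omega)
            have h6 : (1 / 2 : ℝ) ^ (k1 + k) * A = (1 / 2) ^ k1 * A * (1 / 2) ^ k := by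
              rw [pow_add]; ring
            rw [h6] at h5
            exact h5.le
        _ = (1 / 2) ^ k1 * A * ∑ k ∈ Finset.range (K + 1 - k1), (1 / 2 : ℝ) ^ k := by
            rw [Finset.mul_sum]
        _ ≤ (1 / 2) ^ k1 * A * 2 := by
            refine mul_le_mul_of_nonneg_left ?_ (by positivity)
            exact sum_geometric_two_le _
        _ = _ := by ring
  have h5 : (1 / 2 : ℝ) ^ k1 ≤ (1 / 2) ^ k0 := pow_le_pow_of_le_one (by norm_num) (by norm_num) hk1
  have h6 : (1 / 2 : ℝ) ^ k1 < c1 / (8 * log 256) := lt_of_le_of_lt h5 hk0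
  rw [lt_div_iff₀ (by positivity)] at h6
  have h7 : (P.card : ℝ) * (log C + k1 * log 256) ≤ c1 / 4 * A := by
    calc (P.card : ℝ) * (log C + k1 * log 256)
        ≤ (c1 / (4 * (log C + k1 * log 256)) * A) * (log C + k1 * log 256) :=
          mul_le_mul_of_nonneg_right hP hden.le
      _ = c1 / 4 * A := by
          field_simp
  have h8 := mul_le_mul_of_nonneg_left h3 hl.le
  have h9 : (1 / 2 : ℝ) ^ k1 * (8 * log 256) * A ≤ c1 * A := mul_le_mul_of_nonneg_right h6.le hA.le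
  have h10 : 0 < c1 * A := by positivity
  rw [h2] at h1
  nlinarith [h1, h8, h7, h9, h10, hsum]

theorem clus_meas {n : ℕ} (P : Finset (Fin n)) (x : Fin n → ℝ) {δ m : ℝ} (hδ : 0 ≤ δ) (hm : 0 < m) :
    MeasurableSet {s : ℝ | m ≤ cntP P x δ s} ∧
      volume {s : ℝ | m ≤ cntP P x δ s} ≤ ENNReal.ofReal (2 * δ * P.card / m) := by
  have hrep : ∀ s, cntP P x δ s = ∑ i ∈ P, (Icc (x i - δ) (x i + δ)).indicator (fun _ => (1 : ℝ)) s := by
    intro s
    unfold cntP
    rw [Finset.card_filter]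
    push_cast
    refine Finset.sum_congr rfl fun i _ => ?_
    by_cases h : |s - x i| ≤ δ
    · rw [if_pos h, indicator_of_mem]
      rw [abs_le] at h
      exact ⟨by linarith, by linarith⟩
    · rw [if_neg h, indicator_of_notMem]
      rintro ⟨h1, h2⟩
      exact h (abs_le.2 ⟨by linarith, by linarith⟩)
  have hmeas : Measurable (cntP P x δ) := by
    have : cntP P x δ = fun s => ∑ i ∈ P, (Icc (x i - δ) (x i + δ)).indicator (fun _ => (1 : ℝ)) s :=
      funext hrep
    rw [this]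
    exact Finset.measurable_sum _ fun i _ => measurable_const.indicator measurableSet_Icc
  refine ⟨measurableSet_le measurable_const hmeas, ?_⟩
  have h1 : {s : ℝ | m ≤ cntP P x δ s} ⊆ {s : ℝ | ENNReal.ofReal m ≤ ENNReal.ofReal (cntP P x δ s)} :=
    fun s hs => ENNReal.ofReal_le_ofReal hs
  have h2 : ∫⁻ s, ENNReal.ofReal (cntP P x δ s) = ENNReal.ofReal (2 * δ * P.card) := by
    have h3 : ∀ s, ENNReal.ofReal (cntP P x δ s) =
        ∑ i ∈ P, (Icc (x i - δ) (x i + δ)).indicator (fun _ => (1 : ENNReal)) s := by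
      intro s
      rw [hrep, ENNReal.ofReal_sum_of_nonneg]
      · refine Finset.sum_congr rfl fun i _ => ?_
        by_cases h : s ∈ Icc (x i - δ) (x i + δ)
        · rw [indicator_of_mem h, indicator_of_mem h, ENNReal.ofReal_one]
        · rw [indicator_of_notMem h, indicator_of_notMem h, ENNReal.ofReal_zero]
      · intro i _
        exact indicator_nonneg (fun _ _ => zero_le_one) _
    simp_rw [h3]
    rw [lintegral_finset_sum _ (fun i _ => measurable_const.indicator measurableSet_Icc)]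
    simp_rw [lintegral_indicator measurableSet_Icc, setLIntegral_const, one_mul, Real.volume_Icc]
    have h4 : ∀ i, x i + δ - (x i - δ) = 2 * δ := fun i => by ring
    simp_rw [h4]
    rw [Finset.sum_const, nsmul_eq_mul, mul_comm (2 * δ),
      ENNReal.ofReal_mul (Nat.cast_nonneg P.card) (q := 2 * δ), ENNReal.ofReal_natCast]
  calc volume {s : ℝ | m ≤ cntP P x δ s}
      ≤ volume {s : ℝ | ENNReal.ofReal m ≤ ENNReal.ofReal (cntP P x δ s)} := measure_mono h1
    _ ≤ (∫⁻ s, ENNReal.ofReal (cntP P x δ s)) / ENNReal.ofReal m :=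
        meas_ge_le_lintegral_div hmeas.ennreal_ofReal.aemeasurable
          (by simpa using hm) ENNReal.ofReal_ne_top
    _ = _ := by
        rw [h2, ENNReal.ofReal_div_of_pos hm]

private theorem clus_log {C : ℝ} (hC : 5 ≤ C) (u : ℝ) :
    (max 0 (log (C / |u|))) ^ 2 ≤ 16 * (C / ‖u‖) ^ (1 / 2 : ℝ) := by
  have h0 : 0 ≤ C / |u| := by positivity
  have h1 : log (C / |u|) ≤ (C / |u|) ^ (1 / 4 : ℝ) / (1 / 4) := Real.log_le_rpow_div h0 (by norm_num)
  have h2 : max 0 (log (C / |u|)) ≤ 4 * (C / |u|) ^ (1 / 4 : ℝ) := by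
    apply max_le
    · positivity
    · linarith
  have h3 : (C / |u|) ^ (1 / 2 : ℝ) = ((C / |u|) ^ (1 / 4 : ℝ)) ^ 2 := by
    rw [← Real.rpow_natCast, ← Real.rpow_mul h0]
    norm_num
  rw [Real.norm_eq_abs, h3]
  calc (max 0 (log (C / |u|))) ^ 2 ≤ (4 * (C / |u|) ^ (1 / 4 : ℝ)) ^ 2 :=
        pow_le_pow_left₀ (le_max_left _ _) h2 2
    _ = _ := by ring

private theorem clus_fin {C : ℝ} (hC : 5 ≤ C) :
    ∫⁻ u in Metric.ball (0 : ℝ) 6, ENNReal.ofReal ((max 0 (log (C / |u|))) ^ 2) < ⊤ := by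
  have h1 : IntegrableOn (fun u : ℝ => (fun y : ℝ => 16 * (C / y) ^ (1 / 2 : ℝ)) ‖u‖)
      (Metric.ball (0 : ℝ) 6) := by
    rw [integrableOn_fun_norm_addHaar volume (f := fun y : ℝ => 16 * (C / y) ^ (1 / 2 : ℝ))]
    have h2 : IntegrableOn (fun y : ℝ => (16 * C ^ (1 / 2 : ℝ)) * y ^ (-(1 / 2) : ℝ)) (Ioo 0 6) := by
      refine Integrable.const_mul ?_ _
      exact (intervalIntegral.integrableOn_Ioo_rpow_iff (by norm_num)).2 (by norm_num)
    refine h2.congr_fun ?_ measurableSet_Ioo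
    intro y hy
    simp only [Module.finrank_self, Nat.sub_self, pow_zero, one_smul]
    rw [Real.div_rpow (by linarith) hy.1.le, Real.rpow_neg hy.1.le]
    ring
  have h3 := h1.lintegral_lt_top
  refine lt_of_le_of_lt ?_ h3
  refine lintegral_mono fun u => ENNReal.ofReal_le_ofReal ?_
  exact clus_log hC u

theorem clus_l2 {C : ℝ} (hC : 5 ≤ C) : ∃ C' : ℝ, 0 < C' ∧ ∀ (n : ℕ) (Q : Finset (Fin n)) (x : Fin n → ℝ) (m : ℝ), 0 < m →
    (∀ i ∈ Q, |x i| ≤ 3) →
    volume {s : ℝ | s ∈ Icc (0 : ℝ) 2 ∧ m ≤ ∑ i ∈ Q, max 0 (log (C / |s - x i|))} ≤ ENNReal.ofReal (C' * (Q.card : ℝ) ^ 2 / m ^ 2) := by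
  set L := ∫⁻ u in Metric.ball (0 : ℝ) 6, ENNReal.ofReal ((max 0 (log (C / |u|))) ^ 2) with hL
  have hLf : L < ⊤ := clus_fin hC
  have hLt : L ≤ ENNReal.ofReal (L.toReal + 1) := by
    rw [ENNReal.ofReal_add ENNReal.toReal_nonneg zero_le_one, ENNReal.ofReal_toReal hLf.ne]
    exact le_self_add
  refine ⟨L.toReal + 1, by positivity, ?_⟩
  intro n Q x m hm hx
  set G : ℝ → ℝ := fun u => max 0 (log (C / |u|)) with hG
  have hGm : Measurable G := by
    rw [hG]
    fun_prop
  have hG0 : ∀ u, 0 ≤ G u := fun u => le_max_left _ _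
  set F : ℝ → ENNReal := fun s => ∑ i ∈ Q, ENNReal.ofReal (Q.card * G (s - x i) ^ 2) with hF
  have hFm : Measurable F := by
    rw [hF]
    refine Finset.measurable_sum _ fun i _ => ?_
    refine ENNReal.measurable_ofReal.comp ?_
    exact ((hGm.comp (measurable_id.sub_const (x i))).pow_const 2).const_mul _
  have hint : ∀ i ∈ Q, ∫⁻ s in Icc (0 : ℝ) 2, ENNReal.ofReal (G (s - x i) ^ 2) ≤ L := by
    intro i hi
    have h1 : ∀ s, (Icc (0 : ℝ) 2).indicator (fun s => ENNReal.ofReal (G (s - x i) ^ 2)) s ≤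
        (Metric.ball (0 : ℝ) 6).indicator (fun u => ENNReal.ofReal (G u ^ 2)) (s - x i) := by
      intro s
      by_cases hs : s ∈ Icc (0 : ℝ) 2
      · rw [indicator_of_mem hs, indicator_of_mem]
        rw [mem_ball_zero_iff, Real.norm_eq_abs, abs_lt]
        have h2 := abs_le.1 (hx i hi)
        exact ⟨by linarith [hs.1, hs.2], by linarith [hs.1, hs.2]⟩
      · rw [indicator_of_notMem hs]
        exact bot_le
    rw [← lintegral_indicator measurableSet_Icc]
    refine (lintegral_mono h1).trans ?_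
    rw [lintegral_sub_right_eq_self (fun u => (Metric.ball (0 : ℝ) 6).indicator
      (fun u => ENNReal.ofReal (G u ^ 2)) u) (x i), lintegral_indicator measurableSet_ball]
  have hFint : ∫⁻ s in Icc (0 : ℝ) 2, F s ≤ ENNReal.ofReal ((L.toReal + 1) * (Q.card : ℝ) ^ 2) := by
    have hFi : ∀ i ∈ Q, Measurable fun s => ENNReal.ofReal (Q.card * G (s - x i) ^ 2) := fun i _ =>
      ENNReal.measurable_ofReal.comp
        (((hGm.comp (measurable_id.sub_const (x i))).pow_const 2).const_mul _)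
    simp only [hF]
    rw [lintegral_finset_sum _ hFi]
    calc ∑ i ∈ Q, ∫⁻ s in Icc (0 : ℝ) 2, ENNReal.ofReal (Q.card * G (s - x i) ^ 2)
        ≤ ∑ i ∈ Q, ENNReal.ofReal (Q.card) * L := by
          refine Finset.sum_le_sum fun i hi => ?_
          have h1 : ∀ s, ENNReal.ofReal (Q.card * G (s - x i) ^ 2) =
              ENNReal.ofReal (Q.card) * ENNReal.ofReal (G (s - x i) ^ 2) := fun s =>
            ENNReal.ofReal_mul (Nat.cast_nonneg _)
          simp_rw [h1]
          rw [lintegral_const_mul' _ _ ENNReal.ofReal_ne_top]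
          gcongr
          exact hint i hi
      _ = (Q.card : ENNReal) * (ENNReal.ofReal (Q.card) * L) := by
          rw [Finset.sum_const, nsmul_eq_mul]
      _ ≤ (Q.card : ENNReal) * (ENNReal.ofReal (Q.card) * ENNReal.ofReal (L.toReal + 1)) := by
          gcongr
      _ = _ := by
          rw [← ENNReal.ofReal_natCast, ← ENNReal.ofReal_mul (Nat.cast_nonneg _),
            ← ENNReal.ofReal_mul (Nat.cast_nonneg _)]
          congr 1
          ring
  have hsub : {s : ℝ | s ∈ Icc (0 : ℝ) 2 ∧ m ≤ ∑ i ∈ Q, max 0 (log (C / |s - x i|))} ⊆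
      {s : ℝ | ENNReal.ofReal (m ^ 2) ≤ F s} ∩ Icc (0 : ℝ) 2 := by
    rintro s ⟨hs, hms⟩
    refine ⟨?_, hs⟩
    simp only [mem_setOf_eq, hF]
    rw [← ENNReal.ofReal_sum_of_nonneg (fun i _ => by have := hG0 (s - x i); positivity)]
    apply ENNReal.ofReal_le_ofReal
    rw [← Finset.mul_sum]
    calc m ^ 2 ≤ (∑ i ∈ Q, G (s - x i)) ^ 2 := pow_le_pow_left₀ hm.le hms 2
      _ ≤ Q.card * ∑ i ∈ Q, G (s - x i) ^ 2 := sq_sum_le_card_mul_sum_sq
  calc volume {s : ℝ | s ∈ Icc (0 : ℝ) 2 ∧ m ≤ ∑ i ∈ Q, max 0 (log (C / |s - x i|))}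
      ≤ volume ({s : ℝ | ENNReal.ofReal (m ^ 2) ≤ F s} ∩ Icc (0 : ℝ) 2) := measure_mono hsub
    _ = (volume.restrict (Icc (0 : ℝ) 2)) {s : ℝ | ENNReal.ofReal (m ^ 2) ≤ F s} :=
        (Measure.restrict_apply' measurableSet_Icc).symm
    _ ≤ (∫⁻ s in Icc (0 : ℝ) 2, F s) / ENNReal.ofReal (m ^ 2) :=
        meas_ge_le_lintegral_div hFm.aemeasurable (by simp; positivity) ENNReal.ofReal_ne_top
    _ ≤ ENNReal.ofReal ((L.toReal + 1) * (Q.card : ℝ) ^ 2) / ENNReal.ofReal (m ^ 2) := by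
        gcongr
    _ = _ := by
        rw [ENNReal.ofReal_div_of_pos (by positivity)]

end Pool.Agent.THX
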