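import Pool.Agent.THX.Glob
import Pool.Agent.THX.ChainEx
import Pool.Agent.TX1.Regime
import Pool.Agent.MML.Sel

/-!
# THX, module Core: the normalised theorem

`chain_ex` gives `C0`, `glob` gives `θ, del, C`, `chain_ex` gives `R1`, `TX1.regime` with `R = max R1 R0` gives `ε0, δ0` (`JJ f R s1`).
`c ≤ 1` without loss of generality (`KK > 1`); `c > 1/KK lam ≥ 1/2 - min del δ0` for `lam` near `1`.  `TM f → ∞` (`Gr` with `ρ' = 0`), so `exp R1 ≤ TM f s1'` for `s1' ≥ s1` large.
For `α ≥ s1'`, `β ≥ α + 2`: `T = α`, `J = ⌊β - α⌋`, so `τ 0 ≤ α + 1/2`, `β - 1 ≤ τ J ≤ β + 1/2`: `∫_α^β exp (-(lam s)) TM f ≤ C' (exp (-(lam α)) TM f (α+3) + exp (-(lam β)) TM f (β+3))`; for `β ≤ α + 2` trivial.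
`MML.sel` with `P = TM f + 1`, `K = 3`, `δ = 1/(4C'')`: contradiction.
-/

set_option autoImplicit false
set_option linter.all false

namespace Pool.Agent.THX

open Real MeasureTheory Set Filter Topology
open Pool.Agent.TX1 (pt ell TM TN Fac HM Gr JJ)

/-- bounds for `KK` near `1` -/
private theorem core_KK {lam : ℝ} (h1 : 1 ≤ lam) (h2 : lam ≤ 5 / 4) :
    1 < KK lam ∧ KK lam ≤ 2 * (1 + 4 * (lam - 1)) := by
  have hpi := pi_pos
  have hpi4 := pi_le_four
  have e1 : sin (π * lam) = -sin (π * (lam - 1)) := by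
    have : π * (lam - 1) = π * lam - π := by ring
    rw [this, sin_sub_pi, neg_neg]
  have hx0 : 0 ≤ π * (lam - 1) := mul_nonneg hpi.le (by linarith)
  have h3 : 0 ≤ sin (π * (lam - 1)) := by
    apply sin_nonneg_of_nonneg_of_le_pi hx0
    nlinarith
  have h4 : sin (π * (lam - 1)) ≤ π * (lam - 1) := sin_le hx0
  have hl : 0 < lam := by linarith
  unfold KK
  rw [e1]
  constructor
  · rw [lt_div_iff₀ hl]
    linarith
  · rw [div_le_iff₀ hl]
    have h5 : π * (lam - 1) ≤ 4 * (lam - 1) := mul_le_mul_of_nonneg_right hpi4 (by linarith)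
    nlinarith

private theorem core_int {f : ℂ → ℂ} (hf : Differentiable ℂ f) {l a b : ℝ} (hl : 0 ≤ l)
    (hab : a ≤ b) : ∫ s in a..b, exp (-(l * s)) * TM f s ≤ (b - a) * (exp (-(l * a)) * TM f b) := by
  have hc : Continuous (fun s => exp (-(l * s)) * TM f s) :=
    (by fun_prop : Continuous fun s => exp (-(l * s))).mul (TX1.TM_cont hf)
  have e1 : ∫ _ in a..b, exp (-(l * a)) * TM f b = (b - a) * (exp (-(l * a)) * TM f b) := by
    rw [intervalIntegral.integral_const]; simp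
  rw [← e1]
  apply intervalIntegral.integral_mono_on hab (hc.intervalIntegrable _ _) (by simp)
  intro s hs
  apply mul_le_mul _ (TX1.TM_mono hf hs.2) (TX1.TM_nonneg f s) (exp_pos _).le
  apply exp_le_exp.2
  nlinarith [hs.1, hs.2]

private theorem core_int0 {f : ℂ → ℂ} {l a b : ℝ} (hab : a ≤ b) :
    0 ≤ ∫ s in a..b, exp (-(l * s)) * TM f s :=
  intervalIntegral.integral_nonneg hab fun s _ => mul_nonneg (exp_pos _).le (TX1.TM_nonneg f s)

private theorem core_exp : exp (5 / 4 : ℝ) ≤ 4 := by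
  have h1 : exp (5 / 4 : ℝ) = exp 1 * exp (1 / 4) := by rw [← exp_add]; norm_num
  have h2 := exp_one_lt_d9
  have h3 : exp (1 / 4 : ℝ) ≤ 4 / 3 := by
    have h4 := one_sub_le_exp_neg (1 / 4 : ℝ)
    rw [exp_neg] at h4
    have hp := exp_pos (1 / 4 : ℝ)
    have h5 : exp (1 / 4 : ℝ) * (1 - 1 / 4) ≤ 1 := by
      calc exp (1 / 4 : ℝ) * (1 - 1 / 4) ≤ exp (1 / 4 : ℝ) * (exp (1 / 4 : ℝ))⁻¹ := by gcongr
        _ = 1 := mul_inv_cancel₀ hp.ne'
    linarith
  rw [h1]
  have hp := exp_pos (1 / 4 : ℝ)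
  nlinarith

theorem core : ∃ ε0 : ℝ, 0 < ε0 ∧ ∀ (f : ℂ → ℂ) (lam c s0 : ℝ), Differentiable ℂ f → f 0 = 1 → 1 ≤ lam → lam ≤ 1 + ε0 →
    Gr f lam → 1 < c * KK lam → ¬ ∀ s, s0 ≤ s → ∃ t : ℝ, ‖f (pt s t)‖ ≤ exp (-(c * TM f s)) := by
  obtain ⟨C0, hC0, hch⟩ := chain_ex
  obtain ⟨θ, del, C, hθ0, hθ1, hdel, hC, hglob⟩ := glob hC0
  obtain ⟨R1, hR1, hchain⟩ := hch θ hθ0 hθ1
  obtain ⟨R0, hR0, hreg⟩ := TX1.regime
  obtain ⟨ε1, δ1, hε1, hδ1, hregime⟩ := hreg (max R1 R0) (le_max_right _ _)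
  obtain ⟨dm, hdm⟩ : ∃ dm : ℝ, dm = min del δ1 := ⟨_, rfl⟩
  have hdm0 : 0 < dm := by rw [hdm]; exact lt_min hdel hδ1
  have hdm1 : dm ≤ del := by rw [hdm]; exact min_le_left _ _
  have hdm2 : dm ≤ δ1 := by rw [hdm]; exact min_le_right _ _
  refine ⟨min (1 / 4) (min ε1 (dm / 2)), by positivity, ?_⟩
  intro f lam c s0 hf hf0 hl1 hl2 hG hcK hH
  have hl3 : lam ≤ 5 / 4 := by have := min_le_left (1 / 4) (min ε1 (dm / 2)); linarith
  have hl4 : lam ≤ 1 + ε1 := by
    have := (min_le_right (1 / 4) (min ε1 (dm / 2))).trans (min_le_left _ _); linarith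
  have hl5 : lam ≤ 1 + dm / 2 := by
    have := (min_le_right (1 / 4) (min ε1 (dm / 2))).trans (min_le_right _ _); linarith
  obtain ⟨hK1, hK2⟩ := core_KK hl1 hl3
  have hMm := TX1.TM_mono hf
  have hM0 := TX1.TM_nonneg f
  have hMc := TX1.TM_cont hf
  -- `c ≤ 1`
  obtain ⟨c', hc'⟩ : ∃ c' : ℝ, c' = min c 1 := ⟨_, rfl⟩
  have hc'1 : c' ≤ 1 := by rw [hc']; exact min_le_right _ _
  have hc'2 : c' ≤ c := by rw [hc']; exact min_le_left _ _
  have hcK' : 1 < c' * KK lam := by
    rcases le_total c 1 with h | h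
    · rw [hc', min_eq_left h]; exact hcK
    · rw [hc', min_eq_right h, one_mul]; exact hK1
  have hH' : ∀ s, s0 ≤ s → ∃ t : ℝ, ‖f (pt s t)‖ ≤ exp (-(c' * TM f s)) := by
    intro s hs
    obtain ⟨t, ht⟩ := hH s hs
    refine ⟨t, ht.trans (exp_le_exp.2 ?_)⟩
    have := mul_le_mul_of_nonneg_right hc'2 (hM0 s)
    linarith
  have hclow : 1 / 2 - dm ≤ c' := by
    by_contra hcon
    push Not at hcon
    have h1 : c' < 1 / 2 - 2 * (lam - 1) := by linarith
    have h2 : 0 < 1 + 4 * (lam - 1) := by linarith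
    have hc0 : 0 ≤ c' := by
      by_contra h3
      push Not at h3
      nlinarith
    have h3 : c' * KK lam ≤ c' * (2 * (1 + 4 * (lam - 1))) := mul_le_mul_of_nonneg_left hK2 hc0
    nlinarith [sq_nonneg (lam - 1)]
  have hHM : HM f dm s0 := by
    intro s hs
    obtain ⟨t, ht⟩ := hH' s hs
    refine ⟨t, ht.trans (exp_le_exp.2 ?_)⟩
    have := mul_le_mul_of_nonneg_right hclow (hM0 s)
    linarith
  obtain ⟨s1, hJ⟩ := hregime f lam dm s0 hf hf0 hl1 hl4 hG hdm0.le hdm2 hHM
  obtain ⟨s2, hs2⟩ := TX1.Gr_large hf (by linarith) hG (exp (max R1 R0))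
  obtain ⟨s3, hs3⟩ : ∃ s3 : ℝ, s3 = max s1 (max s2 s0) := ⟨_, rfl⟩
  have h31 : s1 ≤ s3 := by rw [hs3]; exact le_max_left _ _
  have h32 : s2 ≤ s3 := by rw [hs3]; exact (le_max_left _ _).trans (le_max_right _ _)
  have h30 : s0 ≤ s3 := by rw [hs3]; exact (le_max_right _ _).trans (le_max_right _ _)
  have hJ3 : JJ f (max R1 R0) s3 := fun s hs => hJ s (h31.trans hs)
  have hbig : ∀ s, s3 ≤ s → exp (max R1 R0) ≤ TM f s := fun s hs => hs2 s (h32.trans hs)
  have hone : ∀ s, s3 ≤ s → 1 ≤ TM f s := by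
    intro s hs
    refine le_trans ?_ (hbig s hs)
    rw [one_le_exp_iff]
    exact le_trans (by linarith) (le_max_left R1 R0)
  obtain ⟨κ, hκ⟩ : ∃ κ : ℝ, κ = c' * KK lam - 1 := ⟨_, rfl⟩
  have hκ0 : 0 < κ := by rw [hκ]; linarith
  obtain ⟨C2, hC2⟩ : ∃ C2 : ℝ, C2 = 4 * (C / κ) + 5 := ⟨_, rfl⟩
  have hCκ : 0 < C / κ := div_pos hC hκ0
  have hC20 : 5 < C2 := by rw [hC2]; linarith
  have hl0 : 0 ≤ lam := by linarith
  have hgc : Continuous (fun s => exp (-(lam * s)) * TM f s) :=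
    (by fun_prop : Continuous fun s => exp (-(lam * s))).mul hMc
  have hgi : ∀ x y, IntervalIntegrable (fun s => exp (-(lam * s)) * TM f s) volume x y :=
    fun x y => hgc.intervalIntegrable x y
  -- the main estimate
  have key : ∀ α β, s3 ≤ α → α ≤ β → ∫ s in α..β, exp (-(lam * s)) * TM f s ≤
      C2 * (exp (-(lam * α)) * TM f (α + 3) + exp (-(lam * β)) * TM f (β + 3)) := by
    intro α β hα hαβ
    have hA0 : 0 ≤ exp (-(lam * α)) * TM f (α + 3) := mul_nonneg (exp_pos _).le (hM0 _)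
    have hB0 : 0 ≤ exp (-(lam * β)) * TM f (β + 3) := mul_nonneg (exp_pos _).le (hM0 _)
    rcases le_total β (α + 2) with hβ | hβ
    · have h1 := core_int hf hl0 hαβ
      have h2 : TM f β ≤ TM f (α + 3) := hMm (by linarith)
      have h3 : exp (-(lam * α)) * TM f β ≤ exp (-(lam * α)) * TM f (α + 3) :=
        mul_le_mul_of_nonneg_left h2 (exp_pos _).le
      have h4 : 0 ≤ exp (-(lam * α)) * TM f β := mul_nonneg (exp_pos _).le (hM0 _)
      have h5 : (β - α) * (exp (-(lam * α)) * TM f β) ≤ 2 * (exp (-(lam * α)) * TM f (α + 3)) := by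
        nlinarith
      nlinarith
    · obtain ⟨J, hJd⟩ : ∃ J : ℕ, J = ⌊β - α⌋₊ := ⟨_, rfl⟩
      have hJ1 : (J : ℝ) ≤ β - α := by rw [hJd]; exact Nat.floor_le (by linarith)
      have hJ2 : β - α < J + 1 := by rw [hJd]; exact Nat.lt_floor_add_one _
      obtain ⟨n, x, y, h, τ, ψ, A, hh, hCh⟩ := hchain f (max R1 R0) s3 hf hf0 (le_max_left _ _)
        hJ3 (hbig s3 le_rfl) α J hα
      have hgl := hglob lam c' α f h J n x y τ ψ A hh hl1 hl3 (by linarith) hc'1 hcK'.le hCh
        (fun s hs _ => hH' s (h30.trans (hα.trans hs)))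
      rw [← hκ] at hgl
      obtain ⟨t0a, t0b⟩ := hCh.tau 0 (Nat.zero_le _)
      obtain ⟨tJa, tJb⟩ := hCh.tau J le_rfl
      simp only [Nat.cast_zero, add_zero] at t0a t0b
      have hb1 : β - 1 ≤ τ J := by linarith
      have hb2 : τ J ≤ β + 1 / 2 := by linarith
      -- the boundary terms
      have hexpb : exp (-(lam * (β - 1))) ≤ 4 * exp (-(lam * β)) := by
        have e1 : -(lam * (β - 1)) = lam + -(lam * β) := by ring
        rw [e1, exp_add]
        have h2 : exp lam ≤ 4 := (exp_le_exp.2 hl3).trans core_exp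
        exact mul_le_mul_of_nonneg_right h2 (exp_pos _).le
      have k1 : exp (-(lam * τ 0)) * TM f (τ 0) ≤ exp (-(lam * α)) * TM f (α + 3) := by
        apply mul_le_mul _ (hMm (by linarith)) (hM0 _) (exp_pos _).le
        apply exp_le_exp.2
        have := mul_le_mul_of_nonneg_left t0a hl0
        linarith
      have k2 : exp (-(lam * τ J)) * TM f (τ J) ≤ 4 * (exp (-(lam * β)) * TM f (β + 3)) := by
        have h2 : exp (-(lam * τ J)) ≤ 4 * exp (-(lam * β)) := by
          refine le_trans (exp_le_exp.2 ?_) hexpb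
          have := mul_le_mul_of_nonneg_left hb1 hl0
          linarith
        have h3 : TM f (τ J) ≤ TM f (β + 3) := hMm (by linarith)
        calc exp (-(lam * τ J)) * TM f (τ J) ≤ (4 * exp (-(lam * β))) * TM f (β + 3) :=
              mul_le_mul h2 h3 (hM0 _) (by positivity)
          _ = _ := by ring
      have k3 : ∫ s in α..(τ 0), exp (-(lam * s)) * TM f s ≤
          exp (-(lam * α)) * TM f (α + 3) := by
        refine (core_int hf hl0 t0a).trans ?_
        have h2 : TM f (τ 0) ≤ TM f (α + 3) := hMm (by linarith)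
        have h3 : exp (-(lam * α)) * TM f (τ 0) ≤ exp (-(lam * α)) * TM f (α + 3) :=
          mul_le_mul_of_nonneg_left h2 (exp_pos _).le
        have h4 : 0 ≤ exp (-(lam * α)) * TM f (τ 0) := mul_nonneg (exp_pos _).le (hM0 _)
        nlinarith
      have k4 : ∫ s in (τ J)..β, exp (-(lam * s)) * TM f s ≤
          4 * (exp (-(lam * β)) * TM f (β + 3)) := by
        rcases le_total (τ J) β with hle | hle
        · refine (core_int hf hl0 hle).trans ?_
          have h2 : exp (-(lam * τ J)) ≤ 4 * exp (-(lam * β)) := by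
            refine le_trans (exp_le_exp.2 ?_) hexpb
            have := mul_le_mul_of_nonneg_left hb1 hl0
            linarith
          have h3 : TM f β ≤ TM f (β + 3) := hMm (by linarith)
          have h5 : exp (-(lam * τ J)) * TM f β ≤ (4 * exp (-(lam * β))) * TM f (β + 3) :=
            mul_le_mul h2 h3 (hM0 _) (by positivity)
          have h4 : 0 ≤ exp (-(lam * τ J)) * TM f β := mul_nonneg (exp_pos _).le (hM0 _)
          nlinarith
        · rw [intervalIntegral.integral_symm]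
          have := core_int0 (f := f) (l := lam) hle
          linarith
      have k5 : ∫ s in (τ 0)..(τ J), exp (-(lam * s)) * TM f s ≤
          C / κ * (exp (-(lam * τ 0)) * TM f (τ 0) + exp (-(lam * τ J)) * TM f (τ J)) := by
        rw [div_mul_eq_mul_div, le_div_iff₀ hκ0]
        linarith
      have hsplit : ∫ s in α..β, exp (-(lam * s)) * TM f s =
          (∫ s in α..(τ 0), exp (-(lam * s)) * TM f s) +
          (∫ s in (τ 0)..(τ J), exp (-(lam * s)) * TM f s) +
          ∫ s in (τ J)..β, exp (-(lam * s)) * TM f s := by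
        rw [intervalIntegral.integral_add_adjacent_intervals (hgi _ _) (hgi _ _),
          intervalIntegral.integral_add_adjacent_intervals (hgi _ _) (hgi _ _)]
      have k6 : C / κ * (exp (-(lam * τ 0)) * TM f (τ 0) + exp (-(lam * τ J)) * TM f (τ J)) ≤
          C / κ * (4 * (exp (-(lam * α)) * TM f (α + 3) + exp (-(lam * β)) * TM f (β + 3))) := by
        apply mul_le_mul_of_nonneg_left _ hCκ.le
        linarith
      rw [hsplit, hC2]
      nlinarith
  -- selection
  obtain ⟨α, β, hα, hαβ, hsel⟩ := MML.sel lam (by linarith) (fun s => TM f s + 1)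
    (fun x y hxy => by have := hMm hxy; simp only; linarith)
    (hMc.add continuous_const) (fun s => by have := hM0 s; linarith)
    (by
      intro ρ' c₁ hρ' hc₁ hcon
      refine hG.1 ρ' (c₁ / 2) hρ' (by positivity) ?_
      have htend : Tendsto (fun s : ℝ => c₁ / 2 * exp (ρ' * s)) atTop atTop := by
        apply Tendsto.const_mul_atTop (by positivity)
        exact Real.tendsto_exp_atTop.comp (Tendsto.const_mul_atTop (by linarith) tendsto_id)
      filter_upwards [hcon, htend.eventually_ge_atTop 1] with s ha hb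
      have : c₁ * exp (ρ' * s) ≤ TM f s + 1 := ha
      linarith)
    (by
      intro ρ' C' hρ' hcon
      refine hG.2 ρ' C' hρ' ?_
      filter_upwards [hcon] with s ha
      have : TM f s + 1 ≤ C' * exp (ρ' * s) := ha
      linarith)
    (1 / (4 * C2)) 3 s3 (by positivity) (by norm_num)
  have hk := key α β hα hαβ
  simp only [neg_mul] at hsel
  have hA1 : 0 < exp (-(lam * α)) * TM f (α + 3) :=
    mul_pos (exp_pos _) (by have := hone (α + 3) (by linarith); linarith)
  have hB1 : 0 ≤ exp (-(lam * β)) * TM f (β + 3) := mul_nonneg (exp_pos _).le (hM0 _)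
  have hint : ∫ s in α..β, exp (-(lam * s)) * (TM f s + 1) ≤
      2 * ∫ s in α..β, exp (-(lam * s)) * TM f s := by
    rw [← intervalIntegral.integral_const_mul]
    apply intervalIntegral.integral_mono_on hαβ
    · exact ((by fun_prop : Continuous fun s => exp (-(lam * s))).mul
        (hMc.add continuous_const)).intervalIntegrable _ _
    · exact (hgi _ _).const_mul 2
    · intro s hs
      have h1 := hone s (hα.trans hs.1)
      have h2 := exp_pos (-(lam * s))
      nlinarith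
  have hE : exp (-(lam * α)) * TM f (α + 3) + exp (-(lam * β)) * TM f (β + 3) ≤
      exp (-(lam * α)) * (TM f (α + 3) + 1) + exp (-(lam * β)) * (TM f (β + 3) + 1) := by
    have h1 := exp_pos (-(lam * α))
    have h2 := exp_pos (-(lam * β))
    nlinarith
  obtain ⟨Φ, hΦ⟩ : ∃ Φ : ℝ, Φ = exp (-(lam * α)) * TM f (α + 3) + exp (-(lam * β)) * TM f (β + 3) :=
    ⟨_, rfl⟩
  rw [← hΦ] at hE hk
  have hΦ0 : 0 < Φ := by rw [hΦ]; linarith
  have hfin : Φ ≤ 1 / (4 * C2) * (2 * (C2 * Φ)) := by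
    refine hE.trans (hsel.trans ?_)
    apply mul_le_mul_of_nonneg_left _ (by positivity)
    refine hint.trans ?_
    linarith
  have e1 : 1 / (4 * C2) * (2 * (C2 * Φ)) = Φ / 2 := by
    have : C2 ≠ 0 := by linarith
    field_simp
    norm_num
  rw [e1] at hfin
  linarith

end Pool.Agent.THX
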