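import Pool.Agent.THX.GamA
import Pool.Agent.TX1.Ell

/-!
# THX, module Dec: decomposition of `log |F|` as seen from the height `0`

`F ζ = ∏ (1 - ζ/b_i) exp (g ζ)` (`Dat.hF`, `‖ζ‖ = exp s ≤ exp 2 ≤ exp 3`), `log |1 - ζ/b| = ell (s-x) (θ-y)`; for `x < 0` it is `(s - x) + ell (x-s) (θ-y)`
(`ell_neg`, `ell_even`), for `x > 0` it is `VV - Re (ζ/b)`, and `Dat.hg1`: `Re (deriv g 0 * ζ) = -A exp s cos θ + ∑_{x i > 0} Re (ζ/b_i)`.
`dec_ql`: the same for `ζ F'/F` on the circle `s = 0`: `-w/(1-w)` with `w = ζ/b`: for `|w| > 1` it is `1 + (1/w)/(1 - 1/w)`, for `|w| < 1` it is `-w - w²/(1-w)`.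
-/

set_option autoImplicit false
set_option linter.all false

namespace Pool.Agent.THX

open Real MeasureTheory Set Filter Topology
open Pool.Agent.TX1 (pt ell TM TN Fac HM Gr)

/-! ### auxiliary facts -/

theorem dc_norm_le {s : ℝ} (hs : s ≤ 2) (θ : ℝ) : ‖pt s θ‖ ≤ exp 3 := by
  rw [Pool.Agent.TX1.pt_norm]
  exact exp_le_exp.2 (by linarith)

theorem dc_pt_re (s θ : ℝ) : (pt s θ).re = exp s * cos θ := by
  unfold pt
  rw [Complex.exp_re]
  simp

/-- one zero -/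
theorem dc_one {x : ℝ} (hx : x ≠ 0) (y s θ : ℝ) :
    ell (s - x) (θ - y) = max (-x) 0 + (if x < 0 then (1 : ℝ) else 0) * s + VV x y s θ -
      (if 0 < x then (pt s θ / pt x y).re else 0) := by
  rcases lt_or_gt_of_ne hx with h | h
  · rw [if_pos h, if_neg (not_lt.2 h.le), VV, if_pos h, max_eq_left (by linarith),
      Pool.Agent.TX1.ell_neg (s - x) (θ - y), neg_sub]
    ring
  · rw [if_neg (not_lt.2 h.le), if_pos h, VV, if_neg (not_lt.2 h.le),
      max_eq_right (by linarith), Pool.Agent.TX1.pt_div, dc_pt_re]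
    ring

theorem dc_sum {n : ℕ} {x y : Fin n → ℝ} (hx : ∀ i, x i ≠ 0) (s θ : ℝ) :
    ∑ i, ell (s - x i) (θ - y i) = (∑ i, max (-(x i)) 0) + nB x * s + (∑ i, VV (x i) (y i) s θ) -
      ∑ i, (if 0 < x i then (pt s θ / pt (x i) (y i)).re else 0) := by
  rw [Finset.sum_congr rfl fun i _ => dc_one (hx i) (y i) s θ, Finset.sum_sub_distrib,
    Finset.sum_add_distrib, Finset.sum_add_distrib, ← Finset.sum_mul]
  have : nB x = ∑ i, if x i < 0 then (1 : ℝ) else 0 := by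
    unfold nB
    exact Finset.sum_congr rfl fun i _ => by congr
  rw [this]

/-- the dipole -/
theorem dc_dip {th A h : ℝ} {n : ℕ} {x y : Fin n → ℝ} {g F : ℂ → ℂ} (hD : Dat th A h n x y g F)
    (s θ : ℝ) : (deriv g 0 * pt s θ).re = -(A * exp s * cos θ) +
      ∑ i, (if 0 < x i then (pt s θ / pt (x i) (y i)).re else 0) := by
  have h1 : deriv g 0 = -(A : ℂ) + ∑ i, if 0 < x i then 1 / pt (x i) (y i) else 0 := by
    rw [hD.hg1]
  rw [h1, add_mul, Complex.add_re, Finset.sum_mul, Complex.re_sum]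
  congr 1
  · rw [neg_mul, Complex.neg_re, Complex.re_ofReal_mul, dc_pt_re]
    ring
  · refine Finset.sum_congr rfl fun i _ => ?_
    split_ifs
    · congr 1
      rw [one_div, inv_mul_eq_div]
    · rw [zero_mul, Complex.zero_re]

theorem dc_fac_norm {n : ℕ} {x y : Fin n → ℝ} {s θ : ℝ}
    (hne : ∀ i, 1 - pt s θ / pt (x i) (y i) ≠ 0) :
    log ‖∏ i, (1 - pt s θ / pt (x i) (y i))‖ = ∑ i, ell (s - x i) (θ - y i) := by
  rw [norm_prod, Real.log_prod fun i _ => norm_ne_zero_iff.2 (hne i)]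
  refine Finset.sum_congr rfl fun i _ => ?_
  rw [Pool.Agent.TX1.pt_div]
  rfl

theorem dc_main {th A h : ℝ} {n : ℕ} {x y : Fin n → ℝ} {g F : ℂ → ℂ} (hD : Dat th A h n x y g F)
    {s : ℝ} (hs : s ≤ 2) {θ : ℝ} (hne : ∀ i, 1 - pt s θ / pt (x i) (y i) ≠ 0) :
    log ‖F (pt s θ)‖ =
      (∑ i, max (-(x i)) 0) + nB x * s + (∑ i, VV (x i) (y i) s θ) - A * exp s * cos θ
        + (g (pt s θ) - deriv g 0 * pt s θ).re := by
  rw [hD.hF _ (dc_norm_le hs θ), norm_mul, Complex.norm_exp,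
    Real.log_mul (norm_ne_zero_iff.2 (Finset.prod_ne_zero_iff.2 fun i _ => hne i))
      (exp_pos _).ne', Real.log_exp, dc_fac_norm hne, dc_sum hD.hx, Complex.sub_re, dc_dip hD]
  ring

theorem dc_ne {n : ℕ} {x y : Fin n → ℝ} {s : ℝ} (hne : ∀ i, x i ≠ s) (θ : ℝ) (i : Fin n) :
    1 - pt s θ / pt (x i) (y i) ≠ 0 := by
  rw [Pool.Agent.TX1.pt_div]
  exact norm_ne_zero_iff.1 (Pool.Agent.TX1.one_sub_pt_ne (sub_ne_zero.2 (hne i).symm) _)

theorem dec {th A h : ℝ} {n : ℕ} {x y : Fin n → ℝ} {g F : ℂ → ℂ} (hD : Dat th A h n x y g F) {s : ℝ} (hs : s ≤ 2)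
    (hne : ∀ i, x i ≠ s) (θ : ℝ) : F (pt s θ) ≠ 0 ∧ log ‖F (pt s θ)‖ =
      (∑ i, max (-(x i)) 0) + nB x * s + (∑ i, VV (x i) (y i) s θ) - A * exp s * cos θ
        + (g (pt s θ) - deriv g 0 * pt s θ).re := by
  refine ⟨?_, dc_main hD hs (dc_ne hne θ)⟩
  rw [hD.hF _ (dc_norm_le hs θ)]
  exact mul_ne_zero (Finset.prod_ne_zero_iff.2 fun i _ => dc_ne hne θ i) (Complex.exp_ne_zero _)

/-- the same at every height, for all `θ` with `F (pt s θ) ≠ 0` -/
theorem dec' {th A h : ℝ} {n : ℕ} {x y : Fin n → ℝ} {g F : ℂ → ℂ} (hD : Dat th A h n x y g F) {s : ℝ} (hs : s ≤ 2)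
    {θ : ℝ} (hne : F (pt s θ) ≠ 0) : log ‖F (pt s θ)‖ =
      (∑ i, max (-(x i)) 0) + nB x * s + (∑ i, VV (x i) (y i) s θ) - A * exp s * cos θ
        + (g (pt s θ) - deriv g 0 * pt s θ).re := by
  refine dc_main hD hs fun i hi => hne ?_
  rw [hD.hF _ (dc_norm_le hs θ), Finset.prod_eq_zero (Finset.mem_univ i) hi, zero_mul]

/-- directions where one factor vanishes -/
theorem dc_fin_one (τ y a b : ℝ) : {θ : ℝ | θ ∈ Icc a b ∧ pt τ (θ - y) = 1}.Finite := by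
  have hsub : {θ : ℝ | θ ∈ Icc a b ∧ pt τ (θ - y) = 1} ⊆
      (fun k : ℤ => y + k * (2 * π)) '' (Icc ⌈(a - y) / (2 * π)⌉ ⌊(b - y) / (2 * π)⌋) := by
    rintro θ ⟨hθ, h1⟩
    have hpi : 0 < 2 * π := by positivity
    unfold pt at h1
    obtain ⟨k, hk⟩ := Complex.exp_eq_one_iff.1 h1
    have h2 : θ - y = k * (2 * π) := by
      have := congrArg Complex.im hk
      simpa using this
    refine ⟨k, ⟨?_, ?_⟩, ?_⟩
    · rw [Int.ceil_le, div_le_iff₀ hpi]
      linarith [hθ.1]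
    · rw [Int.le_floor, le_div_iff₀ hpi]
      linarith [hθ.2]
    · show y + (k : ℝ) * (2 * π) = θ
      linarith
  exact ((Set.finite_Icc _ _).image _).subset hsub

/-- for every height, all but finitely many directions in a period are free of zeros -/
theorem dec_fin {th A h : ℝ} {n : ℕ} {x y : Fin n → ℝ} {g F : ℂ → ℂ} (hD : Dat th A h n x y g F) {s : ℝ} (hs : s ≤ 2)
    (a b : ℝ) : {θ : ℝ | θ ∈ Icc a b ∧ F (pt s θ) = 0}.Finite := by
  have hsub : {θ : ℝ | θ ∈ Icc a b ∧ F (pt s θ) = 0} ⊆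
      ⋃ i : Fin n, {θ : ℝ | θ ∈ Icc a b ∧ pt (s - x i) (θ - y i) = 1} := by
    rintro θ ⟨hθ, h1⟩
    rw [hD.hF _ (dc_norm_le hs θ), mul_eq_zero] at h1
    rcases h1 with h1 | h1
    · rw [Finset.prod_eq_zero_iff] at h1
      obtain ⟨i, -, hi⟩ := h1
      rw [Pool.Agent.TX1.pt_div] at hi
      exact mem_iUnion.2 ⟨i, hθ, (sub_eq_zero.1 hi).symm⟩
    · exact absurd h1 (Complex.exp_ne_zero _)
  exact (Set.finite_iUnion fun i => dc_fin_one _ _ a b).subset hsub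

/-- one zero: the logarithmic derivative -/
theorem dc_one' {x : ℝ} (hx : x ≠ 0) (y θ : ℝ) :
    (-(pt 0 θ / pt x y) / (1 - pt 0 θ / pt x y)).re = (if x < 0 then (1 : ℝ) else 0) +
      VS x y 0 θ - (if 0 < x then (pt 0 θ / pt x y).re else 0) := by
  have hne : (1 : ℂ) - pt (0 - x) (θ - y) ≠ 0 :=
    norm_ne_zero_iff.1 (Pool.Agent.TX1.one_sub_pt_ne (by simpa using hx) _)
  rw [Pool.Agent.TX1.pt_div]
  rcases lt_or_gt_of_ne hx with h | h
  · rw [if_pos h, if_neg (not_lt.2 h.le), VS, if_pos h, sub_zero, sub_zero]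
    have hne2 : (1 : ℂ) - pt x (-(θ - y)) ≠ 0 :=
      norm_ne_zero_iff.1 (Pool.Agent.TX1.one_sub_pt_ne hx _)
    have hmul : pt (0 - x) (θ - y) * pt x (-(θ - y)) = 1 := by
      unfold pt
      rw [← Complex.exp_add, ← Complex.exp_zero]
      congr 1
      push_cast
      ring
    have e1 : -pt (0 - x) (θ - y) / (1 - pt (0 - x) (θ - y)) =
        1 + pt x (-(θ - y)) / (1 - pt x (-(θ - y))) := by
      rw [div_eq_iff hne, add_mul, div_mul_eq_mul_div, one_mul, ← sub_eq_iff_eq_add',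
        eq_div_iff hne2]
      linear_combination hmul
    rw [e1, Complex.add_re, Complex.one_re]
    congr 1
    rw [← Pool.Agent.TX1.pt_conj]
    have e2 : (starRingEnd ℂ) (pt x (θ - y)) / (1 - (starRingEnd ℂ) (pt x (θ - y))) =
        (starRingEnd ℂ) (pt x (θ - y) / (1 - pt x (θ - y))) := by
      rw [map_div₀, map_sub, map_one]
    rw [e2, Complex.conj_re]
  · rw [if_neg (not_lt.2 h.le), if_pos h, VS, if_neg (not_lt.2 h.le)]
    have e1 : -pt (0 - x) (θ - y) / (1 - pt (0 - x) (θ - y)) =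
        -(pt (0 - x) (θ - y) ^ 2 / (1 - pt (0 - x) (θ - y))) - pt (0 - x) (θ - y) := by
      field_simp
      ring
    rw [e1, Complex.sub_re, zero_add, Complex.neg_re]

/-- the logarithmic derivative of `F` -/
theorem dc_logDeriv {th A h : ℝ} {n : ℕ} {x y : Fin n → ℝ} {g F : ℂ → ℂ}
    (hD : Dat th A h n x y g F) (θ : ℝ) :
    deriv F (pt 0 θ) / F (pt 0 θ) =
      (∑ i, (-(1 / pt (x i) (y i)) / (1 - pt 0 θ / pt (x i) (y i)))) + deriv g (pt 0 θ) := by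
  have hnorm : ‖pt 0 θ‖ < exp 3 := by
    rw [Pool.Agent.TX1.pt_norm]
    exact exp_lt_exp.2 (by norm_num)
  have hev : F =ᶠ[𝓝 (pt 0 θ)] fun ζ => (∏ i, (1 - ζ / pt (x i) (y i))) * Complex.exp (g ζ) := by
    have : ∀ᶠ ζ in 𝓝 (pt 0 θ), ‖ζ‖ < exp 3 := continuous_norm.continuousAt.eventually_lt
      continuousAt_const hnorm
    filter_upwards [this] with ζ hζ
    exact hD.hF ζ hζ.le
  obtain ⟨ρ, hρ, hg⟩ := hD.hg
  have hgd : DifferentiableAt ℂ g (pt 0 θ) :=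
    hg.differentiableAt (Metric.isOpen_ball.mem_nhds (by
      rw [mem_ball_zero_iff]
      exact hnorm.trans hρ))
  have hne : ∀ i, 1 - pt 0 θ / pt (x i) (y i) ≠ 0 := dc_ne (fun i => hD.hx i) θ
  have hdi : ∀ i : Fin n, HasDerivAt (fun ζ : ℂ => 1 - ζ / pt (x i) (y i))
      (-(1 / pt (x i) (y i))) (pt 0 θ) := fun i =>
    ((hasDerivAt_id' (pt 0 θ)).div_const _).const_sub 1
  have h1 := (logDeriv_congr_nhds hev).eq_of_nhds
  rw [logDeriv_apply] at h1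
  have hdP : DifferentiableAt ℂ (fun ζ : ℂ => ∏ i, (1 - ζ / pt (x i) (y i))) (pt 0 θ) :=
    DifferentiableAt.fun_finsetProd fun i _ => (hdi i).differentiableAt
  have hP0 : (fun ζ : ℂ => ∏ i, (1 - ζ / pt (x i) (y i))) (pt 0 θ) ≠ 0 :=
    Finset.prod_ne_zero_iff.2 fun i _ => hne i
  have hE0 : (fun ζ : ℂ => Complex.exp (g ζ)) (pt 0 θ) ≠ 0 := Complex.exp_ne_zero _
  rw [h1, logDeriv_mul (pt 0 θ) hP0 hE0 hdP hgd.cexp]
  congr 1
  · rw [logDeriv_prod (fun i _ => hne i) (fun i _ => (hdi i).differentiableAt)]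
    refine Finset.sum_congr rfl fun i _ => ?_
    rw [logDeriv_apply, (hdi i).deriv]
  · rw [logDeriv_apply, hgd.hasDerivAt.cexp.deriv, mul_div_cancel_left₀ _ (Complex.exp_ne_zero _)]

theorem dec_ql {th A h : ℝ} {n : ℕ} {x y : Fin n → ℝ} {g F : ℂ → ℂ} (hD : Dat th A h n x y g F) (l θ : ℝ) :
    ql l F (pt 0 θ) = l * (∑ i, max (-(x i)) 0) + nB x + (∑ i, (VS (x i) (y i) 0 θ + l * VV (x i) (y i) 0 θ))
      - (1 + l) * A * cos θ
      + (pt 0 θ * (deriv g (pt 0 θ) - deriv g 0) + l * (g (pt 0 θ) - deriv g 0 * pt 0 θ)).re := by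
  have hne : ∀ i, x i ≠ 0 := hD.hx
  have h1 := (dec hD (by norm_num : (0 : ℝ) ≤ 2) hne θ).2
  have h2 := dc_dip hD 0 θ
  have h3 : (pt 0 θ * deriv F (pt 0 θ) / F (pt 0 θ)).re = nB x + (∑ i, VS (x i) (y i) 0 θ) -
      (∑ i, (if 0 < x i then (pt 0 θ / pt (x i) (y i)).re else 0)) +
      (pt 0 θ * deriv g (pt 0 θ)).re := by
    rw [mul_div_assoc, dc_logDeriv hD θ, mul_add, Complex.add_re, Finset.mul_sum, Complex.re_sum]
    congr 1
    have e1 : ∀ i : Fin n, (pt 0 θ * (-(1 / pt (x i) (y i)) / (1 - pt 0 θ / pt (x i) (y i)))).re =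
        (if x i < 0 then (1 : ℝ) else 0) + VS (x i) (y i) 0 θ -
          (if 0 < x i then (pt 0 θ / pt (x i) (y i)).re else 0) := by
      intro i
      rw [← dc_one' (hne i) (y i) θ]
      congr 1
      rw [← mul_div_assoc]
      congr 1
      rw [mul_neg, mul_one_div]
    rw [Finset.sum_congr rfl fun i _ => e1 i, Finset.sum_sub_distrib, Finset.sum_add_distrib]
    have : nB x = ∑ i, if x i < 0 then (1 : ℝ) else 0 := by
      unfold nB
      exact Finset.sum_congr rfl fun i _ => by congr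
    rw [this]
  have h4 : (pt 0 θ * (deriv g (pt 0 θ) - deriv g 0)).re =
      (pt 0 θ * deriv g (pt 0 θ)).re - (deriv g 0 * pt 0 θ).re := by
    rw [← Complex.sub_re]
    congr 1
    ring
  have h5 : ((l : ℂ) * (g (pt 0 θ) - deriv g 0 * pt 0 θ)).re =
      l * (g (pt 0 θ) - deriv g 0 * pt 0 θ).re := Complex.re_ofReal_mul _ _
  rw [ql, h3, h1, Finset.sum_add_distrib, ← Finset.mul_sum, Complex.add_re, h4, h5, h2, exp_zero]
  ring

end Pool.Agent.THX
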