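import Pool.Agent.TX1.Defs

/-!
# THX, module Defs: definitions for the exact inequality

Problem MP_b22b9c_an, `D(λ)` near `λ = 1`, stage 2.  Cylinder coordinates `(s, θ)`, `z = pt s θ = exp (s + iθ)` as in `TX1`.
A window is `0 ≤ s ≤ el` (`1/2 ≤ el ≤ 3/2`), the valley direction is `θ = 0`, the hump is `th0 l < θ < 2π - th0 l`.
`gam l` is the certificate: even, `2π`-periodic, `gam'' + l² gam = KK l δ_0 + 1_{hump}`.
`VV x y` is the potential of a zero `pt x y` (`x < 0`: `log |1 - b/ζ|`, `x > 0`: `log |1 - ζ/b| + Re (ζ/b)`), `kw x` its weight,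
`dd y` the chordal distance of its direction from the antipode of the valley.
-/

set_option autoImplicit false
set_option linter.all false

namespace Pool.Agent.THX

open Real MeasureTheory Set Filter Topology
open Pool.Agent.TX1 (pt ell TM TN Fac HM Gr)

/-- the constant `K` -/
noncomputable def KK (l : ℝ) : ℝ := 2 * (1 - sin (π * l)) / l

/-- half of the opening of the valley -/
noncomputable def th0 (l : ℝ) : ℝ := π / (2 * l)

/-- the certificate as a function of `x = |θ| ∈ [0, π]` -/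
noncomputable def gG (l x : ℝ) : ℝ :=
  if x ≤ π / (2 * l) then (-cos (π * l) * cos (l * x) + (1 - sin (π * l)) * sin (l * x)) / l ^ 2
  else (1 - cos (l * (π - x))) / l ^ 2

/-- its derivative -/
noncomputable def gG1 (l x : ℝ) : ℝ :=
  if x ≤ π / (2 * l) then (cos (π * l) * sin (l * x) + (1 - sin (π * l)) * cos (l * x)) / l
  else -sin (l * (π - x)) / l

/-- the certificate, even and `2π`-periodic (`arccos (cos θ)` is the distance of `θ` from `2πℤ`) -/
noncomputable def gam (l θ : ℝ) : ℝ := gG l (arccos (cos θ))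

/-- its derivative away from `2πℤ`, odd and `2π`-periodic -/
noncomputable def gad (l θ : ℝ) : ℝ := SignType.sign (sin θ) * gG1 l (arccos (cos θ))

/-- `Re (z f'(z)/f(z)) + l log |f(z)|` -/
noncomputable def ql (l : ℝ) (F : ℂ → ℂ) (z : ℂ) : ℝ := (z * deriv F z / F z).re + l * log ‖F z‖

/-- the boundary functional at height `s`, direction `ψ` -/
noncomputable def TH (l : ℝ) (F : ℂ → ℂ) (s ψ : ℝ) : ℝ := ∫ θ in (-π)..π, gam l θ * ql l F (pt s (θ + ψ))

/-- the hump integral (direction `0`) -/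
noncomputable def mh (l : ℝ) (F : ℂ → ℂ) (s : ℝ) : ℝ := ∫ θ in (th0 l)..(2 * π - th0 l), log ‖F (pt s θ)‖

/-- potential of one zero `pt x y`, as seen from the height `0` -/
noncomputable def VV (x y s θ : ℝ) : ℝ :=
  if x < 0 then ell (x - s) (θ - y) else ell (s - x) (θ - y) + exp (s - x) * cos (θ - y)

/-- its derivative in `s` -/
noncomputable def VS (x y s θ : ℝ) : ℝ :=
  if x < 0 then (pt (x - s) (θ - y) / (1 - pt (x - s) (θ - y))).re
  else -(pt (s - x) (θ - y) ^ 2 / (1 - pt (s - x) (θ - y))).re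

/-- the weight of a zero at height `x` -/
noncomputable def kw (x : ℝ) : ℝ := exp (min x (-(2 * x)))

/-- chordal distance of the direction `y` from the antipode `π` -/
noncomputable def dd (y : ℝ) : ℝ := 2 * |cos (y / 2)|

/-- a zero near the window, outside of the cone around the antipode -/
def NH (x y : ℝ) : Prop := 1 / 2 < dd y ∧ |x| ≤ 3

/-- a zero near the window, in the cone around the antipode -/
def HU (x y : ℝ) : Prop := dd y ≤ 1 / 2 ∧ |x| ≤ 3

open Classical in
/-- the number of zeros near the window outside of the cone -/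
noncomputable def nNH {n : ℕ} (x y : Fin n → ℝ) : ℝ := ∑ i, if NH (x i) (y i) then (1 : ℝ) else 0

open Classical in
/-- the number of zeros below the height `0` -/
noncomputable def nB {n : ℕ} (x : Fin n → ℝ) : ℝ := ∑ i, if x i < 0 then (1 : ℝ) else 0

/-- the first order quantity -/
noncomputable def XX {n : ℕ} (x y : Fin n → ℝ) (h : ℝ) : ℝ := (∑ i, dd (y i) * kw (x i)) + h

open Classical in
/-- The data of a window (or of the height `0`): `F` has the zeros `pt (x i) (y i)`, none of them on the unit circle, its dipole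
at the height `0` is `-A Re ζ`, and all masses are small compared with `A`. -/
structure Dat (th A h : ℝ) (n : ℕ) (x y : Fin n → ℝ) (g F : ℂ → ℂ) : Prop where
  hth : 0 < th
  hth1 : th ≤ 1
  hA : 1 ≤ th * A
  hx : ∀ i, x i ≠ 0
  hF : ∀ ζ : ℂ, ‖ζ‖ ≤ exp 3 → F ζ = (∏ i, (1 - ζ / pt (x i) (y i))) * Complex.exp (g ζ)
  hg : ∃ ρ : ℝ, exp 3 < ρ ∧ DifferentiableOn ℂ g (Metric.ball 0 ρ)
  hg0 : g 0 = 0
  hg1 : deriv g 0 = -(A : ℂ) + ∑ i, if 0 < x i then 1 / pt (x i) (y i) else 0
  hK : ∑ i, kw (x i) ≤ th * A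
  hc : ∑ i, max (-(x i)) 0 ≤ th * A
  hn : nB x ≤ th * A
  hh0 : 0 ≤ h
  hh : h ≤ th * A
  hH : ∀ ζ : ℂ, ‖ζ‖ ≤ exp 2 → ‖g ζ - deriv g 0 * ζ‖ ≤ h ∧ ‖deriv g ζ - deriv g 0‖ ≤ h ∧ ‖deriv (deriv g) ζ‖ ≤ h

/-- There is no cluster of zeros near the two ends of the window. -/
def Clean (k0 : ℕ) {n : ℕ} (x : Fin n → ℝ) (A el : ℝ) : Prop :=
  ∀ k : ℕ, k0 ≤ k → ∀ s ∈ Icc 0 el, (s < (1 / 4) ^ k ∨ el - (1 / 4) ^ k < s) →
    (((Finset.univ.filter (fun i => |s - x i| ≤ (1 / 256 : ℝ) ^ k)).card : ℕ) : ℝ) < (1 / 2) ^ k * A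

end Pool.Agent.THX
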