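import Mathlib

/-!
# THX, module Disc: the discrete lemma (double counting)

`K j k = kap j k`.
(1) rotation is absorbed: `Σ_k K j k N k Σ_{i between} r i ≤ C θ Σ_i K j i Y i`: exchange the sums, `r i ≤ C0 Y i/A i`, and for `i < j`: `Σ_{k ≤ i} exp (-(j-k)) N k ≤ C0 θ A i exp (-(j-i)) Σ exp (-(i-k))`; for
`i ≥ j`: `Σ_{k > i} exp (-2(k-j)) θ C0 exp (5/4 (k-i)) A i ≤ C θ A i exp (-2(i-j))`.
(2) so `X j ≤ C Σ_k K j k Y k + E j`, `Y k ≤ √(N k Q k)`, Cauchy-Schwarz: `(Σ K Y)² ≤ (Σ K N)(Σ K Q)`, `Σ_k K j k N k ≤ C θ A j`.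
(3) `Σ_j w j K j k ≤ C w k` (for `j < k`: `w j ≤ C0 exp (5/4 (k-j)) w k` against `exp (-2(k-j))`).
(4) `E j ² / A j ≤ 2 C0² θ² (exp (-2j) A 0²/A j + exp (-4(J-j)) A J²/A j)`, `A 0 ≤ C0 A j`, `A J ≤ C0 exp (5/4 (J-j)) A j`; multiply by `w j` and sum.
-/

set_option autoImplicit false
set_option linter.all false

namespace Pool.Agent.THX

open Real Finset

/-- the kernel: `exp (-(j-k))` for `k ≤ j` (zeros below), `exp (-2(k-j))` for `k > j` (zeros above) -/
noncomputable def kap (j k : ℕ) : ℝ := if k ≤ j then exp (-((j : ℝ) - k)) else exp (-(2 * ((k : ℝ) - j)))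

private theorem kap_nonneg (j k : ℕ) : 0 ≤ kap j k := by
  unfold kap
  split_ifs <;> positivity

/-- the geometric kernel -/
private noncomputable def hh (j k : ℕ) : ℝ := (1 / 2 : ℝ) ^ ((j - k) + (k - j))

private theorem hh_comm (j k : ℕ) : hh j k = hh k j := by
  unfold hh
  rw [add_comm]

private theorem hh_nonneg (j k : ℕ) : 0 ≤ hh j k := by
  unfold hh
  positivity

private theorem exp_half (m : ℕ) {c : ℝ} (hc : 3 / 4 * (m : ℝ) ≤ c) : exp (-c) ≤ (1 / 2 : ℝ) ^ m := by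
  have h1 : (2 : ℝ) ≤ exp (3 / 4) := by
    have := Real.quadratic_le_exp_of_nonneg (x := 3 / 4) (by norm_num)
    linarith
  have h2 : exp (-(3 / 4 : ℝ)) ≤ 1 / 2 := by
    rw [exp_neg, inv_eq_one_div]
    exact one_div_le_one_div_of_le (by norm_num) h1
  calc exp (-c) ≤ exp (-(3 / 4 * (m : ℝ))) := exp_le_exp.2 (by linarith)
    _ = exp (-(3 / 4 : ℝ)) ^ m := by
        rw [← exp_nat_mul]
        congr 1
        ring
    _ ≤ (1 / 2 : ℝ) ^ m := pow_le_pow_left₀ (exp_pos _).le h2 m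

private theorem geo (n : ℕ) : ∑ m ∈ range n, (1 / 2 : ℝ) ^ m ≤ 2 := by
  have h : ∑ m ∈ range n, (1 / 2 : ℝ) ^ m = 2 - 2 * (1 / 2) ^ n := by
    induction n with
    | zero => simp
    | succ n ih =>
      rw [sum_range_succ, ih, pow_succ]
      ring
  rw [h]
  have : (0 : ℝ) ≤ (1 / 2) ^ n := by positivity
  linarith

private theorem sum_hh (j J : ℕ) : ∑ k ∈ range J, hh j k ≤ 3 := by
  have h1 : ∑ k ∈ range J with k ≤ j, hh j k ≤ 2 := by
    calc ∑ k ∈ range J with k ≤ j, hh j k ≤ ∑ k ∈ range (j + 1), hh j k := by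
          refine sum_le_sum_of_subset_of_nonneg ?_ fun _ _ _ => hh_nonneg _ _
          intro k hk
          simp only [mem_filter, mem_range] at hk ⊢
          omega
      _ = ∑ k ∈ range (j + 1), (1 / 2 : ℝ) ^ (j + 1 - 1 - k) := by
          refine sum_congr rfl fun k hk => ?_
          rw [mem_range] at hk
          unfold hh
          congr 1
          omega
      _ = ∑ k ∈ range (j + 1), (1 / 2 : ℝ) ^ k := sum_range_reflect (fun m => (1 / 2 : ℝ) ^ m) (j + 1)
      _ ≤ 2 := geo _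
  have h2 : ∑ k ∈ range J with ¬ k ≤ j, hh j k ≤ 1 := by
    calc ∑ k ∈ range J with ¬ k ≤ j, hh j k ≤ ∑ k ∈ Ico (j + 1) J, hh j k := by
          refine sum_le_sum_of_subset_of_nonneg ?_ fun _ _ _ => hh_nonneg _ _
          intro k hk
          simp only [mem_filter, mem_range, mem_Ico] at hk ⊢
          omega
      _ = ∑ m ∈ range (J - (j + 1)), hh j (j + 1 + m) := sum_Ico_eq_sum_range _ _ _
      _ = ∑ m ∈ range (J - (j + 1)), 1 / 2 * (1 / 2 : ℝ) ^ m := by
          refine sum_congr rfl fun m _ => ?_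
          unfold hh
          rw [← pow_succ']
          congr 1
          omega
      _ = 1 / 2 * ∑ m ∈ range (J - (j + 1)), (1 / 2 : ℝ) ^ m := by rw [mul_sum]
      _ ≤ 1 := by
          have := geo (J - (j + 1))
          linarith
  have h3 := sum_filter_add_sum_filter_not (range J) (fun k => k ≤ j) (fun k => hh j k)
  linarith

private theorem kap_mul {j k i : ℕ} (hi : i ∈ Ico (min j k) (max j k)) : kap j k = kap j i * kap i k := by
  rw [mem_Ico] at hi
  unfold kap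
  by_cases h : k ≤ j
  · have h1 : k ≤ i := by omega
    have h2 : i ≤ j := by omega
    rw [if_pos h, if_pos h2, if_pos h1, ← exp_add]
    congr 1
    ring
  · have h1 : ¬ k ≤ i := by omega
    rw [if_neg h, if_neg h1]
    by_cases h2 : i ≤ j
    · have h3 : i = j := by omega
      subst h3
      simp
    · rw [if_neg h2, ← exp_add]
      congr 1
      ring

private theorem kap_up {C0 : ℝ} {A : ℕ → ℝ} {J : ℕ} (hA0 : ∀ j ≤ J, 0 < A j)
    (hA : ∀ j k, j ≤ k → k ≤ J → A j ≤ C0 * A k ∧ A k ≤ C0 * exp (5 / 4 * ((k : ℝ) - j)) * A j)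
    {j k : ℕ} (hj : j ≤ J) (hk : k ≤ J) : kap j k * A k ≤ C0 * A j * hh j k := by
  have hAj := hA0 j hj
  have hAk := hA0 k hk
  unfold kap hh
  by_cases h : k ≤ j
  · rw [if_pos h]
    have h1 := (hA k j h hj).1
    have h2 : exp (-((j : ℝ) - k)) ≤ (1 / 2 : ℝ) ^ ((j - k) + (k - j)) := by
      apply exp_half
      have : (((j - k) + (k - j) : ℕ) : ℝ) = (j : ℝ) - k := by
        rw [Nat.sub_eq_zero_of_le h, add_zero, Nat.cast_sub h]
      rw [this]
      have h3 : (k : ℝ) ≤ j := by exact_mod_cast h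
      linarith
    calc exp (-((j : ℝ) - k)) * A k ≤ (1 / 2 : ℝ) ^ ((j - k) + (k - j)) * (C0 * A j) :=
          mul_le_mul h2 h1 hAk.le (by positivity)
      _ = _ := by ring
  · rw [if_neg h]
    push Not at h
    have h1 := (hA j k h.le hk).2
    have hC : 0 ≤ C0 * A j := by
      have := (hA j j le_rfl hj).1
      linarith
    have h2 : exp (-(3 / 4 * ((k : ℝ) - j))) ≤ (1 / 2 : ℝ) ^ ((j - k) + (k - j)) := by
      apply exp_half
      have : (((j - k) + (k - j) : ℕ) : ℝ) = (k : ℝ) - j := by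
        rw [Nat.sub_eq_zero_of_le h.le, zero_add, Nat.cast_sub h.le]
      rw [this]
    calc exp (-(2 * ((k : ℝ) - j))) * A k
        ≤ exp (-(2 * ((k : ℝ) - j))) * (C0 * exp (5 / 4 * ((k : ℝ) - j)) * A j) :=
          mul_le_mul_of_nonneg_left h1 (exp_pos _).le
      _ = C0 * A j * (exp (-(2 * ((k : ℝ) - j))) * exp (5 / 4 * ((k : ℝ) - j))) := by ring
      _ = C0 * A j * exp (-(3 / 4 * ((k : ℝ) - j))) := by
          rw [← exp_add]
          congr 2
          ring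
      _ ≤ _ := mul_le_mul_of_nonneg_left h2 hC

private theorem kap_dn {C0 : ℝ} {w : ℕ → ℝ} {J : ℕ} (hw0 : ∀ j ≤ J, 0 < w j)
    (hw : ∀ j k, j ≤ k → k ≤ J → w k ≤ C0 * w j ∧ w j ≤ C0 * exp (5 / 4 * ((k : ℝ) - j)) * w k)
    {j k : ℕ} (hj : j ≤ J) (hk : k ≤ J) : w j * kap j k ≤ C0 * w k * hh j k := by
  have hwj := hw0 j hj
  have hwk := hw0 k hk
  unfold kap hh
  by_cases h : k ≤ j
  · rw [if_pos h]
    have h1 := (hw k j h hj).1
    have h2 : exp (-((j : ℝ) - k)) ≤ (1 / 2 : ℝ) ^ ((j - k) + (k - j)) := by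
      apply exp_half
      have : (((j - k) + (k - j) : ℕ) : ℝ) = (j : ℝ) - k := by
        rw [Nat.sub_eq_zero_of_le h, add_zero, Nat.cast_sub h]
      rw [this]
      have h3 : (k : ℝ) ≤ j := by exact_mod_cast h
      linarith
    exact mul_le_mul h1 h2 (exp_pos _).le (by linarith)
  · rw [if_neg h]
    push Not at h
    have h1 := (hw j k h.le hk).2
    have hC : 0 ≤ C0 * w k := by
      have := (hw k k le_rfl hk).1
      linarith
    have h2 : exp (-(3 / 4 * ((k : ℝ) - j))) ≤ (1 / 2 : ℝ) ^ ((j - k) + (k - j)) := by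
      apply exp_half
      have : (((j - k) + (k - j) : ℕ) : ℝ) = (k : ℝ) - j := by
        rw [Nat.sub_eq_zero_of_le h.le, zero_add, Nat.cast_sub h.le]
      rw [this]
    calc w j * exp (-(2 * ((k : ℝ) - j)))
        ≤ (C0 * exp (5 / 4 * ((k : ℝ) - j)) * w k) * exp (-(2 * ((k : ℝ) - j))) :=
          mul_le_mul_of_nonneg_right h1 (exp_pos _).le
      _ = C0 * w k * (exp (-(2 * ((k : ℝ) - j))) * exp (5 / 4 * ((k : ℝ) - j))) := by ring
      _ = C0 * w k * exp (-(3 / 4 * ((k : ℝ) - j))) := by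
          rw [← exp_add]
          congr 2
          ring
      _ ≤ _ := mul_le_mul_of_nonneg_left h2 hC

private theorem endterm {C0 : ℝ} (hC0 : 1 ≤ C0) {A w : ℕ → ℝ} {J : ℕ} (hA0 : ∀ j ≤ J, 0 < A j)
    (hw0 : ∀ j ≤ J, 0 < w j)
    (hA : ∀ j k, j ≤ k → k ≤ J → A j ≤ C0 * A k ∧ A k ≤ C0 * exp (5 / 4 * ((k : ℝ) - j)) * A j)
    (hw : ∀ j k, j ≤ k → k ≤ J → w k ≤ C0 * w j ∧ w j ≤ C0 * exp (5 / 4 * ((k : ℝ) - j)) * w k)
    {j : ℕ} (hj : j ≤ J) :
    w j * ((exp (-(j : ℝ)) * A 0 + exp (-(2 * ((J : ℝ) - j))) * A J) ^ 2 / A j)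
      ≤ 2 * C0 ^ 2 * (w 0 * A 0 * hh 0 j + w J * A J * hh J j) := by
  have hAj := hA0 j hj
  have hA00 := hA0 0 (Nat.zero_le _)
  have hAJ := hA0 J le_rfl
  have hwj := hw0 j hj
  have hw00 := hw0 0 (Nat.zero_le _)
  have hwJ := hw0 J le_rfl
  set u := exp (-(j : ℝ)) * A 0 with hu
  set v := exp (-(2 * ((J : ℝ) - j))) * A J with hv
  have hjJ : (j : ℝ) ≤ J := by exact_mod_cast hj
  have h1 : w j * (u ^ 2 / A j) ≤ C0 ^ 2 * (w 0 * A 0 * hh 0 j) := by
    have a1 : w j ≤ C0 * w 0 := (hw 0 j (Nat.zero_le _) hj).1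
    have a2 : A 0 ≤ C0 * A j := (hA 0 j (Nat.zero_le _) hj).1
    have a3 : u ^ 2 / A j ≤ C0 * A 0 * hh 0 j := by
      rw [div_le_iff₀ hAj, hu, mul_pow, sq (A 0)]
      have a4 : exp (-(j : ℝ)) ^ 2 ≤ hh 0 j := by
        rw [← exp_nat_mul]
        unfold hh
        have : ((2 : ℕ) : ℝ) * -(j : ℝ) = -(2 * (j : ℝ)) := by push_cast; ring
        rw [this]
        apply exp_half
        have : (((0 - j) + (j - 0) : ℕ) : ℝ) = (j : ℝ) := by simp
        rw [this]
        have : (0 : ℝ) ≤ j := Nat.cast_nonneg _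
        linarith
      calc exp (-(j : ℝ)) ^ 2 * (A 0 * A 0) ≤ hh 0 j * (A 0 * (C0 * A j)) :=
            mul_le_mul a4 (mul_le_mul_of_nonneg_left a2 hA00.le) (by positivity) (hh_nonneg _ _)
        _ = _ := by ring
    calc w j * (u ^ 2 / A j) ≤ (C0 * w 0) * (C0 * A 0 * hh 0 j) :=
          mul_le_mul a1 a3 (by positivity) (by positivity)
      _ = _ := by ring
  have h2 : w j * (v ^ 2 / A j) ≤ C0 ^ 2 * (w J * A J * hh J j) := by
    have a1 : w j ≤ C0 * exp (5 / 4 * ((J : ℝ) - j)) * w J := (hw j J hj le_rfl).2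
    have a2 : A J ≤ C0 * exp (5 / 4 * ((J : ℝ) - j)) * A j := (hA j J hj le_rfl).2
    have a3 : v ^ 2 / A j ≤ exp (-(2 * ((J : ℝ) - j))) ^ 2 * (C0 * exp (5 / 4 * ((J : ℝ) - j)) * A J) := by
      rw [div_le_iff₀ hAj, hv, mul_pow, sq (A J)]
      calc exp (-(2 * ((J : ℝ) - j))) ^ 2 * (A J * A J)
          ≤ exp (-(2 * ((J : ℝ) - j))) ^ 2 * (A J * (C0 * exp (5 / 4 * ((J : ℝ) - j)) * A j)) :=
            mul_le_mul_of_nonneg_left (mul_le_mul_of_nonneg_left a2 hAJ.le) (by positivity)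
        _ = _ := by ring
    have a5 : exp (5 / 4 * ((J : ℝ) - j)) * (exp (-(2 * ((J : ℝ) - j))) ^ 2 * exp (5 / 4 * ((J : ℝ) - j)))
        ≤ hh J j := by
      rw [← exp_nat_mul, ← exp_add, ← exp_add]
      unfold hh
      have : 5 / 4 * ((J : ℝ) - j) + (((2 : ℕ) : ℝ) * -(2 * ((J : ℝ) - j)) + 5 / 4 * ((J : ℝ) - j))
          = -(3 / 2 * ((J : ℝ) - j)) := by push_cast; ring
      rw [this]
      apply exp_half
      have : (((J - j) + (j - J) : ℕ) : ℝ) = (J : ℝ) - j := by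
        rw [Nat.sub_eq_zero_of_le hj, add_zero, Nat.cast_sub hj]
      rw [this]
      linarith
    calc w j * (v ^ 2 / A j)
        ≤ (C0 * exp (5 / 4 * ((J : ℝ) - j)) * w J) *
          (exp (-(2 * ((J : ℝ) - j))) ^ 2 * (C0 * exp (5 / 4 * ((J : ℝ) - j)) * A J)) :=
          mul_le_mul a1 a3 (by positivity) (by positivity)
      _ = C0 ^ 2 * (w J * A J) * (exp (5 / 4 * ((J : ℝ) - j)) *
          (exp (-(2 * ((J : ℝ) - j))) ^ 2 * exp (5 / 4 * ((J : ℝ) - j)))) := by ring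
      _ ≤ C0 ^ 2 * (w J * A J) * hh J j := mul_le_mul_of_nonneg_left a5 (by positivity)
      _ = _ := by ring
  have h3 : (u + v) ^ 2 / A j ≤ 2 * (u ^ 2 / A j) + 2 * (v ^ 2 / A j) := by
    rw [← mul_div_assoc, ← mul_div_assoc, ← add_div]
    apply div_le_div_of_nonneg_right _ hAj.le
    nlinarith [sq_nonneg (u - v)]
  calc w j * ((u + v) ^ 2 / A j) ≤ w j * (2 * (u ^ 2 / A j) + 2 * (v ^ 2 / A j)) :=
        mul_le_mul_of_nonneg_left h3 hwj.le
    _ = 2 * (w j * (u ^ 2 / A j)) + 2 * (w j * (v ^ 2 / A j)) := by ring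
    _ ≤ _ := by linarith

theorem disc {C0 : ℝ} (hC0 : 1 ≤ C0) : ∃ C : ℝ, 1 ≤ C ∧ ∀ (θ : ℝ) (J : ℕ) (A w X Y Q N r : ℕ → ℝ), 0 < θ → θ ≤ 1 →
    (∀ j ≤ J, 0 < A j) → (∀ j ≤ J, 0 < w j) →
    (∀ j k, j ≤ k → k ≤ J → A j ≤ C0 * A k ∧ A k ≤ C0 * exp (5 / 4 * ((k : ℝ) - j)) * A j) →
    (∀ j k, j ≤ k → k ≤ J → w k ≤ C0 * w j ∧ w j ≤ C0 * exp (5 / 4 * ((k : ℝ) - j)) * w k) →
    (∀ k < J, 0 ≤ N k ∧ N k ≤ θ * A k ∧ 0 ≤ Y k ∧ 0 ≤ Q k ∧ Y k ^ 2 ≤ N k * Q k ∧ 0 ≤ r k ∧ r k ≤ C0 * Y k / A k) →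
    (∀ j ≤ J, 0 ≤ X j ∧ X j ≤ C0 * (∑ k ∈ range J, kap j k * (Y k + N k * ∑ i ∈ Ico (min j k) (max j k), r i))
      + C0 * θ * (exp (-(j : ℝ)) * A 0 + exp (-(2 * ((J : ℝ) - j))) * A J)) →
    ∑ j ∈ range (J + 1), w j * (X j ^ 2 / A j) ≤ C * θ * ((∑ k ∈ range J, w k * Q k) + w 0 * A 0 + w J * A J) := by
  have hC08 : 1 ≤ C0 ^ 8 := one_le_pow₀ hC0
  refine ⟨288 * C0 ^ 8, by linarith, ?_⟩
  intro θ J A w X Y Q N r hθ hθ1 hA0 hw0 hA hw hN hX
  have hC0' : 0 < C0 := by linarith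
  -- the mass of the kernel
  have hKN : ∀ i ≤ J, ∑ k ∈ range J, kap i k * N k ≤ 3 * C0 * θ * A i := by
    intro i hi
    have hAi := hA0 i hi
    calc ∑ k ∈ range J, kap i k * N k ≤ ∑ k ∈ range J, θ * (C0 * A i * hh i k) := by
          refine sum_le_sum fun k hk => ?_
          rw [mem_range] at hk
          have h1 := (hN k hk).2.1
          have h2 := kap_up hA0 hA hi hk.le
          calc kap i k * N k ≤ kap i k * (θ * A k) := mul_le_mul_of_nonneg_left h1 (kap_nonneg _ _)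
            _ = θ * (kap i k * A k) := by ring
            _ ≤ _ := mul_le_mul_of_nonneg_left h2 hθ.le
      _ = θ * (C0 * A i) * ∑ k ∈ range J, hh i k := by
          rw [mul_sum]
          exact sum_congr rfl fun k _ => by ring
      _ ≤ θ * (C0 * A i) * 3 := mul_le_mul_of_nonneg_left (sum_hh _ _) (by positivity)
      _ = _ := by ring
  set T : ℕ → ℝ := fun j => ∑ k ∈ range J, kap j k * Y k with hT
  have hT0 : ∀ j, 0 ≤ T j := fun j => sum_nonneg fun k hk =>
    mul_nonneg (kap_nonneg _ _) (hN k (mem_range.1 hk)).2.2.1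
  -- (1)
  have hrot : ∀ j ≤ J, ∑ k ∈ range J, kap j k * (N k * ∑ i ∈ Ico (min j k) (max j k), r i)
      ≤ 3 * C0 ^ 2 * θ * T j := by
    intro j hj
    calc ∑ k ∈ range J, kap j k * (N k * ∑ i ∈ Ico (min j k) (max j k), r i)
        = ∑ k ∈ range J, ∑ i ∈ Ico (min j k) (max j k), kap j i * r i * (kap i k * N k) := by
          refine sum_congr rfl fun k _ => ?_
          rw [mul_sum, mul_sum]
          refine sum_congr rfl fun i hi => ?_
          rw [kap_mul hi]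
          ring
      _ ≤ ∑ k ∈ range J, ∑ i ∈ range J, kap j i * r i * (kap i k * N k) := by
          refine sum_le_sum fun k hk => sum_le_sum_of_subset_of_nonneg ?_ ?_
          · intro i hi
            rw [mem_Ico] at hi
            rw [mem_range] at hk ⊢
            omega
          · intro i hi _
            rw [mem_range] at hk hi
            exact mul_nonneg (mul_nonneg (kap_nonneg _ _) (hN i hi).2.2.2.2.2.1)
              (mul_nonneg (kap_nonneg _ _) (hN k hk).1)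
      _ = ∑ i ∈ range J, kap j i * r i * ∑ k ∈ range J, kap i k * N k := by
          rw [sum_comm]
          exact sum_congr rfl fun i _ => by rw [mul_sum]
      _ ≤ ∑ i ∈ range J, 3 * C0 ^ 2 * θ * (kap j i * Y i) := by
          refine sum_le_sum fun i hi => ?_
          rw [mem_range] at hi
          have hAi := hA0 i hi.le
          have h1 := hKN i hi.le
          obtain ⟨_, _, hY, _, _, hr, hr2⟩ := hN i hi
          have h2 : r i * A i ≤ C0 * Y i := by
            rwa [le_div_iff₀ hAi] at hr2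
          calc kap j i * r i * ∑ k ∈ range J, kap i k * N k ≤ kap j i * r i * (3 * C0 * θ * A i) :=
                mul_le_mul_of_nonneg_left h1 (mul_nonneg (kap_nonneg _ _) hr)
            _ = (3 * C0 * θ * kap j i) * (r i * A i) := by ring
            _ ≤ (3 * C0 * θ * kap j i) * (C0 * Y i) := mul_le_mul_of_nonneg_left h2
                (mul_nonneg (by positivity) (kap_nonneg _ _))
            _ = _ := by ring
      _ = _ := by rw [hT, mul_sum]
  set E : ℕ → ℝ := fun j => exp (-(j : ℝ)) * A 0 + exp (-(2 * ((J : ℝ) - j))) * A J with hE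
  have hX2 : ∀ j ≤ J, X j ≤ 4 * C0 ^ 3 * T j + C0 * θ * E j := by
    intro j hj
    have h1 := (hX j hj).2
    have h2 : ∑ k ∈ range J, kap j k * (Y k + N k * ∑ i ∈ Ico (min j k) (max j k), r i)
        = T j + ∑ k ∈ range J, kap j k * (N k * ∑ i ∈ Ico (min j k) (max j k), r i) := by
      rw [hT, ← sum_add_distrib]
      exact sum_congr rfl fun k _ => by ring
    rw [h2] at h1
    have h3 := hrot j hj
    have h4 : 3 * C0 ^ 2 * θ * T j ≤ 3 * C0 ^ 2 * T j := by
      have : 3 * C0 ^ 2 * T j * θ ≤ 3 * C0 ^ 2 * T j * 1 :=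
        mul_le_mul_of_nonneg_left hθ1 (mul_nonneg (by positivity) (hT0 j))
      linarith
    have h5 : T j ≤ C0 ^ 2 * T j := by
      have : 1 ≤ C0 ^ 2 := one_le_pow₀ hC0
      have := mul_le_mul_of_nonneg_right this (hT0 j)
      linarith
    have h6 : C0 * (T j + ∑ k ∈ range J, kap j k * (N k * ∑ i ∈ Ico (min j k) (max j k), r i))
        ≤ C0 * (4 * C0 ^ 2 * T j) := mul_le_mul_of_nonneg_left (by linarith) hC0'.le
    calc X j ≤ _ := h1
      _ ≤ C0 * (4 * C0 ^ 2 * T j) + C0 * θ * E j := by linarith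
      _ = _ := by ring
  -- (2)
  have hCS : ∀ j ≤ J, T j ^ 2 / A j ≤ 3 * C0 * θ * ∑ k ∈ range J, kap j k * Q k := by
    intro j hj
    have hAj := hA0 j hj
    have hQ0 : 0 ≤ ∑ k ∈ range J, kap j k * Q k := sum_nonneg fun k hk =>
      mul_nonneg (kap_nonneg _ _) (hN k (mem_range.1 hk)).2.2.2.1
    rw [div_le_iff₀ hAj]
    have h1 : T j ^ 2 ≤ (∑ k ∈ range J, kap j k * N k) * ∑ k ∈ range J, kap j k * Q k := by
      have h2 : T j ≤ ∑ k ∈ range J, √(kap j k * N k) * √(kap j k * Q k) := by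
        refine sum_le_sum fun k hk => ?_
        rw [mem_range] at hk
        obtain ⟨a1, _, a3, a4, a5, _, _⟩ := hN k hk
        rw [← Real.sqrt_mul (mul_nonneg (kap_nonneg _ _) a1)]
        apply Real.le_sqrt_of_sq_le
        calc (kap j k * Y k) ^ 2 = kap j k ^ 2 * Y k ^ 2 := by ring
          _ ≤ kap j k ^ 2 * (N k * Q k) := mul_le_mul_of_nonneg_left a5 (sq_nonneg _)
          _ = _ := by ring
      have h3 : (∑ k ∈ range J, √(kap j k * N k) * √(kap j k * Q k)) ^ 2 ≤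
          (∑ k ∈ range J, √(kap j k * N k) ^ 2) * ∑ k ∈ range J, √(kap j k * Q k) ^ 2 :=
        sum_mul_sq_le_sq_mul_sq _ _ _
      have h4 : ∑ k ∈ range J, √(kap j k * N k) ^ 2 = ∑ k ∈ range J, kap j k * N k :=
        sum_congr rfl fun k hk => Real.sq_sqrt (mul_nonneg (kap_nonneg _ _) (hN k (mem_range.1 hk)).1)
      have h5 : ∑ k ∈ range J, √(kap j k * Q k) ^ 2 = ∑ k ∈ range J, kap j k * Q k :=
        sum_congr rfl fun k hk =>
          Real.sq_sqrt (mul_nonneg (kap_nonneg _ _) (hN k (mem_range.1 hk)).2.2.2.1)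
      rw [h4, h5] at h3
      exact (pow_le_pow_left₀ (hT0 j) h2 2).trans h3
    calc T j ^ 2 ≤ _ := h1
      _ ≤ (3 * C0 * θ * A j) * ∑ k ∈ range J, kap j k * Q k :=
          mul_le_mul_of_nonneg_right (hKN j hj) hQ0
      _ = _ := by ring
  -- (3)
  have hsum1 : ∑ j ∈ range (J + 1), w j * (T j ^ 2 / A j) ≤
      9 * C0 ^ 2 * θ * ∑ k ∈ range J, w k * Q k := by
    calc ∑ j ∈ range (J + 1), w j * (T j ^ 2 / A j)
        ≤ ∑ j ∈ range (J + 1), ∑ k ∈ range J, 3 * C0 * θ * Q k * (C0 * w k * hh k j) := by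
          refine sum_le_sum fun j hj => ?_
          rw [mem_range] at hj
          have hj' : j ≤ J := by omega
          calc w j * (T j ^ 2 / A j) ≤ w j * (3 * C0 * θ * ∑ k ∈ range J, kap j k * Q k) :=
                mul_le_mul_of_nonneg_left (hCS j hj') (hw0 j hj').le
            _ = ∑ k ∈ range J, 3 * C0 * θ * Q k * (w j * kap j k) := by
                rw [mul_sum, mul_sum]
                exact sum_congr rfl fun k _ => by ring
            _ ≤ _ := by
                refine sum_le_sum fun k hk => ?_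
                rw [mem_range] at hk
                have h1 := kap_dn hw0 hw hj' hk.le
                rw [hh_comm] at h1
                exact mul_le_mul_of_nonneg_left h1 (mul_nonneg (by positivity) (hN k hk).2.2.2.1)
      _ = ∑ k ∈ range J, 3 * C0 ^ 2 * θ * (w k * Q k) * ∑ j ∈ range (J + 1), hh k j := by
          rw [sum_comm]
          refine sum_congr rfl fun k _ => ?_
          rw [mul_sum]
          exact sum_congr rfl fun j _ => by ring
      _ ≤ ∑ k ∈ range J, 3 * C0 ^ 2 * θ * (w k * Q k) * 3 := by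
          refine sum_le_sum fun k hk => ?_
          rw [mem_range] at hk
          exact mul_le_mul_of_nonneg_left (sum_hh _ _)
            (mul_nonneg (by positivity) (mul_nonneg (hw0 k hk.le).le (hN k hk).2.2.2.1))
      _ = _ := by
          rw [mul_sum]
          exact sum_congr rfl fun k _ => by ring
  -- (4)
  have hwA0 : 0 ≤ w 0 * A 0 := (mul_pos (hw0 0 (Nat.zero_le _)) (hA0 0 (Nat.zero_le _))).le
  have hwAJ : 0 ≤ w J * A J := (mul_pos (hw0 J le_rfl) (hA0 J le_rfl)).le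
  have hsum2 : ∑ j ∈ range (J + 1), w j * (E j ^ 2 / A j) ≤
      6 * C0 ^ 2 * (w 0 * A 0 + w J * A J) := by
    calc ∑ j ∈ range (J + 1), w j * (E j ^ 2 / A j)
        ≤ ∑ j ∈ range (J + 1), 2 * C0 ^ 2 * (w 0 * A 0 * hh 0 j + w J * A J * hh J j) := by
          refine sum_le_sum fun j hj => ?_
          rw [mem_range] at hj
          exact endterm hC0 hA0 hw0 hA hw (by omega)
      _ = 2 * C0 ^ 2 * (w 0 * A 0 * ∑ j ∈ range (J + 1), hh 0 j +
            w J * A J * ∑ j ∈ range (J + 1), hh J j) := by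
          rw [← mul_sum, sum_add_distrib, mul_sum, mul_sum]
      _ ≤ 2 * C0 ^ 2 * (w 0 * A 0 * 3 + w J * A J * 3) := by
          refine mul_le_mul_of_nonneg_left ?_ (by positivity)
          exact add_le_add (mul_le_mul_of_nonneg_left (sum_hh _ _) hwA0)
            (mul_le_mul_of_nonneg_left (sum_hh _ _) hwAJ)
      _ = _ := by ring
  have hsumQ : 0 ≤ ∑ k ∈ range J, w k * Q k := sum_nonneg fun k hk =>
    mul_nonneg (hw0 k (mem_range.1 hk).le).le (hN k (mem_range.1 hk)).2.2.2.1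
  calc ∑ j ∈ range (J + 1), w j * (X j ^ 2 / A j)
      ≤ ∑ j ∈ range (J + 1), (32 * C0 ^ 6 * (w j * (T j ^ 2 / A j)) +
          2 * C0 ^ 2 * θ ^ 2 * (w j * (E j ^ 2 / A j))) := by
        refine sum_le_sum fun j hj => ?_
        rw [mem_range] at hj
        have hj' : j ≤ J := by omega
        have hAj := hA0 j hj'
        have h1 := hX2 j hj'
        have h2 : X j ^ 2 ≤ 32 * C0 ^ 6 * T j ^ 2 + 2 * C0 ^ 2 * θ ^ 2 * E j ^ 2 := by
          have h3 := pow_le_pow_left₀ (hX j hj').1 h1 2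
          have h4 := sq_nonneg (4 * C0 ^ 3 * T j - C0 * θ * E j)
          nlinarith [h3, h4]
        have h5 : X j ^ 2 / A j ≤ 32 * C0 ^ 6 * (T j ^ 2 / A j) +
            2 * C0 ^ 2 * θ ^ 2 * (E j ^ 2 / A j) := by
          rw [← mul_div_assoc, ← mul_div_assoc, ← add_div]
          exact div_le_div_of_nonneg_right h2 hAj.le
        calc w j * (X j ^ 2 / A j) ≤ w j * (32 * C0 ^ 6 * (T j ^ 2 / A j) +
              2 * C0 ^ 2 * θ ^ 2 * (E j ^ 2 / A j)) := mul_le_mul_of_nonneg_left h5 (hw0 j hj').le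
          _ = _ := by ring
    _ = 32 * C0 ^ 6 * (∑ j ∈ range (J + 1), w j * (T j ^ 2 / A j)) +
          2 * C0 ^ 2 * θ ^ 2 * ∑ j ∈ range (J + 1), w j * (E j ^ 2 / A j) := by
        rw [sum_add_distrib, mul_sum, mul_sum]
    _ ≤ 32 * C0 ^ 6 * (9 * C0 ^ 2 * θ * ∑ k ∈ range J, w k * Q k) +
          2 * C0 ^ 2 * θ ^ 2 * (6 * C0 ^ 2 * (w 0 * A 0 + w J * A J)) :=
        add_le_add (mul_le_mul_of_nonneg_left hsum1 (by positivity))
          (mul_le_mul_of_nonneg_left hsum2 (by positivity))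
    _ ≤ 288 * C0 ^ 8 * θ * (∑ k ∈ range J, w k * Q k) +
          288 * C0 ^ 8 * θ * (w 0 * A 0 + w J * A J) := by
        have h1 : 32 * C0 ^ 6 * (9 * C0 ^ 2 * θ * ∑ k ∈ range J, w k * Q k) =
            288 * C0 ^ 8 * θ * ∑ k ∈ range J, w k * Q k := by ring
        have h2 : 2 * C0 ^ 2 * θ ^ 2 * (6 * C0 ^ 2 * (w 0 * A 0 + w J * A J)) ≤
            288 * C0 ^ 8 * θ * (w 0 * A 0 + w J * A J) := by
          have a1 : C0 ^ 4 ≤ C0 ^ 8 := pow_le_pow_right₀ hC0 (by norm_num)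
          have a2 : θ ^ 2 ≤ θ := by nlinarith
          have a3 : 12 * C0 ^ 4 * θ ^ 2 ≤ 288 * C0 ^ 8 * θ := by
            calc 12 * C0 ^ 4 * θ ^ 2 ≤ 12 * C0 ^ 8 * θ :=
                  mul_le_mul (by linarith) a2 (by positivity) (by positivity)
              _ ≤ 288 * C0 ^ 8 * θ := by
                  have : 0 ≤ C0 ^ 8 * θ := by positivity
                  linarith
          calc _ = 12 * C0 ^ 4 * θ ^ 2 * (w 0 * A 0 + w J * A J) := by ring
            _ ≤ _ := mul_le_mul_of_nonneg_right a3 (by linarith)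
        linarith
    _ = _ := by ring

end Pool.Agent.THX
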