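import Pool.Agent.THX.Core
import Pool.Agent.TX1.Norm
import Pool.Agent.MML.FinG

/-!
# THX, module Final: the lower bound for `D`

As `MML.final_gen` (FinG.lean) with `μ = 1`: if `D lam < -π lam/(1+|sin π lam|) = -2π/KK lam` there are `f` and a real `x` with `minRatio f < x < -2π/KK lam`, so for all large `s` there is `t` with
`‖f (pt s t)‖ ≤ exp (-(c' TM f s))`, `1/KK lam < c' < -x/(2π)` (`TM f s ≤ 2π nevT f (exp s) + π log 2`, `TM f → ∞`).  `grow_up`, `grow_low` give `Gr f lam`.  `norm_red` with `c'' ∈ (1/KK lam, c')`, `core`.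
For `1 ≤ lam ≤ 2`: `sin (π lam) ≤ 0`, so `1 - sin (π lam) = 1 + |sin (π lam)|`.
-/

set_option autoImplicit false
set_option linter.all false

namespace Pool.Agent.THX

open Real MeasureTheory Set Filter Topology
open Pool.Agent.TX1 (pt ell TM TN Fac HM Gr)

/-- the minimum modulus is attained -/
private theorem fin_minMod_mem {f : ℂ → ℂ} (hf : Differentiable ℂ f) {r : ℝ} (hr : 0 ≤ r) :
    ∃ z : ℂ, ‖z‖ = r ∧ ‖f z‖ = Pool.Agent.MML.minMod f r := by
  have hc : IsCompact ((fun z => ‖f z‖) '' Metric.sphere (0 : ℂ) r) :=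
    (isCompact_sphere (0 : ℂ) r).image hf.continuous.norm
  have hne : (Metric.sphere (0 : ℂ) r).Nonempty := NormedSpace.sphere_nonempty.mpr hr
  obtain ⟨z, hz, hz'⟩ := hc.sInf_mem (hne.image _)
  refine ⟨z, ?_, hz'⟩
  simpa using hz

/-- the sign of the ratio -/
private theorem fin_ratio_aux {m T x : ℝ} (hT : 0 < T)
    (h : ENNReal.log (ENNReal.ofReal m) / ((T : ℝ) : EReal) < (x : EReal)) :
    m ≤ exp (x * T) := by
  have hT' : (0 : EReal) < ((T : ℝ) : EReal) := by exact_mod_cast hT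
  rw [EReal.div_lt_iff hT' (EReal.coe_ne_top T), ← EReal.coe_mul, ENNReal.log_ofReal] at h
  by_cases hm : m ≤ 0
  · exact le_trans hm (exp_pos _).le
  · rw [if_neg hm] at h
    have h1 : log m < x * T := by exact_mod_cast h
    push Not at hm
    have h2 := (Real.log_lt_iff_lt_exp hm).mp h1
    exact h2.le

private theorem fin_KK {lam : ℝ} (h1 : 1 ≤ lam) (h2 : lam ≤ 2) :
    0 < KK lam ∧ -(π * lam) / (1 + |sin (π * lam)|) = -(2 * π / KK lam) := by
  have hpi := Real.pi_pos
  have hs : sin (π * lam) ≤ 0 := by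
    have h3 : sin (π * lam) = -sin (π * lam - π) := by
      rw [Real.sin_sub_pi, neg_neg]
    rw [h3]
    have h4 : 0 ≤ sin (π * lam - π) :=
      Real.sin_nonneg_of_nonneg_of_le_pi (by nlinarith) (by nlinarith)
    linarith
  have h0 : 0 < 1 - sin (π * lam) := by linarith
  have hl : 0 < lam := by linarith
  have hK : 0 < KK lam := by
    unfold KK
    positivity
  refine ⟨hK, ?_⟩
  rw [abs_of_nonpos hs]
  unfold KK
  rw [← sub_eq_add_neg]
  field_simp

theorem lower : ∃ ε0 : ℝ, 0 < ε0 ∧ ∀ lam : ℝ, 1 ≤ lam → lam ≤ 1 + ε0 →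
    ((-(π * lam) / (1 + |sin (π * lam)|) : ℝ) : EReal) ≤ Pool.Agent.MML.D lam := by
  obtain ⟨ε1, hε1, hcore⟩ := core
  refine ⟨min ε1 1, lt_min hε1 one_pos, fun lam h1 h2 => ?_⟩
  have h3 : lam ≤ 1 + ε1 := h2.trans (by linarith [min_le_left ε1 1])
  have h4 : lam ≤ 2 := h2.trans (by linarith [min_le_right ε1 1])
  have hl : 0 < lam := by linarith
  obtain ⟨hK, hval⟩ := fin_KK h1 h4
  rw [hval]
  unfold Pool.Agent.MML.D
  refine le_iInf fun f => le_iInf fun hf => le_iInf fun hne => le_iInf fun hlo => ?_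
  by_contra hcon
  rw [not_le] at hcon
  obtain ⟨x, hx1, hx2⟩ := EReal.lt_iff_exists_real_btwn.mp hcon
  have hx3 : x < -(2 * π / KK lam) := by exact_mod_cast hx2
  have hev : ∀ᶠ r : ℝ in atTop,
      ENNReal.log (ENNReal.ofReal (Pool.Agent.MML.minMod f r)) /
        ((Pool.Agent.MML.nevT f r : ℝ) : EReal) < (x : EReal) :=
    Filter.eventually_lt_of_limsup_lt hx1
  have hlo' : Pool.Agent.MML.lowerOrder f = ((lam * 1 : ℝ) : EReal) := by rw [hlo, mul_one]
  have hne0 : ∃ z, f z ≠ 0 := by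
    by_contra hcon
    push Not at hcon
    exact hne ⟨0, hcon⟩
  have hpi : 0 < π := Real.pi_pos
  have hM := Pool.Agent.MML.mN_tendsto hf hne one_pos hl hlo'
  have hKi : 0 < 1 / KK lam := by positivity
  set c2 : ℝ := -x / (2 * π) with hc2
  have hc2' : 1 / KK lam < c2 := by
    rw [hc2, lt_div_iff₀ (by positivity)]
    have h7 : 1 / KK lam * (2 * π) = 2 * π / KK lam := by ring
    linarith
  set c' : ℝ := (1 / KK lam + c2) / 2 with hc'
  have k1 : 1 / KK lam < c' := by rw [hc']; linarith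
  have k2 : c' < c2 := by rw [hc']; linarith
  set c'' : ℝ := (1 / KK lam + c') / 2 with hc''
  have k3 : 1 / KK lam < c'' := by rw [hc'']; linarith
  have k4 : c'' < c' := by rw [hc'']; linarith
  have hG : Gr f lam := by
    refine ⟨fun ρ' c hρ hc => ?_, fun ρ' C hρ => ?_⟩
    · exact Pool.Agent.MML.grow_up hf hne one_pos hl hlo' ρ' c hρ hc
    · exact Pool.Agent.MML.grow_low hf hne one_pos hl hlo' ρ' C hρ
  have htend : Tendsto (fun s : ℝ => exp (s / 1)) atTop atTop :=
    Real.tendsto_exp_atTop.comp (tendsto_id.atTop_div_const one_pos)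
  have hlog2 : 0 ≤ log 2 := Real.log_nonneg (by norm_num)
  have hH : ∀ᶠ s in atTop, ∃ t, ‖f (pt s t)‖ ≤ exp (-(c' * TM f s)) := by
    filter_upwards [htend.eventually hev,
      hM.eventually_ge_atTop ((c2 * (π * 1 * log 2)) / (c2 - c')),
      hM.eventually_gt_atTop (π * 1 * log 2)] with s hs hs1 hs2
    have hTM : TM f s = Pool.Agent.MML.mN (π * 1) (Pool.Agent.MML.Ue f 1 1) s := rfl
    rw [hTM]
    set M : ℝ := Pool.Agent.MML.mN (π * 1) (Pool.Agent.MML.Ue f 1 1) s with hMdef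
    have hT := Pool.Agent.MML.le_nevT hf one_pos s
    rw [← hMdef] at hT
    have hTpos : 0 < Pool.Agent.MML.nevT f (exp (s / 1)) := by
      by_contra hn
      push Not at hn
      have : 2 * π * 1 * Pool.Agent.MML.nevT f (exp (s / 1)) ≤ 0 :=
        mul_nonpos_of_nonneg_of_nonpos (by positivity) hn
      linarith
    have hm := fin_ratio_aux hTpos hs
    obtain ⟨z, hz1, hz2⟩ := fin_minMod_mem hf (exp_pos (s / 1)).le
    refine ⟨Complex.arg z, ?_⟩
    have hFe : pt s (Complex.arg z) = z := by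
      unfold pt
      have e1 : (s : ℂ) + ((Complex.arg z : ℝ) : ℂ) * Complex.I
          = ((s / 1 : ℝ) : ℂ) + (Complex.arg z : ℂ) * Complex.I := by
        rw [div_one]
      rw [e1, Complex.exp_add, ← Complex.ofReal_exp, ← hz1]
      exact Complex.norm_mul_exp_arg_mul_I z
    rw [hFe, hz2]
    refine le_trans hm (Real.exp_le_exp.mpr ?_)
    have hc2pos : 0 < c2 := by linarith
    have hxT : x * Pool.Agent.MML.nevT f (exp (s / 1)) =
        -(c2 * (2 * π * 1 * Pool.Agent.MML.nevT f (exp (s / 1)))) := by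
      rw [hc2]
      field_simp
    have hk : c2 * (π * 1 * log 2) ≤ M * (c2 - c') := by
      have := (div_le_iff₀ (by linarith : 0 < c2 - c')).mp hs1
      linarith
    have hk2 : c2 * (M - π * 1 * log 2) ≤
        c2 * (2 * π * 1 * Pool.Agent.MML.nevT f (exp (s / 1))) :=
      mul_le_mul_of_nonneg_left (by linarith) hc2pos.le
    rw [hxT]
    nlinarith
  obtain ⟨f1, hf1, hf10, hG1, hH1⟩ := Pool.Agent.TX1.norm_red hf hne0 hl hG
    (hKi.trans k3) k4 hH
  obtain ⟨s0, hs0⟩ := Filter.eventually_atTop.1 hH1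
  refine hcore f1 lam c'' s0 hf1 hf10 h1 h3 hG1 ?_ hs0
  have := mul_lt_mul_of_pos_right k3 hK
  rwa [one_div, inv_mul_cancel₀ hK.ne'] at this

end Pool.Agent.THX
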