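import Pool.Agent.THX.FrSum
import Pool.Agent.TX1.Rep
import Pool.Agent.TX1.Coef

/-!
# THX, module FrH: the far harmonic part

`rep`: `h z = ∑ c_k z^k`, `‖c_k‖ exp (kS) ≤ (2 TM f S + 9 n)/π ≤ C TM f S` (`fr_sum`).  `g ζ = h (ζ pt τ ψ)`: `g ζ - g'(0) ζ = ∑_{k≥2} c_k (ζ pt τ ψ)^k`, and for `‖ζ‖ ≤ exp 4`, `S - τ ≥ 5`:
`∑_{k≥2} exp (k (4 + τ - S)) ≤ C exp (-2 (S-τ))` (`coef_tail`); the derivatives for `‖ζ‖ ≤ exp 2` by the Cauchy estimates on discs of radius `1`.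
-/

set_option autoImplicit false
set_option linter.all false

namespace Pool.Agent.THX

open Real MeasureTheory Set Filter Topology
open Pool.Agent.TX1 (pt ell TM TN Fac HM Gr JJ)

private theorem frh_exp : exp 2 + 2 ≤ exp 4 ∧ exp 4 < exp 5 := by
  refine ⟨?_, Real.exp_lt_exp.2 (by norm_num)⟩
  have h1 := Real.exp_one_gt_d9
  have h2 : exp 2 = exp 1 * exp 1 := by rw [← Real.exp_add]; norm_num
  have h4 : exp 4 = exp 2 * exp 2 := by rw [← Real.exp_add]; norm_num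
  have h3 : 4 ≤ exp 2 := by rw [h2]; nlinarith
  rw [h4]
  nlinarith

private theorem frh_tail {h : ℂ → ℂ} {c : ℕ → ℂ} {S K : ℝ} (h0 : h 0 = 0)
    (hs : ∀ z : ℂ, ‖z‖ ≤ exp S → HasSum (fun k => c k * z ^ k) (h z)) (c0 : c 0 = 0)
    (hc : ∀ k : ℕ, 1 ≤ k → ‖c k‖ * exp (k * S) ≤ K) (hK : 0 ≤ K) {u : ℝ} (hu : u ≤ S - 1)
    {z : ℂ} (hz : ‖z‖ ≤ exp u) :
    ‖h z - c 1 * z‖ ≤ K * (8 / 5 * exp (2 * (u - S))) := by
  by_cases hz0 : z = 0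
  · subst hz0
    rw [h0, mul_zero, sub_zero, norm_zero]
    positivity
  · have hzp : 0 < ‖z‖ := norm_pos_iff.2 hz0
    have h1 : ‖z‖ = exp (log ‖z‖) := (Real.exp_log hzp).symm
    have h2 : log ‖z‖ ≤ u := by
      rw [Real.log_le_iff_le_exp hzp]
      exact hz
    have h3 := Pool.Agent.TX1.coef_tail (S := S) (u := log ‖z‖) (K := K)
      (hs z (hz.trans (Real.exp_le_exp.2 (by linarith)))) c0 hc h1 (by linarith) hK
    refine h3.trans ?_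
    have h4 : exp (2 * (log ‖z‖ - S)) ≤ exp (2 * (u - S)) := Real.exp_le_exp.2 (by linarith)
    gcongr

/-- Cauchy estimates for `E = g - g'(0) ζ` -/
private theorem frh_cauchy {g : ℂ → ℂ} {B : ℝ} (hg : DifferentiableOn ℂ g (Metric.ball 0 (exp 5)))
    (hB : ∀ ζ : ℂ, ‖ζ‖ ≤ exp 4 → ‖g ζ - deriv g 0 * ζ‖ ≤ B) (ζ : ℂ) (hζ : ‖ζ‖ ≤ exp 2) :
    ‖g ζ - deriv g 0 * ζ‖ ≤ B ∧ ‖deriv g ζ - deriv g 0‖ ≤ B ∧ ‖deriv (deriv g) ζ‖ ≤ B := by
  obtain ⟨e1, e2⟩ := frh_exp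
  have hopen : IsOpen (Metric.ball (0 : ℂ) (exp 5)) := Metric.isOpen_ball
  set a : ℂ := deriv g 0 with ha
  have hmem : ∀ ξ : ℂ, ‖ξ‖ ≤ exp 4 → ξ ∈ Metric.ball (0 : ℂ) (exp 5) := fun ξ hξ => by
    rw [mem_ball_zero_iff]; exact lt_of_le_of_lt hξ e2
  set E : ℂ → ℂ := fun ξ => g ξ - a * ξ with hE
  have hEd : DifferentiableOn ℂ E (Metric.ball 0 (exp 5)) :=
    hg.sub ((differentiable_id.const_mul a).differentiableOn)
  have hE' : ∀ ξ : ℂ, ξ ∈ Metric.ball (0 : ℂ) (exp 5) → deriv E ξ = deriv g ξ - a := by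
    intro ξ hξ
    have h1 : HasDerivAt g (deriv g ξ) ξ := (hg.differentiableAt (hopen.mem_nhds hξ)).hasDerivAt
    have h2 : HasDerivAt (fun ξ : ℂ => a * ξ) a ξ := by
      simpa using (hasDerivAt_id ξ).const_mul a
    exact (h1.sub h2).deriv
  have cauchy : ∀ (F : ℂ → ℂ), DifferentiableOn ℂ F (Metric.ball 0 (exp 5)) → ∀ ξ : ℂ,
      ‖ξ‖ + 1 ≤ exp 4 → (∀ η : ℂ, ‖η‖ ≤ ‖ξ‖ + 1 → ‖F η‖ ≤ B) → ‖deriv F ξ‖ ≤ B := by
    intro F hF ξ hξ hb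
    have h1 : DiffContOnCl ℂ F (Metric.ball ξ 1) := by
      apply DifferentiableOn.diffContOnCl
      refine hF.mono ?_
      intro η hη
      refine hmem η ?_
      have h2 : η ∈ Metric.closedBall ξ 1 := Metric.closure_ball_subset_closedBall hη
      rw [mem_closedBall_iff_norm] at h2
      have h3 : ‖η‖ ≤ ‖η - ξ‖ + ‖ξ‖ := by
        have := norm_add_le (η - ξ) ξ
        rwa [sub_add_cancel] at this
      linarith
    have h2 := Complex.norm_deriv_le_of_forall_mem_sphere_norm_le (c := ξ) (R := 1) (C := B)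
      one_pos h1 (by
        intro η hη
        refine hb η ?_
        rw [mem_sphere_iff_norm] at hη
        have h3 : ‖η‖ ≤ ‖η - ξ‖ + ‖ξ‖ := by
          have := norm_add_le (η - ξ) ξ
          rwa [sub_add_cancel] at this
        linarith)
    rwa [div_one] at h2
  have hE1 : ∀ ξ : ℂ, ‖ξ‖ + 1 ≤ exp 4 → ‖deriv E ξ‖ ≤ B := fun ξ hξ =>
    cauchy E hEd ξ hξ fun η hη => hB η (hη.trans hξ)
  have hE2 : ‖deriv (deriv E) ζ‖ ≤ B :=
    cauchy (deriv E) (hEd.deriv hopen) ζ (by linarith) fun η hη => hE1 η (by linarith)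
  have hζ4 : ζ ∈ Metric.ball (0 : ℂ) (exp 5) := hmem ζ (by linarith)
  refine ⟨hB ζ (by linarith), ?_, ?_⟩
  · rw [← hE' ζ hζ4]
    exact hE1 ζ (by linarith)
  · have h1 : deriv E =ᶠ[𝓝 ζ] fun ξ => deriv g ξ - a := by
      filter_upwards [hopen.mem_nhds hζ4] with ξ hξ
      exact hE' ξ hξ
    rw [h1.deriv_eq, deriv_sub_const] at hE2
    exact hE2

theorem fr_h : ∃ C : ℝ, 1 ≤ C ∧ ∀ (f : ℂ → ℂ) (R s1 S τ ψ : ℝ) (n : ℕ) (x y : Fin n → ℝ) (h : ℂ → ℂ), Differentiable ℂ f → f 0 = 1 →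
    80 ≤ R → JJ f R s1 → Fac f S n x y h → s1 ≤ τ → τ + 5 ≤ S →
    ∀ ζ : ℂ, ‖ζ‖ ≤ exp 2 →
      ‖h (ζ * pt τ ψ) - deriv (fun ζ : ℂ => h (ζ * pt τ ψ)) 0 * ζ‖ ≤ C * exp (-(2 * (S - τ))) * TM f S ∧
      ‖deriv (fun ζ : ℂ => h (ζ * pt τ ψ)) ζ - deriv (fun ζ : ℂ => h (ζ * pt τ ψ)) 0‖ ≤ C * exp (-(2 * (S - τ))) * TM f S ∧
      ‖deriv (deriv (fun ζ : ℂ => h (ζ * pt τ ψ))) ζ‖ ≤ C * exp (-(2 * (S - τ))) * TM f S := by
  obtain ⟨C1, hC1, hsum⟩ := fr_sum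
  have he8 : 1 ≤ exp (8 : ℝ) := Real.one_le_exp (by norm_num)
  refine ⟨(2 + 9 * C1) * (8 / 5 * exp 8), ?_, ?_⟩
  · nlinarith
  intro f R s1 S τ ψ n x y h hf hf0 hR hJ hF hs1 hτ ζ hζ
  have hn := (hsum f R s1 S τ n x y h hf hf0 hR hJ hF hs1 (by linarith)).2.2.2
  obtain ⟨c, hs, c0, c1, hc⟩ := Pool.Agent.TX1.rep hf hf0 hF
  have hTM := Pool.Agent.TX1.TM_nonneg f S
  set H : ℝ := (2 * TM f S + 9 * n) / π with hH
  have hn0 : (0 : ℝ) ≤ n := Nat.cast_nonneg n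
  have hpi := Real.pi_gt_three
  have hH0 : 0 ≤ H := by positivity
  have hHle : H ≤ (2 + 9 * C1) * TM f S := by
    have h1 : H ≤ 2 * TM f S + 9 * n := div_le_self (by positivity) (by linarith)
    nlinarith
  have hw : ‖pt τ ψ‖ = exp τ := Pool.Agent.TX1.pt_norm τ ψ
  set w : ℂ := pt τ ψ with hwd
  set g : ℂ → ℂ := fun ζ : ℂ => h (ζ * w) with hg
  obtain ⟨ρ, hρ, hd⟩ := hF.hd
  have hmaps : ∀ ξ : ℂ, ξ ∈ Metric.ball (0 : ℂ) (exp 5) → ξ * w ∈ Metric.ball (0 : ℂ) ρ := by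
    intro ξ hξ
    rw [mem_ball_zero_iff] at hξ ⊢
    rw [norm_mul, hw]
    have h1 : ‖ξ‖ * exp τ < exp 5 * exp τ := mul_lt_mul_of_pos_right hξ (exp_pos _)
    have h2 : exp 5 * exp τ ≤ exp S := by
      rw [← Real.exp_add]
      exact Real.exp_le_exp.2 (by linarith)
    linarith
  have hgd : DifferentiableOn ℂ g (Metric.ball 0 (exp 5)) := by
    refine hd.comp ((differentiable_id.mul_const w).differentiableOn) ?_
    intro ξ hξ
    exact hmaps ξ hξ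
  have hg0 : deriv g 0 = c 1 * w := by
    have h1 : HasDerivAt h (deriv h 0) (0 * w) := by
      rw [zero_mul]
      refine (hd.differentiableAt (Metric.isOpen_ball.mem_nhds ?_)).hasDerivAt
      rw [Metric.mem_ball, dist_self]
      exact lt_trans (exp_pos S) hρ
    have h2 : HasDerivAt (fun ζ : ℂ => ζ * w) w 0 := by
      simpa using (hasDerivAt_id (0 : ℂ)).mul_const w
    have h3 := h1.comp (0 : ℂ) h2
    rw [c1]
    exact h3.deriv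
  have hB : ∀ ξ : ℂ, ‖ξ‖ ≤ exp 4 → ‖g ξ - deriv g 0 * ξ‖ ≤
      (2 + 9 * C1) * (8 / 5 * exp 8) * exp (-(2 * (S - τ))) * TM f S := by
    intro ξ hξ
    have h1 : ‖ξ * w‖ ≤ exp (4 + τ) := by
      rw [norm_mul, hw, Real.exp_add]
      exact mul_le_mul_of_nonneg_right hξ (exp_pos _).le
    have h2 := frh_tail hF.h0 hs c0 hc hH0 (u := 4 + τ) (by linarith) h1
    have h3 : g ξ - deriv g 0 * ξ = h (ξ * w) - c 1 * (ξ * w) := by
      rw [hg0, hg]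
      ring
    rw [h3]
    refine h2.trans ?_
    have h4 : exp (2 * (4 + τ - S)) = exp 8 * exp (-(2 * (S - τ))) := by
      rw [← Real.exp_add]
      congr 1
      ring
    rw [h4]
    have h5 : 0 ≤ 8 / 5 * (exp 8 * exp (-(2 * (S - τ)))) := by positivity
    calc H * (8 / 5 * (exp 8 * exp (-(2 * (S - τ)))))
        ≤ ((2 + 9 * C1) * TM f S) * (8 / 5 * (exp 8 * exp (-(2 * (S - τ))))) :=
          mul_le_mul_of_nonneg_right hHle h5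
      _ = (2 + 9 * C1) * (8 / 5 * exp 8) * exp (-(2 * (S - τ))) * TM f S := by ring
  exact frh_cauchy hgd hB ζ hζ

end Pool.Agent.THX
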