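import Pool.Agent.THX.GamA
import Pool.Agent.TX1.Ell

/-!
# THX, module VBd: bounds for the potential `VV x y` of one zero, heights `0 ≤ s ≤ 3/2`

Let `w = pt (x-s) (θ-y)` (`x < 0`) or `w = pt (s-x) (θ-y)` (`x ≥ 0`), `VV = Re φ w`, `φ w = log (1-w)` or `log (1-w) + w`.
`ζ d/dζ`: `D = ± w φ'(w)`: for `x < 0`: `D = w/(1-w)`, `D² = -w/(1-w)²`; for `x ≥ 0`: `D = -w²/(1-w)`, `D² = -w²(2-w)/(1-w)²`.
`∂_s VV = Re D`, `∂_θ VV = Re (i D) = - Im D`, `∂_s² VV = Re D²`, `∂_θ² VV = -Re D²` (`D² := ζ dD/dζ`).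
* not `NH`, `|θ| ≤ 1/8`: either `|x| > 3`, then `|w| ≤ exp (-3/2)`; or `dd y ≤ 1/2` (so `cos y ≤ -7/8`), then `|1 - w| ≥ max (1, |w|)`... `Re w ≤ 0` for `|θ| ≤ 1/8`.  So `|D²| ≤ C kw x`,
  `|Im D| ≤ C dd y kw x` at `θ = 0` (if `dd y > 1/2` trivial; `|sin y| ≤ dd y`, `Im D` is `|w| sin` times a bounded factor).
* `vb_near`: `|1 - w| ≥ |1 - |w|| ≥ c |s - x|`.
* `vb_L1`, `vs_L1`: for `|w| ≤ 1/2` power series bounds (`|w|` resp. `|w|²`); for `|w|` near `1`: `∫ |ell| ≤ C` (`TX1.Ell`), and `VS` at `s = 0`: `Re (w/(1-w)) = (P-1)/2`, `-Re (w²/(1-w)) = (1-P)/2 + Re w`,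
  `P` the Poisson kernel, `∫ P = 2π`.
* `vs_sup`: `cos (θ-y) ≤ 1/2` gives `|1-w| ≥ √3/2`.
-/

set_option autoImplicit false
set_option linter.all false

namespace Pool.Agent.THX

open Real MeasureTheory Set Filter Topology
open Pool.Agent.TX1 (pt ell TM TN Fac HM Gr)

theorem kw_pos (x : ℝ) : 0 < kw x := exp_pos _

theorem kw_neg {x : ℝ} (h : x ≤ 0) : kw x = exp x := by
  unfold kw
  rw [min_eq_left (by linarith)]

theorem kw_nonneg {x : ℝ} (h : 0 ≤ x) : kw x = exp (-(2 * x)) := by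
  unfold kw
  rw [min_eq_right (by linarith)]

/-- `‖1 - pt τ β‖²` -/
private noncomputable def vN (τ β : ℝ) : ℝ := 1 - 2 * exp τ * cos β + exp τ ^ 2

private theorem vN_eq (τ β : ℝ) : ‖1 - pt τ β‖ ^ 2 = vN τ β := by
  unfold vN
  rw [← Complex.normSq_eq_norm_sq, Complex.normSq_apply]
  have h1 : (1 - pt τ β).re = 1 - exp τ * cos β := by
    unfold pt
    simp [Complex.exp_re]
  have h2 : (1 - pt τ β).im = -(exp τ * sin β) := by
    unfold pt
    simp [Complex.exp_im]
  rw [h1, h2]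
  nlinarith [sin_sq_add_cos_sq β]

private theorem ell_eq (τ β : ℝ) : ell τ β = 1 / 2 * log (vN τ β) := by
  rw [← vN_eq, log_pow]
  unfold ell
  push_cast
  ring

private theorem vN_A {τ β : ℝ} (h : exp τ ≤ 1 / 4) : 1 / 4 ≤ vN τ β := by
  unfold vN
  have h1 := exp_pos τ
  have h2 := cos_le_one β
  nlinarith

private theorem vN_B {τ β : ℝ} (h : cos β ≤ 1 / 2) : 1 / 4 ≤ vN τ β := by
  unfold vN
  have h1 := exp_pos τ
  nlinarith [sq_nonneg (exp τ - 1 / 2)]

private theorem e32 : exp (3 / 2) ≤ 5 := by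
  have h := exp_one_lt_d9
  have h0 := exp_pos 1
  have h2 : exp (3/2) ^ 2 = exp 1 ^ 3 := by
    rw [← exp_nat_mul, ← exp_nat_mul]; norm_num
  have h3 : exp 1 ^ 3 ≤ 25 := by
    have : exp 1 ^ 3 ≤ (2.72 : ℝ) ^ 3 := by gcongr; linarith
    linarith [this, (by norm_num : (2.72 : ℝ) ^ 3 ≤ 25)]
  nlinarith [exp_pos (3 / 2 : ℝ)]

private theorem e32' : exp (-(3 / 2)) ≤ 1 / 4 := by
  have h := quadratic_le_exp_of_nonneg (by norm_num : (0 : ℝ) ≤ 1 / 2)
  have h2 : exp (3/2) = exp (1 / 2) ^ 3 := by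
    rw [← exp_nat_mul]; norm_num
  have h3 : 4 ≤ exp (3 / 2) := by
    rw [h2]
    have : (1.6 : ℝ) ^ 3 ≤ exp (1 / 2) ^ 3 := by gcongr; linarith
    linarith [this, (by norm_num : (4 : ℝ) ≤ (1.6 : ℝ) ^ 3)]
  rw [exp_neg]
  rw [inv_eq_one_div]
  exact one_div_le_one_div_of_le (by norm_num) h3

/-- derivative in the direction `β` -/
private theorem ell_db {τ β : ℝ} (h : 1 / 4 ≤ vN τ β) :
    HasDerivAt (fun b => ell τ b) (exp τ * sin β / vN τ β) β := by
  have h1 : HasDerivAt (fun b => vN τ b) (2 * exp τ * sin β) β := by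
    unfold vN
    have h2 := (((hasDerivAt_cos β).const_mul (2 * exp τ)).const_sub 1).add_const (exp τ ^ 2)
    refine h2.congr_deriv ?_
    ring
  have h2 := (h1.log (by linarith)).const_mul (1 / 2)
  have h3 : (fun b => ell τ b) = fun b => 1 / 2 * log (vN τ b) := by
    funext b
    exact ell_eq τ b
  rw [h3]
  refine h2.congr_deriv ?_
  ring

/-- the derivative in `τ` -/
private noncomputable def L1 (τ β : ℝ) : ℝ := (exp τ ^ 2 - exp τ * cos β) / vN τ β

/-- the second derivative in `τ` -/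
private noncomputable def L2 (τ β : ℝ) : ℝ := exp τ * (2 * exp τ - cos β * (1 + exp τ ^ 2)) / vN τ β ^ 2

private theorem vN_dt (τ β : ℝ) : HasDerivAt (fun t => vN t β) (2 * (exp τ ^ 2 - exp τ * cos β)) τ := by
  unfold vN
  have h1 := Real.hasDerivAt_exp τ
  have h2 := (((h1.const_mul 2).mul_const (cos β)).const_sub 1).add (h1.pow 2)
  refine h2.congr_deriv ?_
  simp
  ring

private theorem ell_dt {τ β : ℝ} (h : 1 / 4 ≤ vN τ β) : HasDerivAt (fun t => ell t β) (L1 τ β) τ := by
  have h2 := ((vN_dt τ β).log (by linarith)).const_mul (1 / 2)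
  have h3 : (fun t => ell t β) = fun t => 1 / 2 * log (vN t β) := by
    funext b
    exact ell_eq b β
  rw [h3]
  refine h2.congr_deriv ?_
  unfold L1
  ring

private theorem L1_dt {τ β : ℝ} (h : 1 / 4 ≤ vN τ β) : HasDerivAt (fun t => L1 t β) (L2 τ β) τ := by
  have h0 : vN τ β ≠ 0 := by linarith
  have h1 := Real.hasDerivAt_exp τ
  have h2 : HasDerivAt (fun t => exp t ^ 2 - exp t * cos β) (2 * exp τ ^ 2 - exp τ * cos β) τ := by
    refine ((h1.pow 2).sub (h1.mul_const (cos β))).congr_deriv ?_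
    simp
    ring
  have h3 := h2.div (vN_dt τ β) h0
  refine h3.congr_deriv ?_
  unfold L2
  congr 1
  unfold vN
  ring


private theorem L2_bd {τ β : ℝ} (h : 1 / 4 ≤ vN τ β) (hr : exp τ ≤ 5) : |L2 τ β| ≤ 4096 * exp τ := by
  unfold L2
  have h0 := exp_pos τ
  have hN : (1 / 4 : ℝ) ^ 2 ≤ vN τ β ^ 2 := by gcongr
  have hN' : 0 < vN τ β ^ 2 := by nlinarith
  have h1 : |2 * exp τ - cos β * (1 + exp τ ^ 2)| ≤ 100 := by
    have c1 := cos_le_one β
    have c2 := neg_one_le_cos β
    rw [abs_le]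
    constructor <;> nlinarith [sq_nonneg (exp τ)]
  rw [abs_div, abs_mul, abs_of_pos h0, abs_of_pos hN', div_le_iff₀ hN']
  calc exp τ * |2 * exp τ - cos β * (1 + exp τ ^ 2)| ≤ exp τ * 100 := by gcongr
    _ ≤ 4096 * exp τ * (1 / 4) ^ 2 := by nlinarith
    _ ≤ 4096 * exp τ * vN τ β ^ 2 := by gcongr

private theorem W2_bd {τ β : ℝ} (h : 1 / 4 ≤ vN τ β) (hr : exp τ ≤ 5) :
    |L2 τ β + exp τ * cos β| ≤ 8192 * exp τ ^ 2 := by
  have h0 := exp_pos τ
  have hN : (1 / 4 : ℝ) ^ 2 ≤ vN τ β ^ 2 := by gcongr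
  have hN' : 0 < vN τ β ^ 2 := by nlinarith
  have hN0 : vN τ β ≠ 0 := by linarith
  have h2 : L2 τ β + exp τ * cos β = exp τ ^ 2 * (2 + exp τ * cos β - 4 * cos β ^ 2 +
      exp τ * cos β * (exp τ - 2 * cos β) ^ 2) / vN τ β ^ 2 := by
    unfold L2
    rw [div_add' _ _ _ hN'.ne']
    congr 1
    unfold vN
    ring
  have c1 := cos_le_one β
  have c2 := neg_one_le_cos β
  have h3 : |exp τ * cos β| ≤ 5 := by
    rw [abs_le]
    constructor <;> nlinarith
  have h4 : |(exp τ - 2 * cos β) ^ 2| ≤ 49 := by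
    rw [abs_of_nonneg (sq_nonneg _)]
    nlinarith
  have h1 : |2 + exp τ * cos β - 4 * cos β ^ 2 + exp τ * cos β * (exp τ - 2 * cos β) ^ 2| ≤ 512 := by
    have h5 : |exp τ * cos β * (exp τ - 2 * cos β) ^ 2| ≤ 5 * 49 := by
      rw [abs_mul]
      gcongr
    have h6 : cos β ^ 2 ≤ 1 := by nlinarith
    rw [abs_le] at *
    constructor <;> nlinarith [sq_nonneg (cos β)]
  rw [h2, abs_div, abs_mul, abs_of_pos (by positivity : 0 < exp τ ^ 2), abs_of_pos hN', div_le_iff₀ hN']
  calc exp τ ^ 2 * |2 + exp τ * cos β - 4 * cos β ^ 2 + exp τ * cos β * (exp τ - 2 * cos β) ^ 2|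
      ≤ exp τ ^ 2 * 512 := by gcongr
    _ = 8192 * exp τ ^ 2 * (1 / 4) ^ 2 := by ring
    _ ≤ 8192 * exp τ ^ 2 * vN τ β ^ 2 := by gcongr

private theorem sd {f f' f'' : ℝ → ℝ} {s ρ M : ℝ} (hρ : 0 ≤ ρ)
    (hf : ∀ t ∈ Icc (s - ρ) (s + ρ), HasDerivAt f (f' t) t)
    (hf' : ∀ t ∈ Icc (s - ρ) (s + ρ), HasDerivAt f' (f'' t) t)
    (hM : ∀ t ∈ Icc (s - ρ) (s + ρ), |f'' t| ≤ M) : |f (s + ρ) + f (s - ρ) - 2 * f s| ≤ 2 * M * ρ ^ 2 := by
  have hM0 : 0 ≤ M := (abs_nonneg _).trans (hM s ⟨by linarith, by linarith⟩)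
  have h1 : ∀ a ∈ Icc (s - ρ) (s + ρ), ∀ b ∈ Icc (s - ρ) (s + ρ), |f' b - f' a| ≤ M * |b - a| := by
    intro a ha b hb
    have := Convex.norm_image_sub_le_of_norm_hasDerivWithin_le (f := f') (f' := f'') (s := Icc (s - ρ) (s + ρ))
      (C := M) (fun t ht => (hf' t ht).hasDerivWithinAt) (fun t ht => by simpa using hM t ht)
      (convex_Icc _ _) ha hb
    simpa using this
  have h2 : ∀ t ∈ Icc 0 ρ, HasDerivAt (fun t => f (s + t) + f (s - t)) (f' (s + t) - f' (s - t)) t := by
    intro t ht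
    have a1 : HasDerivAt (fun t : ℝ => s + t) 1 t := (hasDerivAt_id t).const_add s
    have a2 : HasDerivAt (fun t : ℝ => s - t) (-1) t := (hasDerivAt_id t).const_sub s
    have b1 := (hf (s + t) ⟨by linarith [ht.1], by linarith [ht.2]⟩)
    have b2 := (hf (s - t) ⟨by linarith [ht.2], by linarith [ht.1]⟩)
    have c1 := HasDerivAt.comp t b1 a1
    have c2 := HasDerivAt.comp t b2 a2
    refine (c1.add c2).congr_deriv ?_
    ring
  have h3 := Convex.norm_image_sub_le_of_norm_hasDerivWithin_le (f := fun t => f (s + t) + f (s - t))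
    (f' := fun t => f' (s + t) - f' (s - t)) (s := Icc 0 ρ) (C := 2 * M * ρ)
    (fun t ht => (h2 t ht).hasDerivWithinAt) (fun t ht => by
      have := h1 (s - t) ⟨by linarith [ht.2], by linarith [ht.1]⟩ (s + t) ⟨by linarith [ht.1], by linarith [ht.2]⟩
      rw [Real.norm_eq_abs]
      refine this.trans ?_
      rw [show s + t - (s - t) = 2 * t by ring, abs_of_nonneg (by linarith [ht.1])]
      nlinarith [ht.2])
    (convex_Icc _ _) (left_mem_Icc.2 hρ) (right_mem_Icc.2 hρ)
  simp only [add_zero, sub_zero, Real.norm_eq_abs] at h3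
  rw [abs_of_nonneg hρ] at h3
  rw [show f (s + ρ) + f (s - ρ) - 2 * f s = f (s + ρ) + f (s - ρ) - (f s + f s) by ring]
  refine h3.trans (le_of_eq ?_)
  ring

private theorem lg {u : ℝ} (h : 1 / 4 ≤ 1 + u) : |log (1 + u)| ≤ 4 * |u| ∧ |log (1 + u) - u| ≤ 4 * u ^ 2 := by
  have h0 : 0 < 1 + u := by linarith
  have h1 := Real.log_le_sub_one_of_pos h0
  have h2 := Real.one_sub_inv_le_log_of_pos h0
  have h3 : 1 - (1 + u)⁻¹ = u / (1 + u) := by field_simp; ring
  have h4 : u - u / (1 + u) = u ^ 2 / (1 + u) := by field_simp; ring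
  have h5 : u ^ 2 / (1 + u) ≤ 4 * u ^ 2 := by
    rw [div_le_iff₀ h0]
    nlinarith [sq_nonneg u]
  rw [h3] at h2
  constructor
  · rw [abs_le]
    constructor
    · have : |u / (1 + u)| ≤ 4 * |u| := by
        rw [abs_div, abs_of_pos h0, div_le_iff₀ h0]
        nlinarith [abs_nonneg u]
      linarith [neg_abs_le (u / (1 + u))]
    · linarith [le_abs_self u, abs_nonneg u]
  · rw [abs_le]
    constructor
    · linarith
    · nlinarith [sq_nonneg u]

private theorem u_bd {τ β : ℝ} (hr : exp τ ≤ 5) : |exp τ ^ 2 - 2 * exp τ * cos β| ≤ 7 * exp τ := by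
  have h0 := exp_pos τ
  have c1 := cos_le_one β
  have c2 := neg_one_le_cos β
  rw [abs_le]
  constructor <;> nlinarith

private theorem ell_abs {τ β : ℝ} (h : 1 / 4 ≤ vN τ β) (hr : exp τ ≤ 5) : |ell τ β| ≤ 14 * exp τ := by
  have h1 : vN τ β = 1 + (exp τ ^ 2 - 2 * exp τ * cos β) := by unfold vN; ring
  rw [ell_eq, h1, abs_mul]
  rw [h1] at h
  have h2 := (lg h).1
  have h3 := u_bd (β := β) hr
  rw [abs_of_pos (by norm_num : (0 : ℝ) < 1 / 2)]
  linarith

private theorem W_abs {τ β : ℝ} (h : 1 / 4 ≤ vN τ β) (hr : exp τ ≤ 5) :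
    |ell τ β + exp τ * cos β| ≤ 100 * exp τ ^ 2 := by
  have h1 : vN τ β = 1 + (exp τ ^ 2 - 2 * exp τ * cos β) := by unfold vN; ring
  rw [ell_eq, h1]
  rw [h1] at h
  have h2 := (lg h).2
  have h3 := u_bd (β := β) hr
  have h0 := exp_pos τ
  have h4 : (exp τ ^ 2 - 2 * exp τ * cos β) ^ 2 ≤ (7 * exp τ) ^ 2 := by
    rw [← sq_abs]
    gcongr
  have h5 : |log (1 + (exp τ ^ 2 - 2 * exp τ * cos β)) - (exp τ ^ 2 - 2 * exp τ * cos β)| ≤ 4 * (7 * exp τ) ^ 2 :=
    h2.trans (by linarith)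
  rw [abs_le] at *
  constructor <;> nlinarith [h5.1, h5.2]


private def NC (x y s θ : ℝ) : Prop :=
  (x < 0 → 1 / 4 ≤ vN (x - s) (θ - y)) ∧ (0 ≤ x → 1 / 4 ≤ vN (s - x) (θ - y))

private theorem cosd {y θ : ℝ} (hθ : |θ| ≤ 1 / 8) (h : dd y ≤ 1 / 2) : cos (θ - y) ≤ 1 / 2 := by
  have h1 := dd_lip (y - θ) y
  have h2 : |y - θ - y| = |θ| := by rw [show y - θ - y = -θ by ring, abs_neg]
  have h3 : dd (y - θ) ≤ 1 := by linarith
  have h4 := dd_sq (y - θ)
  have h5 := dd_nonneg (y - θ)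
  have h6 : cos (y - θ) = cos (θ - y) := by rw [← cos_neg, neg_sub]
  rw [h6] at h4
  nlinarith

private theorem nfar {x y s θ : ℝ} (h0 : 0 ≤ s) (h1 : s ≤ 3 / 2) (h : 3 < |x|) : NC x y s θ := by
  constructor
  · intro hx
    rw [abs_of_neg hx] at h
    exact vN_A ((exp_le_exp.2 (by linarith)).trans e32')
  · intro hx
    rw [abs_of_nonneg hx] at h
    exact vN_A ((exp_le_exp.2 (by linarith)).trans e32')

private theorem ndom {x y s θ : ℝ} (h0 : 0 ≤ s) (h1 : s ≤ 3 / 2) (hθ : |θ| ≤ 1 / 8) (h : ¬ NH x y) :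
    NC x y s θ := by
  by_cases h3 : 3 < |x|
  · exact nfar h0 h1 h3
  · have h2 : dd y ≤ 1 / 2 := by
      by_contra hc
      exact h ⟨not_le.1 hc, not_lt.1 h3⟩
    exact ⟨fun _ => vN_B (cosd hθ h2), fun _ => vN_B (cosd hθ h2)⟩

private theorem kn {x s : ℝ} (h0 : 0 ≤ s) (hx : x < 0) : exp (x - s) ≤ kw x ∧ exp (x - s) ≤ 5 := by
  rw [kw_neg hx.le]
  refine ⟨exp_le_exp.2 (by linarith), ?_⟩
  have : exp (x - s) ≤ exp 0 := exp_le_exp.2 (by linarith)
  rw [exp_zero] at this
  linarith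

private theorem kp {x s : ℝ} (h1 : s ≤ 3 / 2) (hx : 0 ≤ x) : exp (s - x) ^ 2 ≤ 25 * kw x ∧ exp (s - x) ≤ 5 := by
  rw [kw_nonneg hx]
  constructor
  · have h2 : exp (s - x) ^ 2 = exp s ^ 2 * exp (-(2 * x)) := by
      rw [← exp_nat_mul, ← exp_nat_mul, ← exp_add]
      congr 1
      push_cast
      ring
    rw [h2]
    have h3 : exp s ≤ 5 := (exp_le_exp.2 h1).trans e32
    have h4 : exp s ^ 2 ≤ 5 ^ 2 := by gcongr
    have h5 := exp_pos (-(2 * x))
    nlinarith
  · exact (exp_le_exp.2 (by linarith)).trans e32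

private theorem core_abs {x y s θ : ℝ} (h0 : 0 ≤ s) (h1 : s ≤ 3 / 2) (h : NC x y s θ) :
    |VV x y s θ| ≤ 2500 * kw x := by
  unfold VV
  have hk := kw_pos x
  split_ifs with hx
  · have := ell_abs (h.1 hx) (kn h0 hx).2
    linarith [(kn h0 hx).1]
  · have hx' : 0 ≤ x := not_lt.1 hx
    have := W_abs (h.2 hx') (kp h1 hx').2
    linarith [(kp h1 hx').1]

private theorem core_sd {x y s θ ρ : ℝ} (hρ : 0 ≤ ρ) (h0 : 0 ≤ s - ρ) (h1 : s + ρ ≤ 3 / 2)
    (h : ∀ t ∈ Icc (s - ρ) (s + ρ), NC x y t θ) :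
    |VV x y (s + ρ) θ + VV x y (s - ρ) θ - 2 * VV x y s θ| ≤ 409600 * kw x * ρ ^ 2 := by
  unfold VV
  have hk := kw_pos x
  split_ifs with hx
  · have hh := sd (f := fun t => ell (x - t) (θ - y)) (f' := fun t => -L1 (x - t) (θ - y))
      (f'' := fun t => L2 (x - t) (θ - y)) (s := s) (ρ := ρ) (M := 4096 * kw x) hρ (fun t ht => by
        have a1 : HasDerivAt (fun t : ℝ => x - t) (-1) t := (hasDerivAt_id t).const_sub x
        have a2 := ell_dt ((h t ht).1 hx)
        refine (HasDerivAt.comp t a2 a1).congr_deriv ?_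
        ring) (fun t ht => by
        have a1 : HasDerivAt (fun t : ℝ => x - t) (-1) t := (hasDerivAt_id t).const_sub x
        have a2 := L1_dt ((h t ht).1 hx)
        refine (HasDerivAt.comp t a2 a1).neg.congr_deriv ?_
        ring) (fun t ht => by
        have a3 := kn (x := x) (s := t) (by linarith [ht.1]) hx
        have a4 := L2_bd ((h t ht).1 hx) a3.2
        refine a4.trans ?_
        linarith [a3.1])
    refine hh.trans ?_
    have : 0 ≤ kw x * ρ ^ 2 := by positivity
    nlinarith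
  · have hx' : 0 ≤ x := not_lt.1 hx
    have hh := sd (f := fun t => ell (t - x) (θ - y) + exp (t - x) * cos (θ - y))
      (f' := fun t => L1 (t - x) (θ - y) + exp (t - x) * cos (θ - y))
      (f'' := fun t => L2 (t - x) (θ - y) + exp (t - x) * cos (θ - y)) (s := s) (ρ := ρ)
      (M := 204800 * kw x) hρ (fun t ht => by
        have a1 : HasDerivAt (fun t : ℝ => t - x) 1 t := (hasDerivAt_id t).sub_const x
        have a2 := ell_dt ((h t ht).2 hx')
        refine ((HasDerivAt.comp t a2 a1).add ((a1.exp).mul_const (cos (θ - y)))).congr_deriv ?_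
        ring) (fun t ht => by
        have a1 : HasDerivAt (fun t : ℝ => t - x) 1 t := (hasDerivAt_id t).sub_const x
        have a2 := L1_dt ((h t ht).2 hx')
        refine ((HasDerivAt.comp t a2 a1).add ((a1.exp).mul_const (cos (θ - y)))).congr_deriv ?_
        ring) (fun t ht => by
        have a3 := kp (x := x) (s := t) (by linarith [ht.2]) hx'
        have a4 := W2_bd ((h t ht).2 hx') a3.2
        refine a4.trans ?_
        linarith [a3.1])
    refine hh.trans ?_
    have : 0 ≤ kw x * ρ ^ 2 := by positivity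
    nlinarith

/-- the derivative of `VV` in `θ` is small -/
private theorem core_th {x y s θ : ℝ} (h0 : 0 ≤ s) (h1 : s ≤ 3 / 2) (h : NC x y s θ) :
    ∃ d : ℝ, HasDerivAt (VV x y s) d θ ∧ |d| ≤ 700 * kw x * |sin (θ - y)| := by
  have hk := kw_pos x
  have a1 : HasDerivAt (fun t : ℝ => t - y) 1 θ := (hasDerivAt_id θ).sub_const y
  by_cases hx : x < 0
  · have e : VV x y s = fun t => ell (x - s) (t - y) := by
      funext t
      unfold VV
      rw [if_pos hx]
    have hN := h.1 hx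
    have a2 : HasDerivAt (fun t => ell (x - s) (t - y))
        (exp (x - s) * sin (θ - y) / vN (x - s) (θ - y) * 1) θ :=
      HasDerivAt.comp (h₂ := fun b => ell (x - s) b) (h := fun t => t - y) θ (ell_db hN) a1
    have a4 : HasDerivAt (VV x y s) (exp (x - s) * sin (θ - y) / vN (x - s) (θ - y) * 1) θ := by
      rw [e]
      exact a2
    refine ⟨_, a4, ?_⟩
    have h3 := kn h0 hx
    rw [mul_one, abs_div, abs_mul, abs_of_pos (exp_pos _), abs_of_pos (by linarith : 0 < vN (x - s) (θ - y)),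
      div_le_iff₀ (by linarith)]
    have h4 : 0 ≤ |sin (θ - y)| := abs_nonneg _
    calc exp (x - s) * |sin (θ - y)| ≤ kw x * |sin (θ - y)| := by gcongr; exact h3.1
      _ ≤ 700 * kw x * |sin (θ - y)| * (1 / 4) := by
        have : 0 ≤ kw x * |sin (θ - y)| := by positivity
        nlinarith
      _ ≤ _ := by gcongr
  · have hx' : 0 ≤ x := not_lt.1 hx
    have e : VV x y s = fun t => ell (s - x) (t - y) + exp (s - x) * cos (t - y) := by
      funext t
      unfold VV
      rw [if_neg hx]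
    have hN := h.2 hx'
    have a2 : HasDerivAt (fun t => ell (s - x) (t - y))
        (exp (s - x) * sin (θ - y) / vN (s - x) (θ - y) * 1) θ :=
      HasDerivAt.comp (h₂ := fun b => ell (s - x) b) (h := fun t => t - y) θ (ell_db hN) a1
    have a3 : HasDerivAt (fun t => exp (s - x) * cos (t - y)) (exp (s - x) * (-sin (θ - y) * 1)) θ :=
      (a1.cos).const_mul (exp (s - x))
    have a4 : HasDerivAt (VV x y s) (exp (s - x) * sin (θ - y) / vN (s - x) (θ - y) * 1 +
        exp (s - x) * (-sin (θ - y) * 1)) θ := by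
      rw [e]
      exact a2.add a3
    refine ⟨_, a4, ?_⟩
    have h3 := kp h1 hx'
    have hN0 : vN (s - x) (θ - y) ≠ 0 := by linarith
    have h5 : exp (s - x) * sin (θ - y) / vN (s - x) (θ - y) * 1 + exp (s - x) * (-sin (θ - y) * 1)
        = exp (s - x) ^ 2 * sin (θ - y) * (2 * cos (θ - y) - exp (s - x)) / vN (s - x) (θ - y) := by
      field_simp
      unfold vN
      ring
    rw [h5, abs_div, abs_mul, abs_mul, abs_of_pos (by positivity : 0 < exp (s - x) ^ 2),
      abs_of_pos (by linarith : 0 < vN (s - x) (θ - y)), div_le_iff₀ (by linarith)]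
    have h4 : 0 ≤ |sin (θ - y)| := abs_nonneg _
    have h6 : |2 * cos (θ - y) - exp (s - x)| ≤ 7 := by
      have c1 := cos_le_one (θ - y)
      have c2 := neg_one_le_cos (θ - y)
      have h0' := exp_pos (s - x)
      rw [abs_le]
      constructor <;> linarith [h3.2]
    calc exp (s - x) ^ 2 * |sin (θ - y)| * |2 * cos (θ - y) - exp (s - x)|
        ≤ (25 * kw x) * |sin (θ - y)| * 7 := by gcongr; exact h3.1
      _ = 700 * kw x * |sin (θ - y)| * (1 / 4) := by ring
      _ ≤ _ := by gcongr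

theorem vb_theta : ∃ C : ℝ, 0 < C ∧ ∀ x y s φ : ℝ, 0 ≤ s → s ≤ 3 / 2 → |φ| ≤ 1 / 8 → ¬ NH x y →
    |VV x y s φ - VV x y s 0| ≤ C * (dd y * kw x * |φ| + kw x * φ ^ 2) := by
  refine ⟨700, by norm_num, fun x y s φ h0 h1 hφ h => ?_⟩
  have hk := kw_pos x
  have hs : ∀ t ∈ Icc (-|φ|) |φ|, ∃ d : ℝ, HasDerivAt (VV x y s) d t ∧ |d| ≤ 700 * kw x * (dd y + |φ|) := by
    intro t ht
    have ht' : |t| ≤ |φ| := abs_le.2 ht
    obtain ⟨d, hd, hd'⟩ := core_th h0 h1 (ndom (θ := t) h0 h1 (ht'.trans hφ) h)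
    refine ⟨d, hd, hd'.trans ?_⟩
    have h2 : |sin (t - y)| ≤ dd y + |φ| := by
      have e1 : |sin (t - y)| ≤ dd (y - t) := by
        have : sin (t - y) = -(2 * sin ((y - t) / 2) * cos ((y - t) / 2)) := by
          rw [← sin_two_mul, ← sin_neg]
          congr 1
          ring
        rw [this, abs_neg, abs_mul, abs_mul, abs_of_pos (by norm_num : (0 : ℝ) < 2)]
        unfold dd
        have := abs_sin_le_one ((y - t) / 2)
        have h7 := abs_nonneg (cos ((y - t) / 2))
        nlinarith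
      have e2 := dd_lip (y - t) y
      rw [show y - t - y = -t by ring, abs_neg] at e2
      linarith
    gcongr
  choose! d hd hd' using hs
  have h3 := Convex.norm_image_sub_le_of_norm_hasDerivWithin_le (f := VV x y s) (f' := d)
    (s := Icc (-|φ|) |φ|) (C := 700 * kw x * (dd y + |φ|)) (x := 0) (y := φ)
    (fun t ht => (hd t ht).hasDerivWithinAt) (fun t ht => hd' t ht) (convex_Icc _ _)
    ⟨by linarith [abs_nonneg φ], abs_nonneg φ⟩ ⟨neg_abs_le φ, le_abs_self φ⟩
  rw [Real.norm_eq_abs, sub_zero, Real.norm_eq_abs] at h3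
  refine h3.trans (le_of_eq ?_)
  rw [← sq_abs φ]
  ring

theorem vb_s : ∃ C : ℝ, 0 < C ∧ ∀ x y s ρ : ℝ, 0 ≤ ρ → 0 ≤ s - ρ → s + ρ ≤ 3 / 2 → ¬ NH x y →
    |VV x y (s + ρ) 0 + VV x y (s - ρ) 0 - 2 * VV x y s 0| ≤ C * kw x * ρ ^ 2 := by
  refine ⟨409600, by norm_num, fun x y s ρ hρ h0 h1 h => ?_⟩
  exact core_sd hρ h0 h1 fun t ht => ndom (by linarith [ht.1]) (by linarith [ht.2]) (by norm_num) h

theorem vb_abs : ∃ C : ℝ, 0 < C ∧ ∀ x y s : ℝ, 0 ≤ s → s ≤ 3 / 2 → ¬ NH x y →
    |VV x y s 0| ≤ C * kw x ∧ ContinuousAt (fun t => VV x y t 0) s := by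
  refine ⟨2500, by norm_num, fun x y s h0 h1 h => ?_⟩
  have hN := ndom (θ := 0) h0 h1 (by norm_num) h
  refine ⟨core_abs h0 h1 hN, ?_⟩
  by_cases hx : x < 0
  · have e : (fun t => VV x y t 0) = fun t => ell (x - t) (0 - y) := by
      funext t
      unfold VV
      rw [if_pos hx]
    rw [e]
    have a1 : HasDerivAt (fun t : ℝ => x - t) (-1) s := (hasDerivAt_id s).const_sub x
    exact (HasDerivAt.comp s (ell_dt (hN.1 hx)) a1).continuousAt
  · have hx' : 0 ≤ x := not_lt.1 hx
    have e : (fun t => VV x y t 0) = fun t => ell (t - x) (0 - y) + exp (t - x) * cos (0 - y) := by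
      funext t
      unfold VV
      rw [if_neg hx]
    rw [e]
    have a1 : HasDerivAt (fun t : ℝ => t - x) 1 s := (hasDerivAt_id s).sub_const x
    exact ((HasDerivAt.comp s (ell_dt (hN.2 hx')) a1).add
      ((a1.exp).mul_const (cos (0 - y)))).continuousAt

theorem vb_far : ∃ C : ℝ, 0 < C ∧ ∀ x y s θ : ℝ, 0 ≤ s → s ≤ 3 / 2 → 3 < |x| →
    |VV x y s θ| ≤ C * kw x ∧ ∀ ρ, 0 ≤ ρ → 0 ≤ s - ρ → s + ρ ≤ 3 / 2 →
      |VV x y (s + ρ) θ + VV x y (s - ρ) θ - 2 * VV x y s θ| ≤ C * kw x * ρ ^ 2 := by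
  refine ⟨409600, by norm_num, fun x y s θ h0 h1 h => ⟨?_, ?_⟩⟩
  · have := core_abs h0 h1 (nfar (y := y) (θ := θ) h0 h1 h)
    linarith [kw_pos x]
  · intro ρ hρ h2 h3
    exact core_sd hρ h2 h3 fun t ht => nfar (by linarith [ht.1]) (by linarith [ht.2]) h


private theorem nr {τ : ℝ} (h : |τ| ≤ 5) : |τ| / 6 ≤ |1 - exp τ| := by
  rcases le_total 0 τ with h0 | h0
  · have h1 := add_one_le_exp τ
    rw [abs_of_nonneg h0] at *
    rw [abs_of_nonpos (by linarith)]
    linarith
  · have h1 := add_one_le_exp (-τ)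
    rw [abs_of_nonpos h0] at *
    have h2 : exp τ * exp (-τ) = 1 := by rw [← exp_add]; simp
    have h3 := exp_pos τ
    have h4 : exp τ * (1 - τ) ≤ 1 := by nlinarith
    have h5 : exp τ ≤ 1 := by nlinarith
    rw [abs_of_nonneg (by linarith)]
    nlinarith

private theorem nell {τ : ℝ} (β : ℝ) (h : |τ| ≤ 5) (h0 : τ ≠ 0) : -ell τ β ≤ log (6 / |τ|) := by
  have h1 := nr h
  have h2 : |1 - exp τ| ≤ ‖1 - pt τ β‖ := by
    have := abs_norm_sub_norm_le (1 : ℂ) (pt τ β)
    rw [norm_one, Pool.Agent.TX1.pt_norm] at this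
    exact this
  have h3 : 0 < |τ| := abs_pos.2 h0
  unfold ell
  rw [← log_inv, ← inv_div]
  apply log_le_log (inv_pos.2 (by linarith))
  exact inv_anti₀ (by positivity) (h1.trans h2)

theorem vb_near : ∃ C : ℝ, 5 ≤ C ∧ ∀ x y s θ : ℝ, 0 ≤ s → s ≤ 3 / 2 → |x| ≤ 3 → s ≠ x →
    -VV x y s θ ≤ log (C / |s - x|) ∧ VV x y s θ ≤ C := by
  have h5 : 6 ≤ exp 5 := by linarith [add_one_le_exp (5 : ℝ)]
  refine ⟨6 * exp 5, by linarith, fun x y s θ h0 h1 hx hsx => ?_⟩
  have hx' := abs_le.1 hx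
  have hne : s - x ≠ 0 := sub_ne_zero.2 hsx
  have hp : 0 < |s - x| := abs_pos.2 hne
  have hle : ∀ τ β : ℝ, exp τ ≤ 5 → ell τ β ≤ 5 := by
    intro τ β h
    have h2 := Pool.Agent.TX1.ell_le τ β
    have h3 := Real.log_le_sub_one_of_pos (by linarith [exp_pos τ] : (0:ℝ) < 1 + exp τ)
    linarith
  have hC : log (6 * exp 5 / |s - x|) = log (6 / |s - x|) + 5 := by
    rw [show 6 * exp 5 / |s - x| = 6 / |s - x| * exp 5 by ring, log_mul (by positivity) (exp_pos _).ne', log_exp]
  rw [hC]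
  unfold VV
  split_ifs with hxn
  · have e : |x - s| = |s - x| := abs_sub_comm _ _
    have h2 := nell (τ := x - s) (θ - y) (by rw [abs_le]; constructor <;> linarith) (by
      intro h; exact hne (by linarith))
    rw [e] at h2
    have h3 := hle (x - s) (θ - y) (kn h0 hxn).2
    constructor <;> linarith
  · have hx0 : 0 ≤ x := not_lt.1 hxn
    have h2 := nell (τ := s - x) (θ - y) (by rw [abs_le]; constructor <;> linarith) hne
    have h4 := (kp (x := x) h1 hx0).2
    have h3 := hle (s - x) (θ - y) h4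
    have c1 := cos_le_one (θ - y)
    have c2 := neg_one_le_cos (θ - y)
    have h6 := exp_pos (s - x)
    constructor <;> nlinarith

private theorem ell_L1 (τ a : ℝ) : ∫ β in a..(a + 2 * π), |ell τ β| ≤ 2 * π * exp τ + 2 * π * exp (-|τ|) := by
  have hpi := Real.pi_pos
  have h1 := Pool.Agent.TX1.ell_ii τ a (a + 2 * π)
  have hp : IntervalIntegrable (fun β => max (ell τ β) 0) volume a (a + 2 * π) := by
    have h2 : (fun β => max (ell τ β) 0) = fun β => (ell τ β + |ell τ β|) / 2 := by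
      funext β
      rcases le_total (ell τ β) 0 with h | h
      · rw [max_eq_right h, abs_of_nonpos h]; ring
      · rw [max_eq_left h, abs_of_nonneg h]; ring
    rw [h2]
    exact (h1.add h1.abs).div_const 2
  have hq : IntervalIntegrable (fun β => max (-ell τ β) 0) volume a (a + 2 * π) := by
    have h2 : (fun β => max (-ell τ β) 0) = fun β => (-ell τ β + |ell τ β|) / 2 := by
      funext β
      rcases le_total (ell τ β) 0 with h | h
      · rw [max_eq_left (by linarith), abs_of_nonpos h]; ring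
      · rw [max_eq_right (by linarith), abs_of_nonneg h]; ring
    rw [h2]
    exact (h1.neg.add h1.abs).div_const 2
  have e : (fun β => |ell τ β|) = fun β => max (ell τ β) 0 + max (-ell τ β) 0 := by
    funext β
    rcases le_total (ell τ β) 0 with h | h
    · rw [max_eq_right h, max_eq_left (by linarith), abs_of_nonpos h]; ring
    · rw [max_eq_left h, max_eq_right (by linarith), abs_of_nonneg h]; ring
  rw [e, intervalIntegral.integral_add hp hq]
  have h2 := Pool.Agent.TX1.ell_pos_int τ a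
  have h3 := Pool.Agent.TX1.ell_neg_int τ a
  have h4 := Real.log_le_sub_one_of_pos (by linarith [exp_pos τ] : (0:ℝ) < 1 + exp τ)
  have h5 : 2 * π * log (1 + exp τ) ≤ 2 * π * exp τ := by
    apply mul_le_mul_of_nonneg_left _ (by positivity)
    linarith
  linarith

theorem vb_L1 : ∃ C : ℝ, 0 < C ∧ ∀ x y s : ℝ, 0 ≤ s → s ≤ 3 / 2 →
    (∀ a b, IntervalIntegrable (VV x y s) volume a b) ∧ ∀ a, ∫ θ in a..(a + 2 * π), |VV x y s θ| ≤ C * kw x := by
  have hpi := Real.pi_pos
  refine ⟨5000 * π + 22 * π * exp 6, by positivity, fun x y s h0 h1 => ?_⟩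
  have hk := kw_pos x
  have hi : ∀ τ a b : ℝ, IntervalIntegrable (fun θ => ell τ (θ - y)) volume a b := by
    intro τ a b
    have := (Pool.Agent.TX1.ell_ii τ (a - y) (b - y)).comp_sub_right y
    simpa using this
  have hint : ∀ a b, IntervalIntegrable (VV x y s) volume a b := by
    intro a b
    by_cases hx : x < 0
    · have e : VV x y s = fun t => ell (x - s) (t - y) := by
        funext t
        unfold VV
        rw [if_pos hx]
      rw [e]
      exact hi _ _ _
    · have e : VV x y s = fun t => ell (s - x) (t - y) + exp (s - x) * cos (t - y) := by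
        funext t
        unfold VV
        rw [if_neg hx]
      rw [e]
      exact (hi _ _ _).add (Continuous.intervalIntegrable (by fun_prop) _ _)
  refine ⟨hint, fun a => ?_⟩
  have hl : ∀ τ : ℝ, ∫ θ in a..(a + 2 * π), |ell τ (θ - y)| ≤ 2 * π * exp τ + 2 * π * exp (-|τ|) := by
    intro τ
    have h2 : ∫ θ in a..(a + 2 * π), |ell τ (θ - y)| = ∫ θ in (a - y)..(a + 2 * π - y), |ell τ θ| :=
      intervalIntegral.integral_comp_sub_right (fun θ => |ell τ θ|) y
    rw [h2, show a + 2 * π - y = a - y + 2 * π by ring]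
    exact ell_L1 τ _
  by_cases hx : x < 0
  · have e : VV x y s = fun t => ell (x - s) (t - y) := by
      funext t
      unfold VV
      rw [if_pos hx]
    rw [e]
    refine (hl _).trans ?_
    have h2 := (kn h0 hx).1
    rw [abs_of_neg (by linarith), neg_neg]
    have h6 : 0 < exp 6 := exp_pos 6
    have h7 : 0 ≤ 22 * π * exp 6 * kw x := by positivity
    have h8 : 2 * π * exp (x - s) ≤ 2 * π * kw x := by gcongr
    nlinarith
  · have hx0 : 0 ≤ x := not_lt.1 hx
    by_cases h3 : 3 < x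
    · have h4 : ∀ θ, |VV x y s θ| ≤ 2500 * kw x := fun θ =>
        core_abs h0 h1 (nfar h0 h1 (by rw [abs_of_nonneg hx0]; exact h3))
      calc ∫ θ in a..(a + 2 * π), |VV x y s θ| ≤ ∫ θ in a..(a + 2 * π), 2500 * kw x := by
            apply intervalIntegral.integral_mono_on (by linarith) (hint _ _).abs intervalIntegrable_const
            intro θ _
            exact h4 θ
        _ = 5000 * π * kw x := by
            rw [intervalIntegral.integral_const, smul_eq_mul]
            ring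
        _ ≤ _ := by
            have : 0 ≤ 22 * π * exp 6 * kw x := by positivity
            linarith
    · have e : VV x y s = fun t => ell (s - x) (t - y) + exp (s - x) * cos (t - y) := by
        funext t
        unfold VV
        rw [if_neg hx]
      have h4 := (kp (x := x) h1 hx0).2
      have h5 := exp_pos (s - x)
      have h6 : exp (-6) ≤ kw x := by
        rw [kw_nonneg hx0]
        apply exp_le_exp.2
        linarith
      have h7 : exp 6 * exp (-6) = 1 := by rw [← exp_add]; simp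
      calc ∫ θ in a..(a + 2 * π), |VV x y s θ|
          ≤ ∫ θ in a..(a + 2 * π), (|ell (s - x) (θ - y)| + 5) := by
            apply intervalIntegral.integral_mono_on (by linarith) (hint _ _).abs
              ((hi _ _ _).abs.add intervalIntegrable_const)
            intro θ _
            rw [e]
            refine (abs_add_le _ _).trans ?_
            have : |exp (s - x) * cos (θ - y)| ≤ 5 := by
              rw [abs_mul, abs_of_pos h5]
              have := abs_cos_le_one (θ - y)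
              nlinarith [abs_nonneg (cos (θ - y))]
            linarith
        _ = (∫ θ in a..(a + 2 * π), |ell (s - x) (θ - y)|) + 10 * π := by
            rw [intervalIntegral.integral_add (hi _ _ _).abs intervalIntegrable_const,
              intervalIntegral.integral_const, smul_eq_mul]
            ring
        _ ≤ 22 * π := by
            have h8 := hl (s - x)
            have h9 : exp (-|s - x|) ≤ 1 := by
              rw [exp_le_one_iff]
              linarith [abs_nonneg (s - x)]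
            nlinarith
        _ = 22 * π * exp 6 * exp (-6) := by rw [mul_assoc, h7, mul_one]
        _ ≤ 22 * π * exp 6 * kw x := by gcongr
        _ ≤ _ := by
            have : 0 ≤ 5000 * π * kw x := by positivity
            linarith


/-- the real part of `w / (1 - w)` -/
private noncomputable def QQ (τ β : ℝ) : ℝ := (pt τ β / (1 - pt τ β)).re

private theorem sub_ne {τ : ℝ} (h : τ ≠ 0) (β : ℝ) : 1 - pt τ β ≠ 0 :=
  norm_ne_zero_iff.1 (Pool.Agent.TX1.one_sub_pt_ne h β)

private theorem QQ_cont {τ : ℝ} (h : τ ≠ 0) : Continuous (QQ τ) := by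
  unfold QQ
  have h1 : Continuous fun β : ℝ => pt τ β := by
    unfold pt
    fun_prop
  exact Complex.continuous_re.comp (h1.div (continuous_const.sub h1) (sub_ne h))

private theorem QQ_low {τ : ℝ} (h : τ < 0) (β : ℝ) : |QQ τ β| ≤ QQ τ β + 1 := by
  have hne := sub_ne h.ne β
  have h1 : QQ τ β = (‖1 - pt τ β‖ ^ 2)⁻¹ * (1 - exp τ ^ 2) / 2 - 1 / 2 := by
    unfold QQ
    rw [Complex.div_re, ← Complex.normSq_eq_norm_sq]
    have h2 : Complex.normSq (1 - pt τ β) ≠ 0 := by
      rw [Ne, Complex.normSq_eq_zero]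
      exact hne
    have h3 : Complex.normSq (1 - pt τ β) = 1 - 2 * (pt τ β).re + exp τ ^ 2 := by
      have h4 : (pt τ β).re ^ 2 + (pt τ β).im ^ 2 = exp τ ^ 2 := by
        rw [← Pool.Agent.TX1.pt_norm τ β, ← Complex.normSq_eq_norm_sq, Complex.normSq_apply]
        ring
      rw [Complex.normSq_apply]
      simp
      nlinarith
    have h4 : (pt τ β).re ^ 2 + (pt τ β).im ^ 2 = exp τ ^ 2 := by
      rw [← Pool.Agent.TX1.pt_norm τ β, ← Complex.normSq_eq_norm_sq, Complex.normSq_apply]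
      ring
    rw [h3] at h2 ⊢
    simp only [Complex.sub_re, Complex.one_re, Complex.sub_im, Complex.one_im, zero_sub]
    have h5 : (pt τ β).im ^ 2 = exp τ ^ 2 - (pt τ β).re ^ 2 := by linarith
    rw [← add_div, show (pt τ β).re * (1 - (pt τ β).re) + (pt τ β).im * -(pt τ β).im =
      (pt τ β).re - (pt τ β).re ^ 2 - (pt τ β).im ^ 2 by ring, h5, inv_mul_eq_div, div_div,
      div_sub_div _ _ (by positivity) (by norm_num), div_eq_div_iff h2 (by positivity)]
    ring
  have h2 : 0 ≤ (‖1 - pt τ β‖ ^ 2)⁻¹ * (1 - exp τ ^ 2) / 2 := by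
    have : exp τ < 1 := by rw [exp_lt_one_iff]; exact h
    have h3 : 0 ≤ 1 - exp τ ^ 2 := by nlinarith [exp_pos τ]
    positivity
  rw [abs_le]
  constructor <;> linarith

private theorem QQ_int {τ : ℝ} (h : τ < 0) (a : ℝ) : ∫ β in a..(a + 2 * π), QQ τ β = 0 := by
  have hper : Function.Periodic (QQ τ) (2 * π) := by
    intro β
    unfold QQ
    rw [Pool.Agent.TX1.pt_per]
  rw [hper.intervalIntegral_add_eq a 0, zero_add]
  have he1 : exp τ < 1 := by rw [exp_lt_one_iff]; exact h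
  have hd : DiffContOnCl ℂ (fun z : ℂ => z / (1 - z)) (Metric.ball 0 |exp τ|) := by
    rw [abs_of_pos (exp_pos τ)]
    apply DifferentiableOn.diffContOnCl
    intro z hz
    have hz1 : ‖z‖ ≤ exp τ := by
      have := Metric.closure_ball_subset_closedBall hz
      simpa using this
    have hz2 : 1 - z ≠ 0 := by
      intro h0
      have : z = 1 := (sub_eq_zero.1 h0).symm
      rw [this, norm_one] at hz1
      linarith
    exact (differentiableAt_id.div (differentiableAt_id.const_sub 1) hz2).differentiableWithinAt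
  have hc := hd.circleAverage
  rw [circleAverage_def] at hc
  have hpi := Real.pi_pos
  have hI : ∫ β in (0 : ℝ)..(2 * π), (pt τ β / (1 - pt τ β)) = 0 := by
    have e : ∀ β : ℝ, circleMap 0 (exp τ) β = pt τ β := by
      intro β
      unfold circleMap pt
      rw [zero_add, Complex.exp_add, Complex.ofReal_exp]
    simp only [e, zero_div] at hc
    rcases smul_eq_zero.1 hc with h1 | h1
    · exfalso
      have : (2 * π)⁻¹ ≠ 0 := by positivity
      exact this h1
    · exact h1
  have h1 : Continuous fun β : ℝ => pt τ β := by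
    unfold pt
    fun_prop
  have h2 : IntervalIntegrable (fun β : ℝ => pt τ β / (1 - pt τ β)) volume 0 (2 * π) :=
    (h1.div (continuous_const.sub h1) (sub_ne h.ne)).intervalIntegrable _ _
  have h3 := Complex.reCLM.intervalIntegral_comp_comm h2
  rw [hI] at h3
  unfold QQ
  simpa using h3

private theorem QQ_L1 {τ : ℝ} (h : τ < 0) (a : ℝ) : ∫ β in a..(a + 2 * π), |QQ τ β| ≤ 2 * π := by
  have hpi := Real.pi_pos
  have hc := QQ_cont h.ne
  calc ∫ β in a..(a + 2 * π), |QQ τ β| ≤ ∫ β in a..(a + 2 * π), (QQ τ β + 1) := by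
        apply intervalIntegral.integral_mono_on (by linarith) (hc.abs.intervalIntegrable _ _)
          ((hc.add continuous_const).intervalIntegrable _ _)
        intro β _
        exact QQ_low h β
    _ = 2 * π := by
        rw [intervalIntegral.integral_add (hc.intervalIntegrable _ _) intervalIntegrable_const, QQ_int h,
          intervalIntegral.integral_const, smul_eq_mul]
        ring

private theorem VS_neg {x : ℝ} (hx : x < 0) (y : ℝ) : VS x y 0 = fun θ => QQ x (θ - y) := by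
  funext θ
  unfold VS QQ
  rw [if_pos hx, sub_zero]

private theorem VS_pos {x : ℝ} (hx : 0 < x) (y : ℝ) :
    VS x y 0 = fun θ => -QQ (-x) (θ - y) + exp (-x) * cos (θ - y) := by
  funext θ
  unfold VS QQ
  rw [if_neg (not_lt.2 hx.le), zero_sub]
  have hne := sub_ne (by linarith : -x ≠ 0) (θ - y)
  have h1 : pt (-x) (θ - y) ^ 2 / (1 - pt (-x) (θ - y)) = pt (-x) (θ - y) / (1 - pt (-x) (θ - y)) - pt (-x) (θ - y) := by
    field_simp
    ring
  rw [h1, Complex.sub_re]
  have h2 : (pt (-x) (θ - y)).re = exp (-x) * cos (θ - y) := by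
    unfold pt
    simp [Complex.exp_re]
  rw [h2]
  ring

/-- pointwise bound away from the zero -/
private theorem VS_abs {x y θ : ℝ} (hx : x ≠ 0) (h : 1 / 4 ≤ vN (-|x|) (θ - y)) : |VS x y 0 θ| ≤ 2 * kw x := by
  have hn : ∀ w : ℂ, 1 / 4 ≤ ‖1 - w‖ ^ 2 → 1 / 2 ≤ ‖1 - w‖ := by
    intro w hw
    nlinarith [norm_nonneg (1 - w)]
  rw [← vN_eq] at h
  have h2 := hn _ h
  have hk := kw_pos x
  unfold VS
  rcases lt_or_gt_of_ne hx with h0 | h0
  · rw [if_pos h0, sub_zero, kw_neg h0.le]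
    rw [abs_of_neg h0, neg_neg] at h2
    refine (Complex.abs_re_le_norm _).trans ?_
    rw [norm_div, Pool.Agent.TX1.pt_norm, div_le_iff₀ (by linarith)]
    nlinarith [exp_pos x]
  · rw [if_neg (not_lt.2 h0.le), zero_sub, kw_nonneg h0.le, abs_neg]
    rw [abs_of_pos h0] at h2
    refine (Complex.abs_re_le_norm _).trans ?_
    rw [norm_div, norm_pow, Pool.Agent.TX1.pt_norm, div_le_iff₀ (by linarith)]
    have h3 : exp (-x) ^ 2 = exp (-(2 * x)) := by
      rw [← exp_nat_mul]
      congr 1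
      push_cast
      ring
    rw [h3]
    nlinarith [exp_pos (-(2 * x))]

theorem vs_L1 : ∃ C : ℝ, 0 < C ∧ ∀ x y : ℝ, x ≠ 0 →
    Continuous (VS x y 0) ∧ ∀ a, ∫ θ in a..(a + 2 * π), |VS x y 0 θ| ≤ C * kw x := by
  have hpi := Real.pi_pos
  refine ⟨64 * π, by positivity, fun x y hx => ?_⟩
  have hk := kw_pos x
  have hcont : Continuous (VS x y 0) := by
    rcases lt_or_gt_of_ne hx with h0 | h0
    · rw [VS_neg h0]
      exact (QQ_cont h0.ne).comp (continuous_id.sub continuous_const)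
    · rw [VS_pos h0]
      exact ((QQ_cont (by linarith : -x ≠ 0)).comp (continuous_id.sub continuous_const)).neg.add
        (by fun_prop)
  refine ⟨hcont, fun a => ?_⟩
  by_cases hr : exp (-|x|) ≤ 1 / 4
  · calc ∫ θ in a..(a + 2 * π), |VS x y 0 θ| ≤ ∫ θ in a..(a + 2 * π), 2 * kw x := by
          apply intervalIntegral.integral_mono_on (by linarith) (hcont.abs.intervalIntegrable _ _)
            intervalIntegrable_const
          intro θ _
          exact VS_abs hx (vN_A hr)
      _ = 4 * π * kw x := by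
          rw [intervalIntegral.integral_const, smul_eq_mul]
          ring
      _ ≤ _ := by gcongr; norm_num
  · have hr' : 1 / 4 ≤ exp (-|x|) := (not_le.1 hr).le
    have hsh : ∀ τ : ℝ, τ < 0 → ∫ θ in a..(a + 2 * π), |QQ τ (θ - y)| ≤ 2 * π := by
      intro τ hτ
      have h2 : ∫ θ in a..(a + 2 * π), |QQ τ (θ - y)| = ∫ θ in (a - y)..(a + 2 * π - y), |QQ τ θ| :=
        intervalIntegral.integral_comp_sub_right (fun θ => |QQ τ θ|) y
      rw [h2, show a + 2 * π - y = a - y + 2 * π by ring]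
      exact QQ_L1 hτ _
    rcases lt_or_gt_of_ne hx with h0 | h0
    · rw [VS_neg h0]
      refine (hsh x h0).trans ?_
      rw [kw_neg h0.le]
      rw [abs_of_neg h0, neg_neg] at hr'
      nlinarith
    · have hqc : Continuous fun θ => |QQ (-x) (θ - y)| :=
        ((QQ_cont (by linarith : -x ≠ 0)).comp (continuous_id.sub continuous_const)).abs
      have h4 : 1 / 16 ≤ kw x := by
        rw [kw_nonneg h0.le]
        rw [abs_of_pos h0] at hr'
        have h3 : exp (-(2 * x)) = exp (-x) ^ 2 := by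
          rw [← exp_nat_mul]
          congr 1
          push_cast
          ring
        rw [h3]
        nlinarith
      have h5 : exp (-x) ≤ 1 := by rw [exp_le_one_iff]; linarith
      have h6 := exp_pos (-x)
      calc ∫ θ in a..(a + 2 * π), |VS x y 0 θ| ≤ ∫ θ in a..(a + 2 * π), (|QQ (-x) (θ - y)| + 1) := by
            apply intervalIntegral.integral_mono_on (by linarith) (hcont.abs.intervalIntegrable _ _)
              ((hqc.add continuous_const).intervalIntegrable _ _)
            intro θ _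
            rw [VS_pos h0]
            refine (abs_add_le _ _).trans ?_
            rw [abs_neg]
            have : |exp (-x) * cos (θ - y)| ≤ 1 := by
              rw [abs_mul, abs_of_pos h6]
              have := abs_cos_le_one (θ - y)
              nlinarith [abs_nonneg (cos (θ - y))]
            show _ ≤ |QQ (-x) (θ - y)| + 1
            linarith
        _ = (∫ θ in a..(a + 2 * π), |QQ (-x) (θ - y)|) + 2 * π := by
            rw [intervalIntegral.integral_add (hqc.intervalIntegrable _ _) intervalIntegrable_const,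
              intervalIntegral.integral_const, smul_eq_mul]
            ring
        _ ≤ 4 * π := by linarith [hsh (-x) (by linarith)]
        _ ≤ 64 * π * kw x := by nlinarith

theorem vs_sup : ∃ C : ℝ, 0 < C ∧ ∀ x y θ : ℝ, x ≠ 0 → cos (θ - y) ≤ 1 / 2 →
    |VS x y 0 θ| + |VV x y 0 θ| ≤ C * kw x := by
  refine ⟨2502, by norm_num, fun x y θ hx h => ?_⟩
  have h1 := VS_abs (y := y) (θ := θ) hx (vN_B h)
  have h2 := core_abs (x := x) (y := y) (s := 0) (θ := θ) le_rfl (by norm_num)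
    ⟨fun _ => vN_B h, fun _ => vN_B h⟩
  linarith

end Pool.Agent.THX
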