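import Pool.Agent.THX.ChainD
import Pool.Agent.THX.VBd
import Pool.Agent.TX1.Step

/-!
# THX, module FrSum: sums over the zeros in the regime

`JJ f R s1`: `TM f (s+1) ≤ exp (1 + 1/(R+8)) TM f s`, `TN f s ≤ 3 exp (-R/4) TM f s` for `s ≥ s1`, `TM f` nondecreasing.
`fr_below`: `count` (with `s = τ`, `τ + 1 ≤ S`): `2π #{x i ≤ τ} ≤ TN f (τ+1) ≤ 3 exp (-R/4) TM f (τ+1) ≤ 9 exp (-R/4) TM f τ`.
`fr_lin`: `TN_fac`.  `fr_sum`: `x i ≤ τ`: `kw ≤ 1`, `fr_below`; `x i > τ`: layer cake, `exp (-2u) ≤ ∑_{m ≥ 0} exp (-2m) 1_{u ≤ m+1}`, `#{x i ≤ τ + m + 1} ≤ TN f (τ+m+2)/2π` for `τ+m+2 ≤ S`, and for the largest `m`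
all zeros: `n ≤ TN f (S+1)/2π` (`Fac.hn`); `TM f (τ+m+2) ≤ exp (1.02 (m+3)) TM f τ`, `∑ exp (-2m + 1.02 m)` converges.
`fr_grow`: iterate: `TM f t ≤ exp ((1+1/(R+8)) ⌈t-s⌉) TM f s`.
-/

set_option autoImplicit false
set_option linter.all false

namespace Pool.Agent.THX

open Real MeasureTheory Set Filter Topology
open Pool.Agent.TX1 (pt ell TM TN Fac HM Gr JJ)

theorem fr_grow {f : ℂ → ℂ} (hf : Differentiable ℂ f) (h0 : f 0 = 1) {R s1 : ℝ} (hR : 80 ≤ R) (hJ : JJ f R s1)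
    {s t : ℝ} (hs : s1 ≤ s) (hst : s ≤ t) : TM f t ≤ 3 * exp (51 / 50 * (t - s)) * TM f s := by
  set q : ℝ := 1 + 1 / (R + 8) with hq
  have hq1 : 1 / (R + 8) ≤ 1 / 88 := by
    apply one_div_le_one_div_of_le <;> linarith
  have hq0 : 0 ≤ 1 / (R + 8) := by
    have : 0 < R + 8 := by linarith
    positivity
  have hit : ∀ m : ℕ, TM f (s + m) ≤ exp (m * q) * TM f s := by
    intro m
    induction m with
    | zero => simp
    | succ m ih =>
      have h1 := (hJ (s + m) (by linarith [Nat.cast_nonneg (α := ℝ) m])).1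
      have h2 : s + ((m + 1 : ℕ) : ℝ) = s + m + 1 := by push_cast; ring
      rw [h2]
      refine h1.trans ?_
      have h3 : exp (((m + 1 : ℕ) : ℝ) * q) = exp q * exp (m * q) := by
        rw [← Real.exp_add]
        congr 1
        push_cast
        ring
      rw [h3, mul_assoc]
      exact mul_le_mul_of_nonneg_left ih (exp_pos _).le
  have h1 : t ≤ s + (⌈t - s⌉₊ : ℝ) := by
    have := Nat.le_ceil (t - s)
    linarith
  have h2 : (⌈t - s⌉₊ : ℝ) ≤ t - s + 1 := (Nat.ceil_lt_add_one (by linarith)).le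
  refine (Pool.Agent.TX1.TM_mono hf h1).trans ((hit _).trans ?_)
  have hT := Pool.Agent.TX1.TM_nonneg f s
  refine mul_le_mul_of_nonneg_right ?_ hT
  have h3 : (⌈t - s⌉₊ : ℝ) * q ≤ 51 / 50 * (t - s) + 89 / 88 := by
    have hts : 0 ≤ t - s := by linarith
    have h4 : (⌈t - s⌉₊ : ℝ) * q ≤ (t - s + 1) * q :=
      mul_le_mul_of_nonneg_right h2 (by rw [hq]; linarith)
    have h5 : (t - s + 1) * q ≤ (t - s + 1) * (89 / 88) :=
      mul_le_mul_of_nonneg_left (by rw [hq]; linarith) (by linarith)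
    nlinarith
  refine (exp_le_exp.mpr h3).trans ?_
  rw [Real.exp_add, mul_comm]
  refine mul_le_mul_of_nonneg_right ?_ (exp_pos _).le
  have h6 : (89 / 88 : ℝ) = 1 + 1 / 88 := by norm_num
  rw [h6, Real.exp_add]
  have h7 := Real.exp_one_lt_d9
  have h8 : exp (1 / 88) ≤ 1.02 := by
    have h9 : (1 / 88 : ℝ) ≤ log 1.02 := by
      have h10 := Real.one_sub_inv_le_log_of_pos (by norm_num : (0 : ℝ) < 1.02)
      refine le_trans ?_ h10
      norm_num
    calc exp (1 / 88) ≤ exp (log 1.02) := exp_le_exp.mpr h9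
      _ = 1.02 := exp_log (by norm_num)
  have h11 : 0 < exp (1 : ℝ) := exp_pos _
  nlinarith [exp_pos (1 / 88 : ℝ)]

private theorem kw_le_one (u : ℝ) : kw u ≤ 1 := by
  unfold kw
  rw [Real.exp_le_one_iff]
  rcases le_total u 0 with h | h
  · exact (min_le_left _ _).trans h
  · exact (min_le_right _ _).trans (by linarith)

private theorem kw_le_exp (u : ℝ) : kw u ≤ exp (-(2 * u)) := by
  unfold kw
  exact exp_le_exp.mpr (min_le_right _ _)

private theorem fr_kw {u : ℝ} {M : ℕ} (hM : 1 ≤ M) (hu : u ≤ M) :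
    kw u ≤ ∑ m ∈ Finset.range M, exp (-(2 * (m : ℝ))) * (if u ≤ m + 1 then 1 else 0) := by
  classical
  have key : ∀ m0 : ℕ, m0 < M → u ≤ m0 + 1 → kw u ≤ exp (-(2 * (m0 : ℝ))) →
      kw u ≤ ∑ m ∈ Finset.range M, exp (-(2 * (m : ℝ))) * (if u ≤ m + 1 then 1 else 0) := by
    intro m0 h1 h2 h3
    have h4 : exp (-(2 * (m0 : ℝ))) * (if u ≤ m0 + 1 then 1 else 0)
        ≤ ∑ m ∈ Finset.range M, exp (-(2 * (m : ℝ))) * (if u ≤ m + 1 then 1 else 0) :=
      Finset.single_le_sum (f := fun m : ℕ => exp (-(2 * (m : ℝ))) * (if u ≤ m + 1 then (1 : ℝ) else 0))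
        (fun m _ => by positivity) (Finset.mem_range.mpr h1)
    rw [if_pos h2, mul_one] at h4
    exact h3.trans h4
  rcases le_or_gt u 1 with h | h
  · refine key 0 (by omega) (by simpa using h) ?_
    simpa using kw_le_one u
  · have hc : 1 ≤ ⌈u⌉₊ := Nat.one_le_iff_ne_zero.mpr (Nat.ceil_pos.mpr (by linarith)).ne'
    have h1 : ((⌈u⌉₊ - 1 : ℕ) : ℝ) = (⌈u⌉₊ : ℝ) - 1 := by
      rw [Nat.cast_sub hc, Nat.cast_one]
    have h2 : ⌈u⌉₊ ≤ M := Nat.ceil_le.mpr hu
    refine key (⌈u⌉₊ - 1) (by omega) ?_ ?_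
    · rw [h1]
      linarith [Nat.le_ceil u]
    · refine (kw_le_exp u).trans (exp_le_exp.mpr ?_)
      rw [h1]
      linarith [(Nat.ceil_lt_add_one (by linarith : 0 ≤ u))]

theorem fr_sum : ∃ C : ℝ, 1 ≤ C ∧ ∀ (f : ℂ → ℂ) (R s1 S τ : ℝ) (n : ℕ) (x y : Fin n → ℝ) (h : ℂ → ℂ), Differentiable ℂ f → f 0 = 1 →
    80 ≤ R → JJ f R s1 → Fac f S n x y h → s1 ≤ τ → τ + 3 ≤ S →
    (∑ i, kw (x i - τ)) ≤ C * exp (-(R / 4)) * TM f τ ∧
    (∑ i, max (-(x i - τ)) 0) ≤ C * exp (-(R / 4)) * TM f τ ∧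
    nB (fun i => x i - τ) ≤ C * exp (-(R / 4)) * TM f τ ∧
    (n : ℝ) ≤ C * TM f S := by
  classical
  have hr1 : exp (-(49 / 50 : ℝ)) < 1 := by rw [Real.exp_lt_one_iff]; norm_num
  set G : ℝ := (1 - exp (-(49 / 50 : ℝ)))⁻¹ with hG
  have hG0 : 0 < G := inv_pos.mpr (by linarith)
  refine ⟨2 * exp (51 / 50 * 3) * G + 2, by nlinarith [exp_pos (51 / 50 * 3 : ℝ), mul_pos (exp_pos (51 / 50 * 3 : ℝ)) hG0], ?_⟩
  intro f R s1 S τ n x y h hf h0 hR hJ hF hs1 hS
  set W : ℝ := exp (-(R / 4)) * TM f τ with hW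
  have hTM := Pool.Agent.TX1.TM_nonneg f
  have hW0 : 0 ≤ W := mul_nonneg (exp_pos _).le (hTM τ)
  have hpi : (3 : ℝ) < π := pi_gt_three
  have hCW : 2 * W ≤ (2 * exp (51 / 50 * 3) * G + 2) * exp (-(R / 4)) * TM f τ := by
    have h1 : (2 * exp (51 / 50 * 3) * G + 2) * exp (-(R / 4)) * TM f τ
        = 2 * exp (51 / 50 * 3) * G * W + 2 * W := by rw [hW]; ring
    rw [h1]
    have : 0 ≤ 2 * exp (51 / 50 * 3) * G * W := by positivity
    linarith
  -- the bound for `TN` at a later time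
  have hTNt : ∀ t, τ ≤ t → TN f t ≤ 9 * exp (51 / 50 * (t - τ)) * W := by
    intro t ht
    have h1 := (hJ t (hs1.trans ht)).2
    have h2 := fr_grow hf h0 hR hJ hs1 ht
    have h3 : 3 * exp (-(R / 4)) * TM f t ≤ 3 * exp (-(R / 4)) * (3 * exp (51 / 50 * (t - τ)) * TM f τ) :=
      mul_le_mul_of_nonneg_left h2 (by positivity)
    refine h1.trans (h3.trans (le_of_eq ?_))
    rw [hW]; ring
  -- the counting function
  have hcnt : ∀ m : ℕ, ((Finset.univ.filter (fun i => x i ≤ τ + m + 1)).card : ℝ)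
      ≤ 2 * exp (51 / 50 * (m + 3)) * W := by
    intro m
    have hm0 : (0 : ℝ) ≤ m := Nat.cast_nonneg m
    rcases le_or_gt (τ + m + 2) S with hm | hm
    · have h1 := Pool.Agent.TX1.count hF (s := τ + m + 1) (by linarith)
      have h2 := hTNt (τ + m + 1 + 1) (by linarith)
      have h3 : exp (51 / 50 * (τ + m + 1 + 1 - τ)) ≤ exp (51 / 50 * (m + 3)) := exp_le_exp.mpr (by linarith)
      have h4 : 9 * exp (51 / 50 * (τ + m + 1 + 1 - τ)) * W ≤ 9 * exp (51 / 50 * (m + 3)) * W :=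
        mul_le_mul_of_nonneg_right (by linarith) hW0
      have h5 : 0 ≤ exp (51 / 50 * ((m : ℝ) + 3)) * W := by positivity
      have h6 : (0 : ℝ) ≤ ((Finset.univ.filter (fun i => x i ≤ τ + m + 1)).card : ℝ) := by positivity
      nlinarith
    · have h1 := hF.hn
      have h2 := hTNt (S + 1) (by linarith)
      have h3 : exp (51 / 50 * (S + 1 - τ)) ≤ exp (51 / 50 * (m + 3)) := exp_le_exp.mpr (by linarith)
      have h4 : 9 * exp (51 / 50 * (S + 1 - τ)) * W ≤ 9 * exp (51 / 50 * (m + 3)) * W :=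
        mul_le_mul_of_nonneg_right (by linarith) hW0
      have h5 : 0 ≤ exp (51 / 50 * ((m : ℝ) + 3)) * W := by positivity
      have h6 : ((Finset.univ.filter (fun i => x i ≤ τ + m + 1)).card : ℝ) ≤ n := by
        have := Finset.card_filter_le (Finset.univ : Finset (Fin n)) (fun i => x i ≤ τ + m + 1)
        rw [Finset.card_univ, Fintype.card_fin] at this
        exact_mod_cast this
      have h7 : (0 : ℝ) ≤ n := Nat.cast_nonneg n
      nlinarith
  refine ⟨?_, ?_, ?_, ?_⟩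
  · -- the weights
    set M : ℕ := ⌈S - τ⌉₊ with hM
    have hM1 : 1 ≤ M := Nat.one_le_iff_ne_zero.mpr (Nat.ceil_pos.mpr (by linarith)).ne'
    have hxM : ∀ i, x i - τ ≤ M := by
      intro i
      have h1 := hF.hx i
      have h2 := Nat.le_ceil (S - τ)
      rw [← hM] at h2
      linarith
    have h1 : ∑ i, kw (x i - τ)
        ≤ ∑ i, ∑ m ∈ Finset.range M, exp (-(2 * (m : ℝ))) * (if x i - τ ≤ m + 1 then 1 else 0) :=
      Finset.sum_le_sum fun i _ => fr_kw hM1 (hxM i)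
    rw [Finset.sum_comm] at h1
    have h2 : ∀ m ∈ Finset.range M, ∑ i, exp (-(2 * (m : ℝ))) * (if x i - τ ≤ m + 1 then (1 : ℝ) else 0)
        ≤ (2 * exp (51 / 50 * 3) * W) * exp (-(49 / 50 : ℝ)) ^ m := by
      intro m _
      rw [← Finset.mul_sum, Finset.sum_boole]
      have h3 : (Finset.univ.filter (fun i => x i - τ ≤ (m : ℝ) + 1))
          = Finset.univ.filter (fun i => x i ≤ τ + m + 1) := by
        apply Finset.filter_congr
        intro i _
        constructor <;> intro h <;> linarith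
      rw [h3]
      refine (mul_le_mul_of_nonneg_left (hcnt m) (exp_pos _).le).trans (le_of_eq ?_)
      have h4 : exp (51 / 50 * ((m : ℝ) + 3)) = exp (51 / 50 * 3) * exp (51 / 50 * m) := by
        rw [← Real.exp_add]; congr 1; ring
      have h5 : exp (-(49 / 50 : ℝ)) ^ m = exp (-(2 * (m : ℝ))) * exp (51 / 50 * m) := by
        rw [← Real.exp_nat_mul, ← Real.exp_add]; congr 1; ring
      rw [h4, h5]
      ring
    have h3 := h1.trans (Finset.sum_le_sum h2)
    rw [← Finset.mul_sum] at h3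
    have h4 : ∑ m ∈ Finset.range M, exp (-(49 / 50 : ℝ)) ^ m ≤ G :=
      sum_le_hasSum _ (fun m _ => by positivity) (hasSum_geometric_of_lt_one (exp_pos _).le hr1)
    have h5 : 2 * exp (51 / 50 * 3) * W * ∑ m ∈ Finset.range M, exp (-(49 / 50 : ℝ)) ^ m
        ≤ 2 * exp (51 / 50 * 3) * W * G := mul_le_mul_of_nonneg_left h4 (by positivity)
    refine h3.trans (h5.trans ?_)
    have h6 : (2 * exp (51 / 50 * 3) * G + 2) * exp (-(R / 4)) * TM f τ
        = 2 * exp (51 / 50 * 3) * W * G + 2 * W := by rw [hW]; ring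
    rw [h6]
    linarith
  · have h1 := Pool.Agent.TX1.TN_fac hF (s := τ) (by linarith)
    have h2 : ∀ i, max (-(x i - τ)) 0 = max (τ - x i) 0 := by
      intro i
      rw [neg_sub]
    simp_rw [h2]
    have h3 := (hJ τ hs1).2
    have h4 : 2 * π * ∑ i, max (τ - x i) 0 ≤ 3 * W := by
      rw [← h1]
      refine h3.trans (le_of_eq ?_)
      rw [hW]; ring
    have h5 : 0 ≤ ∑ i, max (τ - x i) 0 := Finset.sum_nonneg fun i _ => le_max_right _ _
    refine le_trans ?_ hCW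
    nlinarith
  · have h1 := Pool.Agent.TX1.count hF (s := τ) (by linarith)
    have h2 := hTNt (τ + 1) (by linarith)
    have h3 : nB (fun i => x i - τ) ≤ ((Finset.univ.filter (fun i => x i ≤ τ)).card : ℝ) := by
      unfold nB
      rw [Finset.sum_boole]
      have h4 : (Finset.univ.filter (fun i => x i - τ < 0)) ⊆ Finset.univ.filter (fun i => x i ≤ τ) := by
        intro i hi
        rw [Finset.mem_filter] at hi ⊢
        exact ⟨hi.1, by linarith [hi.2]⟩
      exact_mod_cast Finset.card_le_card h4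
    have h4 : (2 * π) * ((Finset.univ.filter (fun i => x i ≤ τ)).card : ℝ)
        ≤ 9 * exp (51 / 50 * (τ + 1 - τ)) * W := h1.trans h2
    refine h3.trans ?_
    have h5 : exp (51 / 50 * (τ + 1 - τ)) ≤ exp (51 / 50 * 3) := exp_le_exp.mpr (by linarith)
    have h6 : (1 : ℝ) ≤ G := by
      rw [hG]
      apply one_le_inv_iff₀.mpr
      constructor
      · linarith
      · linarith [exp_pos (-(49 / 50 : ℝ))]
    have h7 : (2 * exp (51 / 50 * 3) * G + 2) * exp (-(R / 4)) * TM f τ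
        = 2 * exp (51 / 50 * 3) * G * W + 2 * W := by rw [hW]; ring
    rw [h7]
    have h8 : exp (51 / 50 * (τ + 1 - τ)) * W ≤ exp (51 / 50 * 3) * G * W := by
      apply mul_le_mul_of_nonneg_right _ hW0
      calc exp (51 / 50 * (τ + 1 - τ)) ≤ exp (51 / 50 * 3) * 1 := by rw [mul_one]; exact h5
        _ ≤ exp (51 / 50 * 3) * G := mul_le_mul_of_nonneg_left h6 (exp_pos _).le
    have h9 : (0 : ℝ) ≤ ((Finset.univ.filter (fun i => x i ≤ τ)).card : ℝ) := by positivity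
    nlinarith
  · have h1 := hF.hn
    have h2 := (hJ S (by linarith)).1
    have h3 := Pool.Agent.TX1.TN_le_TM hf h0 (S + 1)
    have h4 : exp (1 + 1 / (R + 8)) ≤ 3 := by
      have hq1 : 1 / (R + 8) ≤ 1 / 88 := by
        apply one_div_le_one_div_of_le <;> linarith
      have h5 := fr_grow (s := S) (t := S) hf h0 hR hJ (by linarith) le_rfl
      rw [Real.exp_add]
      have h7 := Real.exp_one_lt_d9
      have h8 : exp (1 / (R + 8)) ≤ 1.02 := by
        have h9 : (1 / 88 : ℝ) ≤ log 1.02 := by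
          have h10 := Real.one_sub_inv_le_log_of_pos (by norm_num : (0 : ℝ) < 1.02)
          refine le_trans ?_ h10
          norm_num
        calc exp (1 / (R + 8)) ≤ exp (log 1.02) := exp_le_exp.mpr (hq1.trans h9)
          _ = 1.02 := exp_log (by norm_num)
      nlinarith [exp_pos (1 : ℝ), exp_pos (1 / (R + 8))]
    have h5 : exp (1 + 1 / (R + 8)) * TM f S ≤ 3 * TM f S := mul_le_mul_of_nonneg_right h4 (hTM S)
    have h6 : 2 * π * n ≤ 3 * TM f S := h1.trans (h3.trans (h2.trans h5))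
    have h7 : (0 : ℝ) ≤ n := Nat.cast_nonneg n
    have h8 : (n : ℝ) ≤ 2 * TM f S := by nlinarith [hTM S]
    refine h8.trans (mul_le_mul_of_nonneg_right ?_ (hTM S))
    have : 0 ≤ 2 * exp (51 / 50 * 3) * G := by positivity
    linarith

end Pool.Agent.THX
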