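import Pool.Agent.THX.FrH
import Pool.Agent.TX1.Near1

/-!
# THX, module Frame: the data at one height

`α = deriv h 0 - ∑_{x i > τ} 1/pt (x i) (y i)` (`TX1.cT x y h τ` in module `TX1.Near1`; here `alf`).
`fr_amp`: for `τ ≠ x i`: `log |f (pt τ θ)| = Re (α pt τ θ) + c0 + ∑ VV (x i - τ) (y i) 0 θ + Re H` (as in `Dec`), `∫ |...| ≤ C (∑ kw + c0 + h)` (`vb_L1`), `½ log (|f|²+1)` within `½ log 2` of `max u 0`
(`TM_eq`), `∫ max (Re (α pt τ θ)) 0 dθ = 2 ‖α‖ exp τ`; `π log 2 ≤ 3 ≤ exp (-R) TM f τ·3` (`exp R ≤ TM f s1`).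
`frame`: `α ≠ 0`; `A = ‖α‖ exp τ`, `ψ` with `α exp τ = -A exp (-iψ)` and `|ψ - ψ0| ≤ π` (add a multiple of `2π`); all conditions of `Dat θ` for `R ≥ R1(θ)`, `S - τ ≥ R1`:
`hh = C exp (-(2 (S-τ))) TM f S`, `TM f S ≤ 3 exp (51/50 (S-τ)) TM f τ` (`fr_grow`), so `hh ≤ 3 C exp (-0.98 (S-τ)) TM f τ`.
-/

set_option autoImplicit false
set_option linter.all false

namespace Pool.Agent.THX

open Real MeasureTheory Set Filter Topology
open Pool.Agent.TX1 (pt ell TM TN Fac HM Gr JJ)

/-- the coefficient of the dipole at the height `τ` -/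
noncomputable def alf {n : ℕ} (x y : Fin n → ℝ) (h : ℂ → ℂ) (τ : ℝ) : ℂ :=
  deriv h 0 - ∑ i ∈ Finset.univ.filter (fun i => τ < x i), 1 / pt (x i) (y i)

open Pool.Agent.TX1.Near1Aux in
/-- the amplitude with general error terms -/
private theorem frame_core {f : ℂ → ℂ} {S s : ℝ} {n : ℕ} {x y : Fin n → ℝ} {h : ℂ → ℂ}
    (hf : Differentiable ℂ f) (h0 : f 0 = 1) (hF : Fac f S n x y h) (hsS : s ≤ S)
    (hne : ∀ i, x i ≠ s) {HB : ℝ}
    (hHB : ∀ θ : ℝ, |(h (pt s θ)).re - (deriv h 0 * pt s θ).re| ≤ HB) :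
    |TM f s - 2 * ‖alf x y h s‖ * exp s| ≤ 150 * (∑ i, kw (x i - s))
      + 2 * π * (∑ i, max (-(x i - s)) 0) + 4 * π * nB (fun i => x i - s)
      + 2 * π * (HB + 1 / 2 * log 2) := by
  set c := alf x y h s with hc
  -- the error function
  set e : Fin n → ℝ → ℝ := fun i θ =>
    if s < x i then |ell (s - x i) (θ - y i) + exp (s - x i) * cos (θ - y i)|
    else |ell (s - x i) (θ - y i)| with he
  set K : ℝ := HB + 1 / 2 * log 2 with hK
  have hei : ∀ i, IntervalIntegrable (e i) volume (-π) (-π + 2 * π) := by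
    intro i
    have h1 : IntervalIntegrable (fun θ => ell (s - x i) (θ - y i)) volume (-π) (-π + 2 * π) := by
      have h2 := Pool.Agent.TX1.ell_ii (s - x i) (-π - y i) (-π + 2 * π - y i)
      have h3 := h2.comp_sub_right (y i)
      simpa using h3
    have h2 : IntervalIntegrable (fun θ => exp (s - x i) * cos (θ - y i)) volume (-π) (-π + 2 * π) :=
      (by fun_prop : Continuous (fun θ : ℝ => exp (s - x i) * cos (θ - y i))).intervalIntegrable _ _
    rw [he]
    by_cases hx : s < x i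
    · simp only [if_pos hx]
      exact (h1.add h2).abs
    · simp only [if_neg hx]
      exact h1.abs
  have hpt : ∀ᵐ θ ∂(volume : Measure ℝ),
      |1 / 2 * log (‖f (pt s θ)‖ ^ 2 + 1) - max (c * pt s θ).re 0| ≤ (∑ i, e i θ) + K := by
    filter_upwards [Pool.Agent.TX1.li_ae hf ⟨0, by rw [h0]; exact one_ne_zero⟩ s] with θ hθ
    have hlog := log_fac_ae hF hsS hθ
    have h1 := log_sq_sub (norm_pos_iff.mpr hθ)
    have h2 : |max (log ‖f (pt s θ)‖) 0 - max (c * pt s θ).re 0|
        ≤ |log ‖f (pt s θ)‖ - (c * pt s θ).re| := by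
      have := abs_max_sub_max_le_abs (log ‖f (pt s θ)‖) (c * pt s θ).re 0
      exact this
    have h3 := hHB θ
    have h4 : (c * pt s θ).re = (deriv h 0 * pt s θ).re
        - ∑ i ∈ Finset.univ.filter (fun i => s < x i), exp (s - x i) * cos (θ - y i) := by
      rw [hc]
      unfold alf
      rw [sub_mul, Complex.sub_re, Finset.sum_mul, Complex.re_sum]
      congr 1
      apply Finset.sum_congr rfl
      intro i _
      rw [div_mul_eq_mul_div, one_mul, Pool.Agent.TX1.pt_div, pt_re]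
    have h5 : log ‖f (pt s θ)‖ - (c * pt s θ).re
        = (∑ i, if s < x i then ell (s - x i) (θ - y i) + exp (s - x i) * cos (θ - y i)
            else ell (s - x i) (θ - y i)) + ((h (pt s θ)).re - (deriv h 0 * pt s θ).re) := by
      rw [hlog, h4, Finset.sum_filter]
      have h6 : ∀ i, (if s < x i then ell (s - x i) (θ - y i) + exp (s - x i) * cos (θ - y i)
            else ell (s - x i) (θ - y i))
          = ell (s - x i) (θ - y i) + (if s < x i then exp (s - x i) * cos (θ - y i) else 0) := by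
        intro i
        split_ifs
        · rfl
        · rw [add_zero]
      simp_rw [h6]
      rw [Finset.sum_add_distrib]
      ring
    have h6 : |∑ i, if s < x i then ell (s - x i) (θ - y i) + exp (s - x i) * cos (θ - y i)
            else ell (s - x i) (θ - y i)| ≤ ∑ i, e i θ := by
      refine (Finset.abs_sum_le_sum_abs _ _).trans (le_of_eq ?_)
      apply Finset.sum_congr rfl
      intro i _
      rw [he]
      simp only
      split_ifs <;> rfl
    have h7 : |log ‖f (pt s θ)‖ - (c * pt s θ).re| ≤ (∑ i, e i θ) + HB := by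
      rw [h5]
      exact (abs_add_le _ _).trans (add_le_add h6 h3)
    have h8 : 1 / 2 * log (‖f (pt s θ)‖ ^ 2 + 1) - max (c * pt s θ).re 0
        = (1 / 2 * log (‖f (pt s θ)‖ ^ 2 + 1) - max (log ‖f (pt s θ)‖) 0)
          + (max (log ‖f (pt s θ)‖) 0 - max (c * pt s θ).re 0) := by ring
    rw [h8]
    refine (abs_add_le _ _).trans ?_
    rw [hK]
    linarith
  -- integrate
  have hGi : IntervalIntegrable (fun θ => 1 / 2 * log (‖f (pt s θ)‖ ^ 2 + 1)) volume (-π)
      (-π + 2 * π) := by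
    apply Continuous.intervalIntegrable
    have h1 : Continuous (fun θ => f (pt s θ)) := hf.continuous.comp (Pool.Agent.TX1.li_cont s)
    refine continuous_const.mul (Continuous.log ((h1.norm.pow 2).add continuous_const) ?_)
    intro θ
    positivity
  have hVi : IntervalIntegrable (fun θ => max (c * pt s θ).re 0) volume (-π) (-π + 2 * π) := by
    apply Continuous.intervalIntegrable
    exact (Complex.continuous_re.comp
      (continuous_const.mul (Pool.Agent.TX1.li_cont s))).max continuous_const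
  have h3i : IntervalIntegrable (fun θ => ∑ i, e i θ) volume (-π) (-π + 2 * π) := by
    have h1 := IntervalIntegrable.sum (Finset.univ : Finset (Fin n)) (f := e) (fun i _ => hei i)
    have h2 : (fun θ => ∑ i, e i θ) = ∑ i, e i := by
      ext θ
      rw [Finset.sum_apply]
    rw [h2]
    exact h1
  have hSi : IntervalIntegrable (fun θ => (∑ i, e i θ) + K) volume (-π) (-π + 2 * π) :=
    IntervalIntegrable.add h3i (by simp)
  have hle : -π ≤ -π + 2 * π := by linarith [pi_pos]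
  have hmain : |TM f s - 2 * ‖c‖ * exp s| ≤ (∑ i, ∫ θ in (-π)..(-π + 2 * π), e i θ) + 2 * π * K := by
    rw [Pool.Agent.TX1.TM_eq f s (-π), ← int_dip c s, ← intervalIntegral.integral_sub hGi hVi]
    have h1 : |∫ θ in (-π)..(-π + 2 * π),
          (1 / 2 * log (‖f (pt s θ)‖ ^ 2 + 1) - max (c * pt s θ).re 0)|
        ≤ ∫ θ in (-π)..(-π + 2 * π),
          |1 / 2 * log (‖f (pt s θ)‖ ^ 2 + 1) - max (c * pt s θ).re 0| :=
      intervalIntegral.abs_integral_le_integral_abs hle
    refine h1.trans ?_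
    have h2 : ∫ θ in (-π)..(-π + 2 * π),
          |1 / 2 * log (‖f (pt s θ)‖ ^ 2 + 1) - max (c * pt s θ).re 0|
        ≤ ∫ θ in (-π)..(-π + 2 * π), ((∑ i, e i θ) + K) := by
      apply intervalIntegral.integral_mono_ae hle (hGi.sub hVi).abs hSi
      exact hpt
    refine h2.trans (le_of_eq ?_)
    rw [intervalIntegral.integral_add h3i (by simp),
      intervalIntegral.integral_finsetSum (fun i _ => hei i), intervalIntegral.integral_const,
      smul_eq_mul]
    ring
  -- the single integrals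
  have hone : ∀ i, ∫ θ in (-π)..(-π + 2 * π), e i θ
      ≤ 150 * kw (x i - s) + (2 * π * max (-(x i - s)) 0 + 4 * π * (if x i - s < 0 then (1 : ℝ) else 0)) := by
    intro i
    by_cases hx : s < x i
    · have h1 : ∀ θ, e i θ = |ell (s - x i) (θ - y i) + exp (s - x i) * cos (θ - y i)| := by
        intro θ; rw [he]; simp only [if_pos hx]
      simp_rw [h1]
      rw [intervalIntegral.integral_comp_sub_right
        (fun β => |ell (s - x i) β + exp (s - x i) * cos β|) (y i)]
      have h2 : -π + 2 * π - y i = (-π - y i) + 2 * π := by ring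
      rw [h2, if_neg (by linarith)]
      have h3 := int_ell_add_le (τ := s - x i) (by linarith) (-π - y i)
      have h4 : 0 ≤ 2 * π * max (-(x i - s)) 0 := by positivity
      have h5 : kw (x i - s) = exp (2 * (s - x i)) := by
        rw [kw_nonneg (by linarith : 0 ≤ x i - s)]
        congr 1
        ring
      rw [h5]
      linarith
    · have h1 : ∀ θ, e i θ = |ell (s - x i) (θ - y i)| := by
        intro θ; rw [he]; simp only [if_neg hx]
      simp_rw [h1]
      rw [intervalIntegral.integral_comp_sub_right (fun β => |ell (s - x i) β|) (y i)]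
      have h2 : -π + 2 * π - y i = (-π - y i) + 2 * π := by ring
      have hlt : x i < s := lt_of_le_of_ne (not_lt.mp hx) (hne i)
      rw [h2, if_pos (by linarith)]
      have h3 := int_abs_ell_le (s - x i) (-π - y i)
      have h4 : exp (-|s - x i|) ≤ 1 := exp_le_one_iff.mpr (by simp)
      have h5 : 4 * π * exp (-|s - x i|) ≤ 4 * π * 1 := mul_le_mul_of_nonneg_left h4 (by positivity)
      have h6 : -(x i - s) = s - x i := by ring
      have h7 := kw_pos (x i - s)
      rw [h6]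
      linarith
  have hsum : ∑ i, ∫ θ in (-π)..(-π + 2 * π), e i θ
      ≤ 150 * (∑ i, kw (x i - s)) + (2 * π * (∑ i, max (-(x i - s)) 0)
        + 4 * π * nB (fun i => x i - s)) := by
    refine (Finset.sum_le_sum fun i _ => hone i).trans (le_of_eq ?_)
    unfold nB
    rw [Finset.sum_add_distrib, Finset.sum_add_distrib, ← Finset.mul_sum, ← Finset.mul_sum,
      ← Finset.mul_sum]
  linarith

private theorem frame_deriv (h : ℂ → ℂ) (w : ℂ) :
    deriv (fun ζ : ℂ => h (ζ * w)) 0 = deriv h 0 * w := by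
  have h1 : deriv (fun ζ : ℂ => h (w * ζ)) 0 = w • deriv h (w * 0) := deriv_comp_mul_left w h 0
  have h2 : (fun ζ : ℂ => h (ζ * w)) = fun ζ : ℂ => h (w * ζ) := by
    funext ζ
    rw [mul_comm]
  rw [h2, h1, mul_zero, smul_eq_mul, mul_comm]

private theorem frame_pt (τ ψ θ : ℝ) : pt 0 (θ - ψ) * pt τ ψ = pt τ θ := by
  unfold pt
  rw [← Complex.exp_add]
  congr 1
  push_cast
  ring

theorem fr_amp : ∃ C : ℝ, 1 ≤ C ∧ ∀ (f : ℂ → ℂ) (R s1 S τ : ℝ) (n : ℕ) (x y : Fin n → ℝ) (h : ℂ → ℂ), Differentiable ℂ f → f 0 = 1 →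
    80 ≤ R → JJ f R s1 → exp R ≤ TM f s1 → Fac f S n x y h → s1 ≤ τ → τ + 5 ≤ S → (∀ i, x i ≠ τ) →
    |TM f τ - 2 * ‖alf x y h τ‖ * exp τ| ≤ C * (exp (-(R / 4)) + exp (-((S - τ) / 2))) * TM f τ := by
  obtain ⟨C1, hC1, hsum⟩ := fr_sum
  obtain ⟨C3, hC3, hH⟩ := fr_h
  refine ⟨200 * C1 + 20 * C3, by linarith, ?_⟩
  intro f R s1 S τ n x y h hf h0 hR hJ hbig hF hs1 hτS hne
  obtain ⟨g1, g2, g3, -⟩ := hsum f R s1 S τ n x y h hf h0 hR hJ hF hs1 (by linarith)
  have g4 := hH f R s1 S τ 0 n x y h hf h0 hR hJ hF hs1 hτS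
  have hgr := fr_grow hf h0 hR hJ hs1 (by linarith : τ ≤ S)
  have hTM0 := Pool.Agent.TX1.TM_nonneg f τ
  have hTMS0 := Pool.Agent.TX1.TM_nonneg f S
  have hmono := Pool.Agent.TX1.TM_mono hf hs1
  have hHB : ∀ θ : ℝ, |(h (pt τ θ)).re - (deriv h 0 * pt τ θ).re|
      ≤ C3 * exp (-(2 * (S - τ))) * TM f S := by
    intro θ
    have g5 := (g4 (pt 0 (θ - 0)) (by
      rw [Pool.Agent.TX1.pt_norm]; exact exp_le_exp.mpr (by norm_num))).1
    rw [frame_deriv, mul_assoc (deriv h 0), mul_comm (pt τ 0), frame_pt] at g5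
    rw [← Complex.sub_re]
    exact (Complex.abs_re_le_norm _).trans g5
  have hcore := frame_core hf h0 hF (by linarith : τ ≤ S) hne hHB
  refine hcore.trans ?_
  have hpi : π ≤ 3.15 := by linarith [pi_lt_d2]
  have hlog2 : log 2 ≤ 0.7 := by linarith [Real.log_two_lt_d9]
  have hlog0 : 0 ≤ log 2 := (Real.log_pos (by norm_num)).le
  set T := TM f τ with hT
  set a := exp (-(R / 4)) with ha
  set b := exp (-((S - τ) / 2)) with hb
  have ha0 : 0 < a := exp_pos _
  have hb0 : 0 < b := exp_pos _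
  have haT : 0 ≤ a * T := by positivity
  have hbT : 0 ≤ b * T := by positivity
  -- the harmonic part
  have hh1 : C3 * exp (-(2 * (S - τ))) * TM f S ≤ 3 * C3 * (b * T) := by
    have e1 : exp (-(2 * (S - τ))) * exp (51 / 50 * (S - τ)) ≤ b := by
      rw [hb, ← Real.exp_add]
      apply exp_le_exp.mpr
      linarith
    calc C3 * exp (-(2 * (S - τ))) * TM f S
        ≤ C3 * exp (-(2 * (S - τ))) * (3 * exp (51 / 50 * (S - τ)) * T) := by gcongr
      _ = 3 * C3 * ((exp (-(2 * (S - τ))) * exp (51 / 50 * (S - τ))) * T) := by ring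
      _ ≤ 3 * C3 * (b * T) := by gcongr
  -- the constant
  have hone : 1 ≤ a * T := by
    have e1 : exp (-(R / 4)) * exp R ≥ 1 := by
      rw [← Real.exp_add]
      have := Real.add_one_le_exp (-(R / 4) + R)
      linarith
    have e2 : exp R ≤ T := hbig.trans hmono
    have e3 := mul_le_mul_of_nonneg_left e2 ha0.le
    rw [ha] at e3 ⊢
    linarith
  have hHB0 : 0 ≤ C3 * exp (-(2 * (S - τ))) * TM f S := by positivity
  have k1 : 150 * (∑ i, kw (x i - τ)) ≤ 150 * C1 * (a * T) := by nlinarith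
  have hm0 : 0 ≤ ∑ i, max (-(x i - τ)) 0 := Finset.sum_nonneg fun i _ => le_max_right _ _
  have k2 : 2 * π * (∑ i, max (-(x i - τ)) 0) ≤ 7 * C1 * (a * T) := by
    have e1 : 2 * π * (∑ i, max (-(x i - τ)) 0) ≤ 7 * (∑ i, max (-(x i - τ)) 0) := by
      nlinarith
    nlinarith
  have hn0 : 0 ≤ nB (fun i => x i - τ) := by
    unfold nB
    apply Finset.sum_nonneg
    intro i _
    split_ifs <;> norm_num
  have k3 : 4 * π * nB (fun i => x i - τ) ≤ 13 * C1 * (a * T) := by
    have e1 : 4 * π * nB (fun i => x i - τ) ≤ 13 * nB (fun i => x i - τ) := by nlinarith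
    nlinarith
  have k4 : 2 * π * (C3 * exp (-(2 * (S - τ))) * TM f S + 1 / 2 * log 2)
      ≤ 20 * C3 * (b * T) + 7 * (a * T) := by
    have e0 : 0 ≤ C3 * (b * T) := by positivity
    have e2 : 0 ≤ 3 * C3 * (b * T) + 1 / 2 * 0.7 * (a * T) := by nlinarith
    have e1 : C3 * exp (-(2 * (S - τ))) * TM f S + 1 / 2 * log 2
        ≤ 3 * C3 * (b * T) + 1 / 2 * 0.7 * (a * T) := by nlinarith
    have e3 : 2 * π * (C3 * exp (-(2 * (S - τ))) * TM f S + 1 / 2 * log 2)
        ≤ 2 * π * (3 * C3 * (b * T) + 1 / 2 * 0.7 * (a * T)) :=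
      mul_le_mul_of_nonneg_left e1 (by positivity)
    have e4 : 2 * π * (3 * C3 * (b * T) + 1 / 2 * 0.7 * (a * T))
        ≤ 2 * 3.15 * (3 * C3 * (b * T) + 1 / 2 * 0.7 * (a * T)) := by
      apply mul_le_mul_of_nonneg_right _ e2
      linarith
    linarith
  have k5 : 7 * (a * T) ≤ 7 * C1 * (a * T) := by nlinarith
  have k6 : (200 * C1 + 20 * C3) * (a + b) * T
      = 200 * C1 * (a * T) + 20 * C3 * (b * T) + 200 * C1 * (b * T) + 20 * C3 * (a * T) := by ring
  rw [k6]
  have k7 : 0 ≤ 200 * C1 * (b * T) := by positivity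
  have k8 : 0 ≤ 20 * C3 * (a * T) := by positivity
  have k9 : 0 ≤ C1 * (a * T) := by positivity
  linarith

private theorem frame_dir (c : ℂ) (t ψ0 : ℝ) : ∃ ψ : ℝ, |ψ - ψ0| ≤ π ∧
    c * exp t = -((‖c‖ * exp t : ℝ) : ℂ) * Complex.exp (-(ψ : ℂ) * Complex.I) := by
  have h2pi : (0 : ℝ) < 2 * π := by positivity
  set k : ℤ := round ((ψ0 + Complex.arg (-c)) / (2 * π)) with hk
  refine ⟨-Complex.arg (-c) + k * (2 * π), ?_, ?_⟩
  · have h1 := abs_sub_round ((ψ0 + Complex.arg (-c)) / (2 * π))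
    rw [← hk] at h1
    have h2 : -Complex.arg (-c) + k * (2 * π) - ψ0
        = -((ψ0 + Complex.arg (-c)) / (2 * π) - k) * (2 * π) := by
      field_simp
      ring
    rw [h2, abs_mul, abs_neg, abs_of_pos h2pi]
    nlinarith
  · have h3 : -c = (‖c‖ : ℂ) * Complex.exp ((Complex.arg (-c) : ℂ) * Complex.I) := by
      have h := (Complex.norm_mul_exp_arg_mul_I (-c)).symm
      rwa [norm_neg] at h
    have h4 : Complex.exp (-((-Complex.arg (-c) + k * (2 * π) : ℝ) : ℂ) * Complex.I)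
        = Complex.exp ((Complex.arg (-c) : ℂ) * Complex.I) := by
      rw [Complex.exp_eq_exp_iff_exists_int]
      refine ⟨-k, ?_⟩
      push_cast
      ring
    rw [h4]
    push_cast
    linear_combination (-(Complex.exp (t : ℂ))) * h3

theorem frame : ∃ C : ℝ, 1 ≤ C ∧ ∀ θ : ℝ, 0 < θ → θ ≤ 1 → ∃ R1 : ℝ, 80 ≤ R1 ∧
    ∀ (f : ℂ → ℂ) (R s1 S τ ψ0 : ℝ) (n : ℕ) (x y : Fin n → ℝ) (h : ℂ → ℂ), Differentiable ℂ f → f 0 = 1 →
    R1 ≤ R → JJ f R s1 → exp R ≤ TM f s1 → Fac f S n x y h → s1 ≤ τ → τ + R1 ≤ S → (∀ i, x i ≠ τ) →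
    ∃ A ψ : ℝ, |ψ - ψ0| ≤ π ∧ |TM f τ - 2 * A| ≤ θ * A ∧
      alf x y h τ * exp τ = -(A : ℂ) * Complex.exp (-(ψ : ℂ) * Complex.I) ∧
      Dat θ A (C * exp (-(2 * (S - τ))) * TM f S) n (fun i => x i - τ) (fun i => y i - ψ)
        (fun ζ => h (ζ * pt τ ψ)) (fun ζ => f (ζ * pt τ ψ)) := by
  obtain ⟨C1, hC1, hsum⟩ := fr_sum
  obtain ⟨C2, hC2, hamp⟩ := fr_amp
  obtain ⟨C3, hC3, hH⟩ := fr_h
  refine ⟨C3, hC3, ?_⟩
  intro θ hθ hθ1
  set K : ℝ := 100 * (C1 + C2 + C3) / θ with hK
  have hK1 : 1 ≤ K := by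
    rw [hK, le_div_iff₀ hθ]
    linarith
  have hK0 : 0 < K := by linarith
  refine ⟨max 80 (4 * log K), le_max_left _ _, ?_⟩
  intro f R s1 S τ ψ0 n x y h hf h0 hR hJ hbig hF hs1 hτS hne
  have hR80 : 80 ≤ R := (le_max_left _ _).trans hR
  have hRK : 4 * log K ≤ R := (le_max_right _ _).trans hR
  have hS80 : τ + 80 ≤ S := by
    have := le_max_left (80 : ℝ) (4 * log K)
    linarith
  have hSK : 4 * log K ≤ S - τ := by
    have := le_max_right (80 : ℝ) (4 * log K)
    linarith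
  obtain ⟨g1, g2, g3, -⟩ := hsum f R s1 S τ n x y h hf h0 hR80 hJ hF hs1 (by linarith)
  have g5 := hamp f R s1 S τ n x y h hf h0 hR80 hJ hbig hF hs1 (by linarith) hne
  have hgr := fr_grow hf h0 hR80 hJ hs1 (by linarith : τ ≤ S)
  have hmono := Pool.Agent.TX1.TM_mono hf hs1
  have hbigτ : exp R ≤ TM f τ := hbig.trans hmono
  have hT0 : 0 < TM f τ := lt_of_lt_of_le (exp_pos R) hbigτ
  have hTMS0 := Pool.Agent.TX1.TM_nonneg f S
  set T := TM f τ with hT
  have hexpK : ∀ r : ℝ, 4 * log K ≤ r → exp (-(r / 4)) ≤ 1 / K := by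
    intro r hr
    have e1 : exp (-(r / 4)) ≤ exp (-(log K)) := exp_le_exp.mpr (by linarith)
    rw [Real.exp_neg (log K), Real.exp_log hK0] at e1
    rw [one_div]
    exact e1
  have hinv : 1 / K = θ / (100 * (C1 + C2 + C3)) := by
    rw [hK, one_div_div]
  have ha : exp (-(R / 4)) ≤ θ / (100 * (C1 + C2 + C3)) := by
    rw [← hinv]; exact hexpK R hRK
  have hb4 : exp (-((S - τ) / 4)) ≤ θ / (100 * (C1 + C2 + C3)) := by
    rw [← hinv]; exact hexpK (S - τ) hSK
  have hb : exp (-((S - τ) / 2)) ≤ θ / (100 * (C1 + C2 + C3)) := by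
    refine le_trans ?_ hb4
    apply exp_le_exp.mpr
    linarith
  set q : ℝ := θ / (100 * (C1 + C2 + C3)) with hq
  have hq0 : 0 < q := by positivity
  have hqC1 : C1 * q ≤ θ / 100 := by
    rw [hq, mul_div_assoc', div_le_div_iff₀ (by positivity) (by norm_num)]
    nlinarith
  have hqC2 : C2 * q ≤ θ / 100 := by
    rw [hq, mul_div_assoc', div_le_div_iff₀ (by positivity) (by norm_num)]
    nlinarith
  have hqC3 : C3 * q ≤ θ / 100 := by
    rw [hq, mul_div_assoc', div_le_div_iff₀ (by positivity) (by norm_num)]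
    nlinarith
  set A : ℝ := ‖alf x y h τ‖ * exp τ with hA
  have hA0 : 0 ≤ A := by positivity
  have g6 : |T - 2 * A| ≤ θ / 50 * T := by
    have e1 : T - 2 * A = T - 2 * ‖alf x y h τ‖ * exp τ := by rw [hA]; ring
    rw [e1]
    refine g5.trans ?_
    have e2 : C2 * (exp (-(R / 4)) + exp (-((S - τ) / 2))) ≤ θ / 50 := by
      have e3 : C2 * (exp (-(R / 4)) + exp (-((S - τ) / 2))) ≤ C2 * (q + q) := by gcongr
      linarith
    exact mul_le_mul_of_nonneg_right e2 hT0.le
  have g7 := abs_le.1 g6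
  have hTA : T ≤ 3 * A := by nlinarith [g7.2]
  have hA1 : 0 < A := by nlinarith
  obtain ⟨ψ, hψ, hψe⟩ := frame_dir (alf x y h τ) τ ψ0
  have hdir : alf x y h τ * exp τ = -(A : ℂ) * Complex.exp (-(ψ : ℂ) * Complex.I) := by
    rw [hψe, hA]
  refine ⟨A, ψ, hψ, ?_, hdir, ?_⟩
  · refine g6.trans ?_
    nlinarith
  · have g4 := hH f R s1 S τ ψ n x y h hf h0 hR80 hJ hF hs1 (by linarith)
    have hhb : C3 * exp (-(2 * (S - τ))) * TM f S ≤ θ * A := by
      have e1 : exp (-(2 * (S - τ))) * exp (51 / 50 * (S - τ)) ≤ q := by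
        refine le_trans ?_ hb4
        rw [← Real.exp_add]
        apply exp_le_exp.mpr
        linarith
      calc C3 * exp (-(2 * (S - τ))) * TM f S
          ≤ C3 * exp (-(2 * (S - τ))) * (3 * exp (51 / 50 * (S - τ)) * T) := by gcongr
        _ = 3 * C3 * ((exp (-(2 * (S - τ))) * exp (51 / 50 * (S - τ))) * T) := by ring
        _ ≤ 3 * C3 * (q * T) := by gcongr
        _ = 3 * (C3 * q) * T := by ring
        _ ≤ 3 * (θ / 100) * (3 * A) := by gcongr
        _ ≤ θ * A := by nlinarith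
    have hC1a : C1 * exp (-(R / 4)) * T ≤ θ * A := by
      calc C1 * exp (-(R / 4)) * T ≤ C1 * q * T := by gcongr
        _ ≤ (θ / 100) * (3 * A) := by gcongr
        _ ≤ θ * A := by nlinarith
    have hptne : pt τ ψ ≠ 0 := Pool.Agent.TX1.pt_ne τ ψ
    refine ⟨hθ, hθ1, ?_, fun i => sub_ne_zero.mpr (hne i), ?_, ?_, ?_, ?_, ?_, ?_, ?_, ?_, hhb, ?_⟩
    · -- 1 ≤ θ A
      have e1 : K ≤ exp R := by
        have e2 : log K ≤ R := by
          have : 0 ≤ log K := log_nonneg hK1
          linarith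
        calc K = exp (log K) := (Real.exp_log hK0).symm
          _ ≤ exp R := exp_le_exp.mpr e2
      have e3 : K * θ = 100 * (C1 + C2 + C3) := by
        rw [hK]
        field_simp
      have e4 : K * θ ≤ 3 * A * θ := by
        apply mul_le_mul_of_nonneg_right _ hθ.le
        linarith
      nlinarith
    · intro ζ hζ
      have e1 : ‖ζ * pt τ ψ‖ ≤ exp S := by
        rw [norm_mul, Pool.Agent.TX1.pt_norm]
        calc ‖ζ‖ * exp τ ≤ exp 3 * exp τ := by gcongr
          _ = exp (3 + τ) := (Real.exp_add 3 τ).symm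
          _ ≤ exp S := exp_le_exp.mpr (by linarith)
      have e2 := hF.hf _ e1
      rw [e2]
      congr 1
      apply Finset.prod_congr rfl
      intro i _
      have e3 : pt τ ψ / pt (x i) (y i) = 1 / pt (x i - τ) (y i - ψ) := by
        rw [← Pool.Agent.TX1.pt_div, one_div_div]
      rw [mul_div_assoc, e3, mul_one_div]
    · obtain ⟨ρ, hρ, hd⟩ := hF.hd
      refine ⟨ρ / exp τ, ?_, ?_⟩
      · rw [lt_div_iff₀ (exp_pos _), ← Real.exp_add]
        refine lt_of_le_of_lt ?_ hρ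
        exact exp_le_exp.mpr (by linarith)
      · have e1 : MapsTo (fun ζ : ℂ => ζ * pt τ ψ) (Metric.ball 0 (ρ / exp τ)) (Metric.ball 0 ρ) := by
          intro ζ hζ
          rw [Metric.mem_ball, dist_zero_right] at hζ ⊢
          rw [norm_mul, Pool.Agent.TX1.pt_norm]
          rwa [lt_div_iff₀ (exp_pos _)] at hζ
        exact hd.comp (by fun_prop) e1
    · rw [zero_mul]
      exact hF.h0
    · rw [frame_deriv]
      have e1 : alf x y h τ * pt τ ψ = -(A : ℂ) := by
        have e2 : pt τ ψ = ((exp τ : ℝ) : ℂ) * Complex.exp ((ψ : ℂ) * Complex.I) := by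
          unfold pt
          rw [Complex.exp_add, Complex.ofReal_exp]
        rw [e2, ← mul_assoc, hdir, mul_assoc, ← Complex.exp_add]
        simp
      have e4 : deriv h 0 * pt τ ψ = alf x y h τ * pt τ ψ
          + ∑ i, (if 0 < x i - τ then 1 / pt (x i - τ) (y i - ψ) else 0) := by
        unfold alf
        rw [sub_mul, Finset.sum_mul, Finset.sum_filter]
        have e5 : ∀ i, (if 0 < x i - τ then 1 / pt (x i - τ) (y i - ψ) else 0)
            = (if τ < x i then 1 / pt (x i) (y i) * pt τ ψ else 0) := by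
          intro i
          by_cases hi : τ < x i
          · rw [if_pos hi, if_pos (by linarith), one_div_mul_eq_div, Pool.Agent.TX1.pt_div,
              one_div, ← Pool.Agent.TX1.pt_div, inv_div, Pool.Agent.TX1.pt_div]
          · rw [if_neg hi, if_neg (by linarith)]
        simp_rw [e5]
        ring
      rw [e4, e1]
    · exact g1.trans hC1a
    · exact g2.trans hC1a
    · exact g3.trans hC1a
    · positivity
    · intro ζ hζ
      exact g4 ζ hζ

end Pool.Agent.THX
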