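import Pool.Agent.THX.Defs

/-!
# THX, module GamA: the certificate, elementary facts

`arccos ∘ cos` is even, `2π`-periodic, `1`-Lipschitz, equal to `x` on `[0, π]`, with values in `[0, π]`.  `gG l` is `C¹` on `[0, π]` (both formulas and both
derivatives agree at `x = π/(2l)`: `l x = π/2`, `l (π - x) = π l - π/2`), its derivative is `gG1 l`, `|gG1 l| ≤ 4`.
`gam_low`: valley: `-cos (π l) ≥ 1/2`, `1 - sin (π l) ≥ 1`, `cos t + sin t ≥ 1` on `[0, π/2]`, so `gG ≥ (1/2)/l² ≥ 8/25`... enough is `≥ 2/5`: `-cos (π l) ≥ √2/2`,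
`(√2/2)/l² ≥ 0.45 ≥ (1/5)·2`.  Hump: `1 - cos (l (π - x)) ≥ 1 - cos (π - x) = 1 + cos x` (`0 ≤ π - x ≤ l (π - x) ≤ π`), `1/l² ≥ 1/5`.
`gam_dd`: `1 + cos y = dd y ^ 2 / 2`.  `KK_bd`: `sin (π l) = - sin (π (l - 1))`, `sin (π t) ≥ t` for `0 ≤ t ≤ 1/4` gives `KK l ≥ 2`.
-/

set_option autoImplicit false
set_option linter.all false

namespace Pool.Agent.THX

open Real MeasureTheory Set Filter Topology
open Pool.Agent.TX1 (pt ell TM TN Fac HM Gr)

/-- first formula -/
private noncomputable def gA (l x : ℝ) : ℝ :=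
  (-cos (π * l) * cos (l * x) + (1 - sin (π * l)) * sin (l * x)) / l ^ 2

private noncomputable def gA1 (l x : ℝ) : ℝ :=
  (cos (π * l) * sin (l * x) + (1 - sin (π * l)) * cos (l * x)) / l

private noncomputable def gB (l x : ℝ) : ℝ := (1 - cos (l * (π - x))) / l ^ 2

private noncomputable def gB1 (l x : ℝ) : ℝ := -sin (l * (π - x)) / l

private theorem gG_eq (l x : ℝ) : gG l x = if x ≤ π / (2 * l) then gA l x else gB l x := rfl

private theorem gG1_eq (l x : ℝ) : gG1 l x = if x ≤ π / (2 * l) then gA1 l x else gB1 l x := rfl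

private theorem gAB {l : ℝ} (h1 : 1 ≤ l) : gA l (π / (2 * l)) = gB l (π / (2 * l)) := by
  have hl : l ≠ 0 := by linarith
  have e1 : l * (π / (2 * l)) = π / 2 := by field_simp
  have e2 : l * (π - π / (2 * l)) = π * l - π / 2 := by field_simp
  unfold gA gB
  rw [e1, e2, cos_pi_div_two, sin_pi_div_two, cos_sub_pi_div_two]
  ring

private theorem gAB1 {l : ℝ} (h1 : 1 ≤ l) : gA1 l (π / (2 * l)) = gB1 l (π / (2 * l)) := by
  have hl : l ≠ 0 := by linarith
  have e1 : l * (π / (2 * l)) = π / 2 := by field_simp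
  have e2 : l * (π - π / (2 * l)) = π * l - π / 2 := by field_simp
  unfold gA1 gB1
  rw [e1, e2, cos_pi_div_two, sin_pi_div_two, sin_sub_pi_div_two]
  ring

private theorem gA_deriv {l : ℝ} (h1 : 1 ≤ l) (x : ℝ) : HasDerivAt (gA l) (gA1 l x) x := by
  have hl : l ≠ 0 := by linarith
  have h2 : HasDerivAt (fun x : ℝ => l * x) l x := by
    simpa using (hasDerivAt_id x).const_mul l
  have h3 := ((h2.cos.const_mul (-cos (π * l))).add (h2.sin.const_mul (1 - sin (π * l)))).div_const
    (l ^ 2)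
  refine h3.congr_deriv ?_
  unfold gA1
  field_simp

private theorem gB_deriv {l : ℝ} (h1 : 1 ≤ l) (x : ℝ) : HasDerivAt (gB l) (gB1 l x) x := by
  have hl : l ≠ 0 := by linarith
  have h2 : HasDerivAt (fun x : ℝ => l * (π - x)) (-l) x := by
    simpa using ((hasDerivAt_id x).const_sub π).const_mul l
  have h3 := (h2.cos.const_sub 1).div_const (l ^ 2)
  refine h3.congr_deriv ?_
  unfold gB1
  field_simp

private theorem gA_cont (l : ℝ) : Continuous (gA l) := by
  unfold gA
  fun_prop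

private theorem gA1_cont (l : ℝ) : Continuous (gA1 l) := by
  unfold gA1
  fun_prop

private theorem gB_cont (l : ℝ) : Continuous (gB l) := by
  unfold gB
  fun_prop

private theorem gB1_cont (l : ℝ) : Continuous (gB1 l) := by
  unfold gB1
  fun_prop

theorem gG_cont {l : ℝ} (h1 : 1 ≤ l) (h2 : l ≤ 5 / 4) : Continuous (gG l) := by
  have : gG l = fun x => if x ≤ π / (2 * l) then gA l x else gB l x := rfl
  rw [this]
  apply Continuous.if_le (gA_cont l) (gB_cont l) continuous_id continuous_const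
  intro x hx
  rw [show x = π / (2 * l) from hx]
  exact gAB h1

theorem gG1_cont {l : ℝ} (h1 : 1 ≤ l) (h2 : l ≤ 5 / 4) : Continuous (gG1 l) := by
  have : gG1 l = fun x => if x ≤ π / (2 * l) then gA1 l x else gB1 l x := rfl
  rw [this]
  apply Continuous.if_le (gA1_cont l) (gB1_cont l) continuous_id continuous_const
  intro x hx
  rw [show x = π / (2 * l) from hx]
  exact gAB1 h1

theorem gG_deriv {l : ℝ} (h1 : 1 ≤ l) (h2 : l ≤ 5 / 4) (x : ℝ) : HasDerivAt (gG l) (gG1 l x) x := by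
  rcases lt_trichotomy x (π / (2 * l)) with h | h | h
  · rw [gG1_eq, if_pos h.le]
    refine (gA_deriv h1 x).congr_of_eventuallyEq ?_
    filter_upwards [Iio_mem_nhds h] with y hy
    rw [gG_eq, if_pos (le_of_lt hy)]
  · have e1 : gG1 l x = gA1 l x := by rw [gG1_eq, if_pos h.le]
    have e2 : gG1 l x = gB1 l x := by rw [e1, h, gAB1 h1]
    have d1 : HasDerivWithinAt (gG l) (gG1 l x) (Iic x) x := by
      rw [e1]
      refine (gA_deriv h1 x).hasDerivWithinAt.congr ?_ ?_
      · intro y hy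
        rw [gG_eq, if_pos (le_trans hy h.le)]
      · rw [gG_eq, if_pos h.le]
    have d2 : HasDerivWithinAt (gG l) (gG1 l x) (Ici x) x := by
      rw [e2]
      have e3 : ∀ y, x ≤ y → gG l y = gB l y := by
        intro y hy
        rcases eq_or_lt_of_le hy with h3 | h3
        · subst h3
          rw [gG_eq, if_pos h.le, h, gAB h1]
        · rw [gG_eq, if_neg (by rw [← h]; exact not_le.2 h3)]
      refine (gB_deriv h1 x).hasDerivWithinAt.congr ?_ ?_
      · intro y hy
        exact e3 y hy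
      · exact e3 x le_rfl
    have d3 := d1.union d2
    rw [Iic_union_Ici] at d3
    exact d3.hasDerivAt univ_mem
  · rw [gG1_eq, if_neg (not_le.2 h)]
    refine (gB_deriv h1 x).congr_of_eventuallyEq ?_
    filter_upwards [Ioi_mem_nhds h] with y hy
    rw [gG_eq, if_neg (not_le.2 hy)]

private theorem sin_lip (a b : ℝ) : |sin a - sin b| ≤ |a - b| := by
  have := Real.lipschitzWith_sin.dist_le_mul a b
  simpa [Real.dist_eq] using this

private theorem cos_lip (a b : ℝ) : |cos a - cos b| ≤ |a - b| := by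
  have := Real.lipschitzWith_cos.dist_le_mul a b
  simpa [Real.dist_eq] using this

private theorem gA1_lip {l : ℝ} (h1 : 1 ≤ l) (x y : ℝ) : |gA1 l x - gA1 l y| ≤ 4 * |x - y| := by
  have hl : 0 < l := by linarith
  have e : gA1 l x - gA1 l y = (cos (π * l) * (sin (l * x) - sin (l * y)) +
      (1 - sin (π * l)) * (cos (l * x) - cos (l * y))) / l := by
    unfold gA1
    ring
  have e1 : |l * x - l * y| = l * |x - y| := by
    rw [← mul_sub, abs_mul, abs_of_pos hl]
  have a1 := sin_lip (l * x) (l * y)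
  have a2 := cos_lip (l * x) (l * y)
  rw [e1] at a1 a2
  have b1 := abs_cos_le_one (π * l)
  have b2 : |1 - sin (π * l)| ≤ 2 := by
    have c1 := neg_one_le_sin (π * l)
    have c2 := sin_le_one (π * l)
    rw [abs_le]
    constructor <;> linarith
  rw [e, abs_div, abs_of_pos hl, div_le_iff₀ hl]
  refine (abs_add_le _ _).trans ?_
  rw [abs_mul, abs_mul]
  have c0 : 0 ≤ l * |x - y| := by positivity
  have c1 : |cos (π * l)| * |sin (l * x) - sin (l * y)| ≤ 1 * (l * |x - y|) :=
    mul_le_mul b1 a1 (abs_nonneg _) (by norm_num)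
  have c2 : |1 - sin (π * l)| * |cos (l * x) - cos (l * y)| ≤ 2 * (l * |x - y|) :=
    mul_le_mul b2 a2 (abs_nonneg _) (by norm_num)
  nlinarith

private theorem gB1_lip {l : ℝ} (h1 : 1 ≤ l) (x y : ℝ) : |gB1 l x - gB1 l y| ≤ 4 * |x - y| := by
  have hl : 0 < l := by linarith
  have e : gB1 l x - gB1 l y = -(sin (l * (π - x)) - sin (l * (π - y))) / l := by
    unfold gB1
    ring
  have e1 : |l * (π - x) - l * (π - y)| = l * |x - y| := by
    rw [← mul_sub, abs_mul, abs_of_pos hl]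
    congr 1
    rw [abs_sub_comm]
    congr 1
    ring
  have a1 := sin_lip (l * (π - x)) (l * (π - y))
  rw [e1] at a1
  rw [e, abs_div, abs_neg, abs_of_pos hl, div_le_iff₀ hl]
  have c0 : 0 ≤ l * |x - y| := by positivity
  nlinarith

/-- gluing of Lipschitz functions -/
private theorem glue {f A B : ℝ → ℝ} {c L : ℝ} (hL : 0 ≤ L) (hf : ∀ x, f x = if x ≤ c then A x else B x)
    (hc : A c = B c) (hA : ∀ x y, |A x - A y| ≤ L * |x - y|) (hB : ∀ x y, |B x - B y| ≤ L * |x - y|)
    (x y : ℝ) : |f x - f y| ≤ L * |x - y| := by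
  have key : ∀ x y, x ≤ c → c < y → |A x - B y| ≤ L * |x - y| := by
    intro x y hx hy
    have e : A x - B y = (A x - A c) + (B c - B y) := by rw [hc]; ring
    rw [e]
    refine (abs_add_le _ _).trans ((add_le_add (hA x c) (hB c y)).trans ?_)
    rw [abs_of_nonpos (by linarith : x - c ≤ 0), abs_of_neg (by linarith : c - y < 0),
      abs_of_neg (by linarith : x - y < 0)]
    nlinarith
  rw [hf x, hf y]
  split_ifs with hx hy hy
  · exact hA x y
  · exact key x y hx (not_le.1 hy)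
  · rw [abs_sub_comm, abs_sub_comm x y]
    exact key y x hy (not_le.1 hx)
  · exact hB x y

theorem gG1_lip {l : ℝ} (h1 : 1 ≤ l) (h2 : l ≤ 5 / 4) (x y : ℝ) : |gG1 l x - gG1 l y| ≤ 4 * |x - y| :=
  glue (by norm_num) (gG1_eq l) (gAB1 h1) (gA1_lip h1) (gB1_lip h1) x y

theorem gG1_bd {l : ℝ} (h1 : 1 ≤ l) (h2 : l ≤ 5 / 4) (x : ℝ) : |gG1 l x| ≤ 4 := by
  have hl : 0 < l := by linarith
  rw [gG1_eq]
  split_ifs with h
  · unfold gA1
    rw [abs_div, abs_of_pos hl, div_le_iff₀ hl]
    refine (abs_add_le _ _).trans ?_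
    rw [abs_mul, abs_mul]
    have b1 := abs_cos_le_one (π * l)
    have b2 : |1 - sin (π * l)| ≤ 2 := by
      have c1 := neg_one_le_sin (π * l)
      have c2 := sin_le_one (π * l)
      rw [abs_le]
      constructor <;> linarith
    have b3 := abs_sin_le_one (l * x)
    have b4 := abs_cos_le_one (l * x)
    have c1 : |cos (π * l)| * |sin (l * x)| ≤ 1 * 1 := mul_le_mul b1 b3 (abs_nonneg _) (by norm_num)
    have c2 : |1 - sin (π * l)| * |cos (l * x)| ≤ 2 * 1 :=
      mul_le_mul b2 b4 (abs_nonneg _) (by norm_num)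
    linarith
  · unfold gB1
    rw [abs_div, abs_neg, abs_of_pos hl, div_le_iff₀ hl]
    have b3 := abs_sin_le_one (l * (π - x))
    linarith

theorem gG1_zero {l : ℝ} (h1 : 1 ≤ l) : gG1 l 0 = KK l / 2 := by
  have hl : 0 < l := by linarith
  rw [gG1_eq, if_pos (by positivity)]
  unfold gA1 KK
  simp
  ring

private theorem half_lt {l : ℝ} (h1 : 1 ≤ l) : π / (2 * l) < π := by
  have hl : 0 < l := by linarith
  rw [div_lt_iff₀ (by positivity)]
  nlinarith [pi_pos]

theorem gG1_pi {l : ℝ} (h1 : 1 ≤ l) : gG1 l π = 0 := by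
  rw [gG1_eq, if_neg (not_le.2 (half_lt h1))]
  unfold gB1
  simp

theorem gam_cont {l : ℝ} (h1 : 1 ≤ l) (h2 : l ≤ 5 / 4) : Continuous (gam l) := by
  unfold gam
  exact (gG_cont h1 h2).comp (continuous_arccos.comp continuous_cos)

theorem gam_even (l θ : ℝ) : gam l (-θ) = gam l θ := by
  unfold gam
  rw [cos_neg]

theorem gam_per (l θ : ℝ) : gam l (θ + 2 * π) = gam l θ := by
  unfold gam
  rw [cos_add_two_pi]

theorem gam_of_mem (l : ℝ) {θ : ℝ} (h0 : 0 ≤ θ) (hπ : θ ≤ π) : gam l θ = gG l θ := by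
  unfold gam
  rw [arccos_cos h0 hπ]

private theorem cos_l {l : ℝ} (h1 : 1 ≤ l) (h2 : l ≤ 5 / 4) : 7 / 10 ≤ -cos (π * l) := by
  have e : -cos (π * l) = cos (π * (l - 1)) := by
    have : π * l = π * (l - 1) + π := by ring
    rw [this, cos_add_pi]
    ring
  rw [e]
  have h3 : cos (π / 4) ≤ cos (π * (l - 1)) := by
    apply cos_le_cos_of_nonneg_of_le_pi
    · exact mul_nonneg pi_pos.le (by linarith)
    · linarith [pi_pos]
    · nlinarith [pi_pos]
  rw [cos_pi_div_four] at h3
  have h4 : (1.4 : ℝ) ≤ √2 := by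
    rw [show (1.4 : ℝ) = √(1.4 ^ 2) by rw [Real.sqrt_sq (by norm_num)]]
    exact Real.sqrt_le_sqrt (by norm_num)
  linarith

private theorem sin_l {l : ℝ} (h1 : 1 ≤ l) (h2 : l ≤ 5 / 4) : 2 * (l - 1) ≤ -sin (π * l) := by
  have e : -sin (π * l) = sin (π * (l - 1)) := by
    have : π * l = π * (l - 1) + π := by ring
    rw [this, sin_add_pi]
    ring
  rw [e]
  have h3 := mul_le_sin (x := π * (l - 1)) (mul_nonneg pi_pos.le (by linarith))
    (by nlinarith [pi_pos])
  refine le_trans (le_of_eq ?_) h3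
  field_simp

theorem gam_low {l : ℝ} (h1 : 1 ≤ l) (h2 : l ≤ 5 / 4) (θ : ℝ) : 1 / 5 * (1 + cos θ) ≤ gam l θ := by
  have hl : 0 < l := by linarith
  have hl2 : l ^ 2 ≤ 25 / 16 := by nlinarith
  unfold gam
  have hx : cos θ = cos (arccos (cos θ)) := by
    rw [cos_arccos (neg_one_le_cos _) (cos_le_one _)]
  have hx0 := arccos_nonneg (cos θ)
  have hx1 := arccos_le_pi (cos θ)
  set x := arccos (cos θ) with hxd
  rw [hx, gG_eq]
  split_ifs with h
  · unfold gA
    rw [le_div_iff₀ (by positivity)]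
    have h3 : l * x ≤ π / 2 := by
      have := mul_le_mul_of_nonneg_left h hl.le
      refine this.trans (le_of_eq ?_)
      field_simp
    have h4 : 0 ≤ l * x := by positivity
    have h5 : 0 ≤ cos (l * x) := cos_nonneg_of_neg_pi_div_two_le_of_le (by linarith [pi_pos]) h3
    have h6 : 0 ≤ sin (l * x) := sin_nonneg_of_nonneg_of_le_pi h4 (by linarith [pi_pos])
    have h7 : 1 ≤ cos (l * x) + sin (l * x) := by
      nlinarith [sin_sq_add_cos_sq (l * x)]
    have h8 := cos_l h1 h2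
    have h9 := sin_l h1 h2
    have h10 := cos_le_one x
    have h11 := neg_one_le_cos x
    have h12 : 7 / 10 ≤ -cos (π * l) * cos (l * x) + (1 - sin (π * l)) * sin (l * x) := by
      nlinarith
    nlinarith
  · unfold gB
    push Not at h
    rw [le_div_iff₀ (by positivity)]
    have h3 : 0 ≤ π - x := by linarith
    have h4 : π - x ≤ l * (π - x) := by nlinarith
    have h5 : l * (π - x) ≤ π := by
      have e1 : l * x ≥ π / 2 := by
        have := mul_le_mul_of_nonneg_left h.le hl.le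
        refine le_trans (le_of_eq ?_) this
        field_simp
      nlinarith [pi_pos]
    have h6 : cos (l * (π - x)) ≤ cos (π - x) := cos_le_cos_of_nonneg_of_le_pi h3 h5 h4
    rw [cos_pi_sub] at h6
    have h11 := neg_one_le_cos x
    nlinarith

private theorem gG_up {l : ℝ} (h1 : 1 ≤ l) (x : ℝ) : gG l x ≤ 4 := by
  have hl : 0 < l := by linarith
  have hl2 : 1 ≤ l ^ 2 := by nlinarith
  rw [gG_eq]
  split_ifs with h
  · unfold gA
    rw [div_le_iff₀ (by positivity)]
    have b1 := abs_cos_le_one (π * l)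
    have b2 : |1 - sin (π * l)| ≤ 2 := by
      have c1 := neg_one_le_sin (π * l)
      have c2 := sin_le_one (π * l)
      rw [abs_le]
      constructor <;> linarith
    have b3 := abs_sin_le_one (l * x)
    have b4 := abs_cos_le_one (l * x)
    have c1 : |-cos (π * l)| * |cos (l * x)| ≤ 1 * 1 :=
      mul_le_mul (by rw [abs_neg]; exact b1) b4 (abs_nonneg _) (by norm_num)
    have c2 : |1 - sin (π * l)| * |sin (l * x)| ≤ 2 * 1 :=
      mul_le_mul b2 b3 (abs_nonneg _) (by norm_num)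
    have c3 := le_abs_self (-cos (π * l) * cos (l * x))
    have c4 := le_abs_self ((1 - sin (π * l)) * sin (l * x))
    rw [abs_mul] at c3 c4
    linarith
  · unfold gB
    rw [div_le_iff₀ (by positivity)]
    have := neg_one_le_cos (l * (π - x))
    linarith

theorem gam_up {l : ℝ} (h1 : 1 ≤ l) (h2 : l ≤ 5 / 4) (θ : ℝ) : gam l θ ≤ 4 := gG_up h1 _

private theorem ac_le (t : ℝ) : arccos (cos t) ≤ |t| := by
  rw [← cos_abs]
  rcases le_or_gt |t| π with h | h
  · rw [arccos_cos (abs_nonneg _) h]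
  · exact (arccos_le_pi _).trans h.le

private theorem ac_lip (a b : ℝ) : arccos (cos a) ≤ arccos (cos b) + |a - b| := by
  obtain ⟨n, hn⟩ : ∃ n : ℤ, |b - n * (2 * π)| ≤ π := by
    refine ⟨round (b / (2 * π)), ?_⟩
    have h1 := abs_sub_round (b / (2 * π))
    have h2 : b - round (b / (2 * π)) * (2 * π) = (b / (2 * π) - round (b / (2 * π))) * (2 * π) := by
      field_simp
    rw [h2, abs_mul, abs_of_pos (by positivity : (0 : ℝ) < 2 * π)]
    nlinarith [pi_pos]
  have h1 : arccos (cos b) = |b - n * (2 * π)| := by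
    have h2 : cos b = cos |b - n * (2 * π)| := by
      rw [cos_abs, cos_sub_int_mul_two_pi]
    rw [h2, arccos_cos (abs_nonneg _) hn]
  have h3 : arccos (cos a) ≤ |a - n * (2 * π)| := by
    have h4 : cos a = cos (a - n * (2 * π)) := by rw [cos_sub_int_mul_two_pi]
    rw [h4]
    exact ac_le _
  rw [h1]
  refine h3.trans ?_
  have h5 : a - n * (2 * π) = (b - n * (2 * π)) + (a - b) := by ring
  rw [h5]
  exact abs_add_le _ _

private theorem ac_lip' (a b : ℝ) : |arccos (cos a) - arccos (cos b)| ≤ |a - b| := by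
  rw [abs_le]
  have h1 := ac_lip a b
  have h2 := ac_lip b a
  rw [abs_sub_comm b a] at h2
  constructor <;> linarith

private theorem gG_lip {l : ℝ} (h1 : 1 ≤ l) (h2 : l ≤ 5 / 4) (x y : ℝ) : |gG l x - gG l y| ≤ 4 * |x - y| := by
  have h := Convex.norm_image_sub_le_of_norm_hasDerivWithin_le (f := gG l) (f' := gG1 l) (s := univ)
    (x := y) (y := x) (C := 4) (fun z _ => (gG_deriv h1 h2 z).hasDerivWithinAt)
    (fun z _ => by rw [norm_eq_abs]; exact gG1_bd h1 h2 z) convex_univ (mem_univ _) (mem_univ _)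
  simpa [norm_eq_abs] using h

theorem gam_lip {l : ℝ} (h1 : 1 ≤ l) (h2 : l ≤ 5 / 4) (a b : ℝ) : |gam l a - gam l b| ≤ 4 * |a - b| := by
  unfold gam
  exact (gG_lip h1 h2 _ _).trans (mul_le_mul_of_nonneg_left (ac_lip' a b) (by norm_num))

theorem dd_sq (y : ℝ) : dd y ^ 2 = 2 * (1 + cos y) := by
  unfold dd
  rw [mul_pow, sq_abs, cos_sq]
  rw [show 2 * (y / 2) = y by ring]
  ring

theorem dd_nonneg (y : ℝ) : 0 ≤ dd y := by
  unfold dd
  positivity

theorem dd_le_two (y : ℝ) : dd y ≤ 2 := by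
  unfold dd
  have := abs_cos_le_one (y / 2)
  linarith

theorem dd_lip (y z : ℝ) : dd y ≤ dd z + |y - z| := by
  unfold dd
  have h1 := cos_lip (y / 2) (z / 2)
  have h2 : |y / 2 - z / 2| = |y - z| / 2 := by
    rw [← sub_div, abs_div]
    norm_num
  rw [h2] at h1
  have h3 := abs_sub_abs_le_abs_sub (cos (y / 2)) (cos (z / 2))
  linarith

theorem dd_per (y : ℝ) : dd (y + 2 * π) = dd y := by
  unfold dd
  rw [show (y + 2 * π) / 2 = y / 2 + π by ring, cos_add_pi, abs_neg]

theorem gam_dd {l : ℝ} (h1 : 1 ≤ l) (h2 : l ≤ 5 / 4) (y : ℝ) : dd y ^ 2 / 10 ≤ gam l y := by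
  rw [dd_sq]
  have := gam_low h1 h2 y
  linarith

theorem KK_bd {l : ℝ} (h1 : 1 ≤ l) (h2 : l ≤ 5 / 4) : 2 ≤ KK l ∧ KK l ≤ 4 := by
  have hl : 0 < l := by linarith
  have h3 := sin_l h1 h2
  have h4 := neg_one_le_sin (π * l)
  unfold KK
  constructor
  · rw [le_div_iff₀ hl]
    linarith
  · rw [div_le_iff₀ hl]
    linarith

end Pool.Agent.THX
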