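import Pool.Agent.THX.GamA

/-!
# THX, module GamOde: `gam'' + l² gam = KK δ_0 + 1_{hump}` tested with a smooth periodic function

Write both sides with `W x = v x + v (-x)` as integrals over `[0, π]` (`gam` even; `∫_{th0}^{2π-th0} v = ∫_{th0}^π W` by periodicity), `W' 0 = 0`, `W' π = 0`
(periodicity), and integrate by parts twice on `[0, th0]` and on `[th0, π]`: on `[0, th0]`: `gG'' = -l² gG`; on `[th0, π]`: `gG'' = -l² gG + 1`; the boundary terms at `th0`
cancel (`gG`, `gG1` continuous), at `0`: `- gG1 l 0 * W 0 * (-1)...` gives `KK l/2 * W 0 = KK l * v 0`, at `π`: `gG1 l π = 0`.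
-/

set_option autoImplicit false
set_option linter.all false

namespace Pool.Agent.THX

open Real MeasureTheory Set Filter Topology
open Pool.Agent.TX1 (pt ell TM TN Fac HM Gr)

private theorem ode_ibp {P P1 W W1 W2 : ℝ → ℝ} {c k : ℝ} (a b : ℝ) (hP : ∀ x, HasDerivAt P (P1 x) x)
    (hP1 : ∀ x, HasDerivAt P1 (c - k * P x) x) (hW : ∀ x, HasDerivAt W (W1 x) x)
    (hW1 : ∀ x, HasDerivAt W1 (W2 x) x) (hc : Continuous W2) :
    ∫ x in a..b, P x * W2 x = (P b * W1 b - P1 b * W b) - (P a * W1 a - P1 a * W a) +
      (c * ∫ x in a..b, W x) - k * ∫ x in a..b, P x * W x := by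
  have cP : Continuous P := continuous_iff_continuousAt.2 fun x => (hP x).continuousAt
  have cW : Continuous W := continuous_iff_continuousAt.2 fun x => (hW x).continuousAt
  have h : ∫ x in a..b, (P x * W2 x - (c - k * P x) * W x) =
      (P b * W1 b - P1 b * W b) - (P a * W1 a - P1 a * W a) := by
    refine intervalIntegral.integral_eq_sub_of_hasDerivAt
      (f := fun x => P x * W1 x - P1 x * W x) ?_ ?_
    · intro x _
      have h1 := ((hP x).mul (hW1 x)).sub ((hP1 x).mul (hW x))
      have e : P x * W2 x - (c - k * P x) * W x =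
          P1 x * W1 x + P x * W2 x - ((c - k * P x) * W x + P1 x * W1 x) := by ring
      rw [e]
      exact h1
    · exact ((cP.mul hc).sub ((continuous_const.sub (continuous_const.mul cP)).mul
        cW)).intervalIntegrable _ _
  have h2 : ∫ x in a..b, (P x * W2 x - (c - k * P x) * W x) =
      (∫ x in a..b, P x * W2 x) - ∫ x in a..b, (c - k * P x) * W x :=
    intervalIntegral.integral_sub ((cP.mul hc).intervalIntegrable _ _)
      (((continuous_const.sub (continuous_const.mul cP)).mul cW).intervalIntegrable _ _)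
  have h3 : ∫ x in a..b, (c - k * P x) * W x =
      (c * ∫ x in a..b, W x) - k * ∫ x in a..b, P x * W x := by
    rw [← intervalIntegral.integral_const_mul, ← intervalIntegral.integral_const_mul,
      ← intervalIntegral.integral_sub]
    · refine intervalIntegral.integral_congr fun x _ => ?_
      change (c - k * P x) * W x = c * W x - k * (P x * W x)
      ring
    · exact (continuous_const.mul cW).intervalIntegrable _ _
    · exact (continuous_const.mul (cP.mul cW)).intervalIntegrable _ _
  linarith

/-- fold an integral over `[-π, π]` -/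
private theorem ode_fold {f : ℝ → ℝ} (hf : Continuous f) :
    ∫ x in (-π)..π, f x = ∫ x in (0 : ℝ)..π, (f x + f (-x)) := by
  have cn : Continuous fun x : ℝ => f (-x) := hf.comp continuous_neg
  rw [intervalIntegral.integral_add (hf.intervalIntegrable _ _) (cn.intervalIntegrable _ _),
    intervalIntegral.integral_comp_neg, neg_zero, add_comm,
    intervalIntegral.integral_add_adjacent_intervals (hf.intervalIntegrable _ _)
      (hf.intervalIntegrable _ _)]

theorem gam_ode {l : ℝ} (h1 : 1 ≤ l) (h2 : l ≤ 5 / 4) {v v1 v2 : ℝ → ℝ} (hv : ∀ x, HasDerivAt v (v1 x) x)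
    (hv1 : ∀ x, HasDerivAt v1 (v2 x) x) (hc : Continuous v2) (hper : ∀ x, v (x + 2 * π) = v x) :
    ∫ θ in (-π)..π, gam l θ * v2 θ = -(l ^ 2) * (∫ θ in (-π)..π, gam l θ * v θ) + KK l * v 0
      + ∫ θ in (th0 l)..(2 * π - th0 l), v θ := by
  have l0 : 0 < l := by linarith
  have l0' : l ≠ 0 := l0.ne'
  have cv : Continuous v := continuous_iff_continuousAt.2 fun x => (hv x).continuousAt
  have cv1 : Continuous v1 := continuous_iff_continuousAt.2 fun x => (hv1 x).continuousAt
  have cg := gam_cont h1 h2
  have ht0 : 0 ≤ th0 l := by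
    unfold th0
    exact div_nonneg pi_pos.le (by linarith)
  have htpi : th0 l ≤ π := by
    unfold th0
    rw [div_le_iff₀ (by linarith)]
    nlinarith [pi_pos]
  -- the folded function
  set W : ℝ → ℝ := fun x => v x + v (-x) with hWdef
  set W1 : ℝ → ℝ := fun x => v1 x - v1 (-x) with hW1def
  set W2 : ℝ → ℝ := fun x => v2 x + v2 (-x) with hW2def
  have hW : ∀ x, HasDerivAt W (W1 x) x := by
    intro x
    have e1 : HasDerivAt (fun y : ℝ => v (-y)) (v1 (-x) * (-1)) x :=
      (hv (-x)).comp x (hasDerivAt_neg x)
    have e2 := (hv x).add e1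
    have e3 : W1 x = v1 x + v1 (-x) * (-1) := by
      simp only [hW1def]
      ring
    rw [e3]
    exact e2
  have hW1 : ∀ x, HasDerivAt W1 (W2 x) x := by
    intro x
    have e1 : HasDerivAt (fun y : ℝ => v1 (-y)) (v2 (-x) * (-1)) x :=
      (hv1 (-x)).comp x (hasDerivAt_neg x)
    have e2 := (hv1 x).sub e1
    have e3 : W2 x = v2 x - v2 (-x) * (-1) := by
      simp only [hW2def]
      ring
    rw [e3]
    exact e2
  have cW2 : Continuous W2 := hc.add (hc.comp continuous_neg)
  have cW : Continuous W := cv.add (cv.comp continuous_neg)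
  -- the two branches of the certificate
  set P : ℝ → ℝ := fun x => (-cos (π * l) * cos (l * x) + (1 - sin (π * l)) * sin (l * x)) / l ^ 2
    with hPdef
  set P1 : ℝ → ℝ := fun x => (cos (π * l) * sin (l * x) + (1 - sin (π * l)) * cos (l * x)) / l
    with hP1def
  set R : ℝ → ℝ := fun x => (1 - cos (l * (π - x))) / l ^ 2 with hRdef
  set R1 : ℝ → ℝ := fun x => -sin (l * (π - x)) / l with hR1def
  have hlx : ∀ x : ℝ, HasDerivAt (fun y : ℝ => l * y) l x := by
    intro x
    simpa using (hasDerivAt_id x).const_mul l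
  have hlp : ∀ x : ℝ, HasDerivAt (fun y : ℝ => l * (π - y)) (-l) x := by
    intro x
    have e := ((hasDerivAt_id x).const_sub π).const_mul l
    simpa using e
  have hP : ∀ x, HasDerivAt P (P1 x) x := by
    intro x
    have e1 := ((hlx x).cos.const_mul (-cos (π * l))).add
      ((hlx x).sin.const_mul (1 - sin (π * l)))
    have e2 := e1.div_const (l ^ 2)
    have e3 : P1 x = (-cos (π * l) * (-sin (l * x) * l) +
        (1 - sin (π * l)) * (cos (l * x) * l)) / l ^ 2 := by
      simp only [hP1def]
      field_simp
    rw [e3]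
    exact e2
  have hP1 : ∀ x, HasDerivAt P1 (0 - l ^ 2 * P x) x := by
    intro x
    have e1 := ((hlx x).sin.const_mul (cos (π * l))).add
      ((hlx x).cos.const_mul (1 - sin (π * l)))
    have e2 := e1.div_const l
    have e3 : 0 - l ^ 2 * P x = (cos (π * l) * (cos (l * x) * l) +
        (1 - sin (π * l)) * (-sin (l * x) * l)) / l := by
      simp only [hPdef]
      field_simp
      ring
    rw [e3]
    exact e2
  have hR : ∀ x, HasDerivAt R (R1 x) x := by
    intro x
    have e1 := ((hlp x).cos.const_sub 1).div_const (l ^ 2)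
    have e3 : R1 x = -(-sin (l * (π - x)) * -l) / l ^ 2 := by
      simp only [hR1def]
      field_simp
    rw [e3]
    exact e1
  have hR1 : ∀ x, HasDerivAt R1 (1 - l ^ 2 * R x) x := by
    intro x
    have e1 := (hlp x).sin.neg.div_const l
    have e3 : 1 - l ^ 2 * R x = -(cos (l * (π - x)) * -l) / l := by
      simp only [hRdef]
      field_simp
      ring
    rw [e3]
    exact e1
  -- values
  have elt : l * th0 l = π / 2 := by
    unfold th0
    field_simp
  have elt2 : l * (π - th0 l) = π * l - π / 2 := by
    rw [mul_sub, elt]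
    ring
  have vP : P (th0 l) = R (th0 l) := by
    simp only [hPdef, hRdef]
    rw [elt, elt2, cos_pi_div_two, sin_pi_div_two, cos_sub_pi_div_two]
    ring
  have vP1 : P1 (th0 l) = R1 (th0 l) := by
    simp only [hP1def, hR1def]
    rw [elt, elt2, cos_pi_div_two, sin_pi_div_two, sin_sub_pi_div_two]
    ring
  have vRpi : R π = 0 := by simp [hRdef]
  have vR1pi : R1 π = 0 := by simp [hR1def]
  have vP10 : P1 0 = KK l / 2 := by
    simp only [hP1def]
    unfold KK
    rw [mul_zero, sin_zero, cos_zero]
    ring
  have vW10 : W1 0 = 0 := by simp [hW1def]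
  have vW0 : W 0 = 2 * v 0 := by
    simp only [hWdef, neg_zero]
    ring
  -- fold
  have fold1 : ∫ θ in (-π)..π, gam l θ * v2 θ = ∫ x in (0 : ℝ)..π, gam l x * W2 x := by
    rw [ode_fold (f := fun θ => gam l θ * v2 θ) (cg.mul hc)]
    refine intervalIntegral.integral_congr fun x _ => ?_
    simp only [hW2def, gam_even]
    ring
  have fold2 : ∫ θ in (-π)..π, gam l θ * v θ = ∫ x in (0 : ℝ)..π, gam l x * W x := by
    rw [ode_fold (f := fun θ => gam l θ * v θ) (cg.mul cv)]
    refine intervalIntegral.integral_congr fun x _ => ?_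
    simp only [hWdef, gam_even]
    ring
  have split : ∀ u : ℝ → ℝ, Continuous u → ∫ x in (0 : ℝ)..π, gam l x * u x =
      (∫ x in (0 : ℝ)..(th0 l), P x * u x) + ∫ x in (th0 l)..π, R x * u x := by
    intro u hu
    have cgu : Continuous fun x => gam l x * u x := cg.mul hu
    rw [← intervalIntegral.integral_add_adjacent_intervals (b := th0 l)
      (cgu.intervalIntegrable _ _) (cgu.intervalIntegrable _ _)]
    congr 1
    · refine intervalIntegral.integral_congr fun x hx => ?_
      rw [uIcc_of_le ht0] at hx
      change gam l x * u x = P x * u x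
      rw [gam_of_mem l hx.1 (hx.2.trans htpi), gG, if_pos (show x ≤ π / (2 * l) from hx.2)]
    · refine intervalIntegral.integral_congr fun x hx => ?_
      rw [uIcc_of_le htpi] at hx
      change gam l x * u x = R x * u x
      rw [gam_of_mem l (ht0.trans hx.1) hx.2, gG]
      split_ifs with h
      · have e : x = th0 l := le_antisymm h hx.1
        rw [e]
        have := vP
        simp only [hPdef] at this
        rw [this]
      · rfl
  have hump : ∫ θ in (th0 l)..(2 * π - th0 l), v θ = ∫ x in (th0 l)..π, W x := by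
    have e1 : ∫ x in (th0 l)..π, W x = (∫ x in (th0 l)..π, v x) + ∫ x in (th0 l)..π, v (-x) :=
      intervalIntegral.integral_add (cv.intervalIntegrable _ _)
        ((cv.comp continuous_neg).intervalIntegrable _ _)
    have e2 : ∫ x in (th0 l)..π, v (-x) = ∫ x in π..(2 * π - th0 l), v x := by
      rw [intervalIntegral.integral_comp_neg]
      have e3 : ∫ x in (-π)..(-th0 l), v x = ∫ x in (-π)..(-th0 l), v (x + 2 * π) :=
        intervalIntegral.integral_congr fun x _ => (hper x).symm
      rw [e3, intervalIntegral.integral_comp_add_right (fun x => v x)]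
      congr 1
      · ring
      · ring
    rw [e1, e2, intervalIntegral.integral_add_adjacent_intervals (cv.intervalIntegrable _ _)
      (cv.intervalIntegrable _ _)]
  rw [fold1, fold2, split W2 cW2, split W cW, hump, ode_ibp 0 (th0 l) hP hP1 hW hW1 cW2,
    ode_ibp (th0 l) π hR hR1 hW hW1 cW2, vRpi, vR1pi, vP10, vW10, vW0, vP, vP1]
  ring

end Pool.Agent.THX
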