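import Pool.Agent.THX.GamA

/-!
# THX, module GamTr: translations of the certificate

On `(0, 2π)`: `gam l θ = gG l θ` for `θ ≤ π`, `gG l (2π - θ)` for `θ ≥ π`; `gad l θ = gG1 l θ` resp. `- gG1 l (2π - θ)` (at `π` both are `0`: `gG1_pi`), so `gad` is Lipschitz
on `(0, 2π)` with constant `4` (`gG1_lip`) and `gam' = gad` there.  `gam_taylor`: mean value theorem.
-/

set_option autoImplicit false
set_option linter.all false

namespace Pool.Agent.THX

open Real MeasureTheory Set Filter Topology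
open Pool.Agent.TX1 (pt ell TM TN Fac HM Gr)

private theorem abs_sign_le (x : ℝ) : |((SignType.sign x : SignType) : ℝ)| ≤ 1 := by
  rcases lt_trichotomy x 0 with h | h | h
  · rw [sign_neg h]; simp
  · rw [h]; simp
  · rw [sign_pos h]; simp

theorem gad_bd {l : ℝ} (h1 : 1 ≤ l) (h2 : l ≤ 5 / 4) (θ : ℝ) : |gad l θ| ≤ 4 := by
  unfold gad
  rw [abs_mul]
  have h := abs_sign_le (sin θ)
  have h' := gG1_bd h1 h2 (arccos (cos θ))
  calc |((SignType.sign (sin θ) : SignType) : ℝ)| * |gG1 l (arccos (cos θ))| ≤ 1 * 4 :=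
        mul_le_mul h h' (abs_nonneg _) zero_le_one
    _ = 4 := one_mul 4

theorem gad_odd (l θ : ℝ) : gad l (-θ) = -gad l θ := by
  unfold gad
  rw [sin_neg, cos_neg, Left.sign_neg]
  rw [SignType.coe_neg, neg_mul]

theorem gad_per (l θ : ℝ) : gad l (θ + 2 * π) = gad l θ := by
  unfold gad
  rw [sin_add_two_pi, cos_add_two_pi]

theorem gad_meas (l : ℝ) : Measurable (gad l) := by
  have hs : Measurable fun θ : ℝ => ((SignType.sign (sin θ) : SignType) : ℝ) := by
    have e : (fun θ : ℝ => ((SignType.sign (sin θ) : SignType) : ℝ)) =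
        fun θ : ℝ => if 0 < sin θ then (1 : ℝ) else if sin θ < 0 then -1 else 0 := by
      funext θ
      rw [sign_apply]
      split_ifs <;> simp
    rw [e]
    refine Measurable.ite (measurableSet_lt measurable_const continuous_sin.measurable)
      measurable_const (Measurable.ite (measurableSet_lt continuous_sin.measurable measurable_const)
        measurable_const measurable_const)
  have hg : Measurable (gG1 l) := by
    unfold gG1
    refine Measurable.ite (measurableSet_le measurable_id measurable_const) ?_ ?_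
    · exact Continuous.measurable (by fun_prop)
    · exact Continuous.measurable (by fun_prop)
  exact hs.mul (hg.comp (continuous_arccos.measurable.comp continuous_cos.measurable))

private theorem gad_left {l : ℝ} (h1 : 1 ≤ l) {a : ℝ} (h0 : 0 < a) (hp : a ≤ π) :
    gad l a = gG1 l a := by
  unfold gad
  rw [arccos_cos h0.le hp]
  rcases hp.lt_or_eq with h | h
  · rw [sign_pos (sin_pos_of_pos_of_lt_pi h0 h)]
    simp
  · rw [h, gG1_pi h1, mul_zero]

private theorem gad_right {l : ℝ} (h1 : 1 ≤ l) {a : ℝ} (h0 : π ≤ a) (hp : a < 2 * π) :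
    gad l a = -gG1 l (2 * π - a) := by
  have e : gad l a = -gad l (2 * π - a) := by
    rw [← gad_odd, ← gad_per l (-(2 * π - a))]
    congr 1
    ring
  rw [e, gad_left h1 (by linarith) (by linarith)]

private theorem gam_right (l : ℝ) {a : ℝ} (h0 : π ≤ a) (hp : a ≤ 2 * π) :
    gam l a = gG l (2 * π - a) := by
  rw [← gam_of_mem l (θ := 2 * π - a) (by linarith) (by linarith), ← gam_even l a,
    ← gam_per l (-a)]
  congr 1
  ring

theorem gad_lip {l : ℝ} (h1 : 1 ≤ l) (h2 : l ≤ 5 / 4) {a b : ℝ} (ha : a ∈ Ioo 0 (2 * π)) (hb : b ∈ Ioo 0 (2 * π)) :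
    |gad l a - gad l b| ≤ 4 * |a - b| := by
  have hmix : ∀ c d : ℝ, c ∈ Ioo 0 (2 * π) → d ∈ Ioo 0 (2 * π) → c ≤ π → π ≤ d →
      |gad l c - gad l d| ≤ 4 * |c - d| := by
    intro c d hc hd hcp hdp
    rw [gad_left h1 hc.1 hcp, gad_right h1 hdp hd.2]
    have e1 := gG1_lip h1 h2 c π
    have e2 := gG1_lip h1 h2 π (2 * π - d)
    rw [gG1_pi h1] at e1 e2
    rw [sub_zero, abs_of_nonpos (by linarith : c - π ≤ 0)] at e1
    rw [zero_sub, abs_neg, abs_of_nonneg (by linarith : 0 ≤ π - (2 * π - d))] at e2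
    rw [abs_of_nonpos (by linarith : c - d ≤ 0)]
    have e3 : |gG1 l c - -gG1 l (2 * π - d)| ≤ |gG1 l c| + |gG1 l (2 * π - d)| := by
      have h := abs_sub (gG1 l c) (-gG1 l (2 * π - d))
      rwa [abs_neg] at h
    linarith
  rcases le_total a π with ha' | ha' <;> rcases le_total b π with hb' | hb'
  · rw [gad_left h1 ha.1 ha', gad_left h1 hb.1 hb']
    exact gG1_lip h1 h2 a b
  · exact hmix a b ha hb ha' hb'
  · have h := hmix b a hb ha hb' ha'
    rwa [abs_sub_comm, abs_sub_comm b a] at h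
  · rw [gad_right h1 ha' ha.2, gad_right h1 hb' hb.2]
    have h := gG1_lip h1 h2 (2 * π - b) (2 * π - a)
    have e1 : -gG1 l (2 * π - a) - -gG1 l (2 * π - b) = gG1 l (2 * π - b) - gG1 l (2 * π - a) := by
      ring
    have e2 : 2 * π - b - (2 * π - a) = a - b := by ring
    rw [e1]
    rwa [e2] at h

theorem gam_deriv {l : ℝ} (h1 : 1 ≤ l) (h2 : l ≤ 5 / 4) {a : ℝ} (ha : a ∈ Ioo 0 (2 * π)) :
    HasDerivAt (gam l) (gad l a) a := by
  have hL : ∀ c : ℝ, 0 < c → c ≤ π → HasDerivWithinAt (gam l) (gad l c) (Iic π) c := by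
    intro c h0 hp
    rw [gad_left h1 h0 hp]
    refine (gG_deriv h1 h2 c).hasDerivWithinAt.congr_of_eventuallyEq ?_ (gam_of_mem l h0.le hp)
    filter_upwards [self_mem_nhdsWithin, mem_nhdsWithin_of_mem_nhds (lt_mem_nhds h0)] with x hx hx0
    exact gam_of_mem l (le_of_lt hx0) hx
  have hR : ∀ c : ℝ, π ≤ c → c < 2 * π → HasDerivWithinAt (gam l) (gad l c) (Ici π) c := by
    intro c h0 hp
    rw [gad_right h1 h0 hp]
    have h3 : HasDerivAt (fun x => gG l (2 * π - x)) (-gG1 l (2 * π - c)) c := by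
      have h4 : HasDerivAt (fun x : ℝ => 2 * π - x) (-1) c := by
        simpa using (hasDerivAt_id c).const_sub (2 * π)
      have h5 := (gG_deriv h1 h2 (2 * π - c)).comp c h4
      rw [mul_neg, mul_one] at h5
      exact h5
    refine h3.hasDerivWithinAt.congr_of_eventuallyEq ?_ (gam_right l h0 hp.le)
    filter_upwards [self_mem_nhdsWithin, mem_nhdsWithin_of_mem_nhds (gt_mem_nhds hp)] with x hx hx0
    exact gam_right l hx (le_of_lt hx0)
  rcases lt_trichotomy a π with h | h | h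
  · exact (hL a ha.1 h.le).hasDerivAt (Iic_mem_nhds h)
  · have e1 := hL a ha.1 h.le
    have e2 := hR a h.ge ha.2
    have e3 := e1.union e2
    rw [Iic_union_Ici] at e3
    exact hasDerivWithinAt_univ.1 e3
  · exact (hR a h.le ha.2).hasDerivAt (Ici_mem_nhds h)

theorem gam_taylor {l : ℝ} (h1 : 1 ≤ l) (h2 : l ≤ 5 / 4) {a b : ℝ} (ha : a ∈ Ioo 0 (2 * π)) (hb : b ∈ Ioo 0 (2 * π)) :
    |gam l b - gam l a - gad l a * (b - a)| ≤ 4 * (b - a) ^ 2 := by
  have hsub : uIcc a b ⊆ Ioo 0 (2 * π) := by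
    intro x hx
    rw [mem_uIcc] at hx
    rcases hx with hx | hx
    · exact ⟨lt_of_lt_of_le ha.1 hx.1, lt_of_le_of_lt hx.2 hb.2⟩
    · exact ⟨lt_of_lt_of_le hb.1 hx.1, lt_of_le_of_lt hx.2 ha.2⟩
  have hd : ∀ x ∈ uIcc a b, HasDerivWithinAt (fun x => gam l x - gad l a * x)
      (gad l x - gad l a) (uIcc a b) x := by
    intro x hx
    have h3 := (gam_deriv h1 h2 (hsub hx)).sub ((hasDerivAt_id x).const_mul (gad l a))
    rw [mul_one] at h3
    exact h3.hasDerivWithinAt
  have hb1 : ∀ x ∈ uIcc a b, ‖gad l x - gad l a‖ ≤ 4 * |b - a| := by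
    intro x hx
    rw [Real.norm_eq_abs]
    have h3 := gad_lip h1 h2 (hsub hx) ha
    have h4 : |x - a| ≤ |b - a| := abs_sub_left_of_mem_uIcc hx
    linarith
  have h5 := (convex_uIcc a b).norm_image_sub_le_of_norm_hasDerivWithin_le hd hb1 left_mem_uIcc
    right_mem_uIcc
  rw [Real.norm_eq_abs, Real.norm_eq_abs] at h5
  have e1 : gam l b - gad l a * b - (gam l a - gad l a * a) =
      gam l b - gam l a - gad l a * (b - a) := by ring
  rw [e1] at h5
  calc |gam l b - gam l a - gad l a * (b - a)| ≤ 4 * |b - a| * |b - a| := h5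
    _ = 4 * (b - a) ^ 2 := by rw [mul_assoc, abs_mul_abs_self, pow_two]

end Pool.Agent.THX
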