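import Pool.Agent.THX.JumpOne
import Pool.Agent.THX.Dec

/-!
# THX, module Jump: change of direction for the boundary functional

`dec_ql` in `TH l F 0 ψ = ∫ gam θ ql l F (pt 0 (θ + ψ))`: constants (independent of `ψ`), the dipole `-(1+l) A ∫ gam θ cos (θ + ψ) = -(1+l) A cos ψ ∫ gam cos` (`gam` even; `1 - cos ψ ≤ ψ²/2`,
`|∫ gam cos| ≤ 8π`), `∑ J1`, and the term of `H`, which is Lipschitz in `ψ` with constant `C h` (`Dat.hH` on the circle: derivative of `θ ↦ ζ H' + l H` along the circle).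
`XX = ∑ dd kw + h`, `∑ kw ≤ th A ≤ A`.
-/

set_option autoImplicit false
set_option linter.all false

namespace Pool.Agent.THX

open Real MeasureTheory Set Filter Topology
open Pool.Agent.TX1 (pt ell TM TN Fac HM Gr)

private noncomputable def jR (l : ℝ) (g : ℂ → ℂ) (φ : ℝ) : ℂ :=
  pt 0 φ * (deriv g (pt 0 φ) - deriv g 0) + l * (g (pt 0 φ) - deriv g 0 * pt 0 φ)

private theorem jp_norm (φ : ℝ) : ‖pt 0 φ‖ = 1 := by
  unfold pt
  rw [Complex.ofReal_zero, zero_add, Complex.norm_exp_ofReal_mul_I]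

private theorem jp_deriv (φ : ℝ) : HasDerivAt (fun φ : ℝ => pt 0 φ) (pt 0 φ * Complex.I) φ := by
  unfold pt
  have h1 : HasDerivAt (fun φ : ℝ => ((0 : ℝ) : ℂ) + (φ : ℂ) * Complex.I) Complex.I φ := by
    have := ((Complex.ofRealCLM.hasDerivAt (x := φ)).mul_const Complex.I).const_add ((0 : ℝ) : ℂ)
    simpa using this
  exact h1.cexp

private theorem jR_bd {l th A h : ℝ} {n : ℕ} {x y : Fin n → ℝ} {g F : ℂ → ℂ} (h1 : 1 ≤ l)
    (h2 : l ≤ 5 / 4) (hD : Dat th A h n x y g F) (φ : ℝ) : ‖jR l g φ‖ ≤ 9 / 4 * h := by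
  have hn := jp_norm φ
  have he : (1 : ℝ) ≤ exp 2 := by
    rw [← exp_zero]
    exact exp_le_exp.2 (by norm_num)
  obtain ⟨h3, h4, h5⟩ := hD.hH (pt 0 φ) (by rw [hn]; exact he)
  unfold jR
  have hl : ‖(l : ℂ)‖ = l := by
    rw [Complex.norm_real, Real.norm_eq_abs, abs_of_nonneg (by linarith)]
  calc ‖pt 0 φ * (deriv g (pt 0 φ) - deriv g 0) + l * (g (pt 0 φ) - deriv g 0 * pt 0 φ)‖
      ≤ ‖pt 0 φ * (deriv g (pt 0 φ) - deriv g 0)‖ + ‖(l : ℂ) * (g (pt 0 φ) - deriv g 0 * pt 0 φ)‖ :=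
        norm_add_le _ _
    _ = ‖deriv g (pt 0 φ) - deriv g 0‖ + l * ‖g (pt 0 φ) - deriv g 0 * pt 0 φ‖ := by
        rw [norm_mul, norm_mul, hn, hl, one_mul]
    _ ≤ h + 5 / 4 * h := by
        have h0 := hD.hh0
        have := mul_le_mul h2 h3 (norm_nonneg _) (by norm_num)
        linarith
    _ = 9 / 4 * h := by ring

private theorem jR_deriv {l th A h : ℝ} {n : ℕ} {x y : Fin n → ℝ} {g F : ℂ → ℂ} (h1 : 1 ≤ l)
    (h2 : l ≤ 5 / 4) (hD : Dat th A h n x y g F) (φ : ℝ) : ∃ D : ℂ, HasDerivAt (jR l g) D φ ∧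
      ‖D‖ ≤ 4 * h := by
  have hn := jp_norm φ
  have he : (1 : ℝ) ≤ exp 2 := by
    rw [← exp_zero]
    exact exp_le_exp.2 (by norm_num)
  have he3 : (1 : ℝ) ≤ exp 3 := by
    rw [← exp_zero]
    exact exp_le_exp.2 (by norm_num)
  obtain ⟨h3, h4, h5⟩ := hD.hH (pt 0 φ) (by rw [hn]; exact he)
  obtain ⟨ρ, hρ, hg⟩ := hD.hg
  have hmem : pt 0 φ ∈ Metric.ball (0 : ℂ) ρ := by
    rw [mem_ball_zero_iff, hn]
    linarith
  have hnh : Metric.ball (0 : ℂ) ρ ∈ 𝓝 (pt 0 φ) := Metric.isOpen_ball.mem_nhds hmem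
  have d1 : HasDerivAt g (deriv g (pt 0 φ)) (pt 0 φ) := (hg.differentiableAt hnh).hasDerivAt
  have d2 : HasDerivAt (deriv g) (deriv (deriv g) (pt 0 φ)) (pt 0 φ) :=
    ((hg.deriv Metric.isOpen_ball).differentiableAt hnh).hasDerivAt
  have d3 := jp_deriv φ
  have d4 : HasDerivAt (fun z : ℂ => z * (deriv g z - deriv g 0) + l * (g z - deriv g 0 * z))
      (1 * (deriv g (pt 0 φ) - deriv g 0) + pt 0 φ * deriv (deriv g) (pt 0 φ)
        + l * (deriv g (pt 0 φ) - deriv g 0 * 1)) (pt 0 φ) :=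
    ((hasDerivAt_id (pt 0 φ)).mul (d2.sub_const (deriv g 0))).add
      ((d1.sub ((hasDerivAt_id (pt 0 φ)).const_mul (deriv g 0))).const_mul (l : ℂ))
  refine ⟨_, d4.scomp φ d3, ?_⟩
  have hl : ‖(l : ℂ)‖ = l := by
    rw [Complex.norm_real, Real.norm_eq_abs, abs_of_nonneg (by linarith)]
  rw [norm_smul, norm_mul, hn, Complex.norm_I, one_mul, one_mul, one_mul, mul_one]
  have h0 := hD.hh0
  have b1 : ‖pt 0 φ * deriv (deriv g) (pt 0 φ)‖ ≤ h := by
    rw [norm_mul, hn, one_mul]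
    exact h5
  have b2 : ‖(l : ℂ) * (deriv g (pt 0 φ) - deriv g 0)‖ ≤ 5 / 4 * h := by
    rw [norm_mul, hl]
    exact mul_le_mul h2 h4 (norm_nonneg _) (by norm_num)
  have b3 := norm_add_le (deriv g (pt 0 φ) - deriv g 0 + pt 0 φ * deriv (deriv g) (pt 0 φ))
    ((l : ℂ) * (deriv g (pt 0 φ) - deriv g 0))
  have b4 := norm_add_le (deriv g (pt 0 φ) - deriv g 0) (pt 0 φ * deriv (deriv g) (pt 0 φ))
  linarith

private theorem jR_lip {l th A h : ℝ} {n : ℕ} {x y : Fin n → ℝ} {g F : ℂ → ℂ} (h1 : 1 ≤ l)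
    (h2 : l ≤ 5 / 4) (hD : Dat th A h n x y g F) (a b : ℝ) :
    ‖jR l g a - jR l g b‖ ≤ 4 * h * |a - b| := by
  have hc : ∀ φ, ∃ D : ℂ, HasDerivAt (jR l g) D φ ∧ ‖D‖ ≤ 4 * h := jR_deriv h1 h2 hD
  choose D hD1 hD2 using hc
  have := Convex.norm_image_sub_le_of_norm_hasDerivWithin_le (f := jR l g) (f' := D)
    (s := Set.univ) (x := b) (y := a) (C := 4 * h)
    (fun φ _ => (hD1 φ).hasDerivWithinAt) (fun φ _ => hD2 φ) convex_univ (mem_univ _) (mem_univ _)
  rwa [Real.norm_eq_abs] at this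

private theorem jR_cont {l th A h : ℝ} {n : ℕ} {x y : Fin n → ℝ} {g F : ℂ → ℂ} (h1 : 1 ≤ l)
    (h2 : l ≤ 5 / 4) (hD : Dat th A h n x y g F) : Continuous (jR l g) := by
  rw [continuous_iff_continuousAt]
  intro φ
  obtain ⟨D, h3, -⟩ := jR_deriv h1 h2 hD φ
  exact h3.continuousAt

private theorem jg_sin {l : ℝ} (h1 : 1 ≤ l) (h2 : l ≤ 5 / 4) :
    ∫ θ in (-π)..π, gam l θ * sin θ = 0 := by
  have e := intervalIntegral.integral_comp_neg (a := -π) (b := π) (fun θ => gam l θ * sin θ)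
  simp only [gam_even, sin_neg, mul_neg, neg_neg, intervalIntegral.integral_neg] at e
  linarith

private theorem th_eq {l th A h : ℝ} {n : ℕ} {x y : Fin n → ℝ} {g F : ℂ → ℂ} (h1 : 1 ≤ l)
    (h2 : l ≤ 5 / 4) (hD : Dat th A h n x y g F) (ψ : ℝ) :
    TH l F 0 ψ = (l * (∑ i, max (-(x i)) 0) + nB x) * (∫ θ in (-π)..π, gam l θ)
      + (∑ i, J1 l (x i) (y i) ψ)
      - (1 + l) * A * (cos ψ * (∫ θ in (-π)..π, gam l θ * cos θ))
      + ∫ θ in (-π)..π, gam l θ * (jR l g (θ + ψ)).re := by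
  obtain ⟨C1, hC1, hV⟩ := vb_L1
  obtain ⟨C2, hC2, hS⟩ := vs_L1
  have hgc := gam_cont h1 h2
  have hRc := jR_cont h1 h2 hD
  have e0 : ∀ θ, gam l θ * ql l F (pt 0 (θ + ψ)) =
      (l * (∑ i, max (-(x i)) 0) + nB x) * gam l θ
        + (∑ i, gam l θ * (VS (x i) (y i) 0 (θ + ψ) + l * VV (x i) (y i) 0 (θ + ψ)))
        - (1 + l) * A * (gam l θ * cos (θ + ψ)) + gam l θ * (jR l g (θ + ψ)).re := by
    intro θ
    rw [dec_ql hD l (θ + ψ), ← Finset.mul_sum]
    unfold jR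
    ring
  have i1 : IntervalIntegrable (fun θ => (l * (∑ i, max (-(x i)) 0) + nB x) * gam l θ)
      volume (-π) π := (hgc.const_mul _).intervalIntegrable _ _
  have i2 : ∀ i ∈ Finset.univ, IntervalIntegrable (fun θ => gam l θ * (VS (x i) (y i) 0 (θ + ψ)
      + l * VV (x i) (y i) 0 (θ + ψ))) volume (-π) π := by
    intro i _
    have a1 : IntervalIntegrable (fun θ => VV (x i) (y i) 0 (θ + ψ)) volume (-π) π := by
      have := ((hV (x i) (y i) 0 le_rfl (by norm_num)).1 (-π + ψ) (π + ψ)).comp_add_right ψ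
      simpa using this
    have a2 : Continuous (fun θ => VS (x i) (y i) 0 (θ + ψ)) :=
      (hS (x i) (y i) (hD.hx i)).1.comp (continuous_id.add continuous_const)
    exact ((a2.intervalIntegrable _ _).add (a1.const_mul l)).continuousOn_mul hgc.continuousOn
  have i2' : IntervalIntegrable (fun θ => ∑ i, gam l θ * (VS (x i) (y i) 0 (θ + ψ)
      + l * VV (x i) (y i) 0 (θ + ψ))) volume (-π) π := by
    have := IntervalIntegrable.sum (μ := volume) (a := -π) (b := π) Finset.univ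
      (f := fun i θ => gam l θ * (VS (x i) (y i) 0 (θ + ψ) + l * VV (x i) (y i) 0 (θ + ψ))) i2
    have e : (fun θ => ∑ i, gam l θ * (VS (x i) (y i) 0 (θ + ψ)
        + l * VV (x i) (y i) 0 (θ + ψ))) = ∑ i, fun θ => gam l θ * (VS (x i) (y i) 0 (θ + ψ)
        + l * VV (x i) (y i) 0 (θ + ψ)) := by
      funext θ
      rw [Finset.sum_apply]
    rw [e]
    exact this
  have i3 : IntervalIntegrable (fun θ => (1 + l) * A * (gam l θ * cos (θ + ψ))) volume (-π) π :=
    Continuous.intervalIntegrable (by fun_prop) _ _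
  have i4 : IntervalIntegrable (fun θ => gam l θ * (jR l g (θ + ψ)).re) volume (-π) π :=
    Continuous.intervalIntegrable (hgc.mul (Complex.continuous_re.comp
      (hRc.comp (continuous_id.add continuous_const)))) _ _
  have e1 : ∫ θ in (-π)..π, gam l θ * cos (θ + ψ) = cos ψ * (∫ θ in (-π)..π, gam l θ * cos θ) := by
    have e2 : ∀ θ, gam l θ * cos (θ + ψ) = cos ψ * (gam l θ * cos θ) - sin ψ * (gam l θ * sin θ) := by
      intro θ
      rw [cos_add]
      ring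
    simp_rw [e2]
    rw [intervalIntegral.integral_sub, intervalIntegral.integral_const_mul,
      intervalIntegral.integral_const_mul, jg_sin h1 h2, mul_zero, sub_zero]
    · exact Continuous.intervalIntegrable (by fun_prop) _ _
    · exact Continuous.intervalIntegrable (by fun_prop) _ _
  unfold TH
  simp_rw [e0]
  rw [intervalIntegral.integral_add ((i1.add i2').sub i3) i4,
    intervalIntegral.integral_sub (i1.add i2') i3, intervalIntegral.integral_add i1 i2',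
    intervalIntegral.integral_const_mul, intervalIntegral.integral_const_mul,
    intervalIntegral.integral_finset_sum i2, e1]
  rfl

private theorem jg_bd {l : ℝ} (h1 : 1 ≤ l) (h2 : l ≤ 5 / 4) {u : ℝ → ℝ} {M : ℝ}
    (hu : ∀ θ, |u θ| ≤ M) : |∫ θ in (-π)..π, gam l θ * u θ| ≤ 8 * π * M := by
  have h3 := intervalIntegral.norm_integral_le_of_norm_le_const (a := -π) (b := π) (C := 4 * M)
    (f := fun θ => gam l θ * u θ) (fun θ _ => by
      rw [Real.norm_eq_abs, abs_mul]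
      have h4 : 0 ≤ gam l θ := by
        have := gam_low h1 h2 θ
        have := neg_one_le_cos θ
        linarith
      rw [abs_of_nonneg h4]
      exact mul_le_mul (gam_up h1 h2 θ) (hu θ) (abs_nonneg _) (by norm_num))
  rw [Real.norm_eq_abs] at h3
  have h5 : |π - -π| = 2 * π := by
    rw [abs_of_nonneg (by linarith [pi_pos])]
    ring
  rw [h5] at h3
  linarith

private theorem nB_nonneg {n : ℕ} (x : Fin n → ℝ) : 0 ≤ nB x := by
  unfold nB
  exact Finset.sum_nonneg fun i _ => by split_ifs <;> norm_num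

theorem th_bd : ∃ C : ℝ, 1 ≤ C ∧ ∀ (l th A h ψ : ℝ) (n : ℕ) (x y : Fin n → ℝ) (g F : ℂ → ℂ), 1 ≤ l → l ≤ 5 / 4 →
    Dat th A h n x y g F → |TH l F 0 ψ| ≤ C * A := by
  obtain ⟨C, hC, hJ⟩ := J1_bd
  refine ⟨C + 100 * π, by linarith [pi_pos], fun l th A h ψ n x y g F h1 h2 hD => ?_⟩
  rw [th_eq h1 h2 hD ψ]
  have hA : 0 < A := by
    have := hD.hA
    have := hD.hth
    by_contra hc
    push Not at hc
    have := mul_nonpos_of_nonneg_of_nonpos hD.hth.le hc
    linarith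
  have hthA : th * A ≤ A := by
    have := mul_le_mul_of_nonneg_right hD.hth1 hA.le
    linarith
  have b1 : |(∫ θ in (-π)..π, gam l θ)| ≤ 8 * π := by
    have := jg_bd h1 h2 (u := fun _ => 1) (M := 1) (fun _ => by simp)
    simpa using this
  have b2 : |(∫ θ in (-π)..π, gam l θ * cos θ)| ≤ 8 * π := by
    have := jg_bd h1 h2 (u := cos) (M := 1) abs_cos_le_one
    simpa using this
  have b3 : |∫ θ in (-π)..π, gam l θ * (jR l g (θ + ψ)).re| ≤ 8 * π * (9 / 4 * h) :=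
    jg_bd h1 h2 (u := fun θ => (jR l g (θ + ψ)).re) fun θ =>
      (Complex.abs_re_le_norm _).trans (jR_bd h1 h2 hD _)
  have b4 : |∑ i, J1 l (x i) (y i) ψ| ≤ C * A := by
    calc |∑ i, J1 l (x i) (y i) ψ| ≤ ∑ i, |J1 l (x i) (y i) ψ| := Finset.abs_sum_le_sum_abs _ _
      _ ≤ ∑ i, C * kw (x i) := Finset.sum_le_sum fun i _ => hJ l (x i) (y i) ψ h1 h2 (hD.hx i)
      _ = C * ∑ i, kw (x i) := by rw [Finset.mul_sum]
      _ ≤ C * A := mul_le_mul_of_nonneg_left (hD.hK.trans hthA) (by linarith)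
  have c0 : 0 ≤ ∑ i, max (-(x i)) 0 := Finset.sum_nonneg fun i _ => le_max_right _ _
  have c1 : |(l * (∑ i, max (-(x i)) 0) + nB x) * (∫ θ in (-π)..π, gam l θ)| ≤
      9 / 4 * A * (8 * π) := by
    rw [abs_mul]
    refine mul_le_mul ?_ b1 (abs_nonneg _) (by positivity)
    rw [abs_of_nonneg (add_nonneg (mul_nonneg (by linarith) c0) (nB_nonneg x))]
    have d1 := mul_le_mul h2 (hD.hc.trans hthA) c0 (by norm_num)
    have d2 := hD.hn.trans hthA
    linarith
  have c2 : |(1 + l) * A * (cos ψ * (∫ θ in (-π)..π, gam l θ * cos θ))| ≤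
      9 / 4 * A * (8 * π) := by
    rw [abs_mul, abs_mul (cos ψ), abs_of_nonneg (by positivity : 0 ≤ (1 + l) * A)]
    refine mul_le_mul (mul_le_mul_of_nonneg_right (by linarith) hA.le) ?_ (by positivity)
      (by positivity)
    have := mul_le_mul (abs_cos_le_one ψ) b2 (abs_nonneg _) (by norm_num)
    linarith
  have c3 : 8 * π * (9 / 4 * h) ≤ 9 / 4 * A * (8 * π) := by
    have := mul_le_mul_of_nonneg_left (hD.hh.trans hthA) (by positivity : 0 ≤ 8 * π * (9 / 4))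
    linarith
  rw [abs_le] at b3 b4 c1 c2 ⊢
  have : 0 ≤ π * A := by positivity
  constructor <;> nlinarith

theorem jump : ∃ C : ℝ, 1 ≤ C ∧ ∀ (l th A h ψ : ℝ) (n : ℕ) (x y : Fin n → ℝ) (g F : ℂ → ℂ), 1 ≤ l → l ≤ 5 / 4 →
    |ψ| ≤ 1 / 2 → Dat th A h n x y g F → TH l F 0 ψ - TH l F 0 0 ≤ C * (A * ψ ^ 2 + |ψ| * XX x y h) := by
  obtain ⟨C, hC, hJ⟩ := jump_one
  refine ⟨C + 100 * π, by linarith [pi_pos], fun l th A h ψ n x y g F h1 h2 hψ hD => ?_⟩
  rw [th_eq h1 h2 hD ψ, th_eq h1 h2 hD 0]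
  have hA : 0 < A := by
    by_contra hc
    push Not at hc
    have := mul_nonpos_of_nonneg_of_nonpos hD.hth.le hc
    linarith [hD.hA]
  have hthA : th * A ≤ A := by
    have := mul_le_mul_of_nonneg_right hD.hth1 hA.le
    linarith
  have h0 := hD.hh0
  have b2 : |(∫ θ in (-π)..π, gam l θ * cos θ)| ≤ 8 * π := by
    have := jg_bd h1 h2 (u := cos) (M := 1) abs_cos_le_one
    simpa using this
  have hRc := jR_cont h1 h2 hD
  have hgc := gam_cont h1 h2
  have b3 : |(∫ θ in (-π)..π, gam l θ * (jR l g (θ + ψ)).re)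
      - ∫ θ in (-π)..π, gam l θ * (jR l g (θ + 0)).re| ≤ 8 * π * (4 * h * |ψ|) := by
    rw [← intervalIntegral.integral_sub]
    · have := jg_bd h1 h2 (u := fun θ => (jR l g (θ + ψ)).re - (jR l g (θ + 0)).re)
        (M := 4 * h * |ψ|) fun θ => by
          rw [← Complex.sub_re]
          refine (Complex.abs_re_le_norm _).trans ?_
          have := jR_lip h1 h2 hD (θ + ψ) (θ + 0)
          have e : θ + ψ - (θ + 0) = ψ := by ring
          rwa [e] at this
      simpa only [mul_sub] using this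
    · exact Continuous.intervalIntegrable (hgc.mul (Complex.continuous_re.comp
        (hRc.comp (continuous_id.add continuous_const)))) _ _
    · exact Continuous.intervalIntegrable (hgc.mul (Complex.continuous_re.comp
        (hRc.comp (continuous_id.add continuous_const)))) _ _
  have b4 : (∑ i, J1 l (x i) (y i) ψ) - (∑ i, J1 l (x i) (y i) 0) ≤
      C * (A * ψ ^ 2 + |ψ| * ∑ i, dd (y i) * kw (x i)) := by
    rw [← Finset.sum_sub_distrib]
    calc ∑ i, (J1 l (x i) (y i) ψ - J1 l (x i) (y i) 0)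
        ≤ ∑ i, C * kw (x i) * |ψ| * (dd (y i) + |ψ|) := Finset.sum_le_sum fun i _ =>
          (le_abs_self _).trans (hJ l (x i) (y i) ψ h1 h2 (hD.hx i) hψ)
      _ = C * (ψ ^ 2 * (∑ i, kw (x i)) + |ψ| * ∑ i, dd (y i) * kw (x i)) := by
          rw [Finset.mul_sum, Finset.mul_sum, ← Finset.sum_add_distrib, Finset.mul_sum]
          refine Finset.sum_congr rfl fun i _ => ?_
          rw [← sq_abs ψ]
          ring
      _ ≤ C * (A * ψ ^ 2 + |ψ| * ∑ i, dd (y i) * kw (x i)) := by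
          refine mul_le_mul_of_nonneg_left ?_ (by linarith)
          have := mul_le_mul_of_nonneg_left (hD.hK.trans hthA) (sq_nonneg ψ)
          linarith
  have b5 : (1 - cos ψ) * (∫ θ in (-π)..π, gam l θ * cos θ) ≤ ψ ^ 2 / 2 * (8 * π) := by
    have c1 := one_sub_sq_div_two_le_cos (x := ψ)
    have c2 := cos_le_one ψ
    calc (1 - cos ψ) * (∫ θ in (-π)..π, gam l θ * cos θ)
        ≤ (1 - cos ψ) * (8 * π) := mul_le_mul_of_nonneg_left ((le_abs_self _).trans b2)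
          (by linarith)
      _ ≤ ψ ^ 2 / 2 * (8 * π) := mul_le_mul_of_nonneg_right (by linarith) (by positivity)
  have b6 : (1 + l) * A * ((1 - cos ψ) * (∫ θ in (-π)..π, gam l θ * cos θ)) ≤
      9 / 4 * A * (ψ ^ 2 / 2 * (8 * π)) := by
    refine (mul_le_mul_of_nonneg_left b5 (by positivity)).trans ?_
    exact mul_le_mul_of_nonneg_right (mul_le_mul_of_nonneg_right (by linarith) hA.le)
      (by positivity)
  have hS : 0 ≤ ∑ i, dd (y i) * kw (x i) :=
    Finset.sum_nonneg fun i _ => mul_nonneg (dd_nonneg _) (kw_pos _).le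
  have b7 := (abs_le.1 b3).2
  unfold XX
  rw [cos_zero, one_mul]
  have p1 : 0 ≤ A * ψ ^ 2 := by positivity
  have p2 : 0 ≤ |ψ| * h := by positivity
  have p3 : 0 ≤ |ψ| * ∑ i, dd (y i) * kw (x i) := by positivity
  have q1 : 0 ≤ π * (A * ψ ^ 2) := by positivity
  have q2 : 0 ≤ π * (|ψ| * h) := by positivity
  have q3 : 0 ≤ π * (|ψ| * ∑ i, dd (y i) * kw (x i)) := by positivity
  have q4 : 0 ≤ C * (|ψ| * h) := mul_nonneg (by linarith) p2
  nlinarith

end Pool.Agent.THX
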