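import Pool.Agent.THX.ChainD
import Pool.Agent.THX.VBd
import Pool.Agent.THX.Disc

/-!
# THX, module XBd: the first order quantities of the chain

`Y k = ∑_{II k} dd (y i - ψ k)`, `N k = #II k`, `Q k = ∑_{II k} dd (y i - ψ k)²`, `r k = |ψ (k+1) - ψ k|`.
`x_bd`: the zeros are: `x i < τ 0`; in one `II k`, `k < J`; `x i > τ J` (`hx`, monotone `τ`).  For `i ∈ II k`: `dd (y i - ψ j) ≤ dd (y i - ψ k) + |ψ j - ψ k|` (`dd_lip`),
`|ψ j - ψ k| ≤ ∑ r`, `kw (x i - τ j) ≤ exp 2 * kap j k`.  `x i < τ 0`: `kw (x i - τ j) ≤ exp (1/2) exp (-j)`, number `≤ θ A 0` (`dat 0`, `hn`).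
`x i > τ J`: `kw (x i - τ j) ≤ exp 1 * exp (-2(J-j)) kw (x i - τ J)`, `∑ kw (x i - τ J) ≤ θ A J` (`dat J`, `hK`).  `hh`: `far`.
`n_bd`: `N k ≤ exp 3 * θ * A k` (`dat k`, `hK`: `0 < x i - τ k < 3/2`).  `y_sq`: Cauchy-Schwarz.
`nh_bd`: a zero counted by `nNH` at `j` has `|x i - τ j| ≤ 3`, so it is in `II k` with `|k - j| ≤ 4`, or `x i < τ 0` (then `j ≤ 4`), or `x i > τ J` (then `j ≥ J - 4`); in `II k`: `dd (y i - ψ k) ≥ 1/2 - 4/100·... ≥ 1/4`
(`rot1`), so it is counted by `16 Q k`; each `k` for at most `9` values of `j`, `w j ≤ C w k`.  Outside: number `≤ C θ A 0`, `C θ A J`.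
-/

set_option autoImplicit false
set_option linter.all false

namespace Pool.Agent.THX

open Real MeasureTheory Set Filter Topology
open Pool.Agent.TX1 (pt ell TM TN Fac HM Gr)

/-- sum of the chordal distances in a window -/
noncomputable def Yw {n : ℕ} (x y : Fin n → ℝ) (τ ψ : ℕ → ℝ) (k : ℕ) : ℝ := ∑ i ∈ II x τ k, dd (y i - ψ k)

/-- sum of their squares -/
noncomputable def Qw {n : ℕ} (x y : Fin n → ℝ) (τ ψ : ℕ → ℝ) (k : ℕ) : ℝ := ∑ i ∈ II x τ k, dd (y i - ψ k) ^ 2

/-! ### auxiliary facts -/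

lemma xbd_dd_nonneg (a : ℝ) : 0 ≤ dd a := by unfold dd; positivity

lemma xbd_dd_le (a : ℝ) : dd a ≤ 2 := by
  unfold dd
  have := abs_cos_le_one (a / 2)
  linarith

lemma xbd_dd_lip (a b : ℝ) : dd a ≤ dd b + |a - b| := by
  unfold dd
  have h1 : |cos (a / 2) - cos (b / 2)| ≤ |a / 2 - b / 2| := by
    have := (Real.lipschitzWith_cos).dist_le_mul (a / 2) (b / 2)
    simpa [Real.dist_eq] using this
  have h2 : |a / 2 - b / 2| = |a - b| / 2 := by
    rw [← sub_div, abs_div]
    norm_num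
  have h3 := abs_sub_abs_le_abs_sub (cos (a / 2)) (cos (b / 2))
  rw [h2] at h1
  linarith

lemma xbd_kw_le_exp (z : ℝ) : kw z ≤ exp z := exp_le_exp.2 (min_le_left _ _)

lemma xbd_kw_le_exp2 (z : ℝ) : kw z ≤ exp (-(2 * z)) := exp_le_exp.2 (min_le_right _ _)

/-- telescoping -/
lemma xbd_tele_le (ψ : ℕ → ℝ) {a b : ℕ} (hab : a ≤ b) :
    |ψ b - ψ a| ≤ ∑ i ∈ Finset.Ico a b, |ψ (i + 1) - ψ i| := by
  rw [← Finset.sum_Ico_sub ψ hab]
  exact Finset.abs_sum_le_sum_abs _ _

lemma xbd_tele (ψ : ℕ → ℝ) (j k : ℕ) :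
    |ψ j - ψ k| ≤ ∑ i ∈ Finset.Ico (min j k) (max j k), |ψ (i + 1) - ψ i| := by
  rcases le_total j k with h | h
  · rw [min_eq_left h, max_eq_right h, abs_sub_comm]
    exact xbd_tele_le ψ h
  · rw [min_eq_right h, max_eq_left h]
    exact xbd_tele_le ψ h

/-- the location of a point -/
lemma xbd_loc (τ : ℕ → ℝ) (z : ℝ) (m : ℕ) (hz : ∀ j ≤ m, z ≠ τ j) :
    z < τ 0 ∨ (∃ k < m, τ k < z ∧ z < τ (k + 1)) ∨ τ m < z := by
  induction m with
  | zero =>
    rcases lt_trichotomy z (τ 0) with h | h | h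
    · exact Or.inl h
    · exact absurd h (hz 0 le_rfl)
    · exact Or.inr (Or.inr h)
  | succ m ih =>
    rcases ih (fun j hj => hz j (by omega)) with h | ⟨k, hk, h⟩ | h
    · exact Or.inl h
    · exact Or.inr (Or.inl ⟨k, by omega, h⟩)
    · rcases lt_trichotomy z (τ (m + 1)) with h1 | h1 | h1
      · exact Or.inr (Or.inl ⟨m, by omega, h, h1⟩)
      · exact absurd h1 (hz _ le_rfl)
      · exact Or.inr (Or.inr h1)

/-- partition of the zeros -/
lemma xbd_part {n : ℕ} (x : Fin n → ℝ) (τ : ℕ → ℝ) (J : ℕ) (hx : ∀ j ≤ J, ∀ i, x i ≠ τ j)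
    (F : Fin n → ℝ) (hF : ∀ i, 0 ≤ F i) :
    ∑ i, F i ≤ ∑ i ∈ Finset.univ.filter (fun i => x i < τ 0), F i +
      ∑ k ∈ Finset.range J, ∑ i ∈ II x τ k, F i +
      ∑ i ∈ Finset.univ.filter (fun i => τ J < x i), F i := by
  classical
  have h1 : ∀ i, F i ≤ (if x i < τ 0 then F i else 0) +
      (∑ k ∈ Finset.range J, if τ k < x i ∧ x i < τ (k + 1) then F i else 0) +
      (if τ J < x i then F i else 0) := by
    intro i
    have p1 : 0 ≤ (if x i < τ 0 then F i else 0) := by split_ifs <;> simp [hF i]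
    have p2 : ∀ k ∈ Finset.range J, 0 ≤ (if τ k < x i ∧ x i < τ (k + 1) then F i else 0) := by
      intro k _
      split_ifs <;> simp [hF i]
    have p2' := Finset.sum_nonneg p2
    have p3 : 0 ≤ (if τ J < x i then F i else 0) := by split_ifs <;> simp [hF i]
    rcases xbd_loc τ (x i) J (fun j hj => hx j hj i) with h | ⟨k, hk, h⟩ | h
    · rw [if_pos h]
      linarith
    · have h2 := Finset.single_le_sum p2 (Finset.mem_range.2 hk)
      rw [if_pos h] at h2
      linarith
    · rw [if_pos h]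
      linarith
  refine (Finset.sum_le_sum fun i _ => h1 i).trans (le_of_eq ?_)
  rw [Finset.sum_add_distrib, Finset.sum_add_distrib, Finset.sum_comm, ← Finset.sum_filter,
    ← Finset.sum_filter]
  congr 2
  refine Finset.sum_congr rfl fun k _ => ?_
  rw [← Finset.sum_filter]
  rfl

lemma xbd_sum_ite_le (s : Finset ℕ) (P : ℕ → Prop) [DecidablePred P] {c : ℝ} (hc : 0 ≤ c) {m : ℕ}
    (h : (s.filter P).card ≤ m) : ∑ j ∈ s, (if P j then c else 0) ≤ m * c := by
  rw [← Finset.sum_filter, Finset.sum_const, nsmul_eq_mul]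
  have : ((s.filter P).card : ℝ) ≤ m := by exact_mod_cast h
  gcongr

section

variable {C0 θ T : ℝ} {f h : ℂ → ℂ} {J n : ℕ} {x y : Fin n → ℝ} {τ ψ A hh : ℕ → ℝ}

lemma xbd_A (hc : Chain C0 θ f T J n x y h τ ψ A hh) {j : ℕ} (hj : j ≤ J) : 0 < A j := by
  have h1 := (hc.dat j hj).hA
  have h2 := (hc.dat j hj).hth
  by_contra hcon
  push Not at hcon
  nlinarith

lemma xbd_th (hc : Chain C0 θ f T J n x y h τ ψ A hh) : 0 < θ := (hc.dat 0 (Nat.zero_le _)).hth

/-- the number of zeros below the chain -/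
lemma xbd_low (hc : Chain C0 θ f T J n x y h τ ψ A hh) :
    (((Finset.univ.filter (fun i => x i < τ 0)).card : ℕ) : ℝ) ≤ θ * A 0 := by
  have h1 := (hc.dat 0 (Nat.zero_le _)).hn
  refine le_trans (le_of_eq ?_) h1
  unfold nB
  rw [← Finset.sum_filter, Finset.sum_const, nsmul_eq_mul, mul_one]
  congr 2
  ext i
  simp

/-- the zeros above the chain -/
lemma xbd_high (hc : Chain C0 θ f T J n x y h τ ψ A hh) :
    ∑ i ∈ Finset.univ.filter (fun i => τ J < x i), kw (x i - τ J) ≤ θ * A J := by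
  refine le_trans ?_ (hc.dat J le_rfl).hK
  exact Finset.sum_le_sum_of_subset_of_nonneg (Finset.filter_subset _ _)
    fun i _ _ => (kw_pos _).le

end

theorem y_sq {n : ℕ} (x y : Fin n → ℝ) (τ ψ : ℕ → ℝ) (k : ℕ) :
    Yw x y τ ψ k ^ 2 ≤ ((II x τ k).card : ℝ) * Qw x y τ ψ k := by
  unfold Yw Qw
  exact sq_sum_le_card_mul_sum_sq

theorem n_bd {C0 θ T : ℝ} {f h : ℂ → ℂ} {J n : ℕ} {x y : Fin n → ℝ} {τ ψ A hh : ℕ → ℝ}
    (hc : Chain C0 θ f T J n x y h τ ψ A hh) {k : ℕ} (hk : k < J) :
    ((II x τ k).card : ℝ) ≤ exp 3 * θ * A k := by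
  have h1 := (hc.dat k hk.le).hK
  have h2 : ((II x τ k).card : ℝ) * exp (-3) ≤ ∑ i, kw (x i - τ k) := by
    calc ((II x τ k).card : ℝ) * exp (-3) = ∑ i ∈ II x τ k, exp (-3) := by
          rw [Finset.sum_const, nsmul_eq_mul]
      _ ≤ ∑ i ∈ II x τ k, kw (x i - τ k) := by
          refine Finset.sum_le_sum fun i hi => ?_
          simp only [II, Finset.mem_filter] at hi
          have h3 := (hc.tau k hk.le).1
          have h4 := (hc.tau (k + 1) hk).2
          push_cast at h4
          rw [kw_nonneg (by linarith [hi.2.1])]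
          apply exp_le_exp.2
          linarith [hi.2.2]
      _ ≤ ∑ i, kw (x i - τ k) :=
          Finset.sum_le_sum_of_subset_of_nonneg (Finset.subset_univ _) fun i _ _ => (kw_pos _).le
  have h5 : exp (-3) * exp 3 = 1 := by
    rw [← exp_add]
    norm_num
  calc ((II x τ k).card : ℝ) = ((II x τ k).card : ℝ) * exp (-3) * exp 3 := by
        rw [mul_assoc, h5, mul_one]
    _ ≤ (θ * A k) * exp 3 := by
        have := exp_pos 3
        have := h2.trans h1
        gcongr
    _ = exp 3 * θ * A k := by ring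

theorem x_bd : ∃ C : ℝ, 1 ≤ C ∧ ∀ (C0 θ T : ℝ) (f h : ℂ → ℂ) (J n : ℕ) (x y : Fin n → ℝ) (τ ψ A hh : ℕ → ℝ),
    Chain C0 θ f T J n x y h τ ψ A hh → ∀ j ≤ J,
    XX (fun i => x i - τ j) (fun i => y i - ψ j) (hh j) ≤
      C * (∑ k ∈ Finset.range J, kap j k * (Yw x y τ ψ k + ((II x τ k).card : ℝ) *
        ∑ i ∈ Finset.Ico (min j k) (max j k), |ψ (i + 1) - ψ i|))
      + C * θ * (exp (-(j : ℝ)) * A 0 + exp (-(2 * ((J : ℝ) - j))) * A J) := by
  refine ⟨exp 2 + 2 * exp 1 + 1, by
    have := exp_pos 2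
    have := exp_pos 1
    linarith, ?_⟩
  intro C0 θ T f h J n x y τ ψ A hh hc j hj
  have hθ := xbd_th hc
  have hA0 := xbd_A hc (Nat.zero_le J)
  have hAJ := xbd_A hc (le_refl J)
  have hJj : (j : ℝ) ≤ J := by exact_mod_cast hj
  unfold XX
  have hpart := xbd_part x τ J hc.hx (fun i => dd (y i - ψ j) * kw (x i - τ j))
    (fun i => mul_nonneg (xbd_dd_nonneg _) (kw_pos _).le)
  -- below
  have hlow : ∑ i ∈ Finset.univ.filter (fun i => x i < τ 0), dd (y i - ψ j) * kw (x i - τ j) ≤
      2 * exp 1 * θ * (exp (-(j : ℝ)) * A 0) := by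
    have h1 : ∀ i ∈ Finset.univ.filter (fun i => x i < τ 0), dd (y i - ψ j) * kw (x i - τ j) ≤
        2 * (exp 1 * exp (-(j : ℝ))) := by
      intro i hi
      rw [Finset.mem_filter] at hi
      have h2 := (hc.tau j hj).1
      have h3 := (hc.tau 0 (Nat.zero_le _)).2
      push_cast at h3
      have h4 : kw (x i - τ j) ≤ exp 1 * exp (-(j : ℝ)) := by
        rw [← exp_add]
        refine (xbd_kw_le_exp _).trans (exp_le_exp.2 ?_)
        linarith [hi.2]
      exact mul_le_mul (xbd_dd_le _) h4 (kw_pos _).le (by norm_num)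
    refine (Finset.sum_le_sum h1).trans ?_
    rw [Finset.sum_const, nsmul_eq_mul]
    have h5 := xbd_low hc
    calc (((Finset.univ.filter (fun i => x i < τ 0)).card : ℕ) : ℝ) * (2 * (exp 1 * exp (-(j : ℝ))))
        ≤ (θ * A 0) * (2 * (exp 1 * exp (-(j : ℝ)))) := by gcongr
      _ = _ := by ring
  -- above
  have hhigh : ∑ i ∈ Finset.univ.filter (fun i => τ J < x i), dd (y i - ψ j) * kw (x i - τ j) ≤
      2 * exp 1 * θ * (exp (-(2 * ((J : ℝ) - j))) * A J) := by
    have h1 : ∀ i ∈ Finset.univ.filter (fun i => τ J < x i), dd (y i - ψ j) * kw (x i - τ j) ≤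
        2 * (exp 1 * exp (-(2 * ((J : ℝ) - j)))) * kw (x i - τ J) := by
      intro i hi
      rw [Finset.mem_filter] at hi
      have h2 := (hc.tau j hj).2
      have h3 := (hc.tau J le_rfl).1
      have h4 : kw (x i - τ j) ≤ exp 1 * exp (-(2 * ((J : ℝ) - j))) * kw (x i - τ J) := by
        rw [kw_nonneg (by linarith [hi.2] : 0 ≤ x i - τ J), ← exp_add, ← exp_add]
        refine (xbd_kw_le_exp2 _).trans (exp_le_exp.2 ?_)
        linarith
      calc dd (y i - ψ j) * kw (x i - τ j)
          ≤ 2 * (exp 1 * exp (-(2 * ((J : ℝ) - j))) * kw (x i - τ J)) :=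
            mul_le_mul (xbd_dd_le _) h4 (kw_pos _).le (by norm_num)
        _ = _ := by ring
    refine (Finset.sum_le_sum h1).trans ?_
    rw [← Finset.mul_sum]
    calc 2 * (exp 1 * exp (-(2 * ((J : ℝ) - j)))) *
          ∑ i ∈ Finset.univ.filter (fun i => τ J < x i), kw (x i - τ J)
        ≤ 2 * (exp 1 * exp (-(2 * ((J : ℝ) - j)))) * (θ * A J) := by
          have := xbd_high hc
          gcongr
      _ = _ := by ring
  -- inside
  have hin : ∑ k ∈ Finset.range J, ∑ i ∈ II x τ k, dd (y i - ψ j) * kw (x i - τ j) ≤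
      exp 2 * (∑ k ∈ Finset.range J, kap j k * (Yw x y τ ψ k + ((II x τ k).card : ℝ) *
        ∑ i ∈ Finset.Ico (min j k) (max j k), |ψ (i + 1) - ψ i|)) := by
    rw [Finset.mul_sum]
    refine Finset.sum_le_sum fun k hk => ?_
    have hkJ : k < J := Finset.mem_range.1 hk
    set S : ℝ := ∑ i ∈ Finset.Ico (min j k) (max j k), |ψ (i + 1) - ψ i| with hS
    have hkap : 0 ≤ kap j k := by
      unfold kap
      split_ifs <;> positivity
    have h1 : ∀ i ∈ II x τ k, dd (y i - ψ j) * kw (x i - τ j) ≤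
        (dd (y i - ψ k) + S) * (exp 2 * kap j k) := by
      intro i hi
      simp only [II, Finset.mem_filter] at hi
      have h2 := hc.tau j hj
      have h3 := hc.tau k hkJ.le
      have h4 := hc.tau (k + 1) hkJ
      push_cast at h4
      have h5 : dd (y i - ψ j) ≤ dd (y i - ψ k) + S := by
        refine (xbd_dd_lip _ (y i - ψ k)).trans ?_
        have h6 := xbd_tele ψ j k
        have h7 : |y i - ψ j - (y i - ψ k)| = |ψ j - ψ k| := by
          rw [show y i - ψ j - (y i - ψ k) = -(ψ j - ψ k) by ring, abs_neg]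
        rw [h7]
        linarith
      have h8 : kw (x i - τ j) ≤ exp 2 * kap j k := by
        unfold kap
        split_ifs with hkj
        · rw [← exp_add]
          refine (xbd_kw_le_exp _).trans (exp_le_exp.2 ?_)
          linarith [hi.2.2]
        · rw [← exp_add]
          refine (xbd_kw_le_exp2 _).trans (exp_le_exp.2 ?_)
          linarith [hi.2.1]
      have h9 : 0 ≤ dd (y i - ψ k) + S := (xbd_dd_nonneg _).trans h5
      exact mul_le_mul h5 h8 (kw_pos _).le h9
    refine (Finset.sum_le_sum h1).trans (le_of_eq ?_)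
    rw [← Finset.sum_mul, Finset.sum_add_distrib, Finset.sum_const, nsmul_eq_mul]
    unfold Yw
    ring
  have hfar := hc.far j hj
  set G0 : ℝ := ∑ k ∈ Finset.range J, kap j k * (Yw x y τ ψ k + ((II x τ k).card : ℝ) *
        ∑ i ∈ Finset.Ico (min j k) (max j k), |ψ (i + 1) - ψ i|) with hG0
  have hG0' : 0 ≤ G0 := by
    refine Finset.sum_nonneg fun k _ => mul_nonneg ?_ (add_nonneg ?_ (mul_nonneg ?_ ?_))
    · unfold kap
      split_ifs <;> positivity
    · exact Finset.sum_nonneg fun i _ => xbd_dd_nonneg _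
    · positivity
    · exact Finset.sum_nonneg fun i _ => abs_nonneg _
  have he1 := exp_pos 1
  have he2 := exp_pos 2
  have hX0 : 0 ≤ θ * (exp (-(j : ℝ)) * A 0) := by positivity
  have hXJ : 0 ≤ θ * (exp (-(2 * ((J : ℝ) - j))) * A J) := by positivity
  have t1 : exp 2 * G0 ≤ (exp 2 + 2 * exp 1 + 1) * G0 := by
    apply mul_le_mul_of_nonneg_right _ hG0'
    linarith
  have t2 : 2 * exp 1 * θ * (exp (-(j : ℝ)) * A 0) ≤
      (exp 2 + 2 * exp 1 + 1) * (θ * (exp (-(j : ℝ)) * A 0)) := by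
    have := mul_le_mul_of_nonneg_right (by linarith : 2 * exp 1 ≤ exp 2 + 2 * exp 1 + 1) hX0
    linarith
  have t3 : 2 * exp 1 * θ * (exp (-(2 * ((J : ℝ) - j))) * A J) +
      θ * exp (-(2 * ((J : ℝ) - j))) * A J ≤
      (exp 2 + 2 * exp 1 + 1) * (θ * (exp (-(2 * ((J : ℝ) - j))) * A J)) := by
    have := mul_le_mul_of_nonneg_right (by linarith : 2 * exp 1 + 1 ≤ exp 2 + 2 * exp 1 + 1) hXJ
    linarith
  linarith

theorem nh_bd : ∃ C : ℝ, 1 ≤ C ∧ ∀ (C0 θ T l : ℝ) (f h : ℂ → ℂ) (J n : ℕ) (x y : Fin n → ℝ) (τ ψ A hh : ℕ → ℝ),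
    Chain C0 θ f T J n x y h τ ψ A hh → 1 ≤ l → l ≤ 5 / 4 →
    ∑ j ∈ Finset.range J, exp (-(l * τ j)) * nNH (fun i => x i - τ j) (fun i => y i - ψ j) ≤
      C * ((∑ k ∈ Finset.range J, exp (-(l * τ k)) * Qw x y τ ψ k)
        + θ * (exp (-(l * τ 0)) * A 0 + exp (-(l * τ J)) * A J)) := by
  classical
  refine ⟨4 + 144 * exp 6 + 3 * (exp 5 * exp 6), by
    have := exp_pos 6
    have : 0 < exp 5 * exp 6 := by positivity
    linarith, ?_⟩
  intro C0 θ T l f h J n x y τ ψ A hh hc hl1 hl2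
  have hθ := xbd_th hc
  have hA0 := xbd_A hc (Nat.zero_le J)
  have hAJ := xbd_A hc (le_refl J)
  set w : ℕ → ℝ := fun j => exp (-(l * τ j)) with hw
  have hw0 : ∀ j, 0 < w j := fun j => exp_pos _
  have hQ0 : ∀ k, 0 ≤ Qw x y τ ψ k := fun k => Finset.sum_nonneg fun i _ => by positivity
  -- comparison of the weights
  have hwle : ∀ j k, j ≤ J → k ≤ J → j ≤ k + 4 → k ≤ j + 4 → w j ≤ exp 6 * w k := by
    intro j k hj hk h1 h2
    have h3 := hc.tau j hj
    have h4 := hc.tau k hk
    have h6 : (k : ℝ) ≤ j + 4 := by exact_mod_cast h2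
    simp only [hw]
    rw [← exp_add]
    apply exp_le_exp.2
    have h7 : τ k - τ j ≤ 9 / 2 := by linarith
    nlinarith
  have hw00 : ∀ j ≤ J, w j ≤ w 0 := by
    intro j hj
    rcases Nat.eq_zero_or_pos j with h0 | h0
    · rw [h0]
    · have h3 := hc.tau j hj
      have h4 := hc.tau 0 (Nat.zero_le _)
      push_cast at h4
      have h5 : (1 : ℝ) ≤ j := by exact_mod_cast h0
      simp only [hw]
      apply exp_le_exp.2
      nlinarith
  -- the bound for one height
  have hone : ∀ j ∈ Finset.range J, nNH (fun i => x i - τ j) (fun i => y i - ψ j) ≤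
      (if j ≤ 3 then θ * A 0 else 0) +
      (∑ k ∈ Finset.range J, if j ≤ k + 4 ∧ k ≤ j + 4 then 16 * Qw x y τ ψ k else 0) +
      (if J ≤ j + 3 then exp 6 * (θ * A J) else 0) := by
    intro j hj
    have hjJ : j < J := Finset.mem_range.1 hj
    have htj := hc.tau j hjJ.le
    unfold nNH
    refine (xbd_part x τ J hc.hx (fun i => if NH (x i - τ j) (y i - ψ j) then (1 : ℝ) else 0)
      (fun i => by split_ifs <;> norm_num)).trans ?_
    refine add_le_add (add_le_add ?_ ?_) ?_
    · split_ifs with h3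
      · refine le_trans ?_ (xbd_low hc)
        calc ∑ i ∈ Finset.univ.filter (fun i => x i < τ 0),
              (if NH (x i - τ j) (y i - ψ j) then (1 : ℝ) else 0)
            ≤ ∑ i ∈ Finset.univ.filter (fun i => x i < τ 0), (1 : ℝ) :=
              Finset.sum_le_sum fun i _ => by split_ifs <;> norm_num
          _ = _ := by simp
      · refine le_of_eq (Finset.sum_eq_zero fun i hi => ?_)
        rw [Finset.mem_filter] at hi
        rw [if_neg]
        rintro ⟨_, hN⟩
        have h4 := (abs_le.1 hN).1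
        have h5 := (hc.tau 0 (Nat.zero_le _)).2
        push_cast at h5
        have h6 : (4 : ℝ) ≤ j := by exact_mod_cast (by omega : 4 ≤ j)
        linarith [hi.2]
    · refine Finset.sum_le_sum fun k hk => ?_
      have hkJ : k < J := Finset.mem_range.1 hk
      have htk := hc.tau k hkJ.le
      have htk1 := hc.tau (k + 1) hkJ
      push_cast at htk1
      split_ifs with h3
      · unfold Qw
        rw [Finset.mul_sum]
        refine Finset.sum_le_sum fun i hi => ?_
        split_ifs with hN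
        · -- the direction
          have h4 : |ψ j - ψ k| ≤ 4 / 100 := by
            refine (xbd_tele ψ j k).trans ?_
            have h5 : ∀ i ∈ Finset.Ico (min j k) (max j k), |ψ (i + 1) - ψ i| ≤ 1 / 100 := by
              intro i hi
              rw [Finset.mem_Ico] at hi
              exact hc.rot1 i (by omega)
            refine (Finset.sum_le_sum h5).trans ?_
            rw [Finset.sum_const, nsmul_eq_mul, Nat.card_Ico]
            have h6 : ((max j k - min j k : ℕ) : ℝ) ≤ 4 := by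
              exact_mod_cast (by omega : max j k - min j k ≤ 4)
            linarith
          have h7 := xbd_dd_lip (y i - ψ j) (y i - ψ k)
          have h8 : |y i - ψ j - (y i - ψ k)| = |ψ j - ψ k| := by
            rw [show y i - ψ j - (y i - ψ k) = -(ψ j - ψ k) by ring, abs_neg]
          rw [h8] at h7
          have h9 : 1 / 4 ≤ dd (y i - ψ k) := by linarith [hN.1]
          nlinarith
        · positivity
      · refine le_of_eq (Finset.sum_eq_zero fun i hi => ?_)
        simp only [II, Finset.mem_filter] at hi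
        rw [if_neg]
        rintro ⟨_, hN⟩
        apply h3
        have h4 := abs_le.1 hN
        constructor
        · have : (j : ℝ) < k + 5 := by linarith [hi.2.2]
          have : j < k + 5 := by exact_mod_cast this
          omega
        · have : (k : ℝ) < j + 5 := by linarith [hi.2.1]
          have : k < j + 5 := by exact_mod_cast this
          omega
    · have htJ := hc.tau J le_rfl
      split_ifs with h3
      · have h4 : ∀ i ∈ Finset.univ.filter (fun i => τ J < x i),
            (if NH (x i - τ j) (y i - ψ j) then (1 : ℝ) else 0) ≤ exp 6 * kw (x i - τ J) := by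
          intro i hi
          rw [Finset.mem_filter] at hi
          split_ifs with hN
          · have h5 := (abs_le.1 hN.2).2
            rw [kw_nonneg (by linarith [hi.2] : 0 ≤ x i - τ J), ← exp_add]
            have h6 : τ j ≤ τ J := by
              have : (j : ℝ) + 1 ≤ J := by exact_mod_cast hjJ
              linarith
            have : 0 ≤ 6 + -(2 * (x i - τ J)) := by linarith
            exact one_le_exp this
          · exact mul_nonneg (exp_pos _).le (kw_pos _).le
        refine (Finset.sum_le_sum h4).trans ?_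
        rw [← Finset.mul_sum]
        have := xbd_high hc
        gcongr
      · refine le_of_eq (Finset.sum_eq_zero fun i hi => ?_)
        rw [Finset.mem_filter] at hi
        rw [if_neg]
        rintro ⟨_, hN⟩
        have h4 := (abs_le.1 hN).2
        have h6 : (j : ℝ) + 4 ≤ J := by exact_mod_cast (by omega : j + 4 ≤ J)
        linarith [hi.2]
  -- summation
  have hsum : ∑ j ∈ Finset.range J, w j * nNH (fun i => x i - τ j) (fun i => y i - ψ j) ≤
      ∑ j ∈ Finset.range J, ((if j ≤ 3 then w 0 * (θ * A 0) else 0) +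
      (∑ k ∈ Finset.range J, if j ≤ k + 4 ∧ k ≤ j + 4 then exp 6 * w k * (16 * Qw x y τ ψ k) else 0) +
      (if J ≤ j + 3 then exp 5 * w J * (exp 6 * (θ * A J)) else 0)) := by
    refine Finset.sum_le_sum fun j hj => ?_
    have hjJ : j < J := Finset.mem_range.1 hj
    refine (mul_le_mul_of_nonneg_left (hone j hj) (hw0 j).le).trans ?_
    rw [mul_add, mul_add]
    refine add_le_add (add_le_add ?_ ?_) ?_
    · split_ifs
      · have := hw00 j hjJ.le
        gcongr
      · simp
    · rw [Finset.mul_sum]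
      refine Finset.sum_le_sum fun k hk => ?_
      have hkJ : k < J := Finset.mem_range.1 hk
      split_ifs with h3
      · have h4 := hwle j k hjJ.le hkJ.le h3.1 h3.2
        have h5 := hQ0 k
        gcongr
      · simp
    · split_ifs with h3
      · have h4 : w j ≤ exp 5 * w J := by
          have h5 := hc.tau j hjJ.le
          have h6 := hc.tau J le_rfl
          have h7 : (J : ℝ) ≤ j + 3 := by exact_mod_cast h3
          simp only [hw]
          rw [← exp_add]
          apply exp_le_exp.2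
          have h8 : τ J - τ j ≤ 7 / 2 := by linarith
          nlinarith
        gcongr
      · simp
  refine hsum.trans ?_
  rw [Finset.sum_add_distrib, Finset.sum_add_distrib]
  have s1 : ∑ j ∈ Finset.range J, (if j ≤ 3 then w 0 * (θ * A 0) else 0) ≤
      (4 : ℕ) * (w 0 * (θ * A 0)) := by
    refine xbd_sum_ite_le _ _ (mul_nonneg (hw0 0).le (by positivity)) ?_
    calc ((Finset.range J).filter (fun j => j ≤ 3)).card ≤ (Finset.range 4).card := by
          refine Finset.card_le_card fun j hj => ?_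
          rw [Finset.mem_filter] at hj
          rw [Finset.mem_range]
          omega
      _ = 4 := by simp
  have s2 : ∑ j ∈ Finset.range J, (∑ k ∈ Finset.range J,
      if j ≤ k + 4 ∧ k ≤ j + 4 then exp 6 * w k * (16 * Qw x y τ ψ k) else 0) ≤
      144 * exp 6 * ∑ k ∈ Finset.range J, w k * Qw x y τ ψ k := by
    rw [Finset.sum_comm, Finset.mul_sum]
    refine Finset.sum_le_sum fun k hk => ?_
    have h4 : ∑ j ∈ Finset.range J,
        (if j ≤ k + 4 ∧ k ≤ j + 4 then exp 6 * w k * (16 * Qw x y τ ψ k) else 0) ≤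
        (9 : ℕ) * (exp 6 * w k * (16 * Qw x y τ ψ k)) := by
      refine xbd_sum_ite_le _ _ (mul_nonneg (mul_nonneg (exp_pos _).le (hw0 k).le)
        (mul_nonneg (by norm_num) (hQ0 k))) ?_
      calc ((Finset.range J).filter (fun j => j ≤ k + 4 ∧ k ≤ j + 4)).card
          ≤ (Finset.Icc (k - 4) (k + 4)).card := by
            refine Finset.card_le_card fun j hj => ?_
            rw [Finset.mem_filter] at hj
            rw [Finset.mem_Icc]
            omega
        _ ≤ 9 := by
            rw [Nat.card_Icc]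
            omega
    refine h4.trans (le_of_eq ?_)
    push_cast
    ring
  have s3 : ∑ j ∈ Finset.range J, (if J ≤ j + 3 then exp 5 * w J * (exp 6 * (θ * A J)) else 0) ≤
      (3 : ℕ) * (exp 5 * w J * (exp 6 * (θ * A J))) := by
    refine xbd_sum_ite_le _ _ (mul_nonneg (mul_nonneg (exp_pos _).le (hw0 J).le)
      (by positivity)) ?_
    calc ((Finset.range J).filter (fun j => J ≤ j + 3)).card ≤ (Finset.Ico (J - 3) J).card := by
          refine Finset.card_le_card fun j hj => ?_
          rw [Finset.mem_filter, Finset.mem_range] at hj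
          rw [Finset.mem_Ico]
          omega
      _ ≤ 3 := by
          rw [Nat.card_Ico]
          omega
  push_cast at s1 s3
  set q : ℝ := ∑ k ∈ Finset.range J, w k * Qw x y τ ψ k with hq
  have hq0 : 0 ≤ q := Finset.sum_nonneg fun k _ => mul_nonneg (hw0 k).le (hQ0 k)
  have he5 := exp_pos 5
  have he6 := exp_pos 6
  have he56 : 0 < exp 5 * exp 6 := by positivity
  have z0 : 0 ≤ θ * (w 0 * A 0) := by have := hw0 0; positivity
  have zJ : 0 ≤ θ * (w J * A J) := by have := hw0 J; positivity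
  have u1 : 4 * (θ * (w 0 * A 0)) ≤ (4 + 144 * exp 6 + 3 * (exp 5 * exp 6)) * (θ * (w 0 * A 0)) := by
    apply mul_le_mul_of_nonneg_right _ z0
    linarith
  have u2 : 144 * exp 6 * q ≤ (4 + 144 * exp 6 + 3 * (exp 5 * exp 6)) * q := by
    apply mul_le_mul_of_nonneg_right _ hq0
    linarith
  have u3 : 3 * (exp 5 * exp 6) * (θ * (w J * A J)) ≤
      (4 + 144 * exp 6 + 3 * (exp 5 * exp 6)) * (θ * (w J * A J)) := by
    apply mul_le_mul_of_nonneg_right _ zJ
    linarith
  have e1 : 4 * (w 0 * (θ * A 0)) = 4 * (θ * (w 0 * A 0)) := by ring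
  have e3 : 3 * (exp 5 * w J * (exp 6 * (θ * A J))) = 3 * (exp 5 * exp 6) * (θ * (w J * A J)) := by
    ring
  have e4 : (4 + 144 * exp 6 + 3 * (exp 5 * exp 6)) * (q + θ * (w 0 * A 0 + w J * A J)) =
      (4 + 144 * exp 6 + 3 * (exp 5 * exp 6)) * q +
      (4 + 144 * exp 6 + 3 * (exp 5 * exp 6)) * (θ * (w 0 * A 0)) +
      (4 + 144 * exp 6 + 3 * (exp 5 * exp 6)) * (θ * (w J * A J)) := by ring
  rw [e1] at s1
  rw [e3] at s3
  rw [e4]
  linarith

end Pool.Agent.THX
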