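import Pool.Agent.THX.Local
import Pool.Agent.THX.Jump
import Pool.Agent.THX.XBd

/-!
# THX, module Glob: the sum over the windows

`w j = exp (-(l τ j))`, `X j = XX` at `j`.  `win_sum`: `local_ineq` at the window `j < J` (`el = τ (j+1) - τ j ∈ [1/2, 3/2]`, `F_j ζ = f (ζ pt (τ j) (ψ j))`, `TM F_j s = TM f (s + τ j)`), times `w j`:
* `TH l F_j s ψ = TH l f (s + τ j) (ψ + ψ j)`, so `TH l F_j el 0 = TH l F_{j+1} 0 (ψ j - ψ (j+1))`; the sum of the boundary terms is
  `∑_{j<J} w (j+1) [TH l F_{j+1} 0 (ψ j - ψ (j+1)) - TH l F_{j+1} 0 0] + w J TH l F_J 0 0 - w 0 TH l F_0 0 0`: `jump`, `th_bd`.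
* cost: `gam_dd`: `2π ∑ exp (-(l (x i - τ j))) gam l (y i - ψ j) ≥ (9/100) Q j`.
* left side: `mh l F_j s ≥ (1/2) TM f (τ j + s)` (`mh_near`, `tm_near`, `θ` small), `c KK l ≥ 1`.
Then `|ψ (j+1) - ψ j| ≤ C0 Y j/A j`, `A (j+1) (C0 Y j/A j)² ≤ C Y j²/A j ≤ C θ Q j` (`y_sq`, `n_bd`), `|Δ| X ≤ A Δ² + X²/A`; `disc` with `r j = |ψ (j+1) - ψ j|`, `N k = #II k` and `θ' = exp 3 * θ` (`x_bd`): `∑ w X²/A ≤ C θ (∑ w Q + ...)`;
`nh_bd`.  Order: `ε` (`ε C_nh ≤ 1/50`), `local_ineq` gives `C, t0, del, k0`, then `θ` small: everything is absorbed in the cost; `A 0 ≤ TM f (τ 0)`, `A J ≤ TM f (τ J)`.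
-/

set_option autoImplicit false
set_option linter.all false

namespace Pool.Agent.THX

open Real MeasureTheory Set Filter Topology
open Pool.Agent.TX1 (pt ell TM TN Fac HM Gr)

private theorem gl_pt_mul (s θ τ φ : ℝ) : pt s θ * pt τ φ = pt (s + τ) (θ + φ) := by
  unfold pt
  rw [← Complex.exp_add]
  congr 1
  push_cast
  ring

theorem TH_shift (l : ℝ) {f : ℂ → ℂ} (hf : Differentiable ℂ f) (s ψ τ φ : ℝ) :
    TH l (fun ζ => f (ζ * pt τ φ)) s ψ = TH l f (s + τ) (ψ + φ) := by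
  unfold TH
  refine intervalIntegral.integral_congr fun θ _ => ?_
  have h1 : pt s (θ + ψ) * pt τ φ = pt (s + τ) (θ + (ψ + φ)) := by
    rw [gl_pt_mul, add_assoc]
  have hd : deriv (fun ζ : ℂ => f (ζ * pt τ φ)) (pt s (θ + ψ))
      = deriv f (pt s (θ + ψ) * pt τ φ) * pt τ φ := by
    have h2 : HasDerivAt (fun ζ : ℂ => ζ * pt τ φ) (pt τ φ) (pt s (θ + ψ)) := by
      simpa using (hasDerivAt_id (pt s (θ + ψ))).mul_const (pt τ φ)
    have h3 := (hf (pt s (θ + ψ) * pt τ φ)).hasDerivAt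
    exact (HasDerivAt.comp (pt s (θ + ψ)) h3 h2).deriv
  show gam l θ * ql l (fun ζ => f (ζ * pt τ φ)) (pt s (θ + ψ)) = gam l θ * ql l f (pt (s + τ) (θ + (ψ + φ)))
  congr 1
  unfold ql
  rw [hd, ← h1]
  congr 2
  ring

theorem TM_shift (f : ℂ → ℂ) (s τ φ : ℝ) : TM (fun ζ => f (ζ * pt τ φ)) s = TM f (s + τ) := by
  rw [Pool.Agent.TX1.TM_eq _ s 0, Pool.Agent.TX1.TM_eq f (s + τ) (0 + φ)]
  have h1 : ∀ θ : ℝ, 1 / 2 * log (‖f (pt s θ * pt τ φ)‖ ^ 2 + 1)
      = (fun θ : ℝ => 1 / 2 * log (‖f (pt (s + τ) θ)‖ ^ 2 + 1)) (θ + φ) := by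
    intro θ
    simp only [gl_pt_mul]
  simp only [h1]
  rw [intervalIntegral.integral_comp_add_right (fun θ : ℝ => 1 / 2 * log (‖f (pt (s + τ) θ)‖ ^ 2 + 1)) φ]
  congr 1
  ring

/-! ### elementary facts about the chain -/

private theorem gl_tau_le {C0 θ T : ℝ} {f h : ℂ → ℂ} {J n : ℕ} {x y : Fin n → ℝ} {τ ψ A hh : ℕ → ℝ}
    (hC : Chain C0 θ f T J n x y h τ ψ A hh) {j k : ℕ} (hjk : j ≤ k) (hk : k ≤ J) : τ j ≤ τ k := by
  rcases Nat.eq_or_lt_of_le hjk with h1 | h1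
  · rw [h1]
  · have h2 := (hC.tau j (hjk.trans hk)).2
    have h3 := (hC.tau k hk).1
    have h4 : (j : ℝ) + 1 ≤ k := by exact_mod_cast h1
    linarith

private theorem gl_el {C0 θ T : ℝ} {f h : ℂ → ℂ} {J n : ℕ} {x y : Fin n → ℝ} {τ ψ A hh : ℕ → ℝ}
    (hC : Chain C0 θ f T J n x y h τ ψ A hh) {j : ℕ} (hj : j < J) :
    1 / 2 ≤ τ (j + 1) - τ j ∧ τ (j + 1) - τ j ≤ 3 / 2 := by
  have h2 := hC.tau j hj.le
  have h3 := hC.tau (j + 1) hj
  push_cast at h3
  constructor <;> linarith [h2.1, h2.2, h3.1, h3.2]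

private theorem gl_Apos {C0 θ T : ℝ} {f h : ℂ → ℂ} {J n : ℕ} {x y : Fin n → ℝ} {τ ψ A hh : ℕ → ℝ}
    (hC : Chain C0 θ f T J n x y h τ ψ A hh) {j : ℕ} (hj : j ≤ J) : 0 < A j := by
  have h1 := (hC.dat j hj).hA
  have h2 := (hC.dat j hj).hth
  by_contra h3
  push Not at h3
  have : θ * A j ≤ 0 := mul_nonpos_of_nonneg_of_nonpos h2.le h3
  linarith

private theorem gl_exp_bd : (1 : ℝ) / 8 ≤ exp (-(15 / 8)) := by
  have h1 : exp (15 / 8 : ℝ) ≤ 8 := by
    have h2 : exp (15 / 8 : ℝ) ≤ exp 2 := exp_le_exp.mpr (by norm_num)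
    have h3 : exp (2 : ℝ) = exp 1 * exp 1 := by rw [← exp_add]; norm_num
    have h4 := exp_one_lt_d9
    have h5 := exp_pos (1 : ℝ)
    nlinarith
  rw [exp_neg]
  rw [one_div]
  exact inv_anti₀ (exp_pos _) h1

private theorem gl_sin {l : ℝ} (h1 : 1 ≤ l) (h2 : l ≤ 5 / 4) : 3 / 4 ≤ sin (th0 l) := by
  have hl : 0 < l := by linarith
  have h3 : sin (th0 l) = cos (π / 2 - th0 l) := by rw [cos_pi_div_two_sub]
  have h4 : th0 l ≤ π / 2 := by
    unfold th0
    rw [div_le_div_iff₀ (by positivity) (by norm_num)]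
    nlinarith [pi_pos]
  have h5 : 2 * π / 5 ≤ th0 l := by
    unfold th0
    rw [div_le_div_iff₀ (by norm_num) (by positivity)]
    nlinarith [pi_pos]
  have h6 := one_sub_sq_div_two_le_cos (x := π / 2 - th0 l)
  rw [h3]
  have h7 : π / 2 - th0 l ≤ 2 / 5 := by
    have := pi_lt_d2
    linarith
  nlinarith

private theorem gl_cost {l : ℝ} (h1 : 1 ≤ l) (h2 : l ≤ 5 / 4) {n : ℕ} (x y : Fin n → ℝ) {t t' p : ℝ}
    (ht : t' - t ≤ 3 / 2) :
    1 / 16 * (∑ i ∈ Finset.univ.filter (fun i => t < x i ∧ x i < t'), dd (y i - p) ^ 2) ≤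
      2 * π * ∑ i ∈ Finset.univ.filter (fun i => t < x i ∧ x i < t'), exp (-(l * (x i - t))) * gam l (y i - p) := by
  rw [Finset.mul_sum, Finset.mul_sum]
  refine Finset.sum_le_sum fun i hi => ?_
  rw [Finset.mem_filter] at hi
  obtain ⟨_, h3, h4⟩ := hi
  have h5 := gam_dd h1 h2 (y i - p)
  have h6 : (1 : ℝ) / 8 ≤ exp (-(l * (x i - t))) := by
    refine gl_exp_bd.trans (exp_le_exp.mpr ?_)
    nlinarith
  have h7 : 0 ≤ dd (y i - p) ^ 2 := sq_nonneg _
  have h8 : 0 ≤ gam l (y i - p) := by linarith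
  have h9 : 1 / 8 * (dd (y i - p) ^ 2 / 10) ≤ exp (-(l * (x i - t))) * gam l (y i - p) :=
    mul_le_mul h6 h5 (by positivity) (exp_pos _).le
  have h10 := pi_gt_three
  nlinarith

open Classical in
private theorem gl_win {ε C t0 del Cm Ct θ : ℝ} {k0 : ℕ}
    (hLoc : ∀ (l c el th A h : ℝ) (n : ℕ) (x y : Fin n → ℝ) (g F : ℂ → ℂ), 1 ≤ l → l ≤ 5 / 4 → 1 / 2 - del ≤ c → c ≤ 1 →
      1 / 2 ≤ el → el ≤ 3 / 2 → Differentiable ℂ F → Dat th A h n x y g F → th ≤ t0 → (∀ i, x i ≠ el) → Clean k0 x A el →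
      (∀ s ∈ Icc 0 el, ∃ θ : ℝ, ‖F (pt s θ)‖ ≤ exp (-(c * TM F s))) →
      (c * KK l - 1) * (∫ s in (0 : ℝ)..el, exp (-(l * s)) * mh l F s) ≤
        -(2 * π * (∑ i, if 0 < x i ∧ x i < el then exp (-(l * x i)) * gam l (y i) else 0))
        + (exp (-(l * el)) * TH l F el 0 - TH l F 0 0) + C * (XX x y h ^ 2 / A) + ε * nNH x y)
    (htm : ∀ (th A h : ℝ) (n : ℕ) (x y : Fin n → ℝ) (g F : ℂ → ℂ), Differentiable ℂ F →
      Dat th A h n x y g F → ∀ s, 0 ≤ s → s ≤ 3 / 2 → |TM F s - 2 * A * exp s| ≤ Ct * th * A)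
    (hmh : ∀ (l th A h : ℝ) (n : ℕ) (x y : Fin n → ℝ) (g F : ℂ → ℂ), 1 ≤ l → l ≤ 5 / 4 →
      Dat th A h n x y g F → ∀ s, 0 ≤ s → s ≤ 3 / 2 → |mh l F s - 2 * A * exp s * sin (th0 l)| ≤ Cm * th * A)
    (hθ : (Cm + Ct) * θ ≤ 1 / 2) (hCt : 0 ≤ Ct) (hθt : θ ≤ t0)
    {C0 l c T : ℝ} {f h : ℂ → ℂ} {J n : ℕ} {x y : Fin n → ℝ} {τ ψ A hh : ℕ → ℝ} (h1 : 1 ≤ l) (h2 : l ≤ 5 / 4)
    (hc1 : 1 / 2 - del ≤ c) (hc2 : c ≤ 1) (hcK : 1 ≤ c * KK l) (hC : Chain C0 θ f T J n x y h τ ψ A hh)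
    (hmin : ∀ s, T ≤ s → s ≤ T + J + 1 → ∃ t : ℝ, ‖f (pt s t)‖ ≤ exp (-(c * TM f s))) {j : ℕ} (hj : j < J) :
    (c * KK l - 1) / 2 * (∫ s in (τ j)..(τ (j + 1)), exp (-(l * s)) * TM f s) ≤
      -(1 / 16 * (exp (-(l * τ j)) * Qw x y τ ψ j))
      + (exp (-(l * τ (j + 1))) * TH l f (τ (j + 1)) (ψ j) - exp (-(l * τ j)) * TH l f (τ j) (ψ j))
      + C * (exp (-(l * τ j)) * (XX (fun i => x i - τ j) (fun i => y i - ψ j) (hh j) ^ 2 / A j))
      + ε * (exp (-(l * τ j)) * nNH (fun i => x i - τ j) (fun i => y i - ψ j)) := by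
  have hel := gl_el hC hj
  have hjJ : (j : ℝ) + 1 ≤ J := by exact_mod_cast hj
  have htau := hC.tau j hj.le
  have htau' := hC.tau (j + 1) hj
  have hD := hC.dat j hj.le
  have hAp := gl_Apos hC hj.le
  have hFd : Differentiable ℂ (fun ζ => f (ζ * pt (τ j) (ψ j))) :=
    hC.hf.comp (differentiable_id.mul_const _)
  set F : ℂ → ℂ := fun ζ => f (ζ * pt (τ j) (ψ j)) with hFdef
  set el : ℝ := τ (j + 1) - τ j with heldef
  have hTM : ∀ s, TM F s = TM f (s + τ j) := fun s => TM_shift f s (τ j) (ψ j)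
  have hloc := hLoc l c el θ (A j) (hh j) n (fun i => x i - τ j) (fun i => y i - ψ j)
    (fun ζ => h (ζ * pt (τ j) (ψ j))) F h1 h2 hc1 hc2 hel.1 hel.2 hFd hD hθt
    (fun i hi => hC.hx (j + 1) hj i (by simp only [heldef] at hi; linarith))
    (fun k _ s hs hs' => hC.clean j hj k (Nat.zero_le _) s hs hs')
    (fun s hs => by
      have h3 : T ≤ s + τ j := by linarith [hs.1, htau.1, (Nat.cast_nonneg j : (0 : ℝ) ≤ (j : ℝ))]
      have h4 : s + τ j ≤ T + J + 1 := by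
        have := hs.2
        simp only [heldef] at this
        push_cast at htau'
        linarith [htau'.2]
      obtain ⟨t, ht⟩ := hmin (s + τ j) h3 h4
      refine ⟨t - ψ j, ?_⟩
      rw [hTM]
      simp only [hFdef]
      rw [gl_pt_mul]
      rw [show t - ψ j + ψ j = t by ring]
      exact ht)
  -- the left side
  have hkey : ∀ s ∈ Icc (0 : ℝ) el, exp (-(l * s)) * (1 / 2 * TM F s) ≤ exp (-(l * s)) * mh l F s := by
    intro s hs
    refine mul_le_mul_of_nonneg_left ?_ (exp_pos _).le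
    have h3 := htm θ (A j) (hh j) n _ _ _ F hFd hD s hs.1 (hs.2.trans hel.2)
    have h4 := hmh l θ (A j) (hh j) n _ _ _ F h1 h2 hD s hs.1 (hs.2.trans hel.2)
    have h5 := abs_le.mp h3
    have h6 := abs_le.mp h4
    have h7 := gl_sin h1 h2
    have h8 : 1 ≤ exp s := one_le_exp hs.1
    have h9 : A j ≤ A j * exp s := by nlinarith
    have h10 : A j * exp s * (3 / 4) ≤ A j * exp s * sin (th0 l) :=
      mul_le_mul_of_nonneg_left h7 (by positivity)
    have h11 : (Cm + Ct) * θ * A j ≤ 1 / 2 * A j := mul_le_mul_of_nonneg_right hθ hAp.le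
    have h12 : 0 ≤ Ct * θ * A j := by
      have := hD.hth
      positivity
    linarith [h5.1, h5.2, h6.1, h6.2]
  have hcont1 : Continuous fun s : ℝ => exp (-(l * s)) * (1 / 2 * TM F s) := by
    have := Pool.Agent.TX1.TM_cont hFd
    fun_prop
  have hcont2 : ContinuousOn (fun s : ℝ => exp (-(l * s)) * mh l F s) (Icc 0 2) := by
    refine ContinuousOn.mul (by fun_prop) (mh_contOn h1 hD)
  have hint : (∫ s in (0 : ℝ)..el, exp (-(l * s)) * (1 / 2 * TM F s)) ≤ ∫ s in (0 : ℝ)..el, exp (-(l * s)) * mh l F s := by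
    refine intervalIntegral.integral_mono_on (by linarith [hel.1]) (hcont1.intervalIntegrable _ _) ?_ hkey
    refine ContinuousOn.intervalIntegrable ?_
    rw [uIcc_of_le (by linarith [hel.1])]
    exact hcont2.mono (Icc_subset_Icc le_rfl (by linarith [hel.2]))
  have hint2 : exp (-(l * τ j)) * (∫ s in (0 : ℝ)..el, exp (-(l * s)) * (1 / 2 * TM F s))
      = 1 / 2 * ∫ s in (τ j)..(τ (j + 1)), exp (-(l * s)) * TM f s := by
    have h3 : (∫ s in (τ j)..(τ (j + 1)), exp (-(l * s)) * TM f s)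
        = ∫ s in (0 : ℝ)..el, exp (-(l * (s + τ j))) * TM f (s + τ j) := by
      rw [intervalIntegral.integral_comp_add_right (fun s : ℝ => exp (-(l * s)) * TM f s) (τ j)]
      simp only [heldef]
      congr 1 <;> ring
    rw [h3, ← intervalIntegral.integral_const_mul, ← intervalIntegral.integral_const_mul]
    refine intervalIntegral.integral_congr fun s _ => ?_
    simp only [hTM]
    rw [show -(l * (s + τ j)) = -(l * τ j) + -(l * s) by ring, exp_add]
    ring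
  have hcost := gl_cost h1 h2 x y (t := τ j) (t' := τ (j + 1)) (p := ψ j) hel.2
  have hsum : (∑ i, if 0 < x i - τ j ∧ x i - τ j < el then exp (-(l * (x i - τ j))) * gam l (y i - ψ j) else 0)
      = ∑ i ∈ Finset.univ.filter (fun i => τ j < x i ∧ x i < τ (j + 1)), exp (-(l * (x i - τ j))) * gam l (y i - ψ j) := by
    rw [Finset.sum_filter]
    refine Finset.sum_congr rfl fun i _ => ?_
    have h3 : (0 < x i - τ j ∧ x i - τ j < el) ↔ (τ j < x i ∧ x i < τ (j + 1)) := by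
      simp only [heldef]
      constructor
      · rintro ⟨a, b⟩; constructor <;> linarith
      · rintro ⟨a, b⟩; constructor <;> linarith
    by_cases h4 : τ j < x i ∧ x i < τ (j + 1)
    · rw [if_pos (h3.mpr h4), if_pos h4]
    · rw [if_neg (fun h5 => h4 (h3.mp h5)), if_neg h4]
  have hQ : Qw x y τ ψ j = ∑ i ∈ Finset.univ.filter (fun i => τ j < x i ∧ x i < τ (j + 1)), dd (y i - ψ j) ^ 2 := by
    unfold Qw II
    refine Finset.sum_congr ?_ fun _ _ => rfl
    ext i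
    simp
  have hTH1 : TH l F el 0 = TH l f (τ (j + 1)) (ψ j) := by
    simp only [hFdef]
    rw [TH_shift l hC.hf]
    simp only [heldef]
    congr 1 <;> ring
  have hTH0 : TH l F 0 0 = TH l f (τ j) (ψ j) := by
    simp only [hFdef]
    rw [TH_shift l hC.hf]
    congr 1 <;> ring
  have hwe : exp (-(l * τ j)) * exp (-(l * el)) = exp (-(l * τ (j + 1))) := by
    rw [← exp_add]
    simp only [heldef]
    congr 1
    ring
  have hw : 0 < exp (-(l * τ j)) := exp_pos _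
  have hcK' : 0 ≤ c * KK l - 1 := by linarith
  have hfin := mul_le_mul_of_nonneg_left hloc hw.le
  have hL1 : (c * KK l - 1) * (∫ s in (0 : ℝ)..el, exp (-(l * s)) * (1 / 2 * TM F s)) ≤
      (c * KK l - 1) * (∫ s in (0 : ℝ)..el, exp (-(l * s)) * mh l F s) := mul_le_mul_of_nonneg_left hint hcK'
  have hL2 := mul_le_mul_of_nonneg_left hL1 hw.le
  have hL3 : exp (-(l * τ j)) * ((c * KK l - 1) * (∫ s in (0 : ℝ)..el, exp (-(l * s)) * (1 / 2 * TM F s)))
      = (c * KK l - 1) / 2 * ∫ s in (τ j)..(τ (j + 1)), exp (-(l * s)) * TM f s := by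
    rw [mul_left_comm, hint2]
    ring
  rw [hL3] at hL2
  refine (hL2.trans hfin).trans ?_
  rw [hTH1, hTH0, hQ]
  have hcost2 := mul_le_mul_of_nonneg_left hcost hw.le
  rw [← hsum] at hcost2
  rw [← hwe]
  nlinarith [hcost2]

/-- the rotation term of one break point -/
private theorem gl_rot {C0 θ T : ℝ} {f h : ℂ → ℂ} {J n : ℕ} {x y : Fin n → ℝ} {τ ψ A hh : ℕ → ℝ} (hC0 : 1 ≤ C0)
    (hC : Chain C0 θ f T J n x y h τ ψ A hh) {j : ℕ} (hj : j < J) :
    A (j + 1) * |ψ (j + 1) - ψ j| ^ 2 ≤ C0 ^ 3 * exp (5 / 4) * exp 3 * θ * Qw x y τ ψ j := by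
  have hA := gl_Apos hC hj.le
  have hA1 := gl_Apos hC hj
  have hr := hC.rot j hj
  have hn := n_bd hC hj
  have hy := y_sq x y τ ψ j
  have hg := (hC.gr j (j + 1) (Nat.le_succ j) hj).2
  have hθ := (hC.dat j hj.le).hth
  have hQ : 0 ≤ Qw x y τ ψ j := Finset.sum_nonneg fun i _ => sq_nonneg _
  have hY : 0 ≤ Yw x y τ ψ j := Finset.sum_nonneg fun i _ => dd_nonneg _
  have hr2 : |ψ (j + 1) - ψ j| ≤ C0 * Yw x y τ ψ j / A j := by
    refine hr.trans (le_of_eq ?_)
    unfold Yw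
    ring
  have h1 : |ψ (j + 1) - ψ j| ^ 2 ≤ (C0 * Yw x y τ ψ j / A j) ^ 2 := by
    gcongr
  have h2 : (C0 * Yw x y τ ψ j / A j) ^ 2 = C0 ^ 2 / A j ^ 2 * Yw x y τ ψ j ^ 2 := by
    field_simp
  have h3 : Yw x y τ ψ j ^ 2 ≤ (exp 3 * θ * A j) * Qw x y τ ψ j :=
    hy.trans (mul_le_mul_of_nonneg_right hn hQ)
  have h4 : A (j + 1) ≤ C0 * exp (5 / 4) * A j := by
    refine hg.trans (le_of_eq ?_)
    push_cast
    congr 3
    ring
  calc A (j + 1) * |ψ (j + 1) - ψ j| ^ 2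
      ≤ (C0 * exp (5 / 4) * A j) * (C0 ^ 2 / A j ^ 2 * ((exp 3 * θ * A j) * Qw x y τ ψ j)) := by
        refine mul_le_mul h4 ?_ (by positivity) (by positivity)
        rw [h2] at h1
        refine h1.trans ?_
        exact mul_le_mul_of_nonneg_left h3 (by positivity)
    _ = C0 ^ 3 * exp (5 / 4) * exp 3 * θ * Qw x y τ ψ j := by
        field_simp

private theorem gl_absorb {a r X : ℝ} (ha : 0 < a) : r * X ≤ a * r ^ 2 + X ^ 2 / a := by
  have h1 : 0 ≤ (X - a * r) ^ 2 / a := by positivity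
  have h2 : (X - a * r) ^ 2 / a = X ^ 2 / a - 2 * (r * X) + a * r ^ 2 := by
    field_simp
    ring
  have h3 : 0 ≤ X ^ 2 / a := by positivity
  have h4 : 0 ≤ a * r ^ 2 := by positivity
  by_cases h5 : 0 ≤ r * X
  · linarith
  · push Not at h5
    linarith

theorem glob {C0 : ℝ} (hC0 : 1 ≤ C0) : ∃ θ del C : ℝ, 0 < θ ∧ θ ≤ 1 ∧ 0 < del ∧ 0 < C ∧
    ∀ (l c T : ℝ) (f h : ℂ → ℂ) (J n : ℕ) (x y : Fin n → ℝ) (τ ψ A hh : ℕ → ℝ), 1 ≤ l → l ≤ 5 / 4 → 1 / 2 - del ≤ c → c ≤ 1 →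
      1 ≤ c * KK l → Chain C0 θ f T J n x y h τ ψ A hh →
      (∀ s, T ≤ s → s ≤ T + J + 1 → ∃ t : ℝ, ‖f (pt s t)‖ ≤ exp (-(c * TM f s))) →
      (c * KK l - 1) * (∫ s in (τ 0)..(τ J), exp (-(l * s)) * TM f s) ≤
        C * (exp (-(l * τ 0)) * TM f (τ 0) + exp (-(l * τ J)) * TM f (τ J)) := by
  obtain ⟨Cn, hCn1, hnh⟩ := nh_bd
  obtain ⟨Cx, hCx1, hxb⟩ := x_bd
  obtain ⟨Ct, hCt1, htm⟩ := tm_near
  obtain ⟨Cm, hCm1, hmh⟩ := mh_near
  obtain ⟨Cb, hCb1, hthb⟩ := th_bd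
  obtain ⟨Cj, hCj1, hjump⟩ := jump
  have hε : (0 : ℝ) < 1 / (64 * Cn) := by positivity
  obtain ⟨CL, t0, del, k0, hCL, ht0, hdel, hloc⟩ := local_ineq hε
  have hCd1 : 1 ≤ C0 + Cx + 2 := by linarith
  obtain ⟨CD, hCD1, hdisc⟩ := disc hCd1
  set Cr : ℝ := C0 ^ 3 * exp (5 / 4) * exp 3 with hCr
  have hCr0 : 0 < Cr := by positivity
  set S : ℝ := 1 + 1 / t0 + 2 * (Cm + Ct) + exp 3 + 128 * Cj * Cr + 64 * (Cj + CL) * CD * exp 3 with hS
  have hp1 : 0 < 1 / t0 := by positivity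
  have hp2 : 0 < exp (3 : ℝ) := exp_pos _
  have hp3 : 0 < 128 * Cj * Cr := by positivity
  have hp4 : 0 < 64 * (Cj + CL) * CD * exp 3 := by positivity
  have hS0 : 0 < S := by positivity
  have hθ0 : 0 < 1 / S := by positivity
  have key : ∀ X : ℝ, X ≤ S → 1 / S * X ≤ 1 := by
    intro X hX
    rw [one_div_mul_eq_div, div_le_one hS0]
    exact hX
  have k1 : 1 / S * 1 ≤ 1 := key 1 (by linarith)
  have k2 : 1 / S * (1 / t0) ≤ 1 := key _ (by linarith)
  have k3 : 1 / S * (2 * (Cm + Ct)) ≤ 1 := key _ (by linarith)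
  have k4 : 1 / S * exp 3 ≤ 1 := key _ (by linarith)
  have k5 : 1 / S * (128 * Cj * Cr) ≤ 1 := key _ (by linarith)
  have k6 : 1 / S * (64 * (Cj + CL) * CD * exp 3) ≤ 1 := key _ (by linarith)
  refine ⟨1 / S, del, 2 * (Cb + 1), hθ0, by linarith, hdel, by positivity, ?_⟩
  intro l c T f h J n x y τ ψ A hh h1 h2 hc1 hc2 hcK hC hmin
  set θ : ℝ := 1 / S with hθdef
  have hθt0 : θ ≤ t0 := by
    have h3 : θ * (1 / t0) = θ / t0 := by ring
    rw [h3, div_le_one ht0] at k2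
    exact k2
  set W : ℕ → ℝ := fun j => exp (-(l * τ j)) with hW
  set X : ℕ → ℝ := fun j => XX (fun i => x i - τ j) (fun i => y i - ψ j) (hh j) with hX
  set N : ℕ → ℝ := fun j => nNH (fun i => x i - τ j) (fun i => y i - ψ j) with hN
  set Q : ℕ → ℝ := fun j => Qw x y τ ψ j with hQ
  have hWp : ∀ j, 0 < W j := fun j => exp_pos _
  have hAp : ∀ j ≤ J, 0 < A j := fun j hj => gl_Apos hC hj
  have hQ0 : ∀ j, 0 ≤ Q j := fun j => Finset.sum_nonneg fun i _ => sq_nonneg _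
  have hX0 : ∀ j ≤ J, 0 ≤ X j := by
    intro j hj
    have h3 := (hC.dat j hj).hh0
    have h4 : 0 ≤ ∑ i, dd (y i - ψ j) * kw (x i - τ j) :=
      Finset.sum_nonneg fun i _ => mul_nonneg (dd_nonneg _) (kw_pos _).le
    simp only [hX, XX]
    linarith
  set SQ : ℝ := ∑ k ∈ Finset.range J, W k * Q k with hSQ
  set B : ℝ := W 0 * A 0 + W J * A J with hB
  set SX : ℝ := ∑ j ∈ Finset.range (J + 1), W j * (X j ^ 2 / A j) with hSX
  set SN : ℝ := ∑ j ∈ Finset.range J, W j * N j with hSN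
  have hSQ0 : 0 ≤ SQ := Finset.sum_nonneg fun k _ => mul_nonneg (hWp k).le (hQ0 k)
  have hB0 : 0 ≤ B := by
    have h3 := mul_nonneg (hWp 0).le (hAp 0 (Nat.zero_le _)).le
    have h4 := mul_nonneg (hWp J).le (hAp J le_rfl).le
    linarith
  -- the first order quantities
  have hSXb : SX ≤ CD * (exp 3 * θ) * (SQ + B) := by
    have h3 := hdisc (exp 3 * θ) J A W X (Yw x y τ ψ) Q (fun k => ((II x τ k).card : ℝ))
      (fun k => |ψ (k + 1) - ψ k|) (by positivity) (by linarith [mul_comm (exp 3) θ]) hAp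
      (fun j _ => hWp j) ?_ ?_ ?_ ?_
    · refine h3.trans (le_of_eq ?_)
      simp only [hB]
      ring
    · intro j k hjk hk
      obtain ⟨h4, h5⟩ := hC.gr j k hjk hk
      have h6 := hAp k hk
      have h7 := hAp j (hjk.trans hk)
      refine ⟨h4.trans ?_, h5.trans ?_⟩
      · exact mul_le_mul_of_nonneg_right (by linarith) h6.le
      · exact mul_le_mul_of_nonneg_right (mul_le_mul_of_nonneg_right (by linarith) (exp_pos _).le) h7.le
    · intro j k hjk hk
      have h4 := gl_tau_le hC hjk hk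
      have h5 : (j : ℝ) ≤ k := by exact_mod_cast hjk
      have h6 := hC.tau j (hjk.trans hk)
      have h7 := hC.tau k hk
      constructor
      · have h8 : W k ≤ W j := by
          simp only [hW]
          apply exp_le_exp.mpr
          nlinarith
        nlinarith [hWp j]
      · have h8 : W j ≤ 2 * exp (5 / 4 * ((k : ℝ) - j)) * W k := by
          simp only [hW]
          have h9 : exp (5 / 8 : ℝ) ≤ 2 := by
            have h10 : exp (5 / 8 : ℝ) ^ 8 ≤ 2 ^ 8 := by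
              rw [← exp_nat_mul]
              have h11 : exp (((8 : ℕ) : ℝ) * (5 / 8)) = exp 1 ^ 5 := by
                rw [← exp_nat_mul]; norm_num
              rw [h11]
              have h12 := exp_one_lt_d9
              have h13 : exp (1 : ℝ) ^ 5 ≤ 2.7182818286 ^ 5 := by
                have := exp_pos (1 : ℝ)
                gcongr
              refine h13.trans ?_
              norm_num
            exact le_of_pow_le_pow_left₀ (by norm_num) (by norm_num) h10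
          have h14 : -(l * τ j) ≤ 5 / 8 + 5 / 4 * ((k : ℝ) - j) + -(l * τ k) := by
            have h15 : τ k - τ j ≤ (k : ℝ) - j + 1 / 2 := by linarith
            have h16 : l * (τ k - τ j) ≤ 5 / 4 * ((k : ℝ) - j + 1 / 2) := by
              refine mul_le_mul h2 h15 (by linarith) (by norm_num)
            linarith
          have h17 := exp_le_exp.mpr h14
          rw [exp_add, exp_add] at h17
          refine h17.trans ?_
          exact mul_le_mul_of_nonneg_right (mul_le_mul_of_nonneg_right h9 (exp_pos _).le) (exp_pos _).le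
        refine h8.trans ?_
        exact mul_le_mul_of_nonneg_right (mul_le_mul_of_nonneg_right (by linarith) (exp_pos _).le) (hWp k).le
    · intro k hk
      have hY0 : 0 ≤ Yw x y τ ψ k := Finset.sum_nonneg fun i _ => dd_nonneg _
      refine ⟨by positivity, n_bd hC hk, hY0, hQ0 k, y_sq x y τ ψ k, abs_nonneg _, ?_⟩
      have h4 := hC.rot k hk
      have h5 := hAp k hk.le
      refine h4.trans ?_
      have h6 : C0 / A k * ∑ i ∈ II x τ k, dd (y i - ψ k) = C0 * Yw x y τ ψ k / A k := by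
        unfold Yw
        ring
      rw [h6]
      gcongr
      linarith
    · intro j hj
      refine ⟨hX0 j hj, ?_⟩
      have h4 := hxb C0 θ T f h J n x y τ ψ A hh hC j hj
      have h5 : 0 ≤ ∑ k ∈ Finset.range J, kap j k * (Yw x y τ ψ k + ((II x τ k).card : ℝ) *
          ∑ i ∈ Finset.Ico (min j k) (max j k), |ψ (i + 1) - ψ i|) := by
        refine Finset.sum_nonneg fun k _ => mul_nonneg ?_ (add_nonneg ?_ (mul_nonneg (by positivity) ?_))
        · unfold kap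
          split_ifs <;> exact (exp_pos _).le
        · exact Finset.sum_nonneg fun i _ => dd_nonneg _
        · exact Finset.sum_nonneg fun i _ => abs_nonneg _
      have h6 : 0 ≤ exp (-(j : ℝ)) * A 0 + exp (-(2 * ((J : ℝ) - j))) * A J := by
        have h7 := hAp 0 (Nat.zero_le _)
        have h8 := hAp J le_rfl
        positivity
      refine h4.trans (add_le_add ?_ ?_)
      · exact mul_le_mul_of_nonneg_right (by linarith) h5
      · refine mul_le_mul_of_nonneg_right ?_ h6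
        have h9 : 1 ≤ exp (3 : ℝ) := one_le_exp (by norm_num)
        have h10 : θ ≤ exp 3 * θ := by nlinarith
        exact mul_le_mul (by linarith) h10 hθ0.le (by linarith)
  -- the zeros outside of the cone
  have hSNb : SN ≤ Cn * (SQ + θ * B) := hnh C0 θ T l f h J n x y τ ψ A hh hC h1 h2
  -- windows
  have hwin := fun (j : ℕ) (hj : j < J) => gl_win hloc htm hmh (by linarith) (by linarith) hθt0 h1 h2 hc1 hc2 hcK hC hmin hj
  have hsumI : (∑ j ∈ Finset.range J, ∫ s in (τ j)..(τ (j + 1)), exp (-(l * s)) * TM f s)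
      = ∫ s in (τ 0)..(τ J), exp (-(l * s)) * TM f s := by
    refine intervalIntegral.sum_integral_adjacent_intervals fun k _ => ?_
    refine Continuous.intervalIntegrable ?_ _ _
    have := Pool.Agent.TX1.TM_cont hC.hf
    fun_prop
  set V : ℕ → ℝ := fun j => TH l f (τ j) (ψ j) with hV
  set U : ℕ → ℝ := fun j => TH l f (τ (j + 1)) (ψ j) with hU
  have hsum1 : (c * KK l - 1) / 2 * (∫ s in (τ 0)..(τ J), exp (-(l * s)) * TM f s) ≤
      -(1 / 16 * SQ) + (∑ j ∈ Finset.range J, (W (j + 1) * U j - W j * V j))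
      + CL * (∑ j ∈ Finset.range J, W j * (X j ^ 2 / A j)) + 1 / (64 * Cn) * SN := by
    rw [← hsumI, Finset.mul_sum]
    refine (Finset.sum_le_sum fun j hj => hwin j (Finset.mem_range.mp hj)).trans (le_of_eq ?_)
    rw [Finset.sum_add_distrib, Finset.sum_add_distrib, Finset.sum_add_distrib, Finset.sum_neg_distrib,
      ← Finset.mul_sum, ← Finset.mul_sum, ← Finset.mul_sum]
  -- the boundary terms
  have hTHV : ∀ j ≤ J, |V j| ≤ Cb * A j := by
    intro j hj
    have h3 := hthb l θ (A j) (hh j) 0 n _ _ _ _ h1 h2 (hC.dat j hj)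
    rw [TH_shift l hC.hf] at h3
    rw [zero_add, zero_add] at h3
    exact h3
  have hTHU : ∀ j < J, U j - V (j + 1) ≤ Cj * (A (j + 1) * |ψ (j + 1) - ψ j| ^ 2 + |ψ (j + 1) - ψ j| * X (j + 1)) := by
    intro j hj
    have hr1 := hC.rot1 j hj
    have h3 := hjump l θ (A (j + 1)) (hh (j + 1)) (ψ j - ψ (j + 1)) n _ _ _ _ h1 h2
      (by rw [abs_sub_comm]; linarith) (hC.dat (j + 1) hj)
    rw [TH_shift l hC.hf, TH_shift l hC.hf] at h3
    rw [zero_add, zero_add, sub_add_cancel] at h3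
    rw [← sq_abs (ψ j - ψ (j + 1)), abs_sub_comm (ψ j) (ψ (j + 1))] at h3
    exact h3
  have hbd : (∑ j ∈ Finset.range J, (W (j + 1) * U j - W j * V j)) ≤
      2 * Cj * Cr * θ * SQ + Cj * SX + Cb * B := by
    have h3 : (∑ j ∈ Finset.range J, (W (j + 1) * U j - W j * V j))
        = (∑ j ∈ Finset.range J, W (j + 1) * (U j - V (j + 1))) + (W J * V J - W 0 * V 0) := by
      rw [← Finset.sum_range_sub (fun j => W j * V j) J, ← Finset.sum_add_distrib]
      refine Finset.sum_congr rfl fun j _ => ?_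
      ring
    have h4 : ∀ j ∈ Finset.range J, W (j + 1) * (U j - V (j + 1)) ≤
        2 * Cj * Cr * θ * (W j * Q j) + Cj * (W (j + 1) * (X (j + 1) ^ 2 / A (j + 1))) := by
      intro j hj
      rw [Finset.mem_range] at hj
      have h5 := hTHU j hj
      have h6 := gl_absorb (a := A (j + 1)) (r := |ψ (j + 1) - ψ j|) (X := X (j + 1)) (hAp _ hj)
      have h7 := gl_rot hC0 hC hj
      have h8 : U j - V (j + 1) ≤ Cj * (2 * (Cr * θ * Q j) + X (j + 1) ^ 2 / A (j + 1)) := by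
        refine h5.trans (mul_le_mul_of_nonneg_left ?_ (by linarith))
        simp only [hQ, hCr]
        linarith
      have h9 : W (j + 1) ≤ W j := by
        simp only [hW]
        apply exp_le_exp.mpr
        have := (gl_el hC hj).1
        nlinarith
      have h10 : 0 ≤ 2 * Cj * Cr * θ * Q j := by
        have := hQ0 j
        positivity
      have h11 := mul_le_mul_of_nonneg_left h8 (hWp (j + 1)).le
      have h12 := mul_le_mul_of_nonneg_right h9 h10
      nlinarith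
    have h5 := Finset.sum_le_sum h4
    rw [Finset.sum_add_distrib, ← Finset.mul_sum, ← Finset.mul_sum] at h5
    have h6 : (∑ j ∈ Finset.range J, W (j + 1) * (X (j + 1) ^ 2 / A (j + 1))) ≤ SX := by
      simp only [hSX]
      rw [Finset.sum_range_succ' (fun j => W j * (X j ^ 2 / A j)) J]
      have h7 : 0 ≤ W 0 * (X 0 ^ 2 / A 0) := by
        have := hAp 0 (Nat.zero_le _)
        have := hWp 0
        positivity
      linarith
    have h7 := mul_le_mul_of_nonneg_left h6 (show (0 : ℝ) ≤ Cj by linarith)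
    have h8 : W J * V J - W 0 * V 0 ≤ Cb * B := by
      have h9 := (abs_le.mp (hTHV J le_rfl)).2
      have h10 := (abs_le.mp (hTHV 0 (Nat.zero_le _))).1
      have h11 := mul_le_mul_of_nonneg_left h9 (hWp J).le
      have h12 := mul_le_mul_of_nonneg_left h10 (hWp 0).le
      simp only [hB]
      linarith
    rw [h3]
    linarith
  have hSX2 : (∑ j ∈ Finset.range J, W j * (X j ^ 2 / A j)) ≤ SX := by
    simp only [hSX]
    rw [Finset.sum_range_succ]
    have h7 : 0 ≤ W J * (X J ^ 2 / A J) := by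
      have := hAp J le_rfl
      have := hWp J
      positivity
    linarith
  -- the final absorption
  have hf1 := mul_le_mul_of_nonneg_left hSX2 hCL
  have hf2 : (Cj + CL) * SX ≤ 1 / 64 * (SQ + B) := by
    have h3 := mul_le_mul_of_nonneg_left hSXb (show (0 : ℝ) ≤ Cj + CL by linarith)
    refine h3.trans ?_
    have h4 : (Cj + CL) * (CD * (exp 3 * θ) * (SQ + B)) = 1 / 64 * (θ * (64 * (Cj + CL) * CD * exp 3)) * (SQ + B) := by ring
    rw [h4]
    refine mul_le_mul_of_nonneg_right ?_ (by linarith)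
    linarith
  have hf3 : 2 * Cj * Cr * θ * SQ ≤ 1 / 64 * SQ := by
    refine mul_le_mul_of_nonneg_right ?_ hSQ0
    linarith
  have hf4 : 1 / (64 * Cn) * SN ≤ 1 / 64 * (SQ + B) := by
    have h3 := mul_le_mul_of_nonneg_left hSNb hε.le
    refine h3.trans ?_
    have h4 : 1 / (64 * Cn) * (Cn * (SQ + θ * B)) = 1 / 64 * (SQ + θ * B) := by
      field_simp
    rw [h4]
    have h5 : θ * B ≤ B := by nlinarith
    linarith
  have hf5 : (c * KK l - 1) / 2 * (∫ s in (τ 0)..(τ J), exp (-(l * s)) * TM f s) ≤ (Cb + 1) * B := by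
    have h3 : (Cj + CL) * SX = Cj * SX + CL * SX := by ring
    have h4 : (Cb + 1) * B = Cb * B + B := by ring
    rw [h3] at hf2
    rw [h4]
    linarith
  have hf6 : B ≤ W 0 * TM f (τ 0) + W J * TM f (τ J) := by
    have h3 := mul_le_mul_of_nonneg_left (hC.ATM 0 (Nat.zero_le _)) (hWp 0).le
    have h4 := mul_le_mul_of_nonneg_left (hC.ATM J le_rfl) (hWp J).le
    simp only [hB]
    linarith
  have hf7 := mul_le_mul_of_nonneg_left hf6 (show (0 : ℝ) ≤ 2 * (Cb + 1) by linarith)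
  linarith

end Pool.Agent.THX
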