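import Pool.Agent.THX.TMb

/-!
# THX, module Hump: the second difference of the hump integral

`mh l F s = ∑_i ∫_{th0}^{2π-th0} log |1 - ζ/b_i| dθ + ∫ Re g`, decomposition of `Dec` (`dec'`, `dec_fin`).
* `|x i| > 3`: `vb_far` (second difference of `VV` at every `θ`), sum `≤ C th A ρ²`.
* `HU` zeros: `∫_{th0}^{2π-th0} ell (s-x) (θ-y) dθ = 2π max (s-x) 0 - ∫_{-th0}^{th0} ell (s-x) (θ-y) dθ` (`ell_int`), the last integral has a bounded second derivative in `s`
  (`|1-w| ≥ 1/2` in the valley, `|θ| ≤ th0 ≤ π/2`, `dd y ≤ 1/2`); `max (s+ρ-x) 0 + max (s-ρ-x) 0 - 2 max (s-x) 0 = max (ρ - |s-x|) 0`; the linear terms of `VV` have zero or bounded second difference.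
* `NH` zeros: `∫_{th0}^{2π-th0} ell (s-x) (θ-y) dθ = 2π max (s-x) 0 - ∫_{-th0}^{th0} ell (s - x) (θ - y) dθ` is Lipschitz in `s` (constant `4π`; `∂_s ell = 1/2 ± P/2`), so the second difference is `≥ -C ρ`.
* the dipole: `2 A exp s sin (th0)`: second difference `≥ 0`; `Re H`: `≥ -C h ρ²`; `nB s`: `0`.
-/

set_option autoImplicit false
set_option linter.all false

namespace Pool.Agent.THX

open Real MeasureTheory Set Filter Topology
open Pool.Agent.TX1 (pt ell TM TN Fac HM Gr)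

private lemma hm_formula (τ β : ℝ) : ell τ β = τ / 2 + log (2 * (cosh τ - cos β)) / 2 := by
  have hre : (pt τ β).re = exp τ * cos β := by
    unfold pt; rw [Complex.exp_re]; simp
  have him : (pt τ β).im = exp τ * sin β := by
    unfold pt; rw [Complex.exp_im]; simp
  have hsq : ‖1 - pt τ β‖ ^ 2 = exp τ * (2 * (cosh τ - cos β)) := by
    rw [Complex.sq_norm, Complex.normSq_apply]
    simp only [Complex.sub_re, Complex.sub_im, Complex.one_re, Complex.one_im, hre, him]
    have h1 : exp τ * exp (-τ) = 1 := by rw [← Real.exp_add]; simp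
    rw [Real.cosh_eq]
    have h2 := Real.sin_sq_add_cos_sq β
    linear_combination (exp τ ^ 2) * h2 + (-1) * h1
  by_cases hz : cosh τ - cos β = 0
  · have hτ : τ = 0 := by
      have h1 : cosh τ ≤ 1 := by linarith [Real.cos_le_one β]
      by_contra hne
      linarith [(Real.one_lt_cosh).2 hne]
    rw [hz] at hsq ⊢
    have h0 : ‖1 - pt τ β‖ = 0 := by
      have : ‖1 - pt τ β‖ ^ 2 = 0 := by rw [hsq]; ring
      exact pow_eq_zero_iff (two_ne_zero) |>.1 this
    unfold ell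
    rw [h0, hτ]; simp
  · have hpos : 0 < 2 * (cosh τ - cos β) := by
      have h1 : 0 ≤ cosh τ - cos β := by linarith [Real.cos_le_one β, Real.one_le_cosh τ]
      have h2 : 0 < cosh τ - cos β := lt_of_le_of_ne h1 (Ne.symm hz)
      linarith
    have h3 : log (‖1 - pt τ β‖ ^ 2) = τ + log (2 * (cosh τ - cos β)) := by
      rw [hsq, Real.log_mul (exp_pos _).ne' hpos.ne', Real.log_exp]
    rw [Real.log_pow] at h3
    unfold ell
    push_cast at h3
    linarith

private lemma hm_ae (S : Set ℝ) : ∀ᵐ β ∂(volume.restrict S), cos β ≠ 1 := by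
  have h : {β : ℝ | cos β = 1}.Countable := by
    refine (Set.countable_range (fun n : ℤ => (n : ℝ) * (2 * π))).mono ?_
    intro β hβ
    obtain ⟨n, hn⟩ := (Real.cos_eq_one_iff β).1 hβ
    exact ⟨n, hn⟩
  exact ae_restrict_of_ae (measure_eq_zero_iff_ae_notMem.1 (h.measure_zero volume))

/-- integral over a piece of a period is Lipschitz in `τ` (ordered version) -/
private lemma hm_lip0 {a b τ τ' : ℝ} (hab : a ≤ b) (hb : b ≤ a + 2 * π) (hτ : |τ| ≤ |τ'|) :
    |(∫ β in a..b, ell τ' β) - ∫ β in a..b, ell τ β| ≤ 2 * π * |τ' - τ| := by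
  have hpi := Real.pi_pos
  have hi : ∀ t c d : ℝ, IntervalIntegrable (ell t) volume c d := fun t c d => Pool.Agent.TX1.ell_ii t c d
  have hD : ∀ c d : ℝ, IntervalIntegrable (fun β => ell τ' β - ell τ β - (τ' - τ) / 2) volume c d :=
    fun c d => ((hi τ' c d).sub (hi τ c d)).sub intervalIntegrable_const
  have hval : ∀ c d : ℝ, ∫ β in c..d, (ell τ' β - ell τ β - (τ' - τ) / 2) =
      (∫ β in c..d, ell τ' β) - (∫ β in c..d, ell τ β) - (d - c) * ((τ' - τ) / 2) := by
    intro c d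
    rw [intervalIntegral.integral_sub ((hi τ' c d).sub (hi τ c d)) intervalIntegrable_const,
      intervalIntegral.integral_sub (hi τ' c d) (hi τ c d), intervalIntegral.integral_const,
      smul_eq_mul]
  have hcosh : cosh τ ≤ cosh τ' := Real.cosh_le_cosh.2 hτ
  have hpt : ∀ β : ℝ, cos β ≠ 1 → 0 ≤ ell τ' β - ell τ β - (τ' - τ) / 2 := by
    intro β hβ
    rw [hm_formula, hm_formula]
    have h1 : 0 < cosh τ - cos β := by
      have h2 : cos β < 1 := lt_of_le_of_ne (Real.cos_le_one β) hβ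
      linarith [Real.one_le_cosh τ]
    have h2 : log (2 * (cosh τ - cos β)) ≤ log (2 * (cosh τ' - cos β)) :=
      Real.log_le_log (by linarith) (by linarith)
    linarith
  have h1 : ∫ β in a..b, (ell τ' β - ell τ β - (τ' - τ) / 2) ≤
      ∫ β in a..(a + 2 * π), (ell τ' β - ell τ β - (τ' - τ) / 2) := by
    refine intervalIntegral.integral_mono_interval le_rfl hab hb ?_ (hD _ _)
    filter_upwards [hm_ae (Ioc a (a + 2 * π))] with β hβ
    exact hpt β hβ
  have h0 : 0 ≤ ∫ β in a..b, (ell τ' β - ell τ β - (τ' - τ) / 2) := by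
    rw [intervalIntegral.integral_of_le hab]
    refine integral_nonneg_of_ae ?_
    filter_upwards [hm_ae (Ioc a b)] with β hβ
    exact hpt β hβ
  rw [hval] at h0 h1
  rw [hval, Pool.Agent.TX1.ell_int, Pool.Agent.TX1.ell_int] at h1
  have e1 : ∀ t : ℝ, 2 * max t 0 = t + |t| := by
    intro t
    rcases le_total 0 t with h | h
    · rw [max_eq_left h, abs_of_nonneg h]; ring
    · rw [max_eq_right h, abs_of_nonpos h]; ring
  have h2 : 2 * π * max τ' 0 - 2 * π * max τ 0 - (a + 2 * π - a) * ((τ' - τ) / 2) ≤ π * |τ' - τ| := by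
    have h3 : |τ'| - |τ| ≤ |τ' - τ| := abs_sub_abs_le_abs_sub τ' τ
    have h4 : 2 * π * max τ' 0 - 2 * π * max τ 0 - (a + 2 * π - a) * ((τ' - τ) / 2)
        = π * (|τ'| - |τ|) := by
      linear_combination π * e1 τ' - π * e1 τ
    rw [h4]
    exact mul_le_mul_of_nonneg_left h3 hpi.le
  have h5 : |(b - a) * ((τ' - τ) / 2)| ≤ π * |τ' - τ| := by
    rw [abs_mul, abs_of_nonneg (by linarith : 0 ≤ b - a), abs_div, abs_two]
    have : (b - a) ≤ 2 * π := by linarith
    have h6 := mul_le_mul_of_nonneg_right this (abs_nonneg (τ' - τ))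
    linarith
  have h7 := abs_le.1 h5
  rw [abs_le]
  constructor
  · linarith [h7.1, mul_nonneg hpi.le (abs_nonneg (τ' - τ))]
  · linarith [h7.2, h1, h2]

private lemma hm_lip {a b τ τ' : ℝ} (hab : a ≤ b) (hb : b ≤ a + 2 * π) :
    |(∫ β in a..b, ell τ' β) - ∫ β in a..b, ell τ β| ≤ 2 * π * |τ' - τ| := by
  rcases le_total |τ| |τ'| with h | h
  · exact hm_lip0 hab hb h
  · rw [abs_sub_comm, abs_sub_comm τ' τ]
    exact hm_lip0 hab hb h

/-- second differences -/
private lemma hm_sd {f f' f'' : ℝ → ℝ} {M s ρ : ℝ} (hρ : 0 ≤ ρ)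
    (h1 : ∀ t ∈ Icc (s - ρ) (s + ρ), HasDerivAt f (f' t) t)
    (h2 : ∀ t ∈ Icc (s - ρ) (s + ρ), HasDerivAt f' (f'' t) t)
    (hM : ∀ t ∈ Icc (s - ρ) (s + ρ), |f'' t| ≤ M) :
    |f (s + ρ) + f (s - ρ) - 2 * f s| ≤ 2 * M * ρ ^ 2 := by
  have hb : ∀ u ∈ Icc (s - ρ) (s + ρ), ∀ v ∈ Icc (s - ρ) (s + ρ), |f' v - f' u| ≤ M * |v - u| := by
    intro u hu v hv
    have := Convex.norm_image_sub_le_of_norm_hasDerivWithin_le (f := f') (f' := f'') (C := M)
      (s := Icc (s - ρ) (s + ρ)) (x := u) (y := v)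
      (fun t ht => (h2 t ht).hasDerivWithinAt) (fun t ht => hM t ht) (convex_Icc _ _) hu hv
    simpa using this
  have hM0 : 0 ≤ M := (abs_nonneg _).trans (hM s ⟨by linarith, by linarith⟩)
  have h3 := Convex.norm_image_sub_le_of_norm_hasDerivWithin_le
    (f := fun t => f (s + t) + f (s - t)) (f' := fun t => f' (s + t) - f' (s - t))
    (C := 2 * M * ρ) (s := Icc 0 ρ) (x := 0) (y := ρ) ?_ ?_ (convex_Icc _ _)
    ⟨le_rfl, hρ⟩ ⟨hρ, le_rfl⟩
  · simp only [add_zero, sub_zero, Real.norm_eq_abs] at h3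
    rw [abs_of_nonneg hρ] at h3
    calc |f (s + ρ) + f (s - ρ) - 2 * f s| = |f (s + ρ) + f (s - ρ) - (f s + f s)| := by
          congr 1; ring
      _ ≤ 2 * M * ρ * ρ := h3
      _ = 2 * M * ρ ^ 2 := by ring
  · intro t ht
    refine HasDerivAt.hasDerivWithinAt ?_
    have ha : HasDerivAt (fun t => f (s + t)) (f' (s + t)) t := by
      exact ((h1 (s + t) ⟨by linarith [ht.1], by linarith [ht.2]⟩).comp t
        ((hasDerivAt_id t).const_add s)).congr_deriv (by ring)
    have hb' : HasDerivAt (fun t => f (s - t)) (-(f' (s - t))) t := by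
      exact ((h1 (s - t) ⟨by linarith [ht.2], by linarith [ht.1]⟩).comp t
        ((hasDerivAt_id t).const_sub s)).congr_deriv (by ring)
    exact (ha.add hb').congr_deriv (by ring)
  · intro t ht
    have := hb (s - t) ⟨by linarith [ht.2], by linarith [ht.1]⟩ (s + t)
      ⟨by linarith [ht.1], by linarith [ht.2]⟩
    rw [Real.norm_eq_abs]
    refine this.trans ?_
    rw [show s + t - (s - t) = 2 * t by ring, abs_of_nonneg (by linarith [ht.1])]
    nlinarith [ht.2]

/-- second differences of `ell` away from the zero direction -/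
private lemma hm_valley {β : ℝ} (hβ : cos β ≤ 1 / 2) {s ρ : ℝ} (hρ : 0 ≤ ρ) :
    |ell (s + ρ) β + ell (s - ρ) β - 2 * ell s β| ≤ 2 * 4 * ρ ^ 2 := by
  have hc1 : -1 ≤ cos β := Real.neg_one_le_cos β
  have hpos : ∀ t : ℝ, 0 < cosh t - cos β := fun t => by linarith [Real.one_le_cosh t]
  have hfun : (fun t => ell t β) = fun t => t / 2 + log (2 * (cosh t - cos β)) / 2 := by
    ext t; exact hm_formula t β
  have h1 : ∀ t : ℝ, HasDerivAt (fun t => ell t β) (1 / 2 + sinh t / (cosh t - cos β) / 2) t := by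
    intro t
    rw [hfun]
    have ha : HasDerivAt (fun t => 2 * (cosh t - cos β)) (2 * sinh t) t := by
      have := ((Real.hasDerivAt_cosh t).sub_const (cos β)).const_mul 2
      simpa using this
    have hb := ha.log (by have := hpos t; positivity)
    have := ((hasDerivAt_id t).div_const 2).add (hb.div_const 2)
    refine this.congr_deriv ?_
    have := (hpos t).ne'
    field_simp
  have h2 : ∀ t : ℝ, HasDerivAt (fun t => 1 / 2 + sinh t / (cosh t - cos β) / 2)
      ((1 - cosh t * cos β) / (cosh t - cos β) ^ 2 / 2) t := by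
    intro t
    have ha := (Real.hasDerivAt_sinh t).div ((Real.hasDerivAt_cosh t).sub_const (cos β)) (hpos t).ne'
    have := (ha.div_const 2).const_add (1 / 2)
    refine this.congr_deriv ?_
    have h3 := Real.cosh_sq t
    congr 2
    linear_combination h3
  refine hm_sd hρ (fun t _ => h1 t) (fun t _ => h2 t) fun t _ => ?_
  have hC := Real.one_le_cosh t
  rw [abs_div, abs_two, abs_div, abs_of_nonneg (sq_nonneg (cosh t - cos β)), div_div,
    div_le_iff₀ (by have := hpos t; positivity)]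
  have h4 : |1 - cosh t * cos β| ≤ 1 + cosh t := by
    rw [abs_le]; constructor <;> nlinarith
  have h5 : (cosh t - 1 / 2) ^ 2 ≤ (cosh t - cos β) ^ 2 := by
    apply pow_le_pow_left₀ <;> linarith
  nlinarith

/-- second differences of `exp` -/
private lemma hm_exp {x s ρ : ℝ} (hρ : 0 ≤ ρ) (hx : 0 ≤ x) (h2 : s + ρ ≤ 3 / 2) :
    |exp (s + ρ - x) + exp (s - ρ - x) - 2 * exp (s - x)| ≤ 2 * exp (3 / 2) * ρ ^ 2 := by
  have hd : ∀ t : ℝ, HasDerivAt (fun t => exp (t - x)) (exp (t - x)) t := by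
    intro t
    have := ((hasDerivAt_id t).sub_const x).exp
    simpa using this
  refine hm_sd hρ (fun t _ => hd t) (fun t _ => hd t) fun t ht => ?_
  rw [abs_of_pos (exp_pos _)]
  exact Real.exp_le_exp.2 (by linarith [ht.2])

private lemma hm_th0 {l : ℝ} (h1 : 1 ≤ l) : 0 < th0 l ∧ th0 l ≤ π / 2 := by
  have hpi := Real.pi_pos
  unfold th0
  constructor
  · positivity
  · rw [div_le_div_iff₀ (by positivity) (by norm_num)]
    nlinarith

/-- the integral of `VV` over the hump in terms of `ell` -/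
private lemma hm_VV {x y s a b : ℝ} : ∫ θ in a..b, VV x y s θ =
    (∫ θ in (a - y)..(b - y), ell (s - x) θ) +
      (if x < 0 then (b - a) * (x - s) else exp (s - x) * ∫ θ in a..b, cos (θ - y)) := by
  have hsh : ∫ θ in a..b, ell (s - x) (θ - y) = ∫ θ in (a - y)..(b - y), ell (s - x) θ :=
    intervalIntegral.integral_comp_sub_right (fun θ => ell (s - x) θ) y
  have hii : IntervalIntegrable (fun θ => ell (s - x) (θ - y)) volume a b := by
    have := (Pool.Agent.TX1.ell_ii (s - x) (a - y) (b - y)).comp_sub_right y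
    simpa using this
  by_cases hx : x < 0
  · simp only [hx, if_true]
    have h1 : ∀ θ, VV x y s θ = ell (s - x) (θ - y) + (x - s) := by
      intro θ
      unfold VV
      rw [if_pos hx, Pool.Agent.TX1.ell_neg (x - s)]
      rw [show -(x - s) = s - x by ring]; ring
    simp only [h1]
    rw [intervalIntegral.integral_add hii intervalIntegrable_const, hsh,
      intervalIntegral.integral_const, smul_eq_mul]
  · simp only [hx, if_false]
    have h1 : ∀ θ, VV x y s θ = ell (s - x) (θ - y) + exp (s - x) * cos (θ - y) := by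
      intro θ
      unfold VV
      rw [if_neg hx]
    simp only [h1]
    rw [intervalIntegral.integral_add hii, hsh, intervalIntegral.integral_const_mul]
    exact (Continuous.intervalIntegrable (by fun_prop) _ _)

private lemma hm_cosint (a b y : ℝ) (hab : a ≤ b) (hb : b ≤ a + 2 * π) :
    |∫ θ in a..b, cos (θ - y)| ≤ 2 * π := by
  have h := intervalIntegral.norm_integral_le_of_norm_le_const (a := a) (b := b) (C := 1)
    (f := fun θ => cos (θ - y)) (fun θ _ => by
      rw [Real.norm_eq_abs]; exact Real.abs_cos_le_one _)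
  rw [Real.norm_eq_abs, abs_of_nonneg (by linarith : 0 ≤ b - a)] at h
  linarith

/-- the second difference of the `exp` term -/
private lemma hm_lin {x y s ρ a b : ℝ} (hρ : 0 ≤ ρ) (h2 : s + ρ ≤ 3 / 2) (hab : a ≤ b)
    (hb : b ≤ a + 2 * π) :
    |(if x < 0 then (b - a) * (x - (s + ρ)) else exp (s + ρ - x) * ∫ θ in a..b, cos (θ - y)) +
      (if x < 0 then (b - a) * (x - (s - ρ)) else exp (s - ρ - x) * ∫ θ in a..b, cos (θ - y)) -
      2 * (if x < 0 then (b - a) * (x - s) else exp (s - x) * ∫ θ in a..b, cos (θ - y))| ≤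
      4 * π * exp (3 / 2) * ρ ^ 2 := by
  have hpi := Real.pi_pos
  by_cases hx : x < 0
  · simp only [hx, if_true]
    rw [show (b - a) * (x - (s + ρ)) + (b - a) * (x - (s - ρ)) - 2 * ((b - a) * (x - s)) = 0 by ring,
      abs_zero]
    positivity
  · simp only [hx, if_false]
    rw [show exp (s + ρ - x) * (∫ θ in a..b, cos (θ - y)) + exp (s - ρ - x) * (∫ θ in a..b, cos (θ - y))
      - 2 * (exp (s - x) * ∫ θ in a..b, cos (θ - y)) =
      (exp (s + ρ - x) + exp (s - ρ - x) - 2 * exp (s - x)) * ∫ θ in a..b, cos (θ - y) by ring, abs_mul]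
    have h3 := hm_exp (x := x) hρ (not_lt.1 hx) h2
    have h4 := hm_cosint a b y hab hb
    calc _ ≤ (2 * exp (3 / 2) * ρ ^ 2) * (2 * π) :=
          mul_le_mul h3 h4 (abs_nonneg _) (by positivity)
      _ = _ := by ring

/-- `NH` zeros -/
private lemma hm_NH {x y s ρ a b : ℝ} (hρ : 0 ≤ ρ) (h0 : 0 ≤ s - ρ) (h2 : s + ρ ≤ 3 / 2)
    (hab : a ≤ b) (hb : b ≤ a + 2 * π) :
    -((4 * π + 4 * π * exp (3 / 2)) * ρ) ≤
      (∫ θ in a..b, VV x y (s + ρ) θ) + (∫ θ in a..b, VV x y (s - ρ) θ) -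
        2 * ∫ θ in a..b, VV x y s θ := by
  have hpi := Real.pi_pos
  rw [hm_VV, hm_VV, hm_VV]
  have h3 := hm_lin (x := x) (y := y) hρ h2 hab hb
  have h4 := hm_lip (a := a - y) (b := b - y) (τ := s - x) (τ' := s + ρ - x) (by linarith) (by linarith)
  have h5 := hm_lip (a := a - y) (b := b - y) (τ := s - x) (τ' := s - ρ - x) (by linarith) (by linarith)
  rw [show s + ρ - x - (s - x) = ρ by ring, abs_of_nonneg hρ] at h4
  rw [show s - ρ - x - (s - x) = -ρ by ring, abs_neg, abs_of_nonneg hρ] at h5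
  have h6 : ρ ^ 2 ≤ ρ := by nlinarith
  have h7 : 4 * π * exp (3 / 2) * ρ ^ 2 ≤ 4 * π * exp (3 / 2) * ρ :=
    mul_le_mul_of_nonneg_left h6 (by positivity)
  have h3' := (abs_le.1 h3).1
  have h4' := (abs_le.1 h4).1
  have h5' := (abs_le.1 h5).1
  linarith

private lemma hm_cos_valley {y θ : ℝ} (hy : dd y ≤ 1 / 2) (hθ : |θ| ≤ π / 2) : cos (θ - y) ≤ 1 / 2 := by
  unfold dd at hy
  have h1 : |cos (y / 2)| ≤ 1 / 4 := by linarith
  have h2 : cos y = 2 * cos (y / 2) ^ 2 - 1 := by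
    rw [← Real.cos_two_mul]; congr 1; ring
  have h3 : sin y = 2 * sin (y / 2) * cos (y / 2) := by
    rw [← Real.sin_two_mul]; congr 1; ring
  have h4 : cos (y / 2) ^ 2 ≤ 1 / 16 := by
    have := sq_le_sq' (by linarith [(abs_le.1 h1).1]) ((abs_le.1 h1).2 : cos (y / 2) ≤ 1 / 4)
    linarith
  have h5 : |sin y| ≤ 1 / 2 := by
    rw [h3, abs_mul, abs_mul, abs_two]
    have h6 := Real.abs_sin_le_one (y / 2)
    nlinarith [abs_nonneg (cos (y / 2)), abs_nonneg (sin (y / 2))]
  have h7 : 0 ≤ cos θ := Real.cos_nonneg_of_mem_Icc ⟨by linarith [(abs_le.1 hθ).1], (abs_le.1 hθ).2⟩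
  have h8 : sin θ * sin y ≤ 1 / 2 := by
    have h9 := Real.abs_sin_le_one θ
    have : |sin θ * sin y| ≤ 1 / 2 := by
      rw [abs_mul]; nlinarith [abs_nonneg (sin θ), abs_nonneg (sin y)]
    exact (abs_le.1 this).2
  rw [Real.cos_sub]
  have h10 : cos y ≤ 0 := by linarith
  nlinarith [mul_nonneg h7 (neg_nonneg.2 h10)]

/-- `HU` zeros -/
private lemma hm_HU {x y s ρ a : ℝ} (hρ : 0 ≤ ρ) (h0 : 0 ≤ s - ρ) (h2 : s + ρ ≤ 3 / 2)
    (ha : 0 < a) (ha2 : a ≤ π / 2) (hy : dd y ≤ 1 / 2) :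
    2 * π * max (ρ - |s - x|) 0 - (8 * π + 4 * π * exp (3 / 2)) * ρ ^ 2 ≤
      (∫ θ in a..(2 * π - a), VV x y (s + ρ) θ) + (∫ θ in a..(2 * π - a), VV x y (s - ρ) θ) -
        2 * ∫ θ in a..(2 * π - a), VV x y s θ := by
  have hpi := Real.pi_pos
  have hE : ∀ t : ℝ, ∫ θ in (a - y)..(2 * π - a - y), ell t θ =
      2 * π * max t 0 - ∫ θ in (-a)..a, ell t (θ - y) := by
    intro t
    have h1 := Pool.Agent.TX1.ell_int t (a - y)
    have h3 := intervalIntegral.integral_add_adjacent_intervals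
      (Pool.Agent.TX1.ell_ii t (a - y) (2 * π - a - y))
      (Pool.Agent.TX1.ell_ii t (2 * π - a - y) (a - y + 2 * π))
    have h4 : ∫ θ in (2 * π - a - y)..(a - y + 2 * π), ell t θ = ∫ θ in (-a)..a, ell t (θ - y) := by
      rw [intervalIntegral.integral_comp_sub_right (fun θ => ell t θ) y]
      have h5 := intervalIntegral.integral_comp_add_right (a := -a - y) (b := a - y)
        (fun θ => ell t θ) (2 * π)
      simp only [Pool.Agent.TX1.ell_per] at h5
      rw [h5]
      congr 1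
      · ring
    rw [← h4, ← h1, ← h3]; ring
  have hii : ∀ t : ℝ, IntervalIntegrable (fun θ => ell t (θ - y)) volume (-a) a := by
    intro t
    have := (Pool.Agent.TX1.ell_ii t (-a - y) (a - y)).comp_sub_right y
    simpa using this
  have hV : |(∫ θ in (-a)..a, ell (s + ρ - x) (θ - y)) + (∫ θ in (-a)..a, ell (s - ρ - x) (θ - y)) -
      2 * ∫ θ in (-a)..a, ell (s - x) (θ - y)| ≤ 8 * π * ρ ^ 2 := by
    rw [← intervalIntegral.integral_const_mul, ← intervalIntegral.integral_add (hii _) (hii _),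
      ← intervalIntegral.integral_sub ((hii _).add (hii _)) ((hii _).const_mul 2)]
    have h := intervalIntegral.norm_integral_le_of_norm_le_const (a := -a) (b := a) (C := 2 * 4 * ρ ^ 2)
      (f := fun θ => ell (s + ρ - x) (θ - y) + ell (s - ρ - x) (θ - y) - 2 * ell (s - x) (θ - y))
      (fun θ hθ => by
        rw [Real.norm_eq_abs]
        have hθ' : |θ| ≤ π / 2 := by
          rw [uIoc_of_le (by linarith)] at hθ
          rw [abs_le]; constructor <;> linarith [hθ.1, hθ.2]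
        have := hm_valley (hm_cos_valley hy hθ') (s := s - x) hρ
        rw [show s - x + ρ = s + ρ - x by ring, show s - x - ρ = s - ρ - x by ring] at this
        exact this)
    rw [Real.norm_eq_abs, abs_of_nonneg (by linarith : 0 ≤ a - -a)] at h
    refine h.trans ?_
    have h7 : 0 ≤ ρ ^ 2 := sq_nonneg ρ
    nlinarith [mul_nonneg h7 (by linarith : 0 ≤ π / 2 - a)]
  have hmax : max (s + ρ - x) 0 + max (s - ρ - x) 0 - 2 * max (s - x) 0 = max (ρ - |s - x|) 0 := by
    rcases le_total 0 (s - x) with h | h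
    · rw [abs_of_nonneg h, max_eq_left h, max_eq_left (by linarith : (0:ℝ) ≤ s + ρ - x)]
      rcases le_total 0 (s - ρ - x) with h' | h'
      · rw [max_eq_left h', max_eq_right (by linarith)]; ring
      · rw [max_eq_right h', max_eq_left (by linarith)]; ring
    · rw [abs_of_nonpos h, max_eq_right h, max_eq_right (by linarith : s - ρ - x ≤ 0)]
      rcases le_total 0 (s + ρ - x) with h' | h'
      · rw [max_eq_left h', max_eq_left (by linarith)]; ring
      · rw [max_eq_right h', max_eq_right (by linarith)]; ring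
  rw [hm_VV, hm_VV, hm_VV, hE, hE, hE, ← hmax]
  have h3 := hm_lin (x := x) (y := y) (a := a) (b := 2 * π - a) hρ h2 (by linarith) (by linarith)
  have h3' := (abs_le.1 h3).1
  have hV' := (abs_le.1 hV).2
  linarith

/-- the far zeros -/
private lemma hm_far {C x y s ρ a b : ℝ} (hρ : 0 ≤ ρ) (h0 : 0 ≤ s - ρ) (h2 : s + ρ ≤ 3 / 2)
    (hab : a ≤ b) (hb : b ≤ a + 2 * π)
    (hi : ∀ t, 0 ≤ t → t ≤ 3 / 2 → IntervalIntegrable (VV x y t) volume a b)
    (hC : ∀ θ, |VV x y (s + ρ) θ + VV x y (s - ρ) θ - 2 * VV x y s θ| ≤ C * kw x * ρ ^ 2) :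
    -(2 * π * (C * kw x * ρ ^ 2)) ≤
      (∫ θ in a..b, VV x y (s + ρ) θ) + (∫ θ in a..b, VV x y (s - ρ) θ) -
        2 * ∫ θ in a..b, VV x y s θ := by
  have hpi := Real.pi_pos
  have i1 := hi (s + ρ) (by linarith) h2
  have i2 := hi (s - ρ) h0 (by linarith)
  have i3 := hi s (by linarith) (by linarith)
  rw [← intervalIntegral.integral_const_mul, ← intervalIntegral.integral_add i1 i2,
      ← intervalIntegral.integral_sub (i1.add i2) (i3.const_mul 2)]
  have h := intervalIntegral.norm_integral_le_of_norm_le_const (a := a) (b := b)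
    (C := C * kw x * ρ ^ 2)
    (f := fun θ => VV x y (s + ρ) θ + VV x y (s - ρ) θ - 2 * VV x y s θ)
    (fun θ _ => by rw [Real.norm_eq_abs]; exact hC θ)
  rw [Real.norm_eq_abs, abs_of_nonneg (by linarith : 0 ≤ b - a)] at h
  have hnn : 0 ≤ C * kw x * ρ ^ 2 := (abs_nonneg _).trans (hC 0)
  have h4 : C * kw x * ρ ^ 2 * (b - a) ≤ 2 * π * (C * kw x * ρ ^ 2) := by
    have := mul_le_mul_of_nonneg_left (by linarith : b - a ≤ 2 * π) hnn
    linarith
  have := (abs_le.1 (h.trans h4)).1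
  exact this

private lemma hm_ptderiv (s θ : ℝ) : HasDerivAt (fun t : ℝ => pt t θ) (pt s θ) s := by
  unfold pt
  have h1 : HasDerivAt (fun t : ℝ => (t : ℂ) + (θ : ℂ) * Complex.I) 1 s := by
    exact (Complex.ofRealCLM.hasDerivAt (x := s)).add_const _
  have h2 := h1.cexp
  simpa using h2

/-- second difference of the holomorphic part -/
private lemma hm_hol {th A h : ℝ} {n : ℕ} {x y : Fin n → ℝ} {g F : ℂ → ℂ} (hD : Dat th A h n x y g F)
    {s ρ θ : ℝ} (hρ : 0 ≤ ρ) (h2 : s + ρ ≤ 3 / 2) :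
    |(g (pt (s + ρ) θ) - deriv g 0 * pt (s + ρ) θ).re + (g (pt (s - ρ) θ) - deriv g 0 * pt (s - ρ) θ).re
      - 2 * (g (pt s θ) - deriv g 0 * pt s θ).re| ≤ 2 * (2 * exp 2 * exp 2 * h) * ρ ^ 2 := by
  obtain ⟨R, hR, hg⟩ := hD.hg
  have hball : ∀ t : ℝ, t ≤ 3 / 2 → pt t θ ∈ Metric.ball (0 : ℂ) R := by
    intro t ht
    rw [mem_ball_zero_iff, Pool.Agent.TX1.pt_norm]
    exact lt_of_le_of_lt (Real.exp_le_exp.2 (by linarith)) hR
  have hg' : DifferentiableOn ℂ (deriv g) (Metric.ball 0 R) := hg.deriv Metric.isOpen_ball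
  have hd1 : ∀ t : ℝ, t ≤ 3 / 2 → HasDerivAt g (deriv g (pt t θ)) (pt t θ) := fun t ht =>
    (hg.differentiableAt (Metric.isOpen_ball.mem_nhds (hball t ht))).hasDerivAt
  have hd2 : ∀ t : ℝ, t ≤ 3 / 2 → HasDerivAt (deriv g) (deriv (deriv g) (pt t θ)) (pt t θ) := fun t ht =>
    (hg'.differentiableAt (Metric.isOpen_ball.mem_nhds (hball t ht))).hasDerivAt
  have hre : ∀ {f : ℝ → ℂ} {f' : ℂ} {t : ℝ}, HasDerivAt f f' t → HasDerivAt (fun t => (f t).re) f'.re t := by
    intro f f' t hf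
    exact Complex.reCLM.hasFDerivAt.comp_hasDerivAt t hf
  have hd3 : ∀ t : ℝ, t ≤ 3 / 2 → HasDerivAt (fun t : ℝ => (g (pt t θ) - deriv g 0 * pt t θ).re)
      ((deriv g (pt t θ) - deriv g 0) * pt t θ).re t := by
    intro t ht
    refine hre ?_
    have ha : HasDerivAt (fun t : ℝ => g (pt t θ)) (deriv g (pt t θ) * pt t θ) t :=
      (hd1 t ht).comp t (hm_ptderiv t θ)
    exact (ha.sub ((hm_ptderiv t θ).const_mul (deriv g 0))).congr_deriv (by ring)
  have hd4 : ∀ t : ℝ, t ≤ 3 / 2 → HasDerivAt (fun t : ℝ => ((deriv g (pt t θ) - deriv g 0) * pt t θ).re)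
      (deriv (deriv g) (pt t θ) * pt t θ * pt t θ + (deriv g (pt t θ) - deriv g 0) * pt t θ).re t := by
    intro t ht
    refine hre ?_
    have ha : HasDerivAt (fun t : ℝ => deriv g (pt t θ)) (deriv (deriv g) (pt t θ) * pt t θ) t :=
      HasDerivAt.comp (h₂ := deriv g) (h := fun t : ℝ => pt t θ) t (hd2 t ht) (hm_ptderiv t θ)
    exact ((ha.sub_const (deriv g 0)).mul (hm_ptderiv t θ)).congr_deriv (by ring)
  refine hm_sd hρ (fun t ht => hd3 t (by linarith [ht.2])) (fun t ht => hd4 t (by linarith [ht.2]))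
    fun t ht => ?_
  have ht2 : t ≤ 3 / 2 := by linarith [ht.2]
  have hn : ‖pt t θ‖ ≤ exp 2 := by
    rw [Pool.Agent.TX1.pt_norm]; exact Real.exp_le_exp.2 (by linarith)
  obtain ⟨-, hb, hc⟩ := hD.hH (pt t θ) hn
  have h0 := hD.hh0
  have he : 1 ≤ exp 2 := Real.one_le_exp (by norm_num)
  refine (Complex.abs_re_le_norm _).trans ((norm_add_le _ _).trans ?_)
  rw [norm_mul, norm_mul, norm_mul]
  have h5 : ‖deriv (deriv g) (pt t θ)‖ * ‖pt t θ‖ * ‖pt t θ‖ ≤ h * exp 2 * exp 2 := by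
    gcongr
  have h6 : ‖deriv g (pt t θ) - deriv g 0‖ * ‖pt t θ‖ ≤ h * exp 2 := by
    gcongr
  have h7 : h * exp 2 ≤ h * exp 2 * exp 2 := le_mul_of_one_le_right (by positivity) he
  linarith

/-- the hump integral, decomposed -/
private lemma hm_mh {l th A h : ℝ} {n : ℕ} {x y : Fin n → ℝ} {g F : ℂ → ℂ}
    (h1 : 1 ≤ l) (hD : Dat th A h n x y g F)
    (hVi : ∀ x y s : ℝ, 0 ≤ s → s ≤ 3 / 2 → ∀ a b, IntervalIntegrable (VV x y s) volume a b)
    {t : ℝ} (ht0 : 0 ≤ t) (ht : t ≤ 3 / 2) :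
    mh l F t = (2 * π - 2 * th0 l) * ((∑ i, max (-(x i)) 0) + nB x * t) +
      (∑ i, ∫ θ in (th0 l)..(2 * π - th0 l), VV (x i) (y i) t θ) + 2 * A * sin (th0 l) * exp t +
      ∫ θ in (th0 l)..(2 * π - th0 l), (g (pt t θ) - deriv g 0 * pt t θ).re := by
  obtain ⟨R, hR, hg⟩ := hD.hg
  have hball : ∀ θ : ℝ, pt t θ ∈ Metric.ball (0 : ℂ) R := by
    intro θ
    rw [mem_ball_zero_iff, Pool.Agent.TX1.pt_norm]
    exact lt_of_le_of_lt (Real.exp_le_exp.2 (by linarith)) hR
  have hptc : Continuous (fun θ : ℝ => pt t θ) := by unfold pt; fun_prop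
  have hgc : Continuous (fun θ : ℝ => g (pt t θ)) :=
    hg.continuousOn.comp_continuous hptc hball
  have hHi : ∀ a b, IntervalIntegrable (fun θ : ℝ => (g (pt t θ) - deriv g 0 * pt t θ).re) volume a b :=
    fun a b => (Complex.continuous_re.comp (hgc.sub (continuous_const.mul hptc))).intervalIntegrable _ _
  have hcongr : mh l F t = ∫ θ in (th0 l)..(2 * π - th0 l),
      (((∑ i, max (-(x i)) 0) + nB x * t + (∑ i, VV (x i) (y i) t θ) - A * exp t * cos θ)
        + (g (pt t θ) - deriv g 0 * pt t θ).re) := by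
    unfold mh
    refine intervalIntegral.integral_congr_ae ?_
    have hfin := dec_fin hD (s := t) (by linarith) (th0 l) (2 * π - th0 l)
    have hae := measure_eq_zero_iff_ae_notMem.1 (hfin.measure_zero (volume : Measure ℝ))
    filter_upwards [hae] with θ hθ hmem
    have hle : th0 l ≤ 2 * π - th0 l := by
      have := (hm_th0 h1).2
      have := Real.pi_pos
      linarith
    rw [uIoc_of_le hle] at hmem
    have hne : F (pt t θ) ≠ 0 := fun h0 => hθ ⟨⟨hmem.1.le, hmem.2⟩, h0⟩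
    exact dec' hD (by linarith) hne
  have hS : IntervalIntegrable (fun θ : ℝ => ∑ i, VV (x i) (y i) t θ) volume (th0 l) (2 * π - th0 l) := by
    have := IntervalIntegrable.sum (μ := volume) (a := th0 l) (b := 2 * π - th0 l) Finset.univ
      (f := fun i => VV (x i) (y i) t) (fun i _ => hVi (x i) (y i) t ht0 ht _ _)
    refine this.congr ?_
    intro θ _
    simp
  have hcosi : IntervalIntegrable (fun θ : ℝ => A * exp t * cos θ) volume (th0 l) (2 * π - th0 l) :=
    Continuous.intervalIntegrable (by fun_prop) _ _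
  rw [hcongr, intervalIntegral.integral_add (((intervalIntegrable_const).add hS).sub hcosi) (hHi _ _),
    intervalIntegral.integral_sub ((intervalIntegrable_const).add hS) hcosi,
    intervalIntegral.integral_add intervalIntegrable_const hS,
    intervalIntegral.integral_finset_sum (fun i _ => hVi (x i) (y i) t ht0 ht _ _),
    intervalIntegral.integral_const, intervalIntegral.integral_const_mul, integral_cos, smul_eq_mul,
    Real.sin_two_pi_sub]
  ring

private lemma hm_class (x y : ℝ) : 3 < |x| ∨ NH x y ∨ HU x y := by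
  unfold NH HU
  by_cases h : 3 < |x|
  · exact Or.inl h
  · right
    rcases le_or_gt (dd y) (1 / 2) with h2 | h2
    · right; exact ⟨h2, not_lt.1 h⟩
    · left; exact ⟨h2, not_lt.1 h⟩

private lemma hm_kw {x : ℝ} (hx : |x| ≤ 3) : exp (-6) ≤ kw x := by
  unfold kw
  refine Real.exp_le_exp.2 (le_min ?_ ?_)
  · linarith [(abs_le.1 hx).1]
  · linarith [(abs_le.1 hx).2]

open Classical in
theorem hump : ∃ C : ℝ, 1 ≤ C ∧ ∀ (l th A h : ℝ) (n : ℕ) (x y : Fin n → ℝ) (g F : ℂ → ℂ), 1 ≤ l → l ≤ 5 / 4 →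
    Dat th A h n x y g F → ∀ s ρ, 0 ≤ ρ → 0 ≤ s - ρ → s + ρ ≤ 3 / 2 →
      2 * π * (∑ i, if HU (x i) (y i) then max (ρ - |s - x i|) 0 else 0) - C * A * ρ ^ 2 - C * ρ * nNH x y ≤
        mh l F (s + ρ) + mh l F (s - ρ) - 2 * mh l F s := by
  obtain ⟨C1, hC1, hfar⟩ := vb_far
  obtain ⟨C2, hC2, hL1⟩ := vb_L1
  have hpi := Real.pi_pos
  set K1 : ℝ := 2 * π * C1 + (8 * π + 4 * π * exp (3 / 2)) * exp 6 with hK1
  set K2 : ℝ := 4 * π + 4 * π * exp (3 / 2) with hK2
  set K3 : ℝ := 2 * π * (2 * (2 * exp 2 * exp 2)) with hK3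
  have hK1p : 0 ≤ K1 := by positivity
  have hK2p : 0 ≤ K2 := by positivity
  have hK3p : 0 ≤ K3 := by positivity
  refine ⟨K1 + K2 + K3 + 1, by linarith, ?_⟩
  intro l th A h n x y g F h1 h2 hD s ρ hρ h0 hs
  have hVi : ∀ x y s : ℝ, 0 ≤ s → s ≤ 3 / 2 → ∀ a b, IntervalIntegrable (VV x y s) volume a b :=
    fun x y s ha hb => (hL1 x y s ha hb).1
  obtain ⟨ha0, ha2⟩ := hm_th0 h1
  set a := th0 l with ha
  have hab : a ≤ 2 * π - a := by linarith
  have hbb : 2 * π - a ≤ a + 2 * π := by linarith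
  have hA : 0 < A := by
    by_contra hneg
    have := mul_nonpos_of_nonneg_of_nonpos hD.hth.le (not_lt.1 hneg)
    linarith [hD.hA]
  have hthA : th * A ≤ A := by
    have := mul_le_mul_of_nonneg_right hD.hth1 hA.le
    linarith
  -- every zero
  have hone : ∀ i, 2 * π * (if HU (x i) (y i) then max (ρ - |s - x i|) 0 else 0)
      - K1 * ρ ^ 2 * kw (x i) - K2 * ρ * (if NH (x i) (y i) then (1 : ℝ) else 0) ≤
      (∫ θ in a..(2 * π - a), VV (x i) (y i) (s + ρ) θ) + (∫ θ in a..(2 * π - a), VV (x i) (y i) (s - ρ) θ) -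
        2 * ∫ θ in a..(2 * π - a), VV (x i) (y i) s θ := by
    intro i
    have hkw := kw_pos (x i)
    have hρ2 : 0 ≤ ρ ^ 2 := sq_nonneg ρ
    by_cases hU : HU (x i) (y i)
    · rw [if_pos hU]
      have h3 := hm_HU (x := x i) (y := y i) hρ h0 hs ha0 ha2 hU.1
      have hNH : 0 ≤ K2 * ρ * (if NH (x i) (y i) then (1 : ℝ) else 0) := by
        split_ifs <;> simp <;> positivity
      have hk : (8 * π + 4 * π * exp (3 / 2)) * ρ ^ 2 ≤ K1 * ρ ^ 2 * kw (x i) := by
        have h4 := hm_kw hU.2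
        have h5 : 1 ≤ exp 6 * kw (x i) := by
          have h6 : exp 6 * exp (-6) = 1 := by rw [← Real.exp_add]; simp
          calc (1 : ℝ) = exp 6 * exp (-6) := h6.symm
            _ ≤ exp 6 * kw (x i) := mul_le_mul_of_nonneg_left h4 (exp_pos _).le
        have h7 : (8 * π + 4 * π * exp (3 / 2)) * ρ ^ 2 * 1 ≤
            (8 * π + 4 * π * exp (3 / 2)) * ρ ^ 2 * (exp 6 * kw (x i)) :=
          mul_le_mul_of_nonneg_left h5 (by positivity)
        have h8 : 0 ≤ 2 * π * C1 * ρ ^ 2 * kw (x i) := by positivity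
        rw [hK1]
        linarith
      linarith
    · rw [if_neg hU, mul_zero]
      rcases hm_class (x i) (y i) with h3 | h3 | h3
      · have h4 := hm_far (C := C1) (x := x i) (y := y i) hρ h0 hs hab hbb
          (fun t ha hb => hVi _ _ t ha hb _ _)
          (fun θ => (hfar (x i) (y i) s θ (by linarith) (by linarith) h3).2 ρ hρ h0 hs)
        have hNH : 0 ≤ K2 * ρ * (if NH (x i) (y i) then (1 : ℝ) else 0) := by
          split_ifs <;> simp <;> positivity
        have h5 : 0 ≤ (8 * π + 4 * π * exp (3 / 2)) * exp 6 * ρ ^ 2 * kw (x i) := by positivity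
        rw [hK1]
        linarith
      · rw [if_pos h3, mul_one]
        have h4 := hm_NH (x := x i) (y := y i) hρ h0 hs hab hbb
        have h5 : 0 ≤ K1 * ρ ^ 2 * kw (x i) := by positivity
        rw [← hK2] at h4
        linarith
      · exact absurd h3 hU
  have hsum := Finset.sum_le_sum (fun i (_ : i ∈ Finset.univ) => hone i)
  rw [Finset.sum_sub_distrib, Finset.sum_sub_distrib, ← Finset.mul_sum, ← Finset.mul_sum, ← Finset.mul_sum,
    Finset.sum_sub_distrib, Finset.sum_add_distrib, ← Finset.mul_sum] at hsum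
  -- the holomorphic part
  have hHol : -(K3 * h * ρ ^ 2) ≤
      (∫ θ in a..(2 * π - a), (g (pt (s + ρ) θ) - deriv g 0 * pt (s + ρ) θ).re) +
      (∫ θ in a..(2 * π - a), (g (pt (s - ρ) θ) - deriv g 0 * pt (s - ρ) θ).re) -
      2 * ∫ θ in a..(2 * π - a), (g (pt s θ) - deriv g 0 * pt s θ).re := by
    obtain ⟨R, hR, hg⟩ := hD.hg
    have hHi : ∀ t : ℝ, t ≤ 3 / 2 →
        IntervalIntegrable (fun θ : ℝ => (g (pt t θ) - deriv g 0 * pt t θ).re) volume a (2 * π - a) := by
      intro t ht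
      have hptc : Continuous (fun θ : ℝ => pt t θ) := by unfold pt; fun_prop
      have hball : ∀ θ : ℝ, pt t θ ∈ Metric.ball (0 : ℂ) R := by
        intro θ
        rw [mem_ball_zero_iff, Pool.Agent.TX1.pt_norm]
        exact lt_of_le_of_lt (Real.exp_le_exp.2 (by linarith)) hR
      exact (Complex.continuous_re.comp ((hg.continuousOn.comp_continuous hptc hball).sub
        (continuous_const.mul hptc))).intervalIntegrable _ _
    have i1 := hHi (s + ρ) hs
    have i2 := hHi (s - ρ) (by linarith)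
    have i3 := hHi s (by linarith)
    rw [← intervalIntegral.integral_const_mul, ← intervalIntegral.integral_add i1 i2,
      ← intervalIntegral.integral_sub (i1.add i2) (i3.const_mul 2)]
    have h5 := intervalIntegral.norm_integral_le_of_norm_le_const (a := a) (b := 2 * π - a)
      (C := 2 * (2 * exp 2 * exp 2 * h) * ρ ^ 2)
      (f := fun θ => (g (pt (s + ρ) θ) - deriv g 0 * pt (s + ρ) θ).re +
        (g (pt (s - ρ) θ) - deriv g 0 * pt (s - ρ) θ).re - 2 * (g (pt s θ) - deriv g 0 * pt s θ).re)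
      (fun θ _ => by rw [Real.norm_eq_abs]; exact hm_hol hD hρ hs)
    rw [Real.norm_eq_abs, abs_of_nonneg (by linarith : 0 ≤ 2 * π - a - a)] at h5
    have h0' := hD.hh0
    have h6 : 2 * (2 * exp 2 * exp 2 * h) * ρ ^ 2 * (2 * π - a - a) ≤ K3 * h * ρ ^ 2 := by
      have := mul_le_mul_of_nonneg_left (by linarith : 2 * π - a - a ≤ 2 * π)
        (by positivity : 0 ≤ 2 * (2 * exp 2 * exp 2 * h) * ρ ^ 2)
      rw [hK3]
      linarith
    exact (abs_le.1 (h5.trans h6)).1
  -- the dipole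
  have hdip : 0 ≤ exp (s + ρ) + exp (s - ρ) - 2 * exp s := by
    rw [Real.exp_add, sub_eq_add_neg s ρ, Real.exp_add]
    have h3 := Real.one_le_cosh ρ
    rw [Real.cosh_eq] at h3
    have := exp_pos s
    nlinarith
  have hsin : 0 ≤ sin a := Real.sin_nonneg_of_nonneg_of_le_pi ha0.le (by linarith)
  have hdip2 : 0 ≤ 2 * A * sin a * (exp (s + ρ) + exp (s - ρ) - 2 * exp s) := by positivity
  rw [hm_mh h1 hD hVi (t := s + ρ) (by linarith) hs, hm_mh h1 hD hVi (t := s - ρ) h0 (by linarith),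
    hm_mh h1 hD hVi (t := s) (by linarith) (by linarith)]
  rw [← ha]
  have hnn : nNH x y = ∑ i, if NH (x i) (y i) then (1 : ℝ) else 0 := rfl
  rw [← hnn] at hsum
  have hn0 : 0 ≤ nNH x y := by
    rw [hnn]
    exact Finset.sum_nonneg fun i _ => by split_ifs <;> norm_num
  have hρ2 : 0 ≤ ρ ^ 2 := sq_nonneg ρ
  have e1 : K1 * ρ ^ 2 * ∑ i, kw (x i) ≤ K1 * ρ ^ 2 * A :=
    mul_le_mul_of_nonneg_left (hD.hK.trans hthA) (by positivity)
  have e2 : K3 * h * ρ ^ 2 ≤ K3 * A * ρ ^ 2 := by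
    have := hD.hh.trans hthA
    gcongr
  have e3 : K2 * ρ * nNH x y ≤ (K1 + K2 + K3 + 1) * ρ * nNH x y := by
    have : K2 ≤ K1 + K2 + K3 + 1 := by linarith
    gcongr
  have e4 : K1 * ρ ^ 2 * A + K3 * A * ρ ^ 2 ≤ (K1 + K2 + K3 + 1) * A * ρ ^ 2 := by
    have : 0 ≤ (K2 + 1) * A * ρ ^ 2 := by positivity
    linarith
  linarith

end Pool.Agent.THX
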