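import Pool.Agent.THX.GamOde
import Pool.Agent.TX1.Ell

/-!
# THX, module IdDer: the derivative of `exp (-l s) TH l F s 0` at a height without zeros

`F` has no zero on the circle `|ζ| = exp s`, so none on the circles of height near `s` (compactness).  With `D = ζ F'/F` (holomorphic near the circle) and
`D2 = ζ D'`: `∂_s Re D = Re D2`, `∂_s log |F| = Re D`, `∂_θ log |F| = - Im D`, `∂_θ² log |F| = - Re D2`.  Differentiate `TH` under the integral sign:
`d/ds [exp (-l s) ∫ gam (Re D + l log |F|)] = exp (-l s) ∫ gam (Re D2 - l² log |F|)`, and `gam_ode` with `v θ = log ‖F (pt s θ)‖`, `v2 = - Re D2`: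
`∫ gam Re D2 = l² ∫ gam v - KK v 0 - ∫_{hump} v`.
-/

set_option autoImplicit false
set_option linter.all false

namespace Pool.Agent.THX

open Real MeasureTheory Set Filter Topology
open Pool.Agent.TX1 (pt ell TM TN Fac HM Gr)

private theorem idd_log {g : ℝ → ℂ} {g' : ℂ} {t : ℝ} (hg : HasDerivAt g g' t) (h0 : g t ≠ 0) :
    HasDerivAt (fun t => log ‖g t‖) (g' / g t).re t := by
  have hre : HasDerivAt (fun t => (g t).re) g'.re t :=
    Complex.reCLM.hasFDerivAt.comp_hasDerivAt t hg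
  have him : HasDerivAt (fun t => (g t).im) g'.im t :=
    Complex.imCLM.hasFDerivAt.comp_hasDerivAt t hg
  have hn : 0 < Complex.normSq (g t) := Complex.normSq_pos.mpr h0
  have h1 : HasDerivAt (fun t => (g t).re * (g t).re + (g t).im * (g t).im)
      (g'.re * (g t).re + (g t).re * g'.re + (g'.im * (g t).im + (g t).im * g'.im)) t :=
    (hre.mul hre).add (him.mul him)
  have h2 := (h1.log (by rw [Complex.normSq_apply] at hn; exact hn.ne')).div_const 2
  have h3 : (fun t => log ‖g t‖) =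
      fun t => log ((g t).re * (g t).re + (g t).im * (g t).im) / 2 := by
    funext t
    have : (g t).re * (g t).re + (g t).im * (g t).im = ‖g t‖ ^ 2 := by
      rw [← Complex.normSq_apply, Complex.normSq_eq_norm_sq]
    rw [this, log_pow]
    push_cast
    ring
  rw [h3]
  refine HasDerivAt.congr_deriv h2 ?_
  rw [Complex.div_re, Complex.normSq_apply]
  rw [Complex.normSq_apply] at hn
  field_simp
  ring

private theorem idd_pt_s (t θ : ℝ) : HasDerivAt (fun t => pt t θ) (pt t θ) t := by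
  unfold pt
  have h1 : HasDerivAt (fun t : ℝ => (t : ℂ) + (θ : ℂ) * Complex.I) 1 t :=
    (Complex.ofRealCLM.hasDerivAt (x := t)).add_const _
  have h2 := h1.cexp
  rwa [mul_one] at h2

private theorem idd_pt_th (t θ : ℝ) : HasDerivAt (fun θ => pt t θ) (pt t θ * Complex.I) θ := by
  unfold pt
  have h1 : HasDerivAt (fun θ : ℝ => (t : ℂ) + (θ : ℂ) * Complex.I) (1 * Complex.I) θ :=
    ((Complex.ofRealCLM.hasDerivAt (x := θ)).mul_const _).const_add _
  have h2 := h1.cexp
  rwa [one_mul] at h2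

private theorem idd_nb {U : Set ℂ} (hU : IsOpen U) {s : ℝ} (h : ∀ θ, pt s θ ∈ U) :
    ∃ δ > 0, ∀ t ∈ Metric.ball s δ, ∀ θ, pt t θ ∈ U := by
  have h1 : ∀ᶠ t in 𝓝 s, ∀ θ ∈ Icc (0 : ℝ) (2 * π), pt t θ ∈ U := by
    apply IsCompact.eventually_forall_of_forall_eventually isCompact_Icc
    intro θ _
    have h2 : Tendsto (fun p : ℝ × ℝ => pt p.1 p.2) (𝓝 (s, θ)) (𝓝 (pt s θ)) :=
      TX1.pt_cont.tendsto (s, θ)
    exact h2.eventually (hU.mem_nhds (h θ))
  obtain ⟨δ, hδ, h3⟩ := Metric.eventually_nhds_iff_ball.mp h1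
  refine ⟨δ, hδ, fun t ht θ => ?_⟩
  have hper : Function.Periodic (fun θ => pt t θ) (2 * π) := fun θ => TX1.pt_per t θ
  obtain ⟨y, hy, hyt⟩ := hper.exists_mem_Ico₀ (by positivity) θ
  have hyt' : pt t θ = pt t y := hyt
  rw [hyt']
  exact h3 t ht y ⟨hy.1, hy.2.le⟩

private theorem idd_int {f f' : ℝ → ℝ → ℝ} {a b s δ : ℝ} (hδ : 0 < δ)
    (hd : ∀ t ∈ Metric.ball s δ, ∀ θ, HasDerivAt (fun t => f t θ) (f' t θ) t)
    (hc : ContinuousOn (fun p : ℝ × ℝ => f p.1 p.2) (Metric.ball s δ ×ˢ univ))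
    (hc' : ContinuousOn (fun p : ℝ × ℝ => f' p.1 p.2) (Metric.ball s δ ×ˢ univ)) :
    HasDerivAt (fun t => ∫ θ in a..b, f t θ) (∫ θ in a..b, f' s θ) s := by
  have hsl : ∀ {g : ℝ → ℝ → ℝ}, ContinuousOn (fun p : ℝ × ℝ => g p.1 p.2) (Metric.ball s δ ×ˢ univ) →
      ∀ t ∈ Metric.ball s δ, Continuous (g t) := by
    intro g hg t ht
    rw [← continuousOn_univ]
    exact hg.comp (f := fun θ : ℝ => (t, θ)) (by fun_prop) (fun θ _ => ⟨ht, mem_univ θ⟩)
  have hcomp : IsCompact (Metric.closedBall s (δ / 2) ×ˢ uIcc a b) :=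
    (isCompact_closedBall s (δ / 2)).prod isCompact_uIcc
  have hsub : Metric.closedBall s (δ / 2) ⊆ Metric.ball s δ :=
    Metric.closedBall_subset_ball (by linarith)
  obtain ⟨C, hC⟩ := hcomp.exists_bound_of_continuousOn
    (hc'.mono (prod_mono hsub (subset_univ _)))
  have hs0 : s ∈ Metric.ball s δ := Metric.mem_ball_self hδ
  refine (intervalIntegral.hasDerivAt_integral_of_dominated_loc_of_deriv_le
    (μ := volume) (F := f) (F' := f') (bound := fun _ => C)
    (Metric.ball_mem_nhds s (half_pos hδ)) ?_ ?_ ?_ ?_ ?_ ?_).2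
  · filter_upwards [Metric.ball_mem_nhds s hδ] with t ht
    exact (hsl hc t ht).aestronglyMeasurable.restrict
  · exact (hsl hc s hs0).intervalIntegrable _ _
  · exact (hsl hc' s hs0).aestronglyMeasurable.restrict
  · refine Eventually.of_forall fun θ hθ t ht => ?_
    exact hC (t, θ) ⟨Metric.ball_subset_closedBall ht, uIoc_subset_uIcc hθ⟩
  · exact intervalIntegrable_const
  · refine Eventually.of_forall fun θ _ t ht => ?_
    exact hd t (hsub (Metric.ball_subset_closedBall ht)) θ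

private theorem idd_open {F : ℂ → ℂ} {ρ : ℝ} (hF : DifferentiableOn ℂ F (Metric.ball 0 ρ)) :
    IsOpen (Metric.ball (0 : ℂ) ρ ∩ F ⁻¹' {0}ᶜ) :=
  hF.continuousOn.isOpen_inter_preimage Metric.isOpen_ball isOpen_compl_singleton

private theorem idd_mem {F : ℂ → ℂ} {ρ s : ℝ} (hs : exp s < ρ) (hne : ∀ θ, F (pt s θ) ≠ 0) (θ : ℝ) :
    pt s θ ∈ Metric.ball (0 : ℂ) ρ ∩ F ⁻¹' {0}ᶜ := by
  refine ⟨?_, hne θ⟩
  rw [mem_ball_zero_iff, TX1.pt_norm]
  exact hs

private theorem idd_cont {U : Set ℂ} {s δ : ℝ} (h : ∀ t ∈ Metric.ball s δ, ∀ θ, pt t θ ∈ U)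
    {g : ℂ → ℝ} (hg : ContinuousOn g U) :
    ContinuousOn (fun p : ℝ × ℝ => g (pt p.1 p.2)) (Metric.ball s δ ×ˢ univ) :=
  hg.comp TX1.pt_cont.continuousOn fun p hp => h p.1 hp.1 p.2

theorem id_der {l : ℝ} (h1 : 1 ≤ l) (h2 : l ≤ 5 / 4) {F : ℂ → ℂ} {ρ : ℝ} (hF : DifferentiableOn ℂ F (Metric.ball 0 ρ))
    {s : ℝ} (hs : exp s < ρ) (hne : ∀ θ, F (pt s θ) ≠ 0) :
    HasDerivAt (fun t => exp (-(l * t)) * TH l F t 0)
      (exp (-(l * s)) * (-(KK l * log ‖F (pt s 0)‖) - mh l F s)) s := by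
  set U : Set ℂ := Metric.ball (0 : ℂ) ρ ∩ F ⁻¹' {0}ᶜ with hUdef
  have hU : IsOpen U := idd_open hF
  obtain ⟨δ, hδ, hnb⟩ := idd_nb hU (idd_mem hs hne)
  have hFU : DifferentiableOn ℂ F U := hF.mono inter_subset_left
  have hF0 : ∀ z ∈ U, F z ≠ 0 := fun z hz => hz.2
  have hF'U : DifferentiableOn ℂ (deriv F) U := hFU.deriv hU
  set D : ℂ → ℂ := fun z => z * deriv F z / F z with hD
  have hDU : DifferentiableOn ℂ D U := (differentiableOn_id.mul hF'U).div hFU hF0
  have hD'U : DifferentiableOn ℂ (deriv D) U := hDU.deriv hU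
  have hFd : ∀ z ∈ U, HasDerivAt F (deriv F z) z := fun z hz =>
    (hFU.differentiableAt (hU.mem_nhds hz)).hasDerivAt
  have hDd : ∀ z ∈ U, HasDerivAt D (deriv D z) z := fun z hz =>
    (hDU.differentiableAt (hU.mem_nhds hz)).hasDerivAt
  -- derivatives in t
  have dv : ∀ t ∈ Metric.ball s δ, ∀ θ, HasDerivAt (fun t => log ‖F (pt t θ)‖) (D (pt t θ)).re t := by
    intro t ht θ
    have a1 := idd_log ((hFd _ (hnb t ht θ)).comp t (idd_pt_s t θ)) (hF0 _ (hnb t ht θ))
    have a2 : deriv F (pt t θ) * pt t θ / (F ∘ fun t => pt t θ) t = D (pt t θ) := by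
      show deriv F (pt t θ) * pt t θ / F (pt t θ) = pt t θ * deriv F (pt t θ) / F (pt t θ)
      ring
    rw [a2] at a1
    exact a1
  have dD : ∀ t ∈ Metric.ball s δ, ∀ θ,
      HasDerivAt (fun t => (D (pt t θ)).re) (deriv D (pt t θ) * pt t θ).re t := by
    intro t ht θ
    exact Complex.reCLM.hasFDerivAt.comp_hasDerivAt t
      ((hDd _ (hnb t ht θ)).comp t (idd_pt_s t θ))
  -- continuity
  have cF : ContinuousOn (fun z => log ‖F z‖) U := by
    apply ContinuousOn.log hFU.continuousOn.norm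
    intro z hz
    exact norm_ne_zero_iff.mpr (hF0 z hz)
  have cD : ContinuousOn (fun z => (D z).re) U := Complex.continuous_re.comp_continuousOn hDU.continuousOn
  have cD2 : ContinuousOn (fun z => (deriv D z * z).re) U :=
    Complex.continuous_re.comp_continuousOn (hD'U.continuousOn.mul continuousOn_id)
  have cg : Continuous (gam l) := gam_cont h1 h2
  have cg2 : ContinuousOn (fun p : ℝ × ℝ => gam l p.2) (Metric.ball s δ ×ˢ univ) :=
    (cg.comp continuous_snd).continuousOn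
  -- the derivative of TH
  have hTH : ∀ t, TH l F t 0 = ∫ θ in (-π)..π, gam l θ * ((D (pt t θ)).re + l * log ‖F (pt t θ)‖) := by
    intro t
    unfold TH ql
    simp only [add_zero]
    rfl
  have hTHd : HasDerivAt (fun t => TH l F t 0)
      (∫ θ in (-π)..π, gam l θ * ((deriv D (pt s θ) * pt s θ).re + l * (D (pt s θ)).re)) s := by
    have e : (fun t => TH l F t 0) =
        fun t => ∫ θ in (-π)..π, gam l θ * ((D (pt t θ)).re + l * log ‖F (pt t θ)‖) := funext hTH
    rw [e]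
    refine idd_int (f := fun t θ => gam l θ * ((D (pt t θ)).re + l * log ‖F (pt t θ)‖))
      (f' := fun t θ => gam l θ * ((deriv D (pt t θ) * pt t θ).re + l * (D (pt t θ)).re)) hδ ?_ ?_ ?_
    · intro t ht θ
      exact ((dD t ht θ).add ((dv t ht θ).const_mul l)).const_mul _
    · exact cg2.mul ((idd_cont hnb cD).add ((idd_cont hnb cF).const_smul l))
    · exact cg2.mul ((idd_cont hnb cD2).add ((idd_cont hnb cD).const_smul l))
  have hexp : HasDerivAt (fun t => exp (-(l * t))) (exp (-(l * s)) * (-(l * 1))) s :=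
    (((hasDerivAt_id s).const_mul l).neg).exp
  have hmain := hexp.mul hTHd
  -- integrability on the circle of height s
  have hs0 : s ∈ Metric.ball s δ := Metric.mem_ball_self hδ
  have hsl : ∀ {g : ℂ → ℝ}, ContinuousOn g U → Continuous fun θ => g (pt s θ) := by
    intro g hg
    rw [← continuousOn_univ]
    exact hg.comp (f := fun θ : ℝ => pt s θ)
      ((TX1.pt_cont.comp (continuous_const.prodMk continuous_id)).continuousOn)
      (fun θ _ => hnb s hs0 θ)
  have iF : IntervalIntegrable (fun θ => gam l θ * log ‖F (pt s θ)‖) volume (-π) π :=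
    (cg.mul (hsl cF)).intervalIntegrable _ _
  have iD : IntervalIntegrable (fun θ => gam l θ * (D (pt s θ)).re) volume (-π) π :=
    (cg.mul (hsl cD)).intervalIntegrable _ _
  have iD2 : IntervalIntegrable (fun θ => gam l θ * (deriv D (pt s θ) * pt s θ).re) volume (-π) π :=
    (cg.mul (hsl cD2)).intervalIntegrable _ _
  -- the ode
  have v1d : ∀ θ, HasDerivAt (fun θ => log ‖F (pt s θ)‖) (-(D (pt s θ)).im) θ := by
    intro θ
    have a1 := idd_log ((hFd _ (hnb s hs0 θ)).comp θ (idd_pt_th s θ)) (hF0 _ (hnb s hs0 θ))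
    have a2 : deriv F (pt s θ) * (pt s θ * Complex.I) / (F ∘ fun t => pt s t) θ =
        D (pt s θ) * Complex.I := by
      show deriv F (pt s θ) * (pt s θ * Complex.I) / F (pt s θ) =
        pt s θ * deriv F (pt s θ) / F (pt s θ) * Complex.I
      ring
    rw [a2, Complex.mul_I_re] at a1
    exact a1
  have v2d : ∀ θ, HasDerivAt (fun θ => -(D (pt s θ)).im) (-(deriv D (pt s θ) * pt s θ).re) θ := by
    intro θ
    have a1 : HasDerivAt (fun θ => (D (pt s θ)).im) (deriv D (pt s θ) * (pt s θ * Complex.I)).im θ :=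
      Complex.imCLM.hasFDerivAt.comp_hasDerivAt θ
        ((hDd _ (hnb s hs0 θ)).comp θ (idd_pt_th s θ))
    have a2 : (deriv D (pt s θ) * (pt s θ * Complex.I)).im = (deriv D (pt s θ) * pt s θ).re := by
      rw [← mul_assoc, Complex.mul_I_im]
    rw [a2] at a1
    exact a1.neg
  have hode := gam_ode h1 h2 v1d v2d (hsl cD2).neg (fun θ => by rw [TX1.pt_per])
  have e1 : ∫ θ in (-π)..π, gam l θ * -(deriv D (pt s θ) * pt s θ).re =
      -∫ θ in (-π)..π, gam l θ * (deriv D (pt s θ) * pt s θ).re := by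
    rw [← intervalIntegral.integral_neg]
    congr 1
    funext θ
    ring
  rw [e1] at hode
  have e2 : ∫ θ in (-π)..π, gam l θ * ((deriv D (pt s θ) * pt s θ).re + l * (D (pt s θ)).re) =
      (∫ θ in (-π)..π, gam l θ * (deriv D (pt s θ) * pt s θ).re) +
        l * ∫ θ in (-π)..π, gam l θ * (D (pt s θ)).re := by
    rw [← intervalIntegral.integral_const_mul, ← intervalIntegral.integral_add iD2 (iD.const_mul l)]
    congr 1
    funext θ
    ring
  have e3 : TH l F s 0 = (∫ θ in (-π)..π, gam l θ * (D (pt s θ)).re) +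
      l * ∫ θ in (-π)..π, gam l θ * log ‖F (pt s θ)‖ := by
    rw [hTH, ← intervalIntegral.integral_const_mul, ← intervalIntegral.integral_add iD (iF.const_mul l)]
    congr 1
    funext θ
    ring
  have e4 : (∫ θ in (th0 l)..(2 * π - th0 l), log ‖F (pt s θ)‖) = mh l F s := rfl
  rw [e4] at hode
  refine HasDerivAt.congr_deriv hmain ?_
  rw [e2, e3]
  have e5 : (∫ θ in (-π)..π, gam l θ * (deriv D (pt s θ) * pt s θ).re) =
      l ^ 2 * (∫ θ in (-π)..π, gam l θ * log ‖F (pt s θ)‖) - KK l * log ‖F (pt s 0)‖ - mh l F s := by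
    linarith
  rw [e5]
  ring

/-- continuity of the hump integral at a height without zeros -/
theorem mh_contAt {l : ℝ} {F : ℂ → ℂ} {ρ : ℝ} (hF : DifferentiableOn ℂ F (Metric.ball 0 ρ))
    {s : ℝ} (hs : exp s < ρ) (hne : ∀ θ, F (pt s θ) ≠ 0) : ContinuousAt (mh l F) s := by
  set U : Set ℂ := Metric.ball (0 : ℂ) ρ ∩ F ⁻¹' {0}ᶜ with hUdef
  have hU : IsOpen U := idd_open hF
  obtain ⟨δ, hδ, hnb⟩ := idd_nb hU (idd_mem hs hne)
  have hFU : DifferentiableOn ℂ F U := hF.mono inter_subset_left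
  have hF0 : ∀ z ∈ U, F z ≠ 0 := fun z hz => hz.2
  have hF'U : DifferentiableOn ℂ (deriv F) U := hFU.deriv hU
  have hFd : ∀ z ∈ U, HasDerivAt F (deriv F z) z := fun z hz =>
    (hFU.differentiableAt (hU.mem_nhds hz)).hasDerivAt
  have dv : ∀ t ∈ Metric.ball s δ, ∀ θ, HasDerivAt (fun t => log ‖F (pt t θ)‖)
      (deriv F (pt t θ) * pt t θ / F (pt t θ)).re t := by
    intro t ht θ
    exact idd_log ((hFd _ (hnb t ht θ)).comp t (idd_pt_s t θ)) (hF0 _ (hnb t ht θ))
  have cF : ContinuousOn (fun z => log ‖F z‖) U := by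
    apply ContinuousOn.log hFU.continuousOn.norm
    intro z hz
    exact norm_ne_zero_iff.mpr (hF0 z hz)
  have cD : ContinuousOn (fun z => (deriv F z * z / F z).re) U :=
    Complex.continuous_re.comp_continuousOn
      ((hF'U.continuousOn.mul continuousOn_id).div hFU.continuousOn hF0)
  have hd : HasDerivAt (fun t => ∫ θ in (th0 l)..(2 * π - th0 l), log ‖F (pt t θ)‖)
      (∫ θ in (th0 l)..(2 * π - th0 l), (deriv F (pt s θ) * pt s θ / F (pt s θ)).re) s :=
    idd_int (f := fun t θ => log ‖F (pt t θ)‖)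
      (f' := fun t θ => (deriv F (pt t θ) * pt t θ / F (pt t θ)).re) hδ dv
      (idd_cont hnb cF) (idd_cont hnb cD)
  exact hd.continuousAt

end Pool.Agent.THX
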