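import Pool.Agent.THX.GamA
import Pool.Agent.TX1.Ell

/-!
# THX, module IdJump: the jump of `TH` at the height of a zero

`F ζ = 1 - ζ/b`, `b = pt x y`, `ζ = pt s θ`, `w = ζ/b = pt (s-x) (θ-y)`, `ρ = exp (s-x)`: `ζ F'/F = -w/(1-w)`, real part
`(ρ² - ρ cos β)/|1-w|²`, `β = θ - y`, which is `1/2 + (1/2) (ρ²-1)/|1-w|²`.
`∫_{-π}^{π} (ρ²-1)/|1-w|² dθ = 2π sign (ρ-1)` (Poisson kernel), and `∫ |gam θ - gam y| |ρ²-1|/|1-w|² dθ → 0` as `ρ → 1` (dominated convergence:
`|gam θ - gam y| ≤ 4 |β|` (mod `2π`), `|1-w|² = (1-ρ)² + 4ρ sin²(β/2)`, so the integrand is bounded and tends to `0` for `β ≠ 0 mod 2π`).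
The term `l ∫ gam log |1 - w|` is continuous in `s` (dominated convergence: `|log |1-w|| ≤ C + log (1/|sin (β/2)|)`, or `ell` facts of `TX1.Ell`).
So both one-sided limits exist, `T = (1/2) ∫ gam + l ∫ gam log |1 - exp (i(θ-y))|`.
-/

set_option autoImplicit false
set_option linter.all false

namespace Pool.Agent.THX

open Real MeasureTheory Set Filter Topology
open Pool.Agent.TX1 (pt ell TM TN Fac HM Gr)

/-- `|1 - w|²` -/
private theorem idj_normsq (τ β : ℝ) :
    ‖1 - pt τ β‖ ^ 2 = (1 - exp τ) ^ 2 + 4 * exp τ * sin (β / 2) ^ 2 := by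
  have h1 : pt τ β = ((exp τ * cos β : ℝ) : ℂ) + ((exp τ * sin β : ℝ) : ℂ) * Complex.I := by
    unfold TX1.pt
    rw [Complex.exp_add, Complex.exp_mul_I]
    push_cast
    ring
  rw [← Complex.normSq_eq_norm_sq, h1, Complex.normSq_apply]
  simp only [Complex.sub_re, Complex.one_re, Complex.add_re, Complex.ofReal_re, Complex.mul_re,
    Complex.I_re, Complex.ofReal_im, Complex.I_im, Complex.sub_im, Complex.one_im, Complex.add_im,
    Complex.mul_im]
  have h2 : cos β = 1 - 2 * sin (β / 2) ^ 2 := by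
    have := Real.cos_two_mul (β / 2)
    have h3 := Real.sin_sq_add_cos_sq (β / 2)
    rw [show 2 * (β / 2) = β by ring] at this
    linarith
  have h4 := Real.sin_sq_add_cos_sq β
  have h5 : sin β ^ 2 = 1 - cos β ^ 2 := by linarith
  have h6 : (1 - (exp τ * cos β + (exp τ * sin β * 0 - 0 * 1))) *
      (1 - (exp τ * cos β + (exp τ * sin β * 0 - 0 * 1))) +
      (0 - (0 + (exp τ * sin β * 1 + 0 * 0))) * (0 - (0 + (exp τ * sin β * 1 + 0 * 0))) =
      1 - 2 * exp τ * cos β + exp τ ^ 2 * (cos β ^ 2 + sin β ^ 2) := by ring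
  rw [h6, h5, h2]
  ring

private theorem idj_ne (τ : ℝ) {β : ℝ} (h : sin (β / 2) ≠ 0) : 1 - pt τ β ≠ 0 := by
  intro h0
  have h1 := idj_normsq τ β
  rw [h0, norm_zero] at h1
  have h2 : 0 < 4 * exp τ * sin (β / 2) ^ 2 := by positivity
  nlinarith [sq_nonneg (1 - exp τ)]

private theorem idj_ne' {τ : ℝ} (h : τ ≠ 0) (β : ℝ) : 1 - pt τ β ≠ 0 := by
  intro h0
  exact TX1.one_sub_pt_ne h β (by rw [h0, norm_zero])

private theorem idj_low (τ : ℝ) {β : ℝ} (h : sin (β / 2) ≠ 0) : τ / 2 + ell 0 β ≤ ell τ β := by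
  have h1 := idj_normsq τ β
  have h2 := idj_normsq 0 β
  rw [Real.exp_zero, sub_self] at h2
  have h3 : exp τ * ‖1 - pt 0 β‖ ^ 2 ≤ ‖1 - pt τ β‖ ^ 2 := by
    rw [h1, h2]
    nlinarith [sq_nonneg (1 - exp τ)]
  have hp0 : 0 < ‖1 - pt 0 β‖ := norm_pos_iff.2 (idj_ne 0 h)
  have hp : 0 < ‖1 - pt τ β‖ := norm_pos_iff.2 (idj_ne τ h)
  have h4 := Real.log_le_log (by positivity) h3
  rw [Real.log_mul (exp_pos _).ne' (by positivity), Real.log_exp, Real.log_pow, Real.log_pow] at h4
  unfold TX1.ell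
  push_cast at h4
  linarith

private theorem idj_bd (τ : ℝ) {β : ℝ} (h : sin (β / 2) ≠ 0) :
    |ell τ β| ≤ |ell 0 β| + |τ| + log (1 + exp |τ|) := by
  have h1 := idj_low τ h
  have h2 := TX1.ell_le τ β
  have h3 : log (1 + exp τ) ≤ log (1 + exp |τ|) := by
    apply Real.log_le_log (by positivity)
    have := Real.exp_le_exp.2 (le_abs_self τ)
    linarith
  have h4 : 0 ≤ log (1 + exp |τ|) := Real.log_nonneg (by linarith [exp_pos |τ|])
  rw [abs_le]
  constructor
  · have := neg_abs_le (ell 0 β)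
    have := neg_abs_le τ
    linarith [abs_nonneg τ]
  · linarith [abs_nonneg (ell 0 β), abs_nonneg τ]

private theorem idj_ae (y : ℝ) : ∀ᵐ θ : ℝ, sin ((θ - y) / 2) ≠ 0 := by
  have hc : {θ : ℝ | sin ((θ - y) / 2) = 0}.Countable := by
    have : {θ : ℝ | sin ((θ - y) / 2) = 0} ⊆ Set.range (fun k : ℤ => y + 2 * (k * π)) := by
      intro θ hθ
      have h1 : sin ((θ - y) / 2) = 0 := hθ
      rw [Real.sin_eq_zero_iff] at h1
      obtain ⟨k, hk⟩ := h1
      refine ⟨k, ?_⟩
      show y + 2 * (k * π) = θ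
      rw [hk]
      ring
    exact (Set.countable_range _).mono this
  have h := hc.ae_notMem (volume : Measure ℝ)
  filter_upwards [h] with θ hθ h0
  exact hθ h0

private theorem idj_ell_ii (τ y a b : ℝ) :
    IntervalIntegrable (fun θ => ell τ (θ - y)) volume a b := by
  have h := (TX1.ell_ii τ (a - y) (b - y)).comp_sub_right y
  simpa using h

private theorem idj_ell_cont {β : ℝ} (h : sin (β / 2) ≠ 0) (x s : ℝ) :
    ContinuousAt (fun s => ell (s - x) β) s := by
  unfold TX1.ell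
  have hc : Continuous (fun s : ℝ => 1 - pt (s - x) β) := by
    unfold TX1.pt
    fun_prop
  exact hc.norm.continuousAt.log (norm_ne_zero_iff.2 (idj_ne _ h))

private theorem idj_int_cont {g : ℝ → ℝ} (hg : Continuous g) (hb : ∀ θ, |g θ| ≤ 4) (x y a b : ℝ) :
    Continuous (fun s => ∫ θ in a..b, g θ * ell (s - x) (θ - y)) := by
  rw [continuous_iff_continuousAt]
  intro s₀
  set R : ℝ := |s₀ - x| + 1 with hR
  have hev : ∀ᶠ s in 𝓝 s₀, |s - x| ≤ R := by
    have h1 : Continuous (fun s : ℝ => |s - x|) := by fun_prop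
    have h2 : ∀ᶠ s in 𝓝 s₀, |s - x| < R := by
      apply h1.continuousAt.eventually_lt continuousAt_const
      rw [hR]
      linarith
    filter_upwards [h2] with s hs using hs.le
  apply intervalIntegral.continuousAt_of_dominated_interval
    (bound := fun θ => 4 * (|ell 0 (θ - y)| + R + log (1 + exp R)))
  · filter_upwards with s
    have := (idj_ell_ii (s - x) y a b).continuousOn_mul hg.continuousOn
    exact this.def'.aestronglyMeasurable
  · filter_upwards [hev] with s hs
    filter_upwards [idj_ae y] with θ hθ _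
    rw [Real.norm_eq_abs, abs_mul]
    apply mul_le_mul (hb θ) _ (abs_nonneg _) (by norm_num)
    refine (idj_bd (s - x) hθ).trans ?_
    have h1 : log (1 + exp |s - x|) ≤ log (1 + exp R) := by
      apply Real.log_le_log (by positivity)
      have := Real.exp_le_exp.2 hs
      linarith
    linarith
  · apply IntervalIntegrable.const_mul
    exact ((idj_ell_ii 0 y a b).abs.add (intervalIntegrable_const)).add intervalIntegrable_const
  · filter_upwards [idj_ae y] with θ hθ _
    exact continuousAt_const.mul (idj_ell_cont hθ x s₀)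

/-- the kernel -/
private noncomputable def idjK (τ β : ℝ) : ℝ := (exp τ ^ 2 - 1) / ‖1 - pt τ β‖ ^ 2

private theorem idj_re (w : ℂ) (hw : 1 - w ≠ 0) :
    (-w / (1 - w)).re = 1 / 2 + 1 / 2 * ((‖w‖ ^ 2 - 1) / ‖1 - w‖ ^ 2) := by
  have h0 : 0 < ‖1 - w‖ ^ 2 := by positivity
  have h1 : ‖w‖ ^ 2 = w.re ^ 2 + w.im ^ 2 := by
    rw [← Complex.normSq_eq_norm_sq, Complex.normSq_apply]
    ring
  have h2 : ‖1 - w‖ ^ 2 = (1 - w.re) ^ 2 + w.im ^ 2 := by
    rw [← Complex.normSq_eq_norm_sq, Complex.normSq_apply]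
    simp only [Complex.sub_re, Complex.one_re, Complex.sub_im, Complex.one_im]
    ring
  have h3 : (-w / (1 - w)).re = (-(w.re) * (1 - w.re) + w.im ^ 2) / ‖1 - w‖ ^ 2 := by
    rw [Complex.div_re, Complex.normSq_eq_norm_sq]
    simp only [Complex.neg_re, Complex.sub_re, Complex.one_re, Complex.neg_im, Complex.sub_im,
      Complex.one_im]
    field_simp
    ring
  rw [h3]
  rw [h1]
  field_simp
  rw [h2]
  ring

private theorem idj_herg (w : ℂ) (hw : 1 - w ≠ 0) :
    ((1 + w) / (1 - w)).re = -((‖w‖ ^ 2 - 1) / ‖1 - w‖ ^ 2) := by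
  have h1 : (1 + w) / (1 - w) = 1 - 2 * (-w / (1 - w)) := by
    field_simp
    ring
  rw [h1, Complex.sub_re, Complex.mul_re, Complex.one_re]
  rw [idj_re w hw]
  simp
  ring

private theorem idj_K_int_neg {τ : ℝ} (hτ : τ < 0) : ∫ β in (0)..(2 * π), idjK τ β = -(2 * π) := by
  have hρ : exp τ < 1 := by rw [Real.exp_lt_one_iff]; exact hτ
  have hρ0 : 0 < exp τ := exp_pos _
  have hd : DiffContOnCl ℂ (fun w : ℂ => (1 + w) / (1 - w)) (Metric.ball 0 |exp τ|) := by
    apply DifferentiableOn.diffContOnCl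
    intro w hw
    have hw1 : ‖w‖ ≤ exp τ := by
      have := Metric.closure_ball_subset_closedBall hw
      rw [Metric.mem_closedBall, dist_zero_right, abs_of_pos hρ0] at this
      exact this
    have hne : 1 - w ≠ 0 := by
      intro h
      have : w = 1 := by linear_combination -h
      rw [this, norm_one] at hw1
      linarith
    exact ((differentiableAt_const _).add differentiableAt_id |>.div
      ((differentiableAt_const _).sub differentiableAt_id) hne).differentiableWithinAt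
  have h1 := hd.circleAverage
  rw [Real.circleAverage_def] at h1
  have hmap : ∀ θ : ℝ, circleMap 0 (exp τ) θ = pt τ θ := by
    intro θ
    unfold circleMap TX1.pt
    rw [Complex.exp_add, Complex.ofReal_exp]
    ring
  simp only [hmap] at h1
  have h2 : ∫ θ in (0)..(2 * π), ((1 + pt τ θ) / (1 - pt τ θ)) = ((2 * π : ℝ) : ℂ) := by
    have h3 : ((2 * π : ℝ)⁻¹ • ∫ θ in (0)..(2 * π), ((1 + pt τ θ) / (1 - pt τ θ)) : ℂ) = 1 := by
      rw [h1]; norm_num
    rw [Complex.real_smul] at h3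
    have h4 : ((2 * π : ℝ) : ℂ) ≠ 0 := by
      have : (2 * π : ℝ) ≠ 0 := by positivity
      exact_mod_cast this
    rw [Complex.ofReal_inv] at h3
    field_simp at h3
    exact h3
  have hcont : Continuous (fun θ : ℝ => (1 + pt τ θ) / (1 - pt τ θ)) := by
    have hc : Continuous (fun θ : ℝ => pt τ θ) := by
      unfold TX1.pt
      fun_prop
    exact (continuous_const.add hc).div (continuous_const.sub hc) (fun θ => idj_ne' hτ.ne θ)
  have h3 := Complex.reCLM.intervalIntegral_comp_comm (hcont.intervalIntegrable 0 (2 * π))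
    (μ := volume)
  rw [h2] at h3
  have h4 : ∀ θ, Complex.reCLM ((1 + pt τ θ) / (1 - pt τ θ)) = -idjK τ θ := by
    intro θ
    rw [Complex.reCLM_apply, idj_herg _ (idj_ne' hτ.ne θ), TX1.pt_norm]
    rfl
  simp only [h4] at h3
  rw [intervalIntegral.integral_neg, Complex.reCLM_apply, Complex.ofReal_re] at h3
  linarith

private theorem idj_K_neg (τ β : ℝ) : idjK (-τ) β = -idjK τ β := by
  unfold idjK
  have h := TX1.norm_one_sub_pt τ β
  have h2 : ‖1 - pt (-τ) β‖ = exp (-τ) * ‖1 - pt τ β‖ := by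
    rw [h, ← mul_assoc, ← Real.exp_add, neg_add_cancel, Real.exp_zero, one_mul]
  rw [h2]
  by_cases h0 : ‖1 - pt τ β‖ = 0
  · rw [h0]; simp
  · have h3 : exp (-τ) * exp τ = 1 := by rw [← Real.exp_add, neg_add_cancel, Real.exp_zero]
    have h4 : exp (-τ) ≠ 0 := (exp_pos _).ne'
    rw [div_eq_iff (by positivity), mul_pow]
    rw [neg_mul, div_mul_eq_mul_div, eq_neg_iff_add_eq_zero, div_eq_mul_inv]
    field_simp
    nlinarith

private theorem idj_K_per (τ β : ℝ) : idjK τ (β + 2 * π) = idjK τ β := by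
  unfold idjK
  rw [TX1.pt_per]

private theorem idj_K_cont {τ : ℝ} (hτ : τ ≠ 0) : Continuous (idjK τ) := by
  unfold idjK
  have hc : Continuous (fun θ : ℝ => pt τ θ) := by
    unfold TX1.pt
    fun_prop
  refine continuous_const.div ((continuous_const.sub hc).norm.pow 2) (fun θ => ?_)
  exact pow_ne_zero 2 (norm_ne_zero_iff.2 (idj_ne' hτ θ))

private theorem idj_K_shift (τ y : ℝ) :
    ∫ θ in (-π)..π, idjK τ (θ - y) = ∫ β in (0)..(2 * π), idjK τ β := by
  rw [intervalIntegral.integral_comp_sub_right (fun β => idjK τ β) y]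
  have hp : Function.Periodic (idjK τ) (2 * π) := idj_K_per τ
  have h1 := hp.intervalIntegral_add_eq (-π - y) 0
  have e1 : -π - y + 2 * π = π - y := by ring
  rw [e1, zero_add] at h1
  exact h1

private theorem idj_K_int {τ : ℝ} (hτ : τ ≠ 0) (y : ℝ) :
    ∫ θ in (-π)..π, idjK τ (θ - y) = SignType.sign τ * (2 * π) := by
  rw [idj_K_shift]
  rcases lt_or_gt_of_ne hτ with h | h
  · rw [idj_K_int_neg h, sign_neg h]
    simp
  · have h1 := idj_K_int_neg (τ := -τ) (by linarith)
    simp only [idj_K_neg] at h1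
    rw [intervalIntegral.integral_neg] at h1
    rw [sign_pos h]
    simp
    linarith

private theorem idj_gam {l : ℝ} (h1 : 1 ≤ l) (h2 : l ≤ 5 / 4) (θ y : ℝ) :
    |gam l θ - gam l y| ≤ 4 * π * |sin ((θ - y) / 2)| := by
  -- reduce to `|θ - y| ≤ π`
  obtain ⟨k, hk⟩ : ∃ k : ℤ, |θ - y - k * (2 * π)| ≤ π := by
    refine ⟨round ((θ - y) / (2 * π)), ?_⟩
    have h3 := abs_sub_round ((θ - y) / (2 * π))
    have h4 : θ - y - (round ((θ - y) / (2 * π)) : ℝ) * (2 * π) =
        (2 * π) * ((θ - y) / (2 * π) - round ((θ - y) / (2 * π))) := by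
      field_simp
    rw [h4, abs_mul, abs_of_pos (by positivity : (0 : ℝ) < 2 * π)]
    nlinarith [Real.pi_pos]
  have hper : Function.Periodic (gam l) (2 * π) := gam_per l
  have h5 : gam l θ = gam l (θ - k * (2 * π)) := (hper.sub_int_mul_eq k).symm
  rw [h5]
  refine (gam_lip h1 h2 _ _).trans ?_
  have h6 : θ - k * (2 * π) - y = θ - y - k * (2 * π) := by ring
  rw [h6]
  set β := θ - y - k * (2 * π) with hβ
  have h7 : |sin ((θ - y) / 2)| = |sin (β / 2)| := by
    have h8 : (θ - y) / 2 = β / 2 + k * π := by rw [hβ]; ring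
    rw [h8, Real.sin_add_int_mul_pi, abs_mul]
    simp
  rw [h7]
  have h9 : 2 / π * (|β| / 2) ≤ sin (|β| / 2) :=
    Real.mul_le_sin (by positivity) (by linarith)
  have h10 : |sin (β / 2)| = sin (|β| / 2) := by
    have h11 : |β| / 2 = |β / 2| := by rw [abs_div, abs_of_pos (by norm_num : (0 : ℝ) < 2)]
    rw [h11]
    rcases le_or_gt 0 (β / 2) with h12 | h12
    · rw [abs_of_nonneg h12, abs_of_nonneg]
      apply Real.sin_nonneg_of_nonneg_of_le_pi h12
      have := le_abs_self β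
      linarith [Real.pi_pos]
    · rw [abs_of_neg h12, Real.sin_neg, abs_of_nonpos]
      apply Real.sin_nonpos_of_nonpos_of_neg_pi_le h12.le
      have := neg_abs_le β
      linarith [Real.pi_pos]
  rw [h10]
  have h13 : |β| ≤ π * sin (|β| / 2) := by
    have h14 : π * (2 / π * (|β| / 2)) = |β| := by
      field_simp
    calc |β| = π * (2 / π * (|β| / 2)) := h14.symm
      _ ≤ _ := mul_le_mul_of_nonneg_left h9 Real.pi_pos.le
  nlinarith

private theorem idj_D_bd {l : ℝ} (h1 : 1 ≤ l) (h2 : l ≤ 5 / 4) (y : ℝ) {τ : ℝ} (hτ : |τ| ≤ 1)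
    {θ : ℝ} (hθ : sin ((θ - y) / 2) ≠ 0) :
    |(gam l θ - gam l y) * idjK τ (θ - y)| ≤ 4 * π * exp 2 := by
  set S := |sin ((θ - y) / 2)| with hS
  have hS0 : 0 < S := abs_pos.2 hθ
  have hg := idj_gam h1 h2 θ y
  rw [← hS] at hg
  rw [abs_mul]
  have hn := idj_normsq τ (θ - y)
  have hn2 : ‖1 - pt τ (θ - y)‖ ^ 2 = (1 - exp τ) ^ 2 + 4 * exp τ * S ^ 2 := by
    rw [hn, hS, sq_abs]
  have hn0 : 0 < ‖1 - pt τ (θ - y)‖ ^ 2 := by
    have := norm_pos_iff.2 (idj_ne τ hθ)
    positivity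
  have he : exp (-1) ≤ exp τ := Real.exp_le_exp.2 (by linarith [neg_abs_le τ])
  have he1 : exp τ ≤ exp 1 := Real.exp_le_exp.2 (by linarith [le_abs_self τ])
  have heτ := exp_pos τ
  -- `|K| S ≤ exp 2`
  have hK : S * |idjK τ (θ - y)| ≤ exp 2 := by
    unfold idjK
    rw [abs_div, abs_of_pos hn0, ← mul_div_assoc, div_le_iff₀ hn0, hn2]
    have ha : |exp τ ^ 2 - 1| = (exp τ + 1) * |1 - exp τ| := by
      have : exp τ ^ 2 - 1 = -((exp τ + 1) * (1 - exp τ)) := by ring
      rw [this, abs_neg, abs_mul, abs_of_pos (by positivity)]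
    rw [ha]
    set a := |1 - exp τ| with haa
    have ha0 : 0 ≤ a := abs_nonneg _
    have ha2 : (1 - exp τ) ^ 2 = a ^ 2 := by rw [haa, sq_abs]
    rw [ha2]
    -- `S (ρ+1) a ≤ exp 2 (a² + 4 ρ S²)`
    have hE1 : (2 : ℝ) ≤ exp 1 := by
      have := Real.add_one_le_exp (1 : ℝ)
      linarith
    have hEinv : exp (-1) * exp 1 = 1 := by
      rw [← Real.exp_add]; norm_num
    have hE2 : exp 2 = exp 1 * exp 1 := by rw [← Real.exp_add]; norm_num
    have hρ : 1 ≤ exp τ * exp 1 := by
      calc (1 : ℝ) = exp (-1) * exp 1 := hEinv.symm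
        _ ≤ exp τ * exp 1 := mul_le_mul_of_nonneg_right he (exp_pos _).le
    -- `exp 2 * (a² + 4ρS²) ≥ exp 1 * (exp 1 * a² + 4 S²)`
    have h3 : exp 1 * (exp 1 * a ^ 2 + 4 * S ^ 2) ≤ exp 2 * (a ^ 2 + 4 * exp τ * S ^ 2) := by
      rw [hE2]
      have h4 : 4 * S ^ 2 ≤ (exp τ * exp 1) * (4 * S ^ 2) := by
        nlinarith [sq_nonneg S]
      nlinarith [exp_pos (1 : ℝ)]
    refine le_trans ?_ h3
    have h5 : exp τ + 1 ≤ exp 1 * 2 := by linarith
    have h6 : S * ((exp τ + 1) * a) ≤ S * ((exp 1 * 2) * a) := by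
      apply mul_le_mul_of_nonneg_left _ hS0.le
      exact mul_le_mul_of_nonneg_right h5 ha0
    refine h6.trans ?_
    have h7 : 2 * S * a ≤ exp 1 * a ^ 2 + 4 * S ^ 2 := by
      nlinarith [sq_nonneg (a - S), sq_nonneg a, sq_nonneg S]
    nlinarith [exp_pos (1 : ℝ)]
  calc |gam l θ - gam l y| * |idjK τ (θ - y)| ≤ (4 * π * S) * |idjK τ (θ - y)| :=
        mul_le_mul_of_nonneg_right hg (abs_nonneg _)
    _ = 4 * π * (S * |idjK τ (θ - y)|) := by ring
    _ ≤ 4 * π * exp 2 := mul_le_mul_of_nonneg_left hK (by positivity)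

private theorem idj_K_zero (β : ℝ) : idjK 0 β = 0 := by
  unfold idjK
  rw [Real.exp_zero]
  norm_num

private theorem idj_D_cont {l : ℝ} (h1 : 1 ≤ l) (h2 : l ≤ 5 / 4) (y : ℝ) :
    ContinuousAt (fun τ => ∫ θ in (-π)..π, (gam l θ - gam l y) * idjK τ (θ - y)) 0 := by
  have hev : ∀ᶠ τ : ℝ in 𝓝 0, |τ| ≤ 1 := by
    have h3 : Continuous (fun τ : ℝ => |τ|) := by fun_prop
    have h4 : ∀ᶠ τ : ℝ in 𝓝 0, |τ| < 1 := by
      apply h3.continuousAt.eventually_lt continuousAt_const
      simp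
    filter_upwards [h4] with τ hτ using hτ.le
  apply intervalIntegral.continuousAt_of_dominated_interval (bound := fun _ => 4 * π * exp 2)
  · filter_upwards with τ
    by_cases hτ : τ = 0
    · subst hτ
      simp only [idj_K_zero, mul_zero]
      exact aestronglyMeasurable_const
    · apply Continuous.aestronglyMeasurable
      exact ((gam_cont h1 h2).sub continuous_const).mul
        ((idj_K_cont hτ).comp (continuous_id.sub continuous_const))
  · filter_upwards [hev] with τ hτ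
    filter_upwards [idj_ae y] with θ hθ _
    rw [Real.norm_eq_abs]
    exact idj_D_bd h1 h2 y hτ hθ
  · exact intervalIntegrable_const
  · filter_upwards [idj_ae y] with θ hθ _
    apply continuousAt_const.mul
    unfold idjK
    have hc : Continuous (fun τ : ℝ => pt τ (θ - y)) := by
      unfold TX1.pt
      fun_prop
    have he : Continuous (fun τ : ℝ => exp τ ^ 2 - 1) := by fun_prop
    refine he.continuousAt.div ((continuous_const.sub hc).norm.pow 2).continuousAt ?_
    exact pow_ne_zero 2 (norm_ne_zero_iff.2 (idj_ne 0 hθ))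

private theorem idj_TH {l : ℝ} (h1 : 1 ≤ l) (h2 : l ≤ 5 / 4) (x y : ℝ) {s : ℝ} (hs : s ≠ x) :
    TH l (fun ζ => 1 - ζ / pt x y) s 0 = 1 / 2 * (∫ θ in (-π)..π, gam l θ) +
      1 / 2 * ((∫ θ in (-π)..π, (gam l θ - gam l y) * idjK (s - x) (θ - y)) +
        gam l y * (SignType.sign (s - x) * (2 * π))) +
      l * ∫ θ in (-π)..π, gam l θ * ell (s - x) (θ - y) := by
  have hτ : s - x ≠ 0 := sub_ne_zero.2 hs
  have hgc := gam_cont h1 h2
  have hKc : Continuous (fun θ => idjK (s - x) (θ - y)) :=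
    (idj_K_cont hτ).comp (continuous_id.sub continuous_const)
  have hql : ∀ θ, gam l θ * ql l (fun ζ => 1 - ζ / pt x y) (pt s (θ + 0)) =
      1 / 2 * gam l θ + 1 / 2 * ((gam l θ - gam l y) * idjK (s - x) (θ - y)) +
        1 / 2 * (gam l y * idjK (s - x) (θ - y)) + l * (gam l θ * ell (s - x) (θ - y)) := by
    intro θ
    rw [add_zero]
    have hw : pt s θ / pt x y = pt (s - x) (θ - y) := TX1.pt_div s θ x y
    have hd : deriv (fun ζ : ℂ => 1 - ζ / pt x y) (pt s θ) = -(1 / pt x y) := by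
      have : HasDerivAt (fun ζ : ℂ => 1 - ζ / pt x y) (0 - 1 / pt x y) (pt s θ) :=
        (hasDerivAt_const _ _).sub ((hasDerivAt_id _).div_const _)
      rw [this.deriv]
      ring
    unfold ql
    rw [hd]
    beta_reduce
    rw [hw]
    have h3 : pt s θ * -(1 / pt x y) / (1 - pt (s - x) (θ - y)) =
        -pt (s - x) (θ - y) / (1 - pt (s - x) (θ - y)) := by
      rw [← hw]
      ring
    rw [h3, idj_re _ (idj_ne' hτ _), TX1.pt_norm]
    unfold TX1.ell idjK
    ring
  unfold TH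
  simp only [hql]
  have i1 : IntervalIntegrable (fun θ => 1 / 2 * gam l θ) volume (-π) π :=
    (hgc.intervalIntegrable _ _).const_mul _
  have i2 : IntervalIntegrable (fun θ => 1 / 2 * ((gam l θ - gam l y) * idjK (s - x) (θ - y)))
      volume (-π) π :=
    (((hgc.sub continuous_const).mul hKc).intervalIntegrable _ _).const_mul _
  have i3 : IntervalIntegrable (fun θ => 1 / 2 * (gam l y * idjK (s - x) (θ - y)))
      volume (-π) π :=
    ((continuous_const.mul hKc).intervalIntegrable _ _).const_mul _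
  have i4 : IntervalIntegrable (fun θ => l * (gam l θ * ell (s - x) (θ - y))) volume (-π) π :=
    ((idj_ell_ii (s - x) y (-π) π).continuousOn_mul hgc.continuousOn).const_mul _
  rw [intervalIntegral.integral_add ((i1.add i2).add i3) i4,
    intervalIntegral.integral_add (i1.add i2) i3, intervalIntegral.integral_add i1 i2,
    intervalIntegral.integral_const_mul, intervalIntegral.integral_const_mul,
    intervalIntegral.integral_const_mul, intervalIntegral.integral_const_mul,
    intervalIntegral.integral_const_mul, idj_K_int hτ]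
  ring

theorem id_jump {l : ℝ} (h1 : 1 ≤ l) (h2 : l ≤ 5 / 4) (x y : ℝ) : ∃ T : ℝ,
    Tendsto (fun s => TH l (fun ζ => 1 - ζ / pt x y) s 0) (𝓝[>] x) (𝓝 (T + π * gam l y)) ∧
    Tendsto (fun s => TH l (fun ζ => 1 - ζ / pt x y) s 0) (𝓝[<] x) (𝓝 (T - π * gam l y)) := by
  have hgb : ∀ θ, |gam l θ| ≤ 4 := by
    intro θ
    rw [abs_le]
    have := gam_low h1 h2 θ
    have := gam_up h1 h2 θ
    have := Real.neg_one_le_cos θ
    constructor <;> linarith
  have hE := idj_int_cont (gam_cont h1 h2) hgb x y (-π) π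
  have hD : ContinuousAt (fun s => ∫ θ in (-π)..π, (gam l θ - gam l y) * idjK (s - x) (θ - y)) x := by
    have h3 := idj_D_cont h1 h2 y
    have h4 : ContinuousAt (fun s : ℝ => s - x) x := by fun_prop
    have h5 : (fun s : ℝ => s - x) x = 0 := sub_self x
    rw [← h5] at h3
    exact ContinuousAt.comp (f := fun s : ℝ => s - x) h3 h4
  have hD0 : (∫ θ in (-π)..π, (gam l θ - gam l y) * idjK (x - x) (θ - y)) = 0 := by
    rw [sub_self]
    simp only [idj_K_zero, mul_zero, intervalIntegral.integral_zero]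
  set T : ℝ := 1 / 2 * (∫ θ in (-π)..π, gam l θ) +
    l * ∫ θ in (-π)..π, gam l θ * ell (x - x) (θ - y) with hT
  have hlim : ∀ c : ℝ, Tendsto (fun s => 1 / 2 * (∫ θ in (-π)..π, gam l θ) +
      1 / 2 * ((∫ θ in (-π)..π, (gam l θ - gam l y) * idjK (s - x) (θ - y)) + c) +
      l * ∫ θ in (-π)..π, gam l θ * ell (s - x) (θ - y)) (𝓝 x) (𝓝 (T + 1 / 2 * c)) := by
    intro c
    have h3 : ContinuousAt (fun s => 1 / 2 * (∫ θ in (-π)..π, gam l θ) +
      1 / 2 * ((∫ θ in (-π)..π, (gam l θ - gam l y) * idjK (s - x) (θ - y)) + c) +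
      l * ∫ θ in (-π)..π, gam l θ * ell (s - x) (θ - y)) x :=
      (continuousAt_const.add (continuousAt_const.mul (hD.add continuousAt_const))).add
        (continuousAt_const.mul hE.continuousAt)
    have h4 := h3.tendsto
    rw [hD0, zero_add] at h4
    have h5 : T + 1 / 2 * c = 1 / 2 * (∫ θ in (-π)..π, gam l θ) + 1 / 2 * c +
        l * ∫ θ in (-π)..π, gam l θ * ell (x - x) (θ - y) := by
      rw [hT]; ring
    rw [h5]
    exact h4
  refine ⟨T, ?_, ?_⟩
  · have h3 := (hlim (gam l y * (2 * π))).mono_left (nhdsWithin_le_nhds (s := Ioi x))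
    have h4 : T + 1 / 2 * (gam l y * (2 * π)) = T + π * gam l y := by ring
    rw [h4] at h3
    refine h3.congr' ?_
    filter_upwards [self_mem_nhdsWithin] with s hs
    have hs' : x < s := hs
    rw [idj_TH h1 h2 x y hs'.ne', sign_pos (sub_pos.2 hs')]
    simp
  · have h3 := (hlim (-(gam l y * (2 * π)))).mono_left (nhdsWithin_le_nhds (s := Iio x))
    have h4 : T + 1 / 2 * (-(gam l y * (2 * π))) = T - π * gam l y := by ring
    rw [h4] at h3
    refine h3.congr' ?_
    filter_upwards [self_mem_nhdsWithin] with s hs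
    have hs' : s < x := hs
    rw [idj_TH h1 h2 x y hs'.ne, sign_neg (sub_neg.2 hs')]
    simp

/-- the hump integral of one factor is continuous everywhere -/
theorem mh_one_cont {l : ℝ} (h1 : 1 ≤ l) (x y : ℝ) : Continuous (mh l (fun ζ => 1 - ζ / pt x y)) := by
  have h := idj_int_cont (g := fun _ => 1) continuous_const (by intro θ; norm_num) x y
    (th0 l) (2 * π - th0 l)
  refine h.congr fun s => ?_
  unfold mh
  apply intervalIntegral.integral_congr
  intro θ _
  show 1 * ell (s - x) (θ - y) = log ‖1 - pt s θ / pt x y‖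
  rw [one_mul, TX1.pt_div]
  rfl

/-- `log |1 - ζ/b|` on the ray `θ = 0` is locally integrable -/
theorem log_one_ii (x y a b : ℝ) : IntervalIntegrable (fun s => log ‖1 - pt s 0 / pt x y‖) volume a b := by
  have h : AnalyticOnNhd ℝ (fun s : ℝ => 1 - pt s 0 / pt x y) univ := by
    intro s _
    have hA : AnalyticAt ℂ (fun z : ℂ => 1 - Complex.exp (z + ((0 : ℝ) : ℂ) * Complex.I) / pt x y)
        ((s : ℝ) : ℂ) := by
      apply AnalyticAt.sub analyticAt_const
      apply AnalyticAt.div _ analyticAt_const (TX1.pt_ne x y)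
      fun_prop
    exact (hA.restrictScalars (𝕜 := ℝ)).comp (Complex.ofRealCLM.analyticAt s)
  exact MeromorphicOn.intervalIntegrable_log_norm (fun s _ => (h s (mem_univ s)).meromorphicAt)

end Pool.Agent.THX
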