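import Pool.Agent.THX.IdDer
import Pool.Agent.THX.IdJump

/-!
# THX, module Ident: the exact identity on a window

For one factor `F = 1 - ζ/b` (`b = pt x y`, `x ≠ 0, el`): `id_der` off the height `x`, `id_jump` at `x`
(`intervalIntegral.integral_eq_sub_of_hasDerivAt_of_tendsto` on `[0, x]` and `[x, el]` if `0 < x < el`), for `exp ∘ g`: `id_der` everywhere.  Add up:
`ql l (∏ F_i * exp g) = ∑ ql l F_i + ql l (exp g)` on circles without zeros (heights `0` and `el`), `log |F|` is the sum of the logarithms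
off the (finitely many) zeros, `mh` likewise (a.e. `θ`).
-/

set_option autoImplicit false
set_option linter.all false

namespace Pool.Agent.THX

open Real MeasureTheory Set Filter Topology
open Pool.Agent.TX1 (pt ell TM TN Fac HM Gr)

/-- the linear factor -/
private noncomputable def fac (x y : ℝ) (ζ : ℂ) : ℂ := 1 - ζ / pt x y

private theorem idn_pt_norm (s θ : ℝ) : ‖pt s θ‖ = exp s := Pool.Agent.TX1.pt_norm s θ

private theorem idn_pt_ne (s θ : ℝ) : pt s θ ≠ 0 := Pool.Agent.TX1.pt_ne s θ

private theorem idn_pt_cont (s : ℝ) : Continuous (fun θ : ℝ => pt s θ) :=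
  Pool.Agent.TX1.pt_cont.comp (by fun_prop : Continuous fun θ : ℝ => (s, θ))

private theorem idn_pt_cont' (θ : ℝ) : Continuous (fun s : ℝ => pt s θ) :=
  Pool.Agent.TX1.pt_cont.comp (by fun_prop : Continuous fun s : ℝ => (s, θ))

private theorem idn_fac_diff (x y : ℝ) : Differentiable ℂ (fac x y) := by
  unfold fac
  fun_prop

private theorem idn_fac_ne {x y s θ : ℝ} (h : s ≠ x) : fac x y (pt s θ) ≠ 0 := by
  unfold fac
  rw [Pool.Agent.TX1.pt_div]
  have := Pool.Agent.TX1.one_sub_pt_ne (sub_ne_zero.mpr h) (θ - y)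
  rwa [Ne, norm_eq_zero] at this

private theorem idn_zero_im {x y s θ : ℝ} (h : fac x y (pt s θ) = 0) :
    s = x ∧ ∃ n : ℤ, θ = y + n * (2 * π) := by
  unfold fac at h
  have h1 : pt s θ / pt x y = 1 := (sub_eq_zero.mp h).symm
  have h2 : pt s θ = pt x y := by
    rwa [div_eq_one_iff_eq (idn_pt_ne x y)] at h1
  unfold pt at h2
  obtain ⟨n, hn⟩ := Complex.exp_eq_exp_iff_exists_int.mp h2
  refine ⟨?_, n, ?_⟩
  · have := congrArg Complex.re hn
    simpa using this
  · have := congrArg Complex.im hn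
    simpa using this

/-- zeros on a circle are negligible -/
private theorem idn_ae_theta {n : ℕ} (x y : Fin n → ℝ) (s : ℝ) :
    ∀ᵐ θ : ℝ, ∀ i, fac (x i) (y i) (pt s θ) ≠ 0 := by
  rw [ae_all_iff]
  intro i
  have hc : (range (fun n : ℤ => y i + n * (2 * π))).Countable := countable_range _
  refine (measure_mono_null ?_ (hc.measure_zero volume) : volume {θ : ℝ | ¬ fac (x i) (y i) (pt s θ) ≠ 0} = 0)
  intro θ hθ
  have h0 : fac (x i) (y i) (pt s θ) = 0 := by
    simpa using hθ
  obtain ⟨-, n, hn⟩ := idn_zero_im h0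
  exact ⟨n, hn.symm⟩

/-- zeros on a ray are negligible -/
private theorem idn_ae_s {n : ℕ} (x y : Fin n → ℝ) :
    ∀ᵐ s : ℝ, ∀ i, fac (x i) (y i) (pt s 0) ≠ 0 := by
  rw [ae_all_iff]
  intro i
  refine (measure_mono_null ?_ (measure_singleton (x i)) :
    volume {s : ℝ | ¬ fac (x i) (y i) (pt s 0) ≠ 0} = 0)
  intro s hs
  have h0 : fac (x i) (y i) (pt s 0) = 0 := by
    simpa using hs
  exact (idn_zero_im h0).1

/-- additivity of the logarithm -/
private theorem idn_log_add {th A h : ℝ} {n : ℕ} {x y : Fin n → ℝ} {g F : ℂ → ℂ}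
    (hD : Dat th A h n x y g F) {s θ : ℝ} (hs : s ≤ 3) (hne : ∀ i, fac (x i) (y i) (pt s θ) ≠ 0) :
    log ‖F (pt s θ)‖ = (∑ i, log ‖fac (x i) (y i) (pt s θ)‖)
      + log ‖Complex.exp (g (pt s θ))‖ := by
  have h1 : ‖pt s θ‖ ≤ exp 3 := by
    rw [idn_pt_norm]
    exact exp_le_exp.mpr hs
  rw [hD.hF _ h1, norm_mul, Real.log_mul _ (norm_ne_zero_iff.mpr (Complex.exp_ne_zero _))]
  · congr 1
    rw [norm_prod, Real.log_prod]
    · rfl
    · intro i _
      exact norm_ne_zero_iff.mpr (hne i)
  · rw [norm_ne_zero_iff]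
    exact Finset.prod_ne_zero_iff.mpr fun i _ => hne i

private theorem idn_logE (g : ℂ → ℂ) (z : ℂ) : log ‖Complex.exp (g z)‖ = (g z).re := by
  rw [Complex.norm_exp, Real.log_exp]

private theorem idn_ii_fac (x y s a b : ℝ) :
    IntervalIntegrable (fun θ => log ‖fac x y (pt s θ)‖) volume a b := by
  have h := (Pool.Agent.TX1.ell_ii (s - x) (a - y) (b - y)).comp_sub_right y
  simp only [sub_add_cancel] at h
  refine h.congr ?_
  intro θ _
  show Pool.Agent.TX1.ell (s - x) (θ - y) = log ‖fac x y (pt s θ)‖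
  unfold Pool.Agent.TX1.ell fac
  rw [Pool.Agent.TX1.pt_div]

private theorem idn_g_cont {ρ : ℝ} {g : ℂ → ℂ} (hg : DifferentiableOn ℂ g (Metric.ball 0 ρ)) {s : ℝ}
    (hs : exp s < ρ) : Continuous (fun θ : ℝ => g (pt s θ)) := by
  rw [continuous_iff_continuousAt]
  intro θ
  have h1 : pt s θ ∈ Metric.ball (0 : ℂ) ρ := by
    rw [mem_ball_zero_iff, idn_pt_norm]
    exact hs
  have h2 : ContinuousAt g (pt s θ) :=
    (hg.differentiableAt (Metric.isOpen_ball.mem_nhds h1)).continuousAt
  exact ContinuousAt.comp (f := fun θ : ℝ => pt s θ) h2 (idn_pt_cont s).continuousAt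

private theorem idn_dg_cont {ρ : ℝ} {g : ℂ → ℂ} (hg : DifferentiableOn ℂ g (Metric.ball 0 ρ)) {s : ℝ}
    (hs : exp s < ρ) : Continuous (fun θ : ℝ => deriv g (pt s θ)) :=
  idn_g_cont (hg.deriv Metric.isOpen_ball) hs

private theorem idn_expg_diff {ρ : ℝ} {g : ℂ → ℂ} (hg : DifferentiableOn ℂ g (Metric.ball 0 ρ)) :
    DifferentiableOn ℂ (fun ζ => Complex.exp (g ζ)) (Metric.ball 0 ρ) := hg.cexp

private theorem idn_ii_sum {n : ℕ} {f : Fin n → ℝ → ℝ} {a b : ℝ}
    (h : ∀ i ∈ (Finset.univ : Finset (Fin n)), IntervalIntegrable (f i) volume a b) :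
    IntervalIntegrable (fun s => ∑ i, f i s) volume a b := by
  have := IntervalIntegrable.sum Finset.univ h
  have e : (∑ i, f i) = fun s => ∑ i, f i s := by
    funext s
    rw [Finset.sum_apply]
  rwa [e] at this

/-- additivity of the hump integral -/
private theorem idn_mh_add {l : ℝ} {th A h : ℝ} {n : ℕ} {x y : Fin n → ℝ} {g F : ℂ → ℂ}
    (hD : Dat th A h n x y g F) {s : ℝ} (hs : s ≤ 3) :
    mh l F s = (∑ i, mh l (fac (x i) (y i)) s) + mh l (fun ζ => Complex.exp (g ζ)) s := by
  obtain ⟨ρ, hρ, hg⟩ := hD.hg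
  have hs' : exp s < ρ := lt_of_le_of_lt (exp_le_exp.mpr hs) hρ
  unfold mh
  have hE : IntervalIntegrable (fun θ => log ‖Complex.exp (g (pt s θ))‖) volume (th0 l)
      (2 * π - th0 l) := by
    simp only [idn_logE]
    exact (Complex.continuous_re.comp (idn_g_cont hg hs')).intervalIntegrable _ _
  have hFi : ∀ i ∈ (Finset.univ : Finset (Fin n)),
      IntervalIntegrable (fun θ => log ‖fac (x i) (y i) (pt s θ)‖) volume (th0 l)
      (2 * π - th0 l) := fun i _ => idn_ii_fac _ _ _ _ _
  rw [← intervalIntegral.integral_finset_sum hFi, ← intervalIntegral.integral_add _ hE]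
  · apply intervalIntegral.integral_congr_ae
    filter_upwards [idn_ae_theta x y s] with θ hθ _
    exact idn_log_add hD hs hθ
  · exact idn_ii_sum hFi

/-- additivity of the boundary functional -/
private theorem idn_TH_add {l : ℝ} (h1 : 1 ≤ l) (h2 : l ≤ 5 / 4) {th A h : ℝ} {n : ℕ}
    {x y : Fin n → ℝ} {g F : ℂ → ℂ}
    (hD : Dat th A h n x y g F) {s : ℝ} (hs : s < 3) (hx : ∀ i, x i ≠ s) :
    TH l F s 0 = (∑ i, TH l (fac (x i) (y i)) s 0) + TH l (fun ζ => Complex.exp (g ζ)) s 0 := by
  obtain ⟨ρ, hρ, hg⟩ := hD.hg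
  have hs' : exp s < ρ := lt_of_le_of_lt (exp_le_exp.mpr hs.le) hρ
  have hgam := gam_cont h1 h2
  have hne : ∀ i θ, fac (x i) (y i) (pt s θ) ≠ 0 := fun i θ => idn_fac_ne (hx i).symm
  have hmem : ∀ θ, pt s θ ∈ Metric.ball (0 : ℂ) ρ := by
    intro θ
    rw [mem_ball_zero_iff, idn_pt_norm]
    exact hs'
  have hgd : ∀ θ, DifferentiableAt ℂ g (pt s θ) := fun θ =>
    hg.differentiableAt (Metric.isOpen_ball.mem_nhds (hmem θ))
  -- pointwise additivity
  have hq : ∀ θ, ql l F (pt s θ) = (∑ i, ql l (fac (x i) (y i)) (pt s θ))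
      + ql l (fun ζ => Complex.exp (g ζ)) (pt s θ) := by
    intro θ
    have hev : F =ᶠ[𝓝 (pt s θ)] fun ζ => (∏ i, fac (x i) (y i) ζ) * Complex.exp (g ζ) := by
      have hb : Metric.ball (0 : ℂ) (exp 3) ∈ 𝓝 (pt s θ) := by
        apply Metric.isOpen_ball.mem_nhds
        rw [mem_ball_zero_iff, idn_pt_norm]
        exact exp_lt_exp.mpr hs
      filter_upwards [hb] with ζ hζ
      rw [mem_ball_zero_iff] at hζ
      exact hD.hF ζ hζ.le
    have hlog := idn_log_add hD hs.le (θ := θ) (fun i => hne i θ)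
    have hld : deriv F (pt s θ) / F (pt s θ) =
        (∑ i, deriv (fac (x i) (y i)) (pt s θ) / fac (x i) (y i) (pt s θ))
        + deriv (fun ζ => Complex.exp (g ζ)) (pt s θ) / Complex.exp (g (pt s θ)) := by
      rw [hev.deriv_eq, hev.eq_of_nhds]
      have hp : logDeriv (fun ζ => (∏ i, fac (x i) (y i) ζ) * Complex.exp (g ζ)) (pt s θ) =
          logDeriv (fun ζ => ∏ i, fac (x i) (y i) ζ) (pt s θ)
          + logDeriv (fun ζ => Complex.exp (g ζ)) (pt s θ) := by
        apply logDeriv_mul
        · exact Finset.prod_ne_zero_iff.mpr fun i _ => hne i θ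
        · exact Complex.exp_ne_zero _
        · exact DifferentiableAt.fun_finset_prod fun i _ => (idn_fac_diff _ _).differentiableAt
        · exact (hgd θ).cexp
      have hp2 : logDeriv (fun ζ => ∏ i, fac (x i) (y i) ζ) (pt s θ) =
          ∑ i, logDeriv (fac (x i) (y i)) (pt s θ) := by
        apply logDeriv_prod
        · exact fun i _ => hne i θ
        · exact fun i _ => (idn_fac_diff _ _).differentiableAt
      rw [hp2] at hp
      simpa only [logDeriv_apply] using hp
    unfold ql
    rw [mul_div_assoc, hld, hlog, mul_add, Complex.add_re, Finset.mul_sum, Complex.re_sum, mul_add,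
      Finset.mul_sum, Finset.sum_add_distrib]
    simp only [mul_div_assoc]
    ring
  unfold TH
  simp only [add_zero]
  have hcE : Continuous fun θ => gam l θ * ql l (fun ζ => Complex.exp (g ζ)) (pt s θ) := by
    have e : ∀ θ, ql l (fun ζ => Complex.exp (g ζ)) (pt s θ) =
        (pt s θ * deriv g (pt s θ)).re + l * (g (pt s θ)).re := by
      intro θ
      unfold ql
      rw [idn_logE]
      congr 2
      have : deriv (fun ζ => Complex.exp (g ζ)) (pt s θ) =
          Complex.exp (g (pt s θ)) * deriv g (pt s θ) := ((hgd θ).hasDerivAt.cexp).deriv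
      rw [this]
      have h0 := Complex.exp_ne_zero (g (pt s θ))
      field_simp
    simp only [e]
    have c1 := idn_g_cont hg hs'
    have c2 := idn_dg_cont hg hs'
    have c3 := idn_pt_cont s
    exact hgam.mul ((Complex.continuous_re.comp (c3.mul c2)).add
      (continuous_const.mul (Complex.continuous_re.comp c1)))
  have hci : ∀ i, Continuous fun θ => gam l θ * ql l (fac (x i) (y i)) (pt s θ) := by
    intro i
    have hd : ∀ z, deriv (fac (x i) (y i)) z = -(1 / pt (x i) (y i)) := by
      intro z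
      unfold fac
      have : HasDerivAt (fun ζ : ℂ => 1 - ζ / pt (x i) (y i)) (0 - 1 / pt (x i) (y i)) z :=
        (hasDerivAt_const z (1 : ℂ)).sub ((hasDerivAt_id z).div_const _)
      rw [this.deriv]
      ring
    unfold ql
    simp only [hd]
    have c3 := idn_pt_cont s
    have c4 : Continuous fun θ => fac (x i) (y i) (pt s θ) :=
      (idn_fac_diff (x i) (y i)).continuous.comp c3
    have c5 : Continuous fun θ => log ‖fac (x i) (y i) (pt s θ)‖ :=
      c4.norm.log fun θ => norm_ne_zero_iff.mpr (hne i θ)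
    have c6 : Continuous fun θ => pt s θ * -(1 / pt (x i) (y i)) / fac (x i) (y i) (pt s θ) :=
      (c3.mul continuous_const).div c4 fun θ => hne i θ
    exact hgam.mul ((Complex.continuous_re.comp c6).add (continuous_const.mul c5))
  rw [← intervalIntegral.integral_finset_sum (fun i _ => (hci i).intervalIntegrable _ _),
    ← intervalIntegral.integral_add _ (hcE.intervalIntegrable _ _)]
  · apply intervalIntegral.integral_congr
    intro θ _
    show gam l θ * ql l F (pt s θ) = _
    rw [hq θ, mul_add, Finset.mul_sum]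
  · exact (continuous_finset_sum _ fun i _ => hci i).intervalIntegrable _ _

/-- the identity for a function without zeros on the closed window -/
private theorem idn_reg {l : ℝ} (h1 : 1 ≤ l) (h2 : l ≤ 5 / 4) {F : ℂ → ℂ} {ρ : ℝ}
    (hF : DifferentiableOn ℂ F (Metric.ball 0 ρ)) {a b : ℝ} (hab : a ≤ b) (hb : exp b < ρ)
    (hne : ∀ s ∈ Icc a b, ∀ θ, F (pt s θ) ≠ 0)
    (hlog : IntervalIntegrable (fun s => log ‖F (pt s 0)‖) volume a b)
    (hmh : ContinuousOn (mh l F) (Icc a b)) :
    KK l * (∫ s in a..b, exp (-(l * s)) * -log ‖F (pt s 0)‖) =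
      (∫ s in a..b, exp (-(l * s)) * mh l F s)
      + (exp (-(l * b)) * TH l F b 0 - exp (-(l * a)) * TH l F a 0) := by
  have hexp : Continuous fun s : ℝ => exp (-(l * s)) := by fun_prop
  have i1 : IntervalIntegrable (fun s => exp (-(l * s)) * -log ‖F (pt s 0)‖) volume a b :=
    hlog.neg.continuousOn_mul hexp.continuousOn
  have i2 : IntervalIntegrable (fun s => exp (-(l * s)) * mh l F s) volume a b := by
    apply ContinuousOn.intervalIntegrable
    rw [uIcc_of_le hab]
    exact hexp.continuousOn.mul hmh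
  have i3 : IntervalIntegrable (fun s => exp (-(l * s)) * (-(KK l * log ‖F (pt s 0)‖) - mh l F s))
      volume a b := by
    have := (i1.const_mul (KK l)).sub i2
    refine this.congr ?_
    intro s _
    show KK l * (exp (-(l * s)) * -log ‖F (pt s 0)‖) - exp (-(l * s)) * mh l F s = _
    ring
  have key := intervalIntegral.integral_eq_sub_of_hasDerivAt (a := a) (b := b)
    (f := fun t => exp (-(l * t)) * TH l F t 0)
    (f' := fun s => exp (-(l * s)) * (-(KK l * log ‖F (pt s 0)‖) - mh l F s)) (by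
      intro s hs
      rw [uIcc_of_le hab] at hs
      exact id_der h1 h2 hF (lt_of_le_of_lt (exp_le_exp.mpr hs.2) hb) (hne s hs)) i3
  have e : (∫ s in a..b, exp (-(l * s)) * (-(KK l * log ‖F (pt s 0)‖) - mh l F s)) =
      KK l * (∫ s in a..b, exp (-(l * s)) * -log ‖F (pt s 0)‖)
      - ∫ s in a..b, exp (-(l * s)) * mh l F s := by
    rw [← intervalIntegral.integral_const_mul, ← intervalIntegral.integral_sub (i1.const_mul _) i2]
    apply intervalIntegral.integral_congr
    intro s _
    show exp (-(l * s)) * (-(KK l * log ‖F (pt s 0)‖) - mh l F s) =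
      KK l * (exp (-(l * s)) * -log ‖F (pt s 0)‖) - exp (-(l * s)) * mh l F s
    ring
  rw [e] at key
  linarith

/-- half of the identity with a zero at an end of the window -/
private theorem idn_half {l : ℝ} (h1 : 1 ≤ l) (h2 : l ≤ 5 / 4) (x y : ℝ) {a b : ℝ} (hab : a < b)
    (hne : ∀ s ∈ Ioo a b, s ≠ x) {ta tb : ℝ}
    (ha : Tendsto (fun s => TH l (fac x y) s 0) (𝓝[>] a) (𝓝 ta))
    (hb : Tendsto (fun s => TH l (fac x y) s 0) (𝓝[<] b) (𝓝 tb)) :
    KK l * (∫ s in a..b, exp (-(l * s)) * -log ‖fac x y (pt s 0)‖) =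
      (∫ s in a..b, exp (-(l * s)) * mh l (fac x y) s)
      + (exp (-(l * b)) * tb - exp (-(l * a)) * ta) := by
  have hexp : Continuous fun s : ℝ => exp (-(l * s)) := by fun_prop
  have hlog : IntervalIntegrable (fun s => log ‖fac x y (pt s 0)‖) volume a b :=
    log_one_ii x y a b
  have i1 : IntervalIntegrable (fun s => exp (-(l * s)) * -log ‖fac x y (pt s 0)‖) volume a b :=
    hlog.neg.continuousOn_mul hexp.continuousOn
  have hm : Continuous (mh l (fac x y)) := mh_one_cont h1 x y
  have i2 : IntervalIntegrable (fun s => exp (-(l * s)) * mh l (fac x y) s) volume a b :=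
    (hexp.mul hm).intervalIntegrable _ _
  have i3 : IntervalIntegrable (fun s => exp (-(l * s)) * (-(KK l * log ‖fac x y (pt s 0)‖)
      - mh l (fac x y) s)) volume a b := by
    have := (i1.const_mul (KK l)).sub i2
    refine this.congr ?_
    intro s _
    show KK l * (exp (-(l * s)) * -log ‖fac x y (pt s 0)‖) - exp (-(l * s)) * mh l (fac x y) s = _
    ring
  have key := intervalIntegral.integral_eq_sub_of_hasDerivAt_of_tendsto (a := a) (b := b)
    (f := fun t => exp (-(l * t)) * TH l (fac x y) t 0)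
    (f' := fun s => exp (-(l * s)) * (-(KK l * log ‖fac x y (pt s 0)‖) - mh l (fac x y) s)) hab
    (fa := exp (-(l * a)) * ta) (fb := exp (-(l * b)) * tb) (by
      intro s hs
      exact id_der (ρ := exp s + 1) h1 h2 (idn_fac_diff x y).differentiableOn (by linarith)
        (fun θ => idn_fac_ne (hne s hs))) i3
    ((hexp.continuousAt.tendsto.mono_left nhdsWithin_le_nhds).mul ha)
    ((hexp.continuousAt.tendsto.mono_left nhdsWithin_le_nhds).mul hb)
  have e : (∫ s in a..b, exp (-(l * s)) * (-(KK l * log ‖fac x y (pt s 0)‖)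
      - mh l (fac x y) s)) =
      KK l * (∫ s in a..b, exp (-(l * s)) * -log ‖fac x y (pt s 0)‖)
      - ∫ s in a..b, exp (-(l * s)) * mh l (fac x y) s := by
    rw [← intervalIntegral.integral_const_mul, ← intervalIntegral.integral_sub (i1.const_mul _) i2]
    apply intervalIntegral.integral_congr
    intro s _
    show exp (-(l * s)) * (-(KK l * log ‖fac x y (pt s 0)‖) - mh l (fac x y) s) =
      KK l * (exp (-(l * s)) * -log ‖fac x y (pt s 0)‖) - exp (-(l * s)) * mh l (fac x y) s
    ring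
  rw [e] at key
  linarith

/-- one-sided limits at a height without zeros -/
private theorem idn_TH_cont {l : ℝ} (h1 : 1 ≤ l) (h2 : l ≤ 5 / 4) {x y s : ℝ} (hs : s ≠ x) :
    Tendsto (fun s => TH l (fac x y) s 0) (𝓝 s) (𝓝 (TH l (fac x y) s 0)) := by
  have hd := id_der (ρ := exp s + 1) h1 h2 (F := fac x y) (idn_fac_diff x y).differentiableOn
    (by linarith : exp s < exp s + 1) (fun θ => idn_fac_ne hs)
  have hc : ContinuousAt (fun t => exp (-(l * t)) * TH l (fac x y) t 0) s := hd.continuousAt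
  have he : ContinuousAt (fun t : ℝ => exp (l * t)) s := by fun_prop
  have hm := he.mul hc
  have e : (fun t : ℝ => exp (l * t) * (exp (-(l * t)) * TH l (fac x y) t 0)) =
      fun t => TH l (fac x y) t 0 := by
    funext t
    rw [← mul_assoc, ← exp_add, add_neg_cancel, exp_zero, one_mul]
  have hm' : ContinuousAt (fun t => TH l (fac x y) t 0) s := by
    rw [← e]
    exact hm
  exact hm'

/-- the identity for one factor -/
private theorem idn_one {l : ℝ} (h1 : 1 ≤ l) (h2 : l ≤ 5 / 4) {x y el : ℝ} (he0 : 0 < el)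
    (hx0 : x ≠ 0) (hxe : x ≠ el) :
    KK l * (∫ s in (0 : ℝ)..el, exp (-(l * s)) * -log ‖fac x y (pt s 0)‖) =
      (∫ s in (0 : ℝ)..el, exp (-(l * s)) * mh l (fac x y) s)
      - 2 * π * (if 0 < x ∧ x < el then exp (-(l * x)) * gam l y else 0)
      + (exp (-(l * el)) * TH l (fac x y) el 0 - TH l (fac x y) 0 0) := by
  have t0 := idn_TH_cont h1 h2 (x := x) (y := y) (s := 0) hx0.symm
  have te := idn_TH_cont h1 h2 (x := x) (y := y) (s := el) hxe.symm
  by_cases hc : 0 < x ∧ x < el
  · rw [if_pos hc]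
    obtain ⟨T, hT1, hT2⟩ := id_jump h1 h2 x y
    have a1 := idn_half h1 h2 x y hc.1 (fun s hs => hs.2.ne) (t0.mono_left nhdsWithin_le_nhds) hT2
    have a2 := idn_half h1 h2 x y hc.2 (fun s hs => hs.1.ne') hT1 (te.mono_left nhdsWithin_le_nhds)
    have hexp : Continuous fun s : ℝ => exp (-(l * s)) := by fun_prop
    have i1 : ∀ a b : ℝ, IntervalIntegrable (fun s => exp (-(l * s)) * -log ‖fac x y (pt s 0)‖)
        volume a b := fun a b =>
      (log_one_ii x y a b).neg.continuousOn_mul hexp.continuousOn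
    have hm : Continuous (mh l (fac x y)) := mh_one_cont h1 x y
    have i2 : ∀ a b : ℝ, IntervalIntegrable (fun s => exp (-(l * s)) * mh l (fac x y) s)
        volume a b := fun a b => (hexp.mul hm).intervalIntegrable _ _
    rw [← intervalIntegral.integral_add_adjacent_intervals (i1 0 x) (i1 x el),
      ← intervalIntegral.integral_add_adjacent_intervals (i2 0 x) (i2 x el), mul_add, a1, a2]
    rw [mul_zero, neg_zero, exp_zero]
    ring
  · rw [if_neg hc]
    have hne : ∀ s ∈ Ioo 0 el, s ≠ x := by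
      rintro s hs rfl
      exact hc hs
    have a1 := idn_half h1 h2 x y he0 hne (t0.mono_left nhdsWithin_le_nhds)
      (te.mono_left nhdsWithin_le_nhds)
    rw [a1, mul_zero, neg_zero, exp_zero]
    ring

open Classical in
theorem ident {l : ℝ} (h1 : 1 ≤ l) (h2 : l ≤ 5 / 4) {th A h : ℝ} {n : ℕ} {x y : Fin n → ℝ} {g F : ℂ → ℂ}
    (hD : Dat th A h n x y g F) {el : ℝ} (he0 : 0 < el) (he : el ≤ 3 / 2) (hx : ∀ i, x i ≠ el) :
    KK l * (∫ s in (0 : ℝ)..el, exp (-(l * s)) * -log ‖F (pt s 0)‖) =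
      (∫ s in (0 : ℝ)..el, exp (-(l * s)) * mh l F s)
      - 2 * π * (∑ i, if 0 < x i ∧ x i < el then exp (-(l * x i)) * gam l (y i) else 0)
      + (exp (-(l * el)) * TH l F el 0 - TH l F 0 0) := by
  obtain ⟨ρ, hρ, hg⟩ := hD.hg
  have hexp : Continuous fun s : ℝ => exp (-(l * s)) := by fun_prop
  have hel3 : exp el < ρ := lt_trans (exp_lt_exp.mpr (by linarith)) hρ
  -- the exponential factor
  have hEne : ∀ s ∈ Icc (0 : ℝ) el, ∀ θ, (fun ζ => Complex.exp (g ζ)) (pt s θ) ≠ 0 :=
    fun s _ θ => Complex.exp_ne_zero _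
  have hgray : ContinuousOn (fun s : ℝ => (g (pt s 0)).re) (Icc 0 el) := by
    intro s hs
    apply ContinuousAt.continuousWithinAt
    have hm : pt s 0 ∈ Metric.ball (0 : ℂ) ρ := by
      rw [mem_ball_zero_iff, idn_pt_norm]
      exact lt_of_le_of_lt (exp_le_exp.mpr hs.2) hel3
    have hga : ContinuousAt g (pt s 0) :=
      (hg.differentiableAt (Metric.isOpen_ball.mem_nhds hm)).continuousAt
    exact Complex.continuous_re.continuousAt.comp
      (ContinuousAt.comp (f := fun s : ℝ => pt s 0) hga (idn_pt_cont' 0).continuousAt)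
  have hElog : IntervalIntegrable (fun s => log ‖(fun ζ => Complex.exp (g ζ)) (pt s 0)‖) volume 0 el := by
    simp only [idn_logE]
    apply ContinuousOn.intervalIntegrable
    rw [uIcc_of_le he0.le]
    exact hgray
  have hEmh : ContinuousOn (mh l (fun ζ => Complex.exp (g ζ))) (Icc 0 el) := by
    intro s hs
    apply ContinuousAt.continuousWithinAt
    apply mh_contAt (idn_expg_diff hg)
    · exact lt_of_le_of_lt (exp_le_exp.mpr hs.2) hel3
    · intro θ
      exact Complex.exp_ne_zero _
  have idE := idn_reg h1 h2 (idn_expg_diff hg) he0.le hel3 hEne hElog hEmh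
  -- the linear factors
  have idI := fun i => idn_one h1 h2 (y := y i) he0 (hD.hx i) (hx i)
  -- integrability
  have i1 : ∀ i ∈ (Finset.univ : Finset (Fin n)), IntervalIntegrable
      (fun s => exp (-(l * s)) * -log ‖fac (x i) (y i) (pt s 0)‖) volume 0 el := fun i _ =>
    (log_one_ii (x i) (y i) 0 el).neg.continuousOn_mul hexp.continuousOn
  have i1E : IntervalIntegrable
      (fun s => exp (-(l * s)) * -log ‖Complex.exp (g (pt s 0))‖) volume 0 el :=
    hElog.neg.continuousOn_mul hexp.continuousOn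
  have i2 : ∀ i ∈ (Finset.univ : Finset (Fin n)), IntervalIntegrable
      (fun s => exp (-(l * s)) * mh l (fac (x i) (y i)) s) volume 0 el := fun i _ =>
    (hexp.mul (mh_one_cont h1 (x i) (y i))).intervalIntegrable _ _
  have i2E : IntervalIntegrable
      (fun s => exp (-(l * s)) * mh l (fun ζ => Complex.exp (g ζ)) s) volume 0 el := by
    apply ContinuousOn.intervalIntegrable
    rw [uIcc_of_le he0.le]
    exact hexp.continuousOn.mul hEmh
  -- additivity of the three terms
  have A1 : (∫ s in (0 : ℝ)..el, exp (-(l * s)) * -log ‖F (pt s 0)‖) =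
      (∑ i, ∫ s in (0 : ℝ)..el, exp (-(l * s)) * -log ‖fac (x i) (y i) (pt s 0)‖)
      + ∫ s in (0 : ℝ)..el, exp (-(l * s)) * -log ‖Complex.exp (g (pt s 0))‖ := by
    rw [← intervalIntegral.integral_finset_sum i1, ← intervalIntegral.integral_add _ i1E]
    · apply intervalIntegral.integral_congr_ae
      filter_upwards [idn_ae_s x y] with s hs hmem
      rw [uIoc_of_le he0.le] at hmem
      rw [idn_log_add hD (by linarith [hmem.2]) hs, ← Finset.mul_sum, Finset.sum_neg_distrib]
      ring
    · exact idn_ii_sum i1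
  have A2 : (∫ s in (0 : ℝ)..el, exp (-(l * s)) * mh l F s) =
      (∑ i, ∫ s in (0 : ℝ)..el, exp (-(l * s)) * mh l (fac (x i) (y i)) s)
      + ∫ s in (0 : ℝ)..el, exp (-(l * s)) * mh l (fun ζ => Complex.exp (g ζ)) s := by
    rw [← intervalIntegral.integral_finset_sum i2, ← intervalIntegral.integral_add _ i2E]
    · apply intervalIntegral.integral_congr
      intro s hs
      rw [uIcc_of_le he0.le] at hs
      show exp (-(l * s)) * mh l F s = _
      rw [idn_mh_add hD (by linarith [hs.2]), mul_add, Finset.mul_sum]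
    · exact idn_ii_sum i2
  have A3 := idn_TH_add h1 h2 hD (s := el) (by linarith) hx
  have A4 := idn_TH_add h1 h2 hD (s := 0) (by linarith) hD.hx
  rw [A1, A2, A3, A4, mul_add, Finset.mul_sum, idE, Finset.sum_congr rfl fun i _ => idI i,
    mul_zero, neg_zero, exp_zero, one_mul]
  simp only [Finset.sum_add_distrib, Finset.sum_sub_distrib, ← Finset.mul_sum]
  ring

theorem mh_contOn {l : ℝ} (h1 : 1 ≤ l) {th A h : ℝ} {n : ℕ} {x y : Fin n → ℝ} {g F : ℂ → ℂ}
    (hD : Dat th A h n x y g F) : ContinuousOn (mh l F) (Icc 0 2) := by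
  obtain ⟨ρ, hρ, hg⟩ := hD.hg
  have h0 : ContinuousOn (fun s => (∑ i, mh l (fac (x i) (y i)) s)
      + mh l (fun ζ => Complex.exp (g ζ)) s) (Icc 0 2) := by
    apply ContinuousOn.add
    · exact (continuous_finset_sum _ fun i _ => mh_one_cont h1 (x i) (y i)).continuousOn
    · intro s hs
      apply ContinuousAt.continuousWithinAt
      apply mh_contAt (idn_expg_diff hg)
      · exact lt_trans (exp_lt_exp.mpr (by linarith [hs.2])) hρ
      · intro θ
        exact Complex.exp_ne_zero _
  refine h0.congr ?_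
  intro s hs
  exact idn_mh_add hD (by linarith [hs.2])

theorem log_ii {th A h : ℝ} {n : ℕ} {x y : Fin n → ℝ} {g F : ℂ → ℂ}
    (hD : Dat th A h n x y g F) : IntervalIntegrable (fun s => log ‖F (pt s 0)‖) volume 0 2 := by
  obtain ⟨ρ, hρ, hg⟩ := hD.hg
  have hgray : ContinuousOn (fun s : ℝ => (g (pt s 0)).re) (Icc 0 2) := by
    intro s hs
    apply ContinuousAt.continuousWithinAt
    have hm : pt s 0 ∈ Metric.ball (0 : ℂ) ρ := by
      rw [mem_ball_zero_iff, idn_pt_norm]
      exact lt_trans (exp_lt_exp.mpr (by linarith [hs.2])) hρ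
    have hga : ContinuousAt g (pt s 0) :=
      (hg.differentiableAt (Metric.isOpen_ball.mem_nhds hm)).continuousAt
    exact Complex.continuous_re.continuousAt.comp
      (ContinuousAt.comp (f := fun s : ℝ => pt s 0) hga (idn_pt_cont' 0).continuousAt)
  have hElog : IntervalIntegrable (fun s => log ‖Complex.exp (g (pt s 0))‖) volume 0 2 := by
    simp only [idn_logE]
    apply ContinuousOn.intervalIntegrable
    rw [uIcc_of_le (by norm_num : (0 : ℝ) ≤ 2)]
    exact hgray
  have hS : IntervalIntegrable (∑ i, fun s : ℝ => log ‖fac (x i) (y i) (pt s 0)‖) volume 0 2 :=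
    IntervalIntegrable.sum _ fun i _ => log_one_ii (x i) (y i) 0 2
  refine (hS.add hElog).congr_ae ?_
  have h3 := idn_ae_s x y
  rw [Filter.EventuallyEq, ae_restrict_iff' measurableSet_uIoc]
  filter_upwards [h3] with s hs hmem
  rw [uIoc_of_le (by norm_num : (0 : ℝ) ≤ 2)] at hmem
  rw [idn_log_add hD (by linarith [hmem.2]) hs, Finset.sum_apply]

end Pool.Agent.THX
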