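import Pool.Agent.THX.GamTr
import Pool.Agent.THX.VBd

/-!
# THX, module JumpOne: change of direction, one zero

`W θ = VS x y 0 θ + l VV x y 0 θ = w (θ - y)` with `w` even and `2π`-periodic.  `∫ |W| ≤ C kw x` (`vs_L1`, `vb_L1`), `|W θ| ≤ C kw x` if `cos (θ-y) ≤ 1/2` (`vs_sup`).
`∫_{-π}^{π} gam θ W (θ + ψ) dθ = ∫_{0}^{2π} gam (θ - ψ) W θ dθ` (periodicity).
* `jump_crude`: `gam_lip`.
* `jump_one`: if `dd y > 1/2` it follows from `jump_crude`.  Let `dd y ≤ 1/2`, choose `β` with `y = π + β` mod `2π`, `|β| ≤ π/2·dd y ≤ π/4` (`dd y = 2 |sin (β/2)|`), and `|ψ| ≤ 1/2`.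
  `∫ [gam (θ-ψ) - gam θ] W = ∫ [gam (θ-ψ) - gam θ + ψ gad θ] W - ψ ∫ gad W`.  First term: `gam_taylor` for `θ, θ - ψ ∈ (0, 2π)`; the remaining `θ` (within `|ψ|` of `0` or `2π`) have
  `cos (θ - y) ≤ 1/2`, there `|[...]| ≤ 8 |ψ|` and `|W| ≤ C kw x`, length `≤ |ψ|`: total `≤ C ψ² kw x`.
  Second: `∫_0^{2π} gad θ w (θ - π - β) dθ = ∫_0^{2π} gad (θ + β) w (θ - π) dθ`, `∫_0^{2π} gad θ w (θ - π) dθ = 0` (odd about `π`), and `|gad (θ+β) - gad θ| ≤ 4 |β|` unless `θ` is within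
  `|β|` of `0` or `2π`, where `|w (θ-π)| ≤ C kw x`: `≤ C |β| kw x`.
-/

set_option autoImplicit false
set_option linter.all false

namespace Pool.Agent.THX

open Real MeasureTheory Set Filter Topology
open Pool.Agent.TX1 (pt ell TM TN Fac HM Gr)

/-- the contribution of one zero to `TH l F 0 ψ` -/
noncomputable def J1 (l x y ψ : ℝ) : ℝ :=
  ∫ θ in (-π)..π, gam l θ * (VS x y 0 (θ + ψ) + l * VV x y 0 (θ + ψ))

private theorem jo_mul_ii {f g : ℝ → ℝ} {c : ℝ} (hf : Measurable f) (hb : ∀ x, |f x| ≤ c) {a b : ℝ}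
    (hg : IntervalIntegrable g volume a b) :
    IntervalIntegrable (fun x => f x * g x) volume a b :=
  ⟨hg.1.bdd_mul hf.aestronglyMeasurable (Filter.Eventually.of_forall hb),
    hg.2.bdd_mul hf.aestronglyMeasurable (Filter.Eventually.of_forall hb)⟩

/-- three pieces -/
private theorem jo_split {f g : ℝ → ℝ} {δ A B M c G : ℝ} (hf : Measurable f) (hc : ∀ x, |f x| ≤ c)
    (hg : ∀ a b, IntervalIntegrable g volume a b) (hδ : 0 ≤ δ) (hδ1 : δ ≤ 1) (hA0 : 0 ≤ A)
    (hB0 : 0 ≤ B)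
    (hA : ∀ θ, δ < θ → θ < 2 * π - δ → |f θ| ≤ A) (hB : ∀ θ, |f θ| ≤ B)
    (hM : ∀ θ, (0 ≤ θ ∧ θ ≤ δ) ∨ (2 * π - δ ≤ θ ∧ θ ≤ 2 * π) → |g θ| ≤ M)
    (hG : ∫ θ in (0 : ℝ)..(2 * π), |g θ| ≤ G) :
    |∫ θ in (0 : ℝ)..(2 * π), f θ * g θ| ≤ A * G + 2 * δ * (B * M) := by
  have hpi := Real.pi_gt_three
  have hfg : ∀ a b, IntervalIntegrable (fun x => f x * g x) volume a b := fun a b =>
    jo_mul_ii hf hc (hg a b)
  rw [← intervalIntegral.integral_add_adjacent_intervals (hfg 0 (2 * π - δ)) (hfg (2 * π - δ) (2 * π)),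
    ← intervalIntegral.integral_add_adjacent_intervals (hfg 0 δ) (hfg δ (2 * π - δ))]
  have e1 : ‖∫ θ in (0 : ℝ)..δ, f θ * g θ‖ ≤ (B * M) * |δ - 0| := by
    refine intervalIntegral.norm_integral_le_of_norm_le_const fun θ hθ => ?_
    rw [uIoc_of_le hδ] at hθ
    rw [Real.norm_eq_abs, abs_mul]
    exact mul_le_mul (hB θ) (hM θ (Or.inl ⟨hθ.1.le, hθ.2⟩)) (abs_nonneg _) hB0
  have e3 : ‖∫ θ in (2 * π - δ)..(2 * π), f θ * g θ‖ ≤ (B * M) * |2 * π - (2 * π - δ)| := by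
    refine intervalIntegral.norm_integral_le_of_norm_le_const fun θ hθ => ?_
    rw [uIoc_of_le (by linarith)] at hθ
    rw [Real.norm_eq_abs, abs_mul]
    exact mul_le_mul (hB θ) (hM θ (Or.inr ⟨hθ.1.le, hθ.2⟩)) (abs_nonneg _) hB0
  have e2 : ‖∫ θ in δ..(2 * π - δ), f θ * g θ‖ ≤ ∫ θ in δ..(2 * π - δ), A * |g θ| := by
    refine intervalIntegral.norm_integral_le_of_norm_le (by linarith) ?_ ((hg _ _).abs.const_mul A)
    filter_upwards [(volume : Measure ℝ).ae_ne (2 * π - δ)] with θ hne hθ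
    rw [Real.norm_eq_abs, abs_mul]
    exact mul_le_mul_of_nonneg_right (hA θ hθ.1 (lt_of_le_of_ne hθ.2 hne)) (abs_nonneg _)
  have e2' : ∫ θ in δ..(2 * π - δ), A * |g θ| ≤ A * G := by
    rw [intervalIntegral.integral_const_mul]
    refine mul_le_mul_of_nonneg_left (le_trans ?_ hG) hA0
    refine intervalIntegral.integral_mono_interval hδ (by linarith) (by linarith)
      (Filter.Eventually.of_forall fun θ => abs_nonneg _) (hg 0 (2 * π)).abs
  rw [sub_zero, abs_of_nonneg hδ, Real.norm_eq_abs] at e1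
  rw [show 2 * π - (2 * π - δ) = δ by ring, abs_of_nonneg hδ, Real.norm_eq_abs] at e3
  rw [Real.norm_eq_abs] at e2
  have h4 := abs_add_le ((∫ θ in (0 : ℝ)..δ, f θ * g θ) + ∫ θ in δ..(2 * π - δ), f θ * g θ)
    (∫ θ in (2 * π - δ)..(2 * π), f θ * g θ)
  have h5 := abs_add_le (∫ θ in (0 : ℝ)..δ, f θ * g θ) (∫ θ in δ..(2 * π - δ), f θ * g θ)
  nlinarith

private theorem jo_gam_abs {l : ℝ} (h1 : 1 ≤ l) (h2 : l ≤ 5 / 4) (θ : ℝ) : |gam l θ| ≤ 4 := by
  rw [abs_of_nonneg]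
  · exact gam_up h1 h2 θ
  · have := gam_low h1 h2 θ
    have h3 := Real.neg_one_le_cos θ
    linarith

/-- the abstract form -/
private theorem jo_abs {l : ℝ} (h1 : 1 ≤ l) (h2 : l ≤ 5 / 4) {W : ℝ → ℝ} {y D ψ : ℝ}
    (hP : ∀ θ, W (θ + 2 * π) = W θ) (hE : ∀ u, W (y + u) = W (y - u))
    (hI : ∀ a b, IntervalIntegrable W volume a b)
    (hL : ∀ a, ∫ θ in a..(a + 2 * π), |W θ| ≤ D)
    (hS : ∀ θ, cos (θ - y) ≤ 1 / 2 → |W θ| ≤ D) (hD : 0 ≤ D) (hψ : |ψ| ≤ 1 / 2) :
    |(∫ θ in (0 : ℝ)..(2 * π), gam l (θ - ψ) * W θ) - ∫ θ in (0 : ℝ)..(2 * π), gam l θ * W θ| ≤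
      32 * D * |ψ| * (dd y + |ψ|) := by
  have hpi := Real.pi_gt_three
  have hpi2 := Real.pi_lt_d2
  have hgc := gam_cont h1 h2
  have hgm : Measurable (fun θ => gam l (θ - ψ)) := (hgc.comp (continuous_id.sub continuous_const)).measurable
  have hi1 : IntervalIntegrable (fun θ => gam l (θ - ψ) * W θ) volume 0 (2 * π) :=
    jo_mul_ii hgm (fun θ => jo_gam_abs h1 h2 _) (hI _ _)
  have hi2 : IntervalIntegrable (fun θ => gam l θ * W θ) volume 0 (2 * π) :=
    jo_mul_ii hgc.measurable (fun θ => jo_gam_abs h1 h2 _) (hI _ _)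
  have hL0 : ∫ θ in (0 : ℝ)..(2 * π), |W θ| ≤ D := by
    have := hL 0
    rwa [zero_add] at this
  rw [← intervalIntegral.integral_sub hi1 hi2]
  have hlip : ∀ θ, |gam l (θ - ψ) - gam l θ| ≤ 4 * |ψ| := by
    intro θ
    have := gam_lip h1 h2 (θ - ψ) θ
    rwa [show θ - ψ - θ = -ψ by ring, abs_neg] at this
  by_cases hd : 1 / 2 < dd y
  · have e : (fun θ => gam l (θ - ψ) * W θ - gam l θ * W θ) =
        fun θ => (gam l (θ - ψ) - gam l θ) * W θ := by
      funext θ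
      ring
    rw [e]
    have h3 : ‖∫ θ in (0 : ℝ)..(2 * π), (gam l (θ - ψ) - gam l θ) * W θ‖ ≤
        ∫ θ in (0 : ℝ)..(2 * π), (4 * |ψ|) * |W θ| := by
      refine intervalIntegral.norm_integral_le_of_norm_le (by linarith) ?_
        ((hI _ _).abs.const_mul _)
      refine Filter.Eventually.of_forall fun θ _ => ?_
      rw [Real.norm_eq_abs, abs_mul]
      exact mul_le_mul_of_nonneg_right (hlip θ) (abs_nonneg _)
    rw [intervalIntegral.integral_const_mul, Real.norm_eq_abs] at h3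
    have h4 : 4 * |ψ| * ∫ θ in (0 : ℝ)..(2 * π), |W θ| ≤ 4 * |ψ| * D :=
      mul_le_mul_of_nonneg_left hL0 (by positivity)
    have h5 : 0 ≤ D * |ψ| := by positivity
    have h6 := abs_nonneg ψ
    nlinarith [mul_nonneg h5 (by linarith : 0 ≤ dd y - 1 / 2), mul_nonneg h5 h6]
  rw [not_lt] at hd
  -- the angle `β`
  obtain ⟨k, hk⟩ : ∃ k : ℤ, |y - π - (k : ℝ) * (2 * π)| ≤ π := by
    refine ⟨round ((y - π) / (2 * π)), ?_⟩
    have h3 := abs_sub_round ((y - π) / (2 * π))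
    have h4 : y - π - (round ((y - π) / (2 * π)) : ℝ) * (2 * π) =
        ((y - π) / (2 * π) - round ((y - π) / (2 * π))) * (2 * π) := by
      field_simp
    rw [h4, abs_mul, abs_of_pos (by positivity : (0 : ℝ) < 2 * π)]
    nlinarith
  set β : ℝ := y - π - (k : ℝ) * (2 * π) with hβ
  have hyβ : y = π + β + (k : ℝ) * (2 * π) := by
    rw [hβ]; ring
  have hββ : 2 * |β| ≤ π * dd y := by
    have h3 : dd y = 2 * |sin (β / 2)| := by
      unfold dd
      congr 1
      have h4 : y / 2 = (π / 2 + β / 2) + (k : ℝ) * π := by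
        rw [hyβ]; ring
      rw [h4, Real.cos_add_int_mul_pi, abs_mul, abs_zpow, abs_neg, abs_one, one_zpow, one_mul,
        show π / 2 + β / 2 = β / 2 + π / 2 by ring, Real.cos_add_pi_div_two, abs_neg]
    have h4 : |β / 2| ≤ π / 2 := by
      rw [abs_div, abs_of_pos (by norm_num : (0 : ℝ) < 2)]
      linarith
    have h5 := Real.mul_abs_le_abs_sin h4
    rw [abs_div, abs_of_pos (by norm_num : (0 : ℝ) < 2)] at h5
    rw [h3]
    have h6 : 2 / π * (|β| / 2) * π = |β| := by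
      field_simp
    nlinarith
  have hβ4 : |β| ≤ π / 4 := by nlinarith
  have hPk : ∀ θ, W (θ + (k : ℝ) * (2 * π)) = W θ := by
    have hper : Function.Periodic W (2 * π) := hP
    exact hper.int_mul k
  have hcosk : ∀ θ, cos (θ - y) = -cos (θ - β) := by
    intro θ
    have : θ - y = (θ - β) - π - (k : ℝ) * (2 * π) := by
      rw [hyβ]; ring
    rw [this, Real.cos_sub_int_mul_two_pi, Real.cos_sub_pi]
  have hψ0 := abs_nonneg ψ
  -- the first term
  have hfm : Measurable (fun θ => gam l (θ - ψ) - gam l θ + ψ * gad l θ) :=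
    (hgm.sub hgc.measurable).add ((gad_meas l).const_mul ψ)
  have hfb : ∀ θ, |gam l (θ - ψ) - gam l θ + ψ * gad l θ| ≤ 8 * |ψ| := by
    intro θ
    have h3 := abs_add_le (gam l (θ - ψ) - gam l θ) (ψ * gad l θ)
    have h4 := hlip θ
    have h5 : |ψ * gad l θ| ≤ |ψ| * 4 := by
      rw [abs_mul]
      exact mul_le_mul_of_nonneg_left (gad_bd h1 h2 θ) hψ0
    linarith
  have t1 : |∫ θ in (0 : ℝ)..(2 * π), (gam l (θ - ψ) - gam l θ + ψ * gad l θ) * W θ| ≤
      (4 * ψ ^ 2) * D + 2 * |ψ| * ((8 * |ψ|) * D) := by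
    refine jo_split hfm hfb hI hψ0 (by linarith) (by positivity) (by positivity) ?_ hfb ?_ hL0
    · intro θ hθ1 hθ2
      have h3 := abs_le.mp (le_refl |ψ|)
      have ha : θ ∈ Ioo 0 (2 * π) := ⟨by linarith, by linarith⟩
      have hb : θ - ψ ∈ Ioo 0 (2 * π) := ⟨by linarith [h3.2], by linarith [h3.1]⟩
      have h4 := gam_taylor h1 h2 ha hb
      rw [show θ - ψ - θ = -ψ by ring, neg_sq] at h4
      have h5 : gam l (θ - ψ) - gam l θ + ψ * gad l θ = gam l (θ - ψ) - gam l θ - gad l θ * -ψ := by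
        ring
      rw [h5]
      exact h4
    · intro θ hθ
      refine hS θ ?_
      rw [hcosk]
      have h3 := abs_le.mp hβ4
      have : 0 ≤ cos (θ - β) := by
        rcases hθ with hθ | hθ
        · exact Real.cos_nonneg_of_neg_pi_div_two_le_of_le (by linarith [h3.2]) (by linarith [h3.1])
        · have : cos (θ - β) = cos (θ - β - 2 * π) := (Real.cos_sub_two_pi _).symm
          rw [this]
          exact Real.cos_nonneg_of_neg_pi_div_two_le_of_le (by linarith [h3.2]) (by linarith [h3.1])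
      linarith
  -- the second term
  have t2 : |∫ θ in (0 : ℝ)..(2 * π), gad l θ * W θ| ≤ (4 * |β|) * D + 2 * |β| * (8 * D) := by
    have hper : Function.Periodic (fun θ => gad l θ * W θ) (2 * π) := by
      intro θ
      show gad l (θ + 2 * π) * W (θ + 2 * π) = gad l θ * W θ
      rw [gad_per, hP]
    have s1 : ∫ θ in (0 : ℝ)..(2 * π), gad l θ * W θ =
        ∫ θ in (0 : ℝ)..(2 * π), gad l (θ + β) * W (θ + β) := by
      have := hper.intervalIntegral_add_eq 0 β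
      rw [zero_add] at this
      rw [this]
      have h3 := intervalIntegral.integral_comp_add_right (a := 0) (b := 2 * π)
        (fun θ => gad l θ * W θ) β
      rw [zero_add, add_comm (2 * π) β] at h3
      exact h3.symm
    have hVsym : ∀ θ, W (2 * π - θ + β) = W (θ + β) := by
      intro θ
      have e1 : 2 * π - θ + β + (k : ℝ) * (2 * π) = y + (π - θ) := by
        rw [hyβ]; ring
      have e2 : θ + β + (k : ℝ) * (2 * π) = y - (π - θ) := by
        rw [hyβ]; ring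
      rw [← hPk (2 * π - θ + β), e1, hE, ← e2, hPk]
    have s2 : ∫ θ in (0 : ℝ)..(2 * π), gad l θ * W (θ + β) = 0 := by
      have h3 := intervalIntegral.integral_comp_sub_left (a := 0) (b := 2 * π)
        (fun θ => gad l θ * W (θ + β)) (2 * π)
      rw [sub_self, sub_zero] at h3
      have h4 : (fun θ => gad l (2 * π - θ) * W (2 * π - θ + β)) =
          fun θ => -(gad l θ * W (θ + β)) := by
        funext θ
        have h5 : gad l (2 * π - θ) = -gad l θ := by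
          have := gad_per l (-θ)
          rw [show -θ + 2 * π = 2 * π - θ by ring, gad_odd] at this
          exact this
        rw [h5, hVsym]
        ring
      have h5 : ∫ θ in (0 : ℝ)..(2 * π), gad l (2 * π - θ) * W (2 * π - θ + β) =
          ∫ θ in (0 : ℝ)..(2 * π), gad l θ * W (θ + β) := h3
      rw [h4, intervalIntegral.integral_neg] at h5
      linarith
    have hVI : ∀ a b, IntervalIntegrable (fun θ => W (θ + β)) volume a b := by
      intro a b
      have := (hI (a + β) (b + β)).comp_add_right β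
      rw [add_sub_cancel_right, add_sub_cancel_right] at this
      exact this
    have hi3 : IntervalIntegrable (fun θ => gad l (θ + β) * W (θ + β)) volume 0 (2 * π) :=
      jo_mul_ii ((gad_meas l).comp (measurable_id.add_const β)) (fun θ => gad_bd h1 h2 _) (hVI _ _)
    have hi4 : IntervalIntegrable (fun θ => gad l θ * W (θ + β)) volume 0 (2 * π) :=
      jo_mul_ii (gad_meas l) (fun θ => gad_bd h1 h2 _) (hVI _ _)
    have s3 : ∫ θ in (0 : ℝ)..(2 * π), gad l θ * W θ =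
        ∫ θ in (0 : ℝ)..(2 * π), (gad l (θ + β) - gad l θ) * W (θ + β) := by
      have h3 : (fun θ => (gad l (θ + β) - gad l θ) * W (θ + β)) =
          fun θ => gad l (θ + β) * W (θ + β) - gad l θ * W (θ + β) := by
        funext θ
        ring
      rw [h3, intervalIntegral.integral_sub hi3 hi4, s2, sub_zero, s1]
    rw [s3]
    have hbb : ∀ θ, |gad l (θ + β) - gad l θ| ≤ 8 := by
      intro θ
      have h3 := abs_sub (gad l (θ + β)) (gad l θ)
      have h4 := gad_bd h1 h2 (θ + β)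
      have h5 := gad_bd h1 h2 θ
      linarith
    refine jo_split (((gad_meas l).comp (measurable_id.add_const β)).sub (gad_meas l)) hbb hVI
      (abs_nonneg β) (by linarith) (by positivity) (by norm_num) ?_ hbb ?_ ?_
    · intro θ hθ1 hθ2
      have h3 := abs_le.mp (le_refl |β|)
      have ha : θ + β ∈ Ioo 0 (2 * π) := ⟨by linarith [h3.1], by linarith [h3.2]⟩
      have hb : θ ∈ Ioo 0 (2 * π) := ⟨by linarith [abs_nonneg β], by linarith [abs_nonneg β]⟩
      have h4 := gad_lip h1 h2 ha hb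
      rwa [show θ + β - θ = β by ring] at h4
    · intro θ hθ
      refine hS _ ?_
      rw [hcosk, add_sub_cancel_right]
      have : 0 ≤ cos θ := by
        rcases hθ with hθ | hθ
        · exact Real.cos_nonneg_of_neg_pi_div_two_le_of_le (by linarith) (by linarith)
        · have : cos θ = cos (θ - 2 * π) := (Real.cos_sub_two_pi _).symm
          rw [this]
          exact Real.cos_nonneg_of_neg_pi_div_two_le_of_le (by linarith) (by linarith)
      linarith
    · have h3 := intervalIntegral.integral_comp_add_right (a := 0) (b := 2 * π)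
        (fun θ => |W θ|) β
      rw [zero_add, add_comm (2 * π) β] at h3
      calc ∫ θ in (0 : ℝ)..(2 * π), |W (θ + β)| = ∫ θ in β..(β + 2 * π), |W θ| := h3
        _ ≤ D := hL β
  -- together
  have hi5 : IntervalIntegrable (fun θ => (gam l (θ - ψ) - gam l θ + ψ * gad l θ) * W θ) volume 0
      (2 * π) := jo_mul_ii hfm hfb (hI _ _)
  have hi6 : IntervalIntegrable (fun θ => ψ * (gad l θ * W θ)) volume 0 (2 * π) :=
    (jo_mul_ii (gad_meas l) (fun θ => gad_bd h1 h2 _) (hI _ _)).const_mul ψ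
  have e : (fun θ => gam l (θ - ψ) * W θ - gam l θ * W θ) =
      fun θ => (gam l (θ - ψ) - gam l θ + ψ * gad l θ) * W θ - ψ * (gad l θ * W θ) := by
    funext θ
    ring
  rw [e, intervalIntegral.integral_sub hi5 hi6, intervalIntegral.integral_const_mul]
  have h3 := abs_sub (∫ θ in (0 : ℝ)..(2 * π), (gam l (θ - ψ) - gam l θ + ψ * gad l θ) * W θ)
    (ψ * ∫ θ in (0 : ℝ)..(2 * π), gad l θ * W θ)
  rw [abs_mul] at h3
  have h4 : |ψ| * |∫ θ in (0 : ℝ)..(2 * π), gad l θ * W θ| ≤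
      |ψ| * ((4 * |β|) * D + 2 * |β| * (8 * D)) := mul_le_mul_of_nonneg_left t2 hψ0
  have h5 : |ψ| * ((4 * |β|) * D + 2 * |β| * (8 * D)) = 10 * (|ψ| * D) * (2 * |β|) := by ring
  have h6 : 10 * (|ψ| * D) * (2 * |β|) ≤ 10 * (|ψ| * D) * (π * dd y) :=
    mul_le_mul_of_nonneg_left hββ (by positivity)
  have h7 : 10 * (|ψ| * D) * (π * dd y) ≤ 10 * (|ψ| * D) * (3.15 * dd y) :=
    mul_le_mul_of_nonneg_left (mul_le_mul_of_nonneg_right hpi2.le (dd_nonneg y)) (by positivity)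
  have h8 : ψ ^ 2 = |ψ| * |ψ| := by rw [← sq_abs, sq]
  rw [h8] at t1
  have h9 : 0 ≤ |ψ| * D * dd y := mul_nonneg (by positivity) (dd_nonneg y)
  have h10 : 0 ≤ |ψ| * |ψ| * D := by positivity
  nlinarith

private noncomputable def joW (l x y θ : ℝ) : ℝ := VS x y 0 θ + l * VV x y 0 θ

private theorem joW_per (l x y θ : ℝ) : joW l x y (θ + 2 * π) = joW l x y θ := by
  have e : θ + 2 * π - y = θ - y + 2 * π := by ring
  unfold joW VS VV
  rw [e, TX1.pt_per, TX1.pt_per, TX1.ell_per, TX1.ell_per, Real.cos_add_two_pi]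

private theorem joW_even (l x y u : ℝ) : joW l x y (y + u) = joW l x y (y - u) := by
  have e1 : y + u - y = u := by ring
  have e2 : y - u - y = -u := by ring
  have hre : ∀ τ : ℝ, (pt τ (-u) / (1 - pt τ (-u))).re = (pt τ u / (1 - pt τ u)).re := by
    intro τ
    rw [← TX1.pt_conj]
    have : (starRingEnd ℂ) (pt τ u) / (1 - (starRingEnd ℂ) (pt τ u)) =
        (starRingEnd ℂ) (pt τ u / (1 - pt τ u)) := by
      rw [map_div₀, map_sub, map_one]
    rw [this, Complex.conj_re]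
  have hre2 : ∀ τ : ℝ, (pt τ (-u) ^ 2 / (1 - pt τ (-u))).re = (pt τ u ^ 2 / (1 - pt τ u)).re := by
    intro τ
    rw [← TX1.pt_conj]
    have : (starRingEnd ℂ) (pt τ u) ^ 2 / (1 - (starRingEnd ℂ) (pt τ u)) =
        (starRingEnd ℂ) (pt τ u ^ 2 / (1 - pt τ u)) := by
      rw [map_div₀, map_sub, map_one, map_pow]
    rw [this, Complex.conj_re]
  unfold joW VS VV
  rw [e1, e2, TX1.ell_even, TX1.ell_even, Real.cos_neg, hre, hre2]

private theorem joW_facts : ∃ C : ℝ, 1 ≤ C ∧ ∀ l x y : ℝ, 1 ≤ l → l ≤ 5 / 4 → x ≠ 0 →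
    (∀ a b, IntervalIntegrable (joW l x y) volume a b) ∧
    (∀ a, ∫ θ in a..(a + 2 * π), |joW l x y θ| ≤ C * kw x) ∧
    ∀ θ, cos (θ - y) ≤ 1 / 2 → |joW l x y θ| ≤ C * kw x := by
  obtain ⟨C1, hC1, hv⟩ := vb_L1
  obtain ⟨C2, hC2, hs⟩ := vs_L1
  obtain ⟨C3, hC3, hu⟩ := vs_sup
  refine ⟨1 + 2 * C1 + C2 + 2 * C3, by linarith, fun l x y h1 h2 hx => ?_⟩
  have hpi := Real.pi_pos
  have hk := kw_pos x
  obtain ⟨hvi, hvl⟩ := hv x y 0 le_rfl (by norm_num)
  obtain ⟨hsc, hsl⟩ := hs x y hx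
  have hsi : ∀ a b, IntervalIntegrable (VS x y 0) volume a b := fun a b => hsc.intervalIntegrable a b
  refine ⟨fun a b => (hsi a b).add ((hvi a b).const_mul l), fun a => ?_, fun θ hθ => ?_⟩
  · have h3 : ∫ θ in a..(a + 2 * π), |joW l x y θ| ≤
        ∫ θ in a..(a + 2 * π), (|VS x y 0 θ| + l * |VV x y 0 θ|) := by
      refine intervalIntegral.integral_mono_on (by linarith)
        ((hsi _ _).add ((hvi _ _).const_mul l)).abs
        ((hsi _ _).abs.add ((hvi _ _).abs.const_mul l)) fun θ _ => ?_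
      have h4 := abs_add_le (VS x y 0 θ) (l * VV x y 0 θ)
      rw [abs_mul, abs_of_nonneg (by linarith : (0 : ℝ) ≤ l)] at h4
      exact h4
    rw [intervalIntegral.integral_add (hsi _ _).abs ((hvi _ _).abs.const_mul l),
      intervalIntegral.integral_const_mul] at h3
    have h5 := hvl a
    have h6 := hsl a
    have h7 : l * ∫ θ in a..(a + 2 * π), |VV x y 0 θ| ≤ 2 * (C1 * kw x) := by
      have h8 : 0 ≤ ∫ θ in a..(a + 2 * π), |VV x y 0 θ| :=
        intervalIntegral.integral_nonneg (by linarith) fun _ _ => abs_nonneg _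
      nlinarith
    nlinarith [mul_pos hC3 hk]
  · have h3 := hu x y θ hx hθ
    have h4 := abs_add_le (VS x y 0 θ) (l * VV x y 0 θ)
    rw [abs_mul, abs_of_nonneg (by linarith : (0 : ℝ) ≤ l)] at h4
    have h5 := abs_nonneg (VS x y 0 θ)
    have h6 := abs_nonneg (VV x y 0 θ)
    have h7 : |joW l x y θ| ≤ |VS x y 0 θ| + l * |VV x y 0 θ| := h4
    nlinarith [mul_pos hC3 hk, mul_pos hC1 hk, mul_pos hC2 hk]

private theorem J1_shift {l : ℝ} (h1 : 1 ≤ l) (h2 : l ≤ 5 / 4) (x y ψ : ℝ) :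
    J1 l x y ψ = ∫ θ in (0 : ℝ)..(2 * π), gam l (θ - ψ) * joW l x y θ := by
  have hper : Function.Periodic (fun θ => gam l (θ - ψ) * joW l x y θ) (2 * π) := by
    intro θ
    show gam l (θ + 2 * π - ψ) * joW l x y (θ + 2 * π) = gam l (θ - ψ) * joW l x y θ
    rw [joW_per, show θ + 2 * π - ψ = θ - ψ + 2 * π by ring, gam_per]
  have h3 := intervalIntegral.integral_comp_add_right (a := -π) (b := π)
    (fun θ => gam l (θ - ψ) * joW l x y θ) ψ
  have h4 := hper.intervalIntegral_add_eq (-π + ψ) 0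
  rw [zero_add, show -π + ψ + 2 * π = π + ψ by ring] at h4
  rw [← h4, ← h3]
  unfold J1 joW
  refine intervalIntegral.integral_congr fun θ _ => ?_
  show _ = gam l (θ + ψ - ψ) * (VS x y 0 (θ + ψ) + l * VV x y 0 (θ + ψ))
  rw [add_sub_cancel_right]

theorem J1_bd : ∃ C : ℝ, 1 ≤ C ∧ ∀ l x y ψ : ℝ, 1 ≤ l → l ≤ 5 / 4 → x ≠ 0 → |J1 l x y ψ| ≤ C * kw x := by
  obtain ⟨C, hC, hf⟩ := joW_facts
  refine ⟨4 * C, by linarith, fun l x y ψ h1 h2 hx => ?_⟩
  obtain ⟨hI, hL, -⟩ := hf l x y h1 h2 hx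
  have hpi := Real.pi_pos
  rw [J1_shift h1 h2]
  have h3 : ‖∫ θ in (0 : ℝ)..(2 * π), gam l (θ - ψ) * joW l x y θ‖ ≤
      ∫ θ in (0 : ℝ)..(2 * π), 4 * |joW l x y θ| := by
    refine intervalIntegral.norm_integral_le_of_norm_le (by linarith) ?_
      ((hI _ _).abs.const_mul _)
    refine Filter.Eventually.of_forall fun θ _ => ?_
    rw [Real.norm_eq_abs, abs_mul]
    exact mul_le_mul_of_nonneg_right (jo_gam_abs h1 h2 _) (abs_nonneg _)
  rw [intervalIntegral.integral_const_mul, Real.norm_eq_abs] at h3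
  have h4 := hL 0
  rw [zero_add] at h4
  linarith

theorem jump_one : ∃ C : ℝ, 1 ≤ C ∧ ∀ l x y ψ : ℝ, 1 ≤ l → l ≤ 5 / 4 → x ≠ 0 → |ψ| ≤ 1 / 2 →
    |J1 l x y ψ - J1 l x y 0| ≤ C * kw x * |ψ| * (dd y + |ψ|) := by
  obtain ⟨C, hC, hf⟩ := joW_facts
  refine ⟨32 * C, by linarith, fun l x y ψ h1 h2 hx hψ => ?_⟩
  obtain ⟨hI, hL, hS⟩ := hf l x y h1 h2 hx
  rw [J1_shift h1 h2, J1_shift h1 h2]
  simp only [sub_zero]
  have h3 := jo_abs h1 h2 (W := joW l x y) (y := y) (D := C * kw x) (ψ := ψ) (joW_per l x y)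
    (joW_even l x y) hI hL hS (mul_nonneg (by linarith) (kw_pos x).le) hψ
  calc _ ≤ 32 * (C * kw x) * |ψ| * (dd y + |ψ|) := h3
    _ = 32 * C * kw x * |ψ| * (dd y + |ψ|) := by ring

end Pool.Agent.THX
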