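import Pool.Agent.THX.TMb

/-!
# THX, module Off: a deep minimum outside of the valley needs a cluster of zeros

`tm_near`: `c TM F s ≥ (1/2 - del) (2 exp s - C th) A`.  `dec`: `-log |F (pt s φ)| ≤ A exp s cos x0 + ∑ (-VV) + h` (`c0, nB ≥ 0`, `cos φ ≤ cos x0`),
`-VV ≤ C kw` for `|x| > 3` (`vb_far`), `-VV ≤ log (C/|s-x|)` for `|x| ≤ 3` (`vb_near`).  So
`∑_{|x i| ≤ 3} log (C/|s-x i|) ≥ A exp s (1 - 2 del - cos x0) - C' th A ≥ c1 A` with `c1 = (1 - cos x0)/2`, `del = (1 - cos x0)/8`, `th` small.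
-/

set_option autoImplicit false
set_option linter.all false

namespace Pool.Agent.THX

open Real MeasureTheory Set Filter Topology
open Pool.Agent.TX1 (pt ell TM TN Fac HM Gr)

open Classical in
theorem off {x0 : ℝ} (h0 : 0 < x0) (h1 : x0 ≤ 1 / 8) : ∃ C t0 del c1 : ℝ, 5 ≤ C ∧ 0 < t0 ∧ 0 < del ∧ 0 < c1 ∧
    ∀ (th A h c : ℝ) (n : ℕ) (x y : Fin n → ℝ) (g F : ℂ → ℂ), Differentiable ℂ F → Dat th A h n x y g F → th ≤ t0 →
      1 / 2 - del ≤ c → ∀ s, 0 ≤ s → s ≤ 3 / 2 → (∀ i, x i ≠ s) → ∀ φ : ℝ, cos φ ≤ cos x0 →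
        c * TM F s ≤ -log ‖F (pt s φ)‖ →
        c1 * A ≤ ∑ i, if |x i| ≤ 3 then log (C / |s - x i|) else 0 := by
  obtain ⟨C1, hC1, hTM⟩ := tm_near
  obtain ⟨C2, hC2, hfar⟩ := vb_far
  obtain ⟨C3, hC3, hnear⟩ := vb_near
  have hcos : cos x0 < 1 := by
    have h2 := cos_lt_cos_of_nonneg_of_le_pi (x := 0) (y := x0) le_rfl
      (by linarith [pi_gt_three]) h0
    rwa [cos_zero] at h2
  have hcos0 : 0 ≤ cos x0 :=
    cos_nonneg_of_neg_pi_div_two_le_of_le (by linarith [pi_gt_three]) (by linarith [pi_gt_three])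
  refine ⟨C3, (1 - cos x0) / (4 * (C1 + 1 + C2)), (1 - cos x0) / 8, (1 - cos x0) / 2, hC3,
    div_pos (by linarith) (by linarith), by linarith, by linarith, ?_⟩
  intro th A h c n x y g F hF hD hth hc s hs0 hs1 hne φ hφ hmin
  have hA : 0 < A := by
    have h2 := hD.hA
    have h3 := hD.hth
    by_contra h4
    have : th * A ≤ 0 := mul_nonpos_of_nonneg_of_nonpos h3.le (not_lt.1 h4)
    linarith
  have hes : 1 ≤ exp s := one_le_exp hs0
  -- lower bound for TM
  have hT := (abs_le.1 (hTM th A h n x y g F hF hD s hs0 hs1)).1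
  have hth2 : (C1 + 1 + C2) * (th * A) ≤ (1 - cos x0) / 4 * A := by
    have h2 : (C1 + 1 + C2) * th ≤ (1 - cos x0) / 4 := by
      have h3 : 0 < 4 * (C1 + 1 + C2) := by linarith
      rw [le_div_iff₀ h3] at hth
      linarith
    have := mul_le_mul_of_nonneg_right h2 hA.le
    linarith
  have hthA : 0 ≤ th * A := mul_nonneg hD.hth.le hA.le
  have hC1A : C1 * th * A ≤ (1 - cos x0) / 4 * A := by
    have h2 : 0 ≤ (1 + C2) * (th * A) := mul_nonneg (by linarith) hthA
    linarith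
  have hAe : A ≤ A * exp s := by
    have := mul_le_mul_of_nonneg_left hes hA.le
    linarith
  have hTM0 : 0 ≤ TM F s := by
    have h2 : (1 - cos x0) / 4 * A ≤ 1 * A := mul_le_mul_of_nonneg_right (by linarith) hA.le
    linarith
  have hcT : (1 / 2 - (1 - cos x0) / 8) * (2 * A * exp s - C1 * th * A) ≤ c * TM F s := by
    have h2 : (1 / 2 - (1 - cos x0) / 8) * TM F s ≤ c * TM F s := mul_le_mul_of_nonneg_right hc hTM0
    have h3 : (1 / 2 - (1 - cos x0) / 8) * (2 * A * exp s - C1 * th * A) ≤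
        (1 / 2 - (1 - cos x0) / 8) * TM F s :=
      mul_le_mul_of_nonneg_left (by linarith) (by linarith)
    linarith
  -- decomposition
  have hd := (dec hD (s := s) (by linarith) hne φ).2
  have hre : -h ≤ (g (pt s φ) - deriv g 0 * pt s φ).re := by
    have h2 : ‖pt s φ‖ ≤ exp 2 := by
      rw [Pool.Agent.TX1.pt_norm]
      exact exp_le_exp.2 (by linarith)
    have h3 := (hD.hH (pt s φ) h2).1
    have h4 := Complex.abs_re_le_norm (g (pt s φ) - deriv g 0 * pt s φ)
    have h5 := (abs_le.1 (h4.trans h3)).1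
    exact h5
  have hmax : 0 ≤ ∑ i, max (-(x i)) 0 := Finset.sum_nonneg fun i _ => le_max_right _ _
  have hnB : 0 ≤ nB x * s := by
    apply mul_nonneg _ hs0
    unfold nB
    apply Finset.sum_nonneg
    intro i _
    split_ifs
    · norm_num
    · exact le_rfl
  have hVV : ∑ i, -VV (x i) (y i) s φ ≤
      (∑ i, if |x i| ≤ 3 then log (C3 / |s - x i|) else 0) + C2 * ∑ i, kw (x i) := by
    rw [Finset.mul_sum, ← Finset.sum_add_distrib]
    apply Finset.sum_le_sum
    intro i _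
    have hk := kw_pos (x i)
    split_ifs with h3
    · have h4 := (hnear (x i) (y i) s φ hs0 hs1 h3 (fun h => hne i h.symm)).1
      have h5 : 0 ≤ C2 * kw (x i) := by positivity
      linarith
    · have h4 := (abs_le.1 ((hfar (x i) (y i) s φ hs0 hs1 (not_le.1 h3)).1)).1
      linarith
  rw [Finset.sum_neg_distrib] at hVV
  have hK : C2 * ∑ i, kw (x i) ≤ C2 * (th * A) := mul_le_mul_of_nonneg_left hD.hK hC2.le
  have hcosA : A * exp s * cos φ ≤ A * exp s * cos x0 :=
    mul_le_mul_of_nonneg_left hφ (mul_nonneg hA.le (exp_pos s).le)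
  have hh := hD.hh
  rw [hd] at hmin
  have hfin : (1 / 2 - (1 - cos x0) / 8) * (C1 * th * A) ≤ C1 * (th * A) := by
    have h2 : 0 ≤ C1 * (th * A) := mul_nonneg (by linarith) hthA
    have h3 : (1 / 2 - (1 - cos x0) / 8) * (C1 * (th * A)) ≤ 1 * (C1 * (th * A)) :=
      mul_le_mul_of_nonneg_right (by linarith) h2
    linarith
  have hmain : (1 - cos x0) * (3 / 4) * A ≤ (1 - cos x0) * (3 / 4) * (A * exp s) :=
    mul_le_mul_of_nonneg_left hAe (by linarith)
  linarith

end Pool.Agent.THX
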