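import Pool.Agent.THX.Clus

/-!
# THX, module OneD: the one-dimensional lemma (exceptional heights)

`φ = max (-H) 0`.  Three parts of `[0, el]` (up to the finitely many `x i`):
* where `-S ≤ H`: `φ ≤ S`.
* `Z1`: the `Q`-sum is `≥ c1 A`: measure `≤ C' #Q²/(c1 A)²` (`clus_l2`), `φ ≤ C1 A`: contribution `≤ C #Q²/A ≤ C t0 #Q`.
* `Z2`: the `P`-sum is `≥ c1 A`: by `clus` there is `k ≥ k0` with `cntP P x 256^{-k} s ≥ 2^{-k} A`.  If moreover `H s < 0`: `h4` gives `4^{-k} ≤ s ≤ el - 4^{-k}`, and for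
  `4^{-k}/2 ≤ ρ ≤ 4^{-k}` the second difference inequality gives `H (s+ρ) + H (s-ρ) ≤ C1 A ρ² - c2 2^{-k} A (ρ - 256^{-k}) + C1 ρ #Q ≤ - (c2/4) 2^{-k} A ρ + C1 ρ #Q` (for `k0` large), so
  `φ (s+ρ) + φ (s-ρ) ≥ (c2/4) 2^{-k} A ρ - C1 ρ #Q`; integrate over `ρ`: `∫_0^el φ ≥ (3/8) 16^{-k} ((c2/4) 2^{-k} A - C1 #Q)`, i.e. `A ≤ C 32^k ∫ φ + C 2^k #Q`.
  Measure of the set with this `k`: `≤ 2·256^{-k} #P/(2^{-k} A) ≤ 2 t0 128^{-k}` (`clus_meas`).  So the contribution of this `k` is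
  `≤ C1 A · 2 t0 128^{-k} ≤ C t0 (4^{-k} ∫ φ + 64^{-k} #Q)`; sum over `k ≥ k0`.
Total: `∫ φ ≤ ∫ S + C t0 #Q + C t0 ∫ φ`, so `∫ φ ≤ 2 ∫ S + ε #Q` for `t0` small.
-/

set_option autoImplicit false
set_option linter.all false

namespace Pool.Agent.THX

open Real MeasureTheory Set Filter Topology

private lemma oneD_int {f : ℝ → ℝ} {el s r B : ℝ} (hf : ContinuousOn f (Icc 0 el)) (hf0 : ∀ s, 0 ≤ f s)
    (hr : 0 < r) (h1 : r ≤ s) (h2 : s ≤ el - r)
    (hB : ∀ ρ ∈ Icc (r / 2) r, B * ρ ≤ f (s + ρ) + f (s - ρ)) :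
    B * (r ^ 2 / 4) ≤ ∫ u in (0 : ℝ)..el, f u := by
  have hel : 0 ≤ el := by linarith
  have hI : 0 ≤ ∫ u in (0 : ℝ)..el, f u := intervalIntegral.integral_nonneg hel (fun u _ => hf0 u)
  have hint : ∀ a b : ℝ, 0 ≤ a → a ≤ b → b ≤ el → IntervalIntegrable f volume a b := by
    intro a b ha hab hb
    apply ContinuousOn.intervalIntegrable
    rw [uIcc_of_le hab]
    exact hf.mono (Icc_subset_Icc ha hb)
  rcases le_or_gt B 0 with hB0 | hB0
  · have : B * (r ^ 2 / 4) ≤ 0 := mul_nonpos_of_nonpos_of_nonneg hB0 (by positivity)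
    linarith
  · have e1 : ∫ ρ in (r / 2)..r, f (s + ρ) = ∫ u in (s + r / 2)..(s + r), f u :=
      intervalIntegral.integral_comp_add_left f s
    have e2 : ∫ ρ in (r / 2)..r, f (s - ρ) = ∫ u in (s - r)..(s - r / 2), f u :=
      intervalIntegral.integral_comp_sub_left f s
    have c1 : ContinuousOn (fun ρ => f (s + ρ)) (Icc (r / 2) r) := by
      apply hf.comp (by fun_prop)
      intro ρ hρ
      exact ⟨by linarith [hρ.1], by linarith [hρ.2]⟩
    have c2 : ContinuousOn (fun ρ => f (s - ρ)) (Icc (r / 2) r) := by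
      apply hf.comp (by fun_prop)
      intro ρ hρ
      exact ⟨by linarith [hρ.2], by linarith [hρ.1]⟩
    have i1 : IntervalIntegrable (fun ρ => f (s + ρ)) volume (r / 2) r := by
      apply ContinuousOn.intervalIntegrable
      rwa [uIcc_of_le (by linarith)]
    have i2 : IntervalIntegrable (fun ρ => f (s - ρ)) volume (r / 2) r := by
      apply ContinuousOn.intervalIntegrable
      rwa [uIcc_of_le (by linarith)]
    have hlow : ∫ ρ in (r / 2)..r, (B * (r / 2) : ℝ) ≤ ∫ ρ in (r / 2)..r, (f (s + ρ) + f (s - ρ)) := by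
      apply intervalIntegral.integral_mono_on (by linarith) (by simp) (i1.add i2)
      intro ρ hρ
      have := hB ρ hρ
      have h3 : B * (r / 2) ≤ B * ρ := mul_le_mul_of_nonneg_left hρ.1 hB0.le
      linarith
    rw [intervalIntegral.integral_const, intervalIntegral.integral_add i1 i2, e1, e2, smul_eq_mul] at hlow
    have m1 : ∫ u in (s + r / 2)..(s + r), f u ≤ ∫ u in s..el, f u := by
      apply intervalIntegral.integral_mono_interval (by linarith) (by linarith) (by linarith)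
      · exact Eventually.of_forall hf0
      · exact hint s el (by linarith) (by linarith) le_rfl
    have m2 : ∫ u in (s - r)..(s - r / 2), f u ≤ ∫ u in (0 : ℝ)..s, f u := by
      apply intervalIntegral.integral_mono_interval (by linarith) (by linarith) (by linarith)
      · exact Eventually.of_forall hf0
      · exact hint 0 s le_rfl (by linarith) (by linarith)
    have m3 : (∫ u in (0 : ℝ)..s, f u) + ∫ u in s..el, f u = ∫ u in (0 : ℝ)..el, f u :=
      intervalIntegral.integral_add_adjacent_intervals (hint 0 s le_rfl (by linarith) (by linarith))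
        (hint s el (by linarith) (by linarith) le_rfl)
    have : (r - r / 2) * (B * (r / 2)) = B * (r ^ 2 / 4) := by ring
    linarith

/-- the key inequality at a point of `Z2` -/
private lemma oneD_A {C1 c2 : ℝ} (hC1 : 0 < C1) (hc2 : 0 < c2) {n : ℕ} (P Q : Finset (Fin n)) (x : Fin n → ℝ)
    (A el : ℝ) (H : ℝ → ℝ) (hA : 0 < A) (k : ℕ) (hk1 : 1 ≤ k) (hk : C1 * (1 / 2) ^ k ≤ c2 / 4)
    (hH : ContinuousOn H (Icc 0 el))
    (h2 : ∀ s ρ, 0 ≤ ρ → 0 ≤ s - ρ → s + ρ ≤ el → H (s + ρ) + H (s - ρ) - 2 * H s ≤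
        C1 * A * ρ ^ 2 - c2 * (∑ i ∈ P, max (ρ - |s - x i|) 0) + C1 * ρ * Q.card)
    (s : ℝ) (hs0 : (1 / 4) ^ k ≤ s) (hs1 : s ≤ el - (1 / 4) ^ k) (hHs : H s < 0)
    (hc : (1 / 2) ^ k * A ≤ cntP P x ((1 / 256) ^ k) s) :
    A ≤ 4 * C1 / c2 * 2 ^ k * Q.card + 16 / c2 * 32 ^ k * ∫ u in (0 : ℝ)..el, max (-(H u)) 0 := by
  set I := ∫ u in (0 : ℝ)..el, max (-(H u)) 0 with hI
  set r : ℝ := (1 / 4) ^ k with hr
  have hr0 : 0 < r := by positivity
  have hd : ((1 / 256 : ℝ)) ^ k ≤ r / 4 := by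
    have e : ((1 / 256 : ℝ)) ^ k = (1 / 4) ^ k * (1 / 64) ^ k := by rw [← mul_pow]; norm_num
    have e2 : ((1 / 64 : ℝ)) ^ k ≤ 1 / 4 := by
      calc ((1 / 64 : ℝ)) ^ k ≤ (1 / 64) ^ 1 := pow_le_pow_of_le_one (by norm_num) (by norm_num) hk1
        _ ≤ 1 / 4 := by norm_num
    rw [e]
    calc (1 / 4 : ℝ) ^ k * (1 / 64) ^ k ≤ (1 / 4) ^ k * (1 / 4) := by gcongr
      _ = r / 4 := by rw [hr]; ring
  have hd0 : (0 : ℝ) < (1 / 256) ^ k := by positivity
  have hbase : ∀ ρ ∈ Icc (r / 2) r, (c2 / 4 * (1 / 2) ^ k * A - C1 * Q.card) * ρ ≤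
      max (-(H (s + ρ))) 0 + max (-(H (s - ρ))) 0 := by
    intro ρ hρ
    have hρ0 : 0 < ρ := by linarith [hρ.1]
    have h3 := h2 s ρ hρ0.le (by linarith [hρ.2]) (by linarith [hρ.2])
    have hsum : (1 / 2) ^ k * A * (ρ / 2) ≤ ∑ i ∈ P, max (ρ - |s - x i|) 0 := by
      have hsub : ∑ i ∈ P.filter (fun i => |s - x i| ≤ (1 / 256) ^ k), (ρ / 2) ≤
          ∑ i ∈ P, max (ρ - |s - x i|) 0 := by
        calc ∑ i ∈ P.filter (fun i => |s - x i| ≤ (1 / 256) ^ k), (ρ / 2)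
            ≤ ∑ i ∈ P.filter (fun i => |s - x i| ≤ (1 / 256) ^ k), max (ρ - |s - x i|) 0 := by
              apply Finset.sum_le_sum
              intro i hi
              have hi2 := (Finset.mem_filter.mp hi).2
              apply le_max_of_le_left
              linarith [hρ.1]
          _ ≤ ∑ i ∈ P, max (ρ - |s - x i|) 0 := by
              apply Finset.sum_le_sum_of_subset_of_nonneg (Finset.filter_subset _ _)
              intro i _ _
              exact le_max_right _ _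
      rw [Finset.sum_const, nsmul_eq_mul] at hsub
      have : (1 / 2) ^ k * A * (ρ / 2) ≤ cntP P x ((1 / 256) ^ k) s * (ρ / 2) := by gcongr
      exact this.trans hsub
    have h4 : c2 * ((1 / 2) ^ k * A * (ρ / 2)) ≤ c2 * ∑ i ∈ P, max (ρ - |s - x i|) 0 := by gcongr
    have h5 : C1 * A * ρ ^ 2 ≤ c2 / 4 * (1 / 2) ^ k * A * ρ := by
      have e : r = (1 / 2) ^ k * (1 / 2) ^ k := by rw [hr, ← mul_pow]; norm_num
      calc C1 * A * ρ ^ 2 = C1 * A * ρ * ρ := by ring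
        _ ≤ C1 * A * ρ * r := by gcongr; exact hρ.2
        _ = (C1 * (1 / 2) ^ k) * ((1 / 2) ^ k * A * ρ) := by rw [e]; ring
        _ ≤ c2 / 4 * ((1 / 2) ^ k * A * ρ) := by gcongr
        _ = _ := by ring
    have h6 : -(H (s + ρ)) ≤ max (-(H (s + ρ))) 0 := le_max_left _ _
    have h7 : -(H (s - ρ)) ≤ max (-(H (s - ρ))) 0 := le_max_left _ _
    have h8 : c2 * ((1 / 2) ^ k * A * (ρ / 2)) = 2 * (c2 / 4 * (1 / 2) ^ k * A * ρ) := by ring
    have h9 : (c2 / 4 * (1 / 2) ^ k * A - C1 * Q.card) * ρ = c2 / 4 * (1 / 2) ^ k * A * ρ - C1 * ρ * Q.card := by ring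
    rw [h9]
    linarith
  have hcont : ContinuousOn (fun u => max (-(H u)) 0) (Icc 0 el) := hH.neg.sup continuousOn_const
  have hkey := oneD_int hcont (fun u => le_max_right _ _) hr0 hs0 hs1 hbase
  have hr2 : r ^ 2 * (16 : ℝ) ^ k = 1 := by
    rw [hr, ← pow_mul, mul_comm k 2, pow_mul, ← mul_pow]; norm_num
  have h22 : ((1 / 2 : ℝ)) ^ k * 2 ^ k = 1 := by rw [← mul_pow]; norm_num
  have h32 : ((32 : ℝ)) ^ k = 16 ^ k * 2 ^ k := by rw [← mul_pow]; norm_num
  have hk3 : (c2 / 4 * (1 / 2) ^ k * A - C1 * Q.card) ≤ 4 * 16 ^ k * I := by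
    have : (c2 / 4 * (1 / 2) ^ k * A - C1 * Q.card) * (r ^ 2 / 4) * (4 * 16 ^ k) ≤ I * (4 * 16 ^ k) := by
      gcongr
    calc (c2 / 4 * (1 / 2) ^ k * A - C1 * Q.card)
        = (c2 / 4 * (1 / 2) ^ k * A - C1 * Q.card) * (r ^ 2 * 16 ^ k) := by rw [hr2]; ring
      _ = (c2 / 4 * (1 / 2) ^ k * A - C1 * Q.card) * (r ^ 2 / 4) * (4 * 16 ^ k) := by ring
      _ ≤ I * (4 * 16 ^ k) := this
      _ = _ := by ring
  have : A = (c2 / 4 * (1 / 2) ^ k * A) * (4 / c2 * 2 ^ k) := by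
    calc A = A * ((1 / 2) ^ k * 2 ^ k) := by rw [h22]; ring
      _ = _ := by field_simp
  calc A = (c2 / 4 * (1 / 2) ^ k * A) * (4 / c2 * 2 ^ k) := this
    _ ≤ (C1 * Q.card + 4 * 16 ^ k * I) * (4 / c2 * 2 ^ k) := by
        apply mul_le_mul_of_nonneg_right _ (by positivity)
        linarith
    _ = _ := by rw [h32]; ring

theorem oneD {C C1 c1 c2 ε : ℝ} (hC : 5 ≤ C) (hC1 : 0 < C1) (hc1 : 0 < c1) (hc2 : 0 < c2) (hε : 0 < ε) :
    ∃ (k0 : ℕ) (t0 : ℝ), 0 < t0 ∧ ∀ (n : ℕ) (P Q : Finset (Fin n)) (x : Fin n → ℝ) (A el : ℝ) (H S : ℝ → ℝ),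
      0 < A → 1 / 2 ≤ el → el ≤ 3 / 2 → ((P ∪ Q).card : ℝ) ≤ t0 * A → Disjoint P Q → (∀ i ∈ Q, |x i| ≤ 3) →
      ContinuousOn H (Icc 0 el) → (∀ s, 0 ≤ S s) → IntervalIntegrable S volume 0 el →
      (∀ s ∈ Icc 0 el, (∀ i, x i ≠ s) → -(S s) ≤ H s ∨ c1 * A ≤ (∑ i ∈ P, max 0 (log (C / |s - x i|))) ∨
        c1 * A ≤ ∑ i ∈ Q, max 0 (log (C / |s - x i|))) →
      (∀ s ρ, 0 ≤ ρ → 0 ≤ s - ρ → s + ρ ≤ el → H (s + ρ) + H (s - ρ) - 2 * H s ≤
        C1 * A * ρ ^ 2 - c2 * (∑ i ∈ P, max (ρ - |s - x i|) 0) + C1 * ρ * Q.card) →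
      (∀ s ∈ Icc 0 el, -(C1 * A) ≤ H s) →
      (∀ k : ℕ, k0 ≤ k → ∀ s ∈ Icc 0 el, (s < (1 / 4) ^ k ∨ el - (1 / 4) ^ k < s) → cntP P x ((1 / 256) ^ k) s < (1 / 2) ^ k * A) →
      ∫ s in (0 : ℝ)..el, max (-(H s)) 0 ≤ 2 * (∫ s in (0 : ℝ)..el, S s) + ε * Q.card := by
  obtain ⟨k0', hk0'⟩ := clus hC hc1
  obtain ⟨C', hC', hl2⟩ := clus_l2 hC
  -- k with C1 (1/2)^k ≤ c2/4
  obtain ⟨k2, hk2⟩ : ∃ k2 : ℕ, ∀ k, k2 ≤ k → C1 * (1 / 2 : ℝ) ^ k ≤ c2 / 4 := by
    obtain ⟨k2, hk2⟩ := exists_pow_lt_of_lt_one (show (0 : ℝ) < c2 / 4 / C1 by positivity) (show (1 / 2 : ℝ) < 1 by norm_num)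
    refine ⟨k2, fun k hk => ?_⟩
    have : (1 / 2 : ℝ) ^ k ≤ (1 / 2) ^ k2 := pow_le_pow_of_le_one (by norm_num) (by norm_num) hk
    calc C1 * (1 / 2 : ℝ) ^ k ≤ C1 * (c2 / 4 / C1) := by gcongr; linarith
      _ = c2 / 4 := by field_simp
  set k0 : ℕ := max (max k0' k2) 1 with hk0
  obtain ⟨t1, ht1, hclus⟩ := hk0' k0 ((le_max_left _ _).trans (le_max_left _ _))
  set D : ℝ := C1 * C' / c1 ^ 2 + 16 * C1 ^ 2 / c2 with hD
  have hDpos : 0 < D := by positivity
  set t0 : ℝ := min t1 (min (c2 / (128 * C1)) (ε / (2 * D))) with ht0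
  have ht0pos : 0 < t0 := by
    rw [ht0]; exact lt_min ht1 (lt_min (by positivity) (by positivity))
  have ht0a : t0 ≤ t1 := min_le_left _ _
  have ht0b : t0 ≤ c2 / (128 * C1) := (min_le_right _ _).trans (min_le_left _ _)
  have ht0c : t0 ≤ ε / (2 * D) := (min_le_right _ _).trans (min_le_right _ _)
  refine ⟨k0, t0, ht0pos, ?_⟩
  intro n P Q x A el H S hA hel1 hel2 hcard hdisj hxQ hH hS hSint hcase hdiff hlow hclean
  have hel0 : 0 ≤ el := by linarith
  have hPcard : (P.card : ℝ) ≤ t0 * A := by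
    refine le_trans ?_ hcard
    exact_mod_cast Finset.card_le_card Finset.subset_union_left
  have hQcard : (Q.card : ℝ) ≤ t0 * A := by
    refine le_trans ?_ hcard
    exact_mod_cast Finset.card_le_card Finset.subset_union_right
  have hPcard1 : (P.card : ℝ) ≤ t1 * A := hPcard.trans (by gcongr)
  set q : ℝ := (Q.card : ℝ) with hq
  have hq0 : 0 ≤ q := by positivity
  set φ : ℝ → ℝ := fun s => max (-(H s)) 0 with hφ
  have hφ0 : ∀ s, 0 ≤ φ s := fun s => le_max_right _ _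
  have hφc : ContinuousOn φ (Icc 0 el) := hH.neg.sup continuousOn_const
  set I : ℝ := ∫ s in (0 : ℝ)..el, φ s with hI
  have hI0 : 0 ≤ I := intervalIntegral.integral_nonneg hel0 (fun u _ => hφ0 u)
  -- the exceptional sets
  set Z : Set ℝ := {s : ℝ | s ∈ Icc (0 : ℝ) 2 ∧ c1 * A ≤ ∑ i ∈ Q, max 0 (log (C / |s - x i|))} with hZ
  set Z' : Set ℝ := toMeasurable volume Z with hZ'
  have hZ'm : MeasurableSet Z' := measurableSet_toMeasurable _ _
  have hZv : volume Z' ≤ ENNReal.ofReal (C' * q ^ 2 / (c1 * A) ^ 2) := by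
    rw [hZ', measure_toMeasurable]
    exact hl2 n Q x (c1 * A) (by positivity) hxQ
  classical
  set good : ℕ → Prop := fun k => k0 ≤ k ∧ ∃ s ∈ Icc 0 el, H s < 0 ∧ (1 / 2) ^ k * A ≤ cntP P x ((1 / 256) ^ k) s with hgood
  set W : ℕ → Set ℝ := fun k => if good k then {s : ℝ | (1 / 2) ^ k * A ≤ cntP P x ((1 / 256) ^ k) s} else ∅ with hW
  have hWm : ∀ k, MeasurableSet (W k) := by
    intro k
    simp only [hW]
    split_ifs
    · exact (clus_meas P x (by positivity) (by positivity)).1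
    · exact MeasurableSet.empty
  set a : ℕ → ℝ := fun k => 2 * C1 * t0 * (4 * C1 / c2 * (1 / 64) ^ k * q + 16 / c2 * (1 / 4) ^ k * I) with ha
  have ha0 : ∀ k, 0 ≤ a k := by intro k; simp only [ha]; positivity
  have hWv : ∀ k, ENNReal.ofReal (C1 * A) * volume (W k) ≤ ENNReal.ofReal (a k) := by
    intro k
    by_cases hg : good k
    · have hWk : W k = {s : ℝ | (1 / 2) ^ k * A ≤ cntP P x ((1 / 256) ^ k) s} := by simp only [hW]; rw [if_pos hg]
      rw [hWk]
      have hm := (clus_meas P x (δ := (1 / 256) ^ k) (m := (1 / 2) ^ k * A) (by positivity) (by positivity)).2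
      refine (mul_le_mul_right hm _).trans ?_
      rw [← ENNReal.ofReal_mul (by positivity)]
      apply ENNReal.ofReal_le_ofReal
      obtain ⟨hk0k, s, hs, hHs, hcs⟩ := hg
      have hnot := hclean k hk0k s hs
      have hs0 : (1 / 4 : ℝ) ^ k ≤ s := by
        by_contra hcon
        have := hnot (Or.inl (not_le.mp hcon))
        linarith
      have hs1 : s ≤ el - (1 / 4 : ℝ) ^ k := by
        by_contra hcon
        have := hnot (Or.inr (not_le.mp hcon))
        linarith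
      have hAb := oneD_A hC1 hc2 P Q x A el H hA k ((le_max_right _ _).trans hk0k)
        (hk2 k (((le_max_right _ _).trans (le_max_left _ _)).trans hk0k)) hH hdiff s hs0 hs1 hHs hcs
      have e1 : C1 * A * (2 * (1 / 256) ^ k * (P.card : ℝ) / ((1 / 2) ^ k * A)) = 2 * C1 * (1 / 128) ^ k * P.card := by
        have : ((1 / 256 : ℝ)) ^ k = (1 / 128) ^ k * (1 / 2) ^ k := by rw [← mul_pow]; norm_num
        rw [this]
        have h2k : ((1 / 2 : ℝ)) ^ k ≠ 0 := by positivity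
        field_simp
      rw [e1]
      have e2 : ((1 / 128 : ℝ)) ^ k * 2 ^ k = (1 / 64) ^ k := by rw [← mul_pow]; norm_num
      have e3 : ((1 / 128 : ℝ)) ^ k * 32 ^ k = (1 / 4) ^ k := by rw [← mul_pow]; norm_num
      calc 2 * C1 * (1 / 128) ^ k * (P.card : ℝ) ≤ 2 * C1 * (1 / 128) ^ k * (t0 * A) := by gcongr
        _ ≤ 2 * C1 * (1 / 128) ^ k * (t0 * (4 * C1 / c2 * 2 ^ k * q + 16 / c2 * 32 ^ k * I)) := by gcongr
        _ = 2 * C1 * t0 * (4 * C1 / c2 * ((1 / 128) ^ k * 2 ^ k) * q + 16 / c2 * ((1 / 128) ^ k * 32 ^ k) * I) := by ring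
        _ = a k := by rw [e2, e3]
    · have hWk : W k = ∅ := by simp only [hW]; rw [if_neg hg]
      rw [hWk]; simp
  have hs64 : HasSum (fun k : ℕ => ((1 / 64 : ℝ)) ^ k) (64 / 63) := by
    have := hasSum_geometric_of_lt_one (show (0 : ℝ) ≤ 1 / 64 by norm_num) (by norm_num)
    convert this using 1; norm_num
  have hs4 : HasSum (fun k : ℕ => ((1 / 4 : ℝ)) ^ k) (4 / 3) := by
    have := hasSum_geometric_of_lt_one (show (0 : ℝ) ≤ 1 / 4 by norm_num) (by norm_num)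
    convert this using 1; norm_num
  have hsa : HasSum a (2 * C1 * t0 * (4 * C1 / c2 * (64 / 63) * q + 16 / c2 * (4 / 3) * I)) := by
    simp only [ha]
    apply HasSum.mul_left
    exact ((hs64.mul_left (4 * C1 / c2)).mul_right q).add ((hs4.mul_left (16 / c2)).mul_right I)
  -- the pointwise bound
  have hSm : AEMeasurable (fun s => ENNReal.ofReal (S s)) (volume.restrict (Ioc 0 el)) := by
    have := (intervalIntegrable_iff_integrableOn_Ioc_of_le hel0).mp hSint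
    exact this.aestronglyMeasurable.aemeasurable.ennreal_ofReal
  have hpt : ∀ᵐ s ∂(volume.restrict (Ioc 0 el)), ENNReal.ofReal (φ s) ≤ ENNReal.ofReal (S s) +
      (Z'.indicator (fun _ => ENNReal.ofReal (C1 * A)) s + ∑' k, (W k).indicator (fun _ => ENNReal.ofReal (C1 * A)) s) := by
    have hfin : (Set.range x).Finite := Set.finite_range x
    have hae : ∀ᵐ s ∂(volume.restrict (Ioc 0 el)), s ∉ Set.range x :=
      ae_restrict_of_ae (measure_eq_zero_iff_ae_notMem.mp (hfin.measure_zero volume))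
    filter_upwards [hae, ae_restrict_mem measurableSet_Ioc] with s hs1 hs2
    have hs3 : s ∈ Icc 0 el := ⟨hs2.1.le, hs2.2⟩
    have hφle : φ s ≤ C1 * A := by
      simp only [hφ]
      exact max_le (by linarith [hlow s hs3]) (by positivity)
    by_cases hHs : 0 ≤ H s
    · have : φ s = 0 := by simp only [hφ]; exact max_eq_right (by linarith)
      rw [this]; simp
    · push Not at hHs
      rcases hcase s hs3 (fun i hi => hs1 ⟨i, hi⟩) with h | h | h
      · have : φ s ≤ S s := by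
          simp only [hφ]
          exact max_le (by linarith) (hS s)
        exact (ENNReal.ofReal_le_ofReal this).trans le_self_add
      · obtain ⟨k, hk1, hk2'⟩ := hclus n P x A s hA hPcard1 (fun i hi => hs1 ⟨i, hi⟩) h
        have hg : good k := ⟨hk1, s, hs3, hHs, hk2'⟩
        have hsW : s ∈ W k := by simp only [hW]; rw [if_pos hg]; exact hk2'
        refine (ENNReal.ofReal_le_ofReal hφle).trans ?_
        have h1 : ENNReal.ofReal (C1 * A) = (W k).indicator (fun _ => ENNReal.ofReal (C1 * A)) s := by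
          rw [Set.indicator_of_mem hsW]
        have h2 : (W k).indicator (fun _ => ENNReal.ofReal (C1 * A)) s ≤ ∑' k, (W k).indicator (fun _ => ENNReal.ofReal (C1 * A)) s :=
          ENNReal.le_tsum k
        rw [← h1] at h2
        exact h2.trans (le_add_self.trans le_add_self)
      · have hsZ : s ∈ Z' := subset_toMeasurable _ _ (show s ∈ Z from ⟨⟨hs3.1, by linarith [hs3.2]⟩, h⟩)
        refine (ENNReal.ofReal_le_ofReal hφle).trans ?_
        rw [Set.indicator_of_mem hsZ]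
        exact le_self_add.trans le_add_self
  have hIe : ENNReal.ofReal I = ∫⁻ s in Ioc 0 el, ENNReal.ofReal (φ s) := by
    rw [hI, intervalIntegral.integral_of_le hel0]
    apply ofReal_integral_eq_lintegral_ofReal
    · have : IntervalIntegrable φ volume 0 el := by
        apply ContinuousOn.intervalIntegrable; rwa [uIcc_of_le hel0]
      exact (intervalIntegrable_iff_integrableOn_Ioc_of_le hel0).mp this
    · exact Eventually.of_forall hφ0
  have hSe : ENNReal.ofReal (∫ s in (0 : ℝ)..el, S s) = ∫⁻ s in Ioc 0 el, ENNReal.ofReal (S s) := by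
    rw [intervalIntegral.integral_of_le hel0]
    apply ofReal_integral_eq_lintegral_ofReal
    · exact (intervalIntegrable_iff_integrableOn_Ioc_of_le hel0).mp hSint
    · exact Eventually.of_forall hS
  have hSI0 : 0 ≤ ∫ s in (0 : ℝ)..el, S s := intervalIntegral.integral_nonneg hel0 (fun u _ => hS u)
  have hmain : ENNReal.ofReal I ≤ ENNReal.ofReal (∫ s in (0 : ℝ)..el, S s) +
      (ENNReal.ofReal (C1 * A * (C' * q ^ 2 / (c1 * A) ^ 2)) +
        ENNReal.ofReal (2 * C1 * t0 * (4 * C1 / c2 * (64 / 63) * q + 16 / c2 * (4 / 3) * I))) := by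
    rw [hIe, hSe]
    refine (lintegral_mono_ae hpt).trans ?_
    rw [lintegral_add_left' hSm, lintegral_add_left (measurable_const.indicator hZ'm),
      lintegral_tsum (fun k => (measurable_const.indicator (hWm k)).aemeasurable)]
    gcongr
    · rw [lintegral_indicator_const hZ'm]
      calc ENNReal.ofReal (C1 * A) * (volume.restrict (Ioc 0 el)) Z' ≤ ENNReal.ofReal (C1 * A) * volume Z' := by
            gcongr; exact Measure.restrict_le_self
        _ ≤ ENNReal.ofReal (C1 * A) * ENNReal.ofReal (C' * q ^ 2 / (c1 * A) ^ 2) := by gcongr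
        _ = _ := by rw [← ENNReal.ofReal_mul (by positivity)]
    · rw [← hsa.tsum_eq, ENNReal.ofReal_tsum_of_nonneg ha0 hsa.summable]
      apply ENNReal.tsum_le_tsum
      intro k
      rw [lintegral_indicator_const (hWm k)]
      calc ENNReal.ofReal (C1 * A) * (volume.restrict (Ioc 0 el)) (W k) ≤ ENNReal.ofReal (C1 * A) * volume (W k) := by
            gcongr; exact Measure.restrict_le_self
        _ ≤ _ := hWv k
  have hreal : I ≤ (∫ s in (0 : ℝ)..el, S s) + (C1 * A * (C' * q ^ 2 / (c1 * A) ^ 2) +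
      2 * C1 * t0 * (4 * C1 / c2 * (64 / 63) * q + 16 / c2 * (4 / 3) * I)) := by
    rw [← ENNReal.ofReal_add (by positivity) (by positivity), ← ENNReal.ofReal_add hSI0 (by positivity)] at hmain
    exact (ENNReal.ofReal_le_ofReal_iff (by positivity)).mp hmain
  -- final computation
  have hb1 : C1 * A * (C' * q ^ 2 / (c1 * A) ^ 2) ≤ C1 * C' / c1 ^ 2 * t0 * q := by
    have e : C1 * A * (C' * q ^ 2 / (c1 * A) ^ 2) = C1 * C' / c1 ^ 2 * q * (q / A) := by
      field_simp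
    rw [e]
    have : q / A ≤ t0 := by rw [div_le_iff₀ hA]; exact hQcard
    calc C1 * C' / c1 ^ 2 * q * (q / A) ≤ C1 * C' / c1 ^ 2 * q * t0 := by gcongr
      _ = _ := by ring
  have hb2 : 2 * C1 * t0 * (16 / c2 * (4 / 3) * I) ≤ 1 / 2 * I := by
    have : 2 * C1 * t0 * (16 / c2 * (4 / 3)) ≤ 1 / 2 := by
      calc 2 * C1 * t0 * (16 / c2 * (4 / 3)) ≤ 2 * C1 * (c2 / (128 * C1)) * (16 / c2 * (4 / 3)) := by gcongr
        _ = 1 / 3 := by field_simp; norm_num
        _ ≤ 1 / 2 := by norm_num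
    calc 2 * C1 * t0 * (16 / c2 * (4 / 3) * I) = 2 * C1 * t0 * (16 / c2 * (4 / 3)) * I := by ring
      _ ≤ 1 / 2 * I := by gcongr
  have hb3 : 2 * C1 * t0 * (4 * C1 / c2 * (64 / 63) * q) ≤ 16 * C1 ^ 2 / c2 * t0 * q := by
    have : 2 * C1 * t0 * (4 * C1 / c2 * (64 / 63) * q) = (8 * (64 / 63)) * (C1 ^ 2 / c2 * t0 * q) := by ring
    rw [this]
    have h2 : 16 * C1 ^ 2 / c2 * t0 * q = 16 * (C1 ^ 2 / c2 * t0 * q) := by ring
    rw [h2]
    gcongr
    norm_num
  have hb4 : D * t0 * q ≤ ε / 2 * q := by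
    have : D * t0 ≤ ε / 2 := by
      calc D * t0 ≤ D * (ε / (2 * D)) := by gcongr
        _ = ε / 2 := by field_simp
    gcongr
  have hb5 : D * t0 * q = C1 * C' / c1 ^ 2 * t0 * q + 16 * C1 ^ 2 / c2 * t0 * q := by rw [hD]; ring
  have hb6 : 2 * C1 * t0 * (4 * C1 / c2 * (64 / 63) * q + 16 / c2 * (4 / 3) * I) =
      2 * C1 * t0 * (4 * C1 / c2 * (64 / 63) * q) + 2 * C1 * t0 * (16 / c2 * (4 / 3) * I) := by ring
  rw [hb6] at hreal
  linarith

end Pool.Agent.THX
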