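import Pool.Agent.THX.Dec
import Pool.Agent.THX.VBd

/-!
# THX, module Smooth: a regularisation of `-log |F|` on the valley ray

`FS` is `-log |F (pt s 0)|` with `ell (s-x) (-y) = log |1 - w|` replaced by `½ log (|1-w|² + x0²)`, `w = pt (s-x) (-y)`, for the `NH` zeros.
* (a), (b): `0 ≤ ½ log (1 + x0²/|1-w|²) ≤ x0/|1-w|... ≤ C √(x0/|s-x|)` (`½ log (1+u²) ≤ log (1+u) ≤ √u`, `|1-w| ≥ c |s-x|` for `|x| ≤ 3`, `0 ≤ s ≤ 3/2`).
* (c): use the decomposition of `Dec` for the part of the zeros not `NH` (`vb_s`), `A exp s` (second difference `≤ 5 A ρ²·...`), `Re H` (`Dat.hH`), the linear terms; the `NH` zeros: `½ log (|1-w|² + x0²)` is Lipschitz in `s`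
  with constant `C/x0`, and so are the corresponding linear terms/`Re (ζ/b)`.
* (d): each `NH` term is `≤ C`, `vb_abs` for the others; number of `NH` zeros `≤ C th A` (`Dat.hK`).
`FS_eq`: the definition in terms of `dec`: `FS s = -log |F (pt s 0)| - ∑_{NH} ½ log (1 + x0²/|1-w_i|²)` for `s ≠ x i`.
-/

set_option autoImplicit false
set_option linter.all false

namespace Pool.Agent.THX

open Real MeasureTheory Set Filter Topology
open Pool.Agent.TX1 (pt ell TM TN Fac HM Gr)

open Classical in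
/-- the regularisation -/
noncomputable def FS (x0 : ℝ) {n : ℕ} (x y : Fin n → ℝ) (g : ℂ → ℂ) (s : ℝ) : ℝ :=
  -((∑ i, if NH (x i) (y i) then 1 / 2 * log (‖1 - pt (s - x i) (-(y i))‖ ^ 2 + x0 ^ 2)
    else ell (s - x i) (-(y i))) + (g (pt s 0)).re)

/-- one regularised term -/
private noncomputable def fsq (x0 τ β : ℝ) : ℝ := 1 / 2 * log (‖1 - pt τ β‖ ^ 2 + x0 ^ 2)

private theorem fs_norm_ge {τ : ℝ} (β : ℝ) (h : -3 ≤ τ) : exp (-3) * |τ| ≤ ‖1 - pt τ β‖ := by
  have h1 : |1 - exp τ| ≤ ‖1 - pt τ β‖ := by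
    have := abs_norm_sub_norm_le (1 : ℂ) (pt τ β)
    rwa [norm_one, TX1.pt_norm] at this
  refine le_trans ?_ h1
  rcases le_total 0 τ with h0 | h0
  · have h2 := add_one_le_exp τ
    rw [abs_of_nonneg h0, abs_of_nonpos (by linarith)]
    have h3 : exp (-3 : ℝ) ≤ 1 := exp_le_one_iff.2 (by norm_num)
    nlinarith
  · have h2 : -τ * exp τ ≤ 1 - exp τ := by
      have h5 := add_one_le_exp (-τ)
      have h4 : exp (-τ) * exp τ = 1 := by rw [← exp_add]; simp
      nlinarith [exp_pos τ]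
    have h3 : exp (-3) ≤ exp τ := exp_le_exp.2 h
    have h6 := exp_le_one_iff.2 h0
    rw [abs_of_nonpos h0, abs_of_nonneg (by linarith)]
    nlinarith

private theorem fs_term {x0 τ β : ℝ} (hx0 : 0 < x0) (hτ : τ ≠ 0) (h3 : -3 ≤ τ) :
    ell τ β ≤ fsq x0 τ β ∧ fsq x0 τ β ≤ ell τ β + 2 * exp (3 / 2) * √(x0 / |τ|) := by
  obtain ⟨r, hr⟩ : ∃ r, r = ‖1 - pt τ β‖ := ⟨_, rfl⟩
  have hr0 : 0 < r := by
    rw [hr]
    exact lt_of_le_of_ne (norm_nonneg _) (Ne.symm (TX1.one_sub_pt_ne hτ β))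
  have hge : exp (-3) * |τ| ≤ r := hr ▸ fs_norm_ge β h3
  unfold ell fsq
  rw [← hr]
  constructor
  · have h1 : log r = 1 / 2 * log (r ^ 2) := by
      rw [log_pow]
      push_cast
      ring
    rw [h1]
    apply mul_le_mul_of_nonneg_left _ (by norm_num)
    exact log_le_log (by positivity) (by nlinarith)
  · obtain ⟨v, hv⟩ : ∃ v, v = √(x0 / r) := ⟨_, rfl⟩
    have hv0 : 0 ≤ v := hv ▸ sqrt_nonneg _
    have hv2 : v ^ 2 = x0 / r := by rw [hv, sq_sqrt (by positivity)]
    have hrv : r * v ^ 2 = x0 := by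
      rw [hv2]
      field_simp
    have h1 : r ^ 2 + x0 ^ 2 ≤ (r * (1 + v) ^ 2) ^ 2 := by
      have h2 : r + x0 ≤ r * (1 + v) ^ 2 := by nlinarith [mul_nonneg hr0.le hv0]
      have h4 : r ^ 2 + x0 ^ 2 ≤ (r + x0) ^ 2 := by nlinarith [mul_pos hr0 hx0]
      exact h4.trans (pow_le_pow_left₀ (by positivity) h2 2)
    have h2 : log (r ^ 2 + x0 ^ 2) ≤ 2 * (log r + 2 * log (1 + v)) := by
      refine (log_le_log (by positivity) h1).trans (le_of_eq ?_)
      rw [log_pow, log_mul hr0.ne' (by positivity), log_pow]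
      push_cast
      ring
    have h5 : log (1 + v) ≤ v := by
      have := log_le_sub_one_of_pos (show 0 < 1 + v by linarith)
      linarith
    have h4 : v ≤ exp (3 / 2) * √(x0 / |τ|) := by
      have ht : 0 < |τ| := abs_pos.2 hτ
      rw [hv, exp_half, ← sqrt_mul (exp_pos 3).le]
      apply sqrt_le_sqrt
      rw [div_le_iff₀ hr0]
      have h6 : exp 3 * exp (-3) = 1 := by rw [← exp_add]; simp
      have h7 : x0 = exp 3 * (x0 / |τ|) * (exp (-3) * |τ|) := by
        have : exp 3 * (x0 / |τ|) * (exp (-3) * |τ|) = (exp 3 * exp (-3)) * x0 * (|τ| / |τ|) := by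
          ring
        rw [this, h6, div_self ht.ne']
        ring
      calc x0 = exp 3 * (x0 / |τ|) * (exp (-3) * |τ|) := h7
        _ ≤ exp 3 * (x0 / |τ|) * r := mul_le_mul_of_nonneg_left hge (by positivity)
    linarith

private theorem fs_pt (τ β : ℝ) : pt τ β = (exp τ : ℝ) * Complex.exp (β * Complex.I) := by
  unfold pt
  rw [Complex.exp_add, Complex.ofReal_exp]

private theorem fs_exp {a b : ℝ} (ha : a ≤ 9 / 2) (hb : b ≤ 9 / 2) :
    |exp a - exp b| ≤ exp (9 / 2) * |a - b| := by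
  wlog hab : b ≤ a generalizing a b
  · rw [abs_sub_comm, abs_sub_comm a b]
    exact this hb ha (le_of_not_ge hab)
  rw [abs_of_nonneg (by linarith [exp_le_exp.2 hab]), abs_of_nonneg (by linarith)]
  have h1 : exp b = exp a * exp (b - a) := by
    rw [← exp_add]
    congr 1
    ring
  have h2 := add_one_le_exp (b - a)
  have h3 : exp a ≤ exp (9 / 2) := exp_le_exp.2 ha
  rw [h1]
  have h4 : exp a - exp a * exp (b - a) ≤ exp a * (a - b) := by nlinarith [exp_pos a]
  exact h4.trans (mul_le_mul_of_nonneg_right h3 (by linarith))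

private theorem fs_lip {x0 : ℝ} (hx0 : 0 < x0) (β : ℝ) {a b : ℝ} (ha : a ≤ 9 / 2) (hb : b ≤ 9 / 2) :
    fsq x0 a β - fsq x0 b β ≤ exp (9 / 2) * |a - b| / x0 := by
  obtain ⟨p, hp⟩ : ∃ p, p = ‖1 - pt a β‖ := ⟨_, rfl⟩
  obtain ⟨q, hq⟩ : ∃ q, q = ‖1 - pt b β‖ := ⟨_, rfl⟩
  obtain ⟨d, hd⟩ : ∃ d, d = |exp a - exp b| := ⟨_, rfl⟩
  have hd0 : 0 ≤ d := hd ▸ abs_nonneg _
  have hp0 : 0 ≤ p := hp ▸ norm_nonneg _
  have hq0 : 0 ≤ q := hq ▸ norm_nonneg _
  have hpq : p ≤ q + d := by
    have h1 : (1 : ℂ) - pt a β = (1 - pt b β) + (pt b β - pt a β) := by ring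
    have h2 : ‖pt b β - pt a β‖ = d := by
      rw [fs_pt, fs_pt, ← sub_mul, norm_mul, Complex.norm_exp_ofReal_mul_I, mul_one,
        ← Complex.ofReal_sub, Complex.norm_real, Real.norm_eq_abs, hd, abs_sub_comm]
    rw [hp, h1, hq, ← h2]
    exact norm_add_le _ _
  obtain ⟨R, hR⟩ : ∃ R, R = √(p ^ 2 + x0 ^ 2) := ⟨_, rfl⟩
  obtain ⟨S, hS⟩ : ∃ S, S = √(q ^ 2 + x0 ^ 2) := ⟨_, rfl⟩
  have hR2 : R ^ 2 = p ^ 2 + x0 ^ 2 := by rw [hR, sq_sqrt (by positivity)]
  have hS2 : S ^ 2 = q ^ 2 + x0 ^ 2 := by rw [hS, sq_sqrt (by positivity)]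
  have hR0 : 0 < R := by rw [hR]; positivity
  have hS0 : 0 < S := by rw [hS]; positivity
  have hSx : x0 ≤ S := by
    rw [hS]
    exact le_sqrt_of_sq_le (by nlinarith [sq_nonneg q])
  have hSq : q ≤ S := by
    rw [hS]
    exact le_sqrt_of_sq_le (by nlinarith [sq_nonneg x0])
  have hRS : R ≤ S + d := by
    apply abs_le_of_sq_le_sq' _ (by positivity) |>.2
    rw [hR2]
    nlinarith
  have h1 : fsq x0 a β = log R := by
    unfold fsq
    rw [← hp, ← hR2, log_pow]
    push_cast
    ring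
  have h2 : fsq x0 b β = log S := by
    unfold fsq
    rw [← hq, ← hS2, log_pow]
    push_cast
    ring
  rw [h1, h2, ← log_div hR0.ne' hS0.ne']
  have h3 := log_le_sub_one_of_pos (div_pos hR0 hS0)
  have h4 : R / S - 1 ≤ d / x0 := by
    have : R / S - 1 = (R - S) / S := by
      field_simp
    rw [this]
    calc (R - S) / S ≤ d / S := by
          apply div_le_div_of_nonneg_right _ hS0.le
          linarith
      _ ≤ d / x0 := div_le_div_of_nonneg_left hd0 hx0 hSx
  have h5 : d / x0 ≤ exp (9 / 2) * |a - b| / x0 := by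
    apply div_le_div_of_nonneg_right _ hx0.le
    rw [hd]
    exact fs_exp ha hb
  linarith

private theorem fs_up {x0 τ β : ℝ} (hx0 : 0 < x0) (hx1 : x0 ≤ 1 / 8) (hτ : τ ≤ 9 / 2) :
    fsq x0 τ β ≤ 6 := by
  unfold fsq
  have h1 : ‖1 - pt τ β‖ ≤ 1 + exp (9 / 2) := by
    have := norm_sub_le (1 : ℂ) (pt τ β)
    rw [norm_one, TX1.pt_norm] at this
    have h2 : exp τ ≤ exp (9 / 2) := exp_le_exp.2 hτ
    linarith
  have h2 : ‖1 - pt τ β‖ ^ 2 + x0 ^ 2 ≤ exp 12 := by
    have h3 : (1 : ℝ) ≤ exp (9 / 2) := one_le_exp (by norm_num)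
    have h4 : ‖1 - pt τ β‖ ^ 2 ≤ (1 + exp (9 / 2)) ^ 2 := pow_le_pow_left₀ (norm_nonneg _) h1 2
    have h5 : exp 12 = exp (9 / 2) ^ 2 * exp 3 := by
      rw [← exp_nat_mul, ← exp_add]
      norm_num
    have h6 : (5 : ℝ) ≤ exp 3 := by
      have := add_one_le_exp (1 : ℝ)
      have h7 : exp (3 : ℝ) = exp 1 ^ 3 := by
        rw [← exp_nat_mul]
        norm_num
      rw [h7]
      nlinarith [pow_le_pow_left₀ (by norm_num : (0 : ℝ) ≤ 1 + 1) this 3]
    rw [h5]
    nlinarith [sq_nonneg (exp (9 / 2 : ℝ)), mul_le_mul_of_nonneg_left h6 (sq_nonneg (exp (9 / 2 : ℝ)))]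
  have h3 : log (‖1 - pt τ β‖ ^ 2 + x0 ^ 2) ≤ 12 := by
    rw [← log_exp 12]
    exact log_le_log (by positivity) h2
  linarith

private theorem fs_exp2 {ρ : ℝ} (h0 : 0 ≤ ρ) (h1 : ρ ≤ 3 / 4) :
    0 ≤ exp ρ + exp (-ρ) - 2 ∧ exp ρ + exp (-ρ) - 2 ≤ 2 * ρ ^ 2 := by
  have h2 := add_one_le_exp ρ
  have h3 := add_one_le_exp (-ρ)
  have h4 := Real.abs_exp_sub_one_sub_id_le (x := ρ) (by rw [abs_of_nonneg h0]; linarith)
  have h5 := Real.abs_exp_sub_one_sub_id_le (x := -ρ) (by rw [abs_neg, abs_of_nonneg h0]; linarith)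
  have h6 := (abs_le.1 h4).2
  have h7 := (abs_le.1 h5).2
  constructor
  · linarith
  · nlinarith

private theorem fs_sd {u u1 u2 : ℝ → ℝ} {K s ρ : ℝ} (h0 : 0 ≤ s - ρ) (h1 : s + ρ ≤ 3 / 2) (hρ : 0 ≤ ρ)
    (hu : ∀ t ∈ Icc (0 : ℝ) (3 / 2), HasDerivAt u (u1 t) t)
    (hu1 : ∀ t ∈ Icc (0 : ℝ) (3 / 2), HasDerivAt u1 (u2 t) t)
    (hu2 : ∀ t ∈ Icc (0 : ℝ) (3 / 2), |u2 t| ≤ K) : |u (s + ρ) + u (s - ρ) - 2 * u s| ≤ 2 * K * ρ ^ 2 := by
  have hK : 0 ≤ K := (abs_nonneg _).trans (hu2 0 ⟨le_refl _, by norm_num⟩)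
  have hlip : ∀ a ∈ Icc (0 : ℝ) (3 / 2), ∀ b ∈ Icc (0 : ℝ) (3 / 2), |u1 b - u1 a| ≤ K * |b - a| := by
    intro a ha b hb
    have := (convex_Icc (0 : ℝ) (3 / 2)).norm_image_sub_le_of_norm_hasDerivWithin_le
      (f := u1) (f' := u2) (C := K) (fun t ht => (hu1 t ht).hasDerivWithinAt)
      (fun t ht => by rw [Real.norm_eq_abs]; exact hu2 t ht) ha hb
    simpa [Real.norm_eq_abs] using this
  have hv : ∀ r ∈ Icc (0 : ℝ) ρ, HasDerivWithinAt (fun r => u (s + r) + u (s - r) - 2 * u s)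
      (u1 (s + r) - u1 (s - r)) (Icc 0 ρ) r := by
    intro r hr
    have e1 := hu (s + r) ⟨by linarith [hr.1, hr.2], by linarith [hr.1, hr.2]⟩
    have e2 := hu (s - r) ⟨by linarith [hr.1, hr.2], by linarith [hr.1, hr.2]⟩
    have d1 : HasDerivAt (fun r => u (s + r)) (u1 (s + r) * 1) r := by
      apply HasDerivAt.comp r e1
      simpa using (hasDerivAt_id r).const_add s
    have d2 : HasDerivAt (fun r => u (s - r)) (u1 (s - r) * (-1)) r := by
      apply HasDerivAt.comp r e2
      simpa using (hasDerivAt_id r).const_sub s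
    have d3 := ((d1.add d2).sub_const (2 * u s)).hasDerivWithinAt (s := Icc 0 ρ)
    refine d3.congr_deriv ?_
    ring
  have hb : ∀ r ∈ Icc (0 : ℝ) ρ, ‖u1 (s + r) - u1 (s - r)‖ ≤ 2 * K * ρ := by
    intro r hr
    rw [Real.norm_eq_abs]
    refine (hlip (s - r) ⟨by linarith [hr.1, hr.2], by linarith [hr.1, hr.2]⟩ (s + r)
      ⟨by linarith [hr.1, hr.2], by linarith [hr.1, hr.2]⟩).trans ?_
    have : |s + r - (s - r)| = 2 * r := by
      rw [show s + r - (s - r) = 2 * r by ring, abs_of_nonneg (by linarith [hr.1])]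
    rw [this]
    nlinarith [hr.2]
  have := (convex_Icc (0 : ℝ) ρ).norm_image_sub_le_of_norm_hasDerivWithin_le hv hb
    (left_mem_Icc.2 hρ) (right_mem_Icc.2 hρ)
  rw [Real.norm_eq_abs, Real.norm_eq_abs] at this
  simp only [add_zero, sub_zero] at this
  rw [abs_of_nonneg hρ] at this
  have e : u (s + ρ) + u (s - ρ) - 2 * u s = u (s + ρ) + u (s - ρ) - 2 * u s - (u s + u s - 2 * u s) := by
    ring
  rw [e]
  refine this.trans (le_of_eq ?_)
  ring

/-- the analytic part -/
private noncomputable def fsu (g : ℂ → ℂ) (s : ℝ) : ℝ := (g (pt s 0) - deriv g 0 * pt s 0).re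

private noncomputable def fsu1 (g : ℂ → ℂ) (s : ℝ) : ℝ := (pt s 0 * (deriv g (pt s 0) - deriv g 0)).re

private noncomputable def fsu2 (g : ℂ → ℂ) (s : ℝ) : ℝ :=
  (pt s 0 * (deriv g (pt s 0) - deriv g 0) + pt s 0 ^ 2 * deriv (deriv g) (pt s 0)).re

private theorem fs_pt0 (s : ℝ) : pt s 0 = Complex.exp (s : ℂ) := by
  unfold pt
  congr 1
  push_cast
  ring

private theorem fsu_der {g : ℂ → ℂ} (hg : ∃ ρ : ℝ, exp 3 < ρ ∧ DifferentiableOn ℂ g (Metric.ball 0 ρ))
    {s : ℝ} (hs : s ≤ 3) : HasDerivAt (fsu g) (fsu1 g s) s ∧ HasDerivAt (fsu1 g) (fsu2 g s) s := by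
  obtain ⟨ρ, hρ, hg⟩ := hg
  have hmem : Complex.exp (s : ℂ) ∈ Metric.ball (0 : ℂ) ρ := by
    rw [mem_ball_zero_iff, Complex.norm_exp, Complex.ofReal_re]
    exact lt_of_le_of_lt (exp_le_exp.2 hs) hρ
  have hnh : Metric.ball (0 : ℂ) ρ ∈ 𝓝 (Complex.exp (s : ℂ)) := Metric.isOpen_ball.mem_nhds hmem
  have hg1 : HasDerivAt g (deriv g (Complex.exp s)) (Complex.exp s) :=
    ((hg _ hmem).differentiableAt hnh).hasDerivAt
  have hg2 : HasDerivAt (deriv g) (deriv (deriv g) (Complex.exp s)) (Complex.exp s) :=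
    (((hg.deriv Metric.isOpen_ball) _ hmem).differentiableAt hnh).hasDerivAt
  have he := Complex.hasDerivAt_exp (s : ℂ)
  constructor
  · have h1 : HasDerivAt (fun z : ℂ => g (Complex.exp z) - deriv g 0 * Complex.exp z)
        (deriv g (Complex.exp s) * Complex.exp s - deriv g 0 * Complex.exp s) (s : ℂ) :=
      (HasDerivAt.comp (s : ℂ) hg1 he).sub (he.const_mul _)
    have h2 := h1.real_of_complex
    have e1 : fsu g = fun x : ℝ => (g (Complex.exp (x : ℂ)) - deriv g 0 * Complex.exp (x : ℂ)).re := by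
      funext x
      unfold fsu
      rw [fs_pt0]
    rw [e1]
    refine h2.congr_deriv ?_
    unfold fsu1
    rw [fs_pt0]
    congr 1
    ring
  · have h1 : HasDerivAt (fun z : ℂ => Complex.exp z * (deriv g (Complex.exp z) - deriv g 0))
        (Complex.exp s * (deriv g (Complex.exp s) - deriv g 0) +
          Complex.exp s * (deriv (deriv g) (Complex.exp s) * Complex.exp s)) (s : ℂ) :=
      he.mul ((HasDerivAt.comp (s : ℂ) hg2 he).sub_const _)
    have h2 := h1.real_of_complex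
    have e1 : fsu1 g = fun x : ℝ => (Complex.exp (x : ℂ) * (deriv g (Complex.exp (x : ℂ)) - deriv g 0)).re := by
      funext x
      unfold fsu1
      rw [fs_pt0]
    rw [e1]
    refine h2.congr_deriv ?_
    unfold fsu2
    rw [fs_pt0]
    congr 1
    ring

private theorem fsu_sd {th A h : ℝ} {n : ℕ} {x y : Fin n → ℝ} {g F : ℂ → ℂ} (hD : Dat th A h n x y g F)
    {s ρ : ℝ} (hρ : 0 ≤ ρ) (h0 : 0 ≤ s - ρ) (h1 : s + ρ ≤ 3 / 2) :
    |fsu g (s + ρ) + fsu g (s - ρ) - 2 * fsu g s| ≤ 4 * exp 3 * h * ρ ^ 2 := by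
  have h2 := fs_sd (u := fsu g) (u1 := fsu1 g) (u2 := fsu2 g) (K := 2 * exp 3 * h) h0 h1 hρ
    (fun t ht => (fsu_der hD.hg (by linarith [ht.2])).1)
    (fun t ht => (fsu_der hD.hg (by linarith [ht.2])).2) ?_
  · refine h2.trans (le_of_eq ?_)
    ring
  · intro t ht
    have hn : ‖pt t 0‖ = exp t := TX1.pt_norm t 0
    have hb := hD.hH (pt t 0) (by rw [hn]; exact exp_le_exp.2 (by linarith [ht.2]))
    unfold fsu2
    refine (Complex.abs_re_le_norm _).trans ((norm_add_le _ _).trans ?_)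
    rw [norm_mul, norm_mul, norm_pow, hn]
    have e1 : exp t ≤ exp 3 := exp_le_exp.2 (by linarith [ht.2])
    have e2 : exp t ^ 2 ≤ exp 3 := by
      rw [← exp_nat_mul]
      exact exp_le_exp.2 (by push_cast; linarith [ht.2])
    have e3 := mul_le_mul e1 hb.2.1 (norm_nonneg _) (exp_pos 3).le
    have e4 := mul_le_mul e2 hb.2.2 (norm_nonneg _) (exp_pos 3).le
    linarith

open Classical in
/-- one term of the decomposition -/
private noncomputable def ftm (x0 x y s : ℝ) : ℝ :=
  if NH x y then fsq x0 (s - x) (-y) + (if 0 < x then exp (s - x) * cos y else 0)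
  else VV x y s 0 + (if x < 0 then s - x else 0)

open Classical in
private theorem ftm_eq {x0 x y s : ℝ} (hx : x ≠ 0) :
    (if NH x y then 1 / 2 * log (‖1 - pt (s - x) (-y)‖ ^ 2 + x0 ^ 2) else ell (s - x) (-y)) +
      (if 0 < x then exp (s - x) * cos y else 0) = ftm x0 x y s := by
  unfold ftm
  by_cases h : NH x y
  · rw [if_pos h, if_pos h]
    rfl
  · rw [if_neg h, if_neg h]
    unfold VV
    rcases lt_or_gt_of_ne hx with h1 | h1
    · rw [if_neg (not_lt.2 h1.le), if_pos h1, if_pos h1, TX1.ell_neg]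
      rw [zero_sub, neg_sub]
      ring
    · rw [if_pos h1, if_neg (not_lt.2 h1.le), if_neg (not_lt.2 h1.le), zero_sub, cos_neg]
      ring

private theorem FS_dec {th A h : ℝ} {n : ℕ} {x y : Fin n → ℝ} {g F : ℂ → ℂ} (hD : Dat th A h n x y g F)
    (x0 s : ℝ) : FS x0 x y g s = A * exp s - fsu g s - ∑ i, ftm x0 (x i) (y i) s := by
  classical
  have h1 : (g (pt s 0)).re = fsu g s + (deriv g 0 * pt s 0).re := by
    unfold fsu
    rw [Complex.sub_re]
    ring
  have h2 : (deriv g 0 * pt s 0).re = -(A * exp s) + ∑ i, if 0 < x i then exp (s - x i) * cos (y i) else 0 := by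
    rw [hD.hg1, add_mul, Complex.add_re, Finset.sum_mul, Complex.re_sum]
    congr 1
    · rw [fs_pt0, ← Complex.ofReal_exp, ← Complex.ofReal_neg, ← Complex.ofReal_mul, Complex.ofReal_re]
      ring
    · refine Finset.sum_congr rfl fun i _ => ?_
      split_ifs with h3
      · rw [one_div_mul_eq_div, TX1.pt_div, fs_pt, Complex.re_ofReal_mul, Complex.exp_ofReal_mul_I_re,
          zero_sub, cos_neg]
      · rw [zero_mul, Complex.zero_re]
  unfold FS
  rw [h1, h2]
  have h3 : ∑ i, ftm x0 (x i) (y i) s = (∑ i, if NH (x i) (y i) then 1 / 2 * log (‖1 - pt (s - x i) (-(y i))‖ ^ 2 + x0 ^ 2)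
      else ell (s - x i) (-(y i))) + ∑ i, if 0 < x i then exp (s - x i) * cos (y i) else 0 := by
    rw [← Finset.sum_add_distrib]
    exact Finset.sum_congr rfl fun i _ => (ftm_eq (hD.hx i)).symm
  rw [h3]
  ring

open Classical in
theorem fs_bd : ∃ C : ℝ, 1 ≤ C ∧ ∀ (th A h x0 : ℝ) (n : ℕ) (x y : Fin n → ℝ) (g F : ℂ → ℂ), Dat th A h n x y g F →
    0 < x0 → x0 ≤ 1 / 8 →
    (∀ s, 0 ≤ s → s ≤ 3 / 2 → (∀ i, x i ≠ s) → FS x0 x y g s ≤ -log ‖F (pt s 0)‖ ∧
      -log ‖F (pt s 0)‖ ≤ FS x0 x y g s + C * ∑ i, if NH (x i) (y i) then √(x0 / |s - x i|) else 0) ∧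
    (∀ s ρ, 0 ≤ ρ → 0 ≤ s - ρ → s + ρ ≤ 3 / 2 →
      FS x0 x y g (s + ρ) + FS x0 x y g (s - ρ) - 2 * FS x0 x y g s ≤ C * A * ρ ^ 2 + C / x0 * ρ * nNH x y) ∧
    (∀ s, 0 ≤ s → s ≤ 3 / 2 → -(C * A) ≤ FS x0 x y g s) ∧ ContinuousOn (FS x0 x y g) (Icc 0 (3 / 2)) := by
  obtain ⟨C1, hC1, hvs⟩ := vb_s
  obtain ⟨C2, hC2, hva⟩ := vb_abs
  obtain ⟨C, hC⟩ : ∃ C : ℝ, C = C1 + C2 + 2 * exp (3 / 2) + 4 * exp 3 + 4 * exp (9 / 2) +
      (6 + exp (9 / 2)) * exp 6 + 10 := ⟨_, rfl⟩
  have E1 := exp_pos (3 / 2 : ℝ)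
  have E2 := exp_pos (3 : ℝ)
  have E3 := exp_pos (9 / 2 : ℝ)
  have E4 := exp_pos (6 : ℝ)
  have E5 : 0 < (6 + exp (9 / 2)) * exp 6 := by positivity
  refine ⟨C, by linarith, fun th A h x0 n x y g F hD hx0 hx1 => ?_⟩
  have hA : 0 < A := by
    by_contra hA
    have h1 := hD.hA
    have h2 : th * A ≤ 0 := mul_nonpos_of_nonneg_of_nonpos hD.hth.le (not_lt.1 hA)
    linarith
  have hthA : th * A ≤ A := by nlinarith [hD.hth1]
  have hkw : ∀ i, 0 < kw (x i) := fun i => kw_pos _
  have hKA : ∑ i, kw (x i) ≤ A := hD.hK.trans hthA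
  have hnNH : nNH x y ≤ exp 6 * A := by
    unfold nNH
    calc ∑ i, (if NH (x i) (y i) then (1 : ℝ) else 0) ≤ ∑ i, exp 6 * kw (x i) := by
          refine Finset.sum_le_sum fun i _ => ?_
          split_ifs with h1
          · have h2 := abs_le.1 h1.2
            unfold kw
            rw [← exp_add]
            apply one_le_exp
            have : -6 ≤ min (x i) (-(2 * x i)) := le_min (by linarith [h2.1]) (by linarith [h2.2])
            linarith
          · exact mul_nonneg E4.le (hkw i).le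
      _ = exp 6 * ∑ i, kw (x i) := by rw [Finset.mul_sum]
      _ ≤ exp 6 * A := mul_le_mul_of_nonneg_left hKA E4.le
  have hnNH0 : 0 ≤ nNH x y := by
    unfold nNH
    exact Finset.sum_nonneg fun i _ => by split_ifs <;> norm_num
  refine ⟨fun s hs0 hs1 hne => ?_, fun s ρ hρ hs0 hs1 => ?_, fun s hs0 hs1 => ?_, ?_⟩
  · -- comparison with `-log |F|`
    have hτ : ∀ i, s - x i ≠ 0 := fun i => sub_ne_zero.2 (Ne.symm (hne i))
    have hlog : log ‖F (pt s 0)‖ = (∑ i, ell (s - x i) (-(y i))) + (g (pt s 0)).re := by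
      rw [hD.hF _ (by rw [TX1.pt_norm]; exact exp_le_exp.2 (by linarith)), norm_mul, norm_prod,
        Complex.norm_exp]
      rw [log_mul, log_prod, log_exp]
      · congr 1
        refine Finset.sum_congr rfl fun i _ => ?_
        rw [TX1.pt_div, zero_sub]
        rfl
      · intro i _
        rw [TX1.pt_div]
        exact TX1.one_sub_pt_ne (hτ i) _
      · rw [Finset.prod_ne_zero_iff]
        intro i _
        rw [TX1.pt_div]
        exact TX1.one_sub_pt_ne (hτ i) _
      · exact (exp_pos _).ne'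
    have hterm : ∀ i, ell (s - x i) (-(y i)) ≤ (if NH (x i) (y i) then
          1 / 2 * log (‖1 - pt (s - x i) (-(y i))‖ ^ 2 + x0 ^ 2) else ell (s - x i) (-(y i))) ∧
        (if NH (x i) (y i) then 1 / 2 * log (‖1 - pt (s - x i) (-(y i))‖ ^ 2 + x0 ^ 2)
          else ell (s - x i) (-(y i))) ≤ ell (s - x i) (-(y i)) +
          C * (if NH (x i) (y i) then √(x0 / |s - x i|) else 0) := by
      intro i
      split_ifs with h1
      · have h2 := abs_le.1 h1.2
        have h3 := fs_term (β := -(y i)) hx0 (hτ i) (by linarith [h2.2])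
        refine ⟨h3.1, h3.2.trans ?_⟩
        have h4 : 2 * exp (3 / 2) * √(x0 / |s - x i|) ≤ C * √(x0 / |s - x i|) :=
          mul_le_mul_of_nonneg_right (by linarith) (sqrt_nonneg _)
        linarith
      · constructor
        · exact le_refl _
        · linarith
    rw [hlog]
    unfold FS
    have h1 := Finset.sum_le_sum fun i (_ : i ∈ Finset.univ) => (hterm i).1
    have h2 := Finset.sum_le_sum fun i (_ : i ∈ Finset.univ) => (hterm i).2
    rw [Finset.sum_add_distrib, ← Finset.mul_sum] at h2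
    constructor
    · linarith
    · linarith
  · -- second difference
    have hρ1 : ρ ≤ 3 / 4 := by linarith
    have hterm : ∀ i, -(ftm x0 (x i) (y i) (s + ρ) + ftm x0 (x i) (y i) (s - ρ) - 2 * ftm x0 (x i) (y i) s) ≤
        C1 * kw (x i) * ρ ^ 2 + (4 * exp (9 / 2) / x0 * ρ) * (if NH (x i) (y i) then (1 : ℝ) else 0) := by
      intro i
      unfold ftm
      by_cases h1 : NH (x i) (y i)
      · simp only [if_pos h1]
        have h2 := abs_le.1 h1.2
        have l1 := fs_lip hx0 (-(y i)) (a := s - x i) (b := s + ρ - x i) (by linarith [h2.1]) (by linarith [h2.1])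
        have l2 := fs_lip hx0 (-(y i)) (a := s - x i) (b := s - ρ - x i) (by linarith [h2.1]) (by linarith [h2.1])
        have a1 : |s - x i - (s + ρ - x i)| = ρ := by
          rw [show s - x i - (s + ρ - x i) = -ρ by ring, abs_neg, abs_of_nonneg hρ]
        have a2 : |s - x i - (s - ρ - x i)| = ρ := by
          rw [show s - x i - (s - ρ - x i) = ρ by ring, abs_of_nonneg hρ]
        rw [a1] at l1
        rw [a2] at l2
        have l3 : -((if 0 < x i then exp (s + ρ - x i) * cos (y i) else 0) +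
            (if 0 < x i then exp (s - ρ - x i) * cos (y i) else 0) -
            2 * (if 0 < x i then exp (s - x i) * cos (y i) else 0)) ≤ 2 * exp (9 / 2) * ρ / x0 := by
          have hpos : 0 ≤ 2 * exp (9 / 2) * ρ / x0 := by positivity
          by_cases h3 : 0 < x i
          · simp only [if_pos h3]
            have e1 : exp (s + ρ - x i) = exp (s - x i) * exp ρ := by
              rw [← exp_add]
              congr 1
              ring
            have e2 : exp (s - ρ - x i) = exp (s - x i) * exp (-ρ) := by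
              rw [← exp_add]
              congr 1
              ring
            have e3 := fs_exp2 hρ hρ1
            have e4 : exp (s - x i) ≤ exp (9 / 2) := exp_le_exp.2 (by linarith)
            have e5 : -(exp (s + ρ - x i) * cos (y i) + exp (s - ρ - x i) * cos (y i) -
                2 * (exp (s - x i) * cos (y i))) = exp (s - x i) * (exp ρ + exp (-ρ) - 2) * (-cos (y i)) := by
              rw [e1, e2]
              ring
            rw [e5]
            have e6 : exp (s - x i) * (exp ρ + exp (-ρ) - 2) * (-cos (y i)) ≤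
                exp (s - x i) * (exp ρ + exp (-ρ) - 2) * 1 :=
              mul_le_mul_of_nonneg_left (by linarith [neg_one_le_cos (y i)])
                (mul_nonneg (exp_pos _).le e3.1)
            have e7 : exp (s - x i) * (exp ρ + exp (-ρ) - 2) ≤ exp (9 / 2) * (2 * ρ ^ 2) :=
              mul_le_mul e4 e3.2 e3.1 E3.le
            have e8 : exp (9 / 2) * (2 * ρ ^ 2) ≤ 2 * exp (9 / 2) * ρ / x0 := by
              rw [le_div_iff₀ hx0]
              have e9 : ρ * x0 ≤ 1 := by nlinarith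
              have e10 : ρ ^ 2 * x0 ≤ ρ := by nlinarith
              nlinarith
            linarith
          · simp only [if_neg h3]
            linarith
        have l4 : 4 * exp (9 / 2) / x0 * ρ * 1 = exp (9 / 2) * ρ / x0 + exp (9 / 2) * ρ / x0 +
            2 * exp (9 / 2) * ρ / x0 := by ring
        have l5 : 0 ≤ C1 * kw (x i) * ρ ^ 2 := by
          have := hkw i
          positivity
        rw [l4]
        linarith
      · simp only [if_neg h1]
        have h2 := (abs_le.1 (hvs (x i) (y i) s ρ hρ hs0 hs1 h1)).1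
        have h3 : (if x i < 0 then s + ρ - x i else 0) + (if x i < 0 then s - ρ - x i else 0) -
            2 * (if x i < 0 then s - x i else 0) = 0 := by
          split_ifs <;> ring
        rw [mul_zero, add_zero]
        linarith
    have hsum := Finset.sum_le_sum fun i (_ : i ∈ Finset.univ) => hterm i
    rw [Finset.sum_add_distrib, ← Finset.mul_sum, Finset.sum_neg_distrib, Finset.sum_sub_distrib,
      Finset.sum_add_distrib, ← Finset.mul_sum] at hsum
    have hk : ∑ i, C1 * kw (x i) * ρ ^ 2 ≤ C1 * A * ρ ^ 2 := by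
      rw [← Finset.sum_mul, ← Finset.mul_sum]
      exact mul_le_mul_of_nonneg_right (mul_le_mul_of_nonneg_left hKA hC1.le) (sq_nonneg ρ)
    have hu := (abs_le.1 (fsu_sd hD hρ hs0 hs1)).1
    have he : A * exp (s + ρ) + A * exp (s - ρ) - 2 * (A * exp s) ≤ 2 * exp (3 / 2) * A * ρ ^ 2 := by
      have e1 : exp (s + ρ) = exp s * exp ρ := exp_add _ _
      have e2 : exp (s - ρ) = exp s * exp (-ρ) := by
        rw [← exp_add]
        congr 1
      have e3 := fs_exp2 hρ hρ1
      have e4 : exp s ≤ exp (3 / 2) := exp_le_exp.2 (by linarith)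
      have e5 : A * exp (s + ρ) + A * exp (s - ρ) - 2 * (A * exp s) =
          A * (exp s * (exp ρ + exp (-ρ) - 2)) := by
        rw [e1, e2]
        ring
      rw [e5]
      have e6 : exp s * (exp ρ + exp (-ρ) - 2) ≤ exp (3 / 2) * (2 * ρ ^ 2) :=
        mul_le_mul e4 e3.2 e3.1 E1.le
      nlinarith
    have hhA : h ≤ A := hD.hh.trans hthA
    have hu2 : 4 * exp 3 * h * ρ ^ 2 ≤ 4 * exp 3 * A * ρ ^ 2 :=
      mul_le_mul_of_nonneg_right (mul_le_mul_of_nonneg_left hhA (by positivity)) (sq_nonneg ρ)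
    rw [FS_dec hD, FS_dec hD, FS_dec hD]
    have hn : 4 * exp (9 / 2) / x0 * ρ * nNH x y ≤ C / x0 * ρ * nNH x y := by
      apply mul_le_mul_of_nonneg_right _ hnNH0
      apply mul_le_mul_of_nonneg_right _ hρ
      apply div_le_div_of_nonneg_right _ hx0.le
      linarith
    have hfin : C1 * A * ρ ^ 2 + 2 * exp (3 / 2) * A * ρ ^ 2 + 4 * exp 3 * A * ρ ^ 2 ≤ C * A * ρ ^ 2 := by
      have : C1 * A * ρ ^ 2 + 2 * exp (3 / 2) * A * ρ ^ 2 + 4 * exp 3 * A * ρ ^ 2 =
          (C1 + 2 * exp (3 / 2) + 4 * exp 3) * (A * ρ ^ 2) := by ring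
      rw [this, mul_assoc C A]
      exact mul_le_mul_of_nonneg_right (by linarith) (by positivity)
    unfold nNH at hn ⊢
    linarith
  · -- lower bound
    have hterm : ∀ i, ftm x0 (x i) (y i) s ≤ C2 * kw (x i) + (6 + exp (9 / 2)) *
        (if NH (x i) (y i) then (1 : ℝ) else 0) + (2 * (if x i < 0 then (1 : ℝ) else 0) + max (-(x i)) 0) := by
      intro i
      have k1 := hkw i
      have k2 : 0 ≤ C2 * kw (x i) := by positivity
      have k3 : 0 ≤ max (-(x i)) 0 := le_max_right _ _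
      have k4 : 0 ≤ (if x i < 0 then (1 : ℝ) else 0) := by split_ifs <;> norm_num
      unfold ftm
      by_cases h1 : NH (x i) (y i)
      · simp only [if_pos h1]
        have h2 := abs_le.1 h1.2
        have h3 := fs_up (τ := s - x i) (β := -(y i)) hx0 hx1 (by linarith [h2.1])
        have h4 : (if 0 < x i then exp (s - x i) * cos (y i) else 0) ≤ exp (9 / 2) := by
          split_ifs with h5
          · have e4 : exp (s - x i) ≤ exp (9 / 2) := exp_le_exp.2 (by linarith)
            nlinarith [cos_le_one (y i), exp_pos (s - x i)]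
          · exact E3.le
        linarith
      · simp only [if_neg h1]
        have h2 := (abs_le.1 (hva (x i) (y i) s hs0 hs1 h1).1).2
        have h3 : (if x i < 0 then s - x i else 0) ≤ 2 * (if x i < 0 then (1 : ℝ) else 0) + max (-(x i)) 0 := by
          split_ifs with h5
          · have := le_max_left (-(x i)) 0
            linarith
          · linarith
        linarith
    have hsum := Finset.sum_le_sum fun i (_ : i ∈ Finset.univ) => hterm i
    rw [Finset.sum_add_distrib, Finset.sum_add_distrib, Finset.sum_add_distrib, ← Finset.mul_sum,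
      ← Finset.mul_sum, ← Finset.mul_sum] at hsum
    have hnB := hD.hn
    unfold nB at hnB
    have hc := hD.hc
    have hu : fsu g s ≤ A := by
      have hn : ‖pt s 0‖ = exp s := TX1.pt_norm s 0
      have hb := (hD.hH (pt s 0) (by rw [hn]; exact exp_le_exp.2 (by linarith))).1
      unfold fsu
      exact (Complex.re_le_norm _).trans (hb.trans (hD.hh.trans hthA))
    have hexp : 0 ≤ A * exp s := by positivity
    rw [FS_dec hD]
    have q1 : C2 * ∑ i, kw (x i) ≤ C2 * A := mul_le_mul_of_nonneg_left hKA hC2.le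
    have q2 : (6 + exp (9 / 2)) * nNH x y ≤ (6 + exp (9 / 2)) * (exp 6 * A) :=
      mul_le_mul_of_nonneg_left hnNH (by positivity)
    unfold nNH at q2
    have q3 : (C2 + (6 + exp (9 / 2)) * exp 6 + 4) * A ≤ C * A :=
      mul_le_mul_of_nonneg_right (by linarith) hA.le
    nlinarith
  · -- continuity
    have hcu : ContinuousOn (fsu g) (Icc 0 (3 / 2)) := fun s hs =>
      (fsu_der hD.hg (by linarith [hs.2])).1.continuousAt.continuousWithinAt
    have hct : ∀ i, ContinuousOn (ftm x0 (x i) (y i)) (Icc 0 (3 / 2)) := by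
      intro i
      by_cases h1 : NH (x i) (y i)
      · have e1 : ftm x0 (x i) (y i) = fun s => fsq x0 (s - x i) (-(y i)) +
            (if 0 < x i then exp (s - x i) * cos (y i) else 0) := by
          funext s
          unfold ftm
          rw [if_pos h1]
        rw [e1]
        apply Continuous.continuousOn
        apply Continuous.add
        · unfold fsq
          apply Continuous.mul continuous_const
          apply Continuous.log
          · apply Continuous.add _ continuous_const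
            apply Continuous.pow
            apply Continuous.norm
            apply Continuous.sub continuous_const
            exact TX1.pt_cont.comp (by fun_prop : Continuous fun s : ℝ => (s - x i, -(y i)))
          · intro s
            positivity
        · split_ifs
          · fun_prop
          · exact continuous_const
      · have e1 : ftm x0 (x i) (y i) = fun s => VV (x i) (y i) s 0 + (if x i < 0 then s - x i else 0) := by
          funext s
          unfold ftm
          rw [if_neg h1]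
        rw [e1]
        intro s hs
        apply ContinuousAt.continuousWithinAt
        apply ContinuousAt.add (hva (x i) (y i) s hs.1 hs.2 h1).2
        split_ifs
        · fun_prop
        · exact continuousAt_const
    have e : FS x0 x y g = fun s => A * exp s - fsu g s - ∑ i, ftm x0 (x i) (y i) s :=
      funext fun s => FS_dec hD x0 s
    rw [e]
    apply ContinuousOn.sub (ContinuousOn.sub _ hcu)
    · exact continuousOn_finset_sum _ fun i _ => hct i
    · apply Continuous.continuousOn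
      fun_prop

end Pool.Agent.THX
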