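import Pool.Agent.THX.Dec
import Pool.Agent.THX.VBd

/-!
# THX, module Valley: `log |F|` near the valley direction

`dec` at `φ` and at `0`.  `-log |F (pt s φ)| + log |F (pt s 0)| = A exp s (cos φ - 1) + ∑ (VV s 0 - VV s φ) + Re (H 0) - Re (H φ)`.
* `A exp s (cos φ - 1) ≤ -A φ²/4`; `|H (pt s φ) - H (pt s 0)| ≤ h exp (3/2) |φ|` (derivative along the circle, `Dat.hH`).
* zeros not `NH`: `vb_theta`: sum `≤ C (XX |φ| + th A φ²)`.
* `NH` zeros: `VV s 0 - VV s φ = log (|1-w_0|/|1-w_φ|) (+ Re w_0 - Re w_φ)`, `|w_0 - w_φ| ≤ C |φ|`, `|1 - w_φ| ≥ c |s-x|`, so `≤ log (1 + C |φ|/|s-x|) + C |φ| ≤ C (√(|φ|/|s-x|) + |φ|)`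
  (`log (1+u) ≤ √u`).
Finally `C XX |φ| - (A/4 - C th A) φ² ≤ C' XX²/A` if `C th ≤ 1/8`.
`valley_id`: `dec` (`exp (s)` etc.).
-/

set_option autoImplicit false
set_option linter.all false

namespace Pool.Agent.THX

open Real MeasureTheory Set Filter Topology
open Pool.Agent.TX1 (pt ell TM TN Fac HM Gr)

private theorem valley_log {u : ℝ} (hu : 0 ≤ u) : log (1 + u) ≤ 2 * √u := by
  have h0 := Real.sqrt_nonneg u
  have h1 : 1 + u ≤ (1 + √u) ^ 2 := by nlinarith [Real.sq_sqrt hu]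
  have h2 := Real.log_le_sub_one_of_pos (show 0 < 1 + √u by positivity)
  calc log (1 + u) ≤ log ((1 + √u) ^ 2) := Real.log_le_log (by positivity) h1
    _ = 2 * log (1 + √u) := by rw [Real.log_pow]; norm_num
    _ ≤ 2 * √u := by linarith

private theorem valley_norm (τ β : ℝ) : ‖pt τ β‖ = exp τ := by
  rw [pt, Complex.norm_exp]
  simp

private theorem valley_pt (τ α β : ℝ) : ‖pt τ α - pt τ β‖ ≤ exp τ * |α - β| := by
  have h1 : pt τ α - pt τ β = pt τ β * (Complex.exp (Complex.I * ((α - β : ℝ) : ℂ)) - 1) := by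
    rw [mul_sub, mul_one, pt, pt, ← Complex.exp_add]
    congr 2
    push_cast
    ring
  rw [h1, norm_mul, valley_norm]
  have h2 := Real.norm_exp_I_mul_ofReal_sub_one_le (x := α - β)
  rw [Real.norm_eq_abs] at h2
  exact mul_le_mul_of_nonneg_left h2 (exp_pos τ).le

private theorem valley_lower {τ : ℝ} (h : |τ| ≤ 5) (β : ℝ) : |τ| / 6 ≤ ‖1 - pt τ β‖ := by
  have h1 : |1 - exp τ| ≤ ‖1 - pt τ β‖ := by
    have := abs_norm_sub_norm_le (1 : ℂ) (pt τ β)
    rwa [norm_one, valley_norm] at this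
  refine le_trans ?_ h1
  rcases le_or_gt 0 τ with h0 | h0
  · have h2 := Real.add_one_le_exp τ
    rw [abs_of_nonneg h0, abs_sub_comm, abs_of_nonneg (by linarith)]
    linarith
  · have h2 := Real.add_one_le_exp (-τ)
    have h3 : exp τ * exp (-τ) = 1 := by rw [← Real.exp_add, add_neg_cancel, Real.exp_zero]
    have h4 : exp τ < 1 := by rw [Real.exp_lt_one_iff]; exact h0
    rw [abs_of_neg h0] at h ⊢
    rw [abs_of_pos (by linarith)]
    have h5 := exp_pos τ
    have h6 : exp τ * (-τ + 1) ≤ 1 := (mul_le_mul_of_nonneg_left h2 h5.le).trans_eq h3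
    nlinarith

private theorem valley_ell {τ : ℝ} (h : |τ| ≤ 5) (h0 : τ ≠ 0) (h5 : exp τ ≤ 5) (α β : ℝ) :
    ell τ α - ell τ β ≤ 12 * √(|α - β| / |τ|) := by
  have hτ : 0 < |τ| := abs_pos.mpr h0
  have hα := valley_lower h α
  have hβ := valley_lower h β
  have hα0 : 0 < ‖1 - pt τ α‖ := lt_of_lt_of_le (by positivity) hα
  have hβ0 : 0 < ‖1 - pt τ β‖ := lt_of_lt_of_le (by positivity) hβ
  set t : ℝ := |α - β| / |τ| with ht
  have ht0 : 0 ≤ t := by positivity
  have h1 : ‖1 - pt τ α‖ ≤ ‖1 - pt τ β‖ * (1 + 30 * t) := by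
    have e1 : (1 : ℂ) - pt τ α = (1 - pt τ β) - (pt τ α - pt τ β) := by ring
    have e2 : ‖1 - pt τ α‖ ≤ ‖1 - pt τ β‖ + ‖pt τ α - pt τ β‖ := by
      rw [e1]; exact norm_sub_le _ _
    have e3 : ‖pt τ α - pt τ β‖ ≤ 5 * |α - β| :=
      (valley_pt τ α β).trans (mul_le_mul_of_nonneg_right h5 (abs_nonneg _))
    have e4 : |α - β| = t * |τ| := by rw [ht]; field_simp
    have e5 : 5 * |α - β| ≤ ‖1 - pt τ β‖ * (30 * t) := by
      rw [e4]
      nlinarith [mul_le_mul_of_nonneg_right hβ ht0]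
    calc ‖1 - pt τ α‖ ≤ ‖1 - pt τ β‖ + 5 * |α - β| := e2.trans (by linarith)
      _ ≤ ‖1 - pt τ β‖ * (1 + 30 * t) := by rw [mul_add, mul_one]; linarith
  have h2 : ell τ α ≤ ell τ β + log (1 + 30 * t) := by
    rw [ell, ell, ← Real.log_mul hβ0.ne' (by positivity)]
    exact Real.log_le_log hα0 h1
  have h3 := valley_log (show 0 ≤ 30 * t by positivity)
  have h4 : √(30 * t) ≤ 6 * √t := by
    rw [Real.sqrt_le_left (by positivity), mul_pow, Real.sq_sqrt ht0]
    nlinarith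
  linarith

private theorem valley_exp : exp (3 / 2) ≤ 5 := by
  have h1 : exp (3 / 2) ^ 2 = exp 1 ^ 3 := by
    rw [← Real.exp_nat_mul, ← Real.exp_nat_mul]
    norm_num
  have h2 := Real.exp_one_lt_d9
  have h3 := exp_pos (1 : ℝ)
  have h4 : exp 1 ^ 3 ≤ (2.7182818286 : ℝ) ^ 3 := pow_le_pow_left₀ h3.le h2.le 3
  refine le_of_pow_le_pow_left₀ (n := 2) (by norm_num) (by norm_num) ?_
  rw [h1]
  refine h4.trans ?_
  norm_num

private theorem valley_VV {x y s φ x0 : ℝ} (hx : |x| ≤ 3) (hs0 : 0 ≤ s) (hs : s ≤ 3 / 2)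
    (hne : x ≠ s) (hφ : |φ| ≤ x0) :
    VV x y s 0 - VV x y s φ ≤ 12 * (√(x0 / |s - x|) + x0) := by
  have hx0 : 0 ≤ x0 := (abs_nonneg _).trans hφ
  obtain ⟨hx1, hx2⟩ := abs_le.mp hx
  have hpos : 0 < |s - x| := abs_pos.mpr (sub_ne_zero.mpr hne.symm)
  have hsq : √(|φ| / |s - x|) ≤ √(x0 / |s - x|) :=
    Real.sqrt_le_sqrt (div_le_div_of_nonneg_right hφ hpos.le)
  have e0 : |0 - y - (φ - y)| = |φ| := by
    rw [← abs_neg]
    congr 1
    ring
  unfold VV
  split_ifs with h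
  · have h1 := valley_ell (τ := x - s) (by rw [abs_le]; constructor <;> linarith)
      (sub_ne_zero.mpr hne) ((Real.exp_le_one_iff.mpr (by linarith)).trans (by norm_num))
      (0 - y) (φ - y)
    rw [e0, abs_sub_comm x s] at h1
    linarith
  · push Not at h
    have h5 : exp (s - x) ≤ 5 := (Real.exp_le_exp.mpr (by linarith)).trans valley_exp
    have h1 := valley_ell (τ := s - x) (by rw [abs_le]; constructor <;> linarith)
      (sub_ne_zero.mpr hne.symm) h5 (0 - y) (φ - y)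
    rw [e0] at h1
    have h2 : cos (0 - y) - cos (φ - y) ≤ |φ| := by
      have h3 := valley_pt 0 (0 - y) (φ - y)
      rw [e0, Real.exp_zero, one_mul] at h3
      have h4 : (pt 0 (0 - y) - pt 0 (φ - y)).re = cos (0 - y) - cos (φ - y) := by
        rw [Complex.sub_re, pt, pt, Complex.exp_re, Complex.exp_re]
        simp
      rw [← h4]
      exact (Complex.re_le_norm _).trans h3
    have h6 : exp (s - x) * (cos (0 - y) - cos (φ - y)) ≤ 5 * |φ| :=
      (mul_le_mul_of_nonneg_left h2 (exp_pos _).le).trans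
        (mul_le_mul_of_nonneg_right h5 (abs_nonneg _))
    have h7 := Real.sqrt_nonneg (x0 / |s - x|)
    nlinarith

private theorem valley_cos {φ : ℝ} (h : |φ| ≤ 1) : cos φ - 1 ≤ -(φ ^ 2 / 4) := by
  have h1 := (abs_le.mp (Real.cos_bound h)).2
  have h2 : |φ| ^ 4 = φ ^ 2 * φ ^ 2 := by
    rw [show |φ| ^ 4 = (|φ| ^ 2) ^ 2 by ring, sq_abs]
    ring
  have h3 : φ ^ 2 ≤ 1 := by
    rw [← sq_abs]
    exact pow_le_one₀ (abs_nonneg _) h
  rw [h2] at h1
  nlinarith [sq_nonneg φ]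

open Classical in
theorem valley : ∃ C : ℝ, 1 ≤ C ∧ ∀ (th A h x0 : ℝ) (n : ℕ) (x y : Fin n → ℝ) (g F : ℂ → ℂ), Dat th A h n x y g F →
    C * th ≤ 1 → 0 < x0 → x0 ≤ 1 / 8 → ∀ s, 0 ≤ s → s ≤ 3 / 2 → (∀ i, x i ≠ s) → ∀ φ : ℝ, |φ| ≤ x0 →
      -log ‖F (pt s φ)‖ ≤ -log ‖F (pt s 0)‖ + C * (XX x y h ^ 2 / A)
        + C * ∑ i, if NH (x i) (y i) then √(x0 / |s - x i|) + x0 else 0 := by
  obtain ⟨C1, hC1, hth⟩ := vb_theta
  refine ⟨8 * C1 + 2 * (5 + C1) ^ 2 + 12, by nlinarith [sq_nonneg (5 + C1)], ?_⟩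
  intro th A h x0 n x y g F hD hCth hx0 hx08 s hs0 hs hne φ hφ
  have hA0 : 0 < A := by
    have h1 := hD.hA
    have h2 := hD.hth
    by_contra hn
    push Not at hn
    nlinarith [mul_nonneg h2.le (neg_nonneg.mpr hn)]
  have hdφ := (dec hD (by linarith) hne φ).2
  have hd0 := (dec hD (by linarith) hne 0).2
  rw [Real.cos_zero, mul_one] at hd0
  set S : ℝ := ∑ i, if NH (x i) (y i) then √(x0 / |s - x i|) + x0 else 0 with hS
  have hS0 : 0 ≤ S := Finset.sum_nonneg fun i _ => by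
    split_ifs
    · have := Real.sqrt_nonneg (x0 / |s - x i|)
      linarith
    · exact le_rfl
  have hdd : ∀ i, 0 ≤ dd (y i) := fun i => dd_nonneg _
  have hkw : ∀ i, 0 ≤ kw (x i) := fun i => (kw_pos _).le
  set D : ℝ := ∑ i, dd (y i) * kw (x i) with hDD
  set K : ℝ := ∑ i, kw (x i) with hKK
  have hXX : XX x y h = D + h := rfl
  have hD0 : 0 ≤ D := Finset.sum_nonneg fun i _ => mul_nonneg (hdd i) (hkw i)
  -- the zeros
  have hterm : ∀ i, VV (x i) (y i) s 0 - VV (x i) (y i) s φ ≤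
      C1 * (dd (y i) * kw (x i) * |φ| + kw (x i) * φ ^ 2) +
        12 * (if NH (x i) (y i) then √(x0 / |s - x i|) + x0 else 0) := by
    intro i
    split_ifs with hN
    · have h1 := valley_VV (y := y i) hN.2 hs0 hs (hne i) hφ
      have h2 : 0 ≤ C1 * (dd (y i) * kw (x i) * |φ| + kw (x i) * φ ^ 2) := by
        have := hdd i
        have := hkw i
        positivity
      linarith
    · have h1 := (abs_le.mp (hth (x i) (y i) s φ hs0 hs (hφ.trans hx08) hN)).1
      linarith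
  have hsum : ∑ i, VV (x i) (y i) s 0 - ∑ i, VV (x i) (y i) s φ ≤
      C1 * (D * |φ| + K * φ ^ 2) + 12 * S := by
    rw [← Finset.sum_sub_distrib]
    refine (Finset.sum_le_sum fun i _ => hterm i).trans (le_of_eq ?_)
    rw [Finset.sum_add_distrib, ← Finset.mul_sum, ← Finset.mul_sum, Finset.sum_add_distrib,
      ← Finset.sum_mul, ← Finset.sum_mul]
  -- the holomorphic part
  have hH : ‖(g (pt s 0) - deriv g 0 * pt s 0) - (g (pt s φ) - deriv g 0 * pt s φ)‖ ≤
      5 * h * |φ| := by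
    obtain ⟨ρ, hρ, hg⟩ := hD.hg
    have hdiff : ∀ z ∈ Metric.closedBall (0 : ℂ) (exp 2),
        HasDerivAt (fun z => g z - deriv g 0 * z) (deriv g z - deriv g 0) z := by
      intro z hz
      rw [mem_closedBall_zero_iff] at hz
      have hz' : z ∈ Metric.ball (0 : ℂ) ρ := by
        rw [mem_ball_zero_iff]
        have : exp 2 < exp 3 := Real.exp_lt_exp.mpr (by norm_num)
        linarith
      have h1 : DifferentiableAt ℂ g z := hg.differentiableAt (Metric.isOpen_ball.mem_nhds hz')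
      have h2 := h1.hasDerivAt.sub ((hasDerivAt_id z).const_mul (deriv g 0))
      rw [mul_one] at h2
      exact h2
    have hmem : ∀ θ : ℝ, pt s θ ∈ Metric.closedBall (0 : ℂ) (exp 2) := by
      intro θ
      rw [mem_closedBall_zero_iff, valley_norm]
      exact Real.exp_le_exp.mpr (by linarith)
    have h1 := (convex_closedBall (0 : ℂ) (exp 2)).norm_image_sub_le_of_norm_hasDerivWithin_le
      (C := h) (fun z hz => (hdiff z hz).hasDerivWithinAt)
      (fun z hz => (hD.hH z (by rwa [mem_closedBall_zero_iff] at hz)).2.1) (hmem φ) (hmem 0)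
    refine h1.trans ?_
    have h2 := valley_pt s 0 φ
    rw [zero_sub, abs_neg] at h2
    have h3 : exp s ≤ 5 := (Real.exp_le_exp.mpr hs).trans valley_exp
    calc h * ‖pt s 0 - pt s φ‖ ≤ h * (exp s * |φ|) := mul_le_mul_of_nonneg_left h2 hD.hh0
      _ ≤ h * (5 * |φ|) :=
        mul_le_mul_of_nonneg_left (mul_le_mul_of_nonneg_right h3 (abs_nonneg _)) hD.hh0
      _ = 5 * h * |φ| := by ring
  have hre : (g (pt s 0) - deriv g 0 * pt s 0).re - (g (pt s φ) - deriv g 0 * pt s φ).re ≤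
      5 * h * |φ| := by
    rw [← Complex.sub_re]
    exact (Complex.re_le_norm _).trans hH
  -- the dipole
  have hcos := valley_cos (φ := φ) (by linarith)
  have hes : 1 ≤ exp s := Real.one_le_exp hs0
  have hdip : A * exp s * cos φ - A * exp s ≤ -(A * (φ ^ 2 / 4)) := by
    have h1 : A * exp s * (cos φ - 1) ≤ A * exp s * (-(φ ^ 2 / 4)) :=
      mul_le_mul_of_nonneg_left hcos (by positivity)
    have h2 : A * (φ ^ 2 / 4) ≤ A * exp s * (φ ^ 2 / 4) := by
      have : A * 1 ≤ A * exp s := mul_le_mul_of_nonneg_left hes hA0.le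
      exact mul_le_mul_of_nonneg_right (by linarith) (by positivity)
    linarith
  have hK := hD.hK
  have hC1th : C1 * th ≤ 1 / 8 := by
    have h1 := hD.hth
    nlinarith [mul_nonneg (sq_nonneg (5 + C1)) h1.le]
  -- conclusion
  have hKφ : C1 * (K * φ ^ 2) ≤ A * (φ ^ 2 / 8) := by
    have h1 : C1 * K ≤ A / 8 := by
      calc C1 * K ≤ C1 * (th * A) := mul_le_mul_of_nonneg_left hK hC1.le
        _ = (C1 * th) * A := by ring
        _ ≤ (1 / 8) * A := mul_le_mul_of_nonneg_right hC1th hA0.le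
        _ = A / 8 := by ring
    nlinarith [mul_le_mul_of_nonneg_right h1 (sq_nonneg φ)]
  have hquad : (5 + C1) * XX x y h * |φ| - A * (φ ^ 2 / 8) ≤
      2 * (5 + C1) ^ 2 * (XX x y h ^ 2 / A) := by
    have h1 : 2 * (5 + C1) ^ 2 * (XX x y h ^ 2 / A) - ((5 + C1) * XX x y h * |φ| - A * (φ ^ 2 / 8))
        = 2 / A * ((5 + C1) * XX x y h - A * |φ| / 4) ^ 2 := by
      rw [← sq_abs φ]
      field_simp
      ring
    have h2 : 0 ≤ 2 / A * ((5 + C1) * XX x y h - A * |φ| / 4) ^ 2 := by positivity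
    linarith
  have hXA : 0 ≤ XX x y h ^ 2 / A := by positivity
  have hXφ : C1 * (D * |φ|) + 5 * h * |φ| ≤ (5 + C1) * XX x y h * |φ| := by
    rw [hXX]
    have h1 := hD.hh0
    have h2 := abs_nonneg φ
    nlinarith [mul_nonneg hD0 h2, mul_nonneg (mul_nonneg hC1.le h1) h2]
  have hmain : -log ‖F (pt s φ)‖ + log ‖F (pt s 0)‖ ≤
      2 * (5 + C1) ^ 2 * (XX x y h ^ 2 / A) + 12 * S := by
    rw [hdφ, hd0]
    linarith
  have hfin : 2 * (5 + C1) ^ 2 * (XX x y h ^ 2 / A) + 12 * S ≤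
      (8 * C1 + 2 * (5 + C1) ^ 2 + 12) * (XX x y h ^ 2 / A) +
        (8 * C1 + 2 * (5 + C1) ^ 2 + 12) * S := by
    have h1 : 0 ≤ (8 * C1 + 12) * (XX x y h ^ 2 / A) := by positivity
    have h2 : 0 ≤ (8 * C1 + 2 * (5 + C1) ^ 2) * S := by positivity
    linarith
  linarith

end Pool.Agent.THX
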