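import Pool.Agent.THX.Ident
import Pool.Agent.THX.Valley
import Pool.Agent.THX.Off
import Pool.Agent.THX.Smooth
import Pool.Agent.THX.Hump
import Pool.Agent.THX.OneD

/-!
# THX, module Local: the inequality for one window

Given `ε`.  `x0` small (depending on `ε`), then `off` gives `c1, C, del`, then `oneD` gives `k0, t0`, then `th` small.
`H s = FS x0 x y g s + C XX²/A - c mh l F s`, `S s = C ∑_{NH} (2 √(x0/|s-x i|) + x0)`, `P = {HU}`, `Q = {NH}` (`|x i| ≤ 3` means `HU` or `NH`), `#(P ∪ Q) ≤ exp 6 ∑ kw ≤ exp 6 th A`.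
(h1) for `s ≠ x i`: `θ` with `‖F (pt s θ)‖ ≤ exp (-(c TM F s))`, so `c TM F s ≤ -log ‖F (pt s θ)‖` (`F ≠ 0` there by `dec`); by periodicity `|θ| ≤ π`.  If `|θ| ≤ x0`: `valley`, `fs_bd` and
`mh_le_TM` give `-S ≤ H`.  Else `cos θ ≤ cos x0` and `off`: one of the two sums is `≥ c1 A/2`.
(h2) `fs_bd` and `hump` (`c ≥ 1/4`), (h3) `fs_bd`, `mh_near`, (h4) `Clean`.
`oneD`: `∫ max (-H) 0 ≤ 2 ∫ S + ε' nNH`, `∫_0^el √(x0/|s-x|) ds ≤ 4 √(el x0)...`.
Then `c mh ≤ FS + C XX²/A + max (-H) 0 ≤ -log ‖F (pt s 0)‖ + C XX²/A + max (-H) 0` (a.e. `s`), multiply by `KK l exp (-(l s))`, integrate, `ident`.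
-/

set_option autoImplicit false
set_option linter.all false

namespace Pool.Agent.THX

open Real MeasureTheory Set Filter Topology
open Pool.Agent.TX1 (pt ell TM TN Fac HM Gr)

private theorem lc_sqrt_add {a b : ℝ} (hb : 0 ≤ b) : √(a + b) ≤ √a + √b := by
  rcases le_total 0 a with h | h
  · rw [Real.sqrt_le_left (by positivity)]
    nlinarith [Real.sq_sqrt h, Real.sq_sqrt hb, mul_nonneg (Real.sqrt_nonneg a) (Real.sqrt_nonneg b)]
  · rw [Real.sqrt_eq_zero_of_nonpos h, zero_add]
    exact Real.sqrt_le_sqrt (by linarith)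

private theorem lc_der {u : ℝ} (hu : u ≠ 0) :
    HasDerivAt (fun u : ℝ => 2 * (√u - √(-u))) (1 / √|u|) u := by
  have h1 := Real.hasDerivAt_sqrt hu
  have h2 := (Real.hasDerivAt_sqrt (neg_ne_zero.2 hu)).comp u (hasDerivAt_neg u)
  have h3 := (h1.sub h2).const_mul 2
  refine h3.congr_deriv ?_
  rcases lt_or_gt_of_ne hu with h | h
  · rw [Real.sqrt_eq_zero_of_nonpos h.le, abs_of_neg h]
    have : 0 < √(-u) := Real.sqrt_pos.2 (by linarith)
    field_simp
    ring
  · rw [Real.sqrt_eq_zero_of_nonpos (show -u ≤ 0 by linarith), abs_of_pos h]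
    have : 0 < √u := Real.sqrt_pos.2 h
    field_simp
    ring

private theorem lc_cont : Continuous (fun u : ℝ => 2 * (√u - √(-u))) := by fun_prop

private theorem lc_ii0 (a b : ℝ) : IntervalIntegrable (fun u : ℝ => 1 / √|u|) volume a b := by
  have key : ∀ a b : ℝ, IntervalIntegrable (fun u : ℝ => 1 / √|u|) volume a b := by
    have hp : ∀ b : ℝ, IntervalIntegrable (fun u : ℝ => 1 / √|u|) volume 0 b := by
      intro b
      refine intervalIntegral.intervalIntegrable_deriv_of_nonneg (g := fun u : ℝ => 2 * (√u - √(-u)))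
        lc_cont.continuousOn (fun u hu => lc_der ?_) (fun u hu => by positivity)
      rcases le_total 0 b with h | h
      · rw [min_eq_left h, max_eq_right h] at hu
        exact (ne_of_gt hu.1)
      · rw [min_eq_right h, max_eq_left h] at hu
        exact (ne_of_lt hu.2)
    intro a b
    exact (hp a).symm.trans (hp b)
  exact key a b

private theorem lc_ii1 (x a b : ℝ) : IntervalIntegrable (fun s : ℝ => 1 / √|s - x|) volume a b := by
  have := (lc_ii0 (a - x) (b - x)).comp_sub_right x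
  simpa using this

private theorem lc_eq {x0 : ℝ} (h0 : 0 ≤ x0) (x s : ℝ) : √(x0 / |s - x|) = √x0 * (1 / √|s - x|) := by
  rw [Real.sqrt_div h0]
  ring

private theorem lc_ii {x0 : ℝ} (h0 : 0 ≤ x0) (x a b : ℝ) :
    IntervalIntegrable (fun s : ℝ => √(x0 / |s - x|)) volume a b := by
  have : (fun s : ℝ => √(x0 / |s - x|)) = fun s => √x0 * (1 / √|s - x|) := funext fun s => lc_eq h0 x s
  rw [this]
  exact (lc_ii1 x a b).const_mul _

private theorem lc_int {x0 el : ℝ} (h0 : 0 ≤ x0) (he : 0 ≤ el) (he1 : el ≤ 3 / 2) (x : ℝ) :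
    ∫ s in (0 : ℝ)..el, √(x0 / |s - x|) ≤ 5 * √x0 := by
  have h1 : ∫ s in (0 : ℝ)..el, √(x0 / |s - x|) = √x0 * ∫ s in (0 : ℝ)..el, 1 / √|s - x| := by
    rw [← intervalIntegral.integral_const_mul]
    exact intervalIntegral.integral_congr (fun s _ => lc_eq h0 x s)
  have h2 : ∫ s in (0 : ℝ)..el, 1 / √|s - x| = ∫ u in (0 - x)..(el - x), 1 / √|u| := by
    rw [intervalIntegral.integral_comp_sub_right (fun u : ℝ => 1 / √|u|) x]
  have h3 : ∫ u in (0 - x)..(el - x), 1 / √|u| = 2 * (√(el - x) - √(-(el - x))) - 2 * (√(0 - x) - √(-(0 - x))) := by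
    refine MeasureTheory.integral_eq_of_hasDerivAt_off_countable_of_le (fun u : ℝ => 2 * (√u - √(-u))) _ (by linarith)
      (Set.countable_singleton (0 : ℝ)) lc_cont.continuousOn (fun u hu => lc_der hu.2) (lc_ii0 _ _)
  rw [h1, h2, h3]
  have h4 : √(el - x) ≤ √(0 - x) + √el := by
    have := lc_sqrt_add (a := 0 - x) he
    have e : 0 - x + el = el - x := by ring
    rwa [e] at this
  have h5 : √(-(0 - x)) ≤ √(-(el - x)) + √el := by
    have := lc_sqrt_add (a := -(el - x)) he
    have e : -(el - x) + el = -(0 - x) := by ring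
    rwa [e] at this
  have h6 : √el ≤ 5 / 4 := by
    rw [Real.sqrt_le_left (by norm_num)]
    linarith
  have h7 := Real.sqrt_nonneg x0
  nlinarith

private theorem lc_per (s θ : ℝ) : ∃ θ' : ℝ, |θ'| ≤ π ∧ pt s θ' = pt s θ := by
  refine ⟨Complex.arg (pt 0 θ), Complex.abs_arg_le_pi _, ?_⟩
  have h1 : ‖pt 0 θ‖ = 1 := by rw [Pool.Agent.TX1.pt_norm]; simp
  have h2 : pt 0 θ = Complex.exp ((Complex.arg (pt 0 θ) : ℂ) * Complex.I) := by
    have := Complex.norm_mul_exp_arg_mul_I (pt 0 θ)
    rw [h1] at this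
    simpa using this.symm
  have h3 : ∀ t : ℝ, pt s t = Complex.exp (s : ℂ) * Complex.exp ((t : ℂ) * Complex.I) := fun t => by
    unfold pt
    rw [Complex.exp_add]
  rw [h3, h3, ← h2]
  unfold pt
  simp

private theorem lc_card {n : ℕ} (x : Fin n → ℝ) (R : Finset (Fin n)) (hR : ∀ i ∈ R, |x i| ≤ 3) :
    (R.card : ℝ) ≤ exp 6 * ∑ i, kw (x i) := by
  have h1 : (R.card : ℝ) = ∑ i ∈ R, (1 : ℝ) := by simp
  rw [h1, Finset.mul_sum]
  calc ∑ i ∈ R, (1 : ℝ) ≤ ∑ i ∈ R, exp 6 * kw (x i) := by
        refine Finset.sum_le_sum fun i hi => ?_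
        unfold kw
        rw [← Real.exp_add]
        refine Real.one_le_exp ?_
        have := abs_le.1 (hR i hi)
        have : -6 ≤ min (x i) (-(2 * x i)) := le_min (by linarith) (by linarith)
        linarith
    _ ≤ ∑ i, exp 6 * kw (x i) := by
        refine Finset.sum_le_sum_of_subset_of_nonneg (Finset.subset_univ _) fun i _ _ => ?_
        have := kw_pos (x i)
        positivity

open Classical in
theorem local_ineq {ε : ℝ} (hε : 0 < ε) : ∃ (C t0 del : ℝ) (k0 : ℕ), 0 ≤ C ∧ 0 < t0 ∧ 0 < del ∧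
    ∀ (l c el th A h : ℝ) (n : ℕ) (x y : Fin n → ℝ) (g F : ℂ → ℂ), 1 ≤ l → l ≤ 5 / 4 → 1 / 2 - del ≤ c → c ≤ 1 →
      1 / 2 ≤ el → el ≤ 3 / 2 → Differentiable ℂ F → Dat th A h n x y g F → th ≤ t0 → (∀ i, x i ≠ el) → Clean k0 x A el →
      (∀ s ∈ Icc 0 el, ∃ θ : ℝ, ‖F (pt s θ)‖ ≤ exp (-(c * TM F s))) →
      (c * KK l - 1) * (∫ s in (0 : ℝ)..el, exp (-(l * s)) * mh l F s) ≤
        -(2 * π * (∑ i, if 0 < x i ∧ x i < el then exp (-(l * x i)) * gam l (y i) else 0))
        + (exp (-(l * el)) * TH l F el 0 - TH l F 0 0) + C * (XX x y h ^ 2 / A) + ε * nNH x y := by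
  obtain ⟨Cv, hCv1, hval⟩ := valley
  obtain ⟨Cs, hCs1, hfs⟩ := fs_bd
  obtain ⟨Ch, hCh1, hhu⟩ := hump
  obtain ⟨Cm, hCm1, hmn⟩ := mh_near
  set CS : ℝ := max Cv Cs with hCS
  have hCSv : Cv ≤ CS := le_max_left _ _
  have hCSs : Cs ≤ CS := le_max_right _ _
  have hCS1 : 1 ≤ CS := hCv1.trans hCSv
  set x0 : ℝ := min (1 / 8) ((ε / (192 * CS)) ^ 2) with hx0d
  have hx0 : 0 < x0 := lt_min (by norm_num) (by positivity)
  have hx08 : x0 ≤ 1 / 8 := min_le_left _ _
  have hsx : √x0 ≤ ε / (192 * CS) := by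
    rw [Real.sqrt_le_left (by positivity)]
    exact min_le_right _ _
  have hxs : x0 ≤ √x0 := by
    refine Real.le_sqrt_of_sq_le ?_
    nlinarith
  obtain ⟨Co, t1, d1, c1, hCo, ht1, hd1, hc1, hoff⟩ := off hx0 hx08
  set C1 : ℝ := Cs / x0 + Cs + Ch + 10 + Cm with hC1
  have hC1p : 0 < C1 := by
    have : 0 < Cs / x0 := by positivity
    linarith
  obtain ⟨k0, t2, ht2, hone⟩ := oneD (C := Co) (C1 := C1) (c1 := c1 / 2) (c2 := 1) (ε := ε / 8) hCo hC1p
    (by linarith) one_pos (by linarith)
  refine ⟨6 * Cv, min (1 / Cv) (min t1 (t2 / exp 6)), min d1 (1 / 4), k0, by linarith,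
    lt_min (by positivity) (lt_min ht1 (by positivity)), lt_min hd1 (by norm_num), ?_⟩
  intro l c el th A h n x y g F hl1 hl2 hc hcle hel1 hel2 hF hD hth hxe hclean hmin
  have hthv : th ≤ 1 / Cv := hth.trans (min_le_left _ _)
  have hth1 : th ≤ t1 := hth.trans ((min_le_right _ _).trans (min_le_left _ _))
  have hth2 : th ≤ t2 / exp 6 := hth.trans ((min_le_right _ _).trans (min_le_right _ _))
  have hcd : 1 / 2 - d1 ≤ c := by
    have := min_le_left d1 (1 / 4 : ℝ)
    linarith
  have hc4 : 1 / 4 ≤ c := by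
    have := min_le_right d1 (1 / 4 : ℝ)
    linarith
  have hthp := hD.hth
  have hA : 0 < A := by
    by_contra hA
    have := hD.hA
    have h2 : th * A ≤ 0 := mul_nonpos_of_nonneg_of_nonpos hthp.le (not_lt.1 hA)
    linarith
  have hCvth : Cv * th ≤ 1 := by
    have := mul_le_mul_of_nonneg_left hthv (show 0 ≤ Cv by linarith)
    rwa [mul_one_div_cancel (by linarith)] at this
  obtain ⟨hf1, hf2, hf3, hf4⟩ := hfs th A h x0 n x y g F hD hx0 hx08
  set W : ℝ := XX x y h ^ 2 / A with hW
  have hW0 : 0 ≤ W := by positivity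
  set H : ℝ → ℝ := fun s => FS x0 x y g s + Cv * W - c * mh l F s with hH
  set S : ℝ → ℝ := fun s => CS * ∑ i, if NH (x i) (y i) then 2 * √(x0 / |s - x i|) + x0 else 0 with hS
  set P : Finset (Fin n) := Finset.univ.filter (fun i => HU (x i) (y i)) with hP
  set Q : Finset (Fin n) := Finset.univ.filter (fun i => NH (x i) (y i)) with hQ
  have hQc : (Q.card : ℝ) = nNH x y := by
    unfold nNH
    rw [hQ, Finset.card_filter]
    push_cast
    rfl
  have hmemP : ∀ i, i ∈ P ↔ HU (x i) (y i) := fun i => by simp [hP]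
  have hmemQ : ∀ i, i ∈ Q ↔ NH (x i) (y i) := fun i => by simp [hQ]
  have hPx : ∀ i ∈ P, |x i| ≤ 3 := fun i hi => ((hmemP i).1 hi).2
  have hQx : ∀ i ∈ Q, |x i| ≤ 3 := fun i hi => ((hmemQ i).1 hi).2
  have hcard : ((P ∪ Q).card : ℝ) ≤ t2 * A := by
    have h1 := lc_card x (P ∪ Q) (fun i hi => by
      rcases Finset.mem_union.1 hi with h | h
      · exact hPx i h
      · exact hQx i h)
    have h2 := mul_le_mul_of_nonneg_left hD.hK (exp_pos 6).le
    have h3 : exp 6 * (th * A) ≤ t2 * A := by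
      have h4 : exp 6 * th ≤ t2 := by
        rw [le_div_iff₀ (exp_pos 6)] at hth2
        linarith
      have := mul_le_mul_of_nonneg_right h4 hA.le
      linarith
    linarith
  have hdisj : Disjoint P Q := by
    rw [Finset.disjoint_left]
    intro i hi hj
    have h1 := ((hmemP i).1 hi).1
    have h2 := ((hmemQ i).1 hj).1
    linarith
  have hmhc : ContinuousOn (mh l F) (Icc 0 el) :=
    (mh_contOn hl1 hD).mono (Icc_subset_Icc le_rfl (by linarith))
  have hHc : ContinuousOn H (Icc 0 el) := by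
    refine ContinuousOn.sub (ContinuousOn.add (hf4.mono (Icc_subset_Icc le_rfl hel2)) continuousOn_const) ?_
    exact continuousOn_const.mul hmhc
  have hS0 : ∀ s, 0 ≤ S s := by
    intro s
    refine mul_nonneg (by linarith) (Finset.sum_nonneg fun i _ => ?_)
    split_ifs
    · positivity
    · exact le_rfl
  have hSterm : ∀ i, IntervalIntegrable (fun s => if NH (x i) (y i) then 2 * √(x0 / |s - x i|) + x0 else 0) volume 0 el := by
    intro i
    by_cases hi : NH (x i) (y i)
    · simp only [hi, if_true]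
      exact ((lc_ii hx0.le (x i) 0 el).const_mul 2).add intervalIntegrable_const
    · simp only [hi, if_false]
      exact intervalIntegrable_const
  have hSi : IntervalIntegrable S volume 0 el := by
    refine IntervalIntegrable.const_mul ?_ _
    have := IntervalIntegrable.sum Finset.univ (fun i _ => hSterm i)
    refine this.congr fun s _ => ?_
    simp
  have hSint : ∫ s in (0 : ℝ)..el, S s ≤ CS * (12 * √x0) * nNH x y := by
    rw [intervalIntegral.integral_const_mul, intervalIntegral.integral_finset_sum (fun i _ => hSterm i)]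
    have : ∀ i, ∫ s in (0 : ℝ)..el, (if NH (x i) (y i) then 2 * √(x0 / |s - x i|) + x0 else 0) ≤
        (12 * √x0) * if NH (x i) (y i) then (1 : ℝ) else 0 := by
      intro i
      by_cases hi : NH (x i) (y i)
      · simp only [hi, if_true]
        rw [intervalIntegral.integral_add ((lc_ii hx0.le (x i) 0 el).const_mul 2) intervalIntegrable_const,
          intervalIntegral.integral_const_mul, intervalIntegral.integral_const]
        have h1 := lc_int hx0.le (show 0 ≤ el by linarith) hel2 (x i)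
        simp only [sub_zero, smul_eq_mul]
        nlinarith
      · simp only [hi, if_false]
        simp
    have h2 := Finset.sum_le_sum (s := Finset.univ) fun i _ => this i
    rw [← Finset.mul_sum] at h2
    have h3 := mul_le_mul_of_nonneg_left h2 (show 0 ≤ CS by linarith)
    unfold nNH
    rw [mul_assoc]
    exact h3
  have hkey := hone n P Q x A el H S hA hel1 hel2 hcard hdisj hQx hHc hS0 hSi ?_ ?_ ?_ ?_
  rotate_left
  · -- h1
    intro s hs hne
    obtain ⟨θ0, hθ0⟩ := hmin s hs
    obtain ⟨θ, hθπ, hθ⟩ := lc_per s θ0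
    rw [← hθ] at hθ0
    have hs32 : s ≤ 3 / 2 := hs.2.trans hel2
    obtain ⟨hnz, -⟩ := dec hD (by linarith) hne θ
    have hlog : c * TM F s ≤ -log ‖F (pt s θ)‖ := by
      have := Real.log_le_log (norm_pos_iff.2 hnz) hθ0
      rw [Real.log_exp] at this
      linarith
    by_cases hθx : |θ| ≤ x0
    · left
      have h1 := hval th A h x0 n x y g F hD hCvth hx0 hx08 s hs.1 hs32 hne θ hθx
      have h2 := (hf1 s hs.1 hs32 hne).2
      have h3 := mul_le_mul_of_nonneg_left (mh_le_TM hl1 hF hD hs.1 hs32) (show 0 ≤ c by linarith)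
      have h4 : Cv * (∑ i, if NH (x i) (y i) then √(x0 / |s - x i|) + x0 else 0) +
          Cs * (∑ i, if NH (x i) (y i) then √(x0 / |s - x i|) else 0) ≤ S s := by
        rw [hS]
        simp only
        rw [Finset.mul_sum, Finset.mul_sum, Finset.mul_sum, ← Finset.sum_add_distrib]
        refine Finset.sum_le_sum fun i _ => ?_
        by_cases hi : NH (x i) (y i)
        · simp only [hi, if_true]
          have h5 := Real.sqrt_nonneg (x0 / |s - x i|)
          nlinarith
        · simp only [hi, if_false]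
          simp
      simp only [hH]
      linarith
    · right
      have hcos : cos θ ≤ cos x0 := by
        rw [← Real.cos_abs θ]
        exact Real.cos_le_cos_of_nonneg_of_le_pi hx0.le hθπ (not_le.1 hθx).le
      have h1 := hoff th A h c n x y g F hF hD hth1 hcd s hs.1 hs32 hne θ hcos hlog
      have h2 : (∑ i, if |x i| ≤ 3 then log (Co / |s - x i|) else 0) ≤
          (∑ i ∈ P, max 0 (log (Co / |s - x i|))) + ∑ i ∈ Q, max 0 (log (Co / |s - x i|)) := by
        rw [hP, hQ, Finset.sum_filter, Finset.sum_filter, ← Finset.sum_add_distrib]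
        refine Finset.sum_le_sum fun i _ => ?_
        by_cases hi : |x i| ≤ 3
        · have hm : log (Co / |s - x i|) ≤ max 0 (log (Co / |s - x i|)) := le_max_right _ _
          by_cases hd : dd (y i) ≤ 1 / 2
          · have hu : HU (x i) (y i) := ⟨hd, hi⟩
            have hn : ¬ NH (x i) (y i) := fun h => absurd h.1 (not_lt.2 hd)
            simp only [hi, hu, hn, if_true, if_false]
            linarith
          · have hu : ¬ HU (x i) (y i) := fun h => hd h.1
            have hn : NH (x i) (y i) := ⟨not_le.1 hd, hi⟩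
            simp only [hi, hu, hn, if_true, if_false]
            linarith
        · have hu : ¬ HU (x i) (y i) := fun h => hi h.2
          have hn : ¬ NH (x i) (y i) := fun h => hi h.2
          simp only [hi, hu, hn, if_false]
          simp
      by_contra hcon
      push Not at hcon
      obtain ⟨hc3, hc4⟩ := hcon
      linarith
  · -- h2
    intro s ρ hρ hs1 hs2
    have h1 := hf2 s ρ hρ hs1 (hs2.trans hel2)
    have h2 := hhu l th A h n x y g F hl1 hl2 hD s ρ hρ hs1 (hs2.trans hel2)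
    have hsum : (∑ i, if HU (x i) (y i) then max (ρ - |s - x i|) 0 else 0) = ∑ i ∈ P, max (ρ - |s - x i|) 0 := by
      rw [hP, Finset.sum_filter]
    rw [hsum] at h2
    have hs0 : 0 ≤ ∑ i ∈ P, max (ρ - |s - x i|) 0 := Finset.sum_nonneg fun i _ => le_max_right _ _
    have hN0 : 0 ≤ nNH x y := by rw [← hQc]; positivity
    rw [hQc]
    have h3 := mul_le_mul_of_nonneg_left h2 (show 0 ≤ c by linarith)
    have h4 : (∑ i ∈ P, max (ρ - |s - x i|) 0) ≤ c * (2 * π * ∑ i ∈ P, max (ρ - |s - x i|) 0) := by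
      have h5 : 1 ≤ c * (2 * π) := by nlinarith [Real.pi_gt_three]
      nlinarith
    have h6 : c * (Ch * A * ρ ^ 2) ≤ Ch * A * ρ ^ 2 := by
      have : 0 ≤ Ch * A * ρ ^ 2 := by positivity
      nlinarith
    have h7 : c * (Ch * ρ * nNH x y) ≤ Ch * ρ * nNH x y := by
      have : 0 ≤ Ch * ρ * nNH x y := by positivity
      nlinarith
    have h8 : (Cs + Ch) * A * ρ ^ 2 ≤ C1 * A * ρ ^ 2 := by
      have : Cs + Ch ≤ C1 := by
        have : 0 < Cs / x0 := by positivity
        linarith
      gcongr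
    have h9 : (Cs / x0 + Ch) * ρ * nNH x y ≤ C1 * ρ * nNH x y := by
      have : Cs / x0 + Ch ≤ C1 := by linarith
      gcongr
    simp only [hH]
    linarith
  · -- h3
    intro s hs
    have hs32 : s ≤ 3 / 2 := hs.2.trans hel2
    have h1 := hf3 s hs.1 hs32
    have h2 := abs_le.1 (hmn l th A h n x y g F hl1 hl2 hD s hs.1 hs32)
    have h3 : exp s ≤ 5 := by
      have : exp s ≤ exp (3 / 2) := exp_le_exp.2 hs32
      have h4 : exp (3 / 2 : ℝ) ≤ 5 := by
        have := Real.exp_one_lt_d9
        have e : exp (3 / 2 : ℝ) = exp 1 * exp (1 / 2) := by rw [← Real.exp_add]; norm_num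
        have e2 : exp (1 / 2 : ℝ) ^ 2 = exp 1 := by rw [← Real.exp_nat_mul]; norm_num
        have e3 : exp (1 / 2 : ℝ) ≤ 1.65 := by
          by_contra hh
          push Not at hh
          nlinarith
        rw [e]
        nlinarith [Real.exp_pos (1 / 2 : ℝ), Real.exp_pos (1 : ℝ)]
      linarith
    have h5 : mh l F s ≤ (10 + Cm) * A := by
      have h6 : 2 * A * exp s * sin (th0 l) ≤ 10 * A := by
        have := Real.sin_le_one (th0 l)
        have h7 : 0 ≤ 2 * A * exp s := by positivity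
        nlinarith [mul_le_mul_of_nonneg_left this h7, mul_le_mul_of_nonneg_left h3 (show 0 ≤ 2 * A by positivity)]
      have h8 : Cm * th * A ≤ Cm * A := by
        have := hD.hth1
        have h9 : Cm * th ≤ Cm := by nlinarith
        exact mul_le_mul_of_nonneg_right h9 hA.le
      linarith
    have h6 : c * mh l F s ≤ (10 + Cm) * A := by
      rcases le_total 0 (mh l F s) with h | h
      · nlinarith
      · have : c * mh l F s ≤ 0 := mul_nonpos_of_nonneg_of_nonpos (by linarith) h
        have : 0 ≤ (10 + Cm) * A := by positivity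
        linarith
    have h7 : 0 ≤ Cv * W := by positivity
    have h8 : (Cs + (10 + Cm)) * A ≤ C1 * A := by
      refine mul_le_mul_of_nonneg_right ?_ hA.le
      have : 0 < Cs / x0 := by positivity
      linarith
    simp only [hH]
    linarith
  · -- h4
    intro k hk s hs hs2
    have := hclean k hk s hs hs2
    refine lt_of_le_of_lt ?_ this
    unfold cntP
    exact_mod_cast Finset.card_le_card (Finset.filter_subset_filter _ (Finset.subset_univ P))
  -- conclusion
  have hid := ident hl1 hl2 hD (show 0 < el by linarith) hel2 hxe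
  obtain ⟨hK1, hK2⟩ := KK_bd hl1 hl2
  have hφc : ContinuousOn (fun s => max (-(H s)) 0) (Icc 0 el) := by
    exact hHc.neg.sup continuousOn_const
  have hel0 : (0 : ℝ) ≤ el := by linarith
  have hexpc : Continuous (fun s : ℝ => exp (-(l * s))) := by fun_prop
  have hI1 : IntervalIntegrable (fun s => exp (-(l * s)) * mh l F s) volume 0 el := by
    refine ContinuousOn.intervalIntegrable ?_
    rw [uIcc_of_le hel0]
    exact hexpc.continuousOn.mul hmhc
  have hI2 : IntervalIntegrable (fun s => exp (-(l * s)) * -log ‖F (pt s 0)‖) volume 0 el := by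
    have h1 : IntervalIntegrable (fun s => log ‖F (pt s 0)‖) volume 0 el :=
      (log_ii hD).mono_set (by rw [uIcc_of_le hel0, uIcc_of_le (by norm_num)]; exact Icc_subset_Icc le_rfl (by linarith))
    exact h1.neg.continuousOn_mul hexpc.continuousOn
  have hI3 : IntervalIntegrable (fun s => max (-(H s)) 0) volume 0 el := by
    refine ContinuousOn.intervalIntegrable ?_
    rw [uIcc_of_le hel0]
    exact hφc
  have hmono : ∫ s in (0 : ℝ)..el, c * (exp (-(l * s)) * mh l F s) ≤
      ∫ s in (0 : ℝ)..el, (exp (-(l * s)) * -log ‖F (pt s 0)‖ + (Cv * W + max (-(H s)) 0)) := by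
    refine intervalIntegral.integral_mono_ae_restrict hel0 (hI1.const_mul c)
      (hI2.add (intervalIntegrable_const.add hI3)) ?_
    have hcount : (Set.range x).Countable := Set.countable_range x
    have hae : ∀ᵐ s : ℝ ∂volume, s ∉ Set.range x := hcount.ae_notMem volume
    rw [Filter.EventuallyLE, ae_restrict_iff' measurableSet_Icc]
    filter_upwards [hae] with s hsx hs
    have hne : ∀ i, x i ≠ s := fun i hi => hsx ⟨i, hi⟩
    have h1 := (hf1 s hs.1 (hs.2.trans hel2) hne).1
    have h2 : -(H s) ≤ max (-(H s)) 0 := le_max_left _ _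
    have h3 : (0 : ℝ) ≤ max (-(H s)) 0 := le_max_right _ _
    have h4 : exp (-(l * s)) ≤ 1 := by
      rw [Real.exp_le_one_iff]
      have := hs.1
      nlinarith
    have h5 := exp_pos (-(l * s))
    have h6 : c * mh l F s ≤ -log ‖F (pt s 0)‖ + (Cv * W + max (-(H s)) 0) := by
      simp only [hH] at h2 ⊢
      linarith
    have h7 := mul_le_mul_of_nonneg_left h6 h5.le
    have h8 : exp (-(l * s)) * (Cv * W + max (-(H s)) 0) ≤ Cv * W + max (-(H s)) 0 := by
      have : 0 ≤ Cv * W + max (-(H s)) 0 := by positivity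
      nlinarith
    linarith
  rw [intervalIntegral.integral_const_mul, intervalIntegral.integral_add hI2 (intervalIntegrable_const.add hI3),
    intervalIntegral.integral_add intervalIntegrable_const hI3, intervalIntegral.integral_const] at hmono
  simp only [sub_zero, smul_eq_mul] at hmono
  rw [hQc] at hkey
  have hN0 : 0 ≤ nNH x y := by rw [← hQc]; positivity
  have hK0 : 0 ≤ KK l := by linarith
  have h1 := mul_le_mul_of_nonneg_left hmono hK0
  have h2 : ∫ s in (0 : ℝ)..el, max (-(H s)) 0 ≤ ε / 4 * nNH x y := by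
    have h3 : CS * (12 * √x0) ≤ ε / 16 := by
      have h4 : √x0 * (192 * CS) ≤ ε := by rwa [le_div_iff₀ (by positivity)] at hsx
      linarith
    have h4 := mul_le_mul_of_nonneg_right h3 hN0
    linarith
  have h3 : KK l * (∫ s in (0 : ℝ)..el, max (-(H s)) 0) ≤ ε * nNH x y := by
    have h4 : 0 ≤ ε / 4 * nNH x y := by positivity
    calc KK l * (∫ s in (0 : ℝ)..el, max (-(H s)) 0) ≤ KK l * (ε / 4 * nNH x y) := mul_le_mul_of_nonneg_left h2 hK0
      _ ≤ 4 * (ε / 4 * nNH x y) := mul_le_mul_of_nonneg_right hK2 h4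
      _ = ε * nNH x y := by ring
  have h4 : KK l * (el * (Cv * W)) ≤ 6 * Cv * W := by
    have h5 : 0 ≤ Cv * W := by positivity
    have h6 : KK l * el ≤ 6 := by nlinarith
    have := mul_le_mul_of_nonneg_right h6 h5
    linarith
  have h5 : KK l * ((∫ s in (0 : ℝ)..el, exp (-(l * s)) * -log ‖F (pt s 0)‖) +
      (el * (Cv * W) + ∫ s in (0 : ℝ)..el, max (-(H s)) 0)) =
      KK l * (∫ s in (0 : ℝ)..el, exp (-(l * s)) * -log ‖F (pt s 0)‖) + KK l * (el * (Cv * W)) +
        KK l * (∫ s in (0 : ℝ)..el, max (-(H s)) 0) := by ring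
  rw [h5, hid] at h1
  have h6 : (c * KK l - 1) * (∫ s in (0 : ℝ)..el, exp (-(l * s)) * mh l F s) =
      KK l * (c * ∫ s in (0 : ℝ)..el, exp (-(l * s)) * mh l F s) -
        ∫ s in (0 : ℝ)..el, exp (-(l * s)) * mh l F s := by ring
  rw [h6]
  linarith

end Pool.Agent.THX
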