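import Pool.Agent.THX.Frame

/-!
# THX, module Rot: the rotation of the dipole between two heights (algebra)

`alf τ' - alf τ = ∑_{τ < x i < τ'} 1/pt (x i) (y i)`.  Multiply by `-exp (iψ)`: `A' exp (-τ') exp (i(ψ-ψ')) = A exp (-τ) - ∑ exp (-x i) exp (i (ψ - y i))`.
Real part: `≥ exp (-τ) (A - #) > 0`, so (`|ψ'-ψ| ≤ π`) `|ψ' - ψ| ≤ π/2` and `|ψ'-ψ| ≤ (π/2) |sin (ψ'-ψ)|`; imaginary part: `A' exp (-τ') |sin (ψ-ψ')| ≤ exp (-τ) ∑ |sin (y i - ψ)|`, `|sin t| ≤ dd t`.
-/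

set_option autoImplicit false
set_option linter.all false

namespace Pool.Agent.THX

open Real MeasureTheory Set Filter Topology
open Pool.Agent.TX1 (pt ell TM TN Fac HM Gr JJ)

theorem rot {n : ℕ} {x y : Fin n → ℝ} {h : ℂ → ℂ} {τ τ' ψ ψ' A A' : ℝ} (hA : 0 < A) (hA' : 0 < A') (hτ : τ < τ') (hτ2 : τ' ≤ τ + 3 / 2)
    (hx : ∀ i, x i ≠ τ) (hx' : ∀ i, x i ≠ τ')
    (e : alf x y h τ * exp τ = -(A : ℂ) * Complex.exp (-(ψ : ℂ) * Complex.I))
    (e' : alf x y h τ' * exp τ' = -(A' : ℂ) * Complex.exp (-(ψ' : ℂ) * Complex.I)) (hψ : |ψ' - ψ| ≤ π)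
    (hn : ((Finset.univ.filter (fun i => τ < x i ∧ x i < τ')).card : ℝ) < A) :
    |ψ' - ψ| ≤ 8 / A' * ∑ i ∈ Finset.univ.filter (fun i => τ < x i ∧ x i < τ'), dd (y i - ψ) := by
  classical
  set P := Finset.univ.filter (fun i => τ < x i ∧ x i < τ') with hP
  have hsum : alf x y h τ' = alf x y h τ + ∑ i ∈ P, 1 / pt (x i) (y i) := by
    have h1 : ∑ i ∈ Finset.univ.filter (fun i => τ < x i), 1 / pt (x i) (y i) =
        ∑ i ∈ P, 1 / pt (x i) (y i) + ∑ i ∈ Finset.univ.filter (fun i => τ' < x i), 1 / pt (x i) (y i) := by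
      rw [hP, Finset.sum_filter, Finset.sum_filter, Finset.sum_filter, ← Finset.sum_add_distrib]
      apply Finset.sum_congr rfl
      intro i _
      by_cases h2 : τ < x i
      · rcases lt_or_gt_of_ne (hx' i) with h3 | h3
        · rw [if_pos h2, if_pos ⟨h2, h3⟩, if_neg (by linarith), add_zero]
        · rw [if_pos h2, if_neg (by rintro ⟨-, h4⟩; linarith), if_pos h3, zero_add]
      · rw [if_neg h2, if_neg (fun h4 => h2 h4.1), if_neg (by linarith), add_zero]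
    unfold alf
    rw [h1]
    ring
  have hpt : ∀ i, 1 / pt (x i) (y i) = (exp (-(x i)) : ℂ) * Complex.exp (-(y i : ℂ) * Complex.I) := by
    intro i
    unfold pt
    rw [one_div, ← Complex.exp_neg, Complex.ofReal_exp, ← Complex.exp_add]
    congr 1
    push_cast
    ring
  have hexp : ∀ t : ℝ, ((exp t : ℝ) : ℂ) * ((exp (-t) : ℝ) : ℂ) = 1 := by
    intro t
    rw [← Complex.ofReal_mul, ← Real.exp_add, add_neg_cancel, Real.exp_zero, Complex.ofReal_one]
  have ea : alf x y h τ = -(A : ℂ) * (exp (-τ) : ℝ) * Complex.exp (-(ψ : ℂ) * Complex.I) := by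
    have h1 := hexp τ
    have h2 : alf x y h τ = (alf x y h τ * ((exp τ : ℝ) : ℂ)) * ((exp (-τ) : ℝ) : ℂ) := by
      rw [mul_assoc, h1, mul_one]
    have e0 : alf x y h τ * ((exp τ : ℝ) : ℂ) = -(A : ℂ) * Complex.exp (-(ψ : ℂ) * Complex.I) := by
      rw [← e]
    rw [h2, e0]
    ring
  have ea' : alf x y h τ' = -(A' : ℂ) * (exp (-τ') : ℝ) * Complex.exp (-(ψ' : ℂ) * Complex.I) := by
    have h1 := hexp τ'
    have h2 : alf x y h τ' = (alf x y h τ' * ((exp τ' : ℝ) : ℂ)) * ((exp (-τ') : ℝ) : ℂ) := by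
      rw [mul_assoc, h1, mul_one]
    have e0 : alf x y h τ' * ((exp τ' : ℝ) : ℂ) = -(A' : ℂ) * Complex.exp (-(ψ' : ℂ) * Complex.I) := by
      rw [← e']
    rw [h2, e0]
    ring
  -- multiply by `-exp (iψ)`
  have key : ((A' * exp (-τ') : ℝ) : ℂ) * Complex.exp (((ψ - ψ' : ℝ) : ℂ) * Complex.I) =
      ((A * exp (-τ) : ℝ) : ℂ) - ∑ i ∈ P, ((exp (-(x i)) : ℝ) : ℂ) * Complex.exp (((ψ - y i : ℝ) : ℂ) * Complex.I) := by
    have h1 : -Complex.exp ((ψ : ℂ) * Complex.I) * alf x y h τ' =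
        -Complex.exp ((ψ : ℂ) * Complex.I) * alf x y h τ +
          -Complex.exp ((ψ : ℂ) * Complex.I) * ∑ i ∈ P, 1 / pt (x i) (y i) := by
      rw [hsum]
      ring
    have h2 : -Complex.exp ((ψ : ℂ) * Complex.I) * alf x y h τ' =
        ((A' * exp (-τ') : ℝ) : ℂ) * Complex.exp (((ψ - ψ' : ℝ) : ℂ) * Complex.I) := by
      rw [ea']
      have h3 : Complex.exp (((ψ - ψ' : ℝ) : ℂ) * Complex.I) =
          Complex.exp ((ψ : ℂ) * Complex.I) * Complex.exp (-(ψ' : ℂ) * Complex.I) := by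
        rw [← Complex.exp_add]
        congr 1
        push_cast
        ring
      rw [h3]
      push_cast
      ring
    have h4 : -Complex.exp ((ψ : ℂ) * Complex.I) * alf x y h τ = ((A * exp (-τ) : ℝ) : ℂ) := by
      rw [ea]
      have h3 : Complex.exp ((ψ : ℂ) * Complex.I) * Complex.exp (-(ψ : ℂ) * Complex.I) = 1 := by
        rw [← Complex.exp_add]
        have : (ψ : ℂ) * Complex.I + -(ψ : ℂ) * Complex.I = 0 := by ring
        rw [this, Complex.exp_zero]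
      push_cast
      linear_combination ((A : ℂ) * Complex.exp (-(τ : ℂ))) * h3
    have h5 : -Complex.exp ((ψ : ℂ) * Complex.I) * ∑ i ∈ P, 1 / pt (x i) (y i) =
        -∑ i ∈ P, ((exp (-(x i)) : ℝ) : ℂ) * Complex.exp (((ψ - y i : ℝ) : ℂ) * Complex.I) := by
      rw [Finset.mul_sum, ← Finset.sum_neg_distrib]
      apply Finset.sum_congr rfl
      intro i _
      rw [hpt i]
      have h3 : Complex.exp (((ψ - y i : ℝ) : ℂ) * Complex.I) =
          Complex.exp ((ψ : ℂ) * Complex.I) * Complex.exp (-(y i : ℂ) * Complex.I) := by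
        rw [← Complex.exp_add]
        congr 1
        push_cast
        ring
      rw [h3]
      push_cast
      ring
    rw [h2, h4, h5] at h1
    rw [h1]
    ring
  have hre : ∀ a t : ℝ, (((a : ℝ) : ℂ) * Complex.exp (((t : ℝ) : ℂ) * Complex.I)).re = a * cos t := by
    intro a t
    rw [Complex.re_ofReal_mul, Complex.exp_ofReal_mul_I_re]
  have him : ∀ a t : ℝ, (((a : ℝ) : ℂ) * Complex.exp (((t : ℝ) : ℂ) * Complex.I)).im = a * sin t := by
    intro a t
    rw [Complex.im_ofReal_mul, Complex.exp_ofReal_mul_I_im]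
  have kre := congrArg Complex.re key
  have kim := congrArg Complex.im key
  rw [Complex.sub_re, Complex.re_sum, Complex.ofReal_re, hre] at kre
  rw [Complex.sub_im, Complex.im_sum, Complex.ofReal_im, him] at kim
  simp_rw [hre] at kre
  simp_rw [him] at kim
  have hE : ∀ i ∈ P, exp (-(x i)) ≤ exp (-τ) := by
    intro i hi
    rw [hP, Finset.mem_filter] at hi
    exact exp_le_exp.mpr (by linarith [hi.2.1])
  -- the cosine is positive
  have hcos : 0 < cos (ψ - ψ') := by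
    have h1 : ∑ i ∈ P, exp (-(x i)) * cos (ψ - y i) ≤ ∑ _i ∈ P, exp (-τ) := by
      apply Finset.sum_le_sum
      intro i hi
      have h2 := cos_le_one (ψ - y i)
      have h3 := exp_pos (-(x i))
      have h4 := hE i hi
      nlinarith
    rw [Finset.sum_const, nsmul_eq_mul] at h1
    have h2 : 0 < A' * exp (-τ') * cos (ψ - ψ') := by
      rw [kre]
      have h3 : (P.card : ℝ) * exp (-τ) < A * exp (-τ) := mul_lt_mul_of_pos_right hn (exp_pos _)
      linarith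
    exact (pos_iff_pos_of_mul_pos h2).1 (by positivity)
  have habs : |ψ - ψ'| ≤ π := by rw [abs_sub_comm]; exact hψ
  have hhalf : |ψ - ψ'| < π / 2 := by
    by_contra hc
    push Not at hc
    have h1 : cos |ψ - ψ'| ≤ 0 := cos_nonpos_of_pi_div_two_le_of_le hc (by linarith [pi_pos])
    rw [cos_abs] at h1
    linarith
  have hsin : |ψ - ψ'| ≤ π / 2 * |sin (ψ - ψ')| := by
    have h1 : 2 / π * |ψ - ψ'| ≤ sin |ψ - ψ'| := mul_le_sin (abs_nonneg _) hhalf.le
    have h2 : sin |ψ - ψ'| ≤ |sin (ψ - ψ')| := by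
      rcases abs_cases (ψ - ψ') with ⟨h3, -⟩ | ⟨h3, -⟩
      · rw [h3]
        exact le_abs_self _
      · rw [h3, sin_neg]
        exact neg_le_abs _
    have h3 : 2 / π * |ψ - ψ'| ≤ |sin (ψ - ψ')| := h1.trans h2
    have h4 : π / 2 * (2 / π * |ψ - ψ'|) = |ψ - ψ'| := by
      field_simp
    rw [← h4]
    exact mul_le_mul_of_nonneg_left h3 (by positivity)
  have hdd : ∀ i, |sin (ψ - y i)| ≤ dd (y i - ψ) := by
    intro i
    unfold dd
    have h1 : sin (ψ - y i) = 2 * sin ((ψ - y i) / 2) * cos ((ψ - y i) / 2) := by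
      rw [← sin_two_mul]
      congr 1
      ring
    have h2 : cos ((ψ - y i) / 2) = cos ((y i - ψ) / 2) := by
      rw [← cos_neg]
      congr 1
      ring
    rw [h1, h2, abs_mul, abs_mul, abs_two]
    have h3 : |sin ((ψ - y i) / 2)| ≤ 1 := abs_sin_le_one _
    have h4 := abs_nonneg (cos ((y i - ψ) / 2))
    nlinarith
  have hs0 : 0 ≤ ∑ i ∈ P, dd (y i - ψ) := by
    apply Finset.sum_nonneg
    intro i _
    unfold dd
    positivity
  have hsinb : A' * exp (-τ') * |sin (ψ - ψ')| ≤ exp (-τ) * ∑ i ∈ P, dd (y i - ψ) := by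
    have h1 : A' * exp (-τ') * |sin (ψ - ψ')| = |A' * exp (-τ') * sin (ψ - ψ')| := by
      rw [abs_mul, abs_of_pos (by positivity : 0 < A' * exp (-τ'))]
    rw [h1, kim, zero_sub, abs_neg, Finset.mul_sum]
    refine (Finset.abs_sum_le_sum_abs _ _).trans (Finset.sum_le_sum fun i hi => ?_)
    rw [abs_mul, abs_of_pos (exp_pos _)]
    exact mul_le_mul (hE i hi) (hdd i) (abs_nonneg _) (exp_pos _).le
  have h8 : π / 2 * exp (τ' - τ) ≤ 8 := by
    have h1 : exp (τ' - τ) ≤ exp (3 / 2) := exp_le_exp.mpr (by linarith)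
    have h2 : exp (3 / 2 : ℝ) ≤ 4.9 := by
      have h3 : exp (3 / 2 : ℝ) ^ 2 = exp 1 ^ 3 := by
        rw [← Real.exp_nat_mul, ← Real.exp_nat_mul]
        norm_num
      have h4 : exp 1 ^ 3 ≤ 2.72 ^ 3 := pow_le_pow_left₀ (exp_pos _).le (by linarith [Real.exp_one_lt_d9]) 3
      have h5 : exp (3 / 2 : ℝ) ^ 2 ≤ 4.9 ^ 2 := by
        rw [h3]
        refine h4.trans ?_
        norm_num
      exact le_of_sq_le_sq h5 (by norm_num)
    have h3 := pi_lt_d2
    have h4 := pi_pos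
    nlinarith [exp_pos (τ' - τ)]
  rw [abs_sub_comm]
  have h9 : exp (-τ) = exp (τ' - τ) * exp (-τ') := by
    rw [← Real.exp_add]
    congr 1
    ring
  rw [h9] at hsinb
  have h10 : A' * |sin (ψ - ψ')| ≤ exp (τ' - τ) * ∑ i ∈ P, dd (y i - ψ) := by
    have h11 : exp (-τ') * (A' * |sin (ψ - ψ')|) ≤ exp (-τ') * (exp (τ' - τ) * ∑ i ∈ P, dd (y i - ψ)) := by
      linarith
    exact le_of_mul_le_mul_left h11 (exp_pos _)
  rw [div_mul_eq_mul_div, le_div_iff₀ hA']
  calc |ψ - ψ'| * A' ≤ (π / 2 * |sin (ψ - ψ')|) * A' := mul_le_mul_of_nonneg_right hsin hA'.le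
    _ = π / 2 * (A' * |sin (ψ - ψ')|) := by ring
    _ ≤ π / 2 * (exp (τ' - τ) * ∑ i ∈ P, dd (y i - ψ)) := mul_le_mul_of_nonneg_left h10 (by positivity)
    _ = (π / 2 * exp (τ' - τ)) * ∑ i ∈ P, dd (y i - ψ) := by ring
    _ ≤ 8 * ∑ i ∈ P, dd (y i - ψ) := mul_le_mul_of_nonneg_right h8 hs0

end Pool.Agent.THX
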