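import Pool.Agent.THX.Dec
import Pool.Agent.THX.VBd
import Pool.Agent.TX1.Jens

/-!
# THX, module TMb: the characteristic and the hump integral in the window

`u = log |F|`, `dec'` for all but finitely many `θ` (`dec_fin`), `|u + A exp s cos θ| ≤ 2 th A·... + nB s + ∑ |VV| + h`, `∫ over a period ≤ C th A` (`vb_L1`, `Dat.hK`, `hc`, `hn`, `hh`).
`½ log (|F|²+1)` is between `max u 0` and `max u 0 + ½ log 2` (`TM_eq` of `TX1.Jens`, `Dat.hA`: `π log 2 ≤ 3 th A`).  `∫ max (-A exp s cos θ) 0 = 2 A exp s`.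
`mh`: `∫_{th0}^{2π-th0} (-A exp s cos θ) = 2 A exp s sin (th0 l)`, `sin (th0 l) ≥ 9/10` for `1 ≤ l ≤ 5/4`.
-/

set_option autoImplicit false
set_option linter.all false

namespace Pool.Agent.THX

open Real MeasureTheory Set Filter Topology
open Pool.Agent.TX1 (pt ell TM TN Fac HM Gr)

/-- the error part of `log |F|` -/
private noncomputable def UU {n : ℕ} (x y : Fin n → ℝ) (g : ℂ → ℂ) (s θ : ℝ) : ℝ :=
  (∑ i, max (-(x i)) 0) + nB x * s + (∑ i, VV (x i) (y i) s θ)
    + (g (pt s θ) - deriv g 0 * pt s θ).re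

private lemma pt_cont_theta (s : ℝ) : Continuous (fun θ : ℝ => pt s θ) := by
  unfold TX1.pt
  fun_prop

private lemma UU_ii {th A h : ℝ} {n : ℕ} {x y : Fin n → ℝ} {g F : ℂ → ℂ}
    (hD : Dat th A h n x y g F) {s : ℝ} (h0 : 0 ≤ s) (hs : s ≤ 3 / 2) (a b : ℝ) :
    IntervalIntegrable (UU x y g s) volume a b := by
  obtain ⟨C, hC, hVV⟩ := vb_L1
  obtain ⟨ρ, hρ, hg⟩ := hD.hg
  have hball : ∀ θ : ℝ, pt s θ ∈ Metric.ball (0 : ℂ) ρ := by
    intro θ
    rw [Metric.mem_ball, dist_zero_right, TX1.pt_norm]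
    exact (Real.exp_le_exp.2 (by linarith)).trans_lt hρ
  have h1 : Continuous (fun θ : ℝ => g (pt s θ)) :=
    hg.continuousOn.comp_continuous (pt_cont_theta s) hball
  have h2 : Continuous (fun θ : ℝ => (g (pt s θ) - deriv g 0 * pt s θ).re) :=
    Complex.continuous_re.comp (h1.sub (continuous_const.mul (pt_cont_theta s)))
  have h3 : IntervalIntegrable (fun θ => ∑ i, VV (x i) (y i) s θ) volume a b := by
    have : (fun θ => ∑ i, VV (x i) (y i) s θ) = ∑ i, fun θ => VV (x i) (y i) s θ := by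
      funext θ; simp
    rw [this]
    exact IntervalIntegrable.sum _ (fun i _ => (hVV (x i) (y i) s h0 hs).1 a b)
  exact ((intervalIntegrable_const.add h3)).add (h2.intervalIntegrable a b)

/-- an integrable majorant -/
private noncomputable def BB {n : ℕ} (x y : Fin n → ℝ) (th A s θ : ℝ) : ℝ :=
  7 / 2 * (th * A) + ∑ i, |VV (x i) (y i) s θ|

private lemma UU_le {th A h : ℝ} {n : ℕ} {x y : Fin n → ℝ} {g F : ℂ → ℂ}
    (hD : Dat th A h n x y g F) {s : ℝ} (h0 : 0 ≤ s) (hs : s ≤ 3 / 2) (θ : ℝ) :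
    |UU x y g s θ| ≤ BB x y th A s θ := by
  have hthA : 0 ≤ th * A := by linarith [hD.hA]
  have hnB : 0 ≤ nB x := by
    unfold nB
    exact Finset.sum_nonneg (fun i _ => by split_ifs <;> norm_num)
  have h1 : |∑ i, max (-(x i)) 0| ≤ th * A := by
    rw [abs_of_nonneg (Finset.sum_nonneg (fun i _ => le_max_right _ _))]
    exact hD.hc
  have h2 : |nB x * s| ≤ th * A * (3 / 2) := by
    rw [abs_of_nonneg (mul_nonneg hnB h0)]
    exact mul_le_mul hD.hn hs h0 hthA
  have h3 : |∑ i, VV (x i) (y i) s θ| ≤ ∑ i, |VV (x i) (y i) s θ| :=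
    Finset.abs_sum_le_sum_abs _ _
  have h4 : |(g (pt s θ) - deriv g 0 * pt s θ).re| ≤ th * A := by
    refine (Complex.abs_re_le_norm _).trans ?_
    refine (hD.hH (pt s θ) ?_).1.trans hD.hh
    rw [TX1.pt_norm]
    exact Real.exp_le_exp.2 (by linarith)
  unfold UU BB
  calc |(∑ i, max (-(x i)) 0) + nB x * s + (∑ i, VV (x i) (y i) s θ)
          + (g (pt s θ) - deriv g 0 * pt s θ).re|
      ≤ |∑ i, max (-(x i)) 0| + |nB x * s| + |∑ i, VV (x i) (y i) s θ|
          + |(g (pt s θ) - deriv g 0 * pt s θ).re| := by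
        refine (abs_add_le _ _).trans ?_
        gcongr
        refine (abs_add_le _ _).trans ?_
        gcongr
        exact abs_add_le _ _
    _ ≤ th * A + th * A * (3 / 2) + (∑ i, |VV (x i) (y i) s θ|) + th * A := by
        gcongr
    _ = _ := by ring

private lemma BB_ii {n : ℕ} (x y : Fin n → ℝ) (th A : ℝ) {s : ℝ} (h0 : 0 ≤ s) (hs : s ≤ 3 / 2)
    (a b : ℝ) : IntervalIntegrable (BB x y th A s) volume a b := by
  obtain ⟨C, hC, hVV⟩ := vb_L1
  have h3 : IntervalIntegrable (fun θ => ∑ i, |VV (x i) (y i) s θ|) volume a b := by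
    have : (fun θ => ∑ i, |VV (x i) (y i) s θ|) = ∑ i, fun θ => |VV (x i) (y i) s θ| := by
      funext θ; simp
    rw [this]
    exact IntervalIntegrable.sum _ (fun i _ => ((hVV (x i) (y i) s h0 hs).1 a b).abs)
  exact intervalIntegrable_const.add h3

private lemma BB_int : ∃ C : ℝ, 0 < C ∧ ∀ (th A h : ℝ) (n : ℕ) (x y : Fin n → ℝ) (g F : ℂ → ℂ),
    Dat th A h n x y g F → ∀ s, 0 ≤ s → s ≤ 3 / 2 → ∀ a : ℝ,
      ∫ θ in a..(a + 2 * π), BB x y th A s θ ≤ C * (th * A) := by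
  obtain ⟨C, hC, hVV⟩ := vb_L1
  refine ⟨7 * π + C, by positivity, fun th A h n x y g F hD s h0 hs a => ?_⟩
  have hii : ∀ i, IntervalIntegrable (fun θ => |VV (x i) (y i) s θ|) volume a (a + 2 * π) :=
    fun i => ((hVV (x i) (y i) s h0 hs).1 a _).abs
  have h3 : IntervalIntegrable (fun θ => ∑ i, |VV (x i) (y i) s θ|) volume a (a + 2 * π) := by
    have : (fun θ => ∑ i, |VV (x i) (y i) s θ|) = ∑ i, fun θ => |VV (x i) (y i) s θ| := by
      funext θ; simp
    rw [this]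
    exact IntervalIntegrable.sum _ (fun i _ => hii i)
  unfold BB
  rw [intervalIntegral.integral_add intervalIntegrable_const h3,
    intervalIntegral.integral_const, intervalIntegral.integral_finset_sum (fun i _ => hii i)]
  have h4 : ∑ i, ∫ θ in a..(a + 2 * π), |VV (x i) (y i) s θ| ≤ C * (th * A) := by
    calc _ ≤ ∑ i, C * kw (x i) :=
          Finset.sum_le_sum (fun i _ => (hVV (x i) (y i) s h0 hs).2 a)
      _ = C * ∑ i, kw (x i) := by rw [Finset.mul_sum]
      _ ≤ C * (th * A) := mul_le_mul_of_nonneg_left hD.hK hC.le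
  rw [smul_eq_mul]
  have e : (a + 2 * π - a) * (7 / 2 * (th * A)) = 7 * π * (th * A) := by ring
  rw [e]
  linarith

private lemma ae_ne {th A h : ℝ} {n : ℕ} {x y : Fin n → ℝ} {g F : ℂ → ℂ}
    (hD : Dat th A h n x y g F) {s : ℝ} (hs : s ≤ 3 / 2) (a b : ℝ) :
    ∀ᵐ θ : ℝ ∂volume, θ ∈ Set.Icc a b → F (pt s θ) ≠ 0 := by
  have h1 := (dec_fin hD (show s ≤ 2 by linarith) a b).measure_zero volume
  have h2 := measure_eq_zero_iff_ae_notMem.1 h1
  filter_upwards [h2] with θ h3 h4 h5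
  exact h3 ⟨h4, h5⟩

private lemma log_eq {th A h : ℝ} {n : ℕ} {x y : Fin n → ℝ} {g F : ℂ → ℂ}
    (hD : Dat th A h n x y g F) {s : ℝ} (hs : s ≤ 3 / 2) {θ : ℝ} (hne : F (pt s θ) ≠ 0) :
    log ‖F (pt s θ)‖ = -(A * exp s * cos θ) + UU x y g s θ := by
  rw [dec' hD (show s ≤ 2 by linarith) hne]
  unfold UU
  ring

private lemma half_log (w : ℂ) (hw : w ≠ 0) :
    |1 / 2 * log (‖w‖ ^ 2 + 1) - max (log ‖w‖) 0| ≤ 1 / 2 * log 2 := by
  have hp : 0 < ‖w‖ := norm_pos_iff.2 hw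
  rcases le_total 1 ‖w‖ with h | h
  · rw [max_eq_left (Real.log_nonneg h)]
    have e : 1 / 2 * log (‖w‖ ^ 2 + 1) - log ‖w‖ = 1 / 2 * log ((‖w‖ ^ 2 + 1) / ‖w‖ ^ 2) := by
      rw [Real.log_div (by positivity) (by positivity), Real.log_pow]
      push_cast; ring
    have h1 : 1 ≤ (‖w‖ ^ 2 + 1) / ‖w‖ ^ 2 := by
      rw [le_div_iff₀ (by positivity)]; linarith
    have h2 : (‖w‖ ^ 2 + 1) / ‖w‖ ^ 2 ≤ 2 := by
      rw [div_le_iff₀ (by positivity)]; nlinarith
    rw [e, abs_of_nonneg (mul_nonneg (by norm_num) (Real.log_nonneg h1))]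
    exact mul_le_mul_of_nonneg_left (Real.log_le_log (by positivity) h2) (by norm_num)
  · rw [max_eq_right (Real.log_nonpos hp.le h), sub_zero]
    have h1 : 1 ≤ ‖w‖ ^ 2 + 1 := by nlinarith [sq_nonneg ‖w‖]
    rw [abs_of_nonneg (mul_nonneg (by norm_num) (Real.log_nonneg h1))]
    apply mul_le_mul_of_nonneg_left _ (by norm_num)
    apply Real.log_le_log (by positivity)
    nlinarith

private lemma hl_cont' {F : ℂ → ℂ} (hF : Differentiable ℂ F) (s : ℝ) :
    Continuous (fun θ : ℝ => 1 / 2 * log (‖F (pt s θ)‖ ^ 2 + 1)) := by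
  have h1 : Continuous (fun θ : ℝ => ‖F (pt s θ)‖ ^ 2 + 1) :=
    ((hF.continuous.comp (pt_cont_theta s)).norm.pow 2).add continuous_const
  exact continuous_const.mul (h1.log (fun θ => by positivity))

private lemma max_cos_int (B : ℝ) (hB : 0 ≤ B) :
    ∫ θ in (-(π / 2))..(-(π / 2) + 2 * π), max (-(B * cos θ)) 0 = 2 * B := by
  have hc : Continuous (fun θ : ℝ => max (-(B * cos θ)) 0) := by fun_prop
  have hp := Real.pi_pos
  rw [← intervalIntegral.integral_add_adjacent_intervals (b := π / 2)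
    (hc.intervalIntegrable _ _) (hc.intervalIntegrable _ _)]
  have h1 : ∫ θ in (-(π / 2))..(π / 2), max (-(B * cos θ)) 0 = ∫ θ in (-(π / 2))..(π / 2), (0 : ℝ) := by
    apply intervalIntegral.integral_congr
    intro θ hθ
    rw [Set.uIcc_of_le (by linarith)] at hθ
    have h := Real.cos_nonneg_of_neg_pi_div_two_le_of_le hθ.1 hθ.2
    simp only
    exact max_eq_right (by nlinarith)
  have h2 : ∫ θ in (π / 2)..(-(π / 2) + 2 * π), max (-(B * cos θ)) 0
      = ∫ θ in (π / 2)..(-(π / 2) + 2 * π), -(B * cos θ) := by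
    apply intervalIntegral.integral_congr
    intro θ hθ
    rw [Set.uIcc_of_le (by linarith)] at hθ
    have h : cos θ ≤ 0 := Real.cos_nonpos_of_pi_div_two_le_of_le hθ.1 (by linarith [hθ.2])
    simp only
    exact max_eq_left (by nlinarith)
  rw [h1, h2, intervalIntegral.integral_zero, intervalIntegral.integral_neg,
    intervalIntegral.integral_const_mul, integral_cos, Real.sin_add_two_pi, Real.sin_neg,
    Real.sin_pi_div_two]
  ring

theorem tm_near : ∃ C : ℝ, 1 ≤ C ∧ ∀ (th A h : ℝ) (n : ℕ) (x y : Fin n → ℝ) (g F : ℂ → ℂ), Differentiable ℂ F →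
    Dat th A h n x y g F → ∀ s, 0 ≤ s → s ≤ 3 / 2 → |TM F s - 2 * A * exp s| ≤ C * th * A := by
  obtain ⟨C, hC, hB⟩ := BB_int
  refine ⟨C + 4, by linarith, fun th A h n x y g F hF hD s h0 hs => ?_⟩
  have hthA : 1 ≤ th * A := hD.hA
  have hA0 : 0 ≤ A := by
    by_contra hn
    push Not at hn
    have := mul_neg_of_pos_of_neg hD.hth hn
    linarith
  have hp := Real.pi_pos
  have hBe : 0 ≤ A * exp s := mul_nonneg hA0 (exp_pos _).le
  have hmc : Continuous (fun θ : ℝ => max (-(A * exp s * cos θ)) 0) := by fun_prop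
  have hlc := hl_cont' hF s
  have e1 : TM F s - 2 * A * exp s = ∫ θ in (-(π / 2))..(-(π / 2) + 2 * π),
      (1 / 2 * log (‖F (pt s θ)‖ ^ 2 + 1) - max (-(A * exp s * cos θ)) 0) := by
    rw [intervalIntegral.integral_sub (hlc.intervalIntegrable _ _) (hmc.intervalIntegrable _ _),
      max_cos_int _ hBe, ← TX1.TM_eq]
    ring
  have hg : IntervalIntegrable (fun θ => 1 / 2 * log 2 + BB x y th A s θ) volume
      (-(π / 2)) (-(π / 2) + 2 * π) := intervalIntegrable_const.add (BB_ii x y th A h0 hs _ _)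
  have h1 : ‖∫ θ in (-(π / 2))..(-(π / 2) + 2 * π),
      (1 / 2 * log (‖F (pt s θ)‖ ^ 2 + 1) - max (-(A * exp s * cos θ)) 0)‖ ≤
      ∫ θ in (-(π / 2))..(-(π / 2) + 2 * π), (1 / 2 * log 2 + BB x y th A s θ) := by
    refine intervalIntegral.norm_integral_le_of_norm_le (by linarith) ?_ hg
    filter_upwards [ae_ne hD hs (-(π / 2)) (-(π / 2) + 2 * π)] with θ h2 h3
    have hne := h2 ⟨h3.1.le, h3.2⟩
    have h4 := half_log _ hne
    have h5 := log_eq hD hs hne
    have h6 := UU_le hD h0 hs θ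
    have h7 : |max (log ‖F (pt s θ)‖) 0 - max (-(A * exp s * cos θ)) 0| ≤ |UU x y g s θ| := by
      refine (abs_max_sub_max_le_abs _ _ _).trans (le_of_eq ?_)
      rw [h5]; congr 1; ring
    rw [Real.norm_eq_abs]
    calc _ ≤ |1 / 2 * log (‖F (pt s θ)‖ ^ 2 + 1) - max (log ‖F (pt s θ)‖) 0| +
          |max (log ‖F (pt s θ)‖) 0 - max (-(A * exp s * cos θ)) 0| := abs_sub_le _ _ _
      _ ≤ 1 / 2 * log 2 + BB x y th A s θ := add_le_add h4 (h7.trans h6)
  rw [intervalIntegral.integral_add intervalIntegrable_const (BB_ii x y th A h0 hs _ _),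
    intervalIntegral.integral_const, smul_eq_mul] at h1
  have h8 := hB th A h n x y g F hD s h0 hs (-(π / 2))
  rw [e1]
  rw [Real.norm_eq_abs] at h1
  refine h1.trans ?_
  have h9 : (-(π / 2) + 2 * π - -(π / 2)) * (1 / 2 * log 2) ≤ 4 := by
    have e : (-(π / 2) + 2 * π - -(π / 2)) * (1 / 2 * log 2) = π * log 2 := by ring
    rw [e]
    have h10 : log 2 ≤ 1 := by
      have := Real.log_two_lt_d9; linarith
    have h11 : π ≤ 4 := Real.pi_le_four
    have h12 : 0 ≤ log 2 := Real.log_nonneg (by norm_num)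
    nlinarith
  calc _ ≤ 4 + C * (th * A) := add_le_add h9 h8
    _ ≤ 4 * (th * A) + C * (th * A) := by linarith
    _ = (C + 4) * th * A := by ring

private lemma th0_bd {l : ℝ} (h1 : 1 ≤ l) : 0 < th0 l ∧ th0 l ≤ π / 2 := by
  have hp := Real.pi_pos
  unfold th0
  refine ⟨by positivity, ?_⟩
  apply div_le_div_of_nonneg_left hp.le (by norm_num)
  linarith

private lemma mh_eq {l th A h : ℝ} {n : ℕ} {x y : Fin n → ℝ} {g F : ℂ → ℂ} (h1 : 1 ≤ l)
    (hD : Dat th A h n x y g F) {s : ℝ} (hs : s ≤ 3 / 2) :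
    mh l F s = ∫ θ in (th0 l)..(2 * π - th0 l), (-(A * exp s * cos θ) + UU x y g s θ) := by
  obtain ⟨ht0, ht1⟩ := th0_bd h1
  have hp := Real.pi_pos
  unfold mh
  apply intervalIntegral.integral_congr_ae
  filter_upwards [ae_ne hD hs (th0 l) (2 * π - th0 l)] with θ h2 h3
  rw [Set.uIoc_of_le (by linarith)] at h3
  exact log_eq hD hs (h2 ⟨h3.1.le, h3.2⟩)

theorem mh_near : ∃ C : ℝ, 1 ≤ C ∧ ∀ (l th A h : ℝ) (n : ℕ) (x y : Fin n → ℝ) (g F : ℂ → ℂ), 1 ≤ l → l ≤ 5 / 4 →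
    Dat th A h n x y g F → ∀ s, 0 ≤ s → s ≤ 3 / 2 → |mh l F s - 2 * A * exp s * sin (th0 l)| ≤ C * th * A := by
  obtain ⟨C, hC, hB⟩ := BB_int
  refine ⟨C + 1, by linarith, fun l th A h n x y g F hl1 hl2 hD s h0 hs => ?_⟩
  obtain ⟨ht0, ht1⟩ := th0_bd hl1
  have hp := Real.pi_pos
  have hthA : 1 ≤ th * A := hD.hA
  have hcc : Continuous (fun θ : ℝ => -(A * exp s * cos θ)) := by fun_prop
  have hBi : ∀ θ, 0 ≤ BB x y th A s θ := fun θ => (abs_nonneg _).trans (UU_le hD h0 hs θ)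
  have e1 : mh l F s - 2 * A * exp s * sin (th0 l)
      = ∫ θ in (th0 l)..(2 * π - th0 l), UU x y g s θ := by
    rw [mh_eq hl1 hD hs, intervalIntegral.integral_add (hcc.intervalIntegrable _ _)
      (UU_ii hD h0 hs _ _), intervalIntegral.integral_neg, intervalIntegral.integral_const_mul,
      integral_cos, Real.sin_two_pi_sub]
    ring
  rw [e1]
  have h2 : ‖∫ θ in (th0 l)..(2 * π - th0 l), UU x y g s θ‖ ≤
      ∫ θ in (th0 l)..(2 * π - th0 l), BB x y th A s θ := by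
    refine intervalIntegral.norm_integral_le_of_norm_le (by linarith)
      (Eventually.of_forall (fun θ _ => UU_le hD h0 hs θ)) (BB_ii x y th A h0 hs _ _)
  have h3 : ∫ θ in (th0 l)..(2 * π - th0 l), BB x y th A s θ ≤
      ∫ θ in (0 : ℝ)..(0 + 2 * π), BB x y th A s θ := by
    apply intervalIntegral.integral_mono_interval ht0.le (by linarith) (by linarith)
      (Eventually.of_forall hBi) (BB_ii x y th A h0 hs _ _)
  have h4 := hB th A h n x y g F hD s h0 hs 0
  rw [Real.norm_eq_abs] at h2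
  calc _ ≤ C * (th * A) := h2.trans (h3.trans h4)
    _ ≤ (C + 1) * th * A := by nlinarith

theorem mh_le_TM {l th A h : ℝ} {n : ℕ} {x y : Fin n → ℝ} {g F : ℂ → ℂ} (h1 : 1 ≤ l) (hF : Differentiable ℂ F)
    (hD : Dat th A h n x y g F) {s : ℝ} (h0 : 0 ≤ s) (hs : s ≤ 3 / 2) : mh l F s ≤ TM F s := by
  obtain ⟨ht0, ht1⟩ := th0_bd h1
  have hp := Real.pi_pos
  have hcc : Continuous (fun θ : ℝ => -(A * exp s * cos θ)) := by fun_prop
  have hlc := hl_cont' hF s
  have hnn : ∀ θ : ℝ, 0 ≤ 1 / 2 * log (‖F (pt s θ)‖ ^ 2 + 1) := fun θ => by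
    apply mul_nonneg (by norm_num)
    apply Real.log_nonneg
    nlinarith [sq_nonneg ‖F (pt s θ)‖]
  rw [mh_eq h1 hD hs, TX1.TM_eq F s 0]
  have h2 : ∫ θ in (th0 l)..(2 * π - th0 l), (-(A * exp s * cos θ) + UU x y g s θ) ≤
      ∫ θ in (th0 l)..(2 * π - th0 l), 1 / 2 * log (‖F (pt s θ)‖ ^ 2 + 1) := by
    refine intervalIntegral.integral_mono_ae_restrict (by linarith)
      ((hcc.intervalIntegrable _ _).add (UU_ii hD h0 hs _ _)) (hlc.intervalIntegrable _ _) ?_
    rw [Filter.EventuallyLE, ae_restrict_iff' measurableSet_Icc]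
    filter_upwards [ae_ne hD hs (th0 l) (2 * π - th0 l)] with θ h3 h4
    have hne := h3 h4
    rw [← log_eq hD hs hne]
    have hq : 0 < ‖F (pt s θ)‖ := norm_pos_iff.2 hne
    have e : log ‖F (pt s θ)‖ = 1 / 2 * log (‖F (pt s θ)‖ ^ 2) := by
      rw [Real.log_pow]; push_cast; ring
    rw [e]
    apply mul_le_mul_of_nonneg_left _ (by norm_num)
    exact Real.log_le_log (by positivity) (by linarith)
  refine h2.trans ?_
  apply intervalIntegral.integral_mono_interval ht0.le (by linarith) (by linarith)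
    (Eventually.of_forall hnn) (hlc.intervalIntegrable _ _)

end Pool.Agent.THX
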