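import Mathlib

/-!
# THX, module UBbeta: the Stieltjes transform of a power

`∫_0^∞ t^(β-1) / (t + z) dt = π / sin (π β) * z^(β-1)` for `0 < β < 1` and `z` off `(-∞, 0]`: Beta integral for `z = 1`,
scaling for `z > 0`, identity theorem.
-/

set_option autoImplicit false

namespace Pool.Agent.THX

open Filter Topology MeasureTheory Set

/-- the Stieltjes transform -/
noncomputable def ub_F (β : ℝ) (z : ℂ) : ℂ := ∫ t in Ioi (0 : ℝ), ((t ^ (β - 1) : ℝ) : ℂ) / ((t : ℂ) + z)

theorem ub_F_one {β : ℝ} (h0 : 0 < β) (h1 : β < 1) : ub_F β 1 = (Real.pi / Real.sin (Real.pi * β) : ℝ) := by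
  have hder : ∀ s ∈ Ioi (0 : ℝ), HasDerivWithinAt (fun s : ℝ => s / (1 + s)) (1 / (1 + s) ^ 2) (Ioi 0) s := by
    intro s hs
    have hs0 : (0 : ℝ) < s := hs
    have h2 : HasDerivAt (fun s : ℝ => s / (1 + s)) ((1 * (1 + s) - s * 1) / (1 + s) ^ 2) s :=
      (hasDerivAt_id s).div ((hasDerivAt_id s).const_add 1) (by
        have : (1 : ℝ) + s ≠ 0 := by linarith
        exact this)
    refine (h2.congr_deriv ?_).hasDerivWithinAt
    ring
  have hinj : InjOn (fun s : ℝ => s / (1 + s)) (Ioi 0) := by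
    intro s hs t ht hst
    have hs0 : (0 : ℝ) < s := hs
    have ht0 : (0 : ℝ) < t := ht
    simp only at hst
    rw [div_eq_div_iff (by linarith) (by linarith)] at hst
    linarith
  have himg : (fun s : ℝ => s / (1 + s)) '' Ioi 0 = Ioo 0 1 := by
    ext x
    constructor
    · rintro ⟨s, hs, rfl⟩
      have hs0 : (0 : ℝ) < s := hs
      refine ⟨by positivity, ?_⟩
      simp only
      rw [div_lt_one (by linarith)]
      linarith
    · rintro ⟨hx0, hx1⟩
      refine ⟨x / (1 - x), ?_, ?_⟩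
      · have : 0 < 1 - x := by linarith
        exact mem_Ioi.2 (by positivity)
      · have : 1 - x ≠ 0 := by linarith
        simp only
        field_simp
        ring
  have hcv := integral_image_eq_integral_abs_deriv_smul measurableSet_Ioi hder hinj
    (fun x : ℝ => (x : ℂ) ^ ((β : ℂ) - 1) * (1 - (x : ℂ)) ^ ((1 - β : ℂ) - 1))
  rw [himg] at hcv
  have hL : ∫ x in Ioo (0 : ℝ) 1, (x : ℂ) ^ ((β : ℂ) - 1) * (1 - (x : ℂ)) ^ ((1 - β : ℂ) - 1) =
      (Real.pi / Real.sin (Real.pi * β) : ℝ) := by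
    rw [← integral_Ioc_eq_integral_Ioo, ← intervalIntegral.integral_of_le zero_le_one]
    have h3 := Complex.betaIntegral_eq_Gamma_mul_div (β : ℂ) (1 - β : ℂ) (by simpa using h0)
      (by simp; exact h1)
    unfold Complex.betaIntegral at h3
    rw [h3, add_sub_cancel, Complex.Gamma_one, div_one, Complex.Gamma_mul_Gamma_one_sub]
    push_cast
    rfl
  rw [hL] at hcv
  rw [hcv]
  unfold ub_F
  refine setIntegral_congr_fun measurableSet_Ioi fun s hs => ?_
  have hs0 : (0 : ℝ) < s := hs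
  have hs1 : (0 : ℝ) < 1 + s := by linarith
  have e1 : (((s / (1 + s) : ℝ) : ℂ)) ^ ((β : ℂ) - 1) = (((s / (1 + s)) ^ (β - 1) : ℝ) : ℂ) := by
    rw [Complex.ofReal_cpow (by positivity)]
    push_cast
    rfl
  have e2 : (1 - ((s / (1 + s) : ℝ) : ℂ)) ^ ((1 - β : ℂ) - 1) = (((1 / (1 + s)) ^ (-β) : ℝ) : ℂ) := by
    rw [Complex.ofReal_cpow (by positivity)]
    have e3 : (1 - ((s / (1 + s) : ℝ) : ℂ)) = ((1 / (1 + s) : ℝ) : ℂ) := by
      have : (1 : ℝ) - s / (1 + s) = 1 / (1 + s) := by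
        field_simp
        ring
      rw [← this]
      push_cast
      rfl
    rw [e3]
    congr 1
    push_cast
    ring
  rw [e1, e2, abs_of_pos (by positivity)]
  have e4 : (s / (1 + s)) ^ (β - 1) * (1 / (1 + s)) ^ (-β) * (1 / (1 + s) ^ 2) =
      s ^ (β - 1) / (s + 1) := by
    rw [Real.div_rpow hs0.le hs1.le, one_div, Real.inv_rpow hs1.le, Real.rpow_neg hs1.le, inv_inv,
      Real.rpow_sub_one hs1.ne']
    have hp : (0 : ℝ) < (1 + s) ^ β := Real.rpow_pos_of_pos hs1 _
    field_simp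
    ring
  rw [← Complex.ofReal_mul, Complex.real_smul, ← Complex.ofReal_mul, mul_comm (1 / (1 + s) ^ 2), e4]
  push_cast
  rfl

theorem ub_F_real {β : ℝ} {x : ℝ} (hx : 0 < x) :
    ub_F β (x : ℂ) = ((x ^ (β - 1) : ℝ) : ℂ) * ub_F β 1 := by
  unfold ub_F
  have h := integral_comp_mul_left_Ioi' (fun t : ℝ => ((t ^ (β - 1) : ℝ) : ℂ) / ((t : ℂ) + (x : ℂ))) 0 hx
  rw [mul_zero] at h
  rw [← h, ← integral_const_mul, ← integral_smul]
  refine setIntegral_congr_fun measurableSet_Ioi fun s hs => ?_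
  have hs0 : (0 : ℝ) < s := hs
  have hc1 : ((s : ℂ) + 1) ≠ 0 := by
    have : ((s : ℂ) + 1) = ((s + 1 : ℝ) : ℂ) := by push_cast; rfl
    rw [this]
    exact_mod_cast (by linarith : s + 1 ≠ 0)
  have hxc : (x : ℂ) ≠ 0 := by exact_mod_cast hx.ne'
  rw [Real.mul_rpow hx.le hs0.le, Complex.real_smul]
  push_cast
  have : (x : ℂ) * s + x = x * ((s : ℂ) + 1) := by ring
  rw [this]
  field_simp

/-- lower bound near a point of the slit plane -/
theorem slit_bound {z0 : ℂ} (hz : z0 ∈ Complex.slitPlane) :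
    ∃ ε c : ℝ, 0 < ε ∧ 0 < c ∧ ∀ z ∈ Metric.ball z0 ε, ∀ t : ℝ, 0 ≤ t → c * (1 + t) ≤ ‖(t : ℂ) + z‖ := by
  rw [Complex.mem_slitPlane_iff] at hz
  rcases hz with h | h
  · refine ⟨z0.re / 2, min 1 (z0.re / 2), by positivity, by positivity, ?_⟩
    intro z hz t ht
    have h1 : |(z - z0).re| ≤ ‖z - z0‖ := Complex.abs_re_le_norm _
    have h2 : ‖z - z0‖ < z0.re / 2 := by rwa [mem_ball_iff_norm] at hz
    have h3 : z0.re / 2 < z.re := by
      rw [Complex.sub_re] at h1
      have := (abs_le.1 h1).1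
      linarith
    have h4 : ((t : ℂ) + z).re ≤ ‖(t : ℂ) + z‖ := Complex.re_le_norm _
    have h5 : ((t : ℂ) + z).re = t + z.re := by simp
    rw [h5] at h4
    have h6 : min 1 (z0.re / 2) ≤ 1 := min_le_left _ _
    have h7 : min 1 (z0.re / 2) ≤ z0.re / 2 := min_le_right _ _
    nlinarith
  · set d : ℝ := |z0.im| / 2 with hd
    have hd0 : 0 < d := by positivity
    set R : ℝ := ‖z0‖ + d with hR
    have hR0 : 0 < R := by positivity
    refine ⟨d, 1 / ((1 + R) / d + 1), hd0, by positivity, ?_⟩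
    intro z hz t ht
    have h1 : |(z - z0).im| ≤ ‖z - z0‖ := Complex.abs_im_le_norm _
    have h2 : ‖z - z0‖ < d := by rwa [mem_ball_iff_norm] at hz
    have h3 : d ≤ |z.im| := by
      rw [Complex.sub_im] at h1
      have h4 := abs_sub_abs_le_abs_sub z0.im z.im
      rw [abs_sub_comm] at h4
      have : |z0.im| = 2 * d := by rw [hd]; ring
      linarith
    have h4 : |((t : ℂ) + z).im| ≤ ‖(t : ℂ) + z‖ := Complex.abs_im_le_norm _
    have h5 : ((t : ℂ) + z).im = z.im := by simp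
    rw [h5] at h4
    have h6 : t - R ≤ ‖(t : ℂ) + z‖ := by
      have h7 : ‖(t : ℂ)‖ ≤ ‖(t : ℂ) + z‖ + ‖z‖ := by
        have := norm_sub_le ((t : ℂ) + z) z
        simpa using this
      rw [Complex.norm_real, Real.norm_of_nonneg ht] at h7
      have h8 : ‖z‖ ≤ ‖z0‖ + d := by
        have := norm_add_le z0 (z - z0)
        rw [add_sub_cancel] at this
        linarith
      linarith
    have h9 : d ≤ ‖(t : ℂ) + z‖ := h3.trans h4
    rw [one_div, inv_mul_le_iff₀ (by positivity)]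
    have h10 : (1 + R) / d * ‖(t : ℂ) + z‖ ≥ 1 + R := by
      calc (1 + R) / d * ‖(t : ℂ) + z‖ ≥ (1 + R) / d * d :=
            mul_le_mul_of_nonneg_left h9 (by positivity)
        _ = 1 + R := by field_simp
    linarith

theorem pow_int_aux {β p c : ℝ} (h0 : 0 < β) (hp : β < p) (hc : 0 < c) :
    IntegrableOn (fun t : ℝ => t ^ (β - 1) * (c * (1 + t) ^ p)⁻¹) (Ioi 0) := by
  have hp0 : 0 < p := h0.trans hp
  have hm : Measurable (fun t : ℝ => t ^ (β - 1) * (c * (1 + t) ^ p)⁻¹) := by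
    refine (measurable_id.pow_const _).mul (Measurable.inv ?_)
    exact ((measurable_const.add measurable_id).pow_const _).const_mul c
  rw [← Ioc_union_Ioi_eq_Ioi (zero_le_one' ℝ), integrableOn_union]
  constructor
  · have h3 : IntegrableOn (fun t : ℝ => c⁻¹ * t ^ (β - 1)) (Ioc 0 1) := by
      have := (intervalIntegral.intervalIntegrable_rpow' (a := 0) (b := 1)
        (by linarith : -1 < β - 1)).const_mul c⁻¹
      rwa [intervalIntegrable_iff_integrableOn_Ioc_of_le zero_le_one] at this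
    refine Integrable.mono' h3 hm.aestronglyMeasurable ?_
    rw [ae_restrict_iff' measurableSet_Ioc]
    refine Eventually.of_forall fun t ht => ?_
    have ht0 : 0 < t := ht.1
    have hq : 0 < t ^ (β - 1) := Real.rpow_pos_of_pos ht0 _
    have h5 : 1 ≤ (1 + t) ^ p := Real.one_le_rpow (by linarith) hp0.le
    rw [Real.norm_of_nonneg (by positivity), mul_comm c⁻¹]
    apply mul_le_mul_of_nonneg_left _ hq.le
    apply inv_anti₀ hc
    nlinarith
  · have h3 : IntegrableOn (fun t : ℝ => c⁻¹ * t ^ (β - 1 - p)) (Ioi 1) :=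
      (integrableOn_Ioi_rpow_of_lt (by linarith) one_pos).const_mul _
    refine Integrable.mono' h3 hm.aestronglyMeasurable ?_
    rw [ae_restrict_iff' measurableSet_Ioi]
    refine Eventually.of_forall fun t ht => ?_
    have ht0 : 0 < t := one_pos.trans ht
    have hq : 0 < t ^ (β - 1) := Real.rpow_pos_of_pos ht0 _
    have h5 : t ^ p ≤ (1 + t) ^ p := Real.rpow_le_rpow ht0.le (by linarith) hp0.le
    have h6 : 0 < t ^ p := Real.rpow_pos_of_pos ht0 _
    rw [Real.norm_of_nonneg (by positivity), Real.rpow_sub ht0 (β - 1) p]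
    calc t ^ (β - 1) * (c * (1 + t) ^ p)⁻¹ ≤ t ^ (β - 1) * (c * t ^ p)⁻¹ := by
          apply mul_le_mul_of_nonneg_left _ hq.le
          apply inv_anti₀ (by positivity)
          exact mul_le_mul_of_nonneg_left h5 hc.le
      _ = c⁻¹ * (t ^ (β - 1) / t ^ p) := by
          rw [mul_inv, div_eq_mul_inv]
          ring

theorem ub_F_diff {β : ℝ} (h0 : 0 < β) (h1 : β < 1) {z0 : ℂ} (hz : z0 ∈ Complex.slitPlane) :
    DifferentiableAt ℂ (ub_F β) z0 := by
  obtain ⟨ε, c, hε, hc, hb⟩ := slit_bound hz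
  have hmeas : ∀ z : ℂ, Measurable (fun t : ℝ => ((t ^ (β - 1) : ℝ) : ℂ) / ((t : ℂ) + z)) := by
    intro z
    refine Measurable.div ?_ ?_
    · exact Complex.measurable_ofReal.comp (measurable_id.pow_const _)
    · exact Complex.measurable_ofReal.add_const z
  have hmeas' : Measurable (fun t : ℝ => -(((t ^ (β - 1) : ℝ) : ℂ) / ((t : ℂ) + z0) ^ 2)) := by
    refine (Measurable.div ?_ ?_).neg
    · exact Complex.measurable_ofReal.comp (measurable_id.pow_const _)
    · exact (Complex.measurable_ofReal.add_const z0).pow_const 2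
  have hint := pow_int_aux h0 h1 hc
  have hint2 := pow_int_aux h0 (by linarith : β < 2) (by positivity : 0 < c ^ 2)
  have key := hasDerivAt_integral_of_dominated_loc_of_deriv_le
    (μ := volume.restrict (Ioi (0 : ℝ))) (x₀ := z0) (s := Metric.ball z0 ε)
    (F := fun z t => ((t ^ (β - 1) : ℝ) : ℂ) / ((t : ℂ) + z))
    (F' := fun z t => -(((t ^ (β - 1) : ℝ) : ℂ) / ((t : ℂ) + z) ^ 2))
    (bound := fun t : ℝ => t ^ (β - 1) * (c ^ 2 * (1 + t) ^ (2 : ℝ))⁻¹)
    (Metric.ball_mem_nhds _ hε)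
    (Eventually.of_forall fun z => (hmeas z).aestronglyMeasurable) ?_ hmeas'.aestronglyMeasurable ?_
    hint2 ?_
  · exact key.2.differentiableAt
  · refine Integrable.mono' hint (hmeas z0).aestronglyMeasurable ?_
    rw [ae_restrict_iff' measurableSet_Ioi]
    refine Eventually.of_forall fun t ht => ?_
    have ht0 : (0 : ℝ) < t := ht
    have hq : 0 < t ^ (β - 1) := Real.rpow_pos_of_pos ht0 _
    have h3 := hb z0 (Metric.mem_ball_self hε) t ht0.le
    rw [norm_div, Complex.norm_real, Real.norm_of_nonneg hq.le, div_eq_mul_inv, Real.rpow_one]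
    apply mul_le_mul_of_nonneg_left _ hq.le
    exact inv_anti₀ (by positivity) h3
  · rw [ae_restrict_iff' measurableSet_Ioi]
    refine Eventually.of_forall fun t ht z hz' => ?_
    have ht0 : (0 : ℝ) < t := ht
    have hq : 0 < t ^ (β - 1) := Real.rpow_pos_of_pos ht0 _
    have h3 := hb z hz' t ht0.le
    rw [norm_neg, norm_div, norm_pow, Complex.norm_real, Real.norm_of_nonneg hq.le, div_eq_mul_inv]
    apply mul_le_mul_of_nonneg_left _ hq.le
    apply inv_anti₀ (by positivity)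
    have h4 : c ^ 2 * (1 + t) ^ (2 : ℝ) = (c * (1 + t)) ^ 2 := by
      rw [Real.rpow_two]
      ring
    rw [h4]
    exact pow_le_pow_left₀ (by positivity) h3 2
  · rw [ae_restrict_iff' measurableSet_Ioi]
    refine Eventually.of_forall fun t ht z hz' => ?_
    have ht0 : (0 : ℝ) < t := ht
    have h3 := hb z hz' t ht0.le
    have h4 : (t : ℂ) + z ≠ 0 := by
      intro h5
      rw [h5, norm_zero] at h3
      have : 0 < c * (1 + t) := by positivity
      linarith
    have h5 : HasDerivAt (fun z : ℂ => ((t : ℂ) + z)) 1 z := (hasDerivAt_id z).const_add _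
    have h6 := (h5.fun_inv h4).const_mul ((t ^ (β - 1) : ℝ) : ℂ)
    simp only [← div_eq_mul_inv] at h6
    refine h6.congr_deriv ?_
    ring

theorem ub_F_eq {β : ℝ} (h0 : 0 < β) (h1 : β < 1) {z : ℂ} (hz : z ∈ Complex.slitPlane) :
    ub_F β z = (Real.pi / Real.sin (Real.pi * β) : ℝ) * z ^ ((β : ℂ) - 1) := by
  have hF : AnalyticOnNhd ℂ (ub_F β) Complex.slitPlane :=
    DifferentiableOn.analyticOnNhd
      (fun w hw => (ub_F_diff h0 h1 hw).differentiableWithinAt) Complex.isOpen_slitPlane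
  have hG : AnalyticOnNhd ℂ
      (fun z : ℂ => ((Real.pi / Real.sin (Real.pi * β) : ℝ) : ℂ) * z ^ ((β : ℂ) - 1))
      Complex.slitPlane := by
    refine DifferentiableOn.analyticOnNhd (fun w hw => ?_) Complex.isOpen_slitPlane
    exact ((differentiableAt_id.cpow_const hw).const_mul _).differentiableWithinAt
  have hpre : IsPreconnected Complex.slitPlane :=
    (Complex.starConvex_one_slitPlane.isPathConnected (by simp)).isConnected.isPreconnected
  have hfreq : ∃ᶠ w in 𝓝[≠] (1 : ℂ), ub_F β w =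
      ((Real.pi / Real.sin (Real.pi * β) : ℝ) : ℂ) * w ^ ((β : ℂ) - 1) := by
    have h3 : Tendsto (fun x : ℝ => (x : ℂ)) (𝓝[≠] 1) (𝓝[≠] 1) := by
      refine tendsto_nhdsWithin_iff.2 ⟨?_, ?_⟩
      · exact (Complex.continuous_ofReal.tendsto' 1 1 (by simp)).mono_left nhdsWithin_le_nhds
      · filter_upwards [self_mem_nhdsWithin] with x hx
        have hx' : x ≠ 1 := hx
        simp only [mem_compl_iff, mem_singleton_iff]
        exact_mod_cast hx'
    have h4 : ∀ᶠ x : ℝ in 𝓝[≠] 1, ub_F β (x : ℂ) =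
        ((Real.pi / Real.sin (Real.pi * β) : ℝ) : ℂ) * (x : ℂ) ^ ((β : ℂ) - 1) := by
      have h5 : ∀ᶠ x : ℝ in 𝓝[≠] 1, 0 < x :=
        nhdsWithin_le_nhds (lt_mem_nhds one_pos)
      filter_upwards [h5] with x hx
      rw [ub_F_real hx, ub_F_one h0 h1, Complex.ofReal_cpow hx.le]
      push_cast
      ring
    exact h3.frequently h4.frequently
  exact hF.eqOn_of_preconnected_of_frequently_eq hG hpre (by simp) hfreq hz

end Pool.Agent.THX
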