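import Pool.Agent.THX.UBpt
import Pool.Agent.MML.Defs

/-!
# THX, module UBchar: the characteristic of the canonical product, order, reduction

`nevT f r ≤ (B + η C / π) r^lam + E r`, `B = A (1 - sin (π lam)) / (π lam)`; lower order `lam`.
-/

set_option autoImplicit false

namespace Pool.Agent.THX

open Filter Topology MeasureTheory Set Real
open Pool.Agent.MML (minMod maxMod nevT lowerOrder minRatio D)

theorem ub_A_pos {lam : ℝ} (h1 : 1 < lam) (h2 : lam < 2) : 0 < ub_A lam := by
  unfold ub_A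
  apply div_pos pi_pos
  apply sin_pos_of_pos_of_lt_pi
  · exact mul_pos pi_pos (by linarith)
  · nlinarith [pi_pos]

theorem ub_sin {lam : ℝ} : sin (π * lam) = -sin (π * (lam - 1)) := by
  have : π * lam = π * (lam - 1) + π := by ring
  rw [this, sin_add_pi]

/-! ### the hump integral -/

theorem hump_int {lam : ℝ} (h1 : 1 < lam) (h2 : lam ≤ 3 / 2) :
    ∫ θ in (-π)..π, max (-cos (lam * θ)) 0 = 2 * ((1 - sin (π * lam)) / lam) := by
  have hl : 0 < lam := by linarith
  set b : ℝ := π / (2 * lam) with hb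
  have hb0 : 0 < b := by positivity
  have hbπ : b < π := by
    rw [hb, div_lt_iff₀ (by positivity)]
    nlinarith [pi_pos]
  have hlb : lam * b = π / 2 := by
    rw [hb]
    field_simp
  have hcont : Continuous (fun θ : ℝ => max (-cos (lam * θ)) 0) := by fun_prop
  have hii : ∀ u v : ℝ, IntervalIntegrable (fun θ : ℝ => max (-cos (lam * θ)) 0) volume u v :=
    fun u v => hcont.intervalIntegrable u v
  have hR : ∫ θ in b..π, max (-cos (lam * θ)) 0 = (1 - sin (π * lam)) / lam := by
    have e1 : ∫ θ in b..π, max (-cos (lam * θ)) 0 = ∫ θ in b..π, -cos (lam * θ) := by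
      apply intervalIntegral.integral_congr
      intro θ hθ
      rw [uIcc_of_le hbπ.le] at hθ
      have h3 : π / 2 ≤ lam * θ := by rw [← hlb]; exact mul_le_mul_of_nonneg_left hθ.1 hl.le
      have h4 : lam * θ ≤ π + π / 2 := by nlinarith [hθ.2, pi_pos, hθ.1]
      exact max_eq_left (by linarith [cos_nonpos_of_pi_div_two_le_of_le h3 h4])
    rw [e1, intervalIntegral.integral_neg,
      intervalIntegral.integral_comp_mul_left (fun x => cos x) hl.ne', integral_cos, hlb, sin_pi_div_two,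
      smul_eq_mul, mul_comm lam π]
    field_simp
    ring
  have hM : ∫ θ in (-b)..b, max (-cos (lam * θ)) 0 = 0 := by
    have e1 : ∫ θ in (-b)..b, max (-cos (lam * θ)) 0 = ∫ θ in (-b)..b, (0 : ℝ) := by
      apply intervalIntegral.integral_congr
      intro θ hθ
      rw [uIcc_of_le (by linarith)] at hθ
      have h3 : lam * θ ≤ π / 2 := by rw [← hlb]; exact mul_le_mul_of_nonneg_left hθ.2 hl.le
      have h4 : -(π / 2) ≤ lam * θ := by
        rw [← hlb, ← mul_neg]; exact mul_le_mul_of_nonneg_left hθ.1 hl.le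
      exact max_eq_right (by linarith [cos_nonneg_of_mem_Icc ⟨h4, h3⟩])
    rw [e1]
    simp
  have hL : ∫ θ in (-π)..(-b), max (-cos (lam * θ)) 0 = (1 - sin (π * lam)) / lam := by
    rw [← hR]
    have := intervalIntegral.integral_comp_neg (a := b) (b := π) (fun θ : ℝ => max (-cos (lam * θ)) 0)
    rw [← this]
    apply intervalIntegral.integral_congr
    intro θ _
    simp only [mul_neg, cos_neg]
  rw [← intervalIntegral.integral_add_adjacent_intervals (hii (-π) (-b)) (hii (-b) π),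
    ← intervalIntegral.integral_add_adjacent_intervals (hii (-b) b) (hii b π), hR, hM, hL]
  ring

/-! ### the characteristic -/

theorem posLog_eq (x : ℝ) (hx : 0 ≤ x) : posLog x = log (max x 1) := by
  rw [posLog]
  rcases le_total 1 x with h | h
  · rw [max_eq_right (log_nonneg h), max_eq_left h]
  · rw [max_eq_left (log_nonpos hx h), max_eq_right h, log_one]

theorem posLog_cont {f : ℂ → ℂ} (hf : Differentiable ℂ f) (r : ℝ) :
    Continuous (fun θ : ℝ => posLog ‖f (ub_w r θ)‖) := by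
  have h1 : (fun θ : ℝ => posLog ‖f (ub_w r θ)‖) = fun θ : ℝ => log (max ‖f (ub_w r θ)‖ 1) := by
    funext θ
    exact posLog_eq _ (norm_nonneg _)
  rw [h1]
  have hw : Continuous (fun θ : ℝ => ub_w r θ) := by
    unfold ub_w
    fun_prop
  refine Continuous.log ((hf.continuous.comp hw).norm.max continuous_const) fun θ => ?_
  have : (1 : ℝ) ≤ max ‖f (ub_w r θ)‖ 1 := le_max_right _ _
  linarith

theorem nevT_eq (f : ℂ → ℂ) (r : ℝ) :
    nevT f r = (2 * π)⁻¹ * ∫ θ in (-π)..π, posLog ‖f (ub_w r θ)‖ := by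
  have hper : Function.Periodic (fun θ : ℝ => posLog ‖f (ub_w r θ)‖) (2 * π) := by
    intro θ
    simp only
    congr 3
    unfold ub_w
    congr 1
    have : ((θ + 2 * π : ℝ) : ℂ) * Complex.I = (θ : ℂ) * Complex.I + 2 * π * Complex.I := by
      push_cast
      ring
    rw [this, Complex.exp_add, Complex.exp_two_pi_mul_I, mul_one]
  unfold nevT
  congr 1
  have := hper.intervalIntegral_add_eq 0 (-π)
  have e1 : -π + 2 * π = π := by ring
  rw [zero_add, e1] at this
  exact this

theorem nevT_le {lam : ℝ} (h1 : 1 < lam) (h2 : lam ≤ 3 / 2) {f : ℂ → ℂ} (hf : UBF lam f)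
    {C : ℝ} (hC : 0 < C) (hcr : ∀ z : ℂ, 1 ≤ ‖z‖ → ‖f z‖ ≤ exp (C * ‖z‖ ^ lam))
    {η : ℝ} (hη : 0 < η) (hη1 : η < π) {r : ℝ} (hr : 1 ≤ r) :
    nevT f r ≤ (ub_A lam * (1 - sin (π * lam)) / (π * lam) + η * C / π) * r ^ lam +
      (1 / sin η * (1 / (lam - 1) + 1)) * r := by
  have hl2 : lam < 2 := by linarith
  have hl : 0 < lam := by linarith
  have hA := ub_A_pos h1 hl2
  have hr0 : 0 < r := by linarith
  have hrl : 0 < r ^ lam := rpow_pos_of_pos hr0 _
  have hsin : 0 < sin η := sin_pos_of_pos_of_lt_pi hη hη1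
  set E : ℝ := 1 / sin η * (1 / (lam - 1) + 1) with hE
  have hE0 : 0 < E := by
    have : 0 < lam - 1 := by linarith
    positivity
  have hcont := posLog_cont hf.1 r
  have hii : ∀ u v : ℝ, IntervalIntegrable (fun θ : ℝ => posLog ‖f (ub_w r θ)‖) volume u v :=
    fun u v => hcont.intervalIntegrable u v
  have hcr' : ∀ θ : ℝ, posLog ‖f (ub_w r θ)‖ ≤ C * r ^ lam := by
    intro θ
    have h3 := hcr (ub_w r θ) (by rw [ub_w_norm hr0.le]; exact hr)
    rw [ub_w_norm hr0.le] at h3
    rw [posLog_eq _ (norm_nonneg _)]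
    have h4 : max ‖f (ub_w r θ)‖ 1 ≤ exp (C * r ^ lam) :=
      max_le h3 (one_le_exp (by positivity))
    have h5 : (0 : ℝ) < max ‖f (ub_w r θ)‖ 1 := lt_of_lt_of_le one_pos (le_max_right _ _)
    calc log (max ‖f (ub_w r θ)‖ 1) ≤ log (exp (C * r ^ lam)) := log_le_log h5 h4
      _ = _ := log_exp _
  have hmid : ∀ θ : ℝ, |θ| ≤ π - η → posLog ‖f (ub_w r θ)‖ ≤
      ub_A lam * r ^ lam * max (-cos (lam * θ)) 0 + E * r := by
    intro θ hθ
    obtain ⟨hne, h3⟩ := ub_asym h1 hl2 hf hr0 hη hη1 hθ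
    have h4 := (abs_le.1 h3).2
    have h5 : r / sin η * (1 / (lam - 1) + 1) = E * r := by rw [hE]; ring
    rw [h5] at h4
    rw [posLog]
    have h6 : -cos (lam * θ) ≤ max (-cos (lam * θ)) 0 := le_max_left _ _
    have h7 : 0 ≤ max (-cos (lam * θ)) 0 := le_max_right _ _
    have h8 : 0 < ub_A lam * r ^ lam := by positivity
    apply max_le
    · positivity
    · nlinarith
  rw [nevT_eq]
  have hsplit : ∫ θ in (-π)..π, posLog ‖f (ub_w r θ)‖ =
      (∫ θ in (-π)..(-(π - η)), posLog ‖f (ub_w r θ)‖) +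
      ((∫ θ in (-(π - η))..(π - η), posLog ‖f (ub_w r θ)‖) +
      ∫ θ in (π - η)..π, posLog ‖f (ub_w r θ)‖) := by
    rw [intervalIntegral.integral_add_adjacent_intervals (hii _ _) (hii _ _),
      intervalIntegral.integral_add_adjacent_intervals (hii _ _) (hii _ _)]
  have hA1 : ∫ θ in (-π)..(-(π - η)), posLog ‖f (ub_w r θ)‖ ≤ η * (C * r ^ lam) := by
    have := intervalIntegral.integral_mono_on (by linarith : -π ≤ -(π - η)) (hii _ _)
      (intervalIntegrable_const (c := C * r ^ lam)) (fun θ _ => hcr' θ)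
    rw [intervalIntegral.integral_const, smul_eq_mul] at this
    have e1 : -(π - η) - -π = η := by ring
    rwa [e1] at this
  have hA3 : ∫ θ in (π - η)..π, posLog ‖f (ub_w r θ)‖ ≤ η * (C * r ^ lam) := by
    have := intervalIntegral.integral_mono_on (by linarith : π - η ≤ π) (hii _ _)
      (intervalIntegrable_const (c := C * r ^ lam)) (fun θ _ => hcr' θ)
    rw [intervalIntegral.integral_const, smul_eq_mul] at this
    have e1 : π - (π - η) = η := by ring
    rwa [e1] at this
  have hmc : Continuous (fun θ : ℝ => max (-cos (lam * θ)) 0) := by fun_prop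
  have hA2 : ∫ θ in (-(π - η))..(π - η), posLog ‖f (ub_w r θ)‖ ≤
      ub_A lam * r ^ lam * (2 * ((1 - sin (π * lam)) / lam)) + 2 * π * (E * r) := by
    have hle : -(π - η) ≤ π - η := by linarith
    have h3 := intervalIntegral.integral_mono_on hle (hii _ _)
      (g := fun θ => ub_A lam * r ^ lam * max (-cos (lam * θ)) 0 + E * r)
      ((by fun_prop : Continuous (fun θ : ℝ =>
        ub_A lam * r ^ lam * max (-cos (lam * θ)) 0 + E * r)).intervalIntegrable _ _)
      (fun θ hθ => hmid θ (abs_le.2 ⟨hθ.1, hθ.2⟩))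
    refine h3.trans ?_
    rw [intervalIntegral.integral_add
      ((by fun_prop : Continuous (fun θ : ℝ =>
        ub_A lam * r ^ lam * max (-cos (lam * θ)) 0)).intervalIntegrable _ _)
      intervalIntegrable_const, intervalIntegral.integral_const_mul, intervalIntegral.integral_const,
      smul_eq_mul]
    have h4 : ∫ θ in (-(π - η))..(π - η), max (-cos (lam * θ)) 0 ≤
        ∫ θ in (-π)..π, max (-cos (lam * θ)) 0 := by
      apply intervalIntegral.integral_mono_interval (by linarith) hle (by linarith)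
      · exact Eventually.of_forall fun θ => le_max_right _ _
      · exact hmc.intervalIntegrable _ _
    rw [hump_int h1 h2] at h4
    have h5 : 0 < ub_A lam * r ^ lam := by positivity
    have h6 : (π - η - -(π - η)) * (E * r) ≤ 2 * π * (E * r) :=
      mul_le_mul_of_nonneg_right (by linarith) (by positivity)
    have h7 := mul_le_mul_of_nonneg_left h4 h5.le
    linarith
  rw [hsplit]
  have hpi := pi_pos
  calc (2 * π)⁻¹ * ((∫ θ in (-π)..(-(π - η)), posLog ‖f (ub_w r θ)‖) +
      ((∫ θ in (-(π - η))..(π - η), posLog ‖f (ub_w r θ)‖) +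
      ∫ θ in (π - η)..π, posLog ‖f (ub_w r θ)‖))
      ≤ (2 * π)⁻¹ * (η * (C * r ^ lam) + ((ub_A lam * r ^ lam * (2 * ((1 - sin (π * lam)) / lam)) +
        2 * π * (E * r)) + η * (C * r ^ lam))) := by
        apply mul_le_mul_of_nonneg_left _ (by positivity)
        linarith
    _ = _ := by
        field_simp
        ring

/-! ### order -/

theorem ub_lower {lam : ℝ} (h1 : 1 < lam) (h2 : lam < 2) {f : ℂ → ℂ} (hf : UBF lam f) :
    ∃ c R θ : ℝ, 0 < c ∧ 1 ≤ R ∧ -π < θ ∧ θ < π ∧
      ∀ r, R ≤ r → exp (c * r ^ lam) ≤ ‖f (ub_w r θ)‖ := by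
  have hl : 0 < lam := by linarith
  have hA := ub_A_pos h1 h2
  have hpi := pi_pos
  set θ : ℝ := π / lam with hθ
  have hθ0 : 0 < θ := by positivity
  have hθπ : θ < π := by
    rw [hθ, div_lt_iff₀ hl]
    nlinarith
  set η : ℝ := π - θ with hη
  have hη0 : 0 < η := by linarith
  have hη1 : η < π := by linarith
  set E : ℝ := 1 / sin η * (1 / (lam - 1) + 1) with hE
  have hsin : 0 < sin η := sin_pos_of_pos_of_lt_pi hη0 hη1
  have hE0 : 0 < E := by
    have : 0 < lam - 1 := by linarith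
    positivity
  have hlim : Tendsto (fun r : ℝ => r ^ (lam - 1)) atTop atTop := tendsto_rpow_atTop (by linarith)
  obtain ⟨R, hR⟩ := ((hlim.eventually_ge_atTop (2 * E / ub_A lam)).and
    (eventually_ge_atTop (1 : ℝ))).exists_forall_of_atTop
  refine ⟨ub_A lam / 2, max R 1, θ, by positivity, le_max_right _ _, by linarith, hθπ, ?_⟩
  intro r hr
  obtain ⟨h3, h4⟩ := hR r ((le_max_left _ _).trans hr)
  have hr0 : 0 < r := by linarith
  have habs : |θ| ≤ π - η := by
    rw [abs_of_pos hθ0]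
    linarith
  obtain ⟨hne, h5⟩ := ub_asym h1 h2 hf hr0 hη0 hη1 habs
  have h6 : lam * θ = π := by
    rw [hθ]
    field_simp
  rw [h6, cos_pi] at h5
  have h7 := (abs_le.1 h5).1
  have h8 : r / sin η * (1 / (lam - 1) + 1) = E * r := by rw [hE]; ring
  rw [h8] at h7
  have h9 : 2 * E * r ≤ ub_A lam * r ^ lam := by
    have e1 : r ^ lam = r ^ (lam - 1) * r := by
      rw [← rpow_add_one hr0.ne']
      congr 1
      ring
    rw [div_le_iff₀ hA] at h3
    rw [e1]
    nlinarith
  rw [← le_log_iff_exp_le (norm_pos_iff.2 hne)]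
  linarith

theorem ub_maxMod {lam : ℝ} {f : ℂ → ℂ} {C c r θ : ℝ} (hr : 1 ≤ r)
    (hcr : ∀ z : ℂ, 1 ≤ ‖z‖ → ‖f z‖ ≤ exp (C * ‖z‖ ^ lam))
    (hlo : exp (c * r ^ lam) ≤ ‖f (ub_w r θ)‖) :
    exp (c * r ^ lam) ≤ maxMod f r ∧ maxMod f r ≤ exp (C * r ^ lam) := by
  have hmem : ub_w r θ ∈ Metric.sphere (0 : ℂ) r := by
    rw [mem_sphere_zero_iff_norm]
    exact ub_w_norm (by linarith) θ
  have hub : ∀ x ∈ (fun z : ℂ => ‖f z‖) '' Metric.sphere (0 : ℂ) r, x ≤ exp (C * r ^ lam) := by
    rintro x ⟨z, hz, rfl⟩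
    rw [mem_sphere_zero_iff_norm] at hz
    have h2 := hcr z (by rw [hz]; exact hr)
    rw [hz] at h2
    exact h2
  constructor
  · exact hlo.trans (le_csSup ⟨_, hub⟩ ⟨_, hmem, rfl⟩)
  · exact csSup_le ⟨_, _, hmem, rfl⟩ hub

theorem ub_order {lam : ℝ} {f : ℂ → ℂ} {C c R θ : ℝ} (hC : 0 < C) (hc : 0 < c)
    (hcr : ∀ z : ℂ, 1 ≤ ‖z‖ → ‖f z‖ ≤ exp (C * ‖z‖ ^ lam))
    (hlo : ∀ r, R ≤ r → exp (c * r ^ lam) ≤ ‖f (ub_w r θ)‖) :
    lowerOrder f = (lam : EReal) := by
  have hlim : Tendsto (fun r : ℝ => log (log (maxMod f r)) / log r) atTop (𝓝 lam) := by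
    have hlow : Tendsto (fun r : ℝ => log c / log r + lam) atTop (𝓝 lam) := by
      have := (tendsto_log_atTop.const_div_atTop (log c)).add_const lam
      rwa [zero_add] at this
    have hup : Tendsto (fun r : ℝ => log C / log r + lam) atTop (𝓝 lam) := by
      have := (tendsto_log_atTop.const_div_atTop (log C)).add_const lam
      rwa [zero_add] at this
    refine tendsto_of_tendsto_of_tendsto_of_le_of_le' hlow hup ?_ ?_
    · filter_upwards [eventually_ge_atTop (max R 2)] with r hr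
      have hrR : R ≤ r := (le_max_left _ _).trans hr
      have hr2 : 2 ≤ r := (le_max_right _ _).trans hr
      have hr0 : 0 < r := by linarith
      have hlr : 0 < log r := log_pos (by linarith)
      have hp : 0 < r ^ lam := rpow_pos_of_pos hr0 _
      have hM := ub_maxMod (by linarith) hcr (hlo r hrR)
      have h2 : c * r ^ lam ≤ log (maxMod f r) := by
        rw [← log_exp (c * r ^ lam)]
        exact log_le_log (exp_pos _) hM.1
      have h3 : log (c * r ^ lam) ≤ log (log (maxMod f r)) := log_le_log (mul_pos hc hp) h2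
      rw [log_mul hc.ne' hp.ne', log_rpow hr0] at h3
      rw [le_div_iff₀ hlr, add_mul, div_mul_cancel₀ _ hlr.ne']
      exact h3
    · filter_upwards [eventually_ge_atTop (max R 2)] with r hr
      have hrR : R ≤ r := (le_max_left _ _).trans hr
      have hr2 : 2 ≤ r := (le_max_right _ _).trans hr
      have hr0 : 0 < r := by linarith
      have hlr : 0 < log r := log_pos (by linarith)
      have hp : 0 < r ^ lam := rpow_pos_of_pos hr0 _
      have hM := ub_maxMod (by linarith) hcr (hlo r hrR)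
      have h2 : c * r ^ lam ≤ log (maxMod f r) := by
        rw [← log_exp (c * r ^ lam)]
        exact log_le_log (exp_pos _) hM.1
      have h4 : log (maxMod f r) ≤ C * r ^ lam := by
        rw [← log_exp (C * r ^ lam)]
        exact log_le_log (lt_of_lt_of_le (exp_pos _) hM.1) hM.2
      have h3 : log (log (maxMod f r)) ≤ log (C * r ^ lam) :=
        log_le_log (lt_of_lt_of_le (mul_pos hc hp) h2) h4
      rw [log_mul hC.ne' hp.ne', log_rpow hr0] at h3
      rw [div_le_iff₀ hlr, add_mul, div_mul_cancel₀ _ hlr.ne']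
      exact h3
  have hE : Tendsto (fun r : ℝ => ((log (log (maxMod f r)) / log r : ℝ) : EReal)) atTop
      (𝓝 (lam : EReal)) := (continuous_coe_real_ereal.tendsto lam).comp hlim
  exact hE.liminf_eq

theorem nevT_pos {f : ℂ → ℂ} (hf : Differentiable ℂ f) {r θ : ℝ} (hθ1 : -π < θ) (hθ2 : θ < π)
    (h : 1 < ‖f (ub_w r θ)‖) : 0 < nevT f r := by
  rw [nevT_eq]
  have hpi := pi_pos
  refine mul_pos (inv_pos.2 (by positivity)) ?_
  refine intervalIntegral.integral_pos (by linarith) (posLog_cont hf r).continuousOn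
    (fun t _ => ?_) ⟨θ, ⟨hθ1.le, hθ2.le⟩, ?_⟩
  · exact posLog_nonneg
  · rw [posLog_eq _ (norm_nonneg _)]
    exact log_pos (lt_of_lt_of_le h (le_max_left _ _))

theorem D_le {f : ℂ → ℂ} {lam c R : ℝ} (hf : Differentiable ℂ f) (hc : ¬ ∃ c : ℂ, ∀ z, f z = c)
    (hlo : lowerOrder f = (lam : EReal))
    (h : ∀ r, R ≤ r → 0 < nevT f r ∧ minMod f r ≤ exp (-(c * nevT f r))) :
    D lam ≤ ((-c : ℝ) : EReal) := by
  have h1 : D lam ≤ minRatio f := by
    unfold MML.D
    exact iInf_le_of_le f (iInf_le_of_le hf (iInf_le_of_le hc (iInf_le_of_le hlo le_rfl)))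
  refine h1.trans ?_
  unfold MML.minRatio
  refine limsup_le_of_le (by isBoundedDefault) ?_
  filter_upwards [eventually_ge_atTop R] with r hr
  obtain ⟨hT, hm⟩ := h r hr
  have h2 : ENNReal.log (ENNReal.ofReal (minMod f r)) ≤ ((-(c * nevT f r) : ℝ) : EReal) := by
    have h3 : ENNReal.log (ENNReal.ofReal (minMod f r)) ≤
        ENNReal.log (ENNReal.ofReal (exp (-(c * nevT f r)))) :=
      ENNReal.log_monotone (ENNReal.ofReal_le_ofReal hm)
    rw [ENNReal.log_ofReal_of_pos (exp_pos _), log_exp] at h3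
    exact h3
  rw [EReal.div_le_iff_le_mul (by exact_mod_cast hT) (EReal.coe_ne_top _)]
  refine h2.trans (le_of_eq ?_)
  rw [← EReal.coe_mul]
  congr 1
  ring

end Pool.Agent.THX
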