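import Pool.Agent.THX.UBprod

/-!
# THX, module UBker: the kernel `z^2 / (t^2 (t + z))`

`log ‖E1 (-(z/a))‖ = - Re ∫_a^∞ z^2 / (t^2 (t + z)) dt` for `z` off the negative real axis.
-/

set_option autoImplicit false

namespace Pool.Agent.THX

open Filter Topology MeasureTheory Set
open Pool.Agent.MinMod (E1 norm_E1)

/-- the kernel -/
noncomputable def ub_G (z : ℂ) (t : ℝ) : ℂ := z ^ 2 / ((t : ℂ) ^ 2 * ((t : ℂ) + z))

/-- sector condition -/
def Sec (κ : ℝ) (z : ℂ) : Prop :=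
  0 < κ ∧ ∀ t : ℝ, 0 ≤ t → κ * ‖z‖ ≤ ‖(t : ℂ) + z‖ ∧ κ * t ≤ ‖(t : ℂ) + z‖

theorem Sec.ne {κ : ℝ} {z : ℂ} (h : Sec κ z) (hz : z ≠ 0) {t : ℝ} (ht : 0 ≤ t) : (t : ℂ) + z ≠ 0 := by
  intro h0
  have h1 := (h.2 t ht).1
  rw [h0, norm_zero] at h1
  have h2 : 0 < κ * ‖z‖ := mul_pos h.1 (norm_pos_iff.2 hz)
  linarith

theorem Sec.slit {κ : ℝ} {z : ℂ} (h : Sec κ z) (hz : z ≠ 0) : z ∈ Complex.slitPlane := by
  rw [Complex.mem_slitPlane_iff]
  by_contra hc
  rw [not_or, not_lt, not_not] at hc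
  have h1 := h.ne hz (t := -z.re) (by linarith [hc.1])
  apply h1
  apply Complex.ext
  · simp
  · simp [hc.2]

theorem slit_add {z : ℂ} (hz : z ∈ Complex.slitPlane) {t : ℝ} (ht : 0 ≤ t) :
    (t : ℂ) + z ∈ Complex.slitPlane := by
  rw [Complex.mem_slitPlane_iff] at hz ⊢
  rcases hz with h | h
  · left
    simp only [Complex.add_re, Complex.ofReal_re]
    linarith
  · right
    simpa using h

theorem norm_G {κ : ℝ} {z : ℂ} (h : Sec κ z) (hz : z ≠ 0) {t : ℝ} (ht : 0 < t) :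
    ‖ub_G z t‖ ≤ ‖z‖ / κ * (t ^ 2)⁻¹ ∧ ‖ub_G z t‖ ≤ ‖z‖ ^ 2 / κ * (t ^ 3)⁻¹ := by
  have hκ := h.1
  have hr : 0 < ‖z‖ := norm_pos_iff.2 hz
  obtain ⟨h1, h2⟩ := h.2 t ht.le
  have e : ‖ub_G z t‖ = ‖z‖ ^ 2 / (t ^ 2 * ‖(t : ℂ) + z‖) := by
    unfold ub_G
    rw [norm_div, norm_pow, norm_mul, norm_pow, Complex.norm_real, Real.norm_of_nonneg ht.le]
  rw [e]
  constructor
  · calc ‖z‖ ^ 2 / (t ^ 2 * ‖(t : ℂ) + z‖) ≤ ‖z‖ ^ 2 / (t ^ 2 * (κ * ‖z‖)) := by
          apply div_le_div_of_nonneg_left (by positivity) (by positivity)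
          exact mul_le_mul_of_nonneg_left h1 (by positivity)
      _ = ‖z‖ / κ * (t ^ 2)⁻¹ := by field_simp
  · calc ‖z‖ ^ 2 / (t ^ 2 * ‖(t : ℂ) + z‖) ≤ ‖z‖ ^ 2 / (t ^ 2 * (κ * t)) := by
          apply div_le_div_of_nonneg_left (by positivity) (by positivity)
          exact mul_le_mul_of_nonneg_left h2 (by positivity)
      _ = ‖z‖ ^ 2 / κ * (t ^ 3)⁻¹ := by field_simp

theorem G_contOn {κ : ℝ} {z : ℂ} (h : Sec κ z) (hz : z ≠ 0) : ContinuousOn (ub_G z) (Ioi 0) := by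
  unfold ub_G
  refine ContinuousOn.div continuousOn_const (by fun_prop) ?_
  intro t ht
  have ht' : (0 : ℝ) < t := ht
  exact mul_ne_zero (pow_ne_zero _ (by exact_mod_cast ht'.ne')) (h.ne hz ht'.le)

theorem G_int {κ : ℝ} {z : ℂ} (h : Sec κ z) (hz : z ≠ 0) {a : ℝ} (ha : 0 < a) :
    IntegrableOn (ub_G z) (Ioi a) := by
  have h1 : IntegrableOn (fun t : ℝ => ‖z‖ ^ 2 / κ * t ^ (-3 : ℝ)) (Ioi a) :=
    (integrableOn_Ioi_rpow_of_lt (by norm_num) ha).const_mul _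
  refine Integrable.mono' h1 ?_ ?_
  · exact ((G_contOn h hz).mono (Ioi_subset_Ioi ha.le)).aestronglyMeasurable measurableSet_Ioi
  · rw [ae_restrict_iff' measurableSet_Ioi]
    refine Eventually.of_forall fun t ht => ?_
    have ht0 : 0 < t := ha.trans ht
    refine (norm_G h hz ht0).2.trans (le_of_eq ?_)
    rw [Real.rpow_neg ht0.le]
    norm_num

theorem G_integral {κ : ℝ} {z : ℂ} (h : Sec κ z) (hz : z ≠ 0) {a : ℝ} (ha : 0 < a) :
    ∫ t in Ioi a, ub_G z t = -(Complex.log (1 + z / a) - z / a) := by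
  have hs := h.slit hz
  have hder : ∀ t ∈ Ici a, HasDerivAt (fun t : ℝ => Complex.log (1 + z / (t : ℂ)) - z / (t : ℂ))
      (ub_G z t) t := by
    intro t ht
    have ht0 : 0 < t := ha.trans_le ht
    have htc : (t : ℂ) ≠ 0 := by exact_mod_cast ht0.ne'
    have h1 : HasDerivAt (fun t : ℝ => z / (t : ℂ)) (-(z / (t : ℂ) ^ 2)) t := by
      have h2 : HasDerivAt (fun w : ℂ => z / w) (-(z / (t : ℂ) ^ 2)) (t : ℂ) := by
        have h2' := (hasDerivAt_inv htc).const_mul z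
        simp only [← div_eq_mul_inv] at h2'
        refine h2'.congr_deriv ?_
        rw [mul_neg, ← div_eq_mul_inv]
      exact h2.comp_ofReal
    have hsl : 1 + z / (t : ℂ) ∈ Complex.slitPlane := by
      have h3 := slit_add hs ht0.le
      have e3 : 1 + z / (t : ℂ) = ((t⁻¹ : ℝ) : ℂ) * ((t : ℂ) + z) := by
        push_cast
        field_simp
      rw [e3]
      have htinv : (0 : ℝ) < t⁻¹ := inv_pos.2 ht0
      rw [Complex.mem_slitPlane_iff] at h3 ⊢
      rw [Complex.re_ofReal_mul, Complex.im_ofReal_mul]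
      rcases h3 with h3 | h3
      · left; exact mul_pos htinv h3
      · right; exact mul_ne_zero htinv.ne' h3
    have h4 := ((h1.const_add 1).clog_real hsl).fun_sub h1
    refine h4.congr_deriv ?_
    have h5 : (t : ℂ) + z ≠ 0 := h.ne hz ht0.le
    have h6 : 1 + z / (t : ℂ) ≠ 0 := Complex.slitPlane_ne_zero hsl
    unfold ub_G
    have h7 : 1 + z / (t : ℂ) = ((t : ℂ) + z) / t := by field_simp
    rw [h7]
    field_simp
    ring
  have hlim : Tendsto (fun t : ℝ => Complex.log (1 + z / (t : ℂ)) - z / (t : ℂ)) atTop (𝓝 0) := by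
    have h1 : Tendsto (fun t : ℝ => z / (t : ℂ)) atTop (𝓝 0) := by
      have h2 : Tendsto (fun t : ℝ => ((t⁻¹ : ℝ) : ℂ)) atTop (𝓝 ((0 : ℝ) : ℂ)) :=
        (Complex.continuous_ofReal.tendsto 0).comp tendsto_inv_atTop_zero
      have h3 := h2.const_mul z
      simp only [Complex.ofReal_zero, mul_zero] at h3
      refine h3.congr fun t => ?_
      push_cast
      rw [div_eq_mul_inv]
    have h2 : Tendsto (fun t : ℝ => Complex.log (1 + z / (t : ℂ))) atTop (𝓝 (Complex.log 1)) := by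
      have h3 : Tendsto (fun t : ℝ => 1 + z / (t : ℂ)) atTop (𝓝 1) := by
        simpa using h1.const_add 1
      exact ((continuousAt_clog (by simp)).tendsto).comp h3
    have h3 := h2.sub h1
    simpa using h3
  have := integral_Ioi_of_hasDerivAt_of_tendsto' hder (G_int h hz ha) hlim
  rw [this]
  ring

theorem log_E1 {κ : ℝ} {z : ℂ} (h : Sec κ z) (hz : z ≠ 0) {a : ℝ} (ha : 0 < a) :
    E1 (-(z / (a : ℂ))) ≠ 0 ∧
      Real.log ‖E1 (-(z / (a : ℂ)))‖ = -(∫ t in Ioi a, ub_G z t).re := by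
  have hac : (a : ℂ) ≠ 0 := by exact_mod_cast ha.ne'
  have h6 : 1 + z / (a : ℂ) ≠ 0 := by
    have h7 : 1 + z / (a : ℂ) = ((a : ℂ) + z) / a := by field_simp
    rw [h7]
    exact div_ne_zero (h.ne hz ha.le) hac
  constructor
  · unfold MinMod.E1
    rw [sub_neg_eq_add]
    exact mul_ne_zero h6 (Complex.exp_ne_zero _)
  · rw [G_integral h hz ha, norm_E1, sub_neg_eq_add, Real.log_mul (norm_ne_zero_iff.2 h6)
      (Real.exp_pos _).ne', Real.log_exp]
    simp only [Complex.neg_re, Complex.sub_re, Complex.log_re]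
    ring

end Pool.Agent.THX
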