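import Pool.Agent.THX.UBker

/-!
# THX, module UBmain: `log ‖f z‖` as an integral against the counting function

`ub_c lam t = ⌈t^lam⌉ - 1` is the number of `n` with `ub_a lam n < t`.
-/

set_option autoImplicit false

namespace Pool.Agent.THX

open Filter Topology MeasureTheory Set
open Pool.Agent.MinMod (E1)

/-- counting function of the zeros -/
noncomputable def ub_c (lam t : ℝ) : ℕ := ⌈t ^ lam⌉₊ - 1

theorem ub_lt_iff {lam : ℝ} (hl : 0 < lam) {t : ℝ} (ht : 0 < t) (n : ℕ) :
    ub_a lam n < t ↔ n < ub_c lam t := by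
  have h1 : ub_a lam n < t ↔ (n : ℝ) + 1 < t ^ lam := by
    unfold ub_a
    constructor
    · intro h
      have h2 := Real.rpow_lt_rpow (by positivity) h hl
      rwa [← Real.rpow_mul (by positivity), one_div, inv_mul_cancel₀ hl.ne', Real.rpow_one] at h2
    · intro h
      have h2 := Real.rpow_lt_rpow (by positivity) h (by positivity : 0 < 1 / lam)
      rwa [← Real.rpow_mul ht.le, one_div, mul_inv_cancel₀ hl.ne', Real.rpow_one, ← one_div] at h2
  rw [h1]
  have h3 : ((n : ℝ) + 1 < t ^ lam) ↔ n + 1 < ⌈t ^ lam⌉₊ := by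
    rw [Nat.lt_ceil]
    push_cast
    rfl
  rw [h3]
  unfold ub_c
  omega

theorem ub_c_le {lam t : ℝ} (ht : 0 < t) : (ub_c lam t : ℝ) ≤ t ^ lam := by
  have hp : 0 < t ^ lam := Real.rpow_pos_of_pos ht _
  unfold ub_c
  have h1 : 1 ≤ ⌈t ^ lam⌉₊ := Nat.one_le_ceil_iff.2 hp
  rw [Nat.cast_sub h1]
  have := Nat.ceil_lt_add_one hp.le
  push_cast
  linarith

theorem ub_c_ge {lam t : ℝ} (ht : 0 < t) : t ^ lam - 1 ≤ ub_c lam t := by
  have hp : 0 < t ^ lam := Real.rpow_pos_of_pos ht _
  unfold ub_c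
  have h1 : 1 ≤ ⌈t ^ lam⌉₊ := Nat.one_le_ceil_iff.2 hp
  rw [Nat.cast_sub h1]
  have := Nat.le_ceil (t ^ lam)
  push_cast
  linarith

theorem sum_ind {lam : ℝ} (hl : 0 < lam) (z : ℂ) (N : ℕ) {t : ℝ} (ht : 0 < t) :
    ∑ n ∈ Finset.range N, (Ioi (ub_a lam n)).indicator (ub_G z) t =
      ((min N (ub_c lam t) : ℕ) : ℂ) * ub_G z t := by
  have h1 : ∀ n ∈ Finset.range N, (Ioi (ub_a lam n)).indicator (ub_G z) t =
      if n < ub_c lam t then ub_G z t else 0 := by
    intro n _
    rw [indicator_apply]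
    simp only [mem_Ioi, ub_lt_iff hl ht]
  rw [Finset.sum_congr rfl h1, ← Finset.sum_filter, Finset.sum_const, nsmul_eq_mul]
  congr 2
  have h2 : (Finset.range N).filter (fun n => n < ub_c lam t) = Finset.range (min N (ub_c lam t)) := by
    ext n
    simp only [Finset.mem_filter, Finset.mem_range, lt_min_iff]
  rw [h2, Finset.card_range]

theorem G_meas (z : ℂ) : Measurable (ub_G z) := by
  unfold ub_G
  fun_prop

theorem G_pow_int {lam κ : ℝ} {z : ℂ} (h1 : 1 < lam) (h2 : lam < 2) (h : Sec κ z) (hz : z ≠ 0) :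
    IntegrableOn (fun t : ℝ => t ^ lam * ‖ub_G z t‖) (Ioi 0) := by
  have hκ := h.1
  have hmeas : Measurable (fun t : ℝ => t ^ lam * ‖ub_G z t‖) :=
    (measurable_id.pow_const lam).mul (G_meas z).norm
  rw [← Ioc_union_Ioi_eq_Ioi (zero_le_one' ℝ), integrableOn_union]
  constructor
  · have h3 : IntegrableOn (fun t : ℝ => ‖z‖ / κ * t ^ (lam - 2)) (Ioc 0 1) := by
      have := (intervalIntegral.intervalIntegrable_rpow' (a := 0) (b := 1)
        (by linarith : -1 < lam - 2)).const_mul (‖z‖ / κ)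
      rwa [intervalIntegrable_iff_integrableOn_Ioc_of_le zero_le_one] at this
    refine Integrable.mono' h3 hmeas.aestronglyMeasurable ?_
    rw [ae_restrict_iff' measurableSet_Ioc]
    refine Eventually.of_forall fun t ht => ?_
    have ht0 : 0 < t := ht.1
    have hp : 0 < t ^ lam := Real.rpow_pos_of_pos ht0 _
    rw [norm_mul, norm_norm, Real.norm_of_nonneg hp.le]
    calc t ^ lam * ‖ub_G z t‖ ≤ t ^ lam * (‖z‖ / κ * (t ^ 2)⁻¹) :=
          mul_le_mul_of_nonneg_left (norm_G h hz ht0).1 hp.le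
      _ = ‖z‖ / κ * t ^ (lam - 2) := by
          rw [Real.rpow_sub ht0]
          norm_num
          ring
  · have h3 : IntegrableOn (fun t : ℝ => ‖z‖ ^ 2 / κ * t ^ (lam - 3)) (Ioi 1) :=
      (integrableOn_Ioi_rpow_of_lt (by linarith) one_pos).const_mul _
    refine Integrable.mono' h3 hmeas.aestronglyMeasurable ?_
    rw [ae_restrict_iff' measurableSet_Ioi]
    refine Eventually.of_forall fun t ht => ?_
    have ht0 : 0 < t := one_pos.trans ht
    have hp : 0 < t ^ lam := Real.rpow_pos_of_pos ht0 _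
    rw [norm_mul, norm_norm, Real.norm_of_nonneg hp.le]
    calc t ^ lam * ‖ub_G z t‖ ≤ t ^ lam * (‖z‖ ^ 2 / κ * (t ^ 3)⁻¹) :=
          mul_le_mul_of_nonneg_left (norm_G h hz ht0).2 hp.le
      _ = ‖z‖ ^ 2 / κ * t ^ (lam - 3) := by
          rw [Real.rpow_sub ht0]
          norm_num
          ring

theorem ub_c_meas (lam : ℝ) : Measurable (fun t : ℝ => (ub_c lam t : ℝ)) := by
  unfold ub_c
  have h1 : Measurable (fun t : ℝ => ⌈t ^ lam⌉₊) := Nat.measurable_ceil.comp (measurable_id.pow_const lam)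
  have h2 : Measurable (fun n : ℕ => ((n - 1 : ℕ) : ℝ)) := measurable_from_nat
  exact h2.comp h1

theorem main_log {lam κ : ℝ} {z : ℂ} {f : ℂ → ℂ} (h1 : 1 < lam) (h2 : lam < 2) (hf : UBF lam f)
    (h : Sec κ z) (hz : z ≠ 0) :
    f z ≠ 0 ∧ Real.log ‖f z‖ = -(∫ t in Ioi (0 : ℝ), (ub_c lam t : ℂ) * ub_G z t).re := by
  have hl : 0 < lam := by linarith
  have hlogN : ∀ N : ℕ, ub_P lam N z ≠ 0 ∧ Real.log ‖ub_P lam N z‖ =
      -(∫ t in Ioi (0 : ℝ), ((min N (ub_c lam t) : ℕ) : ℂ) * ub_G z t).re := by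
    intro N
    have hne : ∀ n, E1 (-(z / (ub_a lam n : ℂ))) ≠ 0 := fun n => (log_E1 h hz (ub_a_pos lam n)).1
    constructor
    · unfold ub_P
      exact Finset.prod_ne_zero_iff.2 fun n _ => hne n
    · have e1 : Real.log ‖ub_P lam N z‖ = -(∑ n ∈ Finset.range N, ∫ t in Ioi (ub_a lam n), ub_G z t).re := by
        unfold ub_P
        rw [norm_prod, Real.log_prod (fun n _ => norm_ne_zero_iff.2 (hne n)), Complex.re_sum,
          ← Finset.sum_neg_distrib]
        exact Finset.sum_congr rfl fun n _ => (log_E1 h hz (ub_a_pos lam n)).2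
      rw [e1]
      congr 2
      have e2 : ∀ n ∈ Finset.range N, ∫ t in Ioi (ub_a lam n), ub_G z t =
          ∫ t in Ioi (0 : ℝ), (Ioi (ub_a lam n)).indicator (ub_G z) t := by
        intro n _
        rw [setIntegral_indicator measurableSet_Ioi, inter_eq_self_of_subset_right
          (Ioi_subset_Ioi (ub_a_pos lam n).le)]
      rw [Finset.sum_congr rfl e2, ← integral_finsetSum]
      · refine setIntegral_congr_fun measurableSet_Ioi fun t ht => ?_
        exact sum_ind hl z N ht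
      · intro n _
        have := (G_int h hz (ub_a_pos lam n)).integrable_indicator measurableSet_Ioi
        exact this.integrableOn
  have hlim : Tendsto (fun N : ℕ => ∫ t in Ioi (0 : ℝ), ((min N (ub_c lam t) : ℕ) : ℂ) * ub_G z t) atTop
      (𝓝 (∫ t in Ioi (0 : ℝ), (ub_c lam t : ℂ) * ub_G z t)) := by
    refine tendsto_integral_of_dominated_convergence (fun t => t ^ lam * ‖ub_G z t‖) ?_
      (G_pow_int h1 h2 h hz) ?_ ?_
    · intro N
      have hm : Measurable (fun t : ℝ => ((min N (ub_c lam t) : ℕ) : ℂ)) := by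
        have h3 : Measurable (fun t : ℝ => ub_c lam t) := by
          unfold ub_c
          exact (Nat.measurable_ceil.comp (measurable_id.pow_const lam)).sub measurable_const
        have h4 : Measurable (fun n : ℕ => ((min N n : ℕ) : ℂ)) := measurable_from_nat
        exact h4.comp h3
      exact (hm.mul (G_meas z)).aestronglyMeasurable
    · intro N
      rw [ae_restrict_iff' measurableSet_Ioi]
      refine Eventually.of_forall fun t ht => ?_
      rw [norm_mul, Complex.norm_natCast]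
      apply mul_le_mul_of_nonneg_right _ (norm_nonneg _)
      have h3 : ((min N (ub_c lam t) : ℕ) : ℝ) ≤ ub_c lam t := by
        exact_mod_cast min_le_right _ _
      exact h3.trans (ub_c_le ht)
    · rw [ae_restrict_iff' measurableSet_Ioi]
      refine Eventually.of_forall fun t _ => ?_
      refine tendsto_const_nhds.congr' ?_
      filter_upwards [eventually_ge_atTop (ub_c lam t)] with N hN
      rw [min_eq_right hN]
  set I := ∫ t in Ioi (0 : ℝ), (ub_c lam t : ℂ) * ub_G z t with hI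
  have h3 : Tendsto (fun N => Real.log ‖ub_P lam N z‖) atTop (𝓝 (-I.re)) := by
    have h4 := ((Complex.continuous_re.tendsto I).comp hlim).neg
    refine h4.congr fun N => ?_
    exact (hlogN N).2.symm
  have h5 : Tendsto (fun N => ‖ub_P lam N z‖) atTop (𝓝 (Real.exp (-I.re))) := by
    refine ((Real.continuous_exp.tendsto _).comp h3).congr fun N => ?_
    exact Real.exp_log (norm_pos_iff.2 (hlogN N).1)
  have h6 : ‖f z‖ = Real.exp (-I.re) := tendsto_nhds_unique ((hf.2 z).norm) h5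
  constructor
  · intro h0
    rw [h0, norm_zero] at h6
    exact (Real.exp_pos _).ne h6
  · rw [h6, Real.log_exp]

theorem main_err {lam κ : ℝ} {z : ℂ} {f : ℂ → ℂ} (h1 : 1 < lam) (h2 : lam < 2) (hf : UBF lam f)
    (h : Sec κ z) (hz : z ≠ 0) :
    |Real.log ‖f z‖ + (∫ t in Ioi (0 : ℝ), ((t ^ lam : ℝ) : ℂ) * ub_G z t).re| ≤
      ‖z‖ / κ * (1 / (lam - 1) + 1) := by
  have hκ := h.1
  have hl : 0 < lam := by linarith
  rw [(main_log h1 h2 hf h hz).2]
  have hcm : Measurable (fun t : ℝ => ((ub_c lam t : ℝ) : ℂ)) :=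
    Complex.measurable_ofReal.comp (ub_c_meas lam)
  have hpm : Measurable (fun t : ℝ => ((t ^ lam : ℝ) : ℂ)) :=
    Complex.measurable_ofReal.comp (measurable_id.pow_const lam)
  have i1 : IntegrableOn (fun t : ℝ => (ub_c lam t : ℂ) * ub_G z t) (Ioi 0) := by
    refine Integrable.mono' (G_pow_int h1 h2 h hz) ?_ ?_
    · have : Measurable (fun t : ℝ => (ub_c lam t : ℂ)) := by simpa using hcm
      exact (this.mul (G_meas z)).aestronglyMeasurable
    · rw [ae_restrict_iff' measurableSet_Ioi]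
      refine Eventually.of_forall fun t ht => ?_
      rw [norm_mul, Complex.norm_natCast]
      exact mul_le_mul_of_nonneg_right (ub_c_le ht) (norm_nonneg _)
  have i2 : IntegrableOn (fun t : ℝ => ((t ^ lam : ℝ) : ℂ) * ub_G z t) (Ioi 0) := by
    refine Integrable.mono' (G_pow_int h1 h2 h hz) (hpm.mul (G_meas z)).aestronglyMeasurable ?_
    rw [ae_restrict_iff' measurableSet_Ioi]
    refine Eventually.of_forall fun t ht => ?_
    rw [norm_mul, Complex.norm_real, Real.norm_of_nonneg (Real.rpow_nonneg (le_of_lt ht) _)]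
  have e1 : -(∫ t in Ioi (0 : ℝ), (ub_c lam t : ℂ) * ub_G z t).re +
      (∫ t in Ioi (0 : ℝ), ((t ^ lam : ℝ) : ℂ) * ub_G z t).re =
      (∫ t in Ioi (0 : ℝ), (((t ^ lam : ℝ) : ℂ) * ub_G z t - (ub_c lam t : ℂ) * ub_G z t)).re := by
    rw [integral_sub i2 i1, Complex.sub_re]
    ring
  rw [e1]
  refine (Complex.abs_re_le_norm _).trans ?_
  set B : ℝ → ℝ := fun t => if t ≤ 1 then ‖z‖ / κ * t ^ (lam - 2) else ‖z‖ / κ * t ^ (-2 : ℝ) with hB
  have hBm : Measurable B := by
    rw [hB]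
    exact Measurable.ite measurableSet_Iic ((measurable_id.pow_const _).const_mul _)
      ((measurable_id.pow_const _).const_mul _)
  have j1 : IntegrableOn (fun t : ℝ => ‖z‖ / κ * t ^ (lam - 2)) (Ioc 0 1) := by
    have := (intervalIntegral.intervalIntegrable_rpow' (a := 0) (b := 1)
      (by linarith : -1 < lam - 2)).const_mul (‖z‖ / κ)
    rwa [intervalIntegrable_iff_integrableOn_Ioc_of_le zero_le_one] at this
  have j2 : IntegrableOn (fun t : ℝ => ‖z‖ / κ * t ^ (-2 : ℝ)) (Ioi 1) :=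
    (integrableOn_Ioi_rpow_of_lt (by norm_num) one_pos).const_mul _
  have c1 : EqOn B (fun t : ℝ => ‖z‖ / κ * t ^ (lam - 2)) (Ioc 0 1) := by
    intro t ht
    simp only [hB, if_pos ht.2]
  have c2 : EqOn B (fun t : ℝ => ‖z‖ / κ * t ^ (-2 : ℝ)) (Ioi 1) := by
    intro t ht
    have ht1 : ¬ t ≤ 1 := not_le.2 (mem_Ioi.1 ht)
    simp only [hB, if_neg ht1]
  have k1 : IntegrableOn B (Ioc 0 1) := (integrableOn_congr_fun c1 measurableSet_Ioc).2 j1
  have k2 : IntegrableOn B (Ioi 1) := (integrableOn_congr_fun c2 measurableSet_Ioi).2 j2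
  have kB : IntegrableOn B (Ioi 0) := by
    rw [← Ioc_union_Ioi_eq_Ioi (zero_le_one' ℝ), integrableOn_union]
    exact ⟨k1, k2⟩
  have hb : ∀ᵐ t ∂(volume.restrict (Ioi (0 : ℝ))),
      ‖((t ^ lam : ℝ) : ℂ) * ub_G z t - (ub_c lam t : ℂ) * ub_G z t‖ ≤ B t := by
    rw [ae_restrict_iff' measurableSet_Ioi]
    refine Eventually.of_forall fun t ht => ?_
    have ht0 : (0 : ℝ) < t := ht
    have hp : 0 < t ^ lam := Real.rpow_pos_of_pos ht0 _
    have e2 : ((t ^ lam : ℝ) : ℂ) * ub_G z t - (ub_c lam t : ℂ) * ub_G z t =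
        ((t ^ lam - ub_c lam t : ℝ) : ℂ) * ub_G z t := by
      push_cast
      ring
    rw [e2, norm_mul, Complex.norm_real, Real.norm_of_nonneg (by linarith [ub_c_le (lam := lam) ht0])]
    have hG := (norm_G h hz ht0).1
    have hG0 := norm_nonneg (ub_G z t)
    have hcg := ub_c_ge (lam := lam) ht0
    have hcl := ub_c_le (lam := lam) ht0
    have hc0 : (0 : ℝ) ≤ ub_c lam t := Nat.cast_nonneg _
    simp only [hB]
    split_ifs with h3
    · calc (t ^ lam - ub_c lam t) * ‖ub_G z t‖ ≤ t ^ lam * (‖z‖ / κ * (t ^ 2)⁻¹) := by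
            apply mul_le_mul (by linarith) hG hG0 hp.le
        _ = ‖z‖ / κ * t ^ (lam - 2) := by
            rw [Real.rpow_sub ht0]
            norm_num
            ring
    · calc (t ^ lam - ub_c lam t) * ‖ub_G z t‖ ≤ 1 * (‖z‖ / κ * (t ^ 2)⁻¹) := by
            apply mul_le_mul (by linarith) hG hG0 (by norm_num)
        _ = ‖z‖ / κ * t ^ (-2 : ℝ) := by
            rw [Real.rpow_neg ht0.le]
            norm_num
  refine (norm_integral_le_of_norm_le kB hb).trans (le_of_eq ?_)
  rw [← Ioc_union_Ioi_eq_Ioi (zero_le_one' ℝ), setIntegral_union (Ioc_disjoint_Ioi le_rfl)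
    measurableSet_Ioi k1 k2, setIntegral_congr_fun measurableSet_Ioc c1,
    setIntegral_congr_fun measurableSet_Ioi c2, integral_const_mul, integral_const_mul,
    ← intervalIntegral.integral_of_le zero_le_one, integral_rpow (Or.inl (by linarith)),
    integral_Ioi_rpow_of_lt (by norm_num) one_pos, Real.one_rpow, Real.zero_rpow (by linarith),
    Real.one_rpow]
  have : lam - 2 + 1 = lam - 1 := by ring
  rw [this]
  norm_num
  ring

end Pool.Agent.THX
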