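import Pool.Agent.MinMod.Fac

/-!
# THX, module UBprod: the canonical product with zeros at `-(n+1)^(1/lam)`

Project THX (MP_b22b9c_an), theorem UB (upper bound for `D lam`, `1 ≤ lam ≤ 5/4`).
`ub_a lam n = (n+1)^(1/lam)`, `ub_P lam N z = ∏_{n<N} E1 (-(z / ub_a lam n))`; the product converges to an entire
function `f`, and `‖f z‖ ≤ exp (C ‖z‖^lam)` for `‖z‖ ≥ 1`.
-/

set_option autoImplicit false

namespace Pool.Agent.THX

open Filter Topology Finset
open Pool.Agent.MinMod (E1 norm_E1_two norm_E1_sq norm_E1_sub_one)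

/-- moduli of the zeros -/
noncomputable def ub_a (lam : ℝ) (n : ℕ) : ℝ := ((n : ℝ) + 1) ^ (1 / lam)

/-- partial products -/
noncomputable def ub_P (lam : ℝ) (N : ℕ) (z : ℂ) : ℂ :=
  ∏ n ∈ range N, E1 (-(z / (ub_a lam n : ℂ)))

/-- `f` is the canonical product -/
def UBF (lam : ℝ) (f : ℂ → ℂ) : Prop :=
  Differentiable ℂ f ∧ ∀ z, Tendsto (fun N => ub_P lam N z) atTop (𝓝 (f z))

theorem ub_a_pos (lam : ℝ) (n : ℕ) : 0 < ub_a lam n := Real.rpow_pos_of_pos (by positivity) _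

theorem ub_a_sq {lam : ℝ} (n : ℕ) : (ub_a lam n ^ 2)⁻¹ = ((n : ℝ) + 1) ^ (-(2 / lam)) := by
  unfold ub_a
  rw [← Real.rpow_natCast, ← Real.rpow_mul (by positivity), Real.rpow_neg (by positivity)]
  congr 2
  push_cast
  ring

theorem ub_norm (lam : ℝ) (n : ℕ) (z : ℂ) : ‖-(z / (ub_a lam n : ℂ))‖ = ‖z‖ / ub_a lam n := by
  rw [norm_neg, norm_div, Complex.norm_real, Real.norm_of_nonneg (ub_a_pos lam n).le]

theorem ub_exists {lam : ℝ} (h1 : 0 < lam) (h2 : lam < 2) : ∃ f : ℂ → ℂ, UBF lam f := by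
  have hs : Summable (fun n : ℕ => ((n : ℝ) + 1) ^ (-(2 / lam))) := by
    have h3 : Summable (fun n : ℕ => (n : ℝ) ^ (-(2 / lam))) := by
      rw [Real.summable_nat_rpow]
      rw [neg_lt_neg_iff, lt_div_iff₀ h1]
      linarith
    have := (summable_nat_add_iff 1).2 h3
    simpa using this
  have hd : ∀ n : ℕ, Differentiable ℂ (fun z => E1 (-(z / (ub_a lam n : ℂ)))) := by
    intro n
    unfold MinMod.E1
    fun_prop
  have htend : Tendsto (fun n : ℕ => ub_a lam n) atTop atTop := by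
    unfold ub_a
    exact (tendsto_rpow_atTop (by positivity : 0 < 1 / lam)).comp
      (tendsto_natCast_atTop_atTop.atTop_add tendsto_const_nhds)
  have eP : ∀ (N : ℕ) (z : ℂ), ub_P lam N z =
      ∏ n ∈ range N, (1 + (E1 (-(z / (ub_a lam n : ℂ))) - 1)) := by
    intro N z
    unfold ub_P
    refine Finset.prod_congr rfl fun n _ => ?_
    ring
  have key : ∀ R : ℝ, 0 < R → TendstoLocallyUniformlyOn (fun N z => ub_P lam N z)
      (fun z => ∏' n, (1 + (E1 (-(z / (ub_a lam n : ℂ))) - 1))) atTop (Metric.ball 0 R) := by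
    intro R hR
    have hU : Summable (fun n : ℕ => 3 * R ^ 2 * ((n : ℝ) + 1) ^ (-(2 / lam))) := hs.mul_left _
    have hb : ∀ᶠ n in atTop, ∀ z ∈ Metric.ball (0 : ℂ) R, ‖E1 (-(z / (ub_a lam n : ℂ))) - 1‖ ≤
        3 * R ^ 2 * ((n : ℝ) + 1) ^ (-(2 / lam)) := by
      filter_upwards [htend.eventually_ge_atTop R] with n hn z hz
      have hz' : ‖z‖ ≤ R := (mem_ball_zero_iff.1 hz).le
      have ha := ub_a_pos lam n
      have h4 : ‖-(z / (ub_a lam n : ℂ))‖ ≤ 1 := by
        rw [ub_norm, div_le_one ha]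
        exact hz'.trans hn
      refine (norm_E1_sub_one _ h4).trans ?_
      rw [ub_norm, div_pow, ← ub_a_sq, div_eq_mul_inv, ← mul_assoc]
      apply mul_le_mul_of_nonneg_right _ (by positivity)
      apply mul_le_mul_of_nonneg_left _ (by norm_num)
      exact pow_le_pow_left₀ (norm_nonneg z) hz' 2
    have := (Summable.hasProdLocallyUniformlyOn_nat_one_add (K := Metric.ball (0 : ℂ) R)
      Metric.isOpen_ball hU hb
      (fun n => ((hd n).continuous.sub continuous_const).continuousOn)).tendstoLocallyUniformlyOn_finsetRange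
    simpa only [eP] using this
  refine ⟨fun z => ∏' n, (1 + (E1 (-(z / (ub_a lam n : ℂ))) - 1)), fun z => ?_, fun z => ?_⟩
  · have hz : z ∈ Metric.ball (0 : ℂ) (‖z‖ + 1) := by simp
    have h2 := (key (‖z‖ + 1) (by positivity)).differentiableOn
      (Eventually.of_forall fun N => ?_) Metric.isOpen_ball
    · exact (h2 z hz).differentiableAt (Metric.isOpen_ball.mem_nhds hz)
    · unfold ub_P
      refine Differentiable.differentiableOn ?_
      exact Differentiable.fun_finsetProd fun n _ => hd n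
  · have hz : z ∈ Metric.ball (0 : ℂ) (‖z‖ + 1) := by simp
    exact (key (‖z‖ + 1) (by positivity)).tendsto_at hz

/-! ### sums -/

theorem sum_lowp {p : ℝ} (h0 : 0 < p) (h1 : p < 1) (M : ℕ) :
    ∑ n ∈ range M, ((n : ℝ) + 1) ^ (-p) ≤ (M : ℝ) ^ (1 - p) / (1 - p) := by
  have hq : 0 < 1 - p := by linarith
  induction M with
  | zero =>
    simp only [range_zero, sum_empty, Nat.cast_zero]
    rw [Real.zero_rpow hq.ne']
    simp
  | succ M ih =>
    rw [sum_range_succ]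
    have hM : (0 : ℝ) < (M : ℝ) + 1 := by positivity
    have h2 : (M : ℝ) ^ (1 - p) ≤ ((M : ℝ) + 1) ^ (1 - p) - (1 - p) * ((M : ℝ) + 1) ^ (-p) := by
      have e1 : (M : ℝ) = ((M : ℝ) + 1) * (1 + -(1 / ((M : ℝ) + 1))) := by field_simp; ring
      have h3 : -1 ≤ -(1 / ((M : ℝ) + 1)) := by
        rw [neg_le_neg_iff, div_le_one hM]
        have := Nat.cast_nonneg (α := ℝ) M
        linarith
      have h4 := rpow_one_add_le_one_add_mul_self h3 hq.le (by linarith : 1 - p ≤ 1)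
      have h5 : (M : ℝ) ^ (1 - p) =
          ((M : ℝ) + 1) ^ (1 - p) * (1 + -(1 / ((M : ℝ) + 1))) ^ (1 - p) := by
        rw [← Real.mul_rpow hM.le (by linarith), ← e1]
      have h6 : ((M : ℝ) + 1) ^ (-p) = ((M : ℝ) + 1) ^ (1 - p) / ((M : ℝ) + 1) := by
        rw [← Real.rpow_sub_one hM.ne']
        congr 1
        ring
      rw [h5, h6]
      have h7 : (0 : ℝ) < ((M : ℝ) + 1) ^ (1 - p) := Real.rpow_pos_of_pos hM _
      calc ((M : ℝ) + 1) ^ (1 - p) * (1 + -(1 / ((M : ℝ) + 1))) ^ (1 - p)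
          ≤ ((M : ℝ) + 1) ^ (1 - p) * (1 + (1 - p) * -(1 / ((M : ℝ) + 1))) :=
            mul_le_mul_of_nonneg_left h4 h7.le
        _ = _ := by ring
    rw [le_div_iff₀ hq] at ih ⊢
    push_cast
    nlinarith

theorem sum_highp {q : ℝ} (h1 : 1 < q) {M N : ℕ} (hM : 1 ≤ M) (hMN : M ≤ N) :
    ∑ n ∈ Ico M N, ((n : ℝ) + 1) ^ (-q) ≤ ((M : ℝ) ^ (1 - q) - (N : ℝ) ^ (1 - q)) / (q - 1) := by
  have hq : 0 < q - 1 := by linarith
  induction N, hMN using Nat.le_induction with
  | base => simp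
  | succ N hN ih =>
    rw [sum_Ico_succ_top hN]
    have hN1 : (1 : ℝ) ≤ N := by exact_mod_cast hM.trans hN
    have hN0 : (0 : ℝ) < N := by linarith
    have hN2 : (0 : ℝ) < (N : ℝ) + 1 := by positivity
    have h2 : ((N : ℝ) + 1) ^ (1 - q) + (q - 1) * ((N : ℝ) + 1) ^ (-q) ≤ (N : ℝ) ^ (1 - q) := by
      have hx0 : (0 : ℝ) < (N : ℝ) / ((N : ℝ) + 1) := by positivity
      have h3 : 1 + (q - 1) / ((N : ℝ) + 1) ≤ ((N : ℝ) / ((N : ℝ) + 1)) ^ (1 - q) := by
        rw [Real.rpow_def_of_pos hx0]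
        have h4 := Real.add_one_le_exp (Real.log ((N : ℝ) / ((N : ℝ) + 1)) * (1 - q))
        have h5 := Real.log_le_sub_one_of_pos hx0
        have h6 : (N : ℝ) / ((N : ℝ) + 1) - 1 = -(1 / ((N : ℝ) + 1)) := by field_simp; ring
        rw [h6] at h5
        have h7 : (q - 1) / ((N : ℝ) + 1) ≤ Real.log ((N : ℝ) / ((N : ℝ) + 1)) * (1 - q) := by
          have : (q - 1) / ((N : ℝ) + 1) = -(1 / ((N : ℝ) + 1)) * (1 - q) := by ring
          rw [this]
          nlinarith
        linarith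
      have h5 : (N : ℝ) ^ (1 - q) = ((N : ℝ) + 1) ^ (1 - q) * ((N : ℝ) / ((N : ℝ) + 1)) ^ (1 - q) := by
        rw [← Real.mul_rpow hN2.le hx0.le]
        congr 1
        field_simp
      have h6 : ((N : ℝ) + 1) ^ (-q) = ((N : ℝ) + 1) ^ (1 - q) / ((N : ℝ) + 1) := by
        rw [← Real.rpow_sub_one hN2.ne']
        congr 1
        ring
      rw [h5, h6]
      have h7 : (0 : ℝ) < ((N : ℝ) + 1) ^ (1 - q) := Real.rpow_pos_of_pos hN2 _
      calc ((N : ℝ) + 1) ^ (1 - q) + (q - 1) * (((N : ℝ) + 1) ^ (1 - q) / ((N : ℝ) + 1))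
          = ((N : ℝ) + 1) ^ (1 - q) * (1 + (q - 1) / ((N : ℝ) + 1)) := by ring
        _ ≤ _ := mul_le_mul_of_nonneg_left h3 h7.le
    rw [le_div_iff₀ hq] at ih ⊢
    push_cast
    nlinarith

/-- crude bound -/
theorem ub_crude {lam : ℝ} (h1 : 1 < lam) (h2 : lam < 2) {f : ℂ → ℂ} (hf : UBF lam f) :
    ∃ C : ℝ, 0 < C ∧ ∀ z : ℂ, 1 ≤ ‖z‖ → ‖f z‖ ≤ Real.exp (C * ‖z‖ ^ lam) := by
  have hl0 : 0 < lam := by linarith
  have hp0 : 0 < 1 / lam := by positivity
  have hp1 : 1 / lam < 1 := by rw [div_lt_one hl0]; exact h1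
  have hq1 : 1 < 2 / lam := by rw [lt_div_iff₀ hl0]; linarith
  refine ⟨2 * (2 / (1 - 1 / lam)) + 1 / (2 / lam - 1), ?_, ?_⟩
  · have : 0 < 1 - 1 / lam := by linarith
    have : 0 < 2 / lam - 1 := by linarith
    positivity
  intro z hz
  set r := ‖z‖ with hr
  have hr0 : 0 < r := by linarith
  have hrl : 1 ≤ r ^ lam := Real.one_le_rpow hz hl0.le
  set M := ⌈r ^ lam⌉₊ with hM
  have hMge : r ^ lam ≤ M := Nat.le_ceil _
  have hMle : (M : ℝ) ≤ 2 * r ^ lam := by
    have := Nat.ceil_lt_add_one (by positivity : 0 ≤ r ^ lam)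
    linarith
  have hM1 : 1 ≤ M := by
    have : (1 : ℝ) ≤ M := hrl.trans hMge
    exact_mod_cast this
  have hbound : ∀ N : ℕ, ‖ub_P lam N z‖ ≤
      Real.exp ((2 * (2 / (1 - 1 / lam)) + 1 / (2 / lam - 1)) * r ^ lam) := by
    intro N
    -- exponents
    have hfac : ∀ n : ℕ, ‖E1 (-(z / (ub_a lam n : ℂ)))‖ ≤
        Real.exp (if n < M then 2 * r * ((n : ℝ) + 1) ^ (-(1 / lam))
          else r ^ 2 * ((n : ℝ) + 1) ^ (-(2 / lam))) := by
      intro n
      split_ifs with hn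
      · refine (norm_E1_two _).trans (Real.exp_le_exp.2 (le_of_eq ?_))
        rw [ub_norm]
        unfold ub_a
        rw [Real.rpow_neg (by positivity)]
        ring
      · refine (norm_E1_sq _).trans (Real.exp_le_exp.2 ?_)
        rw [ub_norm, div_pow, ← ub_a_sq, ← hr, div_eq_mul_inv (r ^ 2)]
        have : 0 ≤ r ^ 2 * (ub_a lam n ^ 2)⁻¹ := by positivity
        linarith
    have hprod : ‖ub_P lam N z‖ ≤ Real.exp (∑ n ∈ range N,
        (if n < M then 2 * r * ((n : ℝ) + 1) ^ (-(1 / lam))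
          else r ^ 2 * ((n : ℝ) + 1) ^ (-(2 / lam)))) := by
      unfold ub_P
      rw [norm_prod, Real.exp_sum]
      exact Finset.prod_le_prod (fun _ _ => norm_nonneg _) (fun n _ => hfac n)
    refine hprod.trans (Real.exp_le_exp.2 ?_)
    have hnn : ∀ n : ℕ, 0 ≤ (if n < M then 2 * r * ((n : ℝ) + 1) ^ (-(1 / lam))
          else r ^ 2 * ((n : ℝ) + 1) ^ (-(2 / lam))) := by
      intro n
      split_ifs <;> positivity
    have hN' : ∑ n ∈ range N, (if n < M then 2 * r * ((n : ℝ) + 1) ^ (-(1 / lam))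
          else r ^ 2 * ((n : ℝ) + 1) ^ (-(2 / lam))) ≤
        ∑ n ∈ range (max N M), (if n < M then 2 * r * ((n : ℝ) + 1) ^ (-(1 / lam))
          else r ^ 2 * ((n : ℝ) + 1) ^ (-(2 / lam))) := by
      apply Finset.sum_le_sum_of_subset_of_nonneg
      · exact Finset.range_mono (le_max_left _ _)
      · intro n _ _
        exact hnn n
    refine hN'.trans ?_
    rw [← Finset.sum_range_add_sum_Ico _ (le_max_right N M)]
    have hA : ∑ n ∈ range M, (if n < M then 2 * r * ((n : ℝ) + 1) ^ (-(1 / lam))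
          else r ^ 2 * ((n : ℝ) + 1) ^ (-(2 / lam))) ≤ 2 * (2 / (1 - 1 / lam)) * r ^ lam := by
      have e1 : ∑ n ∈ range M, (if n < M then 2 * r * ((n : ℝ) + 1) ^ (-(1 / lam))
          else r ^ 2 * ((n : ℝ) + 1) ^ (-(2 / lam))) =
          2 * r * ∑ n ∈ range M, ((n : ℝ) + 1) ^ (-(1 / lam)) := by
        rw [Finset.mul_sum]
        refine Finset.sum_congr rfl fun n hn => ?_
        rw [if_pos (Finset.mem_range.1 hn)]
      rw [e1]
      have h3 := sum_lowp hp0 hp1 M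
      have hd : 0 < 1 - 1 / lam := by linarith
      have h4 : (M : ℝ) ^ (1 - 1 / lam) ≤ 2 * (r ^ lam / r) := by
        have h5 : (M : ℝ) ^ (1 - 1 / lam) ≤ (2 * r ^ lam) ^ (1 - 1 / lam) :=
          Real.rpow_le_rpow (Nat.cast_nonneg _) hMle hd.le
        have h6 : (2 * r ^ lam) ^ (1 - 1 / lam) = 2 ^ (1 - 1 / lam) * (r ^ lam / r) := by
          rw [Real.mul_rpow (by norm_num) (by positivity), ← Real.rpow_mul hr0.le]
          congr 1
          rw [← Real.rpow_sub_one hr0.ne']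
          congr 1
          field_simp
        have h7 : (2 : ℝ) ^ (1 - 1 / lam) ≤ 2 := by
          calc (2 : ℝ) ^ (1 - 1 / lam) ≤ 2 ^ (1 : ℝ) :=
                Real.rpow_le_rpow_of_exponent_le (by norm_num) (by linarith)
            _ = 2 := Real.rpow_one 2
        rw [h6] at h5
        exact h5.trans (mul_le_mul_of_nonneg_right h7 (by positivity))
      calc 2 * r * ∑ n ∈ range M, ((n : ℝ) + 1) ^ (-(1 / lam))
          ≤ 2 * r * ((2 * (r ^ lam / r)) / (1 - 1 / lam)) := by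
            apply mul_le_mul_of_nonneg_left _ (by positivity)
            exact h3.trans (div_le_div_of_nonneg_right h4 hd.le)
        _ = 2 * (2 / (1 - 1 / lam)) * r ^ lam := by field_simp
    have hB : ∑ n ∈ Ico M (max N M), (if n < M then 2 * r * ((n : ℝ) + 1) ^ (-(1 / lam))
          else r ^ 2 * ((n : ℝ) + 1) ^ (-(2 / lam))) ≤ 1 / (2 / lam - 1) * r ^ lam := by
      have e1 : ∑ n ∈ Ico M (max N M), (if n < M then 2 * r * ((n : ℝ) + 1) ^ (-(1 / lam))
          else r ^ 2 * ((n : ℝ) + 1) ^ (-(2 / lam))) =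
          r ^ 2 * ∑ n ∈ Ico M (max N M), ((n : ℝ) + 1) ^ (-(2 / lam)) := by
        rw [Finset.mul_sum]
        refine Finset.sum_congr rfl fun n hn => ?_
        rw [if_neg (not_lt.2 (Finset.mem_Ico.1 hn).1)]
      rw [e1]
      have h3 := sum_highp hq1 hM1 (le_max_right N M)
      have hd : 0 < 2 / lam - 1 := by linarith
      have h4 : (M : ℝ) ^ (1 - 2 / lam) ≤ r ^ lam / r ^ 2 := by
        have h5 : (M : ℝ) ^ (1 - 2 / lam) ≤ (r ^ lam) ^ (1 - 2 / lam) :=
          Real.rpow_le_rpow_of_nonpos (by positivity) hMge (by linarith)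
        have h6 : (r ^ lam) ^ (1 - 2 / lam) = r ^ lam / r ^ 2 := by
          rw [← Real.rpow_mul hr0.le, ← Real.rpow_natCast r 2, ← Real.rpow_sub hr0]
          congr 1
          field_simp
          push_cast
          ring
        exact h5.trans h6.le
      have h7 : 0 ≤ ((max N M : ℕ) : ℝ) ^ (1 - 2 / lam) := Real.rpow_nonneg (Nat.cast_nonneg _) _
      calc r ^ 2 * ∑ n ∈ Ico M (max N M), ((n : ℝ) + 1) ^ (-(2 / lam))
          ≤ r ^ 2 * ((r ^ lam / r ^ 2) / (2 / lam - 1)) := by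
            apply mul_le_mul_of_nonneg_left _ (by positivity)
            exact h3.trans (div_le_div_of_nonneg_right (by linarith) hd.le)
        _ = 1 / (2 / lam - 1) * r ^ lam := by field_simp
    linarith
  exact le_of_tendsto ((hf.2 z).norm) (Eventually.of_forall hbound)

end Pool.Agent.THX
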