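import Pool.Agent.THX.UBmain
import Pool.Agent.THX.UBbeta

/-!
# THX, module UBpt: asymptotics of `log ‖f‖` in a sector

`|log ‖f (r e^(iθ))‖ + A r^lam cos (lam θ)| ≤ C r` for `|θ| ≤ π - η`, `A = π / sin (π (lam - 1))`.
-/

set_option autoImplicit false

namespace Pool.Agent.THX

open Filter Topology MeasureTheory Set

/-- the point `r e^(iθ)` -/
noncomputable def ub_w (r θ : ℝ) : ℂ := (r : ℂ) * Complex.exp ((θ : ℂ) * Complex.I)

/-- the amplitude -/
noncomputable def ub_A (lam : ℝ) : ℝ := Real.pi / Real.sin (Real.pi * (lam - 1))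

theorem ub_w_norm {r : ℝ} (hr : 0 ≤ r) (θ : ℝ) : ‖ub_w r θ‖ = r := by
  unfold ub_w
  rw [norm_mul, Complex.norm_real, Real.norm_of_nonneg hr, Complex.norm_exp_ofReal_mul_I, mul_one]

theorem ub_w_sec {r θ η : ℝ} (hr : 0 < r) (hη : 0 < η) (hη1 : η < Real.pi) (hθ : |θ| ≤ Real.pi - η) :
    Sec (Real.sin η) (ub_w r θ) := by
  have hsin : 0 < Real.sin η := Real.sin_pos_of_pos_of_lt_pi hη hη1
  refine ⟨hsin, fun t ht => ?_⟩
  rw [ub_w_norm hr.le]
  have hcos : -Real.cos η ≤ Real.cos θ := by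
    rw [← Real.cos_abs θ, ← Real.cos_pi_sub]
    exact Real.cos_le_cos_of_nonneg_of_le_pi (abs_nonneg _) (by linarith) hθ
  have hsq : ‖(t : ℂ) + ub_w r θ‖ ^ 2 = t ^ 2 + 2 * t * r * Real.cos θ + r ^ 2 := by
    rw [← Complex.normSq_eq_norm_sq, Complex.normSq_apply]
    unfold ub_w
    rw [Complex.exp_mul_I]
    simp only [Complex.add_re, Complex.ofReal_re, Complex.mul_re, Complex.add_im, Complex.mul_im,
      Complex.ofReal_im, Complex.cos_ofReal_re, Complex.sin_ofReal_re, Complex.cos_ofReal_im,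
      Complex.sin_ofReal_im, Complex.I_re, Complex.I_im]
    have h := Real.sin_sq_add_cos_sq θ
    ring_nf
    nlinarith [h]
  have h1 := Real.sin_sq_add_cos_sq η
  have hge : t ^ 2 - 2 * t * r * Real.cos η + r ^ 2 ≤ ‖(t : ℂ) + ub_w r θ‖ ^ 2 := by
    rw [hsq]
    have : 0 ≤ 2 * t * r := by positivity
    nlinarith
  constructor
  · apply le_of_sq_le_sq _ (norm_nonneg _)
    nlinarith [sq_nonneg (t - r * Real.cos η)]
  · apply le_of_sq_le_sq _ (norm_nonneg _)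
    nlinarith [sq_nonneg (r - t * Real.cos η)]

theorem ub_w_pow {lam r θ : ℝ} (hr : 0 < r) (hθ : |θ| < Real.pi) :
    (ub_w r θ ^ (lam : ℂ)).re = r ^ lam * Real.cos (lam * θ) := by
  have hlog : Complex.log (ub_w r θ) = (Real.log r : ℂ) + (θ : ℂ) * Complex.I := by
    unfold ub_w
    rw [Complex.log_ofReal_mul hr (Complex.exp_ne_zero _), Complex.log_exp]
    · simpa using (abs_lt.1 hθ).1
    · simpa using (abs_lt.1 hθ).2.le
  have hne : ub_w r θ ≠ 0 := by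
    rw [← norm_pos_iff, ub_w_norm hr.le]
    exact hr
  rw [Complex.cpow_def_of_ne_zero hne, hlog]
  have e1 : ((Real.log r : ℂ) + (θ : ℂ) * Complex.I) * (lam : ℂ) =
      ((Real.log r * lam : ℝ) : ℂ) + ((lam * θ : ℝ) : ℂ) * Complex.I := by
    push_cast
    ring
  rw [e1, Complex.exp_add, ← Complex.ofReal_exp, Complex.re_ofReal_mul, Complex.exp_ofReal_mul_I_re,
    Real.rpow_def_of_pos hr]

theorem main_int {lam : ℝ} (h1 : 1 < lam) (h2 : lam < 2) {z : ℂ} (hz : z ∈ Complex.slitPlane) :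
    ∫ t in Ioi (0 : ℝ), ((t ^ lam : ℝ) : ℂ) * ub_G z t = (ub_A lam : ℂ) * z ^ (lam : ℂ) := by
  have hz0 : z ≠ 0 := Complex.slitPlane_ne_zero hz
  have e1 : ∫ t in Ioi (0 : ℝ), ((t ^ lam : ℝ) : ℂ) * ub_G z t = z ^ 2 * ub_F (lam - 1) z := by
    unfold ub_F
    rw [← integral_const_mul]
    refine setIntegral_congr_fun measurableSet_Ioi fun t ht => ?_
    have ht0 : (0 : ℝ) < t := ht
    have htc : (t : ℂ) ≠ 0 := by exact_mod_cast ht0.ne'
    have e2 : t ^ (lam - 1 - 1) = t ^ lam / t ^ 2 := by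
      have : lam - 1 - 1 = lam - (2 : ℕ) := by push_cast; ring
      rw [this, Real.rpow_sub_natCast ht0.ne']
    have h3 : (t : ℂ) + z ≠ 0 := Complex.slitPlane_ne_zero (slit_add hz ht0.le)
    simp only [ub_G]
    rw [e2]
    push_cast
    field_simp
  rw [e1, ub_F_eq (by linarith) (by linarith) hz]
  unfold ub_A
  have e3 : z ^ (((lam - 1 : ℝ) : ℂ) - 1) = z ^ (lam : ℂ) / z ^ 2 := by
    have : (((lam - 1 : ℝ) : ℂ) - 1) = (lam : ℂ) - (2 : ℕ) := by push_cast; ring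
    rw [this, Complex.cpow_sub _ _ hz0, Complex.cpow_natCast]
  rw [e3]
  field_simp

/-- the asymptotic formula in a sector -/
theorem ub_asym {lam : ℝ} (h1 : 1 < lam) (h2 : lam < 2) {f : ℂ → ℂ} (hf : UBF lam f)
    {r θ η : ℝ} (hr : 0 < r) (hη : 0 < η) (hη1 : η < Real.pi) (hθ : |θ| ≤ Real.pi - η) :
    f (ub_w r θ) ≠ 0 ∧ |Real.log ‖f (ub_w r θ)‖ + ub_A lam * (r ^ lam * Real.cos (lam * θ))| ≤
      r / Real.sin η * (1 / (lam - 1) + 1) := by
  have hs := ub_w_sec hr hη hη1 hθ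
  have hne : ub_w r θ ≠ 0 := by
    rw [← norm_pos_iff, ub_w_norm hr.le]
    exact hr
  have hsl := hs.slit hne
  refine ⟨(main_log h1 h2 hf hs hne).1, ?_⟩
  have h3 := main_err h1 h2 hf hs hne
  rw [main_int h1 h2 hsl, Complex.re_ofReal_mul, ub_w_pow hr (by linarith), ub_w_norm hr.le] at h3
  exact h3

end Pool.Agent.THX
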